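import Pool.Agent.Helper25.Ind2.Mellin

/-!
# IND2 K6: the primitives `Lam ρ θ v = ∫_{s ≤ v} kk ρ θ s ds`

PROOFS.
* `integral_ph_Ioi`: for `v ≥ 0`, `∫_{s>v} ph = ∫_{u>0} ph(v+u) du ≤ C ph(v) ∫_{u>0} ph(u) du` (`ph_mul`, `integrable_ph_exp` with `κ = 0`). For `v ≤ 0`, `∫_{s<v} ph(s) ds ≤ C ph(v)`
  (`ph_le_exp`, `ph_ge_neg`).
* `abs_Lam_sub`: `v ≤ 0`: `|Lam v| ≤ ∫_{s≤v} |kk| ≤ C ∫_{s ≤ v} ph(s)(1+|s|^{-1/2}) ds ≤ C' ph(v)` (for `v ≤ -1` the factor is `≤ 2`; for `-1 ≤ v ≤ 0` the integral is bounded and `ph(v)` is bounded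
  below). `v > 0`: `Lam v - cc ρ 0 θ = -∫_{s>v} kk` (`integral_kk`) and the same estimate on the right side.
* `Lam_LE`: `c = ∫ kk = 0` because `cos ρl = 0`. Pattern `(-,+)` (`LE_ab`, `pattern_np`, `s₀`): for `v ≤ s₀`, `Lam v = ∫_{s≤v} kk ≤ ∫_{s ≤ min(v, s₀ - 1)} kk ≤ -c ∫_{s≤min(v,s₀-1)} ph(s) ds ≤ -c' ph(v)`
  (for `v ≤ s₀`: `∫_{v-2}^{v-1} ph ≥ c ph(v)` by `ph_add_le`, and for `v ∈ [s₀-1,s₀]` the integral over `s ≤ s₀-1` is a positive constant). For `v ≥ s₀`, `Lam v = -∫_{s>v} kk ≤ -∫_{s>max(v,s₀+1)} c ph ≤ -c' ph(v)`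
  (`∫_{v+1}^{v+2} ph ≥ c ph(v)` by `ph_sub_le`).
* `Lam_RE`: mirror image with `pattern_pn`.
* `integral_Lam`: Fubini or integration by parts: `Lam → 0` at `±∞` faster than `1/|v|`, `Lam' = kk` a.e.: `∫ Lam = -∫ s kk(s) ds = - DD ρ θ`. (Fubini: `∫_{v<0} Lam = ∫_{s<0} (-s)... `: for `v<0` use `Lam v = ∫_{s≤v} kk`, for `v>0` `Lam v = -∫_{s>v} kk`;
  `∫_{v<0}∫_{s≤v} kk = ∫_{s<0} (-s) kk(s) ds`, `∫_{v>0} -∫_{s>v} kk = -∫_{s>0} s kk(s) ds`.)
* `U_primitive`: `N y = ∫_{t ≤ y} n t dt`; Fubini `∫ kk(x-y) ∫_{t≤y} n(t) dt dy = ∫ n(t) ∫_{y≥t} kk(x-y) dy dt = ∫ n(t) Lam(x-t) dt`; absolute integrability: `∫∫_{t≤y} |kk(x-y)||n t| ≤ ‖kk‖₁`-type bound: for each `t`, `∫_{y≥t}|kk(x-y)|dy ≤ ∫|kk|`,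
  and `n` is integrable.
-/

open Complex Filter Topology MeasureTheory Set

namespace Helper25.Ind

private lemma lb_ae_ne : ∀ᵐ s : ℝ, s ≠ 0 := by
  simp [ae_iff]

private lemma lb_ph_int {ρ : ℝ} (hρ : 0 < ρ) (hint : ¬ ∃ n : ℕ, ρ = n) : Integrable (ph ρ) := by
  have h := integrable_ph_exp (ρ := ρ) (κ := 0) (by linarith [km_pos hρ hint]) (kp_pos hρ.le)
  simpa using h

lemma integral_ph_Ioi {ρ : ℝ} (hρ : 0 < ρ) (hint : ¬ ∃ n : ℕ, ρ = n) :
    ∃ C > 0, ∀ v : ℝ, 0 ≤ v → ∫ s in Ioi v, ph ρ s ≤ C * ph ρ v := by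
  obtain ⟨C, hC, hm⟩ := ph_mul ρ
  have hI := lb_ph_int hρ hint
  have h0 : 0 ≤ ∫ u in Ioi (0 : ℝ), ph ρ u :=
    setIntegral_nonneg measurableSet_Ioi fun u _ => (ph_pos ρ u).le
  refine ⟨C * (∫ u in Ioi (0 : ℝ), ph ρ u) + 1, by positivity, fun v hv => ?_⟩
  have h1 : ∫ s in Ioi v, ph ρ s = ∫ u in Ioi (0 : ℝ), ph ρ (v + u) := by
    rw [← integral_indicator measurableSet_Ioi, ← integral_indicator measurableSet_Ioi,
      ← integral_add_left_eq_self _ v]
    congr 1
    funext u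
    by_cases hu : 0 < u
    · rw [indicator_of_mem (show v + u ∈ Ioi v by simpa using hu),
        indicator_of_mem (show u ∈ Ioi (0 : ℝ) from hu)]
    · rw [indicator_of_notMem (show v + u ∉ Ioi v by simpa using hu),
        indicator_of_notMem (show u ∉ Ioi (0 : ℝ) from hu)]
  rw [h1]
  have h2 : ∫ u in Ioi (0 : ℝ), ph ρ (v + u) ≤ ∫ u in Ioi (0 : ℝ), C * (ph ρ v * ph ρ u) := by
    refine setIntegral_mono_on ?_ ?_ measurableSet_Ioi fun u hu => ?_
    · exact (hI.comp_add_left v).integrableOn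
    · exact ((hI.const_mul _).const_mul _).integrableOn
    · exact hm v u (Or.inl ⟨hv, (mem_Ioi.1 hu).le⟩)
  refine h2.trans ?_
  have h3 : ∫ u in Ioi (0 : ℝ), C * (ph ρ v * ph ρ u) =
      C * (∫ u in Ioi (0 : ℝ), ph ρ u) * ph ρ v := by
    rw [integral_const_mul, integral_const_mul]
    ring
  rw [h3]
  have := (ph_pos ρ v).le
  nlinarith

lemma integral_ph_Iic {ρ : ℝ} (hρ : 0 < ρ) :
    ∃ C > 0, ∀ v : ℝ, v ≤ 0 → ∫ s in Iic v, ph ρ s ≤ C * ph ρ v := by
  have hk := kp_pos hρ.le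
  have hp : (0 : ℝ) < (⌊ρ⌋₊ : ℝ) + 1 := by positivity
  refine ⟨2 / kp ρ, by positivity, fun v hv => ?_⟩
  have hE := integrableOn_exp_mul_Iic hk v
  have h1 : ∫ s in Iic v, ph ρ s ≤ ∫ s in Iic v, Real.exp (kp ρ * s) / ((⌊ρ⌋₊ : ℝ) + 1) := by
    refine setIntegral_mono_on ?_ (hE.div_const _) measurableSet_Iic fun s _ => ph_le_exp ρ s
    refine Integrable.mono' (hE.div_const ((⌊ρ⌋₊ : ℝ) + 1))
      (continuous_ph ρ).aestronglyMeasurable ?_
    filter_upwards with s
    rw [Real.norm_of_nonneg (ph_pos ρ s).le]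
    exact ph_le_exp ρ s
  refine h1.trans ?_
  rw [integral_div, integral_exp_mul_Iic hk]
  have h2 := ph_ge_neg ρ hv
  calc Real.exp (kp ρ * v) / kp ρ / ((⌊ρ⌋₊ : ℝ) + 1) =
        2 / kp ρ * (Real.exp (kp ρ * v) / (2 * ((⌊ρ⌋₊ : ℝ) + 1))) := by
        field_simp
    _ ≤ 2 / kp ρ * ph ρ v := mul_le_mul_of_nonneg_left h2 (by positivity)

/-- the majorant of the kernel -/
private lemma lb_w_int {ρ : ℝ} (hρ : 0 < ρ) (hint : ¬ ∃ n : ℕ, ρ = n) :
    Integrable (fun s : ℝ => ph ρ s * (1 + |s| ^ (-(1 / 2) : ℝ))) := by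
  have h := integrable_majorant (ρ := ρ) (κ := 0) (km_pos hρ hint) (kp_pos hρ.le)
  simpa using h

private lemma lb_w_nonneg (ρ s : ℝ) : 0 ≤ ph ρ s * (1 + |s| ^ (-(1 / 2) : ℝ)) := by
  have := (ph_pos ρ s).le
  have := Real.rpow_nonneg (abs_nonneg s) (-(1 / 2))
  positivity

private lemma lb_w_le {ρ s : ℝ} (hs : 1 ≤ |s|) :
    ph ρ s * (1 + |s| ^ (-(1 / 2) : ℝ)) ≤ 2 * ph ρ s := by
  have h1 : |s| ^ (-(1 / 2) : ℝ) ≤ 1 := Real.rpow_le_one_of_one_le_of_nonpos hs (by norm_num)
  have := (ph_pos ρ s).le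
  nlinarith

private lemma lb_w {ρ : ℝ} (hρ : 0 < ρ) (hint : ¬ ∃ n : ℕ, ρ = n) : ∃ C > 0,
    (∀ v ≤ (0 : ℝ), ∫ s in Iic v, ph ρ s * (1 + |s| ^ (-(1 / 2) : ℝ)) ≤ C * ph ρ v) ∧
    (∀ v, 0 ≤ v → ∫ s in Ioi v, ph ρ s * (1 + |s| ^ (-(1 / 2) : ℝ)) ≤ C * ph ρ v) := by
  obtain ⟨C1, hC1, H1⟩ := integral_ph_Ioi hρ hint
  obtain ⟨C2, hC2, H2⟩ := integral_ph_Iic hρ
  obtain ⟨c, hc, H3⟩ := ph_ge_pos ρ
  have hI := lb_w_int hρ hint
  have hP := lb_ph_int hρ hint
  set W := ∫ s, ph ρ s * (1 + |s| ^ (-(1 / 2) : ℝ)) with hW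
  have hW0 : 0 ≤ W := integral_nonneg fun s => lb_w_nonneg ρ s
  have hk := kp_pos hρ.le
  have hp : (0 : ℝ) < (⌊ρ⌋₊ : ℝ) + 1 := by positivity
  have hkm := km_nonneg hρ.le
  set c1 := Real.exp (-kp ρ) / (2 * ((⌊ρ⌋₊ : ℝ) + 1)) with hc1
  set c2 := c * Real.exp (-km ρ) with hc2
  have hc1p : 0 < c1 := by positivity
  have hc2p : 0 < c2 := by positivity
  refine ⟨2 * C1 + 2 * C2 + W / c1 + W / c2, by positivity, fun v hv => ?_, fun v hv => ?_⟩
  · have hph := ph_pos ρ v
    rcases le_or_gt v (-1) with h1 | h1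
    · have h2 : ∫ s in Iic v, ph ρ s * (1 + |s| ^ (-(1 / 2) : ℝ)) ≤
          ∫ s in Iic v, 2 * ph ρ s := by
        refine setIntegral_mono_on hI.integrableOn (hP.const_mul 2).integrableOn
          measurableSet_Iic fun s hs => lb_w_le ?_
        have : s ≤ -1 := (mem_Iic.1 hs).trans h1
        rw [abs_of_nonpos (by linarith)]
        linarith
      rw [integral_const_mul] at h2
      have h3 := H2 v hv
      have h4 : (2 * C2) * ph ρ v ≤ (2 * C1 + 2 * C2 + W / c1 + W / c2) * ph ρ v := by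
        refine mul_le_mul_of_nonneg_right ?_ hph.le
        have : 0 ≤ W / c1 := by positivity
        have : 0 ≤ W / c2 := by positivity
        linarith
      linarith
    · have h2 : ∫ s in Iic v, ph ρ s * (1 + |s| ^ (-(1 / 2) : ℝ)) ≤ W :=
        setIntegral_le_integral hI (Eventually.of_forall fun s => lb_w_nonneg ρ s)
      have h3 : c1 ≤ ph ρ v := by
        refine le_trans ?_ (ph_ge_neg ρ hv)
        rw [hc1]
        gcongr
        nlinarith
      have h5 : W ≤ W / c1 * ph ρ v := by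
        rw [div_mul_eq_mul_div, le_div_iff₀ hc1p]
        exact mul_le_mul_of_nonneg_left h3 hW0
      have h4 : W / c1 * ph ρ v ≤ (2 * C1 + 2 * C2 + W / c1 + W / c2) * ph ρ v := by
        refine mul_le_mul_of_nonneg_right ?_ hph.le
        have : 0 ≤ W / c2 := by positivity
        linarith
      linarith
  · have hph := ph_pos ρ v
    rcases le_or_gt 1 v with h1 | h1
    · have h2 : ∫ s in Ioi v, ph ρ s * (1 + |s| ^ (-(1 / 2) : ℝ)) ≤
          ∫ s in Ioi v, 2 * ph ρ s := by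
        refine setIntegral_mono_on hI.integrableOn (hP.const_mul 2).integrableOn
          measurableSet_Ioi fun s hs => lb_w_le ?_
        have : 1 < s := lt_of_le_of_lt h1 (mem_Ioi.1 hs)
        rw [abs_of_nonneg (by linarith)]
        linarith
      rw [integral_const_mul] at h2
      have h3 := H1 v hv
      have h4 : (2 * C1) * ph ρ v ≤ (2 * C1 + 2 * C2 + W / c1 + W / c2) * ph ρ v := by
        refine mul_le_mul_of_nonneg_right ?_ hph.le
        have : 0 ≤ W / c1 := by positivity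
        have : 0 ≤ W / c2 := by positivity
        linarith
      linarith
    · have h2 : ∫ s in Ioi v, ph ρ s * (1 + |s| ^ (-(1 / 2) : ℝ)) ≤ W :=
        setIntegral_le_integral hI (Eventually.of_forall fun s => lb_w_nonneg ρ s)
      have h3 : c2 ≤ ph ρ v := by
        refine le_trans ?_ (H3 v hv)
        rw [hc2]
        gcongr
        nlinarith
      have h5 : W ≤ W / c2 * ph ρ v := by
        rw [div_mul_eq_mul_div, le_div_iff₀ hc2p]
        exact mul_le_mul_of_nonneg_left h3 hW0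
      have h4 : W / c2 * ph ρ v ≤ (2 * C1 + 2 * C2 + W / c1 + W / c2) * ph ρ v := by
        refine mul_le_mul_of_nonneg_right ?_ hph.le
        have : 0 ≤ W / c1 := by positivity
        linarith
      linarith

private lemma lb_set_le {ρ : ℝ} (hρ : 0 < ρ) (hint : ¬ ∃ n : ℕ, ρ = n) {C θ : ℝ} (S : Set ℝ)
    (hθ : θ ∈ Icc (0 : ℝ) Real.pi)
    (hb : ∀ s : ℝ, s ≠ 0 → |kk ρ θ s| ≤ C * (ph ρ s * (1 + |s| ^ (-(1 / 2) : ℝ)))) :
    |∫ s in S, kk ρ θ s| ≤ C * ∫ s in S, ph ρ s * (1 + |s| ^ (-(1 / 2) : ℝ)) := by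
  have hI := lb_w_int hρ hint
  have hk := integrable_kk hρ hint hθ
  rw [← integral_const_mul]
  refine (abs_integral_le_integral_abs).trans ?_
  refine integral_mono_ae hk.abs.integrableOn (hI.const_mul C).integrableOn ?_
  refine ae_restrict_of_ae ?_
  filter_upwards [lb_ae_ne] with s hs
  exact hb s hs

lemma abs_Lam_sub {ρ : ℝ} (hρ : 0 < ρ) (hint : ¬ ∃ n : ℕ, ρ = n) :
    ∃ C > 0, ∀ θ ∈ Icc (0 : ℝ) Real.pi, ∀ v : ℝ,
      |Lam ρ θ v - (if 0 < v then cc ρ 0 θ else 0)| ≤ C * ph ρ v := by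
  obtain ⟨C, hC, hb⟩ := abs_kk_le ρ
  obtain ⟨C', hC', H1, H2⟩ := lb_w hρ hint
  refine ⟨C * C', by positivity, fun θ hθ v => ?_⟩
  have hk := integrable_kk hρ hint hθ
  by_cases hv : 0 < v
  · rw [if_pos hv]
    have h1 : Lam ρ θ v - cc ρ 0 θ = -∫ s in Ioi v, kk ρ θ s := by
      have := intervalIntegral.integral_Iic_add_Ioi (b := v) hk.integrableOn hk.integrableOn
      rw [integral_kk hρ hint hθ] at this
      unfold Lam
      linarith
    rw [h1, abs_neg]
    refine (lb_set_le hρ hint (Ioi v) hθ (hb θ hθ)).trans ?_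
    have := mul_le_mul_of_nonneg_left (H2 v hv.le) hC.le
    linarith
  · rw [if_neg hv, sub_zero]
    unfold Lam
    refine (lb_set_le hρ hint (Iic v) hθ (hb θ hθ)).trans ?_
    have := mul_le_mul_of_nonneg_left (H1 v (not_lt.1 hv)) hC.le
    linarith

private lemma lb_cc {ρ θ : ℝ} (hz : Real.cos (ρ * θ) = 0) : cc ρ 0 θ = 0 := by
  unfold cc
  rw [add_zero, hz, mul_zero, zero_div]

lemma abs_Lam_le {ρ θ : ℝ} (hρ : 0 < ρ) (hint : ¬ ∃ n : ℕ, ρ = n)
    (hθ : θ ∈ Icc (0 : ℝ) Real.pi) (hz : Real.cos (ρ * θ) = 0) :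
    ∃ C > 0, ∀ v : ℝ, |Lam ρ θ v| ≤ C * ph ρ v := by
  obtain ⟨C, hC, h⟩ := abs_Lam_sub hρ hint
  refine ⟨C, hC, fun v => ?_⟩
  have := h θ hθ v
  rw [lb_cc hz] at this
  simpa using this

lemma continuous_Lam {ρ θ : ℝ} (hρ : 0 < ρ) (hint : ¬ ∃ n : ℕ, ρ = n)
    (hθ : θ ∈ Icc (0 : ℝ) Real.pi) : Continuous (Lam ρ θ) := by
  have hk := integrable_kk hρ hint hθ
  have h1 : Lam ρ θ = fun v => Lam ρ θ 0 + ∫ s in (0 : ℝ)..v, kk ρ θ s := by
    funext v
    have := intervalIntegral.integral_Iic_sub_Iic (a := 0) (b := v) (f := kk ρ θ) (μ := volume)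
      hk.integrableOn hk.integrableOn
    unfold Lam
    linarith
  rw [h1]
  exact continuous_const.add
    (intervalIntegral.continuous_primitive (fun a b => hk.intervalIntegrable) 0)

/-- general sign lemma for a pattern `(-,+)` -/
private lemma lb_sign {ρ : ℝ} (hρ : 0 < ρ) {k : ℝ → ℝ} (hk : Integrable k)
    (h0 : ∫ s, k s = 0) {s₀ c : ℝ} (hc : 0 < c)
    (h1 : ∀ s ≤ s₀, k s ≤ 0)
    (h2 : ∀ s, s₀ ≤ s → 0 ≤ k s) (h3 : ∀ s, s ≤ s₀ - 1 → s ≠ 0 → k s ≤ -(c * ph ρ s))
    (h4 : ∀ s, s₀ + 1 ≤ s → s ≠ 0 → c * ph ρ s ≤ k s) :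
    ∀ v, ∫ s in Iic v, k s ≤ -(c * (Real.exp (-2)) * ph ρ v) := by
  have hkp := kp_pos hρ.le
  have hkp1 := kp_le_one hρ.le
  have hkm := km_nonneg hρ.le
  have hkm1 := (km_lt_one hρ.le).le
  intro v
  have hphv := (ph_pos ρ v).le
  rcases le_total v s₀ with hv | hv
  · -- left side
    set m := min v (s₀ - 1) with hm
    have hmv : m ≤ v := min_le_left _ _
    have e1 : ∫ s in Iic v, k s ≤ ∫ s in Ioc (m - 1) m, k s := by
      have a1 : ∫ s in Iic v, -k s ≥ ∫ s in Ioc (m - 1) m, -k s := by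
        refine setIntegral_mono_set hk.neg.integrableOn ?_ ?_
        · filter_upwards [ae_restrict_mem measurableSet_Iic] with s hs
          have := h1 s ((mem_Iic.1 hs).trans hv)
          simp only [Pi.zero_apply]
          linarith
        · refine LE.le.eventuallyLE fun s hs => ?_
          exact hs.2.trans hmv
      rw [integral_neg, integral_neg] at a1
      linarith
    have e2 : ∫ s in Ioc (m - 1) m, k s ≤ ∫ s in Ioc (m - 1) m, -(c * (Real.exp (-2)) * ph ρ v) := by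
      refine integral_mono_ae hk.integrableOn ?_ ?_
      · exact integrableOn_const (by simp)
      · rw [EventuallyLE, ae_restrict_iff' measurableSet_Ioc]
        filter_upwards [lb_ae_ne] with s hs hs2
        have hs3 : s ≤ s₀ - 1 := hs2.2.trans (min_le_right _ _)
        have a1 := h3 s hs3 hs
        have hu0 : 0 ≤ v - s := by linarith [hs2.2]
        have hu2 : v - s ≤ 2 := by
          have : v - 1 ≤ m := by
            rw [hm]
            exact le_min (by linarith) (by linarith)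
          linarith [hs2.1]
        have a2 := ph_add_le ρ hu0 s
        rw [add_sub_cancel] at a2
        have a3 : Real.exp (kp ρ * (v - s)) ≤ Real.exp 2 := by
          apply Real.exp_le_exp.2
          nlinarith
        have a4 : ph ρ v ≤ Real.exp 2 * ph ρ s :=
          a2.trans (mul_le_mul_of_nonneg_right a3 (ph_pos ρ s).le)
        have a5 : Real.exp (-2) * ph ρ v ≤ ph ρ s := by
          have := mul_le_mul_of_nonneg_left a4 (Real.exp_pos (-2)).le
          rw [← mul_assoc, ← Real.exp_add, neg_add_cancel, Real.exp_zero, one_mul] at this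
          exact this
        have a6 := mul_le_mul_of_nonneg_left a5 hc.le
        linarith
    refine e1.trans (e2.trans (le_of_eq ?_))
    rw [setIntegral_const]
    simp
  · -- right side
    set m := max v (s₀ + 1) with hm
    have hmv : v ≤ m := le_max_left _ _
    have e0 : ∫ s in Iic v, k s = -∫ s in Ioi v, k s := by
      have := intervalIntegral.integral_Iic_add_Ioi (b := v) hk.integrableOn hk.integrableOn
      rw [h0] at this
      linarith
    have e1 : ∫ s in Ioc m (m + 1), k s ≤ ∫ s in Ioi v, k s := by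
      refine setIntegral_mono_set hk.integrableOn ?_ ?_
      · filter_upwards [ae_restrict_mem measurableSet_Ioi] with s hs
        exact h2 s (hv.trans (mem_Ioi.1 hs).le)
      · refine LE.le.eventuallyLE fun s hs => ?_
        exact lt_of_le_of_lt hmv hs.1
    have e2 : ∫ s in Ioc m (m + 1), (c * (Real.exp (-2)) * ph ρ v) ≤ ∫ s in Ioc m (m + 1), k s := by
      refine integral_mono_ae ?_ hk.integrableOn ?_
      · exact integrableOn_const (by simp)
      · rw [EventuallyLE, ae_restrict_iff' measurableSet_Ioc]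
        filter_upwards [lb_ae_ne] with s hs hs2
        have hs3 : s₀ + 1 ≤ s := (le_max_right _ _).trans hs2.1.le
        have a1 := h4 s hs3 hs
        have hu0 : 0 ≤ s - v := by linarith [hs2.1]
        have hu2 : s - v ≤ 2 := by
          have : m ≤ v + 1 := by
            rw [hm]
            exact max_le (by linarith) (by linarith)
          linarith [hs2.2]
        have a2 := ph_sub_le ρ hu0 s
        rw [sub_sub_cancel] at a2
        have a3 : Real.exp (km ρ * (s - v)) ≤ Real.exp 2 := by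
          apply Real.exp_le_exp.2
          nlinarith
        have a4 : ph ρ v ≤ Real.exp 2 * ph ρ s :=
          a2.trans (mul_le_mul_of_nonneg_right a3 (ph_pos ρ s).le)
        have a5 : Real.exp (-2) * ph ρ v ≤ ph ρ s := by
          have := mul_le_mul_of_nonneg_left a4 (Real.exp_pos (-2)).le
          rw [← mul_assoc, ← Real.exp_add, neg_add_cancel, Real.exp_zero, one_mul] at this
          exact this
        have a6 := mul_le_mul_of_nonneg_left a5 hc.le
        linarith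
    rw [setIntegral_const] at e2
    simp at e2
    rw [e0]
    linarith

lemma Lam_LE {ρ l : ℝ} (hρ : 0 < ρ) (hint : ¬ ∃ n : ℕ, ρ = n) (hl : LE ρ l) :
    ∃ c > 0, ∀ v : ℝ, Lam ρ l v ≤ -(c * ph ρ v) := by
  have hθ : l ∈ Icc (0 : ℝ) Real.pi := ⟨hl.1, hl.2.1⟩
  obtain ⟨ha, hb⟩ := LE_ab hρ hint hl
  obtain ⟨s₀, h1, h2, h3⟩ := pattern_np ρ hθ ha hb
  obtain ⟨c, hc, h4, h5⟩ := h3 1 one_pos
  refine ⟨c * Real.exp (-2), by positivity, fun v => ?_⟩
  exact lb_sign hρ (integrable_kk hρ hint hθ)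
    (by rw [integral_kk hρ hint hθ, lb_cc hl.2.2.1]) hc h1 h2 h4
    (fun s hs _ => h5 s hs) v

lemma Lam_RE {ρ r : ℝ} (hρ : 0 < ρ) (hint : ¬ ∃ n : ℕ, ρ = n) (hr : RE ρ r) :
    ∃ c > 0, ∀ v : ℝ, c * ph ρ v ≤ Lam ρ r v := by
  have hθ : r ∈ Icc (0 : ℝ) Real.pi := ⟨hr.1, hr.2.1⟩
  obtain ⟨ha, hb⟩ := RE_ab hρ hint hr
  obtain ⟨s₀, h1, h2, h3⟩ := pattern_pn ρ hθ ha hb
  obtain ⟨c, hc, h4, h5⟩ := h3 1 one_pos
  refine ⟨c * Real.exp (-2), by positivity, fun v => ?_⟩
  have hk := integrable_kk hρ hint hθ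
  have := lb_sign hρ hk.neg
    (by
      have : ∫ s, (-kk ρ r) s = -∫ s, kk ρ r s := integral_neg _
      rw [this, integral_kk hρ hint hθ, lb_cc hr.2.2.1, neg_zero]) hc
    (s₀ := s₀)
    (fun s hs => by simpa using h1 s hs) (fun s hs => by simpa using h2 s hs)
    (fun s hs _ => by simpa using h4 s hs)
    (fun s hs _ => by
      have := h5 s hs
      simp only [Pi.neg_apply]
      linarith) v
  have e : ∫ s in Iic v, (-kk ρ r) s = -Lam ρ r v := integral_neg _
  rw [e] at this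
  linarith

lemma integrable_Lam {ρ θ : ℝ} (hρ : 0 < ρ) (hint : ¬ ∃ n : ℕ, ρ = n)
    (hθ : θ ∈ Icc (0 : ℝ) Real.pi) (hz : Real.cos (ρ * θ) = 0) : Integrable (Lam ρ θ) := by
  obtain ⟨C, hC, h⟩ := abs_Lam_le hρ hint hθ hz
  refine Integrable.mono' ((lb_ph_int hρ hint).const_mul C)
    (continuous_Lam hρ hint hθ).aestronglyMeasurable (Eventually.of_forall fun v => ?_)
  exact h v

/-- the signed weight: its integral in `v` is `-s` -/
private noncomputable def lbg (v s : ℝ) : ℝ :=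
  (if s ≤ v then (1 : ℝ) else 0) - (if 0 < v then (1 : ℝ) else 0)

private lemma lbg_meas : Measurable (fun q : ℝ × ℝ => lbg q.1 q.2) := by
  unfold lbg
  refine Measurable.sub ?_ ?_
  · exact Measurable.ite (measurableSet_le measurable_snd measurable_fst) measurable_const
      measurable_const
  · exact Measurable.ite (measurableSet_lt measurable_const measurable_fst) measurable_const
      measurable_const

private lemma lbg_eq (s : ℝ) : (fun v => lbg v s) =
    if s ≤ 0 then indicator (Icc s 0) (fun _ => (1 : ℝ)) else indicator (Ioo 0 s) (fun _ => (-1 : ℝ)) := by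
  funext v
  unfold lbg
  by_cases hs : s ≤ 0
  · rw [if_pos hs]
    by_cases h1 : s ≤ v
    · by_cases h2 : 0 < v
      · rw [if_pos h1, if_pos h2, indicator_of_notMem (fun h => absurd h.2 (not_le.2 h2))]
        norm_num
      · rw [if_pos h1, if_neg h2, indicator_of_mem (show v ∈ Icc s 0 from ⟨h1, not_lt.1 h2⟩)]
        norm_num
    · have h2 : ¬ 0 < v := by
        push Not at h1 ⊢
        linarith
      rw [if_neg h1, if_neg h2, indicator_of_notMem (fun h => h1 h.1)]
      norm_num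
  · rw [if_neg hs]
    push Not at hs
    by_cases h2 : 0 < v
    · by_cases h1 : s ≤ v
      · rw [if_pos h1, if_pos h2, indicator_of_notMem (fun h => absurd h.2 (not_lt.2 h1))]
        norm_num
      · rw [if_neg h1, if_pos h2, indicator_of_mem (show v ∈ Ioo 0 s from ⟨h2, not_le.1 h1⟩)]
        norm_num
    · have h1 : ¬ s ≤ v := by
        push Not at h2 ⊢
        linarith
      rw [if_neg h1, if_neg h2, indicator_of_notMem (fun h => h2 h.1)]
      norm_num

private lemma lbg_int (s : ℝ) : Integrable (fun v => lbg v s) := by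
  rw [lbg_eq]
  split_ifs
  · exact (integrable_indicator_iff measurableSet_Icc).2 (integrableOn_const (by simp))
  · exact (integrable_indicator_iff measurableSet_Ioo).2 (integrableOn_const (by simp))

private lemma lbg_integral (s : ℝ) : ∫ v, lbg v s = -s := by
  have : ∫ v, lbg v s = ∫ v, (fun v => lbg v s) v := rfl
  rw [this, lbg_eq]
  split_ifs with hs
  · rw [integral_indicator measurableSet_Icc, setIntegral_const]
    simp [hs]
  · push Not at hs
    rw [integral_indicator measurableSet_Ioo, setIntegral_const]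
    simp [hs.le]

private lemma lbg_abs (s : ℝ) : ∫ v, |lbg v s| = |s| := by
  have : ∫ v, |lbg v s| = ∫ v, |(fun v => lbg v s) v| := rfl
  rw [this, lbg_eq]
  split_ifs with hs
  · have h1 : ∀ v, |indicator (Icc s 0) (fun _ => (1 : ℝ)) v| =
        indicator (Icc s 0) (fun _ => (1 : ℝ)) v := fun v =>
      abs_of_nonneg (indicator_nonneg (fun _ _ => zero_le_one) v)
    simp only [h1]
    rw [integral_indicator measurableSet_Icc, setIntegral_const]
    simp [hs, abs_of_nonpos hs]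
  · push Not at hs
    have h1 : ∀ v, |indicator (Ioo 0 s) (fun _ => (-1 : ℝ)) v| =
        indicator (Ioo 0 s) (fun _ => (1 : ℝ)) v := by
      intro v
      by_cases hv : v ∈ Ioo 0 s
      · rw [indicator_of_mem hv, indicator_of_mem hv]
        norm_num
      · rw [indicator_of_notMem hv, indicator_of_notMem hv]
        norm_num
    simp only [h1]
    rw [integral_indicator measurableSet_Ioo, setIntegral_const]
    simp [hs.le, abs_of_pos hs]

lemma integral_Lam {ρ θ : ℝ} (hρ : 0 < ρ) (hint : ¬ ∃ n : ℕ, ρ = n)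
    (hθ : θ ∈ Icc (0 : ℝ) Real.pi) (hz : Real.cos (ρ * θ) = 0) :
    ∫ v, Lam ρ θ v = -DD ρ θ := by
  have hk := integrable_kk hρ hint hθ
  have h1 : ∀ v, Lam ρ θ v = ∫ s, lbg v s * kk ρ θ s := by
    intro v
    have e1 : ∀ s, lbg v s * kk ρ θ s = indicator (Iic v) (kk ρ θ) s -
        (if 0 < v then (1 : ℝ) else 0) * kk ρ θ s := by
      intro s
      unfold lbg
      by_cases hs : s ≤ v
      · rw [if_pos hs, indicator_of_mem (show s ∈ Iic v from hs)]
        ring
      · rw [if_neg hs, indicator_of_notMem (show s ∉ Iic v from hs)]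
        ring
    simp only [e1]
    rw [integral_sub (hk.indicator measurableSet_Iic) (hk.const_mul _), integral_const_mul,
      integral_kk hρ hint hθ, lb_cc hz, mul_zero, sub_zero, integral_indicator measurableSet_Iic]
    rfl
  simp only [h1]
  have hint2 : Integrable (Function.uncurry fun v s => lbg v s * kk ρ θ s)
      (volume.prod volume) := by
    have hmeas : Measurable (Function.uncurry fun v s => lbg v s * kk ρ θ s) :=
      lbg_meas.mul ((measurable_kk ρ θ).comp measurable_snd)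
    rw [integrable_prod_iff' hmeas.aestronglyMeasurable]
    refine ⟨Eventually.of_forall fun s => ?_, ?_⟩
    · simp only [Function.uncurry_apply_pair]
      exact (lbg_int s).mul_const _
    · have e2 : (fun s => ∫ v, ‖Function.uncurry (fun v s => lbg v s * kk ρ θ s) (v, s)‖) =
          fun s => |s * kk ρ θ s| := by
        funext s
        simp only [Function.uncurry_apply_pair, norm_mul, Real.norm_eq_abs]
        rw [integral_mul_const, lbg_abs, abs_mul]
      rw [e2]
      exact (integrable_mul_kk hρ hint hθ).abs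
  rw [integral_integral_swap hint2]
  have h3 : ∀ s, ∫ v, lbg v s * kk ρ θ s = -(s * kk ρ θ s) := by
    intro s
    rw [integral_mul_const, lbg_integral]
    ring
  simp only [h3]
  rw [integral_neg, integral_mul_kk hρ hint hθ hz]

lemma U_primitive {ρ θ : ℝ} (hρ : 0 < ρ) (hint : ¬ ∃ n : ℕ, ρ = n)
    (hθ : θ ∈ Icc (0 : ℝ) Real.pi) {n : ℝ → ℝ} (hn : Integrable n) (x : ℝ) :
    U ρ θ (fun y => ∫ t in Iic y, n t) x = ∫ t, Lam ρ θ (x - t) * n t := by
  have hk := integrable_kk hρ hint hθ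
  have hkx : Integrable (fun y => kk ρ θ (x - y)) := hk.comp_sub_left x
  set S : Set (ℝ × ℝ) := {q | q.2 ≤ q.1} with hS
  have hSm : MeasurableSet S := measurableSet_le measurable_snd measurable_fst
  have hI : Integrable (Function.uncurry fun y t =>
      indicator S (fun q : ℝ × ℝ => kk ρ θ (x - q.1) * n q.2) (y, t)) (volume.prod volume) := by
    have h1 : Integrable (fun q : ℝ × ℝ => kk ρ θ (x - q.1) * n q.2) (volume.prod volume) :=
      hkx.mul_prod hn
    exact h1.indicator hSm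
  have e1 : U ρ θ (fun y => ∫ t in Iic y, n t) x =
      ∫ y, ∫ t, indicator S (fun q : ℝ × ℝ => kk ρ θ (x - q.1) * n q.2) (y, t) := by
    unfold U
    refine integral_congr_ae (Eventually.of_forall fun y => ?_)
    simp only
    rw [← integral_const_mul, ← integral_indicator measurableSet_Iic]
    refine integral_congr_ae (Eventually.of_forall fun t => ?_)
    simp only
    by_cases ht : t ≤ y
    · rw [indicator_of_mem (show t ∈ Iic y from ht), indicator_of_mem (show (y, t) ∈ S from ht)]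
    · rw [indicator_of_notMem (show t ∉ Iic y from ht),
        indicator_of_notMem (show (y, t) ∉ S from ht)]
  rw [e1, integral_integral_swap hI]
  refine integral_congr_ae (Eventually.of_forall fun t => ?_)
  simp only
  have e2 : ∀ y, indicator S (fun q : ℝ × ℝ => kk ρ θ (x - q.1) * n q.2) (y, t) =
      indicator (Iic (x - t)) (kk ρ θ) (x - y) * n t := by
    intro y
    by_cases ht : t ≤ y
    · rw [indicator_of_mem (show (y, t) ∈ S from ht),
        indicator_of_mem (show x - y ∈ Iic (x - t) from sub_le_sub_left ht x)]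
    · rw [indicator_of_notMem (show (y, t) ∉ S from ht), indicator_of_notMem, zero_mul]
      intro h
      apply ht
      have := mem_Iic.1 h
      linarith
  simp only [e2]
  rw [integral_mul_const, integral_sub_left_eq_self (fun s => indicator (Iic (x - t)) (kk ρ θ) s),
    integral_indicator measurableSet_Iic]
  rfl

end Helper25.Ind
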