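import Pool.Agent.Helper25.Ind2.Tame
import Pool.Agent.Helper25.Ind2.LamB

/-!
# IND2 N2: flux through a right end

`r` with `RE ρ r` (so `r < π`, `RE_lt_pi`). PROOF. `flux`: for `x₁ ≤ x₂`, Fubini on `[x₁,x₂] × ℝ` (`|kk(x-y)| ≤ C ph(x-y)`, `∫_{x₁}^{x₂} hat < ∞`): `∫_{x₁}^{x₂} Um ρ θ N x dx = ∫ (∫_{x₁}^{x₂} kk(x-y) dx) dN(y) = ∫ (Lam(x₂-y) - Lam(x₁-y)) dN(y)`.
`flux_right`: `F(x) = ∫ Lam ρ r (x-y) dN(y)`, integrable as `|Lam| ≤ C ph` (`abs_Lam_le`), `F ≥ c hat ≥ 0` (`Lam_RE`). If `Um ≤ A` a.e. on `[x₀,∞)`: `F(x) ≤ F(x₁) + A (x - x₁)` for `x ≥ x₁ = max x₀ 0`. If `A < 0` this becomes negative: contradiction; so `0 ≤ A`. And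
`c hat(x) ≤ F(x₁) + A x` for `x ≥ x₁`; on `[0,x₁]` `hat` is bounded (`hat_le`).
`flux_LE`: same with `l` (here `l ≤ π` may be `π`; then use `integrable_kk_tame_ae` and Tonelli on `[x₁,x₂]`): `G(x) = -∫ Lam ρ l (x-y) dN ≥ c hat`, `G(x₂) - G(x₁) = -∫_{x₁}^{x₂} Um ρ l N`.
-/

open Complex Filter Topology MeasureTheory Set

namespace Helper25.Ind

private lemma nf_Lam_int {ρ θ : ℝ} (hρ : 0 < ρ) (hint : ¬ ∃ n : ℕ, ρ = n) {N : Measure ℝ}
    (hN : Tame N) (hθ : θ ∈ Icc (0 : ℝ) Real.pi) (hz : Real.cos (ρ * θ) = 0) (x : ℝ) :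
    Integrable (fun y => Lam ρ θ (x - y)) N := by
  obtain ⟨C, hC, h⟩ := abs_Lam_le hρ hint hθ hz
  refine Integrable.mono' ((integrable_ph_sub hρ hint hN x).const_mul C) ?_
    (Eventually.of_forall fun y => ?_)
  · exact ((continuous_Lam hρ hint hθ).comp (continuous_const.sub continuous_id)).aestronglyMeasurable
  · exact h (x - y)

theorem flux {ρ θ : ℝ} (hρ : 0 < ρ) (hint : ¬ ∃ n : ℕ, ρ = n) {N : Measure ℝ} (hN : Tame N)
    (hθ : θ ∈ Icc (0 : ℝ) Real.pi) (hz : Real.cos (ρ * θ) = 0) {x₁ x₂ : ℝ} (h : x₁ ≤ x₂) :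
    IntervalIntegrable (Um ρ θ N) volume x₁ x₂ ∧
    ∫ x in x₁..x₂, Um ρ θ N x =
      (∫ y, Lam ρ θ (x₂ - y) ∂N) - ∫ y, Lam ρ θ (x₁ - y) ∂N := by
  have hkp := kp_pos hρ.le
  have hkm := km_pos hρ hint
  obtain ⟨κ, hκ0, hκ1, hκ2⟩ : ∃ κ : ℝ, 0 < κ ∧ κ < km ρ ∧ κ < kp ρ := by
    refine ⟨min (km ρ) (kp ρ) / 2, ?_, ?_, ?_⟩
    · have := lt_min hkm hkp
      linarith
    · have h1 := min_le_left (km ρ) (kp ρ)
      have := lt_min hkm hkp
      linarith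
    · have h1 := min_le_right (km ρ) (kp ρ)
      have := lt_min hkm hkp
      linarith
  have hB : ∀ x : ℝ, |(Ioc x₁ x₂).indicator (fun _ => (1 : ℝ)) x| ≤
      Real.exp (κ * (|x₁| + |x₂|)) * Real.exp (-(κ * |x|)) := by
    intro x
    by_cases hx : x ∈ Ioc x₁ x₂
    · rw [indicator_of_mem hx, abs_one, ← Real.exp_add]
      refine Real.one_le_exp ?_
      have h1 : |x| ≤ |x₁| + |x₂| := by
        rw [abs_le]
        have h2 := neg_abs_le x₁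
        have h3 := le_abs_self x₂
        have h4 := abs_nonneg x₁
        have h5 := abs_nonneg x₂
        have h6 := hx.1
        have h7 := hx.2
        constructor <;> linarith
      have h2 := mul_le_mul_of_nonneg_left h1 hκ0.le
      linarith
    · rw [indicator_of_notMem hx, abs_zero]
      positivity
  obtain ⟨f1, f2, f3⟩ := tame_fubini hρ hint hN hθ hκ0 hκ1 hκ2
    (T := (Ioc x₁ x₂).indicator (fun _ => (1 : ℝ)))
    (measurable_const.indicator measurableSet_Ioc) hB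
  have e1 : (fun x => Um ρ θ N x * (Ioc x₁ x₂).indicator (fun _ => (1 : ℝ)) x) =
      (Ioc x₁ x₂).indicator (Um ρ θ N) := by
    funext x
    by_cases hx : x ∈ Ioc x₁ x₂
    · rw [indicator_of_mem hx, indicator_of_mem hx, mul_one]
    · rw [indicator_of_notMem hx, indicator_of_notMem hx, mul_zero]
  rw [e1] at f1 f3
  have hk := integrable_kk hρ hint hθ
  have e2 : ∀ y, ∫ x, kk ρ θ (x - y) * (Ioc x₁ x₂).indicator (fun _ => (1 : ℝ)) x =
      Lam ρ θ (x₂ - y) - Lam ρ θ (x₁ - y) := by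
    intro y
    have e3 : (fun x => kk ρ θ (x - y) * (Ioc x₁ x₂).indicator (fun _ => (1 : ℝ)) x) =
        (Ioc x₁ x₂).indicator (fun x => kk ρ θ (x - y)) := by
      funext x
      by_cases hx : x ∈ Ioc x₁ x₂
      · rw [indicator_of_mem hx, indicator_of_mem hx, mul_one]
      · rw [indicator_of_notMem hx, indicator_of_notMem hx, mul_zero]
    rw [e3, integral_indicator measurableSet_Ioc, ← intervalIntegral.integral_of_le h,
      intervalIntegral.integral_comp_sub_right (fun s => kk ρ θ s) y]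
    unfold Lam
    rw [intervalIntegral.integral_Iic_sub_Iic hk.integrableOn hk.integrableOn]
  refine ⟨?_, ?_⟩
  · rw [intervalIntegrable_iff_integrableOn_Ioc_of_le h]
    exact (integrable_indicator_iff measurableSet_Ioc).1 f1
  · rw [intervalIntegral.integral_of_le h, ← integral_indicator measurableSet_Ioc, f3]
    simp only [e2]
    exact integral_sub (nf_Lam_int hρ hint hN hθ hz x₂) (nf_Lam_int hρ hint hN hθ hz x₁)

private lemma nf_mono {ρ θ A x₀ : ℝ} (hρ : 0 < ρ) (hint : ¬ ∃ n : ℕ, ρ = n) {N : Measure ℝ}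
    (hN : Tame N) (hθ : θ ∈ Icc (0 : ℝ) Real.pi) (hz : Real.cos (ρ * θ) = 0)
    (hx₀ : ∀ᵐ x : ℝ, x₀ ≤ x → Um ρ θ N x ≤ A) {x₁ x₂ : ℝ} (h0 : x₀ ≤ x₁) (h : x₁ ≤ x₂) :
    (∫ y, Lam ρ θ (x₂ - y) ∂N) - (∫ y, Lam ρ θ (x₁ - y) ∂N) ≤ A * (x₂ - x₁) := by
  obtain ⟨f1, f2⟩ := flux hρ hint hN hθ hz h
  rw [← f2]
  have h1 : ∫ x in x₁..x₂, Um ρ θ N x ≤ ∫ _ in x₁..x₂, A := by
    refine intervalIntegral.integral_mono_ae_restrict h f1 (by simp) ?_
    rw [EventuallyLE, ae_restrict_iff' measurableSet_Icc]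
    filter_upwards [hx₀] with x hx hxm
    exact hx (h0.trans hxm.1)
  rw [intervalIntegral.integral_const, smul_eq_mul] at h1
  linarith

theorem flux_right {ρ r A : ℝ} (hρ : 0 < ρ) (hint : ¬ ∃ n : ℕ, ρ = n) {N : Measure ℝ}
    (hN : Tame N) (hr : RE ρ r) (h : EvLe ρ N r A) :
    0 ≤ A ∧ ∃ C, ∀ x, 0 ≤ x → hat ρ N x ≤ C * (1 + x) := by
  have hθ : r ∈ Icc (0 : ℝ) Real.pi := ⟨hr.1, hr.2.1⟩
  obtain ⟨x₀, hx₀⟩ := h
  obtain ⟨c, hc, hL⟩ := Lam_RE hρ hint hr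
  have hlow : ∀ x, c * hat ρ N x ≤ ∫ y, Lam ρ r (x - y) ∂N := by
    intro x
    unfold hat
    rw [← integral_const_mul]
    exact integral_mono ((integrable_ph_sub hρ hint hN x).const_mul c)
      (nf_Lam_int hρ hint hN hθ hr.2.2.1 x) fun y => hL (x - y)
  have hF0 : ∀ x, 0 ≤ ∫ y, Lam ρ r (x - y) ∂N := fun x =>
    (mul_nonneg hc.le (hat_nonneg ρ N x)).trans (hlow x)
  obtain ⟨x₁, hx₁⟩ : ∃ x₁, x₁ = max x₀ 0 := ⟨_, rfl⟩
  have h01 : x₀ ≤ x₁ := hx₁ ▸ le_max_left _ _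
  have h02 : 0 ≤ x₁ := hx₁ ▸ le_max_right _ _
  obtain ⟨F₁, hF₁⟩ : ∃ F₁, F₁ = ∫ y, Lam ρ r (x₁ - y) ∂N := ⟨_, rfl⟩
  have hF₁0 : 0 ≤ F₁ := hF₁ ▸ hF0 x₁
  have hup : ∀ x, x₁ ≤ x → ∫ y, Lam ρ r (x - y) ∂N ≤ F₁ + A * (x - x₁) := by
    intro x hx
    have := nf_mono hρ hint hN hθ hr.2.2.1 hx₀ h01 hx
    rw [← hF₁] at this
    linarith
  have hA : 0 ≤ A := by
    by_contra hA
    push Not at hA
    have h1 : 0 ≤ (F₁ + 1) / (-A) := div_nonneg (by linarith) (by linarith)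
    have h2 := hup (x₁ + (F₁ + 1) / (-A)) (by linarith)
    have h3 := hF0 (x₁ + (F₁ + 1) / (-A))
    have h4 : A * (x₁ + (F₁ + 1) / (-A) - x₁) = -(F₁ + 1) := by
      have h5 : A ≠ 0 := hA.ne
      field_simp
      ring
    rw [h4] at h2
    linarith
  refine ⟨hA, ?_⟩
  obtain ⟨C', hC', hh⟩ := hat_le hρ hint hN one_pos
  refine ⟨F₁ / c + A / c + C' * Real.exp x₁, fun x hx => ?_⟩
  have p1 : 0 ≤ F₁ / c := div_nonneg hF₁0 hc.le
  have p2 : 0 ≤ A / c := div_nonneg hA hc.le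
  have p3 : 0 ≤ C' * Real.exp x₁ := by positivity
  rcases le_total x₁ x with h1 | h1
  · have h2 := (hlow x).trans (hup x h1)
    have h3 : hat ρ N x ≤ (F₁ + A * x) / c := by
      rw [le_div_iff₀ hc]
      have : A * (x - x₁) ≤ A * x := mul_le_mul_of_nonneg_left (by linarith) hA
      linarith
    have h4 : (F₁ + A * x) / c = F₁ / c + A / c * x := by ring
    rw [h4] at h3
    have h5 : 0 ≤ F₁ / c * x := mul_nonneg p1 hx
    have h6 : 0 ≤ C' * Real.exp x₁ * (1 + x) := mul_nonneg p3 (by linarith)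
    nlinarith
  · have h2 := hh x
    have h3 : Real.exp (1 * |x|) ≤ Real.exp x₁ := by
      apply Real.exp_le_exp.2
      rw [abs_of_nonneg hx, one_mul]
      exact h1
    have h4 : hat ρ N x ≤ C' * Real.exp x₁ := h2.trans (mul_le_mul_of_nonneg_left h3 hC'.le)
    have h5 : 0 ≤ (F₁ / c + A / c) * (1 + x) := mul_nonneg (by linarith) (by linarith)
    have h6 : 0 ≤ C' * Real.exp x₁ * x := mul_nonneg p3 hx
    nlinarith

/-- a left end with negative indicator: the envelope grows at least linearly -/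
theorem flux_LE {ρ l δ : ℝ} (hρ : 0 < ρ) (hint : ¬ ∃ n : ℕ, ρ = n) {N : Measure ℝ}
    (hN : Tame N) (hl : LE ρ l) (hδ : 0 < δ) (h : EvLe ρ N l (-δ)) :
    ∃ c > 0, ∃ x₁, ∀ x, x₁ ≤ x → c * x ≤ hat ρ N x := by
  have hθ : l ∈ Icc (0 : ℝ) Real.pi := ⟨hl.1, hl.2.1⟩
  obtain ⟨x₀, hx₀⟩ := h
  obtain ⟨c, hc, hL⟩ := Lam_LE hρ hint hl
  obtain ⟨C, hC, hLC⟩ := abs_Lam_le hρ hint hθ hl.2.2.1
  have hlow : ∀ x, ∫ y, Lam ρ l (x - y) ∂N ≤ -(c * hat ρ N x) := by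
    intro x
    unfold hat
    rw [← integral_const_mul, ← integral_neg]
    exact integral_mono (nf_Lam_int hρ hint hN hθ hl.2.2.1 x)
      ((integrable_ph_sub hρ hint hN x).const_mul c).neg fun y => hL (x - y)
  have hup : ∀ x, -(C * hat ρ N x) ≤ ∫ y, Lam ρ l (x - y) ∂N := by
    intro x
    unfold hat
    rw [← integral_const_mul, ← integral_neg]
    exact integral_mono ((integrable_ph_sub hρ hint hN x).const_mul C).neg
      (nf_Lam_int hρ hint hN hθ hl.2.2.1 x) fun y => (abs_le.1 (hLC (x - y))).1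
  obtain ⟨x₁, hx₁⟩ : ∃ x₁, x₁ = max x₀ 0 := ⟨_, rfl⟩
  have h01 : x₀ ≤ x₁ := hx₁ ▸ le_max_left _ _
  have h02 : 0 ≤ x₁ := hx₁ ▸ le_max_right _ _
  refine ⟨δ / (2 * C), by positivity, 2 * x₁, fun x hx => ?_⟩
  have hx1 : x₁ ≤ x := by linarith
  have h1 := nf_mono hρ hint hN hθ hl.2.2.1 hx₀ h01 hx1
  have h2 := hlow x₁
  have h3 := hup x
  have h4 : 0 ≤ c * hat ρ N x₁ := mul_nonneg hc.le (hat_nonneg ρ N x₁)
  have h5 : δ * (x - x₁) ≤ C * hat ρ N x := by linarith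
  have h6 : δ / (2 * C) * x = δ * (x / 2) / C := by
    field_simp
  rw [h6, div_le_iff₀ hC]
  have h7 : δ * (x / 2) ≤ δ * (x - x₁) := mul_le_mul_of_nonneg_left (by linarith) hδ.le
  linarith

end Helper25.Ind
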