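import Pool.Agent.Helper25.Ind2.Tame

/-!
# IND2 N4: the majorisation inequality for a tame measure

PROOF. Fix `κ` with `0 < κ < min(kp, km)` (in the second case of `hgr` also `κ ≤` the given exponent). Put `ñ(Z) = ∑ ∫ e^{-κ|x-Z|} dμ j(x)`.
(1) For a.e. `x₀`: the inequality `kk τ (x₀-y) ≤ ∑ ∫ kk (φ j)(x₀-y+x) dμ j(x)` holds for `N`-a.e. `y` (if `E` is the Lebesgue null exceptional set, `∫ N{y : x₀ - y ∈ E} dx₀ = 0` by Tonelli, `N` σ-finite); `Um ρ (φ j) N (x₀+x) ≤ A j` for `μ j`-a.e. `x` with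
    `x₀ + x ≥ X` (`X` = max of the thresholds; same Tonelli argument); `y ↦ kk τ (x₀-y)` is `N`-integrable; `(x,y) ↦ kk (φ j)(x₀-y+x)` is integrable for `μ j × N|_{y≤Z}` for every integer `Z` (`∫_{|x₀|≤K}` of the double integral is finite since `kk ∈ L¹`, `N|_{≤Z}` and `μ j` are finite).
(2) For such `x₀` and `Z ∈ ℕ`, `N_Z = N|_{y ≤ Z}`: `Um τ N_Z (x₀) ≤ ∑ ∫ Um (φ j) N_Z (x₀+x) dμ j(x)` (integrate (1) over `y ≤ Z`, Fubini).
(3) Upper bounds of `v = Um (φ j) N_Z (x₁)`, `x₁ = x₀+x`: if `x₁ ≥ Z - 1`: `v ≤ C ∫_{y≤Z} ph(x₁-y) dN ≤ C' e^{-κ|x₁-Z|} hat Z` (`kk_le_ph`, `tail_left`, `hat_add`). If `X ≤ x₁ ≤ Z-1`: `v = Um N(x₁) - ∫_{y>Z} kk(x₁-y) dN ≤ A j + C e^{-kp(Z-x₁)} hat Z`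
    (`|x₁-y| ≥ 1` so `abs_kk_le_far`, `tail_right`) (for a.e. such `x₁` where `kk(x₁-·)` is `N`-integrable). If `x₁ ≤ X`: `v ≤ C hat(x₁) ≤ C_X` (`hat_left`).
    Hence `Um τ N_Z(x₀) ≤ ∑ [A j μ j{X - x₀ ≤ x ≤ Z-1-x₀} + C_X μ j{x < X-x₀}] + C hat(Z) ñ(Z - x₀)`.
(4) `Z → ∞` along a subsequence with `hat(Z) ñ(Z-x₀) → 0`: in the first case of `hgr`, `∑_{Z ∈ ℕ} ñ(Z - x₀) < ∞` (`∑_Z e^{-κ|x-Z|} ≤ C`), so `liminf (1+Z) ñ(Z-x₀) = 0` (otherwise `ñ ≥ c/(1+Z)`, divergent). In the second, `e^{-κ|x-Z|} ≤ e^{-κ Z} e^{κ|x|}`, more precisely `ñ(Z) ≤ e^{-κ Z} ∑ ∫ e^{κ x^+} ... `: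
    for `x ≤ Z`, `e^{-κ(Z-x)}`, for `x > Z`, `≤ 1 ≤ e^{κ(x-Z)}`; so `ñ(Z) ≤ e^{-κ Z} ∑ ∫ e^{κ x} dμ j`, and `hat(Z) ≤ C e^{(κ/2) Z}`.
    Left side: `Um τ N_Z(x₀) → Um τ N(x₀)` (dominated convergence). So `Um τ N(x₀) ≤ ∑ [A j μ j{x ≥ X-x₀} + C_X μ j{x<X-x₀}]` for a.e. `x₀`.
(5) The right side tends to `∑ A j μ j(ℝ)` as `x₀ → ∞`. If `B > ∑ A j μ j(ℝ)` then `Um τ N x₀ < B` for a.e. large `x₀`, contradiction to `FrGe`.
-/

open Complex Filter Topology MeasureTheory Set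

namespace Helper25.Ind

private lemma nm_ae_shift {P : ℝ → Prop} (h : ∀ᵐ s : ℝ, P s) {Ω : Type*} [MeasurableSpace Ω]
    (ν : Measure Ω) [SFinite ν] {g : Ω → ℝ} (hg : Measurable g) :
    ∀ᵐ x₀ : ℝ, ∀ᵐ y ∂ν, P (x₀ + g y) := by
  obtain ⟨E, hE1, hE2, hE3⟩ : ∃ E : Set ℝ, {s | ¬ P s} ⊆ E ∧ MeasurableSet E ∧
      volume E = 0 := by
    refine ⟨toMeasurable volume {s | ¬ P s}, subset_toMeasurable _ _,
      measurableSet_toMeasurable _ _, ?_⟩
    rw [measure_toMeasurable]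
    exact ae_iff.1 h
  have hm : MeasurableSet {q : ℝ × Ω | q.1 + g q.2 ∉ E} := by
    have h1 : Measurable fun q : ℝ × Ω => q.1 + g q.2 :=
      measurable_fst.add (hg.comp measurable_snd)
    exact (h1 hE2).compl
  have h1 : ∀ᵐ y ∂ν, ∀ᵐ x₀ : ℝ, x₀ + g y ∉ E := by
    refine Eventually.of_forall fun y => ?_
    have h2 : volume ((fun x : ℝ => x + g y) ⁻¹' E) = 0 := by
      rw [measure_preimage_add_right]
      exact hE3
    exact compl_mem_ae_iff.2 h2
  have h2 := (Measure.ae_ae_comm hm).2 h1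
  filter_upwards [h2] with x hx
  filter_upwards [hx] with y hy
  by_contra hc
  exact hy (hE1 hc)

private lemma nm_int_ae {k : ℝ → ℝ} (hk : Integrable k) (hkm : Measurable k) {Ω : Type*}
    [MeasurableSpace Ω] (ν : Measure Ω) [IsFiniteMeasure ν] {g : Ω → ℝ} (hg : Measurable g) :
    ∀ᵐ x₀ : ℝ, Integrable (fun y => k (x₀ + g y)) ν := by
  have hm : Measurable fun q : ℝ × Ω => k (q.1 + g q.2) :=
    hkm.comp (measurable_fst.add (hg.comp measurable_snd))
  have h : Integrable (fun q : ℝ × Ω => k (q.1 + g q.2)) (volume.prod ν) := by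
    rw [integrable_prod_iff' hm.aestronglyMeasurable]
    constructor
    · exact Eventually.of_forall fun y => hk.comp_add_right (g y)
    · have h1 : (fun y => ∫ x : ℝ, ‖k (x + g y)‖) = fun _ => ∫ x : ℝ, ‖k x‖ := by
        funext y
        exact integral_add_right_eq_self (fun x => ‖k x‖) (g y)
      change Integrable (fun y => ∫ x : ℝ, ‖k (x + g y)‖) ν
      rw [h1]
      exact integrable_const _
  exact h.prod_right_ae

private lemma nm_tame {N : Measure ℝ} (hN : Tame N) (s : Set ℝ) : Tame (N.restrict s) := by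
  obtain ⟨y₀, h0⟩ := hN.left
  refine ⟨⟨y₀, ?_⟩, fun κ hκ => ?_⟩
  · have h1 : (N.restrict s) (Iio y₀) ≤ N (Iio y₀) := Measure.restrict_le_self _
    rw [h0] at h1
    exact nonpos_iff_eq_zero.1 h1
  · exact (lintegral_mono' Measure.restrict_le_self le_rfl).trans_lt (hN.fin κ hκ)

private lemma nm_hat_mono {ρ : ℝ} (hρ : 0 < ρ) (hint : ¬ ∃ n : ℕ, ρ = n) {N : Measure ℝ}
    (hN : Tame N) (s : Set ℝ) (x : ℝ) : hat ρ (N.restrict s) x ≤ hat ρ N x := by
  unfold hat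
  exact setIntegral_le_integral (integrable_ph_sub hρ hint hN x)
    (Eventually.of_forall fun y => (ph_pos ρ (x - y)).le)

private lemma nm_ph {ρ κ : ℝ} (hκ : 0 < κ) (h1 : κ < km ρ) (h2 : κ < kp ρ) :
    ∃ C > 0, ∀ s : ℝ, ph ρ s ≤ C * Real.exp (-(κ * |s|)) := by
  obtain ⟨C, hC, hb⟩ := ph_le_pos ρ h1
  refine ⟨C + 1, by linarith, fun s => ?_⟩
  have he := Real.exp_pos (-(κ * |s|))
  rcases le_total 0 s with hs | hs
  · have h3 := hb s hs
    rw [abs_of_nonneg hs] at he ⊢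
    nlinarith
  · have h3 := ph_le_exp ρ s
    rw [abs_of_nonpos hs] at he ⊢
    have h4 : Real.exp (kp ρ * s) / ((⌊ρ⌋₊ : ℝ) + 1) ≤ Real.exp (kp ρ * s) := by
      apply div_le_self (Real.exp_pos _).le
      have : (0 : ℝ) ≤ ⌊ρ⌋₊ := Nat.cast_nonneg _
      linarith
    have h5 : Real.exp (kp ρ * s) ≤ Real.exp (-(κ * -s)) := by
      rw [Real.exp_le_exp]
      nlinarith
    nlinarith

private lemma nm_sum {κ : ℝ} (hκ : 0 < κ) : ∃ C > 0, ∀ (t : ℝ) (K : ℕ),
    ∑ Z ∈ Finset.range K, Real.exp (-(κ * |t - (Z : ℝ)|)) ≤ C := by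
  have hnat : Summable fun n : ℕ => Real.exp (-(κ * (n : ℝ))) := by
    have h1 : (fun n : ℕ => Real.exp (-(κ * (n : ℝ)))) = fun n : ℕ => Real.exp (-κ) ^ n := by
      funext n
      rw [← Real.exp_nat_mul]
      congr 1
      ring
    rw [h1]
    refine summable_geometric_of_lt_one (Real.exp_pos _).le ?_
    rw [Real.exp_lt_one_iff]
    linarith
  have hg : Summable fun k : ℤ => Real.exp (-(κ * |(k : ℝ)|)) := by
    refine Summable.of_nat_of_neg ?_ ?_
    · refine hnat.congr fun n => ?_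
      rw [Int.cast_natCast, abs_of_nonneg (Nat.cast_nonneg n)]
    · refine hnat.congr fun n => ?_
      rw [Int.cast_neg, abs_neg, Int.cast_natCast, abs_of_nonneg (Nat.cast_nonneg n)]
  have hg0 : 0 ≤ ∑' k : ℤ, Real.exp (-(κ * |(k : ℝ)|)) := tsum_nonneg fun k => (Real.exp_pos _).le
  refine ⟨Real.exp κ * ∑' k : ℤ, Real.exp (-(κ * |(k : ℝ)|)) + 1, ?_, fun t K => ?_⟩
  · have := mul_nonneg (Real.exp_pos κ).le hg0
    linarith
  have h1 : ∀ Z : ℕ, Real.exp (-(κ * |t - (Z : ℝ)|)) ≤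
      Real.exp κ * Real.exp (-(κ * |((⌊t⌋ - (Z : ℤ) : ℤ) : ℝ)|)) := by
    intro Z
    rw [← Real.exp_add, Real.exp_le_exp]
    have h2 : |((⌊t⌋ - (Z : ℤ) : ℤ) : ℝ)| ≤ |t - (Z : ℝ)| + 1 := by
      push_cast
      have h3 := Int.floor_le t
      have h4 := Int.lt_floor_add_one t
      have h5 := abs_sub_le (⌊t⌋ : ℝ) t (Z : ℝ)
      have h6 : |(⌊t⌋ : ℝ) - t| ≤ 1 := by
        rw [abs_le]
        constructor <;> linarith
      linarith
    have h3 := mul_le_mul_of_nonneg_left h2 hκ.le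
    rw [mul_add, mul_one] at h3
    linarith
  have hinj : Function.Injective fun Z : ℕ => ⌊t⌋ - (Z : ℤ) := by
    intro a b hab
    simp only at hab
    omega
  have h2 : ∑ Z ∈ Finset.range K, Real.exp (-(κ * |((⌊t⌋ - (Z : ℤ) : ℤ) : ℝ)|)) ≤
      ∑' k : ℤ, Real.exp (-(κ * |(k : ℝ)|)) := by
    have h3 := hg.sum_le_tsum ((Finset.range K).map ⟨fun Z : ℕ => ⌊t⌋ - (Z : ℤ), hinj⟩)
      (fun _ _ => (Real.exp_pos _).le)
    rw [Finset.sum_map] at h3
    exact h3
  calc ∑ Z ∈ Finset.range K, Real.exp (-(κ * |t - (Z : ℝ)|))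
      ≤ ∑ Z ∈ Finset.range K, Real.exp κ * Real.exp (-(κ * |((⌊t⌋ - (Z : ℤ) : ℤ) : ℝ)|)) :=
        Finset.sum_le_sum fun Z _ => h1 Z
    _ = Real.exp κ * ∑ Z ∈ Finset.range K, Real.exp (-(κ * |((⌊t⌋ - (Z : ℤ) : ℤ) : ℝ)|)) := by
        rw [Finset.mul_sum]
    _ ≤ Real.exp κ * ∑' k : ℤ, Real.exp (-(κ * |(k : ℝ)|)) :=
        mul_le_mul_of_nonneg_left h2 (Real.exp_pos κ).le
    _ ≤ _ := by linarith

private lemma nm_freq1 {s h : ℕ → ℝ} (hs : Summable s) {C : ℝ} (h0 : ∀ Z, 0 ≤ h Z)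
    (s0 : ∀ Z, 0 ≤ s Z) (hC : ∀ Z : ℕ, h Z ≤ C * (1 + (Z : ℝ))) {ε : ℝ} (hε : 0 < ε) :
    ∃ᶠ Z : ℕ in atTop, h Z * s Z < ε := by
  intro hc
  have hC0 : 0 ≤ C := by
    have h1 := (h0 0).trans (hC 0)
    simpa using h1
  have h1 : ∀ᶠ Z : ℕ in atTop, ‖ε / ((C + 1) * (1 + (Z : ℝ)))‖ ≤ s Z := by
    filter_upwards [hc] with Z hZ
    push Not at hZ
    have hZ0 : (0 : ℝ) ≤ Z := Nat.cast_nonneg Z
    have h3 : h Z ≤ (C + 1) * (1 + (Z : ℝ)) := by
      have := hC Z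
      nlinarith
    have h2 := hZ.trans (mul_le_mul_of_nonneg_right h3 (s0 Z))
    rw [Real.norm_of_nonneg (by positivity), div_le_iff₀ (by positivity)]
    linarith
  have h2 : Summable fun Z : ℕ => ε / ((C + 1) * (1 + (Z : ℝ))) := by
    refine Summable.of_norm_bounded_eventually_nat hs h1
  have h3 : Summable fun Z : ℕ => 1 / ((Z + 1 : ℕ) : ℝ) := by
    refine (h2.mul_left ((C + 1) / ε)).congr fun Z => ?_
    have hZ0 : (0 : ℝ) ≤ Z := Nat.cast_nonneg Z
    have h4 : C + 1 ≠ 0 := by linarith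
    have h5 : (1 : ℝ) + Z ≠ 0 := by linarith
    push_cast
    rw [add_comm (Z : ℝ) 1]
    field_simp
  exact Real.not_summable_one_div_natCast ((summable_nat_add_iff (f := fun n : ℕ => 1 / (n : ℝ)) 1).1 h3)

private lemma nm_bi {ν : Measure ℝ} [IsFiniteMeasure ν] (κ x₀ z : ℝ) (hκ : 0 < κ) :
    Integrable (fun x : ℝ => Real.exp (-(κ * |x₀ + x - z|))) ν := by
  refine Integrable.mono' (integrable_const (1 : ℝ)) ?_ (Eventually.of_forall fun x => ?_)
  · have : Continuous fun x : ℝ => Real.exp (-(κ * |x₀ + x - z|)) := by fun_prop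
    exact this.aestronglyMeasurable
  · rw [Real.norm_of_nonneg (Real.exp_pos _).le, Real.exp_le_one_iff]
    have := mul_nonneg hκ.le (abs_nonneg (x₀ + x - z))
    linarith

private lemma nm_summable {κ : ℝ} (hκ : 0 < κ) (ν : Measure ℝ) [IsFiniteMeasure ν] (x₀ : ℝ) :
    Summable fun Z : ℕ => ∫ x, Real.exp (-(κ * |x₀ + x - (Z : ℝ)|)) ∂ν := by
  obtain ⟨C, hC, hb⟩ := nm_sum hκ
  refine summable_of_sum_range_le (c := C * (ν univ).toReal) (fun Z => ?_) (fun K => ?_)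
  · exact integral_nonneg fun x => (Real.exp_pos _).le
  · rw [← integral_finsetSum (Finset.range K)
      (f := fun (Z : ℕ) (x : ℝ) => Real.exp (-(κ * |x₀ + x - (Z : ℝ)|)))
      (fun Z _ => nm_bi κ x₀ (Z : ℝ) hκ)]
    have h1 : ∫ x, ∑ Z ∈ Finset.range K, Real.exp (-(κ * |x₀ + x - (Z : ℝ)|)) ∂ν ≤
        ∫ _, C ∂ν := by
      refine integral_mono (integrable_finsetSum _ fun Z _ => nm_bi κ x₀ (Z : ℝ) hκ)
        (integrable_const C) fun x => ?_
      exact hb (x₀ + x) K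
    refine h1.trans (le_of_eq ?_)
    rw [integral_const, smul_eq_mul, mul_comm]
    rfl

private lemma nm_freq {ρ : ℝ} (hρ : 0 < ρ) (hint : ¬ ∃ n : ℕ, ρ = n) {N : Measure ℝ}
    (hN : Tame N) {n : ℕ} {μ : Fin n → Measure ℝ} (hμ : ∀ j, IsFiniteMeasure (μ j))
    (hgr : (∃ C, ∀ x, 0 ≤ x → hat ρ N x ≤ C * (1 + x)) ∨
      ∃ κ > 0, ∀ j, ∫⁻ x, ENNReal.ofReal (Real.exp (κ * x)) ∂(μ j) < ⊤) :
    ∃ κ > 0, κ < km ρ ∧ κ < kp ρ ∧ ∀ (x₀ : ℝ) (ε : ℝ), 0 < ε →
      ∃ᶠ Z : ℕ in atTop,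
        hat ρ N Z * ∑ j, ∫ x, Real.exp (-(κ * |x₀ + x - (Z : ℝ)|)) ∂(μ j) < ε := by
  have hm := km_pos hρ hint
  have hp := kp_pos hρ.le
  have hmin : 0 < min (km ρ) (kp ρ) := lt_min hm hp
  rcases hgr with ⟨C, hC⟩ | ⟨κ', hκ', hfin⟩
  · refine ⟨min (km ρ) (kp ρ) / 2, half_pos hmin, ?_, ?_, ?_⟩
    · have := min_le_left (km ρ) (kp ρ)
      linarith
    · have := min_le_right (km ρ) (kp ρ)
      linarith
    · intro x₀ ε hε
      refine nm_freq1 (h := fun Z : ℕ => hat ρ N Z) (C := C) ?_ (fun Z => hat_nonneg ρ N _) ?_ ?_ hε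
      · exact summable_sum fun j _ => nm_summable (half_pos hmin) (μ j) x₀
      · exact fun Z => Finset.sum_nonneg fun j _ => integral_nonneg fun x => (Real.exp_pos _).le
      · exact fun Z => hC Z (Nat.cast_nonneg Z)
  · obtain ⟨κ, hκ⟩ : ∃ κ, κ = min (min (km ρ) (kp ρ)) κ' / 2 := ⟨_, rfl⟩
    have hκ0 : 0 < κ := by
      rw [hκ]
      exact half_pos (lt_min hmin hκ')
    have a1 := min_le_left (min (km ρ) (kp ρ)) κ'
    have a2 := min_le_right (min (km ρ) (kp ρ)) κ'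
    have a3 := min_le_left (km ρ) (kp ρ)
    have a4 := min_le_right (km ρ) (kp ρ)
    refine ⟨κ, hκ0, by linarith, by linarith, fun x₀ ε hε => ?_⟩
    obtain ⟨C, hC, hb⟩ := hat_le hρ hint hN (half_pos hκ0)
    have hI : ∀ j, Integrable (fun x : ℝ => Real.exp (κ * x)) (μ j) := by
      intro j
      have i1 : Integrable (fun x : ℝ => Real.exp (κ' * x)) (μ j) := by
        refine ⟨?_, ?_⟩
        · have : Continuous fun x : ℝ => Real.exp (κ' * x) := by fun_prop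
          exact this.aestronglyMeasurable
        · rw [hasFiniteIntegral_iff_ofReal (Eventually.of_forall fun x => (Real.exp_pos _).le)]
          exact hfin j
      refine Integrable.mono' (i1.add (integrable_const (1 : ℝ))) ?_
        (Eventually.of_forall fun x => ?_)
      · have : Continuous fun x : ℝ => Real.exp (κ * x) := by fun_prop
        exact this.aestronglyMeasurable
      · rw [Real.norm_of_nonneg (Real.exp_pos _).le, Pi.add_apply]
        have e1 := Real.exp_pos (κ' * x)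
        rcases le_total 0 x with hx | hx
        · have e2 : Real.exp (κ * x) ≤ Real.exp (κ' * x) :=
            Real.exp_le_exp.2 (mul_le_mul_of_nonneg_right (by linarith) hx)
          linarith
        · have e2 : Real.exp (κ * x) ≤ 1 := by
            rw [Real.exp_le_one_iff]
            exact mul_nonpos_of_nonneg_of_nonpos hκ0.le hx
          linarith
    obtain ⟨M, hM⟩ : ∃ M : ℝ, M = ∑ j, ∫ x, Real.exp (κ * x) ∂(μ j) := ⟨_, rfl⟩
    have hM0 : 0 ≤ M := by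
      rw [hM]
      exact Finset.sum_nonneg fun j _ => integral_nonneg fun x => (Real.exp_pos _).le
    have hbd : ∀ Z : ℕ, hat ρ N Z * ∑ j, ∫ x, Real.exp (-(κ * |x₀ + x - (Z : ℝ)|)) ∂(μ j) ≤
        C * M * Real.exp (κ * x₀) * Real.exp (-(κ / 2 * (Z : ℝ))) := by
      intro Z
      have hZ0 : (0 : ℝ) ≤ Z := Nat.cast_nonneg Z
      have b1 := hb Z
      rw [abs_of_nonneg hZ0] at b1
      have b2 : ∑ j, ∫ x, Real.exp (-(κ * |x₀ + x - (Z : ℝ)|)) ∂(μ j) ≤
          Real.exp (κ * (x₀ - Z)) * M := by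
        rw [hM, Finset.mul_sum]
        refine Finset.sum_le_sum fun j _ => ?_
        rw [← integral_const_mul]
        refine integral_mono (nm_bi κ x₀ (Z : ℝ) hκ0) ((hI j).const_mul _) fun x => ?_
        simp only
        rw [← Real.exp_add, Real.exp_le_exp]
        have := neg_abs_le (x₀ + x - (Z : ℝ))
        have := mul_le_mul_of_nonneg_left this hκ0.le
        linarith
      calc hat ρ N Z * ∑ j, ∫ x, Real.exp (-(κ * |x₀ + x - (Z : ℝ)|)) ∂(μ j)
          ≤ (C * Real.exp (κ / 2 * Z)) * (Real.exp (κ * (x₀ - Z)) * M) := by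
            refine mul_le_mul b1 b2 ?_ (by positivity)
            exact Finset.sum_nonneg fun j _ => integral_nonneg fun x => (Real.exp_pos _).le
        _ = C * M * Real.exp (κ * x₀) * Real.exp (-(κ / 2 * (Z : ℝ))) := by
            have e : Real.exp (κ / 2 * Z) * Real.exp (κ * (x₀ - Z)) =
                Real.exp (κ * x₀) * Real.exp (-(κ / 2 * (Z : ℝ))) := by
              rw [← Real.exp_add, ← Real.exp_add]
              congr 1
              ring
            calc _ = C * M * (Real.exp (κ / 2 * Z) * Real.exp (κ * (x₀ - Z))) := by ring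
              _ = _ := by rw [e]; ring
    have hlim : Tendsto (fun Z : ℕ => C * M * Real.exp (κ * x₀) *
        Real.exp (-(κ / 2 * (Z : ℝ)))) atTop (𝓝 (C * M * Real.exp (κ * x₀) * 0)) := by
      refine Tendsto.const_mul _ ?_
      have h2 : Tendsto (fun Z : ℕ => κ / 2 * (Z : ℝ)) atTop atTop :=
        tendsto_natCast_atTop_atTop.const_mul_atTop (half_pos hκ0)
      exact Real.tendsto_exp_neg_atTop_nhds_zero.comp h2
    rw [mul_zero] at hlim
    refine Eventually.frequently ?_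
    filter_upwards [hlim.eventually (gt_mem_nhds hε)] with Z hZ
    exact (hbd Z).trans_lt hZ

private noncomputable def nmH (X A D z x : ℝ) : ℝ :=
  (if X ≤ x ∧ x ≤ z then A else 0) + (if x < X then D else 0)

private lemma nmH_meas (X A D z x₀ : ℝ) : Measurable fun x : ℝ => nmH X A D z (x₀ + x) := by
  unfold nmH
  have h0 : Measurable fun x : ℝ => x₀ + x := measurable_const.add measurable_id
  refine Measurable.add (Measurable.ite ?_ measurable_const measurable_const)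
    (Measurable.ite ?_ measurable_const measurable_const)
  · exact (measurableSet_le measurable_const h0).inter (measurableSet_le h0 measurable_const)
  · exact measurableSet_lt h0 measurable_const

private lemma nmH_abs (X A D z x : ℝ) : |nmH X A D z x| ≤ |A| + |D| := by
  unfold nmH
  refine (abs_add_le _ _).trans (add_le_add ?_ ?_)
  · split_ifs
    · exact le_rfl
    · rw [abs_zero]
      exact abs_nonneg A
  · split_ifs
    · exact le_rfl
    · rw [abs_zero]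
      exact abs_nonneg D

private lemma nmH_int {ν : Measure ℝ} [IsFiniteMeasure ν] (X A D z x₀ : ℝ) :
    Integrable (fun x : ℝ => nmH X A D z (x₀ + x)) ν :=
  Integrable.mono' (integrable_const (|A| + |D|)) (nmH_meas X A D z x₀).aestronglyMeasurable
    (Eventually.of_forall fun x => nmH_abs X A D z (x₀ + x))

private lemma nmH_lim {ν : Measure ℝ} [IsFiniteMeasure ν] (X A D x₀ : ℝ) :
    Tendsto (fun Z : ℕ => ∫ x, nmH X A D ((Z : ℝ) - 1) (x₀ + x) ∂ν) atTop
      (𝓝 (∫ x, (if X ≤ x₀ + x then A else D) ∂ν)) := by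
  refine tendsto_integral_of_dominated_convergence (fun _ => |A| + |D|) ?_
    (integrable_const _) ?_ ?_
  · exact fun Z => (nmH_meas X A D ((Z : ℝ) - 1) x₀).aestronglyMeasurable
  · exact fun Z => Eventually.of_forall fun x => nmH_abs X A D ((Z : ℝ) - 1) (x₀ + x)
  · refine Eventually.of_forall fun x => ?_
    refine tendsto_const_nhds.congr' ?_
    filter_upwards [tendsto_natCast_atTop_atTop.eventually (eventually_ge_atTop (x₀ + x + 1))]
      with Z hZ
    unfold nmH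
    by_cases h : X ≤ x₀ + x
    · rw [if_pos h, if_pos ⟨h, by linarith⟩, if_neg (not_lt.2 h), add_zero]
    · rw [if_neg h, if_neg (fun h' => h h'.1), if_pos (not_le.1 h), zero_add]

private lemma nm_lim2 {ν : Measure ℝ} [IsFiniteMeasure ν] (X A D : ℝ) :
    Tendsto (fun x₀ : ℝ => ∫ x, (if X ≤ x₀ + x then A else D) ∂ν) atTop
      (𝓝 (A * (ν univ).toReal)) := by
  have h : A * (ν univ).toReal = ∫ _, A ∂ν := by
    rw [integral_const, smul_eq_mul, mul_comm]
    rfl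
  rw [h]
  refine tendsto_integral_filter_of_dominated_convergence (fun _ => |A| + |D|) ?_ ?_
    (integrable_const _) ?_
  · refine Eventually.of_forall fun x₀ => ?_
    have h0 : Measurable fun x : ℝ => x₀ + x := measurable_const.add measurable_id
    have h1 : Measurable fun x : ℝ => (if X ≤ x₀ + x then A else D) :=
      Measurable.ite (measurableSet_le measurable_const h0) measurable_const measurable_const
    exact h1.aestronglyMeasurable
  · refine Eventually.of_forall fun x₀ => Eventually.of_forall fun x => ?_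
    rw [Real.norm_eq_abs]
    split_ifs
    · linarith [abs_nonneg D]
    · linarith [abs_nonneg A]
  · refine Eventually.of_forall fun x => ?_
    refine tendsto_const_nhds.congr' ?_
    filter_upwards [eventually_ge_atTop (X - x)] with x₀ hx₀
    rw [if_pos (by linarith)]

private lemma nm_bound {ρ κ : ℝ} (hρ : 0 < ρ) (hint : ¬ ∃ n : ℕ, ρ = n) {N : Measure ℝ}
    (hN : Tame N) (hκ : 0 < κ) (h1 : κ < km ρ) (h2 : κ < kp ρ) :
    ∃ C > 0, ∀ X : ℝ, ∃ D ≥ 0, ∀ θ ∈ Icc (0 : ℝ) Real.pi, ∀ A x Z : ℝ,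
      Integrable (fun y => kk ρ θ (x - y)) N → (X ≤ x → Um ρ θ N x ≤ A) →
      Um ρ θ (N.restrict (Iic Z)) x ≤
        nmH X A D (Z - 1) x + C * (hat ρ N Z * Real.exp (-(κ * |x - Z|))) := by
  obtain ⟨C1, hC1, b1⟩ := Um_le hρ hint
  obtain ⟨C2, hC2, b2⟩ := tail_left hρ hint
  obtain ⟨C3, hC3, b3⟩ := tail_right hρ hint
  obtain ⟨C4, hC4, b4⟩ := abs_kk_le_far ρ one_pos
  obtain ⟨C5, hC5, b5⟩ := nm_ph hκ h1 h2
  have hkm : 0 < km ρ := hκ.trans h1
  obtain ⟨E, hE⟩ : ∃ E : ℝ, E = Real.exp (km ρ + κ) := ⟨_, rfl⟩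
  have hE0 : 0 < E := by rw [hE]; exact Real.exp_pos _
  refine ⟨C1 * C2 * C5 + C1 * E + C4 * C3, by positivity, fun X => ?_⟩
  obtain ⟨D0, hD0⟩ := hat_left hρ hint hN X
  refine ⟨C1 * max D0 0, by positivity, fun θ hθ A x Z hI hA => ?_⟩
  have hU := b1 (N.restrict (Iic Z)) (nm_tame hN _) θ x
  have hmono := nm_hat_mono hρ hint hN (Iic Z) x
  have hh0 := hat_nonneg ρ N Z
  have he0 := Real.exp_pos (-(κ * |x - Z|))
  obtain ⟨W, hW⟩ : ∃ W : ℝ, W = hat ρ N Z * Real.exp (-(κ * |x - Z|)) := ⟨_, rfl⟩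
  have hW0 : 0 ≤ W := by rw [hW]; exact mul_nonneg hh0 he0.le
  rw [← hW]
  have hC12 : 0 ≤ C1 * C2 * C5 * W := by positivity
  have hC1E : 0 ≤ C1 * E * W := by positivity
  have hC43 : 0 ≤ C4 * C3 * W := by positivity
  have hexp : (C1 * C2 * C5 + C1 * E + C4 * C3) * W =
      C1 * C2 * C5 * W + C1 * E * W + C4 * C3 * W := by ring
  rw [hexp]
  unfold nmH
  by_cases hX : x < X
  · rw [if_neg (fun h' => absurd h'.1 (not_le.2 hX)), if_pos hX, zero_add]
    have h3 : Um ρ θ (N.restrict (Iic Z)) x ≤ C1 * max D0 0 :=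
      hU.trans (mul_le_mul_of_nonneg_left
        (hmono.trans ((hD0 x hX.le).trans (le_max_left _ _))) hC1.le)
    linarith
  · push Not at hX
    by_cases hZ : x ≤ Z - 1
    · rw [if_pos ⟨hX, hZ⟩, if_neg (not_lt.2 hX), add_zero]
      have e1 : Um ρ θ (N.restrict (Iic Z)) x =
          Um ρ θ N x - ∫ y in Ioi Z, kk ρ θ (x - y) ∂N := by
        unfold Um
        have := integral_add_compl (μ := N) (measurableSet_Iic (a := Z)) hI
        rw [compl_Iic] at this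
        linarith
      have e2 : -∫ y in Ioi Z, kk ρ θ (x - y) ∂N ≤ C4 * ∫ y in Ioi Z, ph ρ (x - y) ∂N := by
        rw [← integral_neg, ← integral_const_mul]
        refine setIntegral_mono_on hI.neg.integrableOn
          ((integrable_ph_sub hρ hint hN x).const_mul C4).integrableOn measurableSet_Ioi ?_
        intro y hy
        have hy' : Z < y := hy
        have h3 : 1 ≤ |x - y| := by
          rw [abs_sub_comm]
          exact le_trans (by linarith) (le_abs_self _)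
        exact (neg_le_abs _).trans (b4 θ hθ (x - y) h3)
      have e3 := b3 N hN x Z (by linarith)
      have e4 : Real.exp (-(kp ρ * (Z - x))) ≤ Real.exp (-(κ * |x - Z|)) := by
        rw [Real.exp_le_exp, abs_sub_comm, abs_of_nonneg (by linarith : 0 ≤ Z - x)]
        have : κ * (Z - x) ≤ kp ρ * (Z - x) :=
          mul_le_mul_of_nonneg_right h2.le (by linarith)
        linarith
      have e5 : C3 * Real.exp (-(kp ρ * (Z - x))) * hat ρ N Z ≤ C3 * W := by
        rw [hW, mul_assoc, mul_comm (hat ρ N Z)]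
        exact mul_le_mul_of_nonneg_left (mul_le_mul_of_nonneg_right e4 hh0) hC3.le
      have e6 := mul_le_mul_of_nonneg_left (e3.trans e5) hC4.le
      have e7 := hA hX
      have e8 : C4 * (C3 * W) = C4 * C3 * W := by ring
      rw [e1]
      linarith
    · rw [if_neg (fun h' => hZ h'.2), if_neg (not_lt.2 hX), add_zero, zero_add]
      push Not at hZ
      rcases le_total Z x with hZx | hZx
      · have e1 := b2 N hN x Z hZx
        have e2 := b5 (x - Z)
        have e3 : C1 * hat ρ (N.restrict (Iic Z)) x ≤ C1 * C2 * C5 * W := by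
          have e4 : hat ρ (N.restrict (Iic Z)) x ≤ C2 * (C5 * W) := by
            refine e1.trans ?_
            rw [hW, mul_assoc C2]
            refine mul_le_mul_of_nonneg_left ?_ hC2.le
            calc ph ρ (x - Z) * hat ρ N Z
                ≤ (C5 * Real.exp (-(κ * |x - Z|))) * hat ρ N Z :=
                  mul_le_mul_of_nonneg_right e2 hh0
              _ = _ := by ring
          calc C1 * hat ρ (N.restrict (Iic Z)) x ≤ C1 * (C2 * (C5 * W)) :=
                mul_le_mul_of_nonneg_left e4 hC1.le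
            _ = _ := by ring
        linarith
      · have e1 := hat_sub hρ hint hN Z (u := Z - x) (by linarith)
        rw [sub_sub_cancel] at e1
        have e2 : Real.exp (km ρ * (Z - x)) ≤ E * Real.exp (-(κ * |x - Z|)) := by
          rw [hE, ← Real.exp_add, Real.exp_le_exp, abs_sub_comm,
            abs_of_nonneg (by linarith : 0 ≤ Z - x)]
          nlinarith
        have e3 : C1 * hat ρ (N.restrict (Iic Z)) x ≤ C1 * E * W := by
          have e4 : hat ρ (N.restrict (Iic Z)) x ≤ E * W := by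
            refine (hmono.trans e1).trans ?_
            rw [hW]
            calc Real.exp (km ρ * (Z - x)) * hat ρ N Z
                ≤ (E * Real.exp (-(κ * |x - Z|))) * hat ρ N Z :=
                  mul_le_mul_of_nonneg_right e2 hh0
              _ = _ := by ring
          calc C1 * hat ρ (N.restrict (Iic Z)) x ≤ C1 * (E * W) :=
                mul_le_mul_of_nonneg_left e4 hC1.le
            _ = _ := by ring
        linarith

private lemma nm_two {ρ : ℝ} (hρ : 0 < ρ) (hint : ¬ ∃ n : ℕ, ρ = n) {N : Measure ℝ}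
    (hN : Tame N) {n : ℕ} {φ : Fin n → ℝ} {μ : Fin n → Measure ℝ} {τ : ℝ}
    (hμ : ∀ j, IsFiniteMeasure (μ j)) (hφ : ∀ j, φ j ∈ Icc (0 : ℝ) Real.pi)
    (hτ : τ ∈ Icc (0 : ℝ) Real.pi)
    (hcert : ∀ᵐ s : ℝ, kk ρ τ s ≤ ∑ j, ∫ x, kk ρ (φ j) (s + x) ∂(μ j)) :
    ∀ᵐ x₀ : ℝ, ∀ Z : ℕ,
      (∀ j, Integrable (fun x => Um ρ (φ j) (N.restrict (Iic (Z : ℝ))) (x₀ + x)) (μ j)) ∧
      Um ρ τ (N.restrict (Iic (Z : ℝ))) x₀ ≤
        ∑ j, ∫ x, Um ρ (φ j) (N.restrict (Iic (Z : ℝ))) (x₀ + x) ∂(μ j) := by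
  have hNσ := hN.sigmaFinite
  have e1 := nm_ae_shift hcert N (g := fun y => -y) measurable_neg
  have e2 := integrable_kk_tame_ae hρ hint hN hτ
  have hNf : ∀ Z : ℕ, IsFiniteMeasure (N.restrict (Iic (Z : ℝ))) := by
    intro Z
    refine ⟨?_⟩
    rw [Measure.restrict_apply_univ]
    exact hN.restrict_lt_top _
  have e3 : ∀ᵐ x₀ : ℝ, ∀ Z : ℕ, ∀ j, Integrable
      (fun q : ℝ × ℝ => kk ρ (φ j) (x₀ + (q.1 - q.2)))
      ((μ j).prod (N.restrict (Iic (Z : ℝ)))) := by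
    rw [ae_all_iff]
    intro Z
    rw [ae_all_iff]
    intro j
    have h1 := hNf Z
    have h2 := hμ j
    exact nm_int_ae (integrable_kk hρ hint (hφ j)) (measurable_kk ρ (φ j)) _
      (g := fun q : ℝ × ℝ => q.1 - q.2) (measurable_fst.sub measurable_snd)
  filter_upwards [e1, e2, e3] with x₀ h1 h2 h3 Z
  have hf := hNf Z
  have hUm : ∀ j x, Um ρ (φ j) (N.restrict (Iic (Z : ℝ))) (x₀ + x) =
      ∫ y, kk ρ (φ j) (x₀ + (x - y)) ∂(N.restrict (Iic (Z : ℝ))) := by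
    intro j x
    unfold Um
    refine integral_congr_ae (Eventually.of_forall fun y => ?_)
    simp only
    rw [add_sub_assoc]
  have hint1 : ∀ j, Integrable (fun x => Um ρ (φ j) (N.restrict (Iic (Z : ℝ))) (x₀ + x))
      (μ j) := by
    intro j
    have h4 := hμ j
    have h5 := (h3 Z j).integral_prod_left
    refine h5.congr (Eventually.of_forall fun x => ?_)
    exact (hUm j x).symm
  refine ⟨hint1, ?_⟩
  have hint2 : ∀ j, Integrable (fun y => ∫ x, kk ρ (φ j) (x₀ + (x - y)) ∂(μ j))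
      (N.restrict (Iic (Z : ℝ))) := by
    intro j
    have h4 := hμ j
    exact (h3 Z j).integral_prod_right
  have h6 : Um ρ τ (N.restrict (Iic (Z : ℝ))) x₀ ≤
      ∫ y, ∑ j, ∫ x, kk ρ (φ j) (x₀ + (x - y)) ∂(μ j) ∂(N.restrict (Iic (Z : ℝ))) := by
    unfold Um
    refine integral_mono_ae (h2.mono_measure Measure.restrict_le_self)
      (integrable_finsetSum _ fun j _ => hint2 j) ?_
    filter_upwards [ae_restrict_of_ae h1] with y hy
    have h7 : x₀ + -y = x₀ - y := by ring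
    rw [h7] at hy
    refine hy.trans (le_of_eq (Finset.sum_congr rfl fun j _ => ?_))
    refine integral_congr_ae (Eventually.of_forall fun x => ?_)
    simp only
    congr 1
    ring
  refine h6.trans (le_of_eq ?_)
  rw [integral_finsetSum _ fun j _ => hint2 j]
  refine Finset.sum_congr rfl fun j _ => ?_
  have h4 := hμ j
  have h8 := integral_integral_swap (f := fun x y => kk ρ (φ j) (x₀ + (x - y))) (h3 Z j)
  rw [← h8]
  refine integral_congr_ae (Eventually.of_forall fun x => ?_)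
  exact (hUm j x).symm

theorem maj_core {ρ : ℝ} (hρ : 0 < ρ) (hint : ¬ ∃ n : ℕ, ρ = n) {N : Measure ℝ} (hN : Tame N)
    {n : ℕ} {φ : Fin n → ℝ} {μ : Fin n → Measure ℝ} {τ : ℝ} {A : Fin n → ℝ} {B : ℝ}
    (hμ : ∀ j, IsFiniteMeasure (μ j)) (hφ : ∀ j, φ j ∈ Icc (0 : ℝ) Real.pi)
    (hτ : τ ∈ Icc (0 : ℝ) Real.pi)
    (hgr : (∃ C, ∀ x, 0 ≤ x → hat ρ N x ≤ C * (1 + x)) ∨
      ∃ κ > 0, ∀ j, ∫⁻ x, ENNReal.ofReal (Real.exp (κ * x)) ∂(μ j) < ⊤)
    (hcert : ∀ᵐ s : ℝ, kk ρ τ s ≤ ∑ j, ∫ x, kk ρ (φ j) (s + x) ∂(μ j))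
    (hA : ∀ j, EvLe ρ N (φ j) (A j)) (hB : FrGe ρ N τ B) :
    B ≤ ∑ j, A j * (μ j univ).toReal := by
  obtain ⟨κ, hκ, hκm, hκp, hfreq⟩ := nm_freq hρ hint hN hμ hgr
  obtain ⟨C, hC, hbd⟩ := nm_bound hρ hint hN hκ hκm hκp
  choose X hX using hA
  obtain ⟨X', hX'⟩ : ∃ X' : ℝ, ∀ j, X j ≤ X' :=
    ⟨∑ j, |X j|, fun j => (le_abs_self _).trans (Finset.single_le_sum
      (f := fun j => |X j|) (fun _ _ => abs_nonneg _) (Finset.mem_univ j))⟩
  obtain ⟨D, hD, hb⟩ := hbd X'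
  by_contra hc
  push Not at hc
  have hlim : Tendsto (fun x₀ : ℝ => ∑ j, ∫ x, (if X' ≤ x₀ + x then A j else D) ∂(μ j)) atTop
      (𝓝 (∑ j, A j * (μ j univ).toReal)) := by
    refine tendsto_finsetSum _ fun j _ => ?_
    have := hμ j
    exact nm_lim2 X' (A j) D
  obtain ⟨x₁, hx₁⟩ := eventually_atTop.1 (hlim.eventually (gt_mem_nhds hc))
  apply hB x₁
  have e1 := nm_two hρ hint hN hμ hφ hτ hcert
  have e2 := integrable_kk_tame_ae hρ hint hN hτ
  have e3 : ∀ᵐ x₀ : ℝ, ∀ j, ∀ᵐ x ∂(μ j), Integrable (fun y => kk ρ (φ j) (x₀ + x - y)) N := by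
    rw [ae_all_iff]
    intro j
    have := hμ j
    exact nm_ae_shift (P := fun s => Integrable (fun y => kk ρ (φ j) (s - y)) N)
      (integrable_kk_tame_ae hρ hint hN (hφ j)) (μ j) (g := fun x => x) measurable_id
  have e4 : ∀ᵐ x₀ : ℝ, ∀ j, ∀ᵐ x ∂(μ j), X j ≤ x₀ + x → Um ρ (φ j) N (x₀ + x) ≤ A j := by
    rw [ae_all_iff]
    intro j
    have := hμ j
    exact nm_ae_shift (P := fun s => X j ≤ s → Um ρ (φ j) N s ≤ A j) (hX j) (μ j)
      (g := fun x => x) measurable_id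
  filter_upwards [e1, e2, e3, e4] with x₀ h1 h2 h3 h4 hx₀
  refine lt_of_le_of_lt ?_ (hx₁ x₀ hx₀)
  have key : ∀ Z : ℕ, Um ρ τ (N.restrict (Iic (Z : ℝ))) x₀ ≤
      (∑ j, ∫ x, nmH X' (A j) D ((Z : ℝ) - 1) (x₀ + x) ∂(μ j)) +
      C * (hat ρ N Z * ∑ j, ∫ x, Real.exp (-(κ * |x₀ + x - (Z : ℝ)|)) ∂(μ j)) := by
    intro Z
    refine (h1 Z).2.trans ?_
    rw [Finset.mul_sum, Finset.mul_sum, ← Finset.sum_add_distrib]
    refine Finset.sum_le_sum fun j _ => ?_
    have hfin := hμ j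
    have i2 : Integrable (fun x : ℝ => C * (hat ρ N Z *
        Real.exp (-(κ * |x₀ + x - (Z : ℝ)|)))) (μ j) :=
      ((nm_bi κ x₀ (Z : ℝ) hκ).const_mul _).const_mul _
    have i3 := (nmH_int (ν := μ j) X' (A j) D ((Z : ℝ) - 1) x₀).add i2
    have h5 : ∫ x, Um ρ (φ j) (N.restrict (Iic (Z : ℝ))) (x₀ + x) ∂(μ j) ≤
        ∫ x, (nmH X' (A j) D ((Z : ℝ) - 1) (x₀ + x) + C * (hat ρ N Z *
        Real.exp (-(κ * |x₀ + x - (Z : ℝ)|)))) ∂(μ j) := by
      refine integral_mono_ae ((h1 Z).1 j) i3 ?_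
      filter_upwards [h3 j, h4 j] with x hx3 hx4
      exact hb (φ j) (hφ j) (A j) (x₀ + x) Z hx3 (fun h => hx4 ((hX' j).trans h))
    refine h5.trans (le_of_eq ?_)
    rw [integral_add (nmH_int (ν := μ j) X' (A j) D ((Z : ℝ) - 1) x₀) i2, integral_const_mul,
      integral_const_mul]
  refine le_of_forall_pos_le_add fun ε hε => ?_
  by_contra hlt
  push Not at hlt
  have t1 : Tendsto (fun Z : ℕ => Um ρ τ (N.restrict (Iic (Z : ℝ))) x₀) atTop
      (𝓝 (Um ρ τ N x₀)) :=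
    (aecover_Iic (μ := N) tendsto_natCast_atTop_atTop).integral_tendsto_of_countably_generated h2
  have t2 : Tendsto (fun Z : ℕ => ∑ j, ∫ x, nmH X' (A j) D ((Z : ℝ) - 1) (x₀ + x) ∂(μ j)) atTop
      (𝓝 (∑ j, ∫ x, (if X' ≤ x₀ + x then A j else D) ∂(μ j))) := by
    refine tendsto_finsetSum _ fun j _ => ?_
    have := hμ j
    exact nmH_lim X' (A j) D x₀
  have t3 := (t1.sub t2).eventually (lt_mem_nhds (show ε < _ by linarith))
  obtain ⟨Z, hZ1, hZ2⟩ := ((hfreq x₀ (ε / C) (div_pos hε hC)).and_eventually t3).exists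
  have h6 := key Z
  rw [lt_div_iff₀ hC] at hZ1
  linarith

end Helper25.Ind
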