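import Pool.Agent.Helper25.Ind2.MM

/-!
# IND2 N3: exponential moments of certificates

`φ j`: either `cc ρ 0 (φ j) < 0` or `LE ρ (φ j)` (then `cc = 0`, pattern `(-,+)`). PROOF. For `κ` small and `R > 0` let `E(y) = E_R(y) = e^{κ min(y,R)}`; `0 < E`, `|E(x+s)-E(x)| ≤ E(x)(e^{κ|s|}-1)`.
(a) `cc < 0`: `exists_slow` (`κ ≤ μ₀`): `U ρ φ E x ≤ (cc/2) E x = -δ E x`.
(b) `LE`: `∫ kk = 0`, `pattern_np` with `s₀`: `U E x = ∫ kk(x-y)(E y - E(x-s₀)) dy`, the integrand is `≤ 0` everywhere (`E` nondecreasing); restrict to `y ∈ [x-s₀-2, x-s₀-1]`, where `kk(x-y) ≥ c ph(x-y) ≥ c'` and, if `x - s₀ ≤ R`, `E y - E(x-s₀) ≤ -(1-e^{-κ}) e^{κ(x-s₀)}`: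
    `U E x ≤ -c'' e^{κ x}` for `x ≤ R + s₀`; and `U E x ≤ 0` for all `x`.
(c) `U ρ τ E 0 ≥ -C`, `C = ∫ |kk ρ τ (-y)| e^{κ y} dy` (`κ < kp`, `km`).
The certificate `kk ρ τ s ≤ ∑ ∫ kk (φ j)(s+x) dμ j(x)` for a.e. `s`; multiply by `E(-s) > 0`, integrate in `s` (`y = -s`), Fubini (`E` bounded by `e^{κR}`, `kk` integrable, `μ j` finite): `-C ≤ U ρ τ E 0 ≤ ∑ ∫ U ρ (φ j) E x dμ j(x)`.
Hence `c₃ ∑ ∫_{x ≤ R - C'} e^{κ x} dμ j ≤ C` (`C' = max |s₀|`), `R → ∞`: `∫⁻ e^{κ x} dμ j < ∞`.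
-/

open Complex Filter Topology MeasureTheory Set

namespace Helper25.Ind

/-- the truncated exponential -/
private noncomputable def nmE (κ R y : ℝ) : ℝ := Real.exp (κ * min y R)

private lemma nmE_pos (κ R y : ℝ) : 0 < nmE κ R y := Real.exp_pos _

private lemma nmE_cont (κ R : ℝ) : Continuous (nmE κ R) := by
  unfold nmE
  fun_prop

private lemma nmE_le {κ : ℝ} (hκ : 0 ≤ κ) (R y : ℝ) : nmE κ R y ≤ Real.exp (κ * R) :=
  Real.exp_le_exp.2 (mul_le_mul_of_nonneg_left (min_le_right _ _) hκ)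

private lemma nmE_mono {κ : ℝ} (hκ : 0 ≤ κ) (R : ℝ) : Monotone (nmE κ R) := by
  intro a b hab
  exact Real.exp_le_exp.2 (mul_le_mul_of_nonneg_left (min_le_min_right _ hab) hκ)

private lemma nmE_eq {κ R y : ℝ} (h : y ≤ R) : nmE κ R y = Real.exp (κ * y) := by
  unfold nmE
  rw [min_eq_left h]

private lemma nmE_slow {κ : ℝ} (hκ : 0 ≤ κ) (R x s : ℝ) :
    |nmE κ R (x + s) - nmE κ R x| ≤ nmE κ R x * (Real.exp (κ * |s|) - 1) := by
  obtain ⟨t, ht⟩ : ∃ t, t = κ * (min (x + s) R - min x R) := ⟨_, rfl⟩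
  have h1 : |min (x + s) R - min x R| ≤ |s| := by
    have := abs_min_sub_min_le_max (x + s) R x R
    rw [sub_self, abs_zero, add_sub_cancel_left, max_eq_left (abs_nonneg s)] at this
    exact this
  have h2 : |t| ≤ κ * |s| := by
    rw [ht, abs_mul, abs_of_nonneg hκ]
    exact mul_le_mul_of_nonneg_left h1 hκ
  have h3 : nmE κ R (x + s) = nmE κ R x * Real.exp t := by
    unfold nmE
    rw [← Real.exp_add, ht]
    congr 1
    ring
  have h4 : |Real.exp t - 1| ≤ Real.exp (κ * |s|) - 1 := by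
    have h5 : Real.exp |t| ≤ Real.exp (κ * |s|) := Real.exp_le_exp.2 h2
    rcases le_total 0 t with h | h
    · rw [abs_of_nonneg h] at h5
      rw [abs_of_nonneg (by linarith [Real.add_one_le_exp t])]
      linarith
    · rw [abs_of_nonpos h] at h5
      have h6 := Real.add_one_le_exp t
      have h7 := Real.add_one_le_exp (-t)
      have h8 : Real.exp t ≤ 1 := by
        rw [← Real.exp_zero]
        exact Real.exp_le_exp.2 h
      rw [abs_of_nonpos (by linarith)]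
      linarith
  have h9 : nmE κ R (x + s) - nmE κ R x = nmE κ R x * (Real.exp t - 1) := by
    rw [h3]
    ring
  rw [h9, abs_mul, abs_of_pos (nmE_pos κ R x)]
  exact mul_le_mul_of_nonneg_left h4 (nmE_pos κ R x).le

private lemma nm_int {ρ θ κ : ℝ} (hρ : 0 < ρ) (hint : ¬ ∃ n : ℕ, ρ = n)
    (hθ : θ ∈ Icc (0 : ℝ) Real.pi) (hκ : 0 ≤ κ) (R x : ℝ) :
    Integrable (fun y => kk ρ θ (x - y) * nmE κ R y) := by
  have h1 : Integrable (fun y => kk ρ θ (x - y)) := (integrable_kk hρ hint hθ).comp_sub_left x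
  refine Integrable.mono' (h1.abs.const_mul (Real.exp (κ * R)))
    (h1.aestronglyMeasurable.mul (nmE_cont κ R).aestronglyMeasurable)
    (Eventually.of_forall fun y => ?_)
  rw [Real.norm_eq_abs, abs_mul, abs_of_pos (nmE_pos κ R y), mul_comm]
  exact mul_le_mul_of_nonneg_right (nmE_le hκ R y) (abs_nonneg _)

private lemma nm_a {ρ θ : ℝ} (hρ : 0 < ρ) (hint : ¬ ∃ n : ℕ, ρ = n)
    (hθ : θ ∈ Icc (0 : ℝ) Real.pi) (hc : cc ρ 0 θ < 0) :
    ∃ κ₀ > 0, ∀ κ, 0 < κ → κ ≤ κ₀ → ∃ c > 0, ∃ D : ℝ, ∀ R x : ℝ, U ρ θ (nmE κ R) x ≤ 0 ∧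
      (x ≤ R - D → U ρ θ (nmE κ R) x ≤ -(c * Real.exp (κ * x))) := by
  obtain ⟨μ₀, h0, hm, hp, H⟩ := exists_slow hρ hint hθ hc.ne
  refine ⟨μ₀, h0, fun κ hκ hκ0 => ⟨-(cc ρ 0 θ) / 2, by linarith, 0, fun R x => ?_⟩⟩
  have h1 := H κ hκ hκ0 (nmE κ R) x (nmE_cont κ R).measurable (nmE_pos κ R x).le
    (nmE_slow hκ.le R x)
  rw [abs_of_neg hc] at h1
  have h2 := (abs_le.1 h1).2
  have h3 := nmE_pos κ R x
  have h4 : U ρ θ (nmE κ R) x ≤ cc ρ 0 θ / 2 * nmE κ R x := by linarith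
  constructor
  · have : cc ρ 0 θ / 2 * nmE κ R x ≤ 0 :=
      mul_nonpos_of_nonpos_of_nonneg (by linarith) h3.le
    linarith
  · intro hx
    rw [nmE_eq (by linarith)] at h4
    linarith

private lemma nm_b {ρ θ : ℝ} (hρ : 0 < ρ) (hint : ¬ ∃ n : ℕ, ρ = n)
    (hL : LE ρ θ) :
    ∃ κ₀ > 0, ∀ κ, 0 < κ → κ ≤ κ₀ → ∃ c > 0, ∃ D : ℝ, ∀ R x : ℝ, U ρ θ (nmE κ R) x ≤ 0 ∧
      (x ≤ R - D → U ρ θ (nmE κ R) x ≤ -(c * Real.exp (κ * x))) := by
  have hθ : θ ∈ Icc (0 : ℝ) Real.pi := ⟨hL.1, hL.2.1⟩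
  obtain ⟨ha, hb⟩ := LE_ab hρ hint hL
  obtain ⟨s₀, hs1, hs2, hs3⟩ := pattern_np ρ hθ ha hb
  obtain ⟨c₁, hc₁, -, hs4⟩ := hs3 1 one_pos
  obtain ⟨s₁, hs₁, hmin⟩ := isCompact_Icc.exists_isMinOn
    (nonempty_Icc.2 (show s₀ + 1 ≤ s₀ + 2 by linarith)) (continuous_ph ρ).continuousOn
  have hm := ph_pos ρ s₁
  refine ⟨1, one_pos, fun κ hκ _ => ?_⟩
  have he : 0 < 1 - Real.exp (-κ) := by
    have : Real.exp (-κ) < 1 := by
      rw [← Real.exp_zero]
      exact Real.exp_lt_exp.2 (by linarith)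
    linarith
  refine ⟨c₁ * ph ρ s₁ * ((1 - Real.exp (-κ)) * Real.exp (-(κ * s₀))), by positivity, -s₀,
    fun R x => ?_⟩
  have hz : ∫ y, kk ρ θ (x - y) = 0 := by
    rw [integral_sub_left_eq_self (fun y => kk ρ θ y) volume x, integral_kk hρ hint hθ]
    unfold cc
    rw [add_zero, hL.2.2.1]
    simp
  have hi1 := nm_int hρ hint hθ hκ.le R x
  have hi2 : Integrable (fun y => kk ρ θ (x - y)) := (integrable_kk hρ hint hθ).comp_sub_left x
  have hU : U ρ θ (nmE κ R) x = ∫ y, kk ρ θ (x - y) * (nmE κ R y - nmE κ R (x - s₀)) := by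
    have h1 : ∫ y, kk ρ θ (x - y) * (nmE κ R y - nmE κ R (x - s₀)) =
        (∫ y, kk ρ θ (x - y) * nmE κ R y) - ∫ y, kk ρ θ (x - y) * nmE κ R (x - s₀) := by
      rw [← integral_sub hi1 (hi2.mul_const _)]
      congr 1
      funext y
      ring
    rw [h1, integral_mul_const, hz, zero_mul, sub_zero]
    rfl
  have hneg : ∀ y, kk ρ θ (x - y) * (nmE κ R y - nmE κ R (x - s₀)) ≤ 0 := by
    intro y
    rcases le_total (x - s₀) y with h | h
    · exact mul_nonpos_of_nonpos_of_nonneg (hs1 _ (by linarith))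
        (sub_nonneg.2 (nmE_mono hκ.le R h))
    · exact mul_nonpos_of_nonneg_of_nonpos (hs2 _ (by linarith))
        (sub_nonpos.2 (nmE_mono hκ.le R h))
  have hi3 : Integrable (fun y => kk ρ θ (x - y) * (nmE κ R y - nmE κ R (x - s₀))) := by
    refine (hi1.sub (hi2.mul_const (nmE κ R (x - s₀)))).congr (Eventually.of_forall fun y => ?_)
    simp only [Pi.sub_apply]
    ring
  constructor
  · rw [hU]
    exact integral_nonpos hneg
  · intro hx
    obtain ⟨K, hK⟩ : ∃ K, K = c₁ * ph ρ s₁ * ((1 - Real.exp (-κ)) * Real.exp (-(κ * s₀))) *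
      Real.exp (κ * x) := ⟨_, rfl⟩
    rw [← hK, hU]
    have hle : ∀ y, kk ρ θ (x - y) * (nmE κ R y - nmE κ R (x - s₀)) ≤
        (Icc (x - s₀ - 2) (x - s₀ - 1)).indicator (fun _ => -K) y := by
      intro y
      by_cases hy : y ∈ Icc (x - s₀ - 2) (x - s₀ - 1)
      · rw [indicator_of_mem hy]
        have h1 : c₁ * ph ρ s₁ ≤ kk ρ θ (x - y) := by
          have h2 := hs4 (x - y) (by linarith [hy.2])
          have h3 : ph ρ s₁ ≤ ph ρ (x - y) :=
            hmin (show x - y ∈ Icc (s₀ + 1) (s₀ + 2) from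
              ⟨by linarith [hy.2], by linarith [hy.1]⟩)
          exact (mul_le_mul_of_nonneg_left h3 hc₁.le).trans h2
        have h4 : nmE κ R y - nmE κ R (x - s₀) ≤
            -((1 - Real.exp (-κ)) * Real.exp (κ * (x - s₀))) := by
          have h5 : nmE κ R y ≤ nmE κ R (x - s₀ - 1) := nmE_mono hκ.le R hy.2
          rw [nmE_eq (show x - s₀ - 1 ≤ R by linarith)] at h5
          rw [nmE_eq (show x - s₀ ≤ R by linarith)]
          have h6 : Real.exp (κ * (x - s₀ - 1)) = Real.exp (-κ) * Real.exp (κ * (x - s₀)) := by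
            rw [← Real.exp_add]
            congr 1
            ring
          rw [h6] at h5
          linarith
        have h7 : 0 ≤ (1 - Real.exp (-κ)) * Real.exp (κ * (x - s₀)) := by positivity
        have h8 : Real.exp (κ * (x - s₀)) = Real.exp (-(κ * s₀)) * Real.exp (κ * x) := by
          rw [← Real.exp_add]
          congr 1
          ring
        have h9 : kk ρ θ (x - y) * (nmE κ R y - nmE κ R (x - s₀)) ≤
            kk ρ θ (x - y) * -((1 - Real.exp (-κ)) * Real.exp (κ * (x - s₀))) :=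
          mul_le_mul_of_nonneg_left h4 ((by positivity : 0 ≤ c₁ * ph ρ s₁).trans h1)
        have h10 : kk ρ θ (x - y) * -((1 - Real.exp (-κ)) * Real.exp (κ * (x - s₀))) ≤
            (c₁ * ph ρ s₁) * -((1 - Real.exp (-κ)) * Real.exp (κ * (x - s₀))) := by
          nlinarith
        refine (h9.trans h10).trans (le_of_eq ?_)
        rw [hK, h8]
        ring
      · rw [indicator_of_notMem hy]
        exact hneg y
    have hi4 : Integrable ((Icc (x - s₀ - 2) (x - s₀ - 1)).indicator (fun _ => -K)) :=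
      (integrable_indicator_iff measurableSet_Icc).2
        (integrableOn_const (by rw [Real.volume_Icc]; exact ENNReal.ofReal_ne_top))
    have h11 := integral_mono hi3 hi4 hle
    rw [integral_indicator measurableSet_Icc, setIntegral_const, measureReal_def,
      Real.volume_Icc] at h11
    have h12 : (ENNReal.ofReal (x - s₀ - 1 - (x - s₀ - 2))).toReal = 1 := by
      have : x - s₀ - 1 - (x - s₀ - 2) = 1 := by ring
      rw [this]
      simp
    rw [h12, one_smul] at h11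
    exact h11

private lemma nm_one {ρ θ : ℝ} (hρ : 0 < ρ) (hint : ¬ ∃ n : ℕ, ρ = n)
    (hθ : θ ∈ Icc (0 : ℝ) Real.pi) (h : cc ρ 0 θ < 0 ∨ LE ρ θ) :
    ∃ κ₀ > 0, ∀ κ, 0 < κ → κ ≤ κ₀ → ∃ c > 0, ∃ D : ℝ, ∀ R x : ℝ, U ρ θ (nmE κ R) x ≤ 0 ∧
      (x ≤ R - D → U ρ θ (nmE κ R) x ≤ -(c * Real.exp (κ * x))) := by
  rcases h with h | h
  · exact nm_a hρ hint hθ h
  · exact nm_b hρ hint h

/-- Fubini for one measure -/
private lemma nm_fub {ρ θ κ : ℝ} (hρ : 0 < ρ) (hint : ¬ ∃ n : ℕ, ρ = n)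
    (hθ : θ ∈ Icc (0 : ℝ) Real.pi) (hκ : 0 ≤ κ) (R : ℝ) (μ : Measure ℝ) [IsFiniteMeasure μ] :
    Integrable (fun x => U ρ θ (nmE κ R) x) μ ∧
    Integrable (fun s : ℝ => (∫ x, kk ρ θ (s + x) ∂μ) * nmE κ R (-s)) ∧
    ∫ s : ℝ, (∫ x, kk ρ θ (s + x) ∂μ) * nmE κ R (-s) = ∫ x, U ρ θ (nmE κ R) x ∂μ := by
  have hk := integrable_kk hρ hint hθ
  have hmeas : Measurable (fun q : ℝ × ℝ => kk ρ θ (q.1 + q.2) * nmE κ R (-q.1)) := by
    have h1 : Measurable (fun q : ℝ × ℝ => kk ρ θ (q.1 + q.2)) :=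
      (measurable_kk ρ θ).comp (measurable_fst.add measurable_snd)
    have h2 : Measurable (fun q : ℝ × ℝ => nmE κ R (-q.1)) :=
      (nmE_cont κ R).measurable.comp measurable_fst.neg
    exact h1.mul h2
  have hbd : ∀ s x : ℝ, ‖kk ρ θ (s + x) * nmE κ R (-s)‖ ≤
      Real.exp (κ * R) * |kk ρ θ (s + x)| := by
    intro s x
    rw [Real.norm_eq_abs, abs_mul, abs_of_pos (nmE_pos κ R _), mul_comm]
    exact mul_le_mul_of_nonneg_right (nmE_le hκ R _) (abs_nonneg _)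
  have hsx : ∀ x : ℝ, Integrable (fun s : ℝ => kk ρ θ (s + x)) := fun x => hk.comp_add_right x
  have hsec : ∀ x : ℝ, Integrable (fun s : ℝ => kk ρ θ (s + x) * nmE κ R (-s)) := by
    intro x
    refine Integrable.mono' ((hsx x).abs.const_mul (Real.exp (κ * R)))
      (hmeas.comp measurable_prodMk_right).aestronglyMeasurable
      (Eventually.of_forall fun s => hbd s x)
  have hprod : Integrable (fun q : ℝ × ℝ => kk ρ θ (q.1 + q.2) * nmE κ R (-q.1))
      ((volume : Measure ℝ).prod μ) := by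
    rw [integrable_prod_iff' hmeas.aestronglyMeasurable]
    refine ⟨Eventually.of_forall hsec, ?_⟩
    refine Integrable.mono' (g := fun _ => Real.exp (κ * R) * ∫ s : ℝ, |kk ρ θ s|)
      (integrable_const _) ?_ (Eventually.of_forall fun x => ?_)
    · exact hmeas.norm.aestronglyMeasurable.prod_swap.integral_prod_right'
    · rw [Real.norm_eq_abs, abs_of_nonneg (integral_nonneg fun s => norm_nonneg _)]
      have h1 : ∫ s : ℝ, Real.exp (κ * R) * |kk ρ θ (s + x)| =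
          Real.exp (κ * R) * ∫ s : ℝ, |kk ρ θ s| := by
        rw [integral_const_mul, integral_add_right_eq_self (fun s => |kk ρ θ s|) x]
      rw [← h1]
      exact integral_mono (hsec x).norm ((hsx x).abs.const_mul _) (fun s => hbd s x)
  have hUx : ∀ x : ℝ, ∫ s : ℝ, kk ρ θ (s + x) * nmE κ R (-s) = U ρ θ (nmE κ R) x := by
    intro x
    unfold U
    rw [← integral_neg_eq_self (fun y : ℝ => kk ρ θ (x - y) * nmE κ R y)]
    congr 1
    funext s
    rw [sub_neg_eq_add, add_comm]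
  have h1 := hprod.integral_prod_right
  simp only [hUx] at h1
  have h2 := hprod.integral_prod_left
  simp only [integral_mul_const] at h2
  refine ⟨h1, h2, ?_⟩
  have h3 := integral_integral_swap (f := fun s x : ℝ => kk ρ θ (s + x) * nmE κ R (-s))
    (μ := (volume : Measure ℝ)) (ν := μ) hprod
  simp only [integral_mul_const, hUx] at h3
  exact h3

theorem cert_moment {ρ : ℝ} (hρ : 0 < ρ) (hint : ¬ ∃ n : ℕ, ρ = n) {n : ℕ} {φ : Fin n → ℝ}
    {μ : Fin n → Measure ℝ} {τ : ℝ} (hμ : ∀ j, IsFiniteMeasure (μ j))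
    (hφ : ∀ j, φ j ∈ Icc (0 : ℝ) Real.pi) (hτ : τ ∈ Icc (0 : ℝ) Real.pi)
    (hsg : ∀ j, cc ρ 0 (φ j) < 0 ∨ LE ρ (φ j))
    (hcert : ∀ᵐ s : ℝ, kk ρ τ s ≤ ∑ j, ∫ x, kk ρ (φ j) (s + x) ∂(μ j)) :
    ∃ κ > 0, ∀ j, ∫⁻ x, ENNReal.ofReal (Real.exp (κ * x)) ∂(μ j) < ⊤ := by
  have hex := fun j => nm_one hρ hint (hφ j) (hsg j)
  choose κ₀ hκ₀ H using hex
  have hkm := km_pos hρ hint
  have hkp := kp_pos hρ.le
  -- a common exponent
  obtain ⟨κ, hκ, hκm, hκp, hκj⟩ : ∃ κ : ℝ, 0 < κ ∧ κ < km ρ ∧ κ < kp ρ ∧ ∀ j, κ ≤ κ₀ j := by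
    obtain ⟨δ, hδ, hδj⟩ : ∃ δ : ℝ, 0 < δ ∧ ∀ j, δ ≤ κ₀ j := by
      rcases isEmpty_or_nonempty (Fin n) with h | h
      · exact ⟨1, one_pos, fun j => (h.false j).elim⟩
      · obtain ⟨j₀, hj₀⟩ := Finite.exists_min κ₀
        exact ⟨κ₀ j₀, hκ₀ j₀, hj₀⟩
    refine ⟨min δ (min (km ρ) (kp ρ) / 2), by positivity, ?_, ?_, fun j => ?_⟩
    · have h1 := min_le_right δ (min (km ρ) (kp ρ) / 2)
      have h2 := min_le_left (km ρ) (kp ρ)
      linarith
    · have h1 := min_le_right δ (min (km ρ) (kp ρ) / 2)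
      have h2 := min_le_right (km ρ) (kp ρ)
      linarith
    · exact (min_le_left _ _).trans (hδj j)
  choose c hc D hD using fun j => H j κ hκ (hκj j)
  obtain ⟨C, hC⟩ : ∃ C, C = ∫ s : ℝ, Real.exp (κ * |s|) * |kk ρ τ s| := ⟨_, rfl⟩
  -- the lower bound
  have hlow : ∀ R : ℝ, -C ≤ ∑ j, ∫ x, U ρ (φ j) (nmE κ R) x ∂(μ j) := by
    intro R
    have i1 : Integrable (fun s : ℝ => kk ρ τ s * nmE κ R (-s)) := by
      have h1 := (nm_int hρ hint hτ hκ.le R 0).comp_neg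
      simpa using h1
    have hfub := fun j => nm_fub hρ hint (hφ j) hκ.le R (μ j)
    have h1 : ∫ s : ℝ, kk ρ τ s * nmE κ R (-s) ≤
        ∫ s : ℝ, ∑ j, (∫ x, kk ρ (φ j) (s + x) ∂(μ j)) * nmE κ R (-s) := by
      refine integral_mono_ae i1 (integrable_finsetSum _ fun j _ => (hfub j).2.1) ?_
      filter_upwards [hcert] with s hs
      rw [← Finset.sum_mul]
      exact mul_le_mul_of_nonneg_right hs (nmE_pos κ R _).le
    rw [integral_finsetSum _ fun j _ => (hfub j).2.1] at h1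
    rw [Finset.sum_congr rfl fun j _ => (hfub j).2.2] at h1
    refine le_trans ?_ h1
    have h2 : |∫ s : ℝ, kk ρ τ s * nmE κ R (-s)| ≤ C := by
      rw [hC, ← Real.norm_eq_abs]
      refine norm_integral_le_of_norm_le (integrable_kk_abs hκm hκp hτ)
        (Eventually.of_forall fun s => ?_)
      rw [Real.norm_eq_abs, abs_mul, abs_of_pos (nmE_pos κ R _), mul_comm]
      refine mul_le_mul_of_nonneg_right ?_ (abs_nonneg _)
      refine Real.exp_le_exp.2 (mul_le_mul_of_nonneg_left ?_ hκ.le)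
      exact (min_le_left _ _).trans (neg_le_abs s)
    exact (abs_le.1 h2).1
  refine ⟨κ, hκ, fun j => ?_⟩
  have hone : ∀ R : ℝ, -C ≤ ∫ x, U ρ (φ j) (nmE κ R) x ∂(μ j) := by
    intro R
    refine (hlow R).trans ?_
    rw [← Finset.add_sum_erase _ _ (Finset.mem_univ j)]
    have h1 : ∑ i ∈ Finset.univ.erase j, ∫ x, U ρ (φ i) (nmE κ R) x ∂(μ i) ≤ 0 :=
      Finset.sum_nonpos fun i _ => integral_nonpos fun x => (hD i R x).1
    linarith
  have hbound : ∀ R : ℝ, ∫⁻ x in Iic (R - D j), ENNReal.ofReal (Real.exp (κ * x)) ∂(μ j) ≤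
      ENNReal.ofReal (C / c j) := by
    intro R
    have hfin := hμ j
    have i2 : IntegrableOn (fun x => Real.exp (κ * x)) (Iic (R - D j)) (μ j) := by
      refine Measure.integrableOn_of_bounded (M := Real.exp (κ * (R - D j)))
        (measure_ne_top _ _) (by fun_prop) ?_
      filter_upwards [ae_restrict_mem measurableSet_Iic] with x hx
      rw [Real.norm_eq_abs, abs_of_pos (Real.exp_pos _)]
      exact Real.exp_le_exp.2 (mul_le_mul_of_nonneg_left hx hκ.le)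
    rw [← ofReal_integral_eq_lintegral_ofReal i2
      (Eventually.of_forall fun x => (Real.exp_pos _).le)]
    refine ENNReal.ofReal_le_ofReal ?_
    rw [le_div_iff₀ (hc j)]
    have i1 := (nm_fub hρ hint (hφ j) hκ.le R (μ j)).1
    have h1 : ∫ x, U ρ (φ j) (nmE κ R) x ∂(μ j) ≤
        ∫ x, (Iic (R - D j)).indicator (fun x => -(c j * Real.exp (κ * x))) x ∂(μ j) := by
      refine integral_mono i1 ((integrable_indicator_iff measurableSet_Iic).2
        (i2.const_mul (c j)).neg) (fun x => ?_)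
      by_cases hx : x ∈ Iic (R - D j)
      · simp only [indicator_of_mem hx]
        exact (hD j R x).2 hx
      · simp only [indicator_of_notMem hx]
        exact (hD j R x).1
    rw [integral_indicator measurableSet_Iic, integral_neg, integral_const_mul] at h1
    have h2 := hone R
    linarith
  have hcov : Tendsto (fun R : ℝ => ∫⁻ x in Iic (R - D j), ENNReal.ofReal (Real.exp (κ * x)) ∂(μ j))
      atTop (𝓝 (∫⁻ x, ENNReal.ofReal (Real.exp (κ * x)) ∂(μ j))) := by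
    refine AECover.lintegral_tendsto_of_countably_generated
      (aecover_Iic (tendsto_atTop_add_const_right _ _ tendsto_id)) ?_
    fun_prop
  exact lt_of_le_of_lt (le_of_tendsto hcov (Eventually.of_forall hbound)) ENNReal.ofReal_lt_top

end Helper25.Ind
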