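import Pool.Agent.Helper25.Ind2.Tame
import Pool.Agent.Helper25.Ind.Had
import Pool.Agent.Helper25.Ind.IndApi

/-!
# IND2 N5: the measure of a function in `N_ρ`, `ρ` not an integer

PROOF of `exists_rep`. `hadamard` with `σ₀ = ρ`, `p = ⌊ρ⌋₊`: zeros `-a i`, polynomial `Q` of degree `≤ p`, `∑ a_i^{-σ} < ∞` for all `σ > ρ`, `log‖f z‖ = Re Q(z) + ∑' ker p z (a i)`. Put `N = Measure.sum fun i => ENNReal.ofReal (a i ^ (-ρ)) • dirac (log (a i))`.
Tame: `∫⁻ e^{-κ y} dN = ∑ a_i^{-ρ-κ} < ∞`; the `a i` are bounded below by some `ε > 0` (each term of a convergent series of nonnegative terms is at most the sum), so `N (Iio (log ε)) = 0`.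
`ker p z (a i)` with `z = e^x e^{iθ}`: `ker_scale`: `a_i^{-ρ} kk ρ θ (x - log a_i) = a_i^{-ρ} (e^x/a_i)^{-ρ} ker p ((e^x/a_i) e^{iθ}) 1 = e^{-ρ x} ker p (e^x e^{iθ}) (a i)`. So if `f(z) ≠ 0` then `y ↦ kk ρ θ (x-y)` is `N`-integrable (the series `∑ ker p z (a i)` converges absolutely) and
`Um ρ θ N x = e^{-ρx} ∑' ker p z (a i)`. `err θ x = e^{-ρx} Re Q(e^x e^{iθ})`, `|err| ≤ C e^{(p-ρ)x}` for `x ≥ 0` (`nec_pow_le`, `nec_poly_ray` in `Ind/Nec.lean` are similar).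
Exceptional set: for `0 ≤ θ ≤ π` and `f(e^x e^{iθ}) = 0` we have `θ = π` and `e^x = a i`: countable.
Continuity: at `x` with `f(e^x e^{iθ}) ≠ 0` the function `log‖f‖/r^ρ - err` is continuous and equals `Um` near `x`.
`evLe_of_lt`: `eventually_le_of_indicatorOf_lt` with `A' < A` between (`indicatorOf < A' < A`): for large `r = e^x` off the exceptional set `log‖f‖ ≤ A' r^ρ`, so `Um ≤ A' + |err| ≤ A`.
`frGe_of_lt`: `B < indicatorOf`: choose `B'` between. `frequently_le_of_lt_indicatorOf`: for arbitrarily large `x`, `e^{B' r^ρ} ≤ ‖f‖` so `f ≠ 0` and `Um x ≥ B' - |err| > B`, and by continuity `Um > B` in a neighbourhood of `x`, which has positive measure.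
`indicator_le_of_evLe`: conversely if `Um ≤ A` a.e. eventually then `indicatorOf ≤ A`: every large `x` with `f ≠ 0` is a continuity point of `Um`, hence `Um x ≤ A` there (a.e. inequality + continuity), so `‖f‖ ≤ exp((A+ε) r^ρ)`; if `f = 0` trivial (`indicatorOf_le_of_eventually`).
-/

open Complex Filter Topology MeasureTheory Set

namespace Helper25.Ind

/-- `N` represents `f` -/
structure Rep (ρ : ℝ) (f : ℂ → ℂ) (N : Measure ℝ) : Prop where
  tame : Tame N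
  cnt : ∃ Z : Set ℝ, Z.Countable ∧ ∀ x ∉ Z, ∀ θ ∈ Icc (0 : ℝ) Real.pi,
    f (Real.exp x * Complex.exp (θ * Complex.I)) ≠ 0
  rep : ∃ err : ℝ → ℝ → ℝ, (∀ ε > 0, ∃ x₀ : ℝ, ∀ x, x₀ ≤ x → ∀ θ, |err θ x| ≤ ε) ∧
    ∀ θ ∈ Icc (0 : ℝ) Real.pi, ∀ x : ℝ, f (Real.exp x * Complex.exp (θ * Complex.I)) ≠ 0 →
      Integrable (fun y => kk ρ θ (x - y)) N ∧ ContinuousAt (Um ρ θ N) x ∧
      Real.log ‖f (Real.exp x * Complex.exp (θ * Complex.I))‖ / (Real.exp x) ^ ρ =
        Um ρ θ N x + err θ x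

private lemma nr_norm (θ s : ℝ) :
    ‖(Real.exp s : ℂ) * Complex.exp (θ * Complex.I)‖ = Real.exp s := by
  rw [norm_mul, Complex.norm_exp_ofReal_mul_I, mul_one, Complex.norm_real, Real.norm_of_nonneg
    (Real.exp_pos s).le]

private lemma nr_kk {ρ θ x a : ℝ} (ha : 0 < a) :
    a ^ (-ρ) * kk ρ θ (x - Real.log a) =
      Real.exp (-(ρ * x)) * ker ⌊ρ⌋₊ ((Real.exp x : ℂ) * Complex.exp (θ * Complex.I)) a := by
  unfold kk
  have h1 : Real.exp (x - Real.log a) = Real.exp x / a := by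
    rw [Real.exp_sub, Real.exp_log ha]
  have hx := Real.exp_pos x
  have h2 : ker ⌊ρ⌋₊ (((Real.exp (x - Real.log a) : ℝ) : ℂ) * Complex.exp (θ * Complex.I)) 1 =
      ker ⌊ρ⌋₊ ((Real.exp x : ℂ) * Complex.exp (θ * Complex.I)) a := by
    rw [h1, ker_scale _ _ (div_pos hx ha) one_pos, ker_scale _ _ hx ha, one_div, inv_div]
  rw [h2, ← mul_assoc]
  congr 1
  rw [Real.rpow_def_of_pos ha, ← Real.exp_add]
  congr 1
  ring

private lemma nr_poly (Q : Polynomial ℂ) {p : ℕ} (hQ : Q.natDegree ≤ p) :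
    ∃ C : ℝ, 0 ≤ C ∧ ∀ x : ℝ, 0 ≤ x → ∀ θ : ℝ,
      ‖Q.eval ((Real.exp x : ℂ) * Complex.exp (θ * Complex.I))‖ ≤ C * Real.exp x ^ p := by
  refine ⟨∑ i ∈ Finset.range (p + 1), ‖Q.coeff i‖, ?_, ?_⟩
  · exact Finset.sum_nonneg fun i _ => by positivity
  · intro x hx θ
    rw [Polynomial.eval_eq_sum_range' (Nat.lt_succ_of_le hQ), Finset.sum_mul]
    refine (norm_sum_le _ _).trans (Finset.sum_le_sum ?_)
    intro i hi
    have hi' : i ≤ p := Nat.lt_succ_iff.mp (Finset.mem_range.mp hi)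
    rw [norm_mul, norm_pow, nr_norm]
    exact mul_le_mul_of_nonneg_left (pow_le_pow_right₀ (Real.one_le_exp hx) hi') (norm_nonneg _)

private lemma nr_err {ρ : ℝ} (hm : 0 < km ρ) (Q : Polynomial ℂ) (hQ : Q.natDegree ≤ ⌊ρ⌋₊) :
    ∀ ε > 0, ∃ x₀ : ℝ, ∀ x, x₀ ≤ x → ∀ θ : ℝ,
      |Real.exp (-(ρ * x)) *
        (Q.eval ((Real.exp x : ℂ) * Complex.exp (θ * Complex.I))).re| ≤ ε := by
  intro ε hε
  obtain ⟨C, hC, hb⟩ := nr_poly Q hQ
  have h1 : Tendsto (fun x : ℝ => C * Real.exp (-(km ρ * x))) atTop (𝓝 (C * 0)) := by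
    refine Tendsto.const_mul _ ?_
    have h2 : Tendsto (fun x : ℝ => km ρ * x) atTop atTop := tendsto_id.const_mul_atTop hm
    exact Real.tendsto_exp_neg_atTop_nhds_zero.comp h2
  rw [mul_zero] at h1
  have h2 := (h1.eventually (gt_mem_nhds hε)).and (eventually_ge_atTop (0 : ℝ))
  obtain ⟨x₀, hx₀⟩ := eventually_atTop.1 h2
  refine ⟨x₀, fun x hx θ => ?_⟩
  obtain ⟨h3, h4⟩ := hx₀ x hx
  have h5 := (Complex.abs_re_le_norm _).trans (hb x h4 θ)
  rw [abs_mul, abs_of_pos (Real.exp_pos _)]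
  calc Real.exp (-(ρ * x)) * |(Q.eval ((Real.exp x : ℂ) * Complex.exp (θ * Complex.I))).re|
      ≤ Real.exp (-(ρ * x)) * (C * Real.exp x ^ ⌊ρ⌋₊) :=
        mul_le_mul_of_nonneg_left h5 (Real.exp_pos _).le
    _ = C * Real.exp (-(km ρ * x)) := by
        rw [← Real.exp_nat_mul, mul_left_comm, ← Real.exp_add]
        congr 2
        unfold km
        ring
    _ ≤ ε := h3.le

private lemma nr_tame {ρ : ℝ} (hρ : 0 < ρ) {ι : Type} {a : ι → ℝ}
    (ha : ∀ i, 0 < a i) (hs : ∀ σ, ρ < σ → Summable fun i => a i ^ (-σ)) :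
    Tame (Measure.sum fun i => ENNReal.ofReal (a i ^ (-ρ)) • Measure.dirac (Real.log (a i))) := by
  have hpos : ∀ (σ : ℝ) (i : ι), 0 ≤ a i ^ (-σ) := fun σ i => Real.rpow_nonneg (ha i).le _
  constructor
  · obtain ⟨S, hS⟩ : ∃ S : ℝ, S = ∑' i, a i ^ (-(ρ + 1)) := ⟨_, rfl⟩
    refine ⟨-S / (ρ + 1), ?_⟩
    rw [Measure.sum_apply _ measurableSet_Iio]
    refine ENNReal.tsum_eq_zero.2 fun i => ?_
    have h1 : a i ^ (-(ρ + 1)) ≤ S := by
      rw [hS]
      exact (hs (ρ + 1) (by linarith)).le_tsum i (fun j _ => hpos _ j)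
    have h2 : S ≤ Real.exp S := by
      have := Real.add_one_le_exp S
      linarith
    have h3 : Real.log (a i) * (-(ρ + 1)) ≤ S := by
      rw [← Real.exp_le_exp, ← Real.rpow_def_of_pos (ha i)]
      exact h1.trans h2
    have h4 : -S / (ρ + 1) ≤ Real.log (a i) := by
      rw [div_le_iff₀ (by linarith)]
      linarith
    rw [Measure.smul_apply, Measure.dirac_apply' _ measurableSet_Iio,
      Set.indicator_of_notMem (by simpa using h4), smul_zero]
  · intro κ hκ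
    rw [lintegral_sum_measure]
    have h1 : ∀ i, ∫⁻ y, ENNReal.ofReal (Real.exp (-(κ * y)))
        ∂(ENNReal.ofReal (a i ^ (-ρ)) • Measure.dirac (Real.log (a i))) =
        ENNReal.ofReal (a i ^ (-(ρ + κ))) := by
      intro i
      rw [lintegral_smul_measure, lintegral_dirac, smul_eq_mul, ← ENNReal.ofReal_mul (hpos ρ i)]
      congr 1
      rw [Real.rpow_def_of_pos (ha i), Real.rpow_def_of_pos (ha i), ← Real.exp_add]
      congr 1
      ring
    simp_rw [h1]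
    exact (hs (ρ + κ) (by linarith)).tsum_ofReal_lt_top

private lemma nr_dense {p : ℝ → Prop} (h : ∀ᵐ x : ℝ, p x) {x : ℝ} {q : ℝ → Prop}
    (hq : ∀ᶠ y in 𝓝 x, q y) : ∃ y, p y ∧ q y := by
  have h1 : Dense {y | p y} := Measure.dense_of_ae h
  obtain ⟨y, hy1, hy2⟩ := (mem_closure_iff_nhds.1 (h1 x)) _ hq
  exact ⟨y, hy2, hy1⟩

private lemma nr_exp_rpow (ρ x : ℝ) : (Real.exp x) ^ ρ = Real.exp (ρ * x) := by
  rw [← Real.exp_mul, mul_comm]

theorem exists_rep {ρ : ℝ} (hρ : 0 < ρ) (hint : ¬ ∃ n : ℕ, ρ = n) {f : ℂ → ℂ} (hf : IsN ρ f) :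
    ∃ N : Measure ℝ, Rep ρ f N := by
  have hm := km_pos hρ hint
  obtain ⟨ι, hι, a, Q, ha, hQ, hs, hz, hlog⟩ := hadamard (σ₀ := ρ) (p := ⌊ρ⌋₊) hf.differentiable
    hf.zeros hf.upper hρ (Nat.lt_floor_add_one ρ)
  obtain ⟨N, hN⟩ : ∃ N : Measure ℝ, N = Measure.sum fun i =>
      ENNReal.ofReal (a i ^ (-ρ)) • Measure.dirac (Real.log (a i)) := ⟨_, rfl⟩
  have hpos : ∀ i, 0 ≤ a i ^ (-ρ) := fun i => Real.rpow_nonneg (ha i).le _
  have key : ∀ (θ x : ℝ), f (Real.exp x * Complex.exp (θ * Complex.I)) ≠ 0 →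
      Integrable (fun y => kk ρ θ (x - y)) N ∧
      Um ρ θ N x = Real.exp (-(ρ * x)) *
        ∑' i, ker ⌊ρ⌋₊ ((Real.exp x : ℂ) * Complex.exp (θ * Complex.I)) (a i) := by
    intro θ x hx
    obtain ⟨hsm, -⟩ := hlog _ hx
    constructor
    · rw [hN]
      refine (integrable_sum_dirac_iff (fun i => ENNReal.ofReal_ne_top)).2 ?_
      have h1 : (fun i => (ENNReal.ofReal (a i ^ (-ρ))).toReal * ‖kk ρ θ (x - Real.log (a i))‖) =
          fun i => |Real.exp (-(ρ * x)) *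
            ker ⌊ρ⌋₊ ((Real.exp x : ℂ) * Complex.exp (θ * Complex.I)) (a i)| := by
        funext i
        rw [ENNReal.toReal_ofReal (hpos i), ← nr_kk (ha i), abs_mul, abs_of_nonneg (hpos i),
          Real.norm_eq_abs]
      rw [h1]
      exact (hsm.mul_left _).abs
    · unfold Um
      rw [hN, integral_sum_dirac (fun i => ENNReal.ofReal_ne_top), ← tsum_mul_left]
      refine tsum_congr fun i => ?_
      rw [ENNReal.toReal_ofReal (hpos i), smul_eq_mul, nr_kk (ha i)]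
  have keyl : ∀ (θ x : ℝ), f (Real.exp x * Complex.exp (θ * Complex.I)) ≠ 0 →
      Real.log ‖f (Real.exp x * Complex.exp (θ * Complex.I))‖ / (Real.exp x) ^ ρ =
        Um ρ θ N x + Real.exp (-(ρ * x)) *
          (Q.eval ((Real.exp x : ℂ) * Complex.exp (θ * Complex.I))).re := by
    intro θ x hx
    rw [(key θ x hx).2, (hlog _ hx).2, nr_exp_rpow, div_eq_mul_inv, ← Real.exp_neg]
    ring
  refine ⟨N, ?_, ?_, ?_⟩
  · rw [hN]
    exact nr_tame hρ ha hs
  · refine ⟨Set.range fun i => Real.log (a i), Set.countable_range _, ?_⟩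
    intro x hx θ hθ h0
    obtain ⟨i, hi⟩ := (hz _).1 h0
    apply hx
    refine ⟨i, ?_⟩
    have h1 : Real.exp x = a i := by
      rw [← nr_norm θ x, hi, norm_neg, Complex.norm_real, Real.norm_of_nonneg (ha i).le]
    change Real.log (a i) = x
    rw [← h1, Real.log_exp]
  · refine ⟨fun θ x => Real.exp (-(ρ * x)) *
      (Q.eval ((Real.exp x : ℂ) * Complex.exp (θ * Complex.I))).re, ?_, ?_⟩
    · exact nr_err hm Q hQ
    · intro θ hθ x hx
      refine ⟨(key θ x hx).1, ?_, keyl θ x hx⟩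
      have hz : Continuous fun y : ℝ => (Real.exp y : ℂ) * Complex.exp (θ * Complex.I) :=
        (Complex.continuous_ofReal.comp Real.continuous_exp).mul continuous_const
      have hfc : Continuous fun y : ℝ => f ((Real.exp y : ℂ) * Complex.exp (θ * Complex.I)) :=
        hf.differentiable.continuous.comp hz
      have hQc : Continuous fun y : ℝ => Q.eval ((Real.exp y : ℂ) * Complex.exp (θ * Complex.I)) :=
        Q.continuous.comp hz
      have hev : ∀ᶠ y in 𝓝 x, f ((Real.exp y : ℂ) * Complex.exp (θ * Complex.I)) ≠ 0 :=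
        hfc.continuousAt.eventually_ne hx
      have heq : Um ρ θ N =ᶠ[𝓝 x] fun y =>
          Real.log ‖f (Real.exp y * Complex.exp (θ * Complex.I))‖ / (Real.exp y) ^ ρ -
          Real.exp (-(ρ * y)) *
          (Q.eval ((Real.exp y : ℂ) * Complex.exp (θ * Complex.I))).re := by
        filter_upwards [hev] with y hy
        rw [keyl θ y hy]
        ring
      refine ContinuousAt.congr ?_ heq.symm
      refine ContinuousAt.sub (ContinuousAt.div ?_ ?_ ?_) ?_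
      · exact ContinuousAt.log hfc.norm.continuousAt (norm_ne_zero_iff.2 hx)
      · exact ContinuousAt.rpow_const Real.continuous_exp.continuousAt
          (Or.inl (Real.exp_pos x).ne')
      · exact (Real.rpow_pos_of_pos (Real.exp_pos x) ρ).ne'
      · have h1 : Continuous fun y : ℝ => Real.exp (-(ρ * y)) := by fun_prop
        exact (h1.mul (Complex.continuous_re.comp hQc)).continuousAt

theorem evLe_of_lt {ρ θ A : ℝ} (hρ : 0 < ρ) {f : ℂ → ℂ} {N : Measure ℝ} (hR : Rep ρ f N)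
    (hθ : θ ∈ Icc (0 : ℝ) Real.pi) (h : indicatorOf ρ f θ < (A : EReal)) : EvLe ρ N θ A := by
  obtain ⟨A', h1, h2⟩ := EReal.lt_iff_exists_real_btwn.1 h
  have hAA : A' < A := by exact_mod_cast h2
  obtain ⟨err, herr, hrep⟩ := hR.rep
  obtain ⟨x₁, hx₁⟩ := herr (A - A') (by linarith)
  obtain ⟨Z, hZ, hZf⟩ := hR.cnt
  obtain ⟨x₂, hx₂⟩ := eventually_atTop.1
    (Real.tendsto_exp_atTop.eventually (eventually_le_of_indicatorOf_lt h1))
  refine ⟨max x₁ x₂, ?_⟩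
  have hae : ∀ᵐ x : ℝ, x ∉ Z := by
    have := hZ.measure_zero (volume : Measure ℝ)
    exact compl_mem_ae_iff.2 this
  filter_upwards [hae] with x hxZ hx
  have hf0 := hZf x hxZ θ hθ
  have h3 := hx₂ x ((le_max_right _ _).trans hx)
  have h4 := hx₁ x ((le_max_left _ _).trans hx) θ
  obtain ⟨-, -, h5⟩ := hrep θ hθ x hf0
  have hp : 0 < (Real.exp x) ^ ρ := Real.rpow_pos_of_pos (Real.exp_pos x) ρ
  have h6 : Real.log ‖f (Real.exp x * Complex.exp (θ * Complex.I))‖ / (Real.exp x) ^ ρ ≤ A' := by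
    rw [div_le_iff₀ hp, Real.log_le_iff_le_exp (norm_pos_iff.2 hf0)]
    exact h3
  rw [h5] at h6
  have h7 := neg_abs_le (err θ x)
  linarith

theorem frGe_of_lt {ρ θ B : ℝ} (hρ : 0 < ρ) {f : ℂ → ℂ} {N : Measure ℝ} (hR : Rep ρ f N)
    (hθ : θ ∈ Icc (0 : ℝ) Real.pi) (h : (B : EReal) < indicatorOf ρ f θ) : FrGe ρ N θ B := by
  obtain ⟨B', h1, h2⟩ := EReal.lt_iff_exists_real_btwn.1 h
  have hBB : B < B' := by exact_mod_cast h1
  obtain ⟨err, herr, hrep⟩ := hR.rep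
  obtain ⟨x₁, hx₁⟩ := herr ((B' - B) / 2) (by linarith)
  intro x₀ hae
  have hfr := (frequently_le_of_lt_indicatorOf h2).and_eventually
    (eventually_gt_atTop (Real.exp (max x₀ x₁)))
  obtain ⟨r, hr1, hr2⟩ := hfr.exists
  have hr0 : 0 < r := (Real.exp_pos _).trans hr2
  obtain ⟨x, hx⟩ : ∃ x : ℝ, x = Real.log r := ⟨_, rfl⟩
  have hxr : Real.exp x = r := by rw [hx, Real.exp_log hr0]
  rw [← hxr] at hr1 hr2
  have hxm : max x₀ x₁ < x := Real.exp_lt_exp.1 hr2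
  have hf0 : f (Real.exp x * Complex.exp (θ * Complex.I)) ≠ 0 := by
    intro h0
    rw [h0, norm_zero] at hr1
    exact absurd hr1 (not_le.2 (Real.exp_pos _))
  obtain ⟨-, h4, h5⟩ := hrep θ hθ x hf0
  have hp : 0 < (Real.exp x) ^ ρ := Real.rpow_pos_of_pos (Real.exp_pos x) ρ
  have h6 : B' ≤ Real.log ‖f (Real.exp x * Complex.exp (θ * Complex.I))‖ / (Real.exp x) ^ ρ := by
    rw [le_div_iff₀ hp, Real.le_log_iff_exp_le (norm_pos_iff.2 hf0)]
    exact hr1
  rw [h5] at h6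
  have h7 := le_abs_self (err θ x)
  have h8 := hx₁ x ((le_max_right _ _).trans hxm.le) θ
  have h9 : B < Um ρ θ N x := by linarith
  obtain ⟨y, hy1, hy2, hy3⟩ := nr_dense hae ((h4.eventually (lt_mem_nhds h9)).and
    (lt_mem_nhds ((le_max_left _ _).trans_lt hxm)))
  exact absurd (hy1 hy3.le) (not_lt.2 hy2.le)

theorem indicator_le_of_evLe {ρ θ A : ℝ} (hρ : 0 < ρ) {f : ℂ → ℂ} {N : Measure ℝ}
    (hR : Rep ρ f N) (hθ : θ ∈ Icc (0 : ℝ) Real.pi) (h : EvLe ρ N θ A) :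
    indicatorOf ρ f θ ≤ (A : EReal) := by
  obtain ⟨err, herr, hrep⟩ := hR.rep
  obtain ⟨x₀, hae⟩ := h
  refine indicatorOf_le_of_eventually fun ε hε => ?_
  obtain ⟨x₁, hx₁⟩ := herr ε hε
  filter_upwards [eventually_gt_atTop (Real.exp (max x₀ x₁))] with r hr2
  have hr0 : 0 < r := (Real.exp_pos _).trans hr2
  obtain ⟨x, hx⟩ : ∃ x : ℝ, x = Real.log r := ⟨_, rfl⟩
  have hxr : Real.exp x = r := by rw [hx, Real.exp_log hr0]
  rw [← hxr] at hr2 ⊢
  have hxm : max x₀ x₁ < x := Real.exp_lt_exp.1 hr2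
  by_cases hf0 : f (Real.exp x * Complex.exp (θ * Complex.I)) = 0
  · rw [hf0, norm_zero]
    exact (Real.exp_pos _).le
  obtain ⟨-, h4, h5⟩ := hrep θ hθ x hf0
  have hp : 0 < (Real.exp x) ^ ρ := Real.rpow_pos_of_pos (Real.exp_pos x) ρ
  have h9 : Um ρ θ N x ≤ A := by
    by_contra hc
    push Not at hc
    obtain ⟨y, hy1, hy2, hy3⟩ := nr_dense hae ((h4.eventually (lt_mem_nhds hc)).and
      (lt_mem_nhds ((le_max_left _ _).trans_lt hxm)))
    exact absurd (hy1 hy3.le) (not_le.2 hy2)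
  have h7 := le_abs_self (err θ x)
  have h8 := hx₁ x ((le_max_right _ _).trans hxm.le) θ
  have h6 : Real.log ‖f (Real.exp x * Complex.exp (θ * Complex.I))‖ / (Real.exp x) ^ ρ ≤
      A + ε := by
    rw [h5]
    linarith
  rw [div_le_iff₀ hp, Real.log_le_iff_le_exp (norm_pos_iff.2 hf0)] at h6
  exact h6

end Helper25.Ind
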