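import Pool.Agent.Helper25.Ind2.NPos
import Pool.Agent.Helper25.Ind2.NFlux
import Pool.Agent.Helper25.Ind2.NMom
import Pool.Agent.Helper25.Ind2.NMaj
import Pool.Agent.Helper25.Ind2.NRep
import Pool.Agent.Helper25.Ind.Trig
import Pool.Agent.Helper25.Ind.Nec

/-!
# IND2 N6: necessary conditions, assembled (`ρ` not an integer)

PROOFS. `N` from `exists_rep`.
* `nec_off`: if `0 < sg ρ θ` then `0 < cc ρ 0 θ` (`cc_eq_sg`). If `indicatorOf θ ≠ ⊤` choose `A` with `indicatorOf < A`; `evLe_of_lt`, `bounded_of_pos`, `um_bounded`: `Um ≤ A'` for all angles in `[0,π]`, so `indicatorOf ≤ A'` for all angles in `[0,π]` (`indicator_le_of_evLe`), and for all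
  angles by evenness (`even_of_indicator`) and periodicity (`indicatorOf_add_two_pi`): every real angle is `±θ' + 2πk` with `θ' ∈ [0,π]`. Contradiction with `htop`.
* `nec_right`: if `indicatorOf r < 0` choose a real `A` with `indicatorOf r < A < 0`; `flux_right` gives `0 ≤ A`.
* `nec_maj`: given `n φ μ τ`. Case (i): some `cc ρ 0 (φ j) > 0` or some `RE ρ (φ j)`: then `hat ≤ C(1+x)` (`bounded_of_pos` or `flux_right`). Case (ii): otherwise every `φ j` has `cc < 0`, or `cc = 0`, i.e. `cos(ρ φ j) = 0`, and then `sin(ρ φ j) = ±1` so `LE` or `RE`, so `LE`; `cert_moment` gives the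
  moments. In both cases `maj_core`: for all reals `A j > h(φ j)` and `B < h τ`: `B ≤ ∑ A j μ j(ℝ)`. Conclude in `EReal`: if `h τ = ⊥` trivial. If some `j` has `h (φ j) = ⊥` and `μ j ≠ 0` let `A j → -∞`: `h τ = ⊥`. Otherwise take the infimum over the `A j` with
  `μ j ≠ 0` (`h(φ j)` real); terms with `μ j = 0` are `0` (`0 * x = 0` in `EReal`).
* `order_le`: `OrderLE ρ f` from `IsN`.
* `nec_trig`: `indicatorOf_le_trig`.
* `ne_bot_of_ne_top`: if `indicatorOf < ⊤` everywhere and `= ⊥` somewhere then `= ⊥` everywhere (`indicatorOf_eq_bot_left/right` propagate to every angle at distance `< π/ρ`, then iterate; use that for given angles `θ₁ < θ < θ₂` with `ρ(θ₂-θ₁)<π`), so by `phragmen_lindelof` (sectors of opening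
  `< π/ρ`, `A₁ = A₂ = -1`, finitely many cover the plane) `‖f z‖ ≤ C e^{-c|z|^ρ}` for a `c > 0`?: choose sectors so small that `(sin ρ(θ₂-θ)+ sin ρ(θ-θ₁))/sin ρ(θ₂-θ₁) ≥ 1/2`; then `f → 0` at infinity, `f` bounded entire, constant `= 0` (Liouville), contradiction with `f ≠ 0`.
-/

open Complex Filter Topology MeasureTheory Set

namespace Helper25.Ind

lemma order_le {ρ : ℝ} {f : ℂ → ℂ} (hf : IsN ρ f) : OrderLE ρ f :=
  ⟨hf.differentiable, hf.upper⟩

private lemma nasm_reduce {g : ℝ → EReal} (hp : ∀ θ, g (θ + 2 * Real.pi) = g θ)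
    (he : ∀ θ, g (-θ) = g θ) (θ : ℝ) : ∃ θ' ∈ Icc (0 : ℝ) Real.pi, g θ = g θ' := by
  have hper : Function.Periodic g (2 * Real.pi) := hp
  have h2 : (0 : ℝ) < 2 * Real.pi := by positivity
  set v : ℝ := toIcoMod h2 (-Real.pi) θ with hv
  have hgv : g v = g θ := by
    rw [hv, toIcoMod, hper.sub_zsmul_eq]
  have hmem := toIcoMod_mem_Ico h2 (-Real.pi) θ
  rw [← hv] at hmem
  have h3 : -Real.pi ≤ v := hmem.1
  have h4 : v < -Real.pi + 2 * Real.pi := hmem.2
  refine ⟨|v|, ⟨abs_nonneg v, abs_le.2 ⟨h3, by linarith⟩⟩, ?_⟩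
  rcases abs_choice v with h | h
  · rw [h, hgv]
  · rw [h, he, hgv]

theorem nec_off {ρ : ℝ} (hρ : 0 < ρ) (hint : ¬ ∃ n : ℕ, ρ = n) {f : ℂ → ℂ} (hf : IsN ρ f)
    (htop : ∃ θ, indicatorOf ρ f θ = ⊤) {θ : ℝ} (hθ : θ ∈ Icc (0 : ℝ) Real.pi)
    (hsg : 0 < sg ρ θ) : indicatorOf ρ f θ = ⊤ := by
  obtain ⟨N, hR⟩ := exists_rep hρ hint hf
  by_contra hne
  obtain ⟨A, hA, -⟩ := EReal.lt_iff_exists_real_btwn.1 (lt_top_iff_ne_top.2 hne)
  have hc : 0 < cc ρ 0 θ := by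
    obtain ⟨c, hc0, hc⟩ := cc_eq_sg hρ hint
    rw [hc]
    exact mul_pos hc0 hsg
  have h1 := bounded_of_pos hρ hint hR.tame hθ hc (evLe_of_lt hρ hR hθ hA)
  obtain ⟨A', hA'⟩ := um_bounded hρ hint hR.tame h1
  obtain ⟨θ₀, hθ₀⟩ := htop
  obtain ⟨θ', hθ', he⟩ := nasm_reduce (g := indicatorOf ρ f)
    (fun θ => indicatorOf_add_two_pi ρ θ f) (even_of_indicator hρ hint hf) θ₀
  have h2 : indicatorOf ρ f θ' ≤ (A' : EReal) :=
    indicator_le_of_evLe hρ hR hθ' ⟨0, Eventually.of_forall fun x _ => hA' θ' x⟩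
  rw [← he, hθ₀] at h2
  exact absurd h2 (not_le.2 (EReal.coe_lt_top A'))

theorem nec_right {ρ : ℝ} (hρ : 0 < ρ) (hint : ¬ ∃ n : ℕ, ρ = n) {f : ℂ → ℂ} (hf : IsN ρ f)
    {r : ℝ} (hr : RE ρ r) : 0 ≤ indicatorOf ρ f r := by
  obtain ⟨N, hR⟩ := exists_rep hρ hint hf
  by_contra hc
  rw [not_le] at hc
  obtain ⟨A, hA1, hA2⟩ := EReal.lt_iff_exists_real_btwn.1 hc
  have hA2' : A < 0 := by exact_mod_cast hA2
  have h1 := evLe_of_lt hρ hR ⟨hr.1, hr.2.1⟩ hA1
  have h2 := (flux_right hρ hint hR.tame hr h1).1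
  linarith

private lemma nasm_coe_sum {ι : Type*} (s : Finset ι) (g : ι → ℝ) :
    ((∑ j ∈ s, g j : ℝ) : EReal) = ∑ j ∈ s, ((g j : ℝ) : EReal) := by
  classical
  induction s using Finset.induction_on with
  | empty => simp
  | insert a s ha ih => rw [Finset.sum_insert ha, Finset.sum_insert ha, EReal.coe_add, ih]

private lemma nasm_conclude {n : ℕ} {a : Fin n → EReal} {m : Fin n → ℝ} {t : EReal}
    (hm : ∀ j, 0 ≤ m j) (ha : ∀ j, a j ≠ ⊤)
    (H : ∀ (A : Fin n → ℝ) (B : ℝ), (∀ j, a j < (A j : EReal)) → (B : EReal) < t →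
      B ≤ ∑ j, A j * m j) :
    t ≤ ∑ j, ((m j : ℝ) : EReal) * a j := by
  by_contra hc
  rw [not_le] at hc
  obtain ⟨B, hB1, hB2⟩ := EReal.lt_iff_exists_real_btwn.1 hc
  by_cases hex : ∃ j₀, a j₀ = ⊥ ∧ m j₀ ≠ 0
  · obtain ⟨j₀, hj, hm0⟩ := hex
    have hmp : 0 < m j₀ := lt_of_le_of_ne (hm j₀) (Ne.symm hm0)
    have hA : ∀ j, ∃ A : ℝ, a j < (A : EReal) := fun j => by
      obtain ⟨A, hA, -⟩ := EReal.lt_iff_exists_real_btwn.1 (lt_top_iff_ne_top.2 (ha j))
      exact ⟨A, hA⟩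
    choose A hA using hA
    set S : ℝ := ∑ j ∈ Finset.univ.erase j₀, A j * m j with hS
    have h1 := H (Function.update A j₀ ((B - 1 - S) / m j₀)) B (fun j => by
      by_cases h : j = j₀
      · subst h
        rw [Function.update_self, hj]
        exact EReal.bot_lt_coe _
      · rw [Function.update_of_ne h]
        exact hA j) hB2
    rw [← Finset.add_sum_erase _ _ (Finset.mem_univ j₀), Function.update_self,
      div_mul_cancel₀ _ hm0] at h1
    have h2 : ∑ x ∈ Finset.univ.erase j₀,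
        Function.update A j₀ ((B - 1 - S) / m j₀) x * m x = S := by
      rw [hS]
      refine Finset.sum_congr rfl fun x hx => ?_
      rw [Function.update_of_ne (Finset.ne_of_mem_erase hx)]
    rw [h2] at h1
    linarith
  · push Not at hex
    have h3 : ∀ j, ((m j : ℝ) : EReal) * a j = ((m j * (a j).toReal : ℝ) : EReal) := by
      intro j
      by_cases h : a j = ⊥
      · rw [hex j h]
        simp
      · rw [EReal.coe_mul, EReal.coe_toReal (ha j) h]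
    have h4 : ∑ j, ((m j : ℝ) : EReal) * a j = ((∑ j, m j * (a j).toReal : ℝ) : EReal) := by
      rw [nasm_coe_sum]
      exact Finset.sum_congr rfl fun j _ => h3 j
    rw [h4] at hB1
    have hB1' : ∑ j, m j * (a j).toReal < B := by exact_mod_cast hB1
    set M : ℝ := ∑ j, m j with hM
    have hM0 : 0 ≤ M := Finset.sum_nonneg fun j _ => hm j
    set T : ℝ := ∑ j, m j * (a j).toReal with hT
    set ε : ℝ := (B - T) / (2 * (M + 1)) with hε
    have hε0 : 0 < ε := div_pos (by linarith) (by positivity)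
    have h5 := H (fun j => (a j).toReal + ε) B (fun j => by
      by_cases h : a j = ⊥
      · rw [h]
        exact EReal.bot_lt_coe _
      · conv_lhs => rw [← EReal.coe_toReal (ha j) h]
        exact_mod_cast lt_add_of_pos_right _ hε0) hB2
    have h6 : ∑ j, ((a j).toReal + ε) * m j = T + ε * M := by
      rw [hT, hM, Finset.mul_sum, ← Finset.sum_add_distrib]
      exact Finset.sum_congr rfl fun j _ => by ring
    rw [h6] at h5
    have h7 : ε * (2 * (M + 1)) = B - T := by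
      rw [hε]
      exact div_mul_cancel₀ _ (by positivity)
    nlinarith

private lemma nasm_cases {ρ : ℝ} (hρ : 0 < ρ) (hint : ¬ ∃ n : ℕ, ρ = n) {θ : ℝ}
    (hθ : θ ∈ Icc (0 : ℝ) Real.pi) (h1 : ¬ 0 < cc ρ 0 θ) (h2 : ¬ RE ρ θ) :
    cc ρ 0 θ < 0 ∨ LE ρ θ := by
  rcases lt_trichotomy (cc ρ 0 θ) 0 with h | h | h
  · exact Or.inl h
  · right
    obtain ⟨c, hc0, hc⟩ := cc_eq_sg hρ hint
    rw [hc] at h
    have h3 : sg ρ θ = 0 := (mul_eq_zero.1 h).resolve_left hc0.ne'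
    have h4 : Real.cos (ρ * θ) = 0 := by
      unfold sg at h3
      exact (mul_eq_zero.1 h3).resolve_left (pow_ne_zero _ (by norm_num))
    have h5 : (-1 : ℝ) ^ ⌊ρ⌋₊ * Real.sin (ρ * θ) ≠ 0 := by
      refine mul_ne_zero (pow_ne_zero _ (by norm_num)) ?_
      intro h0
      have := Real.sin_sq_add_cos_sq (ρ * θ)
      rw [h0, h4] at this
      norm_num at this
    rcases lt_or_gt_of_ne h5 with h6 | h6
    · exact absurd ⟨hθ.1, hθ.2, h4, h6⟩ h2
    · exact ⟨hθ.1, hθ.2, h4, h6⟩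
  · exact absurd h h1

theorem nec_maj {ρ : ℝ} (hρ : 0 < ρ) (hint : ¬ ∃ n : ℕ, ρ = n) {f : ℂ → ℂ} (hf : IsN ρ f)
    {h : ℝ → EReal} (hh : ∀ θ, indicatorOf ρ f θ = h θ) : MajMeas ρ h := by
  obtain ⟨N, hR⟩ := exists_rep hρ hint hf
  intro n φ μ τ hμ hφ hτ hne hcert
  refine nasm_conclude (fun j => ENNReal.toReal_nonneg) hne fun A B hA hB => ?_
  have hev : ∀ j, EvLe ρ N (φ j) (A j) := fun j =>
    evLe_of_lt hρ hR (hφ j) (by rw [hh]; exact hA j)
  have hfr : FrGe ρ N τ B := frGe_of_lt hρ hR hτ (by rw [hh]; exact hB)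
  refine maj_core hρ hint hR.tame hμ hφ hτ ?_ hcert hev hfr
  by_cases h1 : ∃ j, 0 < cc ρ 0 (φ j)
  · obtain ⟨j, hj⟩ := h1
    obtain ⟨C, hC⟩ := bounded_of_pos hρ hint hR.tame (hφ j) hj (hev j)
    refine Or.inl ⟨|C|, fun x hx => ?_⟩
    have h2 := (hC x).trans (le_abs_self C)
    nlinarith [abs_nonneg C]
  · by_cases h2 : ∃ j, RE ρ (φ j)
    · obtain ⟨j, hj⟩ := h2
      exact Or.inl (flux_right hρ hint hR.tame hj (hev j)).2
    · push Not at h1 h2
      exact Or.inr (cert_moment hρ hint hμ hφ hτ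
        (fun j => nasm_cases hρ hint (hφ j) (not_lt.2 (h1 j)) (h2 j)) hcert)

theorem nec_trig {ρ : ℝ} (hρ : 0 < ρ) {f : ℂ → ℂ} (hf : IsN ρ f)
    {h : ℝ → EReal} (hh : ∀ θ, indicatorOf ρ f θ = h θ) : TrigConv ρ h := by
  intro θ₁ θ θ₂ A₁ A₂ h1 h2 h12 hA1 hA2
  rw [← hh] at hA1 hA2 ⊢
  exact indicatorOf_le_trig hρ (order_le hf) h1 h2 h12 hA1 hA2

private lemma nasm_near {ρ : ℝ} (hρ : 0 < ρ) {f : ℂ → ℂ} (hf : OrderLE ρ f)
    (h : ∀ θ, indicatorOf ρ f θ ≠ ⊤) {θ₀ θ : ℝ} (h0 : indicatorOf ρ f θ₀ = ⊥)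
    (hd : |θ - θ₀| < Real.pi / ρ) : indicatorOf ρ f θ = ⊥ := by
  have hd1 := abs_lt.1 hd
  rcases lt_trichotomy θ₀ θ with h1 | h1 | h1
  · obtain ⟨t, ht1, ht2⟩ := exists_between hd1.2
    have h2 : ρ * t < Real.pi := by
      have := (lt_div_iff₀ hρ).1 ht2
      linarith
    exact indicatorOf_eq_bot_left (θ₂ := θ₀ + t) hρ hf h1 (by linarith)
      (by rw [add_sub_cancel_left]; exact h2) h0 (h _)
  · rw [← h1]; exact h0
  · have hd2 : θ₀ - θ < Real.pi / ρ := by linarith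
    obtain ⟨t, ht1, ht2⟩ := exists_between hd2
    have h2 : ρ * t < Real.pi := by
      have := (lt_div_iff₀ hρ).1 ht2
      linarith
    exact indicatorOf_eq_bot_right (θ₁ := θ₀ - t) hρ hf (by linarith) h1
      (by rw [sub_sub_cancel]; exact h2) (h _) h0

private lemma nasm_all {ρ : ℝ} (hρ : 0 < ρ) {f : ℂ → ℂ} (hf : OrderLE ρ f)
    (h : ∀ θ, indicatorOf ρ f θ ≠ ⊤) {θ₀ : ℝ} (h0 : indicatorOf ρ f θ₀ = ⊥) :
    ∀ θ, indicatorOf ρ f θ = ⊥ := by
  have hpos : 0 < Real.pi / ρ := div_pos Real.pi_pos hρ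
  have hop : IsOpen {θ | indicatorOf ρ f θ = ⊥} := by
    rw [Metric.isOpen_iff]
    intro θ hθ
    refine ⟨Real.pi / ρ, hpos, fun x hx => ?_⟩
    rw [Metric.mem_ball, Real.dist_eq] at hx
    exact nasm_near hρ hf h hθ hx
  have hcl : IsClosed {θ | indicatorOf ρ f θ = ⊥} := by
    rw [← isOpen_compl_iff, Metric.isOpen_iff]
    intro θ hθ
    refine ⟨Real.pi / ρ, hpos, fun x hx hx2 => hθ ?_⟩
    rw [Metric.mem_ball, Real.dist_eq, abs_sub_comm] at hx
    exact nasm_near hρ hf h hx2 hx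
  have huniv := IsClopen.eq_univ ⟨hcl, hop⟩ ⟨θ₀, h0⟩
  intro θ
  have : θ ∈ {θ | indicatorOf ρ f θ = ⊥} := by rw [huniv]; trivial
  exact this

theorem ne_bot_of_ne_top {ρ : ℝ} (hρ : 0 < ρ) {f : ℂ → ℂ} (hf : IsN ρ f)
    (h : ∀ θ, indicatorOf ρ f θ ≠ ⊤) : ∀ θ, indicatorOf ρ f θ ≠ ⊥ := by
  intro θ₀ h0
  have hall := nasm_all hρ (order_le hf) h h0
  have hev : ∀ θ : ℝ, ∀ᶠ r : ℝ in atTop,
      ‖f (r * Complex.exp (θ * Complex.I))‖ ≤ Real.exp ((-1) * r ^ ρ) := by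
    intro θ
    refine eventually_le_of_indicatorOf_lt ?_
    rw [hall θ]
    exact EReal.bot_lt_coe _
  -- sectors
  set δ : ℝ := Real.pi / (2 * (ρ + 1)) with hδ
  have hδ0 : 0 < δ := div_pos Real.pi_pos (by linarith)
  have hδ1 : (ρ + 1) * δ = Real.pi / 2 := by
    rw [hδ]; field_simp
  have hρδ : ρ * δ < Real.pi := by nlinarith [Real.pi_pos]
  have hPL : ∀ k : ℕ, ∃ C > 0, ∀ r : ℝ, 0 < r → ∀ θ ∈ Icc (-Real.pi + k * δ)
      (-Real.pi + (k + 1) * δ), ‖f (r * Complex.exp (θ * Complex.I))‖ ≤ C := by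
    intro k
    obtain ⟨C, hC, hb⟩ := phragmen_lindelof (A₁ := -1) (A₂ := -1) (θ₁ := -Real.pi + k * δ)
      (θ₂ := -Real.pi + (k + 1) * δ) (σ := ρ + 1) hf.differentiable hρ (by linarith)
      (by nlinarith) (by
        have : ρ * (-Real.pi + (k + 1) * δ - (-Real.pi + k * δ)) = ρ * δ := by ring
        rw [this]; exact hρδ) (by
        have : (ρ + 1) * (-Real.pi + (k + 1) * δ - (-Real.pi + k * δ)) = Real.pi / 2 := by
          rw [← hδ1]; ring
        rw [this]; linarith [Real.pi_pos]) (hf.upper (ρ + 1) (by linarith)) (hev _) (hev _)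
    refine ⟨C, hC, fun r hr θ hθ => (hb r hr θ hθ).trans ?_⟩
    have e1 : -Real.pi + ((k : ℝ) + 1) * δ - (-Real.pi + k * δ) = δ := by ring
    have hS : 0 < Real.sin (ρ * δ) := Real.sin_pos_of_pos_of_lt_pi (by positivity) hρδ
    have hs1 : 0 ≤ Real.sin (ρ * (-Real.pi + ((k : ℝ) + 1) * δ - θ)) := by
      apply Real.sin_nonneg_of_nonneg_of_le_pi
      · exact mul_nonneg hρ.le (by linarith [hθ.2])
      · refine le_trans (mul_le_mul_of_nonneg_left ?_ hρ.le) hρδ.le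
        linarith [hθ.1]
    have hs2 : 0 ≤ Real.sin (ρ * (θ - (-Real.pi + k * δ))) := by
      apply Real.sin_nonneg_of_nonneg_of_le_pi
      · exact mul_nonneg hρ.le (by linarith [hθ.1])
      · refine le_trans (mul_le_mul_of_nonneg_left ?_ hρ.le) hρδ.le
        linarith [hθ.2]
    rw [e1]
    have hexp : Real.exp ((-1 * Real.sin (ρ * (-Real.pi + ((k : ℝ) + 1) * δ - θ)) +
        -1 * Real.sin (ρ * (θ - (-Real.pi + k * δ)))) / Real.sin (ρ * δ) * r ^ ρ) ≤ 1 := by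
      rw [Real.exp_le_one_iff]
      refine mul_nonpos_of_nonpos_of_nonneg ?_ (Real.rpow_nonneg hr.le _)
      exact div_nonpos_of_nonpos_of_nonneg (by linarith) hS.le
    calc C * _ ≤ C * 1 := mul_le_mul_of_nonneg_left hexp hC.le
      _ = C := mul_one C
  choose C hC hb using hPL
  set n : ℕ := ⌈2 * Real.pi / δ⌉₊ with hn
  have hbd : ∀ z, ‖f z‖ ≤ (∑ k ∈ Finset.range (n + 1), C k) + ‖f 0‖ := by
    intro z
    have hsum0 : 0 ≤ ∑ k ∈ Finset.range (n + 1), C k := Finset.sum_nonneg fun k _ => (hC k).le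
    by_cases hz : z = 0
    · rw [hz]; linarith
    · have hz0 : 0 < ‖z‖ := norm_pos_iff.2 hz
      have hu : 0 ≤ (z.arg + Real.pi) / δ := div_nonneg (by linarith [Complex.neg_pi_lt_arg z]) hδ0.le
      set k : ℕ := ⌊(z.arg + Real.pi) / δ⌋₊ with hk
      have hk1 : (k : ℝ) ≤ (z.arg + Real.pi) / δ := Nat.floor_le hu
      have hk2 : (z.arg + Real.pi) / δ < k + 1 := Nat.lt_floor_add_one _
      rw [le_div_iff₀ hδ0] at hk1
      rw [div_lt_iff₀ hδ0] at hk2
      have hkn : k ∈ Finset.range (n + 1) := by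
        rw [Finset.mem_range, Nat.lt_succ_iff]
        have h5 : (k : ℝ) ≤ 2 * Real.pi / δ := by
          rw [le_div_iff₀ hδ0]
          linarith [Complex.arg_le_pi z]
        exact_mod_cast h5.trans (Nat.le_ceil _)
      have h6 := hb k ‖z‖ hz0 z.arg ⟨by linarith, by linarith⟩
      rw [Complex.norm_mul_exp_arg_mul_I] at h6
      have h7 : C k ≤ ∑ k ∈ Finset.range (n + 1), C k :=
        Finset.single_le_sum (f := C) (fun k _ => (hC k).le) hkn
      linarith [norm_nonneg (f 0)]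
  obtain ⟨c, hc⟩ := hf.differentiable.exists_const_forall_eq_of_bounded (by
    rw [isBounded_iff_forall_norm_le]
    refine ⟨(∑ k ∈ Finset.range (n + 1), C k) + ‖f 0‖, ?_⟩
    rintro _ ⟨z, rfl⟩
    exact hbd z)
  have hc0 : c ≠ 0 := by
    intro h1
    have h2 := hf.zeros 0 (by rw [hc 0, h1])
    simp at h2
  have hlim : Tendsto (fun r : ℝ => Real.exp ((-1) * r ^ ρ)) atTop (𝓝 0) := by
    refine Real.tendsto_exp_atBot.comp ?_
    exact (tendsto_rpow_atTop hρ).const_mul_atTop_of_neg (by norm_num)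
  have h8 : ‖c‖ ≤ 0 := by
    refine ge_of_tendsto hlim ?_
    filter_upwards [hev 0] with r hr
    rwa [hc] at hr
  exact hc0 (norm_le_zero_iff.1 h8)

end Helper25.Ind
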