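import Pool.Agent.Helper25.Ind2.KBound

/-!
# IND2 K5: derivative of `e^{ρ s} kk ρ θ s = log |E(-e^{s+iθ}, p)|` and the sign patterns

Write `K(s) = KK ρ θ s = ker p (e^s e^{iθ}) 1`, `w = e^s e^{iθ}`, `p = ⌊ρ⌋₊`, `a = aa ρ θ`, `b = bb ρ θ`.
PROOFS.
* `hasDerivAt_KK_re`: `K(s) = log‖1+w‖ + Re ∑_{j<p} (-w)^{j+1}/(j+1)`. The derivative of `log(1+w)` along `s` is `w/(1+w)` and
  `w/(1+w) + ∑_{j<p} (-1)^{j+1} w^{j+1} = (-1)^p w^{p+1}/(1+w)` (geometric sum). `1 + w ≠ 0` under the hypothesis. (For `θ < π` one can use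
  `hasDerivAt_ker` and `ker_scale`.) Use `HasDerivAt.clog` only in the slit plane; for `θ = π`, `s ≠ 0`: `‖1+w‖ = |1-e^s|`, `Real.log |·|` is
  differentiable off `0`. A uniform proof: `log‖v‖ = (1/2) log (normSq v)`.
* `hasDerivAt_KK`: `Re(w^{p+1}/(1+w)) = Re(w^{p+1} conj(1+w))/‖1+w‖² = (e^{(p+1)s} cos((p+1)θ) + e^{(p+2)s} cos(pθ))/‖1+w‖²`.
* `KK_tendsto_bot`: `K(s) → 0` as `s → -∞` (`|K| ≤ C Φ(e^s)`).
* `pattern_neg`: if `a ≤ 0`, `b ≤ 0` then `θ ≠ π` (at `π`, `b = 1`), `K' ≤ 0`, and `K' < 0` unless `a = b = 0`, which is impossible: `cos((p+1)θ) = cos(pθ) = 0` implies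
  `sin θ = 0` (`sin((p+1)θ - pθ)`), so `θ = 0` or `π`, where `cos pθ = ±1`. So `K` is strictly decreasing from `0`: `K < 0`.
* `pattern_pos`: same with `K' ≥ 0` (for `a, b ≥ 0`, `θ ≠ π` since at `π` `a = -1`).
* `pattern_np` (`a < 0 < b`). `s₁ = log(-a/b)`: `K' < 0` on `(-∞,s₁)`, `> 0` on `(s₁,∞)` where defined. If `θ < π`: `K` strictly decreasing from `0` on `(-∞,s₁]`, strictly
  increasing on `[s₁,∞)` with `K → +∞` (because `K'(s) → b·(positive)` does not tend to 0 for `p ≥ 1`..., or from `K(s) ≥ log(e^s - 1) + ...`; easiest: `K'(s) ≥ c > 0` for `s` large as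
  `e^{(p+1)s}(a+be^s)/‖1+w‖² ≥ e^{(p+1) s} (b/2) e^s/(1+e^s)^2 ≥ b/8` for `s ≥ max(s₁ + log 2, 0)`). So there is a unique zero `s₀ > s₁`. If `θ = π`: `a = -1, b = 1, s₁ = 0`, `K = log|1-e^s| + ...`
  is strictly decreasing from `0` to `-∞` on `(-∞,0)` and strictly increasing from `-∞` to `+∞` on `(0,∞)`; `kk ρ π 0 = 0` by the convention `log 0 = 0`. So the statement holds with `s₀ > 0`
  (strict inequalities only for `s ≠ 0`).
  Lower bounds `c · ph`: on `s ≤ -S` use `K(s) = ∫_{-∞}^s K'`, `K'(t) ≤ (a/2) e^{(p+1)t}/4` for `t ≤ -S`, so `K(s) ≤ -c e^{(p+1)s}`, i.e. `kk ≤ -c' e^{kp s} ≤ -c'' ph` (`ph_le_exp`);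
  on `s ≥ S` : `K'(t) ≥ c e^{p t}` for `t` large so `K(s) ≥ c' e^{p s}` for `p ≥ 1` and `K(s) ≥ c' s` for `p = 0`; compare with `Φ(e^s) ≤ e^{ps}/p` resp. `Φ(e^s) = log(1+e^s) ≤ 2 s` for `s ≥ 1`.
  On the compact sets `[-S, s₀-δ]`, `[s₀+δ, S]`: `kk` is continuous and nonzero (for `θ = π` away from `0`; near `0` it is very negative: `kk ≤ -1` for `0<|s|<η`), `ph` bounded.
* `pattern_pn` (`a > 0 > b`, then `θ < π`): mirror image of the case `θ < π` above with `K` increasing then decreasing to `-∞`.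
* `LE_ab`, `RE_ab`: `cos(ρθ) = 0`, `(p+1)θ = ρθ + kp θ`, `pθ = ρθ - km θ`: `a = -(-1)^p sin(ρθ) sin(kp θ)`, `b = (-1)^p sin(ρθ) sin(km θ)`; `θ > 0` since `cos 0 ≠ 0`; `0 < kp θ < π`, `0 < km θ < π`
  because `kp, km ∈ (0,1)` and `0 < θ ≤ π`.
* `RE_lt_pi`: at `π`, `b = (-1)^p cos(pπ) = 1`.
* `cc_neg_pattern`: if `a ≥ 0` and `b ≥ 0` then `kk ≥ 0` and `∫ kk ≥ 0`... this one is in `Mellin`-free form: we only state the trichotomy for the signs of `(a,b)`.
-/

open Complex Filter Topology MeasureTheory Set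

namespace Helper25.Ind

/-- `P(s) = Φ_p(e^s)` -/
private noncomputable def kdP (p : ℕ) (s : ℝ) : ℝ := Phi p (Real.exp s)

private lemma kdP_pos (p : ℕ) (s : ℝ) : 0 < kdP p s := Phi_pos p (Real.exp_pos s)

private lemma kdP_mono (p : ℕ) {s t : ℝ} (h : s ≤ t) : kdP p s ≤ kdP p t :=
  Phi_mono p (Real.exp_pos s).le (Real.exp_le_exp.2 h)

private lemma kd_Phi_deriv (p : ℕ) {x : ℝ} (hx : 0 < x) :
    HasDerivAt (Phi p) (x ^ p / (1 + x)) x := by
  have h := ((phi_cont_abs p).integral_hasStrictDerivAt 0 x).hasDerivAt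
  rw [abs_of_pos hx] at h
  refine h.congr_of_eventuallyEq ?_
  filter_upwards [lt_mem_nhds hx] with y hy
  exact phi_eq_abs p hy.le

private lemma kdP_deriv (p : ℕ) (s : ℝ) :
    HasDerivAt (kdP p) (Real.exp s ^ p / (1 + Real.exp s) * Real.exp s) s :=
  HasDerivAt.comp s (kd_Phi_deriv p (Real.exp_pos s)) (Real.hasDerivAt_exp s)

private lemma kdP_tendsto (p : ℕ) : Tendsto (kdP p) atBot (𝓝 0) := by
  have h1 : Tendsto (Phi p) (𝓝[Ici 0] 0) (𝓝 (Phi p 0)) :=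
    (continuousOn_Phi p 0 (by simp)).tendsto
  have h2 : Phi p 0 = 0 := by simp [Phi]
  rw [h2] at h1
  exact h1.comp (tendsto_nhdsWithin_iff.2
    ⟨Real.tendsto_exp_atBot, Eventually.of_forall fun s => (Real.exp_pos s).le⟩)

/-- the growth of `P` on the right -/
private lemma kdP_grow (p : ℕ) {s t : ℝ} (hs : 0 ≤ s) (hst : s ≤ t) :
    (t - s) / 2 ≤ kdP p t - kdP p s := by
  have h1 : MonotoneOn (fun u => kdP p u - u / 2) (Ici 0) := by
    refine monotoneOn_of_deriv_nonneg (convex_Ici 0) ?_ ?_ ?_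
    · intro u _
      exact ((kdP_deriv p u).sub ((hasDerivAt_id u).div_const 2)).continuousAt.continuousWithinAt
    · intro u _
      exact ((kdP_deriv p u).sub ((hasDerivAt_id u).div_const 2)).differentiableAt.differentiableWithinAt
    · intro u hu
      rw [interior_Ici] at hu
      have h2 : deriv (fun u => kdP p u - u / 2) u =
          Real.exp u ^ p / (1 + Real.exp u) * Real.exp u - 1 / 2 :=
        ((kdP_deriv p u).sub ((hasDerivAt_id u).div_const 2)).deriv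
      rw [h2]
      have h3 : 1 ≤ Real.exp u := Real.one_le_exp (le_of_lt hu)
      have h4 : 1 ≤ Real.exp u ^ p := one_le_pow₀ h3
      have h5 : 1 / 2 ≤ Real.exp u / (1 + Real.exp u) := by
        rw [div_le_div_iff₀ (by norm_num) (by positivity)]
        linarith
      have h6 : Real.exp u ^ p / (1 + Real.exp u) * Real.exp u =
          Real.exp u ^ p * (Real.exp u / (1 + Real.exp u)) := by ring
      rw [h6]
      nlinarith [mul_le_mul h4 h5 (by norm_num) (by positivity)]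
  have h2 := h1 (show s ∈ Ici (0 : ℝ) from hs) (show t ∈ Ici (0 : ℝ) from hs.trans hst) hst
  simp only at h2
  linarith

/-- the core: a function with derivative `e^{(p+1)s}(a+be^s)/N`, `a < 0 < b` -/
private lemma kd_core (p : ℕ) {a b : ℝ} (ha : a < 0) (hb : 0 < b) (K N : ℝ → ℝ) (Q : Prop)
    (hd : ∀ s, (Q ∨ s ≠ 0) →
      HasDerivAt K (Real.exp (((p : ℝ) + 1) * s) * (a + b * Real.exp s) / N s) s)
    (hN : ∀ s, (Q ∨ s ≠ 0) → 0 < N s) (hN' : ∀ s, N s ≤ (1 + Real.exp s) ^ 2)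
    (h0 : Tendsto K atBot (𝓝 0))
    (hQ : ¬ Q → a + b = 0 ∧ K 0 ≤ 0 ∧ ∃ s₂ : ℝ, 0 < s₂ ∧ K s₂ < 0) :
    ∃ s₀ : ℝ, (∀ s ≤ s₀, K s ≤ 0) ∧ (∀ s, s₀ ≤ s → 0 ≤ K s) ∧
      ∀ δ > 0, ∃ c > 0, (∀ s, s ≤ s₀ - δ → (Q ∨ s ≠ 0) → K s ≤ -(c * kdP p s)) ∧
        (∀ s, s₀ + δ ≤ s → c * kdP p s ≤ K s) := by
  obtain ⟨s₁, hs₁⟩ : ∃ s₁, s₁ = Real.log (-a / b) := ⟨_, rfl⟩
  have hab : 0 < -a / b := div_pos (by linarith) hb
  have he1 : Real.exp s₁ = -a / b := by rw [hs₁, Real.exp_log hab]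
  have hbe1 : b * Real.exp s₁ = -a := by
    rw [he1]
    field_simp
  have hok : ∀ s, s ≠ s₁ → (Q ∨ s ≠ 0) := by
    intro s hs
    by_cases hq : Q
    · exact Or.inl hq
    · right
      have h1 := (hQ hq).1
      have h2 : -a / b = 1 := by
        rw [div_eq_one_iff_eq hb.ne']
        linarith
      rw [hs₁, h2, Real.log_one] at hs
      exact hs
  have hlt : ∀ s, s < s₁ → a + b * Real.exp s < 0 := by
    intro s hs
    have h1 : Real.exp s < Real.exp s₁ := Real.exp_lt_exp.2 hs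
    nlinarith
  have hgt : ∀ s, s₁ < s → 0 < a + b * Real.exp s := by
    intro s hs
    have h1 : Real.exp s₁ < Real.exp s := Real.exp_lt_exp.2 hs
    nlinarith
  have hneg : ∀ s, s < s₁ →
      Real.exp (((p : ℝ) + 1) * s) * (a + b * Real.exp s) / N s < 0 := by
    intro s hs
    exact div_neg_of_neg_of_pos (mul_neg_of_pos_of_neg (Real.exp_pos _) (hlt s hs))
      (hN s (hok s hs.ne))
  have hpos : ∀ s, s₁ < s →
      0 < Real.exp (((p : ℝ) + 1) * s) * (a + b * Real.exp s) / N s := by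
    intro s hs
    exact div_pos (mul_pos (Real.exp_pos _) (hgt s hs)) (hN s (hok s hs.ne'))
  have hanti : StrictAntiOn K (Iio s₁) := by
    refine strictAntiOn_of_deriv_neg (convex_Iio s₁) ?_ ?_
    · intro s hs
      exact (hd s (hok s (ne_of_lt hs))).continuousAt.continuousWithinAt
    · intro s hs
      rw [interior_Iio] at hs
      rw [(hd s (hok s (ne_of_lt hs))).deriv]
      exact hneg s hs
  have hmono : StrictMonoOn K (Ioi s₁) := by
    refine strictMonoOn_of_deriv_pos (convex_Ioi s₁) ?_ ?_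
    · intro s hs
      exact (hd s (hok s (ne_of_gt hs))).continuousAt.continuousWithinAt
    · intro s hs
      rw [interior_Ioi] at hs
      rw [(hd s (hok s (ne_of_gt hs))).deriv]
      exact hpos s hs
  -- negative on the left
  have hLn : ∀ s, s < s₁ → K s < 0 := by
    intro s hs
    have h1 : K s < K (s - 1) := hanti (show s - 1 ∈ Iio s₁ by simp only [mem_Iio]; linarith) hs
      (by linarith)
    have h2 : K (s - 1) ≤ 0 := by
      refine ge_of_tendsto h0 ?_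
      filter_upwards [eventually_le_atBot (s - 1)] with t ht
      exact hanti.antitoneOn (show t ∈ Iio s₁ by simp only [mem_Iio]; linarith)
        (show s - 1 ∈ Iio s₁ by simp only [mem_Iio]; linarith) ht
    linarith
  have hL1 : K s₁ ≤ 0 ∧ (Q → K s₁ < 0) := by
    by_cases hq : Q
    · have h1 : StrictAntiOn K (Iic s₁) := by
        refine strictAntiOn_of_deriv_neg (convex_Iic s₁) ?_ ?_
        · intro s hs
          exact (hd s (Or.inl hq)).continuousAt.continuousWithinAt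
        · intro s hs
          rw [interior_Iic] at hs
          rw [(hd s (Or.inl hq)).deriv]
          exact hneg s hs
      have h2 : K s₁ < K (s₁ - 1) := h1 (show s₁ - 1 ∈ Iic s₁ by simp) (show s₁ ∈ Iic s₁ by simp)
        (by linarith)
      have h3 := hLn (s₁ - 1) (by linarith)
      exact ⟨by linarith, fun _ => by linarith⟩
    · have h1 := hQ hq
      have h2 : -a / b = 1 := by
        rw [div_eq_one_iff_eq hb.ne']
        linarith [h1.1]
      have h3 : s₁ = 0 := by rw [hs₁, h2, Real.log_one]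
      rw [h3]
      exact ⟨h1.2.1, fun h => absurd h hq⟩
  -- a negative value on the right
  obtain ⟨s₂, hs₂, hKs₂⟩ : ∃ s₂, s₁ < s₂ ∧ K s₂ < 0 := by
    by_cases hq : Q
    · have h1 : ∀ᶠ s in 𝓝 s₁, K s < 0 :=
        (hd s₁ (Or.inl hq)).continuousAt.eventually_lt continuousAt_const (hL1.2 hq)
      have h2 : ∀ᶠ s in 𝓝[>] s₁, K s < 0 := h1.filter_mono nhdsWithin_le_nhds
      obtain ⟨s, hs, hs'⟩ := (h2.and self_mem_nhdsWithin).exists
      exact ⟨s, hs', hs⟩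
    · have h1 := hQ hq
      have h2 : -a / b = 1 := by
        rw [div_eq_one_iff_eq hb.ne']
        linarith [h1.1]
      have h3 : s₁ = 0 := by rw [hs₁, h2, Real.log_one]
      obtain ⟨s, hs, hs'⟩ := h1.2.2
      exact ⟨s, by rw [h3]; exact hs, hs'⟩
  -- comparison with `P`
  have hE : ∀ s : ℝ, Real.exp (((p : ℝ) + 1) * s) = Real.exp s ^ p * Real.exp s := by
    intro s
    rw [add_mul, one_mul, Real.exp_add, ← Real.exp_nat_mul]
  have hlog2 : 0 < Real.log 2 := Real.log_pos (by norm_num)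
  have hcl : ∀ s, s ≤ s₁ - Real.log 2 → s ≤ 0 →
      (-a / 4) * (Real.exp s ^ p / (1 + Real.exp s) * Real.exp s) ≤
        -(Real.exp (((p : ℝ) + 1) * s) * (a + b * Real.exp s) / N s) := by
    intro s h1 h2
    have hx0 := Real.exp_pos s
    have hx1 : Real.exp s ≤ 1 := Real.exp_le_one_iff.2 h2
    have hx2 : b * Real.exp s ≤ -a / 2 := by
      have h3 : Real.exp s ≤ Real.exp (s₁ - Real.log 2) := Real.exp_le_exp.2 h1
      rw [Real.exp_sub, Real.exp_log (by norm_num)] at h3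
      have h4 : b * Real.exp s ≤ b * (Real.exp s₁ / 2) := mul_le_mul_of_nonneg_left h3 hb.le
      linarith
    have hNs := hN s (hok s (by linarith))
    have hNs' := hN' s
    have hN2 : N s ≤ 2 * (1 + Real.exp s) := by nlinarith
    rw [hE]
    have hEp : 0 < Real.exp s ^ p * Real.exp s := by positivity
    rw [show (-a / 4) * (Real.exp s ^ p / (1 + Real.exp s) * Real.exp s) =
      ((-a / 4) * (Real.exp s ^ p * Real.exp s)) / (1 + Real.exp s) by ring,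
      show -(Real.exp s ^ p * Real.exp s * (a + b * Real.exp s) / N s) =
      (Real.exp s ^ p * Real.exp s * (-(a + b * Real.exp s))) / N s by ring,
      div_le_div_iff₀ (by positivity) hNs]
    calc -a / 4 * (Real.exp s ^ p * Real.exp s) * N s
        ≤ -a / 4 * (Real.exp s ^ p * Real.exp s) * (2 * (1 + Real.exp s)) :=
          mul_le_mul_of_nonneg_left hN2 (mul_nonneg (by linarith) hEp.le)
      _ = (Real.exp s ^ p * Real.exp s) * (-a / 2) * (1 + Real.exp s) := by ring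
      _ ≤ (Real.exp s ^ p * Real.exp s) * (-(a + b * Real.exp s)) * (1 + Real.exp s) := by
          refine mul_le_mul_of_nonneg_right ?_ (by positivity)
          exact mul_le_mul_of_nonneg_left (by linarith) hEp.le
  have hcr : ∀ s, s₁ + Real.log 2 ≤ s → 0 ≤ s →
      (b / 4) * (Real.exp s ^ p / (1 + Real.exp s) * Real.exp s) ≤
        Real.exp (((p : ℝ) + 1) * s) * (a + b * Real.exp s) / N s := by
    intro s h1 h2
    have hx0 := Real.exp_pos s
    have hx1 : 1 ≤ Real.exp s := Real.one_le_exp h2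
    have hx2 : -a ≤ b / 2 * Real.exp s := by
      have h3 : Real.exp (s₁ + Real.log 2) ≤ Real.exp s := Real.exp_le_exp.2 h1
      rw [Real.exp_add, Real.exp_log (by norm_num)] at h3
      have h4 : b / 2 * (Real.exp s₁ * 2) ≤ b / 2 * Real.exp s :=
        mul_le_mul_of_nonneg_left h3 (by linarith)
      linarith
    have hNs := hN s (hok s (by linarith))
    have hNs' := hN' s
    have hN2 : N s ≤ 2 * Real.exp s * (1 + Real.exp s) := by nlinarith
    rw [hE]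
    have hEp : 0 < Real.exp s ^ p * Real.exp s := by positivity
    rw [show (b / 4) * (Real.exp s ^ p / (1 + Real.exp s) * Real.exp s) =
      ((b / 4) * (Real.exp s ^ p * Real.exp s)) / (1 + Real.exp s) by ring,
      div_le_div_iff₀ (by positivity) hNs]
    calc b / 4 * (Real.exp s ^ p * Real.exp s) * N s
        ≤ b / 4 * (Real.exp s ^ p * Real.exp s) * (2 * Real.exp s * (1 + Real.exp s)) :=
          mul_le_mul_of_nonneg_left hN2 (by positivity)
      _ = (Real.exp s ^ p * Real.exp s) * (b / 2 * Real.exp s) * (1 + Real.exp s) := by ring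
      _ ≤ (Real.exp s ^ p * Real.exp s) * (a + b * Real.exp s) * (1 + Real.exp s) := by
          refine mul_le_mul_of_nonneg_right ?_ (by positivity)
          exact mul_le_mul_of_nonneg_left (by linarith) hEp.le
  -- left comparison
  obtain ⟨S₁, hS₁⟩ : ∃ S₁, S₁ = min (s₁ - Real.log 2) 0 := ⟨_, rfl⟩
  have hS₁a : S₁ ≤ s₁ - Real.log 2 := by rw [hS₁]; exact min_le_left _ _
  have hS₁b : S₁ ≤ 0 := by rw [hS₁]; exact min_le_right _ _
  have hS₁c : S₁ < s₁ := by linarith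
  have hleft : ∀ s, s ≤ S₁ → K s ≤ -((-a / 4) * kdP p s) := by
    have h1 : MonotoneOn (fun s => -K s - (-a / 4) * kdP p s) (Iic S₁) := by
      have hder : ∀ s, s ≤ S₁ → HasDerivAt (fun s => -K s - (-a / 4) * kdP p s)
          (-(Real.exp (((p : ℝ) + 1) * s) * (a + b * Real.exp s) / N s) -
            (-a / 4) * (Real.exp s ^ p / (1 + Real.exp s) * Real.exp s)) s := by
        intro s hs
        exact (hd s (hok s (by linarith))).neg.sub ((kdP_deriv p s).const_mul (-a / 4))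
      refine monotoneOn_of_deriv_nonneg (convex_Iic S₁) ?_ ?_ ?_
      · intro s hs
        exact (hder s hs).continuousAt.continuousWithinAt
      · intro s hs
        rw [interior_Iic] at hs
        exact (hder s (le_of_lt hs)).differentiableAt.differentiableWithinAt
      · intro s hs
        rw [interior_Iic] at hs
        have hs' : s < S₁ := hs
        rw [(hder s hs'.le).deriv]
        have := hcl s (by linarith) (by linarith)
        linarith
    intro s hs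
    have h2 : Tendsto (fun s => -K s - (-a / 4) * kdP p s) atBot (𝓝 (-0 - (-a / 4) * 0)) :=
      h0.neg.sub ((kdP_tendsto p).const_mul (-a / 4))
    have h3 : -0 - (-a / 4) * 0 ≤ -K s - (-a / 4) * kdP p s := by
      refine le_of_tendsto h2 ?_
      filter_upwards [eventually_le_atBot s] with t ht
      exact h1 (show t ≤ S₁ by linarith) hs ht
    linarith
  -- right comparison
  obtain ⟨S₂, hS₂⟩ : ∃ S₂, S₂ = max (s₁ + Real.log 2) 0 := ⟨_, rfl⟩
  have hS₂a : s₁ + Real.log 2 ≤ S₂ := by rw [hS₂]; exact le_max_left _ _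
  have hS₂b : 0 ≤ S₂ := by rw [hS₂]; exact le_max_right _ _
  have hS₂c : s₁ < S₂ := by linarith
  have hright : ∀ s t, S₂ ≤ s → s ≤ t → (b / 4) * (kdP p t - kdP p s) ≤ K t - K s := by
    have h1 : MonotoneOn (fun s => K s - (b / 4) * kdP p s) (Ici S₂) := by
      have hder : ∀ s, S₂ ≤ s → HasDerivAt (fun s => K s - (b / 4) * kdP p s)
          ((Real.exp (((p : ℝ) + 1) * s) * (a + b * Real.exp s) / N s) -
            (b / 4) * (Real.exp s ^ p / (1 + Real.exp s) * Real.exp s)) s := by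
        intro s hs
        exact (hd s (hok s (by linarith))).sub ((kdP_deriv p s).const_mul (b / 4))
      refine monotoneOn_of_deriv_nonneg (convex_Ici S₂) ?_ ?_ ?_
      · intro s hs
        exact (hder s hs).continuousAt.continuousWithinAt
      · intro s hs
        rw [interior_Ici] at hs
        exact (hder s (le_of_lt hs)).differentiableAt.differentiableWithinAt
      · intro s hs
        rw [interior_Ici] at hs
        have hs' : S₂ < s := hs
        rw [(hder s hs'.le).deriv]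
        have := hcr s (by linarith) (by linarith)
        linarith
    intro s t hs hst
    have h2 := h1 (show s ∈ Ici S₂ from hs) (show t ∈ Ici S₂ from hs.trans hst) hst
    simp only at h2
    linarith
  -- a positive value
  obtain ⟨s₃, hs₃, hKs₃⟩ : ∃ s₃, s₁ < s₃ ∧ 0 < K s₃ := by
    obtain ⟨t, ht⟩ : ∃ t, t = 8 / b * (|K S₂| + 1) := ⟨_, rfl⟩
    have ht0 : 0 < t := by rw [ht]; positivity
    refine ⟨S₂ + t, by linarith, ?_⟩
    have h1 := hright S₂ (S₂ + t) le_rfl (by linarith)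
    have h2 := kdP_grow p hS₂b (show S₂ ≤ S₂ + t by linarith)
    have h3 : (b / 4) * ((S₂ + t - S₂) / 2) ≤ (b / 4) * (kdP p (S₂ + t) - kdP p S₂) :=
      mul_le_mul_of_nonneg_left h2 (by positivity)
    have h4 : (b / 4) * ((S₂ + t - S₂) / 2) = |K S₂| + 1 := by
      rw [ht]
      field_simp
      ring
    have h5 := neg_abs_le (K S₂)
    linarith
  -- the zero
  have hs23 : s₂ < s₃ := by
    by_contra h
    have h1 := hmono.monotoneOn (show s₃ ∈ Ioi s₁ from hs₃) (show s₂ ∈ Ioi s₁ from hs₂)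
      (not_lt.1 h)
    linarith
  have hcont : ContinuousOn K (Icc s₂ s₃) := by
    intro s hs
    exact (hd s (hok s (by linarith [hs.1]))).continuousAt.continuousWithinAt
  obtain ⟨s₀, hs₀m, hKs₀⟩ : ∃ s₀ ∈ Icc s₂ s₃, K s₀ = 0 := by
    have h1 := intermediate_value_Icc hs23.le hcont
    exact h1 ⟨hKs₂.le, hKs₃.le⟩
  have hs₀ : s₁ < s₀ := by linarith [hs₀m.1]
  refine ⟨s₀, ?_, ?_, ?_⟩
  · intro s hs
    rcases lt_trichotomy s s₁ with h | h | h
    · exact (hLn s h).le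
    · rw [h]
      exact hL1.1
    · rw [← hKs₀]
      exact hmono.monotoneOn h hs₀ hs
  · intro s hs
    rw [← hKs₀]
    exact hmono.monotoneOn hs₀ (show s ∈ Ioi s₁ by simp only [mem_Ioi]; linarith) hs
  · intro δ hδ
    -- right constant
    have hK1 : 0 < K (s₀ + δ) := by
      rw [← hKs₀]
      exact hmono hs₀ (show s₀ + δ ∈ Ioi s₁ by simp only [mem_Ioi]; linarith) (by linarith)
    obtain ⟨S, hS⟩ : ∃ S, S = max S₂ (s₀ + δ) := ⟨_, rfl⟩
    have hSa : S₂ ≤ S := by rw [hS]; exact le_max_left _ _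
    have hSb : s₀ + δ ≤ S := by rw [hS]; exact le_max_right _ _
    -- left constants
    obtain ⟨m, hm, hm1, hm2⟩ : ∃ m : ℝ, 0 < m ∧ (Q → K s₁ ≤ -m) ∧
        (s₁ < s₀ - δ → K (s₀ - δ) ≤ -m) := by
      obtain ⟨m₁, hm₁, hm₁'⟩ : ∃ m : ℝ, 0 < m ∧ (Q → K s₁ ≤ -m) := by
        by_cases hq : Q
        · exact ⟨-K s₁, by linarith [hL1.2 hq], fun _ => by linarith⟩
        · exact ⟨1, one_pos, fun h => absurd h hq⟩
      obtain ⟨m₂, hm₂, hm₂'⟩ : ∃ m : ℝ, 0 < m ∧ (s₁ < s₀ - δ → K (s₀ - δ) ≤ -m) := by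
        by_cases hq : s₁ < s₀ - δ
        · have h1 : K (s₀ - δ) < K s₀ := hmono hq hs₀ (by linarith)
          exact ⟨-K (s₀ - δ), by linarith, fun _ => by linarith⟩
        · exact ⟨1, one_pos, fun h => absurd h hq⟩
      refine ⟨min m₁ m₂, lt_min hm₁ hm₂, fun h => ?_, fun h => ?_⟩
      · have := hm₁' h
        linarith [min_le_left m₁ m₂]
      · have := hm₂' h
        linarith [min_le_right m₁ m₂]
    have hKS₁ : K S₁ < 0 := hLn S₁ hS₁c
    have hP0 := kdP_pos p s₀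
    have hPS := kdP_pos p S
    obtain ⟨c, hc⟩ : ∃ c, c = min (min (-a / 4) (b / 4))
      (min (K (s₀ + δ) / kdP p S) (min (-K S₁ / kdP p s₀) (m / kdP p s₀))) := ⟨_, rfl⟩
    have hc0 : 0 < c := by
      rw [hc]
      refine lt_min (lt_min (by linarith) (by linarith)) (lt_min (by positivity)
        (lt_min (div_pos (by linarith) hP0) (by positivity)))
    have hc1 : c ≤ -a / 4 := by
      rw [hc]
      exact (min_le_left _ _).trans (min_le_left _ _)
    have hc2 : c ≤ b / 4 := by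
      rw [hc]
      exact (min_le_left _ _).trans (min_le_right _ _)
    have hc3 : c * kdP p S ≤ K (s₀ + δ) := by
      rw [← le_div_iff₀ hPS, hc]
      exact (min_le_right _ _).trans (min_le_left _ _)
    have hc4 : c * kdP p s₀ ≤ -K S₁ := by
      rw [← le_div_iff₀ hP0, hc]
      exact (min_le_right _ _).trans ((min_le_right _ _).trans (min_le_left _ _))
    have hc5 : c * kdP p s₀ ≤ m := by
      rw [← le_div_iff₀ hP0, hc]
      exact (min_le_right _ _).trans ((min_le_right _ _).trans (min_le_right _ _))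
    refine ⟨c, hc0, ?_, ?_⟩
    · intro s hs hsok
      have hPs : c * kdP p s ≤ c * kdP p s₀ :=
        mul_le_mul_of_nonneg_left (kdP_mono p (by linarith)) hc0.le
      rcases le_or_gt s S₁ with h | h
      · have h1 := hleft s h
        have h2 : c * kdP p s ≤ (-a / 4) * kdP p s :=
          mul_le_mul_of_nonneg_right hc1 (kdP_pos p s).le
        linarith
      · rcases lt_trichotomy s s₁ with h' | h' | h'
        · have h1 := hanti.antitoneOn (show S₁ ∈ Iio s₁ from hS₁c) (show s ∈ Iio s₁ from h') h.le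
          linarith
        · have hq : Q := by
            by_contra hq
            have h1 := hQ hq
            have h2 : -a / b = 1 := by
              rw [div_eq_one_iff_eq hb.ne']
              linarith [h1.1]
            have h3 : s₁ = 0 := by rw [hs₁, h2, Real.log_one]
            rcases hsok with h4 | h4
            · exact hq h4
            · exact h4 (h'.trans h3)
          have h1 := hm1 hq
          rw [h'] at hPs ⊢
          linarith
        · have h1 : s₁ < s₀ - δ := by linarith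
          have h2 := hm2 h1
          have h3 := hmono.monotoneOn (show s ∈ Ioi s₁ from h')
            (show s₀ - δ ∈ Ioi s₁ from h1) hs
          linarith
    · intro s hs
      rcases le_or_gt s S with h | h
      · have h1 : K (s₀ + δ) ≤ K s :=
          hmono.monotoneOn (show s₀ + δ ∈ Ioi s₁ by simp only [mem_Ioi]; linarith)
            (show s ∈ Ioi s₁ by simp only [mem_Ioi]; linarith) hs
        have h2 : c * kdP p s ≤ c * kdP p S := mul_le_mul_of_nonneg_left (kdP_mono p h) hc0.le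
        linarith
      · have h1 : K (s₀ + δ) ≤ K S :=
          hmono.monotoneOn (show s₀ + δ ∈ Ioi s₁ by simp only [mem_Ioi]; linarith)
            (show S ∈ Ioi s₁ by simp only [mem_Ioi]; linarith) hSb
        have h2 := hright S s hSa h.le
        have h3 : c * (kdP p s - kdP p S) ≤ (b / 4) * (kdP p s - kdP p S) :=
          mul_le_mul_of_nonneg_right hc2 (by linarith [kdP_mono p h.le])
        linarith

/-- `KK ρ θ s = log |E(-e^{s+iθ}, p)|` -/
noncomputable def KK (ρ θ s : ℝ) : ℝ :=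
  ker ⌊ρ⌋₊ (Real.exp s * Complex.exp (θ * Complex.I)) 1

lemma kk_eq_KK (ρ θ s : ℝ) : kk ρ θ s = Real.exp (-(ρ * s)) * KK ρ θ s := rfl

/-- the point of the ray -/
private noncomputable def kdw (θ s : ℝ) : ℂ := Real.exp s * Complex.exp (θ * Complex.I)

private lemma kdw_norm (θ s : ℝ) : ‖kdw θ s‖ = Real.exp s := by
  unfold kdw
  rw [norm_mul, Complex.norm_exp_ofReal_mul_I, mul_one, Complex.norm_real, Real.norm_eq_abs,
    abs_of_pos (Real.exp_pos s)]

private lemma kdw_pow (θ s : ℝ) (n : ℕ) :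
    kdw θ s ^ n = ((Real.exp (n * s) : ℝ) : ℂ) * Complex.exp (((n * θ : ℝ) : ℂ) * Complex.I) := by
  unfold kdw
  rw [mul_pow, ← Complex.exp_nat_mul, ← Complex.ofReal_pow, ← Real.exp_nat_mul]
  congr 2
  push_cast
  ring

private lemma kdw_pow_re (θ s : ℝ) (n : ℕ) :
    (kdw θ s ^ n).re = Real.exp (n * s) * Real.cos (n * θ) := by
  rw [kdw_pow, Complex.re_ofReal_mul, Complex.exp_ofReal_mul_I_re]

private lemma kdw_pow_im (θ s : ℝ) (n : ℕ) :
    (kdw θ s ^ n).im = Real.exp (n * s) * Real.sin (n * θ) := by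
  rw [kdw_pow, Complex.im_ofReal_mul, Complex.exp_ofReal_mul_I_im]

private lemma kdw_re (θ s : ℝ) : (kdw θ s).re = Real.exp s * Real.cos θ := by
  have := kdw_pow_re θ s 1
  simpa using this

private lemma kdw_im (θ s : ℝ) : (kdw θ s).im = Real.exp s * Real.sin θ := by
  have := kdw_pow_im θ s 1
  simpa using this

private lemma kdw_ne {θ s : ℝ} (hθ : θ ∈ Icc (0 : ℝ) Real.pi) (h : θ < Real.pi ∨ s ≠ 0) :
    1 + kdw θ s ≠ 0 := by
  intro h0
  have h1 : kdw θ s = -1 := by linear_combination h0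
  have h2 : Real.exp s = 1 := by
    rw [← kdw_norm θ s, h1]
    simp
  have h3 : s = 0 := by
    rw [← Real.exp_zero] at h2
    exact Real.exp_injective h2
  have h4 : Real.cos θ = -1 := by
    have h5 := kdw_re θ s
    rw [h1, h2, one_mul] at h5
    rw [← h5]
    simp
  have h5 : θ = Real.pi := by
    apply Real.injOn_cos hθ ⟨Real.pi_pos.le, le_rfl⟩
    rw [h4, Real.cos_pi]
  rcases h with h | h
  · exact absurd h5 h.ne
  · exact h h3

private lemma KK_prim (ρ θ s : ℝ) : KK ρ θ s = Real.log ‖primary ⌊ρ⌋₊ (-kdw θ s)‖ := by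
  unfold KK ker kdw
  rw [Complex.ofReal_one, div_one]

private lemma KK_split (ρ θ s : ℝ) (h : 1 + kdw θ s ≠ 0) :
    KK ρ θ s = Real.log ‖1 + kdw θ s‖ +
      (∑ j ∈ Finset.range ⌊ρ⌋₊, (-kdw θ s) ^ (j + 1) / ((j : ℂ) + 1)).re := by
  rw [KK_prim]
  unfold primary
  rw [sub_neg_eq_add, norm_mul, Real.log_mul (norm_ne_zero_iff.2 h)
    (by rw [Complex.norm_exp]; exact (Real.exp_pos _).ne'), Complex.norm_exp, Real.log_exp]

private lemma kdw_deriv (θ s : ℝ) : HasDerivAt (kdw θ) (kdw θ s) s :=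
  ((Real.hasDerivAt_exp s).ofReal_comp).mul_const _

private lemma kd_normSq (θ s : ℝ) : Complex.normSq (1 + kdw θ s) =
    (1 + Real.exp s * Real.cos θ) ^ 2 + (Real.exp s * Real.sin θ) ^ 2 := by
  rw [Complex.normSq_apply, Complex.add_re, Complex.add_im, kdw_re, kdw_im, Complex.one_re,
    Complex.one_im]
  ring

private lemma kd_log_deriv {θ s : ℝ} (h : 1 + kdw θ s ≠ 0) :
    HasDerivAt (fun s => Real.log ‖1 + kdw θ s‖) (kdw θ s / (1 + kdw θ s)).re s := by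
  have h1 : (fun s => Real.log ‖1 + kdw θ s‖) =
      fun s => Real.log ((1 + Real.exp s * Real.cos θ) ^ 2 + (Real.exp s * Real.sin θ) ^ 2) / 2 := by
    funext t
    rw [← kd_normSq, ← Complex.sq_norm, Real.log_pow]
    push_cast
    ring
  rw [h1]
  have h2 : (1 + Real.exp s * Real.cos θ) ^ 2 + (Real.exp s * Real.sin θ) ^ 2 ≠ 0 := by
    rw [← kd_normSq]
    exact (Complex.normSq_pos.2 h).ne'
  have h3 : HasDerivAt (fun s => (1 + Real.exp s * Real.cos θ) ^ 2 + (Real.exp s * Real.sin θ) ^ 2)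
      (2 * (1 + Real.exp s * Real.cos θ) * (Real.exp s * Real.cos θ) +
        2 * (Real.exp s * Real.sin θ) * (Real.exp s * Real.sin θ)) s := by
    have e1 : HasDerivAt (fun s => 1 + Real.exp s * Real.cos θ) (Real.exp s * Real.cos θ) s :=
      ((Real.hasDerivAt_exp s).mul_const _).const_add 1
    have e2 : HasDerivAt (fun s => Real.exp s * Real.sin θ) (Real.exp s * Real.sin θ) s :=
      (Real.hasDerivAt_exp s).mul_const _
    refine ((e1.pow 2).add (e2.pow 2)).congr_deriv ?_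
    push_cast
    ring
  refine ((h3.log h2).div_const 2).congr_deriv ?_
  rw [Complex.div_re, kd_normSq, Complex.add_re, Complex.add_im, kdw_re, kdw_im, Complex.one_re,
    Complex.one_im]
  field_simp
  ring

private lemma kd_sum_deriv (p : ℕ) (θ s : ℝ) :
    HasDerivAt (fun s => (∑ j ∈ Finset.range p, (-kdw θ s) ^ (j + 1) / ((j : ℂ) + 1)).re)
      (∑ j ∈ Finset.range p, (-kdw θ s) ^ (j + 1)).re s := by
  have h1 : HasDerivAt (fun s => ∑ j ∈ Finset.range p, (-kdw θ s) ^ (j + 1) / ((j : ℂ) + 1))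
      (∑ j ∈ Finset.range p, (-kdw θ s) ^ (j + 1)) s := by
    apply HasDerivAt.fun_sum
    intro j _
    have h4 : ((j : ℂ) + 1) ≠ 0 := by exact_mod_cast Nat.succ_ne_zero j
    have h3 := ((kdw_deriv θ s).neg.fun_pow (j + 1)).div_const ((j : ℂ) + 1)
    refine h3.congr_deriv ?_
    push_cast
    show ((j : ℂ) + 1) * (-kdw θ s) ^ j * -kdw θ s / ((j : ℂ) + 1) = (-kdw θ s) ^ (j + 1)
    rw [pow_succ]
    field_simp
  exact (Complex.reCLM.hasFDerivAt).comp_hasDerivAt s h1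

lemma hasDerivAt_KK_re (ρ : ℝ) {θ s : ℝ} (hθ : θ ∈ Icc (0 : ℝ) Real.pi)
    (h : θ < Real.pi ∨ s ≠ 0) :
    HasDerivAt (KK ρ θ) ((-1) ^ ⌊ρ⌋₊ *
      ((Real.exp s * Complex.exp (θ * Complex.I)) ^ (⌊ρ⌋₊ + 1) /
        (1 + Real.exp s * Complex.exp (θ * Complex.I))).re) s := by
  have hne := kdw_ne hθ h
  have h1 := (kd_log_deriv hne).add (kd_sum_deriv ⌊ρ⌋₊ θ s)
  have h2 : KK ρ θ =ᶠ[𝓝 s] fun s => Real.log ‖1 + kdw θ s‖ +
      (∑ j ∈ Finset.range ⌊ρ⌋₊, (-kdw θ s) ^ (j + 1) / ((j : ℂ) + 1)).re := by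
    have h3 : ContinuousAt (fun s => 1 + kdw θ s) s :=
      continuousAt_const.add (kdw_deriv θ s).continuousAt
    filter_upwards [h3.eventually_ne hne] with t ht
    exact KK_split ρ θ t ht
  refine (h1.congr_of_eventuallyEq h2).congr_deriv ?_
  rw [← Complex.add_re]
  have h4 : kdw θ s / (1 + kdw θ s) + ∑ j ∈ Finset.range ⌊ρ⌋₊, (-kdw θ s) ^ (j + 1) =
      (((-1 : ℝ) ^ ⌊ρ⌋₊ : ℝ) : ℂ) * (kdw θ s ^ (⌊ρ⌋₊ + 1) / (1 + kdw θ s)) := by
    have h5 := geom_sum_mul (-kdw θ s) ⌊ρ⌋₊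
    have h6 : ∑ j ∈ Finset.range ⌊ρ⌋₊, (-kdw θ s) ^ (j + 1) =
        (∑ j ∈ Finset.range ⌊ρ⌋₊, (-kdw θ s) ^ j) * (-kdw θ s) := by
      rw [Finset.sum_mul]
      exact Finset.sum_congr rfl fun j _ => pow_succ _ _
    rw [h6]
    push_cast
    have h7 : (-kdw θ s) ^ ⌊ρ⌋₊ = (-1) ^ ⌊ρ⌋₊ * kdw θ s ^ ⌊ρ⌋₊ := neg_pow _ _
    rw [h7] at h5
    field_simp
    rw [pow_succ]
    linear_combination (kdw θ s) * h5
  rw [h4, Complex.re_ofReal_mul]
  rfl

lemma hasDerivAt_KK (ρ : ℝ) {θ s : ℝ} (hθ : θ ∈ Icc (0 : ℝ) Real.pi)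
    (h : θ < Real.pi ∨ s ≠ 0) :
    HasDerivAt (KK ρ θ) (Real.exp (((⌊ρ⌋₊ : ℝ) + 1) * s) * (aa ρ θ + bb ρ θ * Real.exp s) /
      ‖1 + Real.exp s * Complex.exp (θ * Complex.I)‖ ^ 2) s := by
  refine (hasDerivAt_KK_re ρ hθ h).congr_deriv ?_
  have hne := kdw_ne hθ h
  show (-1) ^ ⌊ρ⌋₊ * ((kdw θ s) ^ (⌊ρ⌋₊ + 1) / (1 + kdw θ s)).re =
    Real.exp (((⌊ρ⌋₊ : ℝ) + 1) * s) * (aa ρ θ + bb ρ θ * Real.exp s) / ‖1 + kdw θ s‖ ^ 2
  have h1 := (Complex.normSq_pos.2 hne).ne'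
  rw [Complex.sq_norm, Complex.div_re, kdw_pow_re, kdw_pow_im, Complex.add_re, Complex.add_im,
    kdw_re, kdw_im, Complex.one_re, Complex.one_im]
  unfold aa bb
  have h2 : Real.cos ((⌊ρ⌋₊ : ℝ) * θ) = Real.cos (((⌊ρ⌋₊ : ℝ) + 1) * θ) * Real.cos θ +
      Real.sin (((⌊ρ⌋₊ : ℝ) + 1) * θ) * Real.sin θ := by
    rw [← Real.cos_sub]
    congr 1
    ring
  rw [h2]
  push_cast
  field_simp
  ring

lemma KK_tendsto_bot (ρ θ : ℝ) (hθ : θ ∈ Icc (0 : ℝ) Real.pi) :
    Tendsto (KK ρ θ) atBot (𝓝 0) := by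
  have h1 : Tendsto (fun s => kdw θ s) atBot (𝓝 0) := by
    rw [tendsto_zero_iff_norm_tendsto_zero]
    simp only [kdw_norm]
    exact Real.tendsto_exp_atBot
  have h2 : Tendsto (fun s => primary ⌊ρ⌋₊ (-kdw θ s)) atBot (𝓝 (primary ⌊ρ⌋₊ (-0))) :=
    ((differentiable_primary ⌊ρ⌋₊).continuous.tendsto _).comp h1.neg
  have h3 : primary ⌊ρ⌋₊ (-0) = 1 := by
    unfold primary
    simp
  rw [h3] at h2
  have h4 : Tendsto (fun s => Real.log ‖primary ⌊ρ⌋₊ (-kdw θ s)‖) atBot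
      (𝓝 (Real.log ‖(1 : ℂ)‖)) := h2.norm.log (by simp)
  rw [norm_one, Real.log_one] at h4
  refine h4.congr fun s => ?_
  rw [KK_prim]

lemma ab_ne (ρ : ℝ) {θ : ℝ} (hθ : θ ∈ Icc (0 : ℝ) Real.pi) :
    ¬ (aa ρ θ = 0 ∧ bb ρ θ = 0) := by
  rintro ⟨h1, h2⟩
  unfold aa at h1
  unfold bb at h2
  have hp : ((-1 : ℝ) ^ ⌊ρ⌋₊) ≠ 0 := pow_ne_zero _ (by norm_num)
  have h1' := (mul_eq_zero.1 h1).resolve_left hp
  have h2' := (mul_eq_zero.1 h2).resolve_left hp
  have h3 : Real.sin θ = 0 := by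
    have h4 : θ = ((⌊ρ⌋₊ : ℝ) + 1) * θ - (⌊ρ⌋₊ : ℝ) * θ := by ring
    rw [h4, Real.sin_sub, h1', h2']
    ring
  have h4 : θ = 0 ∨ θ = Real.pi := by
    by_contra h
    push Not at h
    have := Real.sin_pos_of_pos_of_lt_pi (lt_of_le_of_ne hθ.1 (Ne.symm h.1))
      (lt_of_le_of_ne hθ.2 h.2)
    linarith
  rcases h4 with h4 | h4
  · rw [h4, mul_zero, Real.cos_zero] at h2'
    norm_num at h2'
  · rw [h4, Real.cos_nat_mul_pi] at h2'
    exact pow_ne_zero _ (by norm_num) h2'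

private lemma bb_pi (ρ : ℝ) : bb ρ Real.pi = 1 := by
  unfold bb
  rw [Real.cos_nat_mul_pi, ← mul_pow]
  norm_num

private lemma aa_pi (ρ : ℝ) : aa ρ Real.pi = -1 := by
  unfold aa
  have h1 : Real.cos (((⌊ρ⌋₊ : ℝ) + 1) * Real.pi) = (-1) ^ (⌊ρ⌋₊ + 1) := by
    have := Real.cos_nat_mul_pi (⌊ρ⌋₊ + 1)
    rw [← this]
    push_cast
    rfl
  rw [h1, pow_succ, ← mul_assoc, ← mul_pow]
  norm_num

lemma pattern_neg (ρ : ℝ) {θ : ℝ} (hθ : θ ∈ Icc (0 : ℝ) Real.pi) (ha : aa ρ θ ≤ 0)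
    (hb : bb ρ θ ≤ 0) : ∀ s, kk ρ θ s < 0 := by
  have hπ : θ < Real.pi := by
    refine lt_of_le_of_ne hθ.2 fun h => ?_
    rw [h, bb_pi] at hb
    linarith
  have hn := ab_ne ρ hθ
  have hd := fun s => hasDerivAt_KK ρ hθ (s := s) (Or.inl hπ)
  have h1 : StrictAnti (KK ρ θ) := by
    refine strictAnti_of_deriv_neg fun s => ?_
    rw [(hd s).deriv]
    refine div_neg_of_neg_of_pos (mul_neg_of_pos_of_neg (Real.exp_pos _) ?_) ?_
    · have hs := Real.exp_pos s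
      rcases lt_or_eq_of_le ha with h | h
      · nlinarith
      · rcases lt_or_eq_of_le hb with h' | h'
        · nlinarith
        · exact absurd ⟨h, h'⟩ hn
    · have := kdw_ne hθ (s := s) (Or.inl hπ)
      exact pow_pos (norm_pos_iff.2 this) 2
  intro s
  rw [kk_eq_KK]
  refine mul_neg_of_pos_of_neg (Real.exp_pos _) ?_
  have h2 := h1 (show s - 1 < s by linarith)
  have h3 : KK ρ θ (s - 1) ≤ 0 := by
    refine ge_of_tendsto (KK_tendsto_bot ρ θ hθ) ?_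
    filter_upwards [eventually_le_atBot (s - 1)] with t ht
    exact h1.antitone ht
  linarith

lemma pattern_pos (ρ : ℝ) {θ : ℝ} (hθ : θ ∈ Icc (0 : ℝ) Real.pi) (ha : 0 ≤ aa ρ θ)
    (hb : 0 ≤ bb ρ θ) : ∀ s, 0 < kk ρ θ s := by
  have hπ : θ < Real.pi := by
    refine lt_of_le_of_ne hθ.2 fun h => ?_
    rw [h, aa_pi] at ha
    linarith
  have hn := ab_ne ρ hθ
  have hd := fun s => hasDerivAt_KK ρ hθ (s := s) (Or.inl hπ)
  have h1 : StrictMono (KK ρ θ) := by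
    refine strictMono_of_deriv_pos fun s => ?_
    rw [(hd s).deriv]
    refine div_pos (mul_pos (Real.exp_pos _) ?_) ?_
    · have hs := Real.exp_pos s
      rcases lt_or_eq_of_le ha with h | h
      · nlinarith
      · rcases lt_or_eq_of_le hb with h' | h'
        · nlinarith
        · exact absurd ⟨h.symm, h'.symm⟩ hn
    · have := kdw_ne hθ (s := s) (Or.inl hπ)
      exact pow_pos (norm_pos_iff.2 this) 2
  intro s
  rw [kk_eq_KK]
  refine mul_pos (Real.exp_pos _) ?_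
  have h2 := h1 (show s - 1 < s by linarith)
  have h3 : 0 ≤ KK ρ θ (s - 1) := by
    refine le_of_tendsto (KK_tendsto_bot ρ θ hθ) ?_
    filter_upwards [eventually_le_atBot (s - 1)] with t ht
    exact h1.monotone ht
  linarith

private lemma kd_conv (ρ s : ℝ) : ph ρ s = Real.exp (-(ρ * s)) * kdP ⌊ρ⌋₊ s := rfl

/-- pattern `(-,+)` -/
lemma pattern_np (ρ : ℝ) {θ : ℝ} (hθ : θ ∈ Icc (0 : ℝ) Real.pi) (ha : aa ρ θ < 0)
    (hb : 0 < bb ρ θ) : ∃ s₀ : ℝ, (∀ s ≤ s₀, kk ρ θ s ≤ 0) ∧ (∀ s, s₀ ≤ s → 0 ≤ kk ρ θ s) ∧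
      ∀ δ > 0, ∃ c > 0, (∀ s, s ≤ s₀ - δ → s ≠ 0 → kk ρ θ s ≤ -(c * ph ρ s)) ∧
        (∀ s, s₀ + δ ≤ s → c * ph ρ s ≤ kk ρ θ s) := by
  obtain ⟨s₀, h1, h2, h3⟩ := kd_core ⌊ρ⌋₊ ha hb (KK ρ θ) (fun s => ‖1 + kdw θ s‖ ^ 2)
    (θ < Real.pi) (fun s hs => hasDerivAt_KK ρ hθ hs)
    (fun s hs => pow_pos (norm_pos_iff.2 (kdw_ne hθ hs)) 2)
    (fun s => by
      refine pow_le_pow_left₀ (norm_nonneg _) ?_ 2
      have := norm_add_le (1 : ℂ) (kdw θ s)
      rwa [norm_one, kdw_norm] at this)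
    (KK_tendsto_bot ρ θ hθ)
    (fun hq => by
      have hπ : θ = Real.pi := le_antisymm hθ.2 (not_lt.1 hq)
      subst hπ
      have e0 : kdw Real.pi 0 = -1 := by
        unfold kdw
        rw [Real.exp_zero, Complex.exp_pi_mul_I]
        simp
      have e1 : primary ⌊ρ⌋₊ (-kdw Real.pi 0) = 0 := by
        rw [primary_eq_zero_iff, e0, neg_neg]
      refine ⟨by rw [aa_pi, bb_pi]; norm_num, ?_, ?_⟩
      · rw [KK_prim, e1]
        simp
      · have e2 : ContinuousAt (fun s => ‖primary ⌊ρ⌋₊ (-kdw Real.pi s)‖) 0 := by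
          have e3 : ContinuousAt (fun s => -kdw Real.pi s) 0 :=
            (kdw_deriv Real.pi 0).continuousAt.neg
          exact (ContinuousAt.comp (f := fun s => -kdw Real.pi s)
            (differentiable_primary ⌊ρ⌋₊).continuous.continuousAt e3).norm
        have e3 : ∀ᶠ s in 𝓝 (0 : ℝ), ‖primary ⌊ρ⌋₊ (-kdw Real.pi s)‖ < 1 := by
          refine e2.eventually_lt continuousAt_const ?_
          rw [e1, norm_zero]
          exact one_pos
        have e4 : ∀ᶠ s in 𝓝[>] (0 : ℝ), ‖primary ⌊ρ⌋₊ (-kdw Real.pi s)‖ < 1 :=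
          e3.filter_mono nhdsWithin_le_nhds
        obtain ⟨s, hs, hs'⟩ := (e4.and self_mem_nhdsWithin).exists
        have hs0 : 0 < s := hs'
        refine ⟨s, hs0, ?_⟩
        rw [KK_prim]
        refine Real.log_neg (norm_pos_iff.2 fun h => ?_) hs
        rw [primary_eq_zero_iff] at h
        have h5 := kdw_ne hθ (s := s) (Or.inr hs0.ne')
        apply h5
        linear_combination -h)
  refine ⟨s₀, fun s hs => ?_, fun s hs => ?_, fun δ hδ => ?_⟩
  · rw [kk_eq_KK]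
    exact mul_nonpos_of_nonneg_of_nonpos (Real.exp_pos _).le (h1 s hs)
  · rw [kk_eq_KK]
    exact mul_nonneg (Real.exp_pos _).le (h2 s hs)
  · obtain ⟨c, hc, h4, h5⟩ := h3 δ hδ
    refine ⟨c, hc, fun s hs hs0 => ?_, fun s hs => ?_⟩
    · have h6 := mul_le_mul_of_nonneg_left (h4 s hs (Or.inr hs0)) (Real.exp_pos (-(ρ * s))).le
      rw [kk_eq_KK, kd_conv ρ s]
      calc _ ≤ _ := h6
        _ = _ := by ring
    · have h6 := mul_le_mul_of_nonneg_left (h5 s hs) (Real.exp_pos (-(ρ * s))).le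
      rw [kk_eq_KK, kd_conv ρ s]
      calc _ = _ := by ring
        _ ≤ _ := h6

/-- pattern `(+,-)` -/
lemma pattern_pn (ρ : ℝ) {θ : ℝ} (hθ : θ ∈ Icc (0 : ℝ) Real.pi) (ha : 0 < aa ρ θ)
    (hb : bb ρ θ < 0) : ∃ s₀ : ℝ, (∀ s ≤ s₀, 0 ≤ kk ρ θ s) ∧ (∀ s, s₀ ≤ s → kk ρ θ s ≤ 0) ∧
      ∀ δ > 0, ∃ c > 0, (∀ s, s ≤ s₀ - δ → c * ph ρ s ≤ kk ρ θ s) ∧
        (∀ s, s₀ + δ ≤ s → kk ρ θ s ≤ -(c * ph ρ s)) := by
  have hπ : θ < Real.pi := by
    refine lt_of_le_of_ne hθ.2 fun h => ?_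
    rw [h, aa_pi] at ha
    linarith
  obtain ⟨s₀, h1, h2, h3⟩ := kd_core ⌊ρ⌋₊ (a := -aa ρ θ) (b := -bb ρ θ) (by linarith)
    (by linarith) (fun s => -KK ρ θ s) (fun s => ‖1 + kdw θ s‖ ^ 2)
    (θ < Real.pi) (fun s hs => by
      refine (hasDerivAt_KK ρ hθ hs).neg.congr_deriv ?_
      show -(Real.exp (((⌊ρ⌋₊ : ℝ) + 1) * s) * (aa ρ θ + bb ρ θ * Real.exp s) /
        ‖1 + kdw θ s‖ ^ 2) = Real.exp (((⌊ρ⌋₊ : ℝ) + 1) * s) *
        (-aa ρ θ + -bb ρ θ * Real.exp s) / ‖1 + kdw θ s‖ ^ 2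
      ring)
    (fun s hs => pow_pos (norm_pos_iff.2 (kdw_ne hθ hs)) 2)
    (fun s => by
      refine pow_le_pow_left₀ (norm_nonneg _) ?_ 2
      have := norm_add_le (1 : ℂ) (kdw θ s)
      rwa [norm_one, kdw_norm] at this)
    (by simpa using (KK_tendsto_bot ρ θ hθ).neg)
    (fun hq => absurd hπ hq)
  refine ⟨s₀, fun s hs => ?_, fun s hs => ?_, fun δ hδ => ?_⟩
  · rw [kk_eq_KK]
    exact mul_nonneg (Real.exp_pos _).le (by linarith [h1 s hs])
  · rw [kk_eq_KK]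
    exact mul_nonpos_of_nonneg_of_nonpos (Real.exp_pos _).le (by linarith [h2 s hs])
  · obtain ⟨c, hc, h4, h5⟩ := h3 δ hδ
    refine ⟨c, hc, fun s hs => ?_, fun s hs => ?_⟩
    · have h6 := mul_le_mul_of_nonneg_left (h4 s hs (Or.inl hπ)) (Real.exp_pos (-(ρ * s))).le
      rw [kk_eq_KK, kd_conv ρ s]
      nlinarith
    · have h6 := mul_le_mul_of_nonneg_left (h5 s hs) (Real.exp_pos (-(ρ * s))).le
      rw [kk_eq_KK, kd_conv ρ s]
      nlinarith

lemma LE_ab {ρ l : ℝ} (hρ : 0 < ρ) (hint : ¬ ∃ n : ℕ, ρ = n) (hl : LE ρ l) :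
    aa ρ l < 0 ∧ 0 < bb ρ l := by
  obtain ⟨h1, h2, h3, h4⟩ := hl
  have hl0 : 0 < l := by
    refine lt_of_le_of_ne h1 fun h => ?_
    rw [← h, mul_zero, Real.cos_zero] at h3
    norm_num at h3
  have hkm := km_pos hρ hint
  have hkp := kp_pos hρ.le
  have hkpm := kp_add_km ρ
  have hs1 : 0 < Real.sin (kp ρ * l) := by
    refine Real.sin_pos_of_pos_of_lt_pi (mul_pos hkp hl0) ?_
    nlinarith
  have hs2 : 0 < Real.sin (km ρ * l) := by
    refine Real.sin_pos_of_pos_of_lt_pi (mul_pos hkm hl0) ?_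
    nlinarith
  constructor
  · unfold aa
    rw [show ((⌊ρ⌋₊ : ℝ) + 1) * l = ρ * l + kp ρ * l by unfold kp; ring, Real.cos_add, h3]
    nlinarith [mul_pos h4 hs1]
  · unfold bb
    rw [show (⌊ρ⌋₊ : ℝ) * l = ρ * l - km ρ * l by unfold km; ring, Real.cos_sub, h3]
    nlinarith [mul_pos h4 hs2]

lemma RE_ab {ρ r : ℝ} (hρ : 0 < ρ) (hint : ¬ ∃ n : ℕ, ρ = n) (hr : RE ρ r) :
    0 < aa ρ r ∧ bb ρ r < 0 := by
  obtain ⟨h1, h2, h3, h4⟩ := hr
  have hl0 : 0 < r := by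
    refine lt_of_le_of_ne h1 fun h => ?_
    rw [← h, mul_zero, Real.cos_zero] at h3
    norm_num at h3
  have hkm := km_pos hρ hint
  have hkp := kp_pos hρ.le
  have hkpm := kp_add_km ρ
  have hs1 : 0 < Real.sin (kp ρ * r) := by
    refine Real.sin_pos_of_pos_of_lt_pi (mul_pos hkp hl0) ?_
    nlinarith
  have hs2 : 0 < Real.sin (km ρ * r) := by
    refine Real.sin_pos_of_pos_of_lt_pi (mul_pos hkm hl0) ?_
    nlinarith
  constructor
  · unfold aa
    rw [show ((⌊ρ⌋₊ : ℝ) + 1) * r = ρ * r + kp ρ * r by unfold kp; ring, Real.cos_add, h3]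
    nlinarith [mul_neg_of_neg_of_pos h4 hs1]
  · unfold bb
    rw [show (⌊ρ⌋₊ : ℝ) * r = ρ * r - km ρ * r by unfold km; ring, Real.cos_sub, h3]
    nlinarith [mul_neg_of_neg_of_pos h4 hs2]

lemma RE_lt_pi {ρ r : ℝ} (hρ : 0 < ρ) (hr : RE ρ r) : r < Real.pi := by
  obtain ⟨h1, h2, h3, h4⟩ := hr
  refine lt_of_le_of_ne h2 fun h => ?_
  rw [h] at h4
  have h5 : Real.sin (ρ * Real.pi) = (-1) ^ ⌊ρ⌋₊ * Real.sin (km ρ * Real.pi) := by
    have h6 : ρ * Real.pi = km ρ * Real.pi + ⌊ρ⌋₊ * Real.pi := by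
      unfold km
      ring
    rw [h6, Real.sin_add_nat_mul_pi]
  rw [h5, ← mul_assoc, ← mul_pow] at h4
  have h6 : 0 ≤ Real.sin (km ρ * Real.pi) := by
    refine Real.sin_nonneg_of_nonneg_of_le_pi (mul_nonneg (km_nonneg hρ.le) Real.pi_pos.le) ?_
    have := km_lt_one hρ.le
    nlinarith [Real.pi_pos]
  norm_num at h4
  linarith

/-- second order information at `-∞`: `kk = a e^{kp s}/(p+1) + O(e^{(kp+1) s})` -/
lemma kk_left_asymp (ρ : ℝ) : ∃ C > 0, ∀ θ ∈ Icc (0 : ℝ) Real.pi, ∀ s ≤ (-1 : ℝ),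
    |kk ρ θ s - aa ρ θ / ((⌊ρ⌋₊ : ℝ) + 1) * Real.exp (kp ρ * s)| ≤
      C * Real.exp ((kp ρ + 1) * s) := by
  refine ⟨2, by norm_num, fun θ hθ s hs => ?_⟩
  have hn := kdw_norm θ s
  have hhalf : Real.exp s ≤ 1 / 2 := by
    have h1 : Real.exp s ≤ Real.exp (-1) := Real.exp_le_exp.2 hs
    have h2 : Real.exp (-1) ≤ 1 / 2 := by
      rw [Real.exp_neg, ← one_div]
      apply one_div_le_one_div_of_le (by norm_num)
      have := Real.add_one_le_exp (1 : ℝ)
      linarith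
    linarith
  have hs0 := Real.exp_pos s
  have hne : 1 + kdw θ s ≠ 0 := by
    intro h
    have h1 : kdw θ s = -1 := by linear_combination h
    rw [h1, norm_neg, norm_one] at hn
    linarith
  have h1 : KK ρ θ s = (Complex.log (1 + kdw θ s) +
      ∑ j ∈ Finset.range ⌊ρ⌋₊, (-kdw θ s) ^ (j + 1) / ((j : ℂ) + 1)).re := by
    rw [KK_split ρ θ s hne, Complex.add_re, Complex.log_re]
  have h2 : ∀ n : ℕ, Complex.logTaylor (n + 1) (kdw θ s) =
      -∑ j ∈ Finset.range n, (-kdw θ s) ^ (j + 1) / ((j : ℂ) + 1) := by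
    intro n
    unfold Complex.logTaylor
    rw [Finset.sum_range_succ']
    simp only [pow_zero, Nat.cast_zero, div_zero, add_zero]
    rw [← Finset.sum_neg_distrib]
    refine Finset.sum_congr rfl fun j _ => ?_
    rw [neg_pow (kdw θ s)]
    push_cast
    ring
  have h3 := Complex.norm_log_sub_logTaylor_le (⌊ρ⌋₊ + 1) (z := kdw θ s) (by rw [hn]; linarith)
  have h4 : Complex.log (1 + kdw θ s) - Complex.logTaylor (⌊ρ⌋₊ + 1 + 1) (kdw θ s) =
      (Complex.log (1 + kdw θ s) +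
      ∑ j ∈ Finset.range ⌊ρ⌋₊, (-kdw θ s) ^ (j + 1) / ((j : ℂ) + 1)) +
      (-kdw θ s) ^ (⌊ρ⌋₊ + 1) / ((⌊ρ⌋₊ : ℂ) + 1) := by
    rw [h2, Finset.sum_range_succ]
    ring
  rw [h4] at h3
  have h5 : ((-kdw θ s) ^ (⌊ρ⌋₊ + 1) / ((⌊ρ⌋₊ : ℂ) + 1)).re =
      -(aa ρ θ / ((⌊ρ⌋₊ : ℝ) + 1) * Real.exp (((⌊ρ⌋₊ : ℝ) + 1) * s)) := by
    have e1 : (-kdw θ s) ^ (⌊ρ⌋₊ + 1) / ((⌊ρ⌋₊ : ℂ) + 1) =
        (((-1 : ℝ) ^ (⌊ρ⌋₊ + 1) / ((⌊ρ⌋₊ : ℝ) + 1) : ℝ) : ℂ) * kdw θ s ^ (⌊ρ⌋₊ + 1) := by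
      rw [neg_pow]
      push_cast
      ring
    rw [e1, Complex.re_ofReal_mul, kdw_pow_re]
    unfold aa
    rw [pow_succ]
    push_cast
    ring
  have h6 : |KK ρ θ s - aa ρ θ / ((⌊ρ⌋₊ : ℝ) + 1) * Real.exp (((⌊ρ⌋₊ : ℝ) + 1) * s)| ≤
      2 * Real.exp (((⌊ρ⌋₊ : ℝ) + 2) * s) := by
    have e1 : KK ρ θ s - aa ρ θ / ((⌊ρ⌋₊ : ℝ) + 1) * Real.exp (((⌊ρ⌋₊ : ℝ) + 1) * s) =
        ((Complex.log (1 + kdw θ s) +
        ∑ j ∈ Finset.range ⌊ρ⌋₊, (-kdw θ s) ^ (j + 1) / ((j : ℂ) + 1)) +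
        (-kdw θ s) ^ (⌊ρ⌋₊ + 1) / ((⌊ρ⌋₊ : ℂ) + 1)).re := by
      rw [Complex.add_re, h5, h1]
      ring
    rw [e1]
    refine (Complex.abs_re_le_norm _).trans (h3.trans ?_)
    rw [hn, ← Real.exp_nat_mul]
    have e2 : (1 - Real.exp s)⁻¹ ≤ 2 := by
      rw [inv_le_comm₀ (by linarith) (by norm_num)]
      linarith
    have e3 : (((⌊ρ⌋₊ + 1 + 1 : ℕ) : ℝ)) * s = ((⌊ρ⌋₊ : ℝ) + 2) * s := by
      push_cast
      ring
    rw [e3]
    have e4 : (0 : ℝ) < (((⌊ρ⌋₊ + 1 : ℕ) : ℝ) + 1) := by positivity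
    rw [div_le_iff₀ e4]
    have e5 : (1 : ℝ) ≤ (((⌊ρ⌋₊ + 1 : ℕ) : ℝ) + 1) := by
      have : (0 : ℝ) ≤ ((⌊ρ⌋₊ + 1 : ℕ) : ℝ) := Nat.cast_nonneg _
      linarith
    have e6 := Real.exp_pos (((⌊ρ⌋₊ : ℝ) + 2) * s)
    have e7 : Real.exp (((⌊ρ⌋₊ : ℝ) + 2) * s) * (1 - Real.exp s)⁻¹ ≤
        Real.exp (((⌊ρ⌋₊ : ℝ) + 2) * s) * 2 := mul_le_mul_of_nonneg_left e2 e6.le
    nlinarith
  have h7 : Real.exp (kp ρ * s) = Real.exp (-(ρ * s)) * Real.exp (((⌊ρ⌋₊ : ℝ) + 1) * s) := by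
    rw [← Real.exp_add]
    congr 1
    unfold kp
    ring
  have h8 : Real.exp ((kp ρ + 1) * s) = Real.exp (-(ρ * s)) * Real.exp (((⌊ρ⌋₊ : ℝ) + 2) * s) := by
    rw [← Real.exp_add]
    congr 1
    unfold kp
    ring
  rw [kk_eq_KK, h7, h8]
  have h9 : Real.exp (-(ρ * s)) * KK ρ θ s - aa ρ θ / ((⌊ρ⌋₊ : ℝ) + 1) *
      (Real.exp (-(ρ * s)) * Real.exp (((⌊ρ⌋₊ : ℝ) + 1) * s)) =
      Real.exp (-(ρ * s)) * (KK ρ θ s - aa ρ θ / ((⌊ρ⌋₊ : ℝ) + 1) *
        Real.exp (((⌊ρ⌋₊ : ℝ) + 1) * s)) := by ring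
  rw [h9, abs_mul, abs_of_pos (Real.exp_pos _)]
  calc Real.exp (-(ρ * s)) * |KK ρ θ s - aa ρ θ / ((⌊ρ⌋₊ : ℝ) + 1) *
        Real.exp (((⌊ρ⌋₊ : ℝ) + 1) * s)|
      ≤ Real.exp (-(ρ * s)) * (2 * Real.exp (((⌊ρ⌋₊ : ℝ) + 2) * s)) :=
        mul_le_mul_of_nonneg_left h6 (Real.exp_pos _).le
    _ = _ := by ring

end Helper25.Ind
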