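import Pool.Agent.Helper25.Ind.Defs

/-!
# IND2 R4b: the kernel on the negative axis and its averages over `[r, T]`

`lgk p u = log |1 - u| + ∑_{j<p} u^(j+1)/(j+1)`, `ker p (-x) t = lgk p (x / t)` for `x ≠ t`.
`LL r T t = ∫_r^T log |t - x| dx`, `SS p r T t = ∫_r^T (-log t + ∑ (x/t)^(j+1)/(j+1)) dx`.
`PP p r T t = ∫_r^T ker p (-x) t dx = LL + SS`.
-/

open Filter Topology MeasureTheory Set intervalIntegral

namespace Helper25.Ind

/-- the kernel on the negative axis -/
noncomputable def lgk (p : ℕ) (u : ℝ) : ℝ :=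
  Real.log (1 - u) + ∑ j ∈ Finset.range p, u ^ (j + 1) / ((j : ℝ) + 1)

lemma lgk_zero (p : ℕ) : lgk p 0 = 0 := by
  unfold lgk
  simp

lemma rpb_ker (p : ℕ) {x t : ℝ} (h : x ≠ t) (ht : t ≠ 0) :
    ker p (-(x : ℂ)) t = lgk p (x / t) := by
  unfold ker lgk primary
  have h1 : -(-(x : ℂ)) / (t : ℂ) = ((x / t : ℝ) : ℂ) := by
    push_cast
    rw [neg_neg]
  rw [h1, norm_mul, Complex.norm_exp]
  have h2 : ((1 : ℂ) - ((x / t : ℝ) : ℂ)) = ((1 - x / t : ℝ) : ℂ) := by push_cast; ring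
  have h3 : (∑ j ∈ Finset.range p, ((x / t : ℝ) : ℂ) ^ (j + 1) / ((j : ℂ) + 1)) =
      ((∑ j ∈ Finset.range p, (x / t) ^ (j + 1) / ((j : ℝ) + 1) : ℝ) : ℂ) := by
    push_cast
    rfl
  have h4 : (1 : ℝ) - x / t ≠ 0 := by
    intro h5
    apply h
    have h6 : x / t = 1 := by linarith
    rwa [div_eq_one_iff_eq ht] at h6
  rw [h2, h3, Complex.norm_real, Complex.ofReal_re, Real.log_mul (norm_ne_zero_iff.2 h4)
    (Real.exp_pos _).ne', Real.log_exp, Real.norm_eq_abs, Real.log_abs]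

lemma lgk_deriv (p : ℕ) {u : ℝ} (hu : u < 1) :
    HasDerivAt (lgk p) (-(u ^ p / (1 - u))) u := by
  have h1 : HasDerivAt (fun u : ℝ => Real.log (1 - u)) (-1 / (1 - u)) u := by
    have h2 : HasDerivAt (fun u : ℝ => 1 - u) (-1) u := by
      simpa using (hasDerivAt_id u).const_sub 1
    exact h2.log (by linarith)
  have h3 : HasDerivAt (fun u : ℝ => ∑ j ∈ Finset.range p, u ^ (j + 1) / ((j : ℝ) + 1))
      (∑ j ∈ Finset.range p, u ^ j) u := by
    refine HasDerivAt.fun_sum fun j _ => ?_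
    have h4 := (hasDerivAt_pow (j + 1) u).div_const ((j : ℝ) + 1)
    refine h4.congr_deriv ?_
    have : ((j : ℝ) + 1) ≠ 0 := by positivity
    push_cast
    field_simp
  refine (h1.add h3).congr_deriv ?_
  have h5 : u ≠ 1 := hu.ne
  have h6 : (1 : ℝ) - u ≠ 0 := by linarith
  rw [geom_sum_eq h5]
  have h7 : u - 1 ≠ 0 := by
    intro h
    exact h5 (by linarith)
  field_simp
  ring

lemma lgk_antitone (p : ℕ) : AntitoneOn (lgk p) (Ico 0 1) := by
  refine antitoneOn_of_deriv_nonpos (convex_Ico 0 1) ?_ ?_ ?_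
  · intro u hu
    exact (lgk_deriv p hu.2).continuousAt.continuousWithinAt
  · intro u hu
    rw [interior_Ico] at hu
    exact (lgk_deriv p hu.2).differentiableAt.differentiableWithinAt
  · intro u hu
    rw [interior_Ico] at hu
    rw [(lgk_deriv p hu.2).deriv]
    have h1 : 0 ≤ u ^ p / (1 - u) :=
      div_nonneg (pow_nonneg hu.1.le _) (by linarith [hu.2])
    linarith

lemma lgk_nonpos (p : ℕ) {u : ℝ} (h0 : 0 ≤ u) (h1 : u < 1) : lgk p u ≤ 0 := by
  have h2 := lgk_antitone p (show (0 : ℝ) ∈ Ico 0 1 from ⟨le_rfl, zero_lt_one⟩) ⟨h0, h1⟩ h0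
  rwa [lgk_zero] at h2

/-- the logarithmic part -/
noncomputable def LL (r T t : ℝ) : ℝ := ∫ x in r..T, Real.log (t - x)

/-- the decreasing part -/
noncomputable def SS (p : ℕ) (r T t : ℝ) : ℝ :=
  ∫ x in r..T, (-Real.log t + ∑ j ∈ Finset.range p, (x / t) ^ (j + 1) / ((j : ℝ) + 1))

/-- the integral of the kernel -/
noncomputable def PP (p : ℕ) (r T t : ℝ) : ℝ := ∫ x in r..T, ker p (-(x : ℂ)) t

lemma rpb_log_ii (r T t : ℝ) : IntervalIntegrable (fun x => Real.log (t - x)) volume r T := by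
  have h : IntervalIntegrable Real.log volume (t - T) (t - r) := intervalIntegrable_log'
  have h2 := h.comp_sub_left t
  simpa using h2.symm

lemma LL_eq (r T t : ℝ) : LL r T t = ∫ y in (t - T)..(t - r), Real.log y := by
  unfold LL
  exact integral_comp_sub_left (fun y => Real.log y) t

lemma LL_sub (r T t s : ℝ) : LL r T t - LL r T s =
    ∫ u in t..s, (Real.log (u - T) - Real.log (u - r)) := by
  have hii : ∀ a b : ℝ, IntervalIntegrable Real.log volume a b := fun a b =>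
    intervalIntegrable_log'
  have h1 : ∀ c : ℝ, IntervalIntegrable (fun u => Real.log (u - c)) volume t s := by
    intro c
    have h := (hii (t - c) (s - c)).comp_sub_right c
    simpa using h
  rw [LL_eq, LL_eq, integral_sub (h1 T) (h1 r), integral_comp_sub_right,
    integral_comp_sub_right]
  have e1 := integral_add_adjacent_intervals (hii (t - T) (s - T)) (hii (s - T) (s - r))
  have e2 := integral_add_adjacent_intervals (hii (t - T) (t - r)) (hii (t - r) (s - r))
  linarith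

lemma rpb_cmp_ae {r T t s : ℝ} (hts : t ≤ s)
    (h : ∀ u ∈ Icc t s, |u - r| ≤ |u - T|) : LL r T s ≤ LL r T t := by
  have h1 := LL_sub r T t s
  have h2 : 0 ≤ ∫ u in t..s, (Real.log (u - T) - Real.log (u - r)) := by
    refine intervalIntegral.integral_nonneg_of_ae_restrict hts ?_
    have h3 : ∀ᵐ u ∂((volume : Measure ℝ).restrict (Icc t s)), u ≠ r := by
      refine ae_restrict_of_ae ?_
      rw [ae_iff]
      simp
    filter_upwards [h3, ae_restrict_mem measurableSet_Icc] with u hu hm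
    have h4 := h u hm
    have h5 : 0 < |u - r| := abs_pos.2 (sub_ne_zero.2 hu)
    have h6 := Real.log_le_log h5 h4
    rw [Real.log_abs, Real.log_abs] at h6
    simpa using h6
  linarith

lemma LL_antitone {r T : ℝ} (hrT : r ≤ T) {t s : ℝ} (hts : t ≤ s) (hs : s ≤ (r + T) / 2) :
    LL r T s ≤ LL r T t := by
  refine rpb_cmp_ae hts fun u hu => ?_
  have h1 : u ≤ (r + T) / 2 := hu.2.trans hs
  rw [abs_sub_comm u T, abs_of_nonneg (by linarith : (0 : ℝ) ≤ T - u)]
  rw [abs_le]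
  constructor <;> linarith

lemma LL_monotone {r T : ℝ} (hrT : r ≤ T) {t s : ℝ} (hts : t ≤ s) (ht : (r + T) / 2 ≤ t) :
    LL r T t ≤ LL r T s := by
  have h1 := LL_sub r T t s
  have h2 : 0 ≤ ∫ u in t..s, (Real.log (u - r) - Real.log (u - T)) := by
    refine intervalIntegral.integral_nonneg_of_ae_restrict hts ?_
    have h3 : ∀ᵐ u ∂((volume : Measure ℝ).restrict (Icc t s)), u ≠ T := by
      refine ae_restrict_of_ae ?_
      rw [ae_iff]
      simp
    filter_upwards [h3, ae_restrict_mem measurableSet_Icc] with u hu hm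
    have h0 : (r + T) / 2 ≤ u := ht.trans hm.1
    have h4 : |u - T| ≤ |u - r| := by
      rw [abs_of_nonneg (by linarith : (0 : ℝ) ≤ u - r), abs_le]
      constructor <;> linarith
    have h5 : 0 < |u - T| := abs_pos.2 (sub_ne_zero.2 hu)
    have h6 := Real.log_le_log h5 h4
    rw [Real.log_abs, Real.log_abs] at h6
    simpa using h6
  have h3 : ∫ u in t..s, (Real.log (u - r) - Real.log (u - T)) =
      -∫ u in t..s, (Real.log (u - T) - Real.log (u - r)) := by
    rw [← intervalIntegral.integral_neg]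
    congr 1
    funext u
    ring
  linarith

lemma rpb_S_cont (p : ℕ) (t : ℝ) : Continuous fun x : ℝ =>
    (-Real.log t + ∑ j ∈ Finset.range p, (x / t) ^ (j + 1) / ((j : ℝ) + 1)) := by
  fun_prop

lemma SS_antitone (p : ℕ) {r T : ℝ} (hr : 0 ≤ r) (hrT : r ≤ T) {t s : ℝ} (ht : 0 < t)
    (hts : t ≤ s) : SS p r T s ≤ SS p r T t := by
  unfold SS
  refine integral_mono_on hrT ((rpb_S_cont p s).intervalIntegrable _ _)
    ((rpb_S_cont p t).intervalIntegrable _ _) fun x hx => ?_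
  have hx0 : 0 ≤ x := hr.trans hx.1
  have hs : 0 < s := ht.trans_le hts
  refine add_le_add (neg_le_neg (Real.log_le_log ht hts)) (Finset.sum_le_sum fun j _ => ?_)
  refine div_le_div_of_nonneg_right ?_ (by positivity)
  exact pow_le_pow_left₀ (div_nonneg hx0 hs.le) (div_le_div_of_nonneg_left hx0 ht hts) _

lemma rpb_ker_ae (p : ℕ) {t : ℝ} (ht : 0 < t) : ∀ᵐ x : ℝ, ker p (-(x : ℂ)) t =
    Real.log (t - x) + (-Real.log t + ∑ j ∈ Finset.range p, (x / t) ^ (j + 1) / ((j : ℝ) + 1)) := by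
  have h3 : ∀ᵐ x : ℝ, x ≠ t := by
    rw [ae_iff]
    simp
  filter_upwards [h3] with x hx
  rw [rpb_ker p hx ht.ne']
  unfold lgk
  have h4 : 1 - x / t = (t - x) / t := by
    field_simp
  rw [h4, Real.log_div (sub_ne_zero.2 (Ne.symm hx)) ht.ne']
  ring

lemma rpb_ker_ii (p : ℕ) {t : ℝ} (ht : 0 < t) (r T : ℝ) :
    IntervalIntegrable (fun x : ℝ => ker p (-(x : ℂ)) t) volume r T := by
  have h := (rpb_log_ii r T t).add ((rpb_S_cont p t).intervalIntegrable r T)
  refine h.congr_ae ?_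
  refine ae_restrict_of_ae ?_
  filter_upwards [rpb_ker_ae p ht] with x hx
  exact hx.symm

lemma PP_eq (p : ℕ) {t : ℝ} (ht : 0 < t) (r T : ℝ) : PP p r T t = LL r T t + SS p r T t := by
  unfold PP LL SS
  rw [← intervalIntegral.integral_add (rpb_log_ii r T t)
    ((rpb_S_cont p t).intervalIntegrable r T)]
  refine intervalIntegral.integral_congr_ae ?_
  filter_upwards [rpb_ker_ae p ht] with x hx _
  rw [hx]

lemma rpb_ker_far (p : ℕ) {x T t : ℝ} (hx : 0 ≤ x) (hxT : x ≤ T) (hTt : T < t) :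
    ker p (-(T : ℂ)) t ≤ ker p (-(x : ℂ)) t ∧ ker p (-(x : ℂ)) t ≤ 0 := by
  have ht : 0 < t := lt_of_le_of_lt (hx.trans hxT) hTt
  rw [rpb_ker p (hxT.trans_lt hTt).ne ht.ne', rpb_ker p hTt.ne ht.ne']
  have h1 : x / t < 1 := (div_lt_one ht).2 (hxT.trans_lt hTt)
  have h2 : T / t < 1 := (div_lt_one ht).2 hTt
  have h0 : 0 ≤ x / t := div_nonneg hx ht.le
  exact ⟨lgk_antitone p ⟨h0, h1⟩ ⟨h0.trans (div_le_div_of_nonneg_right hxT ht.le), h2⟩
    (div_le_div_of_nonneg_right hxT ht.le), lgk_nonpos p h0 h1⟩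

lemma PP_monotone (p : ℕ) {r T : ℝ} (hr : 0 ≤ r) (hrT : r < T) {t s : ℝ} (ht : T ≤ t)
    (hts : t ≤ s) : PP p r T t ≤ PP p r T s := by
  have hT : 0 < T := lt_of_le_of_lt hr hrT
  have ht0 : 0 < t := hT.trans_le ht
  unfold PP
  refine integral_mono_on_of_le_Ioo hrT.le (rpb_ker_ii p ht0 r T)
    (rpb_ker_ii p (ht0.trans_le hts) r T) fun x hx => ?_
  have h1 : x < t := hx.2.trans_le ht
  have hx0 : 0 ≤ x := hr.trans hx.1.le
  rw [rpb_ker p h1.ne ht0.ne', rpb_ker p (h1.trans_le hts).ne (ht0.trans_le hts).ne']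
  have h2 : x / s ≤ x / t := div_le_div_of_nonneg_left hx0 ht0 hts
  have h3 : x / t < 1 := (div_lt_one ht0).2 h1
  exact lgk_antitone p ⟨div_nonneg hx0 (ht0.trans_le hts).le, h2.trans_lt h3⟩
    ⟨div_nonneg hx0 ht0.le, h3⟩ h2

lemma PP_nonpos (p : ℕ) {r T : ℝ} (hr : 0 ≤ r) (hrT : r < T) {t : ℝ} (ht : T ≤ t) :
    PP p r T t ≤ 0 := by
  have hT : 0 < T := lt_of_le_of_lt hr hrT
  have ht0 : 0 < t := hT.trans_le ht
  have h : PP p r T t ≤ ∫ _x in r..T, (0 : ℝ) := by
    unfold PP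
    refine integral_mono_on_of_le_Ioo hrT.le (rpb_ker_ii p ht0 r T)
      intervalIntegrable_const fun x hx => ?_
    have h1 : x < t := hx.2.trans_le ht
    have hx0 : 0 ≤ x := hr.trans hx.1.le
    rw [rpb_ker p h1.ne ht0.ne']
    exact lgk_nonpos p (div_nonneg hx0 ht0.le) ((div_lt_one ht0).2 h1)
  simpa using h

/-- the value at the midpoint -/
lemma LL_mid {r T : ℝ} (hrT : r < T) :
    LL r T ((r + T) / 2) = (T - r) * (Real.log ((T - r) / 2) - 1) := by
  rw [LL_eq, integral_log]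
  have h1 : (r + T) / 2 - r = (T - r) / 2 := by ring
  have h2 : (r + T) / 2 - T = -((T - r) / 2) := by ring
  rw [h1, h2, Real.log_neg_eq_log]
  ring

/-- the value at `1` -/
lemma LL_one {r T : ℝ} (hr : 2 ≤ r) (hrT : r < T) : LL r T 1 ≤ (T - r) * Real.log T := by
  have h : LL r T 1 ≤ ∫ _x in r..T, Real.log T := by
    unfold LL
    refine integral_mono_on hrT.le (rpb_log_ii r T 1) intervalIntegrable_const fun x hx => ?_
    have h1 : Real.log (1 - x) = Real.log (x - 1) := by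
      rw [← Real.log_neg_eq_log, neg_sub]
    rw [h1]
    have h2 : 0 < x - 1 := by linarith [hx.1]
    exact Real.log_le_log h2 (by linarith [hx.2])
  simpa using h

lemma SS_one (p : ℕ) {r T : ℝ} (hr : 2 ≤ r) (hrT : r < T) :
    SS p r T 1 ≤ (T - r) * (p * T ^ p) := by
  have h : SS p r T 1 ≤ ∫ _x in r..T, ((p : ℝ) * T ^ p) := by
    unfold SS
    refine integral_mono_on hrT.le ((rpb_S_cont p 1).intervalIntegrable _ _)
      intervalIntegrable_const fun x hx => ?_
    rw [Real.log_one, neg_zero, zero_add]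
    have hT1 : 1 ≤ T := by linarith
    have h1 : ∀ j ∈ Finset.range p, (x / 1) ^ (j + 1) / ((j : ℝ) + 1) ≤ T ^ p := by
      intro j hj
      rw [div_one]
      have hj' : j + 1 ≤ p := Finset.mem_range.1 hj
      have hx0 : 0 ≤ x := by linarith [hx.1]
      have h2 : x ^ (j + 1) ≤ T ^ (j + 1) := pow_le_pow_left₀ hx0 hx.2 _
      have h3 : T ^ (j + 1) ≤ T ^ p := pow_le_pow_right₀ hT1 hj'
      have h4 : x ^ (j + 1) / ((j : ℝ) + 1) ≤ x ^ (j + 1) := by
        refine div_le_self (pow_nonneg hx0 _) ?_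
        have : (0 : ℝ) ≤ j := Nat.cast_nonneg j
        linarith
      linarith
    refine (Finset.sum_le_sum h1).trans (le_of_eq ?_)
    simp
  rw [intervalIntegral.integral_const, smul_eq_mul] at h
  exact h

lemma SS_end (p : ℕ) {r T : ℝ} (hr : 2 ≤ r) (hrT : r < T) :
    -SS p r T T ≤ (T - r) * Real.log T := by
  have h : ∫ _x in r..T, (-Real.log T) ≤ SS p r T T := by
    unfold SS
    refine integral_mono_on hrT.le intervalIntegrable_const
      ((rpb_S_cont p T).intervalIntegrable _ _) fun x hx => ?_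
    have h1 : 0 ≤ ∑ j ∈ Finset.range p, (x / T) ^ (j + 1) / ((j : ℝ) + 1) := by
      refine Finset.sum_nonneg fun j _ => ?_
      have hx0 : 0 ≤ x := by linarith [hx.1]
      have hT0 : 0 ≤ T := by linarith
      positivity
    linarith
  rw [intervalIntegral.integral_const, smul_eq_mul] at h
  linarith

end Helper25.Ind
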