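import Pool.Agent.Helper25.Ind2.RPiLa
import Pool.Agent.Helper25.Ind2.RPiLb
import Pool.Agent.Helper25.Ind.KerC

/-!
# IND2 R4c: averages of the kernel over `[r, T]`: decomposition, Fubini, comparison of sum and integral

`PP = gg1 - gg2` on `[1, ∞)`, both antitone and nonnegative.
-/

open Filter Topology MeasureTheory Set intervalIntegral

namespace Helper25.Ind

/-- first antitone part -/
noncomputable def gg1 (p : ℕ) (r T t : ℝ) : ℝ :=
  (LL r T (min (max t 1) ((r + T) / 2)) - LL r T ((r + T) / 2)) +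
    (SS p r T (min (max t 1) T) - SS p r T T)

/-- second antitone part -/
noncomputable def gg2 (p : ℕ) (r T t : ℝ) : ℝ :=
  -PP p r T (max t T) + (LL r T T - LL r T (max ((r + T) / 2) (min t T)))

section dec
variable (p : ℕ) {r T : ℝ} (hr : 2 ≤ r) (hrT : r < T)
include hr hrT

lemma gg1_antitone : Antitone (gg1 p r T) := by
  intro t s hts
  unfold gg1
  have h1 : LL r T (min (max s 1) ((r + T) / 2)) ≤ LL r T (min (max t 1) ((r + T) / 2)) :=
    LL_antitone hrT.le (min_le_min_right _ (max_le_max_right _ hts)) (min_le_right _ _)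
  have h2 : SS p r T (min (max s 1) T) ≤ SS p r T (min (max t 1) T) := by
    refine SS_antitone p (by linarith) hrT.le ?_ (min_le_min_right _ (max_le_max_right _ hts))
    exact lt_min (lt_of_lt_of_le one_pos (le_max_right _ _)) (by linarith)
  linarith

lemma gg1_nonneg (t : ℝ) : 0 ≤ gg1 p r T t := by
  unfold gg1
  have h1 : LL r T ((r + T) / 2) ≤ LL r T (min (max t 1) ((r + T) / 2)) :=
    LL_antitone hrT.le (min_le_right _ _) le_rfl
  have h2 : SS p r T T ≤ SS p r T (min (max t 1) T) := by
    refine SS_antitone p (by linarith) hrT.le ?_ (min_le_right _ _)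
    exact lt_min (lt_of_lt_of_le one_pos (le_max_right _ _)) (by linarith)
  linarith

lemma gg1_le (t : ℝ) : gg1 p r T t ≤ gg1 p r T 1 := by
  have h1 : gg1 p r T (min t 1) = gg1 p r T 1 := by
    unfold gg1
    rw [max_eq_right (min_le_right t 1), max_self]
  rw [← h1]
  exact gg1_antitone p hr hrT (min_le_left _ _)

lemma gg1_far {t : ℝ} (ht : T ≤ t) : gg1 p r T t = 0 := by
  unfold gg1
  rw [max_eq_left (by linarith : (1 : ℝ) ≤ t), min_eq_right (by linarith : (r + T) / 2 ≤ t),
    min_eq_right ht]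
  ring

lemma gg1_one_le : gg1 p r T 1 ≤ (T - r) * (2 * Real.log T + Real.log (2 / (T - r)) + 1 +
    p * T ^ p) := by
  have h1 : gg1 p r T 1 = LL r T 1 - LL r T ((r + T) / 2) + (SS p r T 1 - SS p r T T) := by
    unfold gg1
    rw [max_self, min_eq_left (by linarith : (1 : ℝ) ≤ (r + T) / 2),
      min_eq_left (by linarith : (1 : ℝ) ≤ T)]
  rw [h1, LL_mid hrT]
  have h2 := LL_one hr hrT
  have h3 := SS_one p hr hrT
  have h4 := SS_end p hr hrT
  have h5 : Real.log (2 / (T - r)) = -Real.log ((T - r) / 2) := by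
    rw [← Real.log_inv, inv_div]
  rw [h5]
  nlinarith

lemma gg2_antitone : Antitone (gg2 p r T) := by
  intro t s hts
  unfold gg2
  have h1 : PP p r T (max t T) ≤ PP p r T (max s T) :=
    PP_monotone p (by linarith) hrT (le_max_right _ _) (max_le_max_right _ hts)
  have h2 : LL r T (max ((r + T) / 2) (min t T)) ≤ LL r T (max ((r + T) / 2) (min s T)) :=
    LL_monotone hrT.le (max_le_max_left _ (min_le_min_right _ hts)) (le_max_left _ _)
  linarith

lemma gg2_nonneg (t : ℝ) : 0 ≤ gg2 p r T t := by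
  unfold gg2
  have h1 : PP p r T (max t T) ≤ 0 := PP_nonpos p (by linarith) hrT (le_max_right _ _)
  have h2 : LL r T (max ((r + T) / 2) (min t T)) ≤ LL r T T :=
    LL_monotone hrT.le (max_le (by linarith) (min_le_right _ _)) (le_max_left _ _)
  linarith

lemma gg2_le (t : ℝ) : gg2 p r T t ≤ gg2 p r T r := by
  have h1 : gg2 p r T (min t r) = gg2 p r T r := by
    unfold gg2
    have e1 : min t r ≤ r := min_le_right _ _
    rw [max_eq_right (by linarith : min t r ≤ T), max_eq_right (by linarith : r ≤ T),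
      min_eq_left (by linarith : min t r ≤ T), min_eq_left (by linarith : r ≤ T),
      max_eq_left (by linarith : min t r ≤ (r + T) / 2),
      max_eq_left (by linarith : r ≤ (r + T) / 2)]
  rw [← h1]
  exact gg2_antitone p hr hrT (min_le_left _ _)

lemma gg2_far {t : ℝ} (ht : T ≤ t) : gg2 p r T t = -PP p r T t := by
  unfold gg2
  rw [max_eq_left ht, min_eq_right ht, max_eq_right (by linarith : (r + T) / 2 ≤ T)]
  ring

lemma PP_dec {t : ℝ} (ht : 1 ≤ t) : PP p r T t = gg1 p r T t - gg2 p r T t := by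
  have ht0 : 0 < t := by linarith
  have hT0 : 0 < T := by linarith
  rcases le_total T t with h | h
  · rw [gg1_far p hr hrT h, gg2_far p hr hrT h]
    ring
  · unfold gg1 gg2
    rw [max_eq_left ht, max_eq_right h, min_eq_left h, PP_eq p ht0, PP_eq p hT0]
    rcases le_total t ((r + T) / 2) with h' | h'
    · rw [min_eq_left h', max_eq_left h']
      ring
    · rw [min_eq_right h', max_eq_right h']
      ring

end dec

/-- measurability of the kernel in both variables -/
lemma rpc_meas (p : ℕ) : Measurable (fun q : ℝ × ℝ => ker p (-(q.1 : ℂ)) q.2) := by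
  unfold ker
  have h1 : Measurable (fun q : ℝ × ℝ => -(-(q.1 : ℂ)) / (q.2 : ℂ)) := by
    have h2 : Measurable (fun q : ℝ × ℝ => (q.1 : ℂ)) :=
      Complex.measurable_ofReal.comp measurable_fst
    have h3 : Measurable (fun q : ℝ × ℝ => (q.2 : ℂ)) :=
      Complex.measurable_ofReal.comp measurable_snd
    exact h2.neg.neg.div h3
  exact Real.measurable_log.comp
    (((differentiable_primary p).continuous.measurable.comp h1).norm)

/-- the integral of the absolute value of the kernel -/
noncomputable def WW (p : ℕ) (r T t : ℝ) : ℝ := ∫ x in r..T, |ker p (-(x : ℂ)) t|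

lemma WW_nonneg (p : ℕ) {r T : ℝ} (hrT : r ≤ T) (t : ℝ) : 0 ≤ WW p r T t :=
  integral_nonneg hrT fun _ _ => abs_nonneg _

lemma WW_far (p : ℕ) {r T : ℝ} (hr : 2 ≤ r) (hrT : r < T) {t : ℝ} (ht : T < t) :
    WW p r T t = -PP p r T t ∧ WW p r T t ≤ (T - r) * |ker p (-(T : ℂ)) t| := by
  have ht0 : 0 < t := by linarith
  have h1 : ∀ x ∈ Icc r T, ker p (-(T : ℂ)) t ≤ ker p (-(x : ℂ)) t ∧ ker p (-(x : ℂ)) t ≤ 0 :=
    fun x hx => rpb_ker_far p (by linarith [hx.1]) hx.2 ht
  constructor
  · unfold WW PP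
    rw [← intervalIntegral.integral_neg]
    refine integral_congr fun x hx => ?_
    rw [uIcc_of_le hrT.le] at hx
    exact abs_of_nonpos (h1 x hx).2
  · have h2 : WW p r T t ≤ ∫ _x in r..T, |ker p (-(T : ℂ)) t| := by
      unfold WW
      refine integral_mono_on hrT.le (rpb_ker_ii p ht0 r T).abs intervalIntegrable_const
        fun x hx => ?_
      rw [abs_of_nonpos (h1 x hx).2, abs_of_nonpos ((h1 x hx).1.trans (h1 x hx).2)]
      linarith [(h1 x hx).1]
    simpa using h2

lemma WW_near (p : ℕ) {r T : ℝ} (hr : 2 ≤ r) (hrT : r < T) :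
    ∃ c, 0 ≤ c ∧ ∀ t, 1 ≤ t → t ≤ T → WW p r T t ≤ c := by
  refine ⟨(∫ y in (-T)..T, |Real.log y|) + (T - r) * (Real.log T + p * T ^ p), ?_, ?_⟩
  · refine add_nonneg (integral_nonneg (by linarith) fun _ _ => abs_nonneg _)
      (mul_nonneg (by linarith) (add_nonneg (Real.log_nonneg (by linarith)) ?_))
    have : 0 ≤ T := by linarith
    positivity
  · intro t ht1 htT
    have ht0 : 0 < t := by linarith
    have hii : IntervalIntegrable (fun x => |Real.log (t - x)|) volume r T :=
      (rpb_log_ii r T t).abs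
    have h1 : WW p r T t ≤ ∫ x in r..T, (|Real.log (t - x)| + (Real.log T + p * T ^ p)) := by
      unfold WW
      refine integral_mono_ae_restrict hrT.le (rpb_ker_ii p ht0 r T).abs
        (hii.add intervalIntegrable_const) ?_
      filter_upwards [ae_restrict_of_ae (rpb_ker_ae p ht0), ae_restrict_mem measurableSet_Icc]
        with x hx hm
      rw [hx]
      refine (abs_add_le _ _).trans (add_le_add le_rfl ?_)
      refine (abs_add_le _ _).trans (add_le_add ?_ ?_)
      · rw [abs_neg, abs_of_nonneg (Real.log_nonneg ht1)]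
        exact Real.log_le_log ht0 htT
      · have hx0 : 0 ≤ x := by linarith [hm.1]
        have hT1 : 1 ≤ T := by linarith
        have h2 : ∀ j ∈ Finset.range p, (x / t) ^ (j + 1) / ((j : ℝ) + 1) ≤ T ^ p := by
          intro j hj
          have hj' : j + 1 ≤ p := Finset.mem_range.1 hj
          have h3 : x / t ≤ T := (div_le_self hx0 ht1).trans hm.2
          have h4 : (x / t) ^ (j + 1) ≤ T ^ (j + 1) :=
            pow_le_pow_left₀ (div_nonneg hx0 ht0.le) h3 _
          have h5 : T ^ (j + 1) ≤ T ^ p := pow_le_pow_right₀ hT1 hj'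
          have h6 : (x / t) ^ (j + 1) / ((j : ℝ) + 1) ≤ (x / t) ^ (j + 1) := by
            refine div_le_self (pow_nonneg (div_nonneg hx0 ht0.le) _) ?_
            have : (0 : ℝ) ≤ j := Nat.cast_nonneg j
            linarith
          linarith
        have h0 : 0 ≤ ∑ j ∈ Finset.range p, (x / t) ^ (j + 1) / ((j : ℝ) + 1) :=
          Finset.sum_nonneg fun j _ => by positivity
        rw [abs_of_nonneg h0]
        refine (Finset.sum_le_sum h2).trans (le_of_eq ?_)
        simp
    rw [intervalIntegral.integral_add hii intervalIntegrable_const] at h1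
    refine h1.trans (add_le_add ?_ (le_of_eq ?_))
    · rw [integral_comp_sub_left (fun y => |Real.log y|) t]
      refine integral_mono_interval (by linarith) (by linarith) (by linarith)
        (Eventually.of_forall fun _ => abs_nonneg _) ?_
      exact (intervalIntegrable_log' : IntervalIntegrable Real.log volume (-T) T).abs
    · rw [intervalIntegral.integral_const, smul_eq_mul]

section fub
variable {p : ℕ} {ν : Measure ℝ} (hfin : ∀ t, ν (Iic t) < ⊤) (h1 : ν (Iic 1) = 0)
  (hker : ∀ T : ℝ, 0 < T → Integrable (ker p (-(T : ℂ))) ν) {r T : ℝ} (hr : 2 ≤ r) (hrT : r < T)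

include h1 in
lemma rpc_ae : ∀ᵐ t ∂ν, 1 < t := by
  rw [ae_iff]
  have : {a : ℝ | ¬1 < a} = Iic 1 := by
    ext t
    simp
  rw [this]
  exact h1

include hfin in
lemma rpc_ind (T c : ℝ) : Integrable ((Iic T).indicator fun _ => c) ν := by
  rw [integrable_indicator_iff measurableSet_Iic]
  exact integrableOn_const (hfin T).ne

include hfin h1 hker hr hrT

lemma rpc_WW_int : Integrable (WW p r T) ν := by
  obtain ⟨c, hc0, hc⟩ := WW_near p hr hrT
  have hT : 0 < T := by linarith
  have hdom : Integrable (fun t => (Iic T).indicator (fun _ => c) t +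
      (T - r) * |ker p (-(T : ℂ)) t|) ν :=
    (rpc_ind hfin T c).add ((hker T hT).abs.const_mul _)
  refine hdom.mono' ?_ ?_
  · have hm : StronglyMeasurable fun q : ℝ × ℝ => |ker p (-(q.1 : ℂ)) q.2| :=
      (rpc_meas p).abs.stronglyMeasurable
    have h2 : StronglyMeasurable fun t : ℝ => ∫ x in Ioc r T, |ker p (-(x : ℂ)) t| :=
      hm.integral_prod_left' (μ := volume.restrict (Ioc r T))
    have h3 : WW p r T = fun t : ℝ => ∫ x in Ioc r T, |ker p (-(x : ℂ)) t| := by
      funext t
      unfold WW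
      rw [integral_of_le hrT.le]
    rw [h3]
    exact h2.aestronglyMeasurable
  · filter_upwards [rpc_ae h1] with t ht
    rw [Real.norm_eq_abs, abs_of_nonneg (WW_nonneg p hrT.le t)]
    rcases le_or_gt t T with h | h
    · rw [indicator_of_mem (show t ∈ Iic T from h)]
      have := hc t ht.le h
      have h2 : 0 ≤ (T - r) * |ker p (-(T : ℂ)) t| := mul_nonneg (by linarith) (abs_nonneg _)
      linarith
    · rw [indicator_of_notMem (show t ∉ Iic T from not_le.2 h), zero_add]
      exact (WW_far p hr hrT h).2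

lemma rpc_fub : ∫ x in r..T, (∫ t, ker p (-(x : ℂ)) t ∂ν) = ∫ t, PP p r T t ∂ν := by
  have hsf : SFinite ν := by
    have : SigmaFinite ν := by
      refine ⟨⟨⟨fun n : ℕ => Iic (n : ℝ), fun _ => trivial, fun n => hfin _, ?_⟩⟩⟩
      rw [eq_univ_iff_forall]
      intro t
      obtain ⟨n, hn⟩ := exists_nat_ge t
      exact mem_iUnion.2 ⟨n, hn⟩
    infer_instance
  have hI : Integrable (fun q : ℝ × ℝ => ker p (-(q.1 : ℂ)) q.2)
      ((volume.restrict (Ioc r T)).prod ν) := by
    rw [integrable_prod_iff' (rpc_meas p).aestronglyMeasurable]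
    constructor
    · filter_upwards [rpc_ae h1] with t ht
      exact (rpb_ker_ii p (by linarith : (0 : ℝ) < t) r T).1
    · refine (rpc_WW_int hfin h1 hker hr hrT).congr (Eventually.of_forall fun t => ?_)
      unfold WW
      rw [integral_of_le hrT.le]
      rfl
  rw [integral_of_le hrT.le, integral_integral_swap (f := fun (x t : ℝ) => ker p (-(x : ℂ)) t) hI]
  refine integral_congr_ae (Eventually.of_forall fun t => ?_)
  unfold PP
  simp only [integral_of_le hrT.le]

lemma rpc_slice_int : Integrable (fun x : ℝ => ∫ t, ker p (-(x : ℂ)) t ∂ν)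
    (volume.restrict (Ioc r T)) := by
  have hsf : SFinite ν := by
    have : SigmaFinite ν := by
      refine ⟨⟨⟨fun n : ℕ => Iic (n : ℝ), fun _ => trivial, fun n => hfin _, ?_⟩⟩⟩
      rw [eq_univ_iff_forall]
      intro t
      obtain ⟨n, hn⟩ := exists_nat_ge t
      exact mem_iUnion.2 ⟨n, hn⟩
    infer_instance
  have hI : Integrable (fun q : ℝ × ℝ => ker p (-(q.1 : ℂ)) q.2)
      ((volume.restrict (Ioc r T)).prod ν) := by
    rw [integrable_prod_iff' (rpc_meas p).aestronglyMeasurable]
    constructor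
    · filter_upwards [rpc_ae h1] with t ht
      exact (rpb_ker_ii p (by linarith : (0 : ℝ) < t) r T).1
    · refine (rpc_WW_int hfin h1 hker hr hrT).congr (Eventually.of_forall fun t => ?_)
      unfold WW
      rw [integral_of_le hrT.le]
      rfl
  exact hI.integral_prod_left

lemma rpc_gg1_int : Integrable (gg1 p r T) ν := by
  refine (rpc_ind hfin T (gg1 p r T 1)).mono'
    (gg1_antitone p hr hrT).measurable.aestronglyMeasurable (Eventually.of_forall fun t => ?_)
  rw [Real.norm_eq_abs, abs_of_nonneg (gg1_nonneg p hr hrT t)]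
  rcases le_or_gt t T with h | h
  · rw [indicator_of_mem (show t ∈ Iic T from h)]
    exact gg1_le p hr hrT t
  · rw [indicator_of_notMem (show t ∉ Iic T from not_le.2 h), gg1_far p hr hrT h.le]

lemma rpc_gg2_int : Integrable (gg2 p r T) ν := by
  refine ((rpc_ind hfin T (gg2 p r T r)).add (rpc_WW_int hfin h1 hker hr hrT)).mono'
    (gg2_antitone p hr hrT).measurable.aestronglyMeasurable (Eventually.of_forall fun t => ?_)
  rw [Real.norm_eq_abs, abs_of_nonneg (gg2_nonneg p hr hrT t), Pi.add_apply]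
  rcases le_or_gt t T with h | h
  · rw [indicator_of_mem (show t ∈ Iic T from h)]
    have := gg2_le p hr hrT t
    have := WW_nonneg p hrT.le t
    linarith
  · rw [indicator_of_notMem (show t ∉ Iic T from not_le.2 h), gg2_far p hr hrT h.le,
      (WW_far p hr hrT h).1, zero_add]

lemma rpc_main {a : ℕ → ℝ} (ha : ∀ k, 1 ≤ a k)
    (hcnt : ∀ t, (diracs a) (Iic t) = ((⌊(ν (Iic t)).toReal⌋₊ : ℕ) : ENNReal)) :
    (Summable fun k => WW p r T (a k)) ∧ (Summable fun k => PP p r T (a k)) ∧
      ∫ x in r..T, (∫ t, ker p (-(x : ℂ)) t ∂ν) ≤ ∑' k, PP p r T (a k) + gg1 p r T 1 := by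
  obtain ⟨s1, -, b1⟩ := rpa_real hfin hcnt (gg1_antitone p hr hrT) (gg1_nonneg p hr hrT)
    (gg1_le p hr hrT) (rpc_gg1_int hfin h1 hker hr hrT)
  obtain ⟨s2, b2, -⟩ := rpa_real hfin hcnt (gg2_antitone p hr hrT) (gg2_nonneg p hr hrT)
    (gg2_le p hr hrT) (rpc_gg2_int hfin h1 hker hr hrT)
  have hP : ∀ k, PP p r T (a k) = gg1 p r T (a k) - gg2 p r T (a k) := fun k =>
    PP_dec p hr hrT (ha k)
  have sP : Summable fun k => PP p r T (a k) := by
    simp only [hP]
    exact s1.sub s2
  refine ⟨?_, sP, ?_⟩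
  · obtain ⟨c, hc0, hc⟩ := WW_near p hr hrT
    have hanti : Antitone ((Iic T).indicator fun _ => c) := by
      intro t s hts
      by_cases hs : s ∈ Iic T
      · rw [indicator_of_mem hs, indicator_of_mem (show t ∈ Iic T from hts.trans hs)]
      · rw [indicator_of_notMem hs]
        exact indicator_nonneg (fun _ _ => hc0) t
    obtain ⟨s3, -, -⟩ := rpa_real hfin hcnt hanti (fun t => indicator_nonneg (fun _ _ => hc0) t)
      (M := c) (fun t => indicator_le_self' (fun _ _ => hc0) t) (rpc_ind hfin T c)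
    refine (s3.add s2).of_nonneg_of_le (fun k => WW_nonneg p hrT.le _) fun k => ?_
    rcases le_or_gt (a k) T with h | h
    · rw [indicator_of_mem (show a k ∈ Iic T from h)]
      have := hc _ (ha k) h
      have := gg2_nonneg p hr hrT (a k)
      linarith
    · rw [indicator_of_notMem (show a k ∉ Iic T from not_le.2 h), gg2_far p hr hrT h.le,
        (WW_far p hr hrT h).1, zero_add]
  · rw [rpc_fub hfin h1 hker hr hrT]
    have e1 : ∫ t, PP p r T t ∂ν = ∫ t, gg1 p r T t ∂ν - ∫ t, gg2 p r T t ∂ν := by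
      rw [← integral_sub (rpc_gg1_int hfin h1 hker hr hrT) (rpc_gg2_int hfin h1 hker hr hrT)]
      refine integral_congr_ae ?_
      filter_upwards [rpc_ae h1] with t ht
      exact PP_dec p hr hrT ht.le
    have e2 : ∑' k, PP p r T (a k) = ∑' k, gg1 p r T (a k) - ∑' k, gg2 p r T (a k) := by
      rw [← s1.tsum_sub s2]
      exact tsum_congr hP
    rw [e1, e2]
    linarith

end fub

end Helper25.Ind
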