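import Pool.Agent.Helper25.Ind2.RPiLd

/-!
# IND2 R4e: modulus of continuity of the potential at the angle `π`, second part
-/

open Filter Topology MeasureTheory Set

namespace Helper25.Ind

private lemma rpe_bb (ρ : ℝ) : bb ρ Real.pi = 1 := by
  unfold bb
  rw [Real.cos_nat_mul_pi, ← mul_pow]
  norm_num

private lemma rpe_aa (ρ : ℝ) : aa ρ Real.pi = -1 := by
  unfold aa
  have h : ((⌊ρ⌋₊ : ℝ) + 1) * Real.pi = ((⌊ρ⌋₊ + 1 : ℕ) : ℝ) * Real.pi := by push_cast; ring
  rw [h, Real.cos_nat_mul_pi, pow_succ, ← mul_assoc, ← mul_pow]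
  norm_num

/-- bound of the kernel and of its derivative far from the origin -/
lemma rpe_der {ρ : ℝ} (hρ : 0 < ρ) {κ : ℝ} (h1 : κ < km ρ) (h2 : κ ≤ kp ρ) :
    ∃ C, 0 ≤ C ∧ ∀ v : ℝ, 1 ≤ |v| → ∃ D : ℝ, HasDerivAt (kk ρ Real.pi) D v ∧
      |D| ≤ C * Real.exp (-(κ * |v|)) := by
  obtain ⟨C₁, hC₁, H₁⟩ := abs_kk_le_far ρ one_pos
  obtain ⟨C₃, hC₃, H₃⟩ := ph_le_pos ρ h1
  have hπ : Real.pi ∈ Icc (0 : ℝ) Real.pi := ⟨Real.pi_pos.le, le_rfl⟩
  have hp0 : (0 : ℝ) < (⌊ρ⌋₊ : ℝ) + 1 := by positivity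
  refine ⟨ρ * (C₁ * (1 + C₃)) + 2, by positivity, fun v hv => ?_⟩
  have hv0 : v ≠ 0 := by
    rintro rfl
    rw [abs_zero] at hv
    linarith
  have hK := hasDerivAt_KK ρ hπ (s := v) (Or.inr hv0)
  have hE : HasDerivAt (fun s : ℝ => Real.exp (-(ρ * s))) (Real.exp (-(ρ * v)) * (-ρ)) v := by
    have h3 : HasDerivAt (fun s : ℝ => -(ρ * s)) (-ρ) v := by
      simpa using (hasDerivAt_id v).const_mul (-ρ)
    exact h3.exp
  have hd := hE.mul hK
  have hfun : (fun s : ℝ => Real.exp (-(ρ * s))) * KK ρ Real.pi = kk ρ Real.pi := by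
    funext s
    rw [kk_eq_KK]
    rfl
  rw [hfun] at hd
  refine ⟨_, hd, ?_⟩
  have hph : ph ρ v ≤ (1 + C₃) * Real.exp (-(κ * |v|)) := by
    rcases le_total 0 v with h | h
    · rw [abs_of_nonneg h]
      have h3 := H₃ v h
      have h4 := Real.exp_pos (-(κ * v))
      nlinarith
    · rw [abs_of_nonpos h]
      have h3 := ph_le_exp ρ v
      have h4 : Real.exp (kp ρ * v) / ((⌊ρ⌋₊ : ℝ) + 1) ≤ Real.exp (kp ρ * v) := by
        refine div_le_self (Real.exp_pos _).le ?_
        have : (0 : ℝ) ≤ (⌊ρ⌋₊ : ℝ) := Nat.cast_nonneg _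
        linarith
      have h5 : Real.exp (kp ρ * v) ≤ Real.exp (-(κ * -v)) := by
        refine Real.exp_le_exp.2 ?_
        nlinarith
      have h6 := Real.exp_pos (-(κ * -v))
      nlinarith
  have hk : |kk ρ Real.pi v| ≤ C₁ * (1 + C₃) * Real.exp (-(κ * |v|)) := by
    refine (H₁ Real.pi hπ v hv).trans ?_
    rw [mul_assoc]
    exact mul_le_mul_of_nonneg_left hph hC₁.le
  have e1 : Real.exp (-(ρ * v)) * -ρ * KK ρ Real.pi v = -(ρ * kk ρ Real.pi v) := by
    rw [kk_eq_KK]
    ring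
  rw [e1]
  refine (abs_add_le _ _).trans ?_
  rw [add_mul (ρ * (C₁ * (1 + C₃))) 2]
  refine add_le_add ?_ ?_
  · rw [abs_neg, abs_mul, abs_of_pos hρ, mul_assoc]
    exact mul_le_mul_of_nonneg_left hk hρ.le
  · rw [rpe_aa, rpe_bb]
    have e2 : ‖(1 : ℂ) + (Real.exp v : ℂ) * Complex.exp (Real.pi * Complex.I)‖ =
        |1 - Real.exp v| := by
      rw [Complex.exp_pi_mul_I, mul_neg_one]
      have : (1 : ℂ) + -(Real.exp v : ℂ) = ((1 - Real.exp v : ℝ) : ℂ) := by push_cast; ring
      rw [this, Complex.norm_real, Real.norm_eq_abs]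
    rw [e2, sq_abs]
    have hne : 1 - Real.exp v ≠ 0 := by
      intro h
      exact hv0 ((Real.exp_eq_one_iff v).1 (by linarith))
    have e3 : Real.exp (-(ρ * v)) * (Real.exp (((⌊ρ⌋₊ : ℝ) + 1) * v) *
        (-1 + 1 * Real.exp v) / (1 - Real.exp v) ^ 2) =
        -(Real.exp (kp ρ * v) / (1 - Real.exp v)) := by
      have h3 : Real.exp (kp ρ * v) = Real.exp (-(ρ * v)) * Real.exp (((⌊ρ⌋₊ : ℝ) + 1) * v) := by
        rw [← Real.exp_add]
        congr 1
        unfold kp
        ring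
      rw [h3]
      field_simp
      ring
    rw [e3, abs_neg, abs_div, abs_of_pos (Real.exp_pos _), div_le_iff₀ (abs_pos.2 hne)]
    rcases le_total 0 v with h | h
    · rw [abs_of_nonneg h] at hv ⊢
      have h3 : 2 ≤ Real.exp v := by
        have := Real.add_one_le_exp v
        linarith
      rw [abs_sub_comm, abs_of_nonneg (by linarith)]
      have h4 : Real.exp v / 2 ≤ Real.exp v - 1 := by linarith
      have h5 : Real.exp (kp ρ * v) ≤ Real.exp (-(κ * v)) * Real.exp v := by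
        rw [← Real.exp_add]
        refine Real.exp_le_exp.2 ?_
        have := kp_add_km ρ
        nlinarith
      have h6 := Real.exp_pos (-(κ * v))
      calc Real.exp (kp ρ * v) ≤ Real.exp (-(κ * v)) * Real.exp v := h5
        _ = 2 * Real.exp (-(κ * v)) * (Real.exp v / 2) := by ring
        _ ≤ 2 * Real.exp (-(κ * v)) * (Real.exp v - 1) :=
            mul_le_mul_of_nonneg_left h4 (by positivity)
    · rw [abs_of_nonpos h] at hv ⊢
      have h3 : Real.exp v ≤ 1 / 2 := by
        have h4 : Real.exp v ≤ Real.exp (-1) := Real.exp_le_exp.2 (by linarith)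
        have h5 : Real.exp (-1) ≤ 1 / 2 := by
          rw [Real.exp_neg, ← one_div]
          apply one_div_le_one_div_of_le (by norm_num)
          have := Real.add_one_le_exp (1 : ℝ)
          linarith
        linarith
      rw [abs_of_nonneg (by linarith)]
      have h5 : Real.exp (kp ρ * v) ≤ Real.exp (-(κ * -v)) := by
        refine Real.exp_le_exp.2 ?_
        nlinarith
      have h6 := Real.exp_pos (-(κ * -v))
      nlinarith

lemma rpe_far {ρ : ℝ} (hρ : 0 < ρ) {κ : ℝ} (h0 : 0 ≤ κ) (h1 : κ < km ρ) (h2 : κ ≤ kp ρ) :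
    ∃ C, 0 ≤ C ∧ ∀ s h : ℝ, 2 ≤ |s| → 0 ≤ h → h ≤ 1 →
      |kk ρ Real.pi (s + h) - kk ρ Real.pi s| ≤ C * h * Real.exp (-(κ * |s|)) := by
  obtain ⟨C, hC, H⟩ := rpe_der hρ h1 h2
  refine ⟨C * Real.exp κ, by positivity, fun s h hs hh0 hh1 => ?_⟩
  have hseg : ∀ v ∈ Icc s (s + h), |s| - 1 ≤ |v| := by
    intro v hv
    have h3 : |s| ≤ |v| + |s - v| := by
      have := abs_add_le v (s - v)
      rwa [add_sub_cancel] at this
    have h4 : |s - v| ≤ 1 := by
      rw [abs_le]
      constructor <;> linarith [hv.1, hv.2]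
    linarith
  have h3 : ∀ v ∈ Icc s (s + h), ∃ D : ℝ, HasDerivAt (kk ρ Real.pi) D v ∧
      |D| ≤ C * Real.exp κ * Real.exp (-(κ * |s|)) := by
    intro v hv
    obtain ⟨D, hD, hb⟩ := H v (by have := hseg v hv; linarith)
    refine ⟨D, hD, hb.trans ?_⟩
    rw [mul_assoc, ← Real.exp_add]
    refine mul_le_mul_of_nonneg_left (Real.exp_le_exp.2 ?_) hC
    have := mul_le_mul_of_nonneg_left (hseg v hv) h0
    linarith
  have h4 : ∀ v : ℝ, ∃ D : ℝ, v ∈ Icc s (s + h) → (HasDerivAt (kk ρ Real.pi) D v ∧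
      |D| ≤ C * Real.exp κ * Real.exp (-(κ * |s|))) := by
    intro v
    by_cases hv : v ∈ Icc s (s + h)
    · obtain ⟨D, hD⟩ := h3 v hv
      exact ⟨D, fun _ => hD⟩
    · exact ⟨0, fun h => absurd h hv⟩
  choose D hD using h4
  have h5 := (convex_Icc s (s + h)).norm_image_sub_le_of_norm_hasDerivWithin_le
    (f := kk ρ Real.pi) (f' := D) (C := C * Real.exp κ * Real.exp (-(κ * |s|)))
    (fun v hv => (hD v hv).1.hasDerivWithinAt) (fun v hv => (hD v hv).2)
    (left_mem_Icc.2 (by linarith)) (right_mem_Icc.2 (by linarith))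
  rw [Real.norm_eq_abs] at h5
  refine h5.trans (le_of_eq ?_)
  rw [Real.norm_eq_abs, add_sub_cancel_left, abs_of_nonneg hh0]
  ring

/-- integrable weight -/
noncomputable def rpw (v : ℝ) : ℝ := (Icc (-3 : ℝ) 3).indicator (fun v => (Real.sqrt |v|)⁻¹) v

lemma rpw_nonneg (v : ℝ) : 0 ≤ rpw v := indicator_nonneg (fun _ _ => by positivity) v

lemma rpw_eq {v : ℝ} (hv : |v| ≤ 3) : rpw v = (Real.sqrt |v|)⁻¹ := by
  unfold rpw
  rw [indicator_of_mem (show v ∈ Icc (-3 : ℝ) 3 from abs_le.1 hv)]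

lemma rpw_int : Integrable rpw := by
  unfold rpw
  rw [integrable_indicator_iff measurableSet_Icc]
  have h1 : IntervalIntegrable (fun x : ℝ => x ^ (-(1 / 2) : ℝ)) volume 0 3 :=
    intervalIntegral.intervalIntegrable_rpow' (by norm_num)
  have hr : ∀ x : ℝ, 0 ≤ x → x ^ (-(1 / 2) : ℝ) = (Real.sqrt |x|)⁻¹ := by
    intro x hx
    rw [abs_of_nonneg hx, Real.sqrt_eq_rpow, Real.rpow_neg hx]
  have h2 : IntervalIntegrable (fun x : ℝ => (Real.sqrt |x|)⁻¹) volume 0 3 := by
    refine h1.congr ?_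
    intro x hx
    rw [uIoc_of_le (by norm_num)] at hx
    exact hr x hx.1.le
  have h3 : IntervalIntegrable (fun x : ℝ => (Real.sqrt |x|)⁻¹) volume (-3) 0 := by
    have h4 := h2.comp_sub_left 0
    simp only [zero_sub, abs_neg, sub_zero] at h4
    exact h4.symm
  have h5 := h3.trans h2
  rw [intervalIntegrable_iff_integrableOn_Icc_of_le (by norm_num)] at h5
  exact h5

private lemma rpe_bd {N : ℝ → ℝ} (hN : DensOK N) (b : ℝ) : ∃ M : ℝ, 0 ≤ M ∧
    ∀ y, y ≤ b → |N y| ≤ M := by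
  obtain ⟨C, hC⟩ := hN.sup 1 one_pos
  refine ⟨Real.exp (|C| * Real.exp b), (Real.exp_pos _).le, fun y hy => ?_⟩
  rw [abs_of_nonneg (hN.nonneg y)]
  rcases le_or_gt 0 y with h | h
  · refine (hC y h).trans (Real.exp_le_exp.2 ?_)
    rw [one_mul]
    have h1 : Real.exp y ≤ Real.exp b := Real.exp_le_exp.2 hy
    have h2 : C * Real.exp y ≤ |C| * Real.exp y :=
      mul_le_mul_of_nonneg_right (le_abs_self C) (Real.exp_pos y).le
    have h3 : |C| * Real.exp y ≤ |C| * Real.exp b := mul_le_mul_of_nonneg_left h1 (abs_nonneg C)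
    linarith
  · rw [hN.zero y h.le]
    exact (Real.exp_pos _).le

private lemma rpe_loc {N : ℝ → ℝ} (hN : DensOK N) {f : ℝ → ℝ} (hf : Continuous f) (a b : ℝ) :
    IntegrableOn (fun y => f y * N y) (Icc a b) := by
  obtain ⟨M, hM, h⟩ := rpe_bd hN b
  have h1 : IntegrableOn N (Icc a b) := by
    refine Measure.integrableOn_of_bounded (M := M) (by simp) hN.meas.aestronglyMeasurable ?_
    filter_upwards [ae_restrict_mem measurableSet_Icc] with y hy
    rw [Real.norm_eq_abs]
    exact h y hy.2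
  exact h1.continuousOn_mul hf.continuousOn isCompact_Icc

private lemma rpe_ii {N : ℝ → ℝ} (hN : DensOK N) {f : ℝ → ℝ} (hf : Continuous f) {a b : ℝ}
    (hab : a ≤ b) : IntervalIntegrable (fun y => f y * N y) volume a b := by
  rw [intervalIntegrable_iff_integrableOn_Icc_of_le hab]
  exact rpe_loc hN hf a b

private lemma rpe_ii' {N : ℝ → ℝ} (hN : DensOK N) {a b : ℝ}
    (hab : a ≤ b) : IntervalIntegrable N volume a b := by
  have := rpe_ii hN (f := fun _ => 1) continuous_const hab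
  simpa using this

private lemma rpe_tail {N : ℝ → ℝ} (hN : DensOK N) {a : ℝ} (ha : 0 < a) :
    IntegrableOn (fun y => Real.exp (-(a * y)) * N y) (Ioi (0 : ℝ)) := by
  obtain ⟨C, hC⟩ := hN.mass (a / 2) (half_pos ha)
  have hec : Continuous (fun y : ℝ => Real.exp (-(a * y))) := by fun_prop
  have hr1 : Real.exp (-(a / 2)) < 1 := by
    rw [Real.exp_lt_one_iff]
    linarith
  have hr0 := Real.exp_pos (-(a / 2))
  have hC0 : 0 ≤ C := by
    have h1 := hC 0 le_rfl
    have h2 : 0 ≤ ∫ t in Icc (0 : ℝ) (0 + 1), N t := integral_nonneg fun t => hN.nonneg t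
    rw [mul_zero, Real.exp_zero, mul_one] at h1
    linarith
  have hstep : ∀ n : ℕ, ∫ y in (n : ℝ)..((n : ℝ) + 1), Real.exp (-(a * y)) * N y ≤
      C * Real.exp (-(a / 2)) ^ n := by
    intro n
    have hn : (0 : ℝ) ≤ n := Nat.cast_nonneg n
    have h1 : ∫ y in (n : ℝ)..((n : ℝ) + 1), Real.exp (-(a * y)) * N y ≤
        ∫ y in (n : ℝ)..((n : ℝ) + 1), Real.exp (-(a * n)) * N y := by
      refine intervalIntegral.integral_mono_on (by linarith) (rpe_ii hN hec (by linarith))
        ((rpe_ii' hN (by linarith)).const_mul _) ?_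
      intro y hy
      refine mul_le_mul_of_nonneg_right (Real.exp_le_exp.2 ?_) (hN.nonneg y)
      have := mul_le_mul_of_nonneg_left hy.1 ha.le
      linarith
    rw [intervalIntegral.integral_const_mul, intervalIntegral.integral_of_le (by linarith),
      intervalIntegral.integral_of_le (by linarith), ← integral_Icc_eq_integral_Ioc,
      ← integral_Icc_eq_integral_Ioc] at h1
    rw [intervalIntegral.integral_of_le (by linarith), ← integral_Icc_eq_integral_Ioc]
    refine h1.trans ?_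
    have h2 := mul_le_mul_of_nonneg_left (hC n hn) (Real.exp_pos (-(a * n))).le
    refine h2.trans (le_of_eq ?_)
    rw [← Real.exp_nat_mul, mul_left_comm, ← Real.exp_add]
    congr 2
    ring
  refine integrableOn_Ioi_of_intervalIntegral_norm_bounded (l := atTop)
    (b := fun n : ℕ => (n : ℝ)) (C / (1 - Real.exp (-(a / 2)))) 0 ?_
    tendsto_natCast_atTop_atTop ?_
  · intro n
    exact (rpe_loc hN hec 0 n).mono_set Ioc_subset_Icc_self
  · refine Eventually.of_forall fun n => ?_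
    have hnorm : ∀ y : ℝ, ‖Real.exp (-(a * y)) * N y‖ = Real.exp (-(a * y)) * N y := by
      intro y
      rw [Real.norm_eq_abs, abs_of_nonneg (mul_nonneg (Real.exp_pos _).le (hN.nonneg y))]
    simp only [hnorm]
    have key : ∀ n : ℕ, ∫ y in (0 : ℝ)..(n : ℝ), Real.exp (-(a * y)) * N y ≤
        C * (1 - Real.exp (-(a / 2)) ^ n) / (1 - Real.exp (-(a / 2))) := by
      intro n
      induction n with
      | zero => simp
      | succ n ih =>
        have hn : (0 : ℝ) ≤ n := Nat.cast_nonneg n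
        have h1 := intervalIntegral.integral_add_adjacent_intervals
          (rpe_ii hN hec hn) (rpe_ii hN hec (show (n : ℝ) ≤ (n : ℝ) + 1 by linarith))
        have h3 : 0 < 1 - Real.exp (-(a / 2)) := by linarith
        push_cast
        rw [← h1]
        refine (add_le_add ih (hstep n)).trans (le_of_eq ?_)
        field_simp
        ring
    refine (key n).trans ?_
    have h3 : 0 < 1 - Real.exp (-(a / 2)) := by linarith
    have h4 : 0 ≤ Real.exp (-(a / 2)) ^ n := by positivity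
    refine div_le_div_of_nonneg_right ?_ h3.le
    nlinarith

lemma rpe_tail_all {N : ℝ → ℝ} (hN : DensOK N) {a : ℝ} (ha : 0 < a) :
    Integrable (fun y => Real.exp (-(a * y)) * N y) := by
  have e : (fun y => Real.exp (-(a * y)) * N y) =
      (Ioi (0 : ℝ)).indicator (fun y => Real.exp (-(a * y)) * N y) := by
    funext y
    by_cases hy : y ∈ Ioi (0 : ℝ)
    · rw [indicator_of_mem hy]
    · rw [indicator_of_notMem hy, hN.zero y (not_lt.1 hy), mul_zero]
  rw [e, integrable_indicator_iff measurableSet_Ioi]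
  exact rpe_tail hN ha

/-- quantitative continuity of the potential -/
lemma rpe_U {ρ : ℝ} (hρ : 0 < ρ) (hint : ¬ ∃ n : ℕ, ρ = n) {N : ℝ → ℝ} (hN : DensOK N) :
    ∃ C κ, 0 ≤ C ∧ 0 < κ ∧ ∀ x h S : ℝ, 0 ≤ h → h ≤ 1 → (∀ y, y ≤ x + 2 → N y ≤ S) →
      |U ρ Real.pi N (x + h) - U ρ Real.pi N x| ≤
        C * (S * Real.sqrt h + h * Real.exp (κ * x)) := by
  have hkm := km_pos hρ hint
  have hkp := kp_pos hρ.le
  have hκ : 0 < min (km ρ) (kp ρ) / 2 := by
    have := lt_min hkm hkp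
    linarith
  set κ := min (km ρ) (kp ρ) / 2 with hκdef
  have h1 : κ < km ρ := by
    have := min_le_left (km ρ) (kp ρ)
    linarith
  have h2 : κ ≤ kp ρ := by
    have := min_le_right (km ρ) (kp ρ)
    linarith
  obtain ⟨C₁, hC₁, H₁⟩ := rpd_near ρ hρ
  obtain ⟨C₂, hC₂, H₂⟩ := rpe_far hρ hκ.le h1 h2
  have hπ : Real.pi ∈ Icc (0 : ℝ) Real.pi := ⟨Real.pi_pos.le, le_rfl⟩
  set K₀ := ∫ v, rpw v with hK₀
  set K := ∫ y, Real.exp (-(κ * y)) * N y with hK
  have hK₀0 : 0 ≤ K₀ := integral_nonneg rpw_nonneg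
  have hK0 : 0 ≤ K := integral_nonneg fun y => mul_nonneg (Real.exp_pos _).le (hN.nonneg y)
  refine ⟨C₁ * (4 + 2 * K₀) + C₂ * K, κ, by positivity, hκ, ?_⟩
  intro x h S hh0 hh1 hS
  have hS0 : 0 ≤ S := (hN.nonneg x).trans (hS x (by linarith))
  have hi1 := integrable_U hρ hint hπ hN (x + h)
  have hi2 := integrable_U hρ hint hπ hN x
  have e0 : U ρ Real.pi N (x + h) - U ρ Real.pi N x =
      ∫ y, (kk ρ Real.pi (x + h - y) * N y - kk ρ Real.pi (x - y) * N y) := by
    unfold U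
    rw [integral_sub hi1 hi2]
  set G : ℝ → ℝ := fun y => (S * C₁ * Real.sqrt h) * ((Icc (x - 2) (x + 2)).indicator 1 y +
    rpw (x - y) + rpw (x + h - y)) + (C₂ * h * Real.exp (κ * x)) *
    (Real.exp (-(κ * y)) * N y) with hG
  have hind : Integrable ((Icc (x - 2) (x + 2)).indicator (1 : ℝ → ℝ)) := by
    rw [integrable_indicator_iff measurableSet_Icc]
    exact integrableOn_const (by simp)
  have hw1 : Integrable (fun y => rpw (x - y)) := rpw_int.comp_sub_left x
  have hw2 : Integrable (fun y => rpw (x + h - y)) := rpw_int.comp_sub_left (x + h)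
  have hGi : Integrable G :=
    (((hind.add hw1).add hw2).const_mul _).add ((rpe_tail_all hN hκ).const_mul _)
  have hb : ∀ᵐ y : ℝ, ‖kk ρ Real.pi (x + h - y) * N y - kk ρ Real.pi (x - y) * N y‖ ≤ G y := by
    have a1 : ∀ᵐ y : ℝ, y ≠ x := by
      rw [ae_iff]
      simp
    have a2 : ∀ᵐ y : ℝ, y ≠ x + h := by
      rw [ae_iff]
      simp
    filter_upwards [a1, a2] with y hy1 hy2
    rw [← sub_mul, norm_mul, Real.norm_eq_abs, Real.norm_eq_abs, abs_of_nonneg (hN.nonneg y)]
    have e1 : x + h - y = (x - y) + h := by ring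
    rw [e1]
    have p1 : 0 ≤ (S * C₁ * Real.sqrt h) * ((Icc (x - 2) (x + 2)).indicator 1 y +
        rpw (x - y) + rpw (x + h - y)) := by
      refine mul_nonneg (by positivity) ?_
      have q1 : 0 ≤ (Icc (x - 2) (x + 2)).indicator (1 : ℝ → ℝ) y :=
        indicator_nonneg (fun _ _ => zero_le_one) y
      have q2 := rpw_nonneg (x - y)
      have q3 := rpw_nonneg (x + h - y)
      linarith
    have p2 : 0 ≤ (C₂ * h * Real.exp (κ * x)) * (Real.exp (-(κ * y)) * N y) :=
      mul_nonneg (by positivity) (mul_nonneg (Real.exp_pos _).le (hN.nonneg y))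
    rcases le_total |x - y| 2 with hn | hf
    · have hy' := abs_le.1 hn
      have q1 : (Icc (x - 2) (x + 2)).indicator (1 : ℝ → ℝ) y = 1 := by
        rw [indicator_of_mem (show y ∈ Icc (x - 2) (x + 2) from
          ⟨by linarith [hy'.2], by linarith [hy'.1]⟩)]
        rfl
      have q2 : rpw (x - y) = (Real.sqrt |x - y|)⁻¹ := rpw_eq (hn.trans (by norm_num))
      have q3 : rpw (x + h - y) = (Real.sqrt |x - y + h|)⁻¹ := by
        rw [e1]
        refine rpw_eq (abs_le.2 ⟨?_, ?_⟩) <;> linarith [hy'.1, hy'.2]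
      have q4 := H₁ (x - y) h hn hh0 hh1 (sub_ne_zero.2 (Ne.symm hy1))
        (fun h' => hy2 (by linarith))
      have q5 := hS y (by linarith [hy'.1])
      have q6 : |kk ρ Real.pi (x - y + h) - kk ρ Real.pi (x - y)| * N y ≤
          (C₁ * Real.sqrt h * (1 + (Real.sqrt |x - y|)⁻¹ + (Real.sqrt |x - y + h|)⁻¹)) * S :=
        mul_le_mul q4 q5 (hN.nonneg y) (by positivity)
      rw [hG]
      simp only
      rw [q1, q2, q3]
      refine q6.trans ?_
      have q7 : (C₁ * Real.sqrt h * (1 + (Real.sqrt |x - y|)⁻¹ + (Real.sqrt |x - y + h|)⁻¹)) * S =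
          (S * C₁ * Real.sqrt h) * (1 + (Real.sqrt |x - y|)⁻¹ + (Real.sqrt |x - y + h|)⁻¹) := by
        ring
      rw [q7]
      linarith
    · have q4 := H₂ (x - y) h hf hh0 hh1
      have q5 : Real.exp (-(κ * |x - y|)) ≤ Real.exp (κ * x) * Real.exp (-(κ * y)) := by
        rw [← Real.exp_add]
        refine Real.exp_le_exp.2 ?_
        have : -(x - y) ≤ |x - y| := neg_le_abs _
        nlinarith
      have q6 : |kk ρ Real.pi (x - y + h) - kk ρ Real.pi (x - y)| * N y ≤
          (C₂ * h * (Real.exp (κ * x) * Real.exp (-(κ * y)))) * N y := by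
        refine mul_le_mul_of_nonneg_right (q4.trans ?_) (hN.nonneg y)
        exact mul_le_mul_of_nonneg_left q5 (by positivity)
      refine q6.trans ?_
      rw [hG]
      simp only
      have q7 : (C₂ * h * (Real.exp (κ * x) * Real.exp (-(κ * y)))) * N y =
          (C₂ * h * Real.exp (κ * x)) * (Real.exp (-(κ * y)) * N y) := by ring
      rw [q7]
      linarith
  have hfin := norm_integral_le_of_norm_le hGi hb
  rw [e0]
  rw [Real.norm_eq_abs] at hfin
  refine hfin.trans ?_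
  have hGint : ∫ y, G y = (S * C₁ * Real.sqrt h) * (4 + K₀ + K₀) +
      (C₂ * h * Real.exp (κ * x)) * K := by
    rw [hG]
    have i1 : Integrable (fun y => (S * C₁ * Real.sqrt h) *
        ((Icc (x - 2) (x + 2)).indicator (1 : ℝ → ℝ) y + rpw (x - y) + rpw (x + h - y))) :=
      ((hind.add hw1).add hw2).const_mul _
    have i2 : Integrable (fun y => (C₂ * h * Real.exp (κ * x)) *
        (Real.exp (-(κ * y)) * N y)) := (rpe_tail_all hN hκ).const_mul _
    have i3 : Integrable (fun y => (Icc (x - 2) (x + 2)).indicator (1 : ℝ → ℝ) y +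
      rpw (x - y)) := hind.add hw1
    rw [integral_add i1 i2, integral_const_mul, integral_const_mul, integral_add i3 hw2,
      integral_add hind hw1, integral_sub_left_eq_self, integral_sub_left_eq_self,
      integral_indicator_one measurableSet_Icc]
    have : (volume : Measure ℝ).real (Icc (x - 2) (x + 2)) = 4 := by
      rw [Measure.real, Real.volume_Icc]
      rw [ENNReal.toReal_ofReal (by linarith)]
      ring
    rw [this]
  rw [hGint]
  have r1 : 0 ≤ S * Real.sqrt h := by positivity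
  have r2 : 0 ≤ h * Real.exp (κ * x) := by positivity
  have r3 : 0 ≤ C₁ * (4 + 2 * K₀) := by positivity
  have r4 : 0 ≤ C₂ * K := by positivity
  nlinarith [mul_nonneg r3 r2, mul_nonneg r4 r1]

theorem rpe_modulus {ρ ε : ℝ} (hρ : 0 < ρ) (hint : ¬ ∃ n : ℕ, ρ = n) {N : ℝ → ℝ}
    (hN : DensOK N) (hε : 0 < ε) : ∀ δ > 0, ∃ x₀ : ℝ, ∀ x, x₀ ≤ x → ∀ h, 0 ≤ h →
      h ≤ Real.exp (-Real.exp (ε * x)) → |U ρ Real.pi N (x + h) - U ρ Real.pi N x| ≤ δ := by
  intro δ hδ
  obtain ⟨C, κ, hC, hκ, H⟩ := rpe_U hρ hint hN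
  obtain ⟨C₁, hC₁⟩ := hN.sup (ε / 2) (half_pos hε)
  set B : ℝ := |C₁| * Real.exp ε + 2 * κ / ε with hB
  have hB1 : |C₁| * Real.exp ε ≤ B := by
    have : 0 ≤ 2 * κ / ε := by positivity
    linarith
  have hB2 : 2 * κ / ε ≤ B := by
    have : 0 ≤ |C₁| * Real.exp ε := by positivity
    linarith
  -- the limit
  have hv : Tendsto (fun x : ℝ => Real.exp (ε / 2 * x)) atTop atTop :=
    Real.tendsto_exp_atTop.comp (tendsto_id.const_mul_atTop (half_pos hε))
  have hlim0 : Tendsto (fun v : ℝ => v * (B - v / 2)) atTop atBot := by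
    refine tendsto_id.atTop_mul_atBot₀ ?_
    have h1 : Tendsto (fun v : ℝ => -(v / 2)) atTop atBot :=
      tendsto_neg_atTop_atBot.comp (tendsto_id.atTop_div_const (by norm_num))
    have h2 := tendsto_atBot_add_const_left atTop B h1
    refine h2.congr fun v => ?_
    ring
  have hlim : Tendsto (fun x : ℝ => C * (2 * Real.exp (Real.exp (ε / 2 * x) *
      (B - Real.exp (ε / 2 * x) / 2)))) atTop (𝓝 0) := by
    have h1 := (Real.tendsto_exp_atBot.comp (hlim0.comp hv)).const_mul 2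
    have h2 := h1.const_mul C
    simpa using h2
  obtain ⟨x₁, hx₁⟩ := eventually_atTop.1 (hlim.eventually (gt_mem_nhds hδ))
  refine ⟨max x₁ 0, fun x hx h hh0 hh => ?_⟩
  have hx0 : 0 ≤ x := (le_max_right _ _).trans hx
  have hx1 := hx₁ x ((le_max_left _ _).trans hx)
  refine le_trans ?_ hx1.le
  set v := Real.exp (ε / 2 * x) with hvdef
  have hv0 : 0 < v := Real.exp_pos _
  have hv2 : Real.exp (ε * x) = v ^ 2 := by
    rw [hvdef, ← Real.exp_nat_mul]
    congr 1
    push_cast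
    ring
  rw [hv2] at hh
  have hh1 : h ≤ 1 := hh.trans (Real.exp_le_one_iff.2 (by nlinarith))
  have hS : ∀ y, y ≤ x + 2 → N y ≤ Real.exp (B * v) := by
    intro y hy
    rcases le_or_gt 0 y with h0 | h0
    · refine (hC₁ y h0).trans (Real.exp_le_exp.2 ?_)
      have h1 : Real.exp (ε / 2 * y) ≤ Real.exp ε * v := by
        rw [hvdef, ← Real.exp_add]
        refine Real.exp_le_exp.2 ?_
        nlinarith
      calc C₁ * Real.exp (ε / 2 * y) ≤ |C₁| * Real.exp (ε / 2 * y) :=
            mul_le_mul_of_nonneg_right (le_abs_self _) (Real.exp_pos _).le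
        _ ≤ |C₁| * (Real.exp ε * v) := mul_le_mul_of_nonneg_left h1 (abs_nonneg _)
        _ = (|C₁| * Real.exp ε) * v := by ring
        _ ≤ B * v := mul_le_mul_of_nonneg_right hB1 hv0.le
    · rw [hN.zero y h0.le]
      exact (Real.exp_pos _).le
  have h3 := H x h (Real.exp (B * v)) hh0 hh1 hS
  refine h3.trans (mul_le_mul_of_nonneg_left ?_ hC)
  have h4 : Real.exp (B * v) * Real.sqrt h ≤ Real.exp (v * (B - v / 2)) := by
    have h5 : Real.sqrt h ≤ Real.exp (-(v ^ 2 / 2)) := by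
      refine (Real.sqrt_le_sqrt hh).trans (le_of_eq ?_)
      rw [Real.sqrt_eq_iff_mul_self_eq (Real.exp_pos _).le (Real.exp_pos _).le, ← Real.exp_add]
      congr 1
      ring
    calc Real.exp (B * v) * Real.sqrt h ≤ Real.exp (B * v) * Real.exp (-(v ^ 2 / 2)) :=
          mul_le_mul_of_nonneg_left h5 (Real.exp_pos _).le
      _ = Real.exp (v * (B - v / 2)) := by
          rw [← Real.exp_add]
          congr 1
          ring
  have h5 : h * Real.exp (κ * x) ≤ Real.exp (v * (B - v / 2)) := by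
    have h6 : κ * x ≤ B * v := by
      have h7 : ε / 2 * x ≤ v := by
        have := Real.add_one_le_exp (ε / 2 * x)
        linarith
      have h8 : κ * x = 2 * κ / ε * (ε / 2 * x) := by
        field_simp
      rw [h8]
      calc 2 * κ / ε * (ε / 2 * x) ≤ 2 * κ / ε * v :=
            mul_le_mul_of_nonneg_left h7 (by positivity)
        _ ≤ B * v := mul_le_mul_of_nonneg_right hB2 hv0.le
    calc h * Real.exp (κ * x) ≤ Real.exp (-v ^ 2) * Real.exp (B * v) :=
          mul_le_mul hh (Real.exp_le_exp.2 h6) (Real.exp_pos _).le (Real.exp_pos _).le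
      _ = Real.exp (-v ^ 2 + B * v) := by rw [← Real.exp_add]
      _ ≤ Real.exp (v * (B - v / 2)) := by
          refine Real.exp_le_exp.2 ?_
          nlinarith
  linarith

end Helper25.Ind
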