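import Pool.Agent.Helper25.Ind2.RCore
import Pool.Agent.Helper25.Ind2.KDer
import Pool.Agent.Helper25.Ind2.RPiLc
import Pool.Agent.Helper25.Ind2.RPiLe

/-!
# IND2 R4: the angle `π`, lower bound

Notation as in `RPiU`: `ν = dens ρ N`, `φ_r(t) = ker p (-r) t`, `F(t) = ν(Iic t)`, `n(t) = ⌊F t⌋`, `D = F - n ∈ [0,1)`, all zeros `≥ 1`, `ν` lives on `(1,∞)`.
Fix `0 < ε < ρ`, `ε' < ε`, and `η = η(r) = exp(-r^ε)`. Averages `ψ(t) = (1/η) ∫_r^{r+η} φ_{r'}(t) dr'`.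
(1) `avg_disc`: `∑' ψ(a_k) ≥ ∫ ψ dν - C (1 + r^p + log(1/η) + log r)` for `r ≥ 2`. PROOF: `ψ` is continuous on `[1,∞)` and of bounded variation, tends to `0` at `∞`; by layer cake `∑ ψ(a_k) - ∫ ψ dν = ∫_1^∞ D(t) dψ(t) ≥ -Var_{[1,∞)}(ψ)` (`ψ` is absolutely continuous: `ψ' = (1/η)∫ ∂_t φ_{r'}(t) dr'` in the
    principal value sense; to avoid it: `ψ` is a difference of monotone functions on the three pieces `[1,r]`, `[r,r+η]`, `[r+η,∞)`: decreasing on `[1,r]` (average of decreasing functions), increasing on `[r+η,∞)`, and on `[r,r+η]` it is `log`-part + smooth part: the average of `log|1 - r'/t|` over `r'` equals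
    `(1/η)[G(t-r)+G(r+η-t)] - log t`, `G(x) = x log x - x`, first decreasing (`t < r+η/2`?) -- symmetric and concave in `t`... `G(x)+G(η-x)` is convex in `x`, between `2G(η/2)` and `G(η)`, variation `≤ 2 η log 2`, divided by `η`: `≤ 2 log 2`); the smooth part has variation `≤ C` on `[r,r+η]`. Sizes: `|ψ(1)| ≤ C(r^p + log r)`,
    `ψ(r), ψ(r+η) ≥ -C - log(r/η) - 1`.) For a monotone piece `[c,d]`, `|∫_{(c,d]} ψ d(n-ν)| ≤ ` boundary terms `+ |ψ(d)-ψ(c)|`; adding the pieces the boundary terms are `≤ |ψ|` at `r`, `r+η`, which are of the same size. Any rigorous version of this argument with a bound `C(1 + r^p + log(1/η) + log r)` is fine.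
(2) `avg_exists`: the zeros are countable, `r' ↦ ∑' φ_{r'}(a_k)` is integrable on `[r,r+η]` and its average is `∑' ψ(a_k)` (Fubini: `∑ ∫ |φ_{r'}(a_k)| dr' < ∞`). So there is `r' ∈ [r,r+η]`, not a zero, with `log‖f(-r')‖ ≥ ∑' ψ(a_k)`.
(3) `∫ ψ dν = (1/η)∫_r^{r+η} (r')^ρ U ρ π N (log r') dr'` (`dens_ker`, Fubini), and `|U ρ π N x' - U ρ π N x| ≤ ω(x) → 0` for `0 ≤ x'-x ≤ η(e^x)` (`U_pi_modulus`): `|∫ (kk(x'-y) - kk(x-y)) N y dy|`: for `|y-x| ≤ 2`: `N ≤ exp(C e^{ε'(x+2)}) =: S` and `∫_{|s|≤3} |kk ρ π (s+h) - kk ρ π s| ds ≤ C h^{1/2}` (`kk ρ π s = e^{-ρs}(log|1-e^s| + smooth)`), `S h^{1/2} → 0`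
    because `h ≤ exp(-e^{ε x})`, `ε' < ε`. For `|y-x| ≥ 2`: `|kk(s+h) - kk(s)| ≤ C h e^{-κ|s|}` for `|s| ≥ 1` (derivative `kk' = -ρ kk + e^{-ρ s} KK'`, `hasDerivAt_KK`, bounded by `C ph`) and the masses `≤ C e^{ε'' y}`, `ε'' < κ`.
(4) `canon_pi_ge`: let `A < limsup U_π`. For arbitrarily large `x = log r`: `U_π(x) ≥ A`; then `log‖f(-r')‖ ≥ (1/η)∫ (r')^ρ (A - ω) dr' - C(1 + r^p + r^ε + log r)`, so `log‖f(-r')‖ (r')^{-ρ} ≥ A - o(1)` (`r'/r → 1`). Hence `indicatorOf ρ f π ≥ A`.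
-/

open Complex Filter Topology MeasureTheory Set

namespace Helper25.Ind

private lemma rpl_fin {ρ : ℝ} (hρ : 0 < ρ) {N : ℝ → ℝ} (hN : DensOK N) (t : ℝ) :
    dens ρ N (Iic t) < ⊤ := by
  obtain ⟨A, -, hA⟩ := dens_growth hρ (show ρ < ρ + 1 by linarith) hN
  rcases le_or_gt t 0 with h | h
  · have h1 : dens ρ N (Iic t) ≤ dens ρ N (Iic 0) := measure_mono (Iic_subset_Iic.2 h)
    rw [hA.1] at h1
    exact lt_of_le_of_lt h1 ENNReal.zero_lt_top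
  · exact lt_of_le_of_lt (hA.2 t h) ENNReal.ofReal_lt_top

private lemma rpl_neg {T : ℝ} (hT : 0 < T) :
    ((Real.exp (Real.log T) : ℝ) : ℂ) * Complex.exp (Real.pi * Complex.I) = -(T : ℂ) := by
  rw [Real.exp_log hT, Complex.exp_pi_mul_I]
  ring

private lemma rpl_ker {ρ : ℝ} (hρ : 0 < ρ) (hint : ¬ ∃ n : ℕ, ρ = n) {N : ℝ → ℝ}
    (hN : DensOK N) {T : ℝ} (hT : 0 < T) : Integrable (ker ⌊ρ⌋₊ (-(T : ℂ))) (dens ρ N) ∧
      ∫ t, ker ⌊ρ⌋₊ (-(T : ℂ)) t ∂(dens ρ N) = T ^ ρ * U ρ Real.pi N (Real.log T) := by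
  have h := dens_ker hρ hint (θ := Real.pi) ⟨Real.pi_pos.le, le_rfl⟩ hN (Real.log T)
  rw [rpl_neg hT] at h
  refine ⟨h.1, h.2.trans ?_⟩
  rw [mul_comm ρ, Real.exp_mul, Real.exp_log hT]

private lemma rpl_ii {ρ : ℝ} (hρ : 0 < ρ) (hint : ¬ ∃ n : ℕ, ρ = n) {N : ℝ → ℝ}
    (hN : DensOK N) {r η : ℝ} (hr : 2 ≤ r) (hη : 0 < η) :
    IntervalIntegrable (fun r' : ℝ => ∫ t, ker ⌊ρ⌋₊ (-(r' : ℂ)) t ∂(dens ρ N))
      volume r (r + η) := by
  have hrT : r < r + η := by linarith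
  rw [intervalIntegrable_iff_integrableOn_Ioc_of_le hrT.le]
  exact rpc_slice_int (p := ⌊ρ⌋₊) (ν := dens ρ N) (rpl_fin hρ hN)
    (dens_Iic_one ρ N) (fun T hT => (rpl_ker hρ hint hN hT).1) hr hrT

private lemma rpl_split {ρ : ℝ} (hρ : 0 < ρ) (hint : ¬ ∃ n : ℕ, ρ = n) {N : ℝ → ℝ}
    (hN : DensOK N) {r η : ℝ} (hr : 2 ≤ r) (hη : 0 < η) (K : ℝ) :
    η⁻¹ * ∫ r' in r..(r + η), ((∫ t, ker ⌊ρ⌋₊ (-(r' : ℂ)) t ∂(dens ρ N)) - K) =
      (η⁻¹ * ∫ r' in r..(r + η), (∫ t, ker ⌊ρ⌋₊ (-(r' : ℂ)) t ∂(dens ρ N))) - K := by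
  rw [intervalIntegral.integral_sub (rpl_ii hρ hint hN hr hη) intervalIntegrable_const,
    intervalIntegral.integral_const, smul_eq_mul, add_sub_cancel_left, mul_sub, ← mul_assoc η⁻¹ η,
    inv_mul_cancel₀ hη.ne', one_mul]

lemma avg_disc {ρ : ℝ} (hρ : 0 < ρ) (hint : ¬ ∃ n : ℕ, ρ = n) {N : ℝ → ℝ} (hN : DensOK N)
    {a : ℕ → ℝ} {f : ℂ → ℂ} (hf : CanonP ρ N a f) : ∃ C, ∀ r η : ℝ, 2 ≤ r → 0 < η → η ≤ 1 →
    (Summable fun k => ∫ r' in r..(r + η), ker ⌊ρ⌋₊ (-(r' : ℂ)) (a k)) ∧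
    η⁻¹ * ∫ r' in r..(r + η), (∫ t, ker ⌊ρ⌋₊ (-(r' : ℂ)) t ∂(dens ρ N)) -
        C * (1 + r ^ (⌊ρ⌋₊ : ℝ) + Real.log (1 / η) + Real.log r) ≤
      ∑' k, η⁻¹ * ∫ r' in r..(r + η), ker ⌊ρ⌋₊ (-(r' : ℂ)) (a k) := by
  refine ⟨4 + ⌊ρ⌋₊ * 2 ^ ⌊ρ⌋₊, fun r η hr hη hη1 => ?_⟩
  have hrT : r < r + η := by linarith
  obtain ⟨-, sP, hmain⟩ := rpc_main (p := ⌊ρ⌋₊) (ν := dens ρ N) (rpl_fin hρ hN)
    (dens_Iic_one ρ N) (fun T hT => (rpl_ker hρ hint hN hT).1) hr hrT hf.one_le hf.cnt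
  refine ⟨sP, ?_⟩
  rw [tsum_mul_left, rpl_split hρ hint hN hr hη]
  have h1 := gg1_one_le ⌊ρ⌋₊ hr hrT
  rw [add_sub_cancel_left] at h1
  have hη0 : 0 < η⁻¹ := inv_pos.2 hη
  have h2 := mul_le_mul_of_nonneg_left (hmain.trans (add_le_add le_rfl h1)) hη0.le
  rw [mul_add, ← mul_assoc η⁻¹ η, inv_mul_cancel₀ hη.ne', one_mul] at h2
  have h3 : 2 * Real.log (r + η) + Real.log (2 / η) + 1 + ⌊ρ⌋₊ * (r + η) ^ ⌊ρ⌋₊ ≤
      (4 + ⌊ρ⌋₊ * 2 ^ ⌊ρ⌋₊) * (1 + r ^ (⌊ρ⌋₊ : ℝ) + Real.log (1 / η) + Real.log r) := by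
    have hl2 : Real.log 2 ≤ 1 := by
      have := Real.log_le_sub_one_of_pos (show (0 : ℝ) < 2 by norm_num)
      linarith
    have hr0 : 0 < r := by linarith
    have hlr : 0 ≤ Real.log r := Real.log_nonneg (by linarith)
    have hle : 0 ≤ Real.log (1 / η) := Real.log_nonneg (by rw [le_div_iff₀ hη]; linarith)
    have g1 : Real.log (r + η) ≤ 1 + Real.log r := by
      have : Real.log (r + η) ≤ Real.log (2 * r) := Real.log_le_log (by linarith) (by linarith)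
      rw [Real.log_mul (by norm_num) hr0.ne'] at this
      linarith
    have g2 : Real.log (2 / η) ≤ 1 + Real.log (1 / η) := by
      rw [Real.log_div (by norm_num) hη.ne', Real.log_div one_ne_zero hη.ne', Real.log_one]
      linarith
    have g3 : (r + η) ^ ⌊ρ⌋₊ ≤ 2 ^ ⌊ρ⌋₊ * r ^ ⌊ρ⌋₊ := by
      rw [← mul_pow]
      exact pow_le_pow_left₀ (by linarith) (by linarith) _
    rw [Real.rpow_natCast]
    have g4 : (⌊ρ⌋₊ : ℝ) * (r + η) ^ ⌊ρ⌋₊ ≤ ⌊ρ⌋₊ * (2 ^ ⌊ρ⌋₊ * r ^ ⌊ρ⌋₊) :=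
      mul_le_mul_of_nonneg_left g3 (Nat.cast_nonneg _)
    have g5 : (0 : ℝ) ≤ r ^ ⌊ρ⌋₊ := by positivity
    have g6 : (0 : ℝ) ≤ ⌊ρ⌋₊ * 2 ^ ⌊ρ⌋₊ := by positivity
    have g7 : (4 + (⌊ρ⌋₊ : ℝ) * 2 ^ ⌊ρ⌋₊) * (1 + r ^ ⌊ρ⌋₊ + Real.log (1 / η) + Real.log r) =
        4 * (1 + r ^ ⌊ρ⌋₊ + Real.log (1 / η) + Real.log r) +
        (⌊ρ⌋₊ * 2 ^ ⌊ρ⌋₊) * (1 + Real.log (1 / η) + Real.log r) +
        ⌊ρ⌋₊ * (2 ^ ⌊ρ⌋₊ * r ^ ⌊ρ⌋₊) := by ring
    rw [g7]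
    have g8 : 0 ≤ ((⌊ρ⌋₊ : ℝ) * 2 ^ ⌊ρ⌋₊) * (1 + Real.log (1 / η) + Real.log r) :=
      mul_nonneg g6 (by linarith)
    linarith
  have h4 : η⁻¹ * ∑' k, PP ⌊ρ⌋₊ r (r + η) (a k) =
      η⁻¹ * ∑' k, ∫ r' in r..(r + η), ker ⌊ρ⌋₊ (-(r' : ℂ)) (a k) := rfl
  rw [h4] at h2
  linarith

lemma avg_exists {ρ : ℝ} (hρ : 0 < ρ) (hint : ¬ ∃ n : ℕ, ρ = n) {N : ℝ → ℝ} (hN : DensOK N)
    {a : ℕ → ℝ} {f : ℂ → ℂ} (hf : CanonP ρ N a f) {r η : ℝ} (hr : 2 ≤ r) (hη : 0 < η)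
    (hη1 : η ≤ 1) : ∃ r' ∈ Icc r (r + η), f (-(r' : ℂ)) ≠ 0 ∧
      ∑' k, η⁻¹ * ∫ r' in r..(r + η), ker ⌊ρ⌋₊ (-(r' : ℂ)) (a k) ≤ Real.log ‖f (-(r' : ℂ))‖ := by
  have hrT : r < r + η := by linarith
  obtain ⟨sW, sP, -⟩ := rpc_main (p := ⌊ρ⌋₊) (ν := dens ρ N) (rpl_fin hρ hN)
    (dens_Iic_one ρ N) (fun T hT => (rpl_ker hρ hint hN hT).1) hr hrT hf.one_le hf.cnt
  set T := r + η with hT
  set μ : Measure ℝ := volume.restrict (Ioc r T) with hμ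
  have hak : ∀ k, 0 < a k := fun k => lt_of_lt_of_le one_pos (hf.one_le k)
  have hFi : ∀ k, Integrable (fun x : ℝ => ker ⌊ρ⌋₊ (-(x : ℂ)) (a k)) μ := fun k =>
    (rpb_ker_ii ⌊ρ⌋₊ (hak k) r T).1
  have hFs : Summable fun k => ∫ x, ‖ker ⌊ρ⌋₊ (-(x : ℂ)) (a k)‖ ∂μ := by
    refine sW.congr fun k => ?_
    unfold WW
    rw [intervalIntegral.integral_of_le hrT.le]
    rfl
  have hsum := hasSum_integral_of_summable_integral_norm hFi hFs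
  -- zeros
  have hzero : volume {x : ℝ | f (-(x : ℂ)) = 0} = 0 := by
    have h1 : {x : ℝ | f (-(x : ℂ)) = 0} ⊆ range a := by
      intro x hx
      obtain ⟨k, hk⟩ := (hf.zero_iff _).1 hx
      refine ⟨k, ?_⟩
      have h2 : (x : ℂ) = (a k : ℂ) := neg_injective hk
      exact (Complex.ofReal_injective h2).symm
    exact measure_mono_null h1 ((countable_range a).measure_zero volume)
  have hcont : Continuous fun x : ℝ => f (-(x : ℂ)) :=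
    hf.diff.continuous.comp (Complex.continuous_ofReal.neg)
  have hmeas : Measurable fun x : ℝ => Real.log ‖f (-(x : ℂ))‖ :=
    Real.measurable_log.comp hcont.norm.measurable
  have hae : ∀ᵐ x : ℝ ∂μ, f (-(x : ℂ)) ≠ 0 := by
    refine ae_restrict_of_ae ?_
    rw [ae_iff]
    simpa using hzero
  have hlog : ∀ᵐ x : ℝ ∂μ, ∑' k, ker ⌊ρ⌋₊ (-(x : ℂ)) (a k) = Real.log ‖f (-(x : ℂ))‖ := by
    filter_upwards [hae] with x hx
    exact (hf.log _ hx).2.symm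
  have hint' : Integrable (fun x : ℝ => Real.log ‖f (-(x : ℂ))‖) μ := by
    refine ⟨hmeas.aestronglyMeasurable, ?_⟩
    have h1 : ∫⁻ x, ‖Real.log ‖f (-(x : ℂ))‖‖ₑ ∂μ ≤
        ∫⁻ x, ∑' k, ‖ker ⌊ρ⌋₊ (-(x : ℂ)) (a k)‖ₑ ∂μ := by
      refine lintegral_mono_ae ?_
      filter_upwards [hae, hlog] with x hx hl
      rw [← hl]
      exact enorm_tsum_le_tsum_enorm
    have h2 : ∫⁻ x, ∑' k, ‖ker ⌊ρ⌋₊ (-(x : ℂ)) (a k)‖ₑ ∂μ =
        ∑' k, ∫⁻ x, ‖ker ⌊ρ⌋₊ (-(x : ℂ)) (a k)‖ₑ ∂μ := by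
      refine lintegral_tsum fun k => ?_
      exact (hFi k).aestronglyMeasurable.enorm
    have h3 : ∀ k, ∫⁻ x, ‖ker ⌊ρ⌋₊ (-(x : ℂ)) (a k)‖ₑ ∂μ =
        ENNReal.ofReal (∫ x, ‖ker ⌊ρ⌋₊ (-(x : ℂ)) (a k)‖ ∂μ) := fun k =>
      (ofReal_integral_norm_eq_lintegral_enorm (hFi k)).symm
    have h4 : ∑' k, ∫⁻ x, ‖ker ⌊ρ⌋₊ (-(x : ℂ)) (a k)‖ₑ ∂μ =
        ENNReal.ofReal (∑' k, ∫ x, ‖ker ⌊ρ⌋₊ (-(x : ℂ)) (a k)‖ ∂μ) := by
      rw [ENNReal.ofReal_tsum_of_nonneg (fun k => integral_nonneg fun _ => norm_nonneg _) hFs]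
      exact tsum_congr h3
    exact (h1.trans (le_of_eq (h2.trans h4))).trans_lt ENNReal.ofReal_lt_top
  have hvol : μ.real univ = η := by
    rw [hμ, Measure.real, Measure.restrict_apply_univ, Real.volume_Ioc, hT, add_sub_cancel_left,
      ENNReal.toReal_ofReal hη.le]
  have hμ0 : μ ≠ 0 := by
    intro h
    rw [h] at hvol
    simp at hvol
    exact hη.ne hvol
  have hNnull : μ ({x : ℝ | f (-(x : ℂ)) = 0} ∪ (Ioc r T)ᶜ) = 0 := by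
    refine measure_union_null ?_ ?_
    · exact le_antisymm ((Measure.restrict_apply_le _ _).trans (le_of_eq hzero)) zero_le
    · rw [hμ, Measure.restrict_apply measurableSet_Ioc.compl, compl_inter_self, measure_empty]
  obtain ⟨x, hxN, hx⟩ := exists_notMem_null_average_le hμ0 hint' hNnull
  have hxN' : f (-(x : ℂ)) ≠ 0 ∧ x ∈ Ioc r T := by
    constructor
    · intro h
      exact hxN (Or.inl h)
    · by_contra h
      exact hxN (Or.inr h)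
  refine ⟨x, ⟨hxN'.2.1.le, hxN'.2.2⟩, hxN'.1, le_trans (le_of_eq ?_) hx⟩
  rw [average_eq, hvol, smul_eq_mul, tsum_mul_left]
  congr 1
  rw [← integral_congr_ae hlog, ← hsum.tsum_eq]
  refine tsum_congr fun k => ?_
  rw [intervalIntegral.integral_of_le hrT.le]

lemma U_pi_modulus {ρ ε : ℝ} (hρ : 0 < ρ) (hint : ¬ ∃ n : ℕ, ρ = n) {N : ℝ → ℝ} (hN : DensOK N)
    (hε : 0 < ε) : ∀ δ > 0, ∃ x₀ : ℝ, ∀ x, x₀ ≤ x → ∀ h, 0 ≤ h →
      h ≤ Real.exp (-Real.exp (ε * x)) → |U ρ Real.pi N (x + h) - U ρ Real.pi N x| ≤ δ :=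
  rpe_modulus hρ hint hN hε

private lemma rpl_small {ρ : ℝ} (hρ : 0 < ρ) (hint : ¬ ∃ n : ℕ, ρ = n) (C : ℝ) {τ : ℝ}
    (hτ : 0 < τ) : ∀ᶠ r : ℝ in atTop,
      C * (1 + r ^ (⌊ρ⌋₊ : ℝ) + r ^ (ρ / 2) + Real.log r) ≤ τ * r ^ ρ := by
  have hp : (⌊ρ⌋₊ : ℝ) < ρ := by
    refine lt_of_le_of_ne (Nat.floor_le hρ.le) fun h => hint ⟨⌊ρ⌋₊, h.symm⟩
  have h1 : Tendsto (fun r : ℝ => (1 + r ^ (⌊ρ⌋₊ : ℝ) + r ^ (ρ / 2) + Real.log r) / r ^ ρ)
      atTop (𝓝 0) := by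
    have a1 : Tendsto (fun r : ℝ => 1 / r ^ ρ) atTop (𝓝 0) := by
      have := tendsto_rpow_neg_atTop hρ
      refine this.congr' ?_
      filter_upwards [eventually_gt_atTop 0] with r hr
      rw [Real.rpow_neg hr.le, one_div]
    have a2 : Tendsto (fun r : ℝ => r ^ (⌊ρ⌋₊ : ℝ) / r ^ ρ) atTop (𝓝 0) := by
      have := tendsto_rpow_neg_atTop (sub_pos.2 hp)
      refine this.congr' ?_
      filter_upwards [eventually_gt_atTop 0] with r hr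
      rw [neg_sub, Real.rpow_sub hr]
    have a3 : Tendsto (fun r : ℝ => r ^ (ρ / 2) / r ^ ρ) atTop (𝓝 0) := by
      have := tendsto_rpow_neg_atTop (half_pos hρ)
      refine this.congr' ?_
      filter_upwards [eventually_gt_atTop 0] with r hr
      rw [← Real.rpow_sub hr]
      congr 1
      ring
    have a4 : Tendsto (fun r : ℝ => Real.log r / r ^ ρ) atTop (𝓝 0) :=
      (isLittleO_log_rpow_atTop hρ).tendsto_div_nhds_zero
    have h2 := ((a1.add a2).add a3).add a4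
    simp only [add_zero] at h2
    refine h2.congr fun r => ?_
    ring
  have h2 := h1.const_mul C
  rw [mul_zero] at h2
  filter_upwards [h2.eventually (gt_mem_nhds hτ), eventually_gt_atTop 0] with r hr hr0
  have h3 : 0 < r ^ ρ := Real.rpow_pos_of_pos hr0 ρ
  rw [← mul_div_assoc, div_lt_iff₀ h3] at hr
  exact hr.le

private lemma rpl_ratio {ρ : ℝ} {τ : ℝ} (hτ : 0 < τ) : ∀ᶠ r : ℝ in atTop,
    (r + 1) ^ ρ ≤ (1 + τ) * r ^ ρ := by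
  have h1 : Tendsto (fun r : ℝ => (1 + r⁻¹) ^ ρ) atTop (𝓝 1) := by
    have h2 : Tendsto (fun r : ℝ => 1 + r⁻¹) atTop (𝓝 1) := by
      have := tendsto_inv_atTop_zero (𝕜 := ℝ) |>.const_add 1
      simpa using this
    have h3 : ContinuousAt (fun x : ℝ => x ^ ρ) 1 :=
      Real.continuousAt_rpow_const _ _ (Or.inl one_ne_zero)
    have h4 : Tendsto (fun r : ℝ => (1 + r⁻¹) ^ ρ) atTop (𝓝 (1 ^ ρ)) := h3.tendsto.comp h2
    rwa [Real.one_rpow] at h4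
  filter_upwards [h1.eventually (gt_mem_nhds (show (1 : ℝ) < 1 + τ by linarith)),
    eventually_gt_atTop 0] with r hr hr0
  have h3 : r + 1 = (1 + r⁻¹) * r := by
    field_simp
  rw [h3, Real.mul_rpow (by positivity) hr0.le]
  exact mul_le_mul_of_nonneg_right hr.le (Real.rpow_pos_of_pos hr0 ρ).le

private lemma rpl_weight {B τ x y z : ℝ} (hxy : x ≤ y) (hxz : x ≤ z) (hy : y ≤ (1 + τ) * x)
    (hz : z ≤ (1 + τ) * x) : B * y - |B| * (τ * x) ≤ B * z ∧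
      B * z ≤ B * y + |B| * (τ * x) := by
  have h1 : |B * (z - y)| ≤ |B| * (τ * x) := by
    rw [abs_mul]
    refine mul_le_mul_of_nonneg_left ?_ (abs_nonneg _)
    rw [abs_le]
    constructor <;> linarith
  have h2 := abs_le.1 h1
  constructor <;> linarith [h2.1, h2.2]

theorem canon_pi_ge {ρ : ℝ} (hρ : 0 < ρ) (hint : ¬ ∃ n : ℕ, ρ = n) {N : ℝ → ℝ} (hN : DensOK N)
    {a : ℕ → ℝ} {f : ℂ → ℂ} (hf : CanonP ρ N a f) :
    limsup (fun x : ℝ => ((U ρ Real.pi N x : ℝ) : EReal)) atTop ≤ indicatorOf ρ f Real.pi := by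
  rw [← EReal.ge_of_forall_gt_iff_ge]
  intro A hA
  have hfreq : ∃ᶠ x : ℝ in atTop, (A : EReal) < ((U ρ Real.pi N x : ℝ) : EReal) :=
    frequently_lt_of_lt_limsup (by isBoundedDefault) hA
  refine le_indicatorOf_of_frequently fun ε hε => ?_
  obtain ⟨C, hC⟩ := avg_disc hρ hint hN hf
  -- parameters
  set B : ℝ := A - ε / 4 with hB
  set τ : ℝ := ε / (8 * (|B| + 1)) with hτdef
  have hB0 : 0 ≤ |B| := abs_nonneg _
  have hτ : 0 < τ := by positivity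
  have hBτ : |B| * τ ≤ ε / 8 := by
    rw [hτdef, mul_div_assoc', div_le_div_iff₀ (by positivity) (by norm_num)]
    nlinarith
  obtain ⟨x₀, hx₀⟩ := U_pi_modulus hρ hint hN (half_pos hρ) (ε / 4) (by positivity)
  obtain ⟨R₁, hR₁⟩ := eventually_atTop.1 (rpl_small hρ hint C (show 0 < ε / 8 by positivity))
  obtain ⟨R₂, hR₂⟩ := eventually_atTop.1 (rpl_ratio (ρ := ρ) hτ)
  rw [frequently_atTop]
  intro R
  obtain ⟨x, hx, hUx⟩ := (frequently_atTop.1 hfreq)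
    (max (max x₀ (Real.log 2)) (max (Real.log (max R₁ 1)) (max (Real.log (max R₂ 1))
      (Real.log (max R 1)))))
  have hUx' : A < U ρ Real.pi N x := by exact_mod_cast hUx
  set r := Real.exp x with hr
  have hr0 : 0 < r := Real.exp_pos x
  have hlogr : Real.log r = x := Real.log_exp x
  have hxx0 : x₀ ≤ x := ((le_max_left _ _).trans (le_max_left _ _)).trans hx
  have hge : ∀ c : ℝ, 0 < c → Real.log c ≤ x → c ≤ r := by
    intro c hc h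
    rw [← Real.exp_log hc]
    exact Real.exp_le_exp.2 h
  have hr2 : 2 ≤ r := hge 2 (by norm_num) (((le_max_right _ _).trans (le_max_left _ _)).trans hx)
  have hrR1 : R₁ ≤ r := (le_max_left _ _).trans (hge (max R₁ 1)
    (lt_of_lt_of_le one_pos (le_max_right _ _))
    (((le_max_left _ _).trans (le_max_right _ _)).trans hx))
  have hrR2 : R₂ ≤ r := (le_max_left _ _).trans (hge (max R₂ 1)
    (lt_of_lt_of_le one_pos (le_max_right _ _))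
    (((le_max_left _ _).trans ((le_max_right _ _).trans (le_max_right _ _))).trans hx))
  have hrR : R ≤ r := (le_max_left _ _).trans (hge (max R 1)
    (lt_of_lt_of_le one_pos (le_max_right _ _))
    (((le_max_right _ _).trans ((le_max_right _ _).trans (le_max_right _ _))).trans hx))
  set η : ℝ := Real.exp (-r ^ (ρ / 2)) with hη
  have hη0 : 0 < η := Real.exp_pos _
  have hη1 : η ≤ 1 := Real.exp_le_one_iff.2 (neg_nonpos.2 (Real.rpow_nonneg hr0.le _))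
  have hrT : r < r + η := by linarith
  obtain ⟨r', hr', hfr', hlog⟩ := avg_exists hρ hint hN hf hr2 hη0 hη1
  obtain ⟨-, hdisc⟩ := hC r η hr2 hη0 hη1
  have hlogη : Real.log (1 / η) = r ^ (ρ / 2) := by
    rw [one_div, Real.log_inv, hη, Real.log_exp, neg_neg]
  rw [hlogη, rpl_split hρ hint hN hr2 hη0] at hdisc
  have hsmall := hR₁ r hrR1
  have hratio := hR₂ r hrR2
  -- weights
  have hrp : 0 < r ^ ρ := Real.rpow_pos_of_pos hr0 ρ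
  have hw : ∀ y ∈ Icc r (r + η), r ^ ρ ≤ y ^ ρ ∧ y ^ ρ ≤ (1 + τ) * r ^ ρ := by
    intro y hy
    refine ⟨Real.rpow_le_rpow hr0.le hy.1 hρ.le, le_trans ?_ hratio⟩
    exact Real.rpow_le_rpow (hr0.le.trans hy.1) (by linarith [hy.2]) hρ.le
  -- lower bound of the potential
  have hU : ∀ y ∈ Icc r (r + η), B ≤ U ρ Real.pi N (Real.log y) := by
    intro y hy
    have hy0 : 0 < y := hr0.trans_le hy.1
    have h1 : x ≤ Real.log y := by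
      rw [← hlogr]
      exact Real.log_le_log hr0 hy.1
    have h2 : Real.log y - x ≤ Real.exp (-Real.exp (ρ / 2 * x)) := by
      have h3 : Real.exp (-Real.exp (ρ / 2 * x)) = η := by
        rw [hη, hr, ← Real.exp_mul, mul_comm x]
      rw [h3, ← hlogr, ← Real.log_div hy0.ne' hr0.ne']
      have h4 := Real.log_le_sub_one_of_pos (div_pos hy0 hr0)
      have h5 : y / r - 1 ≤ η := by
        rw [div_sub_one hr0.ne', div_le_iff₀ hr0]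
        nlinarith [hy.2]
      linarith
    have h3 := hx₀ x hxx0 (Real.log y - x) (by linarith) h2
    rw [add_sub_cancel] at h3
    have h4 := (abs_le.1 h3).1
    rw [hB]
    linarith
  have hker : ∀ y ∈ Icc r (r + η), B * r ^ ρ - |B| * (τ * r ^ ρ) ≤
      ∫ t, ker ⌊ρ⌋₊ (-(y : ℂ)) t ∂(dens ρ N) := by
    intro y hy
    have hy0 : 0 < y := hr0.trans_le hy.1
    rw [(rpl_ker hρ hint hN hy0).2]
    obtain ⟨w1, w2⟩ := hw y hy
    have h1 := (rpl_weight (B := B) (x := r ^ ρ) (y := r ^ ρ) (z := y ^ ρ) le_rfl w1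
      (by nlinarith) w2).1
    have h2 : B * y ^ ρ ≤ y ^ ρ * U ρ Real.pi N (Real.log y) := by
      rw [mul_comm]
      exact mul_le_mul_of_nonneg_left (hU y hy) (Real.rpow_pos_of_pos hy0 ρ).le
    linarith
  have hI : B * r ^ ρ - |B| * (τ * r ^ ρ) ≤
      η⁻¹ * ∫ r' in r..(r + η), (∫ t, ker ⌊ρ⌋₊ (-(r' : ℂ)) t ∂(dens ρ N)) := by
    have h1 := intervalIntegral.integral_mono_on hrT.le intervalIntegrable_const
      (rpl_ii hρ hint hN hr2 hη0) hker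
    rw [intervalIntegral.integral_const, smul_eq_mul, add_sub_cancel_left] at h1
    rw [inv_mul_eq_div, le_div_iff₀ hη0, mul_comm]
    exact h1
  refine ⟨r', hrR.trans hr'.1, ?_⟩
  have hr'0 : 0 < r' := hr0.trans_le hr'.1
  have hval : (r' : ℂ) * Complex.exp (Real.pi * Complex.I) = -(r' : ℂ) := by
    rw [Complex.exp_pi_mul_I]
    ring
  rw [hval, ← Real.le_log_iff_exp_le (norm_pos_iff.2 hfr')]
  refine le_trans ?_ hlog
  refine le_trans ?_ hdisc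
  obtain ⟨w1, w2⟩ := hw r' hr'
  have h1 := (rpl_weight (B := B) (x := r ^ ρ) (y := r ^ ρ) (z := r' ^ ρ) le_rfl w1
      (by nlinarith) w2).2
  have h2 : |B| * (τ * r ^ ρ) ≤ ε / 8 * r ^ ρ := by
    rw [← mul_assoc]
    exact mul_le_mul_of_nonneg_right hBτ hrp.le
  have h3 : (A - ε) * r' ^ ρ = B * r' ^ ρ - 3 * ε / 4 * r' ^ ρ := by
    rw [hB]
    ring
  have h4 : 3 * ε / 4 * r ^ ρ ≤ 3 * ε / 4 * r' ^ ρ :=
    mul_le_mul_of_nonneg_left w1 (by positivity)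
  rw [h3]
  have h5 : 0 < ε * r ^ ρ := mul_pos hε hrp
  linarith

end Helper25.Ind
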