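import Pool.Agent.Helper25.Ind2.RPiU
import Pool.Agent.Helper25.Ind2.RPiL

/-! # IND2 R5: realisation of densities (`exists_canon`, `canon_isN`, `canon_lt`, `canon_pi_le`, `canon_pi_ge`) -/

open Complex Filter Topology MeasureTheory Set

namespace Helper25.Ind

theorem realize {ρ : ℝ} (hρ : 0 < ρ) (hint : ¬ ∃ n : ℕ, ρ = n) {N : ℝ → ℝ} (hN : DensOK N) :
    ∃ f, IsN ρ f ∧ ∀ θ ∈ Icc (0 : ℝ) Real.pi,
      indicatorOf ρ f θ = limsup (fun x : ℝ => ((U ρ θ N x : ℝ) : EReal)) atTop := by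
  obtain ⟨a, f, hf⟩ := exists_canon hρ hint hN
  refine ⟨f, canon_isN hρ hint hN hf, fun θ hθ => ?_⟩
  rcases lt_or_eq_of_le hθ.2 with h | h
  · exact canon_lt hρ hint hN hf hθ.1 h
  · rw [h]
    exact le_antisymm (canon_pi_le hρ hint hN hf) (canon_pi_ge hρ hint hN hf)

end Helper25.Ind
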