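import Pool.Agent.Helper25.Ind2.Ident
import Pool.Agent.Helper25.Ind2.NAsm
import Pool.Agent.Helper25.Ind2.Real

/-! # IND2 I2: from a density with the right potentials on a `DSet` to the entire function -/

open Complex Filter Topology MeasureTheory Set

namespace Helper25.Ind

lemma neg_of_maj {ρ θ : ℝ} {h : ℝ → EReal} (hm : MajMeas ρ h)
    (hθ : θ ∈ Icc (0 : ℝ) Real.pi) (ha : aa ρ θ ≤ 0) (hb : bb ρ θ ≤ 0) : h θ ≤ 0 := by
  have h1 := hm 0 (fun _ => 0) (fun _ => 0) θ (fun j => j.elim0) (fun j => j.elim0) hθ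
    (fun j => j.elim0) (by
      refine Filter.Eventually.of_forall fun s => ?_
      simpa using (pattern_neg ρ hθ ha hb s).le)
  simpa using h1

lemma InfCond.wk {ρ : ℝ} {h : ℝ → EReal} (hh : InfCond ρ h) : Wk ρ h where
  per := hh.per
  even := hh.even
  off := hh.off
  neg := fun _ hθ ha hb => neg_of_maj hh.maj hθ ha hb
  trig := hh.trig

lemma exists_sg_pos {ρ : ℝ} (hρ : 0 < ρ) : ∃ a b : ℝ, 0 ≤ a ∧ a < b ∧
    b ≤ Real.pi ∧ ∀ θ, a < θ → θ < b → 0 < sg ρ θ := by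
  have hpi := Real.pi_pos
  rcases Nat.even_or_odd ⌊ρ⌋₊ with hp | hp
  · refine ⟨0, min Real.pi (Real.pi / (2 * ρ)), le_rfl, by positivity, min_le_left _ _, ?_⟩
    intro θ h0 h1
    have h2 : θ < Real.pi / (2 * ρ) := lt_of_lt_of_le h1 (min_le_right _ _)
    rw [lt_div_iff₀ (by positivity)] at h2
    simp only [sg, hp.neg_one_pow, one_mul]
    exact Real.cos_pos_of_mem_Ioo ⟨by nlinarith [mul_pos hρ h0], by linarith⟩
  · have hρ1 : 1 ≤ ρ := by
      have : ⌊ρ⌋₊ ≠ 0 := fun h => by simp [h] at hp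
      exact (Nat.one_le_floor_iff ρ).1 (Nat.one_le_iff_ne_zero.2 this)
    refine ⟨Real.pi / (2 * ρ), Real.pi / ρ, by positivity, ?_, ?_, ?_⟩
    · exact div_lt_div_of_pos_left hpi hρ (by linarith)
    · exact div_le_self hpi.le hρ1
    · intro θ h0 h1
      rw [div_lt_iff₀ (by positivity)] at h0
      rw [lt_div_iff₀ hρ] at h1
      simp only [sg, hp.neg_one_pow]
      have : Real.cos (ρ * θ) < 0 :=
        Real.cos_neg_of_pi_div_two_lt_of_lt (by linarith) (by linarith)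
      linarith

theorem wk_of_isN {ρ : ℝ} (hρ : 0 < ρ) (hint : ¬ ∃ n : ℕ, ρ = n) {f : ℂ → ℂ} (hf : IsN ρ f)
    (htop : ∃ θ, indicatorOf ρ f θ = ⊤) : Wk ρ (indicatorOf ρ f) where
  per := fun θ => indicatorOf_add_two_pi ρ θ f
  even := fun θ => even_of_indicator hρ hint hf θ
  off := fun _ hθ hs => nec_off hρ hint hf htop hθ hs
  neg := fun _ hθ ha hb => neg_of_maj (nec_maj hρ hint hf fun _ => rfl) hθ ha hb
  trig := nec_trig hρ hf fun _ => rfl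

theorem finish {ρ : ℝ} (hρ : 0 < ρ) (hint : ¬ ∃ n : ℕ, ρ = n) {h : ℝ → EReal} (hh : Wk ρ h)
    {D : Set ℝ} (hD : DSet ρ h D) {N : ℝ → ℝ} (hN : DensOK N)
    (hlim : ∀ θ ∈ D, limsup (fun x : ℝ => ((U ρ θ N x : ℝ) : EReal)) atTop = h θ) :
    ∃ f, IsN ρ f ∧ ∀ θ, indicatorOf ρ f θ = h θ := by
  obtain ⟨f, hf, hfe⟩ := realize hρ hint hN
  have hfD : ∀ θ ∈ D, indicatorOf ρ f θ = h θ := fun θ hθ =>
    (hfe θ (hD.sub hθ)).trans (hlim θ hθ)
  have htop : ∃ θ, indicatorOf ρ f θ = ⊤ := by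
    obtain ⟨a, b, h0, h1, h2, h3⟩ := exists_sg_pos hρ
    obtain ⟨d, hd, h4, h5⟩ := hD.dense a b h0 h1 h2
    exact ⟨d, (hfD d hd).trans (hh.off d (hD.sub hd) (h3 d h4 h5))⟩
  exact ⟨f, hf, hD.ident _ (wk_of_isN hρ hint hf htop) hfD⟩

end Helper25.Ind
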