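import Pool.Agent.Helper25.Ind2.KDer

/-!
# IND2 I1: identification of an indicator from its values on a countable set

PROOFS. `p = ⌊ρ⌋₊`.
* `arc_pt`: let `m` be an integer with `m ≡ p + 1 mod 2` and `|ρθ - mπ| ≤ π` (the nearest one of this parity). `cos ρθ = (-1)^m cos(ρθ - mπ)`, so `sg ρ θ ≤ 0` gives `cos(ρθ - mπ) ≥ 0`, hence `|ρθ - mπ| ≤ π/2`. So `m ≥ 0` (`ρθ ≥ 0`) and `mπ ≤ ρπ + π/2`, `m < p + 3/2`, `m ≤ p + 1`.
  `m = p + 1`: `2ρ(π-θ) ≤ 2ρπ - 2(mπ - π/2) = 2π(ρ - p - 1) + π < π`: second alternative. `m = 0`: `σ = 0` (`p` odd, `aa = bb = -1`, `ρθ ≤ π/2 < π`). Otherwise `1 ≤ m ≤ p - 1`; `σ = (m - 1/2)π/p ∈ [0,π]`: `cos(pσ) = cos((m-1/2)π) = 0`, `bb = 0`;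
  `(p+1)σ = (m-1/2)π + δ`, `δ = (m-1/2)π/p ∈ (0,π)`, `cos((p+1)σ) = -sin((m-1/2)π) sin δ = (-1)^m sin δ`, `aa = (-1)^{p+m} sin δ = -sin δ ≤ 0`. `ρσ = (m-1/2)π ρ/p`, `(m-1/2)π < ρσ` and `ρσ - (m-1/2)π = (m-1/2)π(ρ-p)/p < π`; as `ρθ ∈ [(m-1/2)π,(m+1/2)π]`, `|ρθ - ρσ| < π`.
* `trig_eq`: (i) if `h θ₀ = ⊥` for some `θ₀ ∈ (a,b)`, then `h = ⊥` on `(a,b)`: for `θ ∈ (θ₀,b)` take `θ₂ ∈ (θ,b)`, `h θ₂ ≤ A₂` real, `h θ₀ ≤ A₁` for all real `A₁`, the coefficient of `A₁` is positive. Same on the left. Then `g = ⊥` at a point of the dense set, so `g = ⊥` on `(a,b)`.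
  (ii) otherwise both are real on `(a,b)`. `g` is upper semicontinuous at `θ`: for `x ∈ (θ, θ₂)`, `g x ≤ (g θ sin ρ(θ₂-x) + g θ₂ sin ρ(x-θ))/sin ρ(θ₂-θ)` which tends to `g θ` as `x → θ+`; same on the left. Given `ε`, choose `d₁ < θ < d₂` in the dense set, close to `θ`, with `g d_i ≤ g θ + ε`:
  `h θ ≤ w₁ h d₁ + w₂ h d₂ = w₁ g d₁ + w₂ g d₂ ≤ (w₁+w₂)(g θ + ε)`, `w₁ + w₂ = (sin ρ(d₂-θ) + sin ρ(θ-d₁))/sin ρ(d₂-d₁) → 1` as `d_i → θ`. So `h θ ≤ g θ`; symmetric.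
* `exists_dset`: `Σ = {σ ∈ [0,π] | cos(pσ) = 0 ∧ aa ≤ 0 ∧ bb ≤ 0} ∪ {0, π}` (finite if `p ≥ 1`; for `p = 0` it is `{0,π}`). `S = {θ ∈ [0,π] | h θ < ⊤}`. `α σ = sInf {θ | 0 ≤ θ ≤ σ, [θ,σ] ⊆ S}`, `β σ = sSup {θ | σ ≤ θ ≤ π, [σ,θ] ⊆ S}`.
  `D = (ℚ ∩ [0,π]) ∪ {θ ∈ [0,π] | cos ρθ = 0} ∪ Σ ∪ ((α '' Σ ∪ β '' Σ) ∩ [0,π])`. Let `g` be as in `ident`. By evenness and periodicity it is enough to treat `θ ∈ [0,π] \ D`. If `0 < sg ρ θ` both are `⊤` (`off`). Otherwise `arc_pt`.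
  Let `σ` be the point of the first alternative, or `σ = π` in the second alternative when `h π < ⊤`. So `σ ∈ Σ`, `h σ < ⊤`, `g σ = h σ < ⊤` (by `neg` in the first case), `ρ|θ-σ| < π`. Suppose `σ < θ` (the case `θ < σ` is the mirror image).
  Fact: if `k ∈ {g,h}`, `k d < ⊤`, `σ < d`, `ρ(d-σ) < π`, then `k < ⊤` on `[σ,d]` (`trig`). If `h θ < ⊤`: then `[σ,θ] ⊆ S`, `θ ≤ β σ`, and `θ ≠ β σ` because `θ ∉ D`; so there is `θ' > θ`, `θ' ≤ π` with `[σ,θ'] ⊆ S`; choose a rational `d ∈ (θ, θ')` with `ρ(d-σ) < π`; `g d = h d < ⊤`, so both are `< ⊤` on `(σ,d)`;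
  `trig_eq` gives `g θ = h θ`. If `h θ = ⊤`: then `β σ ≤ θ`, `β σ < θ` as `θ ∉ D`. If `g θ < ⊤` then `g < ⊤` on `[σ,θ]`; take a rational `d ∈ (β σ, θ)`: `d ∉ S` (otherwise `[σ,d] ⊆ S`, `d ≤ β σ`), so `g d = h d = ⊤`, contradiction. So `g θ = ⊤ = h θ`.
  Remaining case: second alternative and `h π = ⊤ = g π`: `h θ < ⊤` would give `h(2π-θ) = h θ < ⊤` and by `trig` on `(θ, π, 2π-θ)` (`ρ(2π-2θ) < π`) `h π < ⊤`; same for `g`: both are `⊤` at `θ`.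
-/

open Complex Filter Topology MeasureTheory Set

namespace Helper25.Ind

/-- the conditions used for the identification -/
structure Wk (ρ : ℝ) (h : ℝ → EReal) : Prop where
  per : ∀ θ, h (θ + 2 * Real.pi) = h θ
  even : ∀ θ, h (-θ) = h θ
  off : ∀ θ ∈ Icc (0 : ℝ) Real.pi, 0 < sg ρ θ → h θ = ⊤
  neg : ∀ θ ∈ Icc (0 : ℝ) Real.pi, aa ρ θ ≤ 0 → bb ρ θ ≤ 0 → h θ ≤ 0
  trig : TrigConv ρ h

/-- a countable set on which `h` is determined -/
structure DSet (ρ : ℝ) (h : ℝ → EReal) (D : Set ℝ) : Prop where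
  cnt : D.Countable
  sub : D ⊆ Icc (0 : ℝ) Real.pi
  zero : ∀ θ ∈ Icc (0 : ℝ) Real.pi, Real.cos (ρ * θ) = 0 → θ ∈ D
  pi : Real.pi ∈ D
  dense : ∀ a b : ℝ, 0 ≤ a → a < b → b ≤ Real.pi → ∃ d ∈ D, a < d ∧ d < b
  ident : ∀ g : ℝ → EReal, Wk ρ g → (∀ θ ∈ D, g θ = h θ) → ∀ θ, g θ = h θ

private lemma arc_m {ρ θ : ℝ} (hs : sg ρ θ ≤ 0) :
    ∃ j : ℤ, |ρ * θ - ((⌊ρ⌋₊ : ℝ) + 1 + 2 * j) * Real.pi| ≤ Real.pi / 2 := by
  have hpi := Real.pi_pos
  obtain ⟨x, hx⟩ : ∃ x : ℝ, x = (ρ * θ / Real.pi - ((⌊ρ⌋₊ : ℝ) + 1)) / 2 := ⟨_, rfl⟩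
  have hr : |x - round x| ≤ 1 / 2 := abs_sub_round x
  refine ⟨round x, ?_⟩
  obtain ⟨y, hy⟩ : ∃ y : ℝ, y = ρ * θ - ((⌊ρ⌋₊ : ℝ) + 1 + 2 * (round x : ℝ)) * Real.pi := ⟨_, rfl⟩
  rw [← hy]
  have hy2 : y = 2 * (x - round x) * Real.pi := by
    rw [hy]
    have : ρ * θ = (2 * x + ((⌊ρ⌋₊ : ℝ) + 1)) * Real.pi := by
      rw [hx]; field_simp; ring
    rw [this]; ring
  have hyπ : |y| ≤ Real.pi := by
    rw [hy2, abs_mul, abs_mul, abs_of_pos hpi, abs_of_pos (two_pos : (0 : ℝ) < 2)]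
    nlinarith
  have hcos : 0 ≤ Real.cos y := by
    have e1 : y = ρ * θ - ((⌊ρ⌋₊ + 1 : ℕ) : ℝ) * Real.pi - (round x : ℤ) * (2 * Real.pi) := by
      rw [hy]; push_cast; ring
    rw [e1, Real.cos_sub_int_mul_two_pi, Real.cos_sub_nat_mul_pi, pow_succ]
    unfold sg at hs
    linarith
  by_contra hcon
  push Not at hcon
  have h1 : Real.cos |y| < 0 :=
    Real.cos_neg_of_pi_div_two_lt_of_lt hcon (by linarith)
  rw [Real.cos_abs] at h1
  linarith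

lemma arc_pt {ρ θ : ℝ} (hρ : 0 < ρ) (hint : ¬ ∃ n : ℕ, ρ = n) (hθ : θ ∈ Icc (0 : ℝ) Real.pi)
    (hs : sg ρ θ ≤ 0) :
    (∃ σ ∈ Icc (0 : ℝ) Real.pi, (Real.cos ((⌊ρ⌋₊ : ℝ) * σ) = 0 ∨ σ = 0) ∧ aa ρ σ ≤ 0 ∧
      bb ρ σ ≤ 0 ∧ ρ * |θ - σ| < Real.pi) ∨ 2 * ρ * (Real.pi - θ) < Real.pi := by
  have hpi := Real.pi_pos
  obtain ⟨j, hj⟩ := arc_m hs
  obtain ⟨p, hp⟩ : ∃ p : ℕ, p = ⌊ρ⌋₊ := ⟨_, rfl⟩
  have hp1 : (p : ℝ) ≤ ρ := by rw [hp]; exact Nat.floor_le hρ.le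
  have hp2 : ρ < p + 1 := by rw [hp]; exact Nat.lt_floor_add_one ρ
  have hp3 : (p : ℝ) < ρ := lt_of_le_of_ne hp1 (fun h => hint ⟨p, h.symm⟩)
  unfold aa bb
  rw [← hp] at hj ⊢
  obtain ⟨m, hm⟩ : ∃ m : ℤ, m = (p : ℤ) + 1 + 2 * j := ⟨_, rfl⟩
  have hmR : (m : ℝ) = (p : ℝ) + 1 + 2 * j := by rw [hm]; push_cast; ring
  rw [← hmR, abs_le] at hj
  have hρθ : 0 ≤ ρ * θ := mul_nonneg hρ.le hθ.1
  have hρθ2 : ρ * θ ≤ ρ * Real.pi := mul_le_mul_of_nonneg_left hθ.2 hρ.le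
  have hm0 : 0 ≤ m := by
    by_contra hneg
    have : m ≤ -1 := by omega
    have h2 : (m : ℝ) ≤ -1 := by exact_mod_cast this
    nlinarith [hj.2]
  have hmp : m ≤ p + 1 := by
    by_contra hneg
    have : (p : ℤ) + 2 ≤ m := by omega
    have h2 : (p : ℝ) + 2 ≤ (m : ℝ) := by exact_mod_cast this
    nlinarith [hj.1]
  by_cases hA : m = p + 1
  · right
    have h2 : (m : ℝ) = p + 1 := by rw [hA]; push_cast; ring
    rw [h2] at hj
    nlinarith [hj.1]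
  left
  by_cases hB : m = 0
  · refine ⟨0, ⟨le_rfl, hpi.le⟩, Or.inr rfl, ?_, ?_, ?_⟩
    · have hodd : Odd p := by
        rw [← Int.odd_coe_nat]
        exact ⟨-j - 1, by omega⟩
      rw [hodd.neg_one_pow, mul_zero, Real.cos_zero]
      norm_num
    · have hodd : Odd p := by
        rw [← Int.odd_coe_nat]
        exact ⟨-j - 1, by omega⟩
      rw [hodd.neg_one_pow, mul_zero, Real.cos_zero]
      norm_num
    · rw [sub_zero, abs_of_nonneg hθ.1]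
      rw [hB] at hj
      push_cast at hj
      linarith [hj.2]
  -- main case
  have hm1 : 1 ≤ m := by omega
  have hmp1 : m ≤ p - 1 := by omega
  have hm1R : (1 : ℝ) ≤ m := by exact_mod_cast hm1
  have hmpR : (m : ℝ) ≤ p - 1 := by exact_mod_cast hmp1
  have hp0 : (0 : ℝ) < p := by linarith
  obtain ⟨σ, hσ⟩ : ∃ σ : ℝ, σ = ((m : ℝ) - 1 / 2) * Real.pi / p := ⟨_, rfl⟩
  have hpσ : (p : ℝ) * σ = m * Real.pi - Real.pi / 2 := by rw [hσ]; field_simp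
  have hσ0 : 0 ≤ σ := by
    rw [hσ]
    apply div_nonneg (mul_nonneg (by linarith) hpi.le) hp0.le
  have hσπ : σ ≤ Real.pi := by
    rw [hσ, div_le_iff₀ hp0]
    nlinarith
  have hcos : Real.cos ((p : ℝ) * σ) = 0 := by
    rw [hpσ, Real.cos_sub, Real.cos_pi_div_two, Real.sin_pi_div_two, Real.sin_int_mul_pi]
    ring
  have hsin : Real.sin ((p : ℝ) * σ) = - Real.cos (m * Real.pi) := by
    rw [hpσ, Real.sin_sub, Real.cos_pi_div_two, Real.sin_pi_div_two]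
    ring
  have hcm : Real.cos (m * Real.pi) = - (-1) ^ p := by
    rw [Real.cos_int_mul_pi, hm, zpow_add₀ (by norm_num), zpow_add₀ (by norm_num), zpow_natCast,
      zpow_one, zpow_mul]
    simp
  have hsσ : 0 ≤ Real.sin σ := Real.sin_nonneg_of_nonneg_of_le_pi hσ0 hσπ
  refine ⟨σ, ⟨hσ0, hσπ⟩, Or.inl hcos, ?_, ?_, ?_⟩
  · rw [add_mul, one_mul, Real.cos_add, hcos, hsin, hcm]
    have : ((-1 : ℝ) ^ p) * (-1) ^ p = 1 := by
      rw [← mul_pow]; norm_num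
    nlinarith
  · rw [hcos]; simp
  · have h1 : ρ * |θ - σ| = |ρ * θ - ρ * σ| := by
      rw [← mul_sub, abs_mul, abs_of_pos hρ]
    rw [h1, abs_lt]
    have h2 : ρ * σ = (p : ℝ) * σ + (ρ - p) * σ := by ring
    have h3 : 0 < σ := by
      rw [hσ]
      apply div_pos (mul_pos (by linarith) hpi) hp0
    have h4 : 0 < (ρ - p) * σ := mul_pos (by linarith) h3
    have h5 : (ρ - p) * σ < Real.pi := by nlinarith
    rw [h2, hpσ]
    constructor <;> linarith [hj.1, hj.2]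

/-! ### trigonometrically convex functions -/

private lemma sin_posρ {ρ x : ℝ} (hρ : 0 < ρ) (h0 : 0 < x) (h1 : ρ * x < Real.pi) :
    0 < Real.sin (ρ * x) :=
  Real.sin_pos_of_pos_of_lt_pi (mul_pos hρ h0) h1

private lemma ereal_le_real {x : EReal} (h : x ≠ ⊤) : ∃ A : ℝ, x ≤ (A : EReal) := by
  induction x with
  | bot => exact ⟨0, bot_le⟩
  | top => exact absurd rfl h
  | coe a => exact ⟨a, le_rfl⟩

private lemma ereal_bot {x : EReal} (h : ∀ A : ℝ, x ≤ (A : EReal)) : x = ⊥ := by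
  induction x with
  | bot => rfl
  | top => exact absurd (h 0) (by simp)
  | coe a =>
    have := h (a - 1)
    rw [EReal.coe_le_coe_iff] at this
    linarith

private lemma trig_refl {ρ : ℝ} {h : ℝ → EReal} (hh : TrigConv ρ h) :
    TrigConv ρ (fun x => h (-x)) := by
  intro θ₁ θ θ₂ A₁ A₂ h1 h2 h3 h4 h5
  have := hh (-θ₂) (-θ) (-θ₁) A₂ A₁ (by linarith) (by linarith)
    (by rw [show ρ * (-θ₁ - -θ₂) = ρ * (θ₂ - θ₁) by ring]; exact h3) h5 h4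
  rw [show ρ * (-θ₁ - -θ) = ρ * (θ - θ₁) by ring, show ρ * (-θ - -θ₂) = ρ * (θ₂ - θ) by ring,
    show ρ * (-θ₁ - -θ₂) = ρ * (θ₂ - θ₁) by ring, add_comm] at this
  exact this

private lemma trig_ne_top {ρ : ℝ} {h : ℝ → EReal} (hh : TrigConv ρ h) {a x b : ℝ}
    (hx : x ∈ Icc a b) (hab : ρ * (b - a) < Real.pi) (ha : h a ≠ ⊤) (hb : h b ≠ ⊤) :
    h x ≠ ⊤ := by
  rcases eq_or_lt_of_le hx.1 with h1 | h1
  · rw [← h1]; exact ha
  rcases eq_or_lt_of_le hx.2 with h2 | h2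
  · rw [h2]; exact hb
  obtain ⟨A, hA⟩ := ereal_le_real ha
  obtain ⟨B, hB⟩ := ereal_le_real hb
  have := hh a x b A B h1 h2 hab hA hB
  intro h3
  rw [h3] at this
  exact absurd this (by simp)

private lemma trig_bot_right {ρ : ℝ} (hρ : 0 < ρ) {h : ℝ → EReal} (hh : TrigConv ρ h)
    {a b θ₀ θ : ℝ} (hab : ρ * (b - a) < Real.pi) (ha : a < θ₀) (h1 : θ₀ < θ) (h2 : θ < b)
    (hh' : ∀ θ ∈ Ioo a b, h θ ≠ ⊤) (h0 : h θ₀ = ⊥) : h θ = ⊥ := by
  obtain ⟨θ₂, h3, h4⟩ := exists_between h2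
  obtain ⟨A₂, hA₂⟩ := ereal_le_real (hh' θ₂ ⟨by linarith, h4⟩)
  have hlt : ρ * (θ₂ - θ₀) < Real.pi := by
    have : ρ * (θ₂ - θ₀) ≤ ρ * (b - a) := mul_le_mul_of_nonneg_left (by linarith) hρ.le
    linarith
  have hlt2 : ρ * (θ₂ - θ) < Real.pi := by
    have : ρ * (θ₂ - θ) ≤ ρ * (b - a) := mul_le_mul_of_nonneg_left (by linarith) hρ.le
    linarith
  have s1 := sin_posρ hρ (show 0 < θ₂ - θ₀ by linarith) hlt
  have s2 := sin_posρ hρ (show 0 < θ₂ - θ by linarith) hlt2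
  apply ereal_bot
  intro A
  have := hh θ₀ θ θ₂ ((A * Real.sin (ρ * (θ₂ - θ₀)) - A₂ * Real.sin (ρ * (θ - θ₀))) /
    Real.sin (ρ * (θ₂ - θ))) A₂ h1 h3 hlt (by rw [h0]; exact bot_le) hA₂
  refine this.trans (le_of_eq ?_)
  congr 1
  field_simp
  ring

private lemma trig_bot {ρ : ℝ} (hρ : 0 < ρ) {h : ℝ → EReal} (hh : TrigConv ρ h)
    {a b θ₀ : ℝ} (hab : ρ * (b - a) < Real.pi) (hθ₀ : θ₀ ∈ Ioo a b)
    (hh' : ∀ θ ∈ Ioo a b, h θ ≠ ⊤) (h0 : h θ₀ = ⊥) : ∀ θ ∈ Ioo a b, h θ = ⊥ := by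
  intro θ hθ
  rcases lt_trichotomy θ θ₀ with h1 | h1 | h1
  · have := trig_bot_right (a := -b) (b := -a) (θ₀ := -θ₀) (θ := -θ) hρ (trig_refl hh)
      (by rw [show -a - -b = b - a by ring]; exact hab) (by linarith [hθ₀.2]) (by linarith)
      (by linarith [hθ.1]) (fun x hx => hh' (-x) ⟨by linarith [hx.2], by linarith [hx.1]⟩)
      (by simpa using h0)
    simpa using this
  · rw [h1]; exact h0
  · exact trig_bot_right hρ hh hab hθ₀.1 h1 hθ.2 hh' h0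

/-- upper semicontinuity from the right -/
private lemma trig_usc_right {ρ : ℝ} (hρ : 0 < ρ) {g : ℝ → EReal} (hg : TrigConv ρ g)
    {a b θ : ℝ} (hab : ρ * (b - a) < Real.pi) (hθ : θ ∈ Ioo a b) (G : ℝ → ℝ)
    (hG : ∀ x ∈ Ioo a b, g x = (G x : EReal)) {ε : ℝ} (hε : 0 < ε) :
    ∃ δ > 0, ∀ x, θ < x → x < θ + δ → x ∈ Ioo a b → G x ≤ G θ + ε := by
  obtain ⟨θ₂, h1, h2⟩ := exists_between hθ.2
  have hlt : ρ * (θ₂ - θ) < Real.pi := by
    have : ρ * (θ₂ - θ) ≤ ρ * (b - a) := mul_le_mul_of_nonneg_left (by linarith [hθ.1]) hρ.le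
    linarith
  have s1 := sin_posρ hρ (show 0 < θ₂ - θ by linarith) hlt
  have hc : ContinuousAt (fun x => (G θ * Real.sin (ρ * (θ₂ - x)) +
      G θ₂ * Real.sin (ρ * (x - θ))) / Real.sin (ρ * (θ₂ - θ))) θ := by
    apply ContinuousAt.div_const
    fun_prop
  have hv : (G θ * Real.sin (ρ * (θ₂ - θ)) + G θ₂ * Real.sin (ρ * (θ - θ))) /
      Real.sin (ρ * (θ₂ - θ)) < G θ + ε := by
    rw [sub_self, mul_zero, Real.sin_zero, mul_zero, add_zero, mul_div_assoc, div_self s1.ne']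
    linarith
  have hev := hc.eventually (gt_mem_nhds hv)
  rw [Metric.eventually_nhds_iff] at hev
  obtain ⟨δ, hδ, hδ'⟩ := hev
  refine ⟨min δ (θ₂ - θ), lt_min hδ (by linarith), fun x hx hx2 hx3 => ?_⟩
  have hx4 : x < θ + δ := by linarith [min_le_left δ (θ₂ - θ)]
  have hx5 : x < θ₂ := by linarith [min_le_right δ (θ₂ - θ)]
  have h3 := hδ' (y := x) (by rw [Real.dist_eq, abs_of_pos (by linarith)]; linarith)
  have h4 := hg θ x θ₂ (G θ) (G θ₂) hx hx5 hlt (by rw [hG θ hθ]) (by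
    rw [hG θ₂ ⟨by linarith [hθ.1], h2⟩])
  rw [hG x hx3, EReal.coe_le_coe_iff] at h4
  linarith

private lemma trig_usc_left {ρ : ℝ} (hρ : 0 < ρ) {g : ℝ → EReal} (hg : TrigConv ρ g)
    {a b θ : ℝ} (hab : ρ * (b - a) < Real.pi) (hθ : θ ∈ Ioo a b) (G : ℝ → ℝ)
    (hG : ∀ x ∈ Ioo a b, g x = (G x : EReal)) {ε : ℝ} (hε : 0 < ε) :
    ∃ δ > 0, ∀ x, x < θ → θ - δ < x → x ∈ Ioo a b → G x ≤ G θ + ε := by
  obtain ⟨δ, hδ, hδ'⟩ := trig_usc_right (a := -b) (b := -a) (θ := -θ) hρ (trig_refl hg)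
    (by rw [show -a - -b = b - a by ring]; exact hab) ⟨by linarith [hθ.2], by linarith [hθ.1]⟩
    (fun x => G (-x)) (fun x hx => hG (-x) ⟨by linarith [hx.2], by linarith [hx.1]⟩) hε
  refine ⟨δ, hδ, fun x hx hx2 hx3 => ?_⟩
  have := hδ' (-x) (by linarith) (by linarith) ⟨by linarith [hx3.2], by linarith [hx3.1]⟩
  simpa using this

private lemma trig_sum {ρ θ x y : ℝ} (hs : Real.sin (ρ * (y - x)) ≠ 0) :
    (Real.sin (ρ * (y - θ)) + Real.sin (ρ * (θ - x))) / Real.sin (ρ * (y - x)) =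
      Real.cos (ρ * (x + y - 2 * θ) / 2) / Real.cos (ρ * (y - x) / 2) := by
  have e1 : Real.sin (ρ * (y - x)) =
      2 * Real.sin (ρ * (y - x) / 2) * Real.cos (ρ * (y - x) / 2) := by
    rw [← Real.sin_two_mul]; congr 1; ring
  have hc : Real.cos (ρ * (y - x) / 2) ≠ 0 := by
    intro h; rw [h, mul_zero] at e1; exact hs e1
  rw [div_eq_div_iff hs hc, e1]
  have e2 : ρ * (y - θ) = ρ * (y - x) / 2 + ρ * (x + y - 2 * θ) / 2 := by ring
  have e3 : ρ * (θ - x) = ρ * (y - x) / 2 - ρ * (x + y - 2 * θ) / 2 := by ring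
  rw [e2, e3, Real.sin_add, Real.sin_sub]
  ring

private lemma trig_le {ρ a b : ℝ} (hρ : 0 < ρ) (hab : ρ * (b - a) < Real.pi) {g h : ℝ → EReal}
    (hg : TrigConv ρ g) (hh : TrigConv ρ h) (G H : ℝ → ℝ)
    (hG : ∀ x ∈ Ioo a b, g x = (G x : EReal)) (hH : ∀ x ∈ Ioo a b, h x = (H x : EReal))
    {D : Set ℝ} (hD : ∀ c d : ℝ, a ≤ c → c < d → d ≤ b → ∃ x ∈ D, c < x ∧ x < d)
    (he : ∀ θ ∈ D, θ ∈ Ioo a b → G θ = H θ) {θ : ℝ} (hθ : θ ∈ Ioo a b) : H θ ≤ G θ := by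
  apply le_of_forall_pos_le_add
  intro η hη
  obtain ⟨ε, hε⟩ : ∃ ε, ε = η / 2 := ⟨_, rfl⟩
  have hε0 : 0 < ε := by rw [hε]; linarith
  obtain ⟨δ₁, hδ₁, hr⟩ := trig_usc_right hρ hg hab hθ G hG hε0
  obtain ⟨δ₂, hδ₂, hl⟩ := trig_usc_left hρ hg hab hθ G hG hε0
  have hc : ContinuousAt (fun z : ℝ × ℝ => Real.cos (ρ * (z.1 + z.2 - 2 * θ) / 2) /
      Real.cos (ρ * (z.2 - z.1) / 2) * (G θ + ε)) (θ, θ) := by
    apply ContinuousAt.mul _ continuousAt_const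
    apply ContinuousAt.div
    · fun_prop
    · fun_prop
    · simp
  have hv : Real.cos (ρ * (θ + θ - 2 * θ) / 2) / Real.cos (ρ * (θ - θ) / 2) * (G θ + ε) <
      G θ + η := by
    rw [show ρ * (θ + θ - 2 * θ) / 2 = 0 by ring, show ρ * (θ - θ) / 2 = 0 by ring,
      Real.cos_zero]
    linarith
  have hev := hc.eventually (gt_mem_nhds hv)
  rw [Metric.eventually_nhds_iff] at hev
  obtain ⟨δ₃, hδ₃, hk⟩ := hev
  obtain ⟨x, hxD, hx1, hx2⟩ := hD (max a (max (θ - δ₂) (θ - δ₃))) θ (le_max_left _ _)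
    (max_lt hθ.1 (max_lt (by linarith) (by linarith))) hθ.2.le
  obtain ⟨y, hyD, hy1, hy2⟩ := hD θ (min b (min (θ + δ₁) (θ + δ₃))) hθ.1.le
    (lt_min hθ.2 (lt_min (by linarith) (by linarith))) (min_le_left _ _)
  have hxa : a < x := (le_max_left _ _).trans_lt hx1
  have hxd : θ - δ₂ < x := ((le_max_left _ _).trans (le_max_right _ _)).trans_lt hx1
  have hxd3 : θ - δ₃ < x := ((le_max_right _ _).trans (le_max_right _ _)).trans_lt hx1
  have hyb : y < b := hy2.trans_le (min_le_left _ _)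
  have hyd : y < θ + δ₁ := hy2.trans_le ((min_le_right _ _).trans (min_le_left _ _))
  have hyd3 : y < θ + δ₃ := hy2.trans_le ((min_le_right _ _).trans (min_le_right _ _))
  have hxm : x ∈ Ioo a b := ⟨hxa, by linarith⟩
  have hym : y ∈ Ioo a b := ⟨by linarith, hyb⟩
  have hGx := hl x hx2 hxd hxm
  have hGy := hr y hy1 hyd hym
  have hlt : ρ * (y - x) < Real.pi := by
    have : ρ * (y - x) ≤ ρ * (b - a) := mul_le_mul_of_nonneg_left (by linarith) hρ.le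
    linarith
  have s0 := sin_posρ hρ (show 0 < y - x by linarith) hlt
  have s1 := sin_posρ hρ (show 0 < y - θ by linarith) (by
    have : ρ * (y - θ) ≤ ρ * (y - x) := mul_le_mul_of_nonneg_left (by linarith) hρ.le
    linarith)
  have s2 := sin_posρ hρ (show 0 < θ - x by linarith) (by
    have : ρ * (θ - x) ≤ ρ * (y - x) := mul_le_mul_of_nonneg_left (by linarith) hρ.le
    linarith)
  have h4 := hh x θ y (H x) (H y) hx2 hy1 hlt (by rw [hH x hxm]) (by rw [hH y hym])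
  rw [hH θ hθ, EReal.coe_le_coe_iff, ← he x hxD hxm, ← he y hyD hym] at h4
  have h5 : (G x * Real.sin (ρ * (y - θ)) + G y * Real.sin (ρ * (θ - x))) /
      Real.sin (ρ * (y - x)) ≤
      (Real.sin (ρ * (y - θ)) + Real.sin (ρ * (θ - x))) / Real.sin (ρ * (y - x)) *
      (G θ + ε) := by
    rw [div_mul_eq_mul_div, div_le_div_iff_of_pos_right s0]
    nlinarith [mul_le_mul_of_nonneg_right hGx s1.le, mul_le_mul_of_nonneg_right hGy s2.le]
  rw [trig_sum s0.ne'] at h5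
  have h6 := hk (y := (x, y)) (by
    rw [Prod.dist_eq, Real.dist_eq, Real.dist_eq]
    apply max_lt
    · rw [abs_lt]; constructor <;> simp only <;> linarith
    · rw [abs_lt]; constructor <;> simp only <;> linarith)
  simp only at h6
  linarith

lemma trig_eq {ρ a b : ℝ} (hρ : 0 < ρ) (hab : ρ * (b - a) < Real.pi) {g h : ℝ → EReal}
    (hg : TrigConv ρ g) (hh : TrigConv ρ h) (hg' : ∀ θ ∈ Ioo a b, g θ ≠ ⊤)
    (hh' : ∀ θ ∈ Ioo a b, h θ ≠ ⊤) {D : Set ℝ}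
    (hD : ∀ c d : ℝ, a ≤ c → c < d → d ≤ b → ∃ x ∈ D, c < x ∧ x < d)
    (he : ∀ θ ∈ D, θ ∈ Ioo a b → g θ = h θ) : ∀ θ ∈ Ioo a b, g θ = h θ := by
  intro θ hθ
  obtain ⟨x, hxD, hx1, hx2⟩ := hD a b le_rfl (hθ.1.trans hθ.2) le_rfl
  have hxm : x ∈ Ioo a b := ⟨hx1, hx2⟩
  by_cases hb : ∃ y ∈ Ioo a b, h y = ⊥ ∨ g y = ⊥
  · obtain ⟨y, hy, hy'⟩ := hb
    rcases hy' with hy' | hy'
    · have h1 := trig_bot hρ hh hab hy hh' hy'
      have h2 : g x = ⊥ := by rw [he x hxD hxm]; exact h1 x hxm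
      have h3 := trig_bot hρ hg hab hxm hg' h2
      rw [h1 θ hθ, h3 θ hθ]
    · have h1 := trig_bot hρ hg hab hy hg' hy'
      have h2 : h x = ⊥ := by rw [← he x hxD hxm]; exact h1 x hxm
      have h3 := trig_bot hρ hh hab hxm hh' h2
      rw [h1 θ hθ, h3 θ hθ]
  · push Not at hb
    have hG : ∀ x ∈ Ioo a b, g x = ((g x).toReal : EReal) :=
      fun x hx => (EReal.coe_toReal (hg' x hx) (hb x hx).2).symm
    have hH : ∀ x ∈ Ioo a b, h x = ((h x).toReal : EReal) :=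
      fun x hx => (EReal.coe_toReal (hh' x hx) (hb x hx).1).symm
    have e1 : (h θ).toReal ≤ (g θ).toReal := trig_le hρ hab hg hh (fun x => (g x).toReal)
      (fun x => (h x).toReal) hG hH hD (fun y hy hy' => by simp only [he y hy hy']) hθ
    have e2 : (g θ).toReal ≤ (h θ).toReal := trig_le hρ hab hh hg (fun x => (h x).toReal)
      (fun x => (g x).toReal) hH hG hD (fun y hy hy' => by simp only [he y hy hy']) hθ
    rw [hG θ hθ, hH θ hθ, le_antisymm e1 e2]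

/-- the endpoint of the interval of finiteness -/
private noncomputable def endp (h : ℝ → EReal) (σ M : ℝ) : ℝ :=
  sSup {t | σ ≤ t ∧ t ≤ M ∧ ∀ x ∈ Icc σ t, h x ≠ ⊤}

private lemma core {ρ : ℝ} (hρ : 0 < ρ) {g h : ℝ → EReal} (hg : TrigConv ρ g)
    (hh : TrigConv ρ h) {σ θ M : ℝ} (h1 : σ < θ) (h2 : θ < M) (h3 : ρ * (θ - σ) < Real.pi)
    (hgσ : g σ ≠ ⊤) (hhσ : h σ ≠ ⊤) (hq : ∀ q : ℚ, σ < q → (q : ℝ) < M → g q = h q)
    (hB : θ ≠ endp h σ M) : g θ = h θ := by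
  obtain ⟨T, hT⟩ : ∃ T, T = {t | σ ≤ t ∧ t ≤ M ∧ ∀ x ∈ Icc σ t, h x ≠ ⊤} := ⟨_, rfl⟩
  have hTb : BddAbove T := ⟨M, fun t ht => by rw [hT] at ht; exact ht.2.1⟩
  have hTne : T.Nonempty := ⟨σ, by
    rw [hT]
    refine ⟨le_rfl, by linarith, fun x hx => ?_⟩
    have : x = σ := le_antisymm hx.2 hx.1
    rw [this]; exact hhσ⟩
  unfold endp at hB
  rw [← hT] at hB
  by_cases hfin : h θ = ⊤
  · rw [hfin]
    by_contra hgθ
    have h4 : sSup T ≤ θ := by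
      apply csSup_le hTne
      intro t ht
      by_contra hlt
      push Not at hlt
      rw [hT] at ht
      exact ht.2.2 θ ⟨h1.le, hlt.le⟩ hfin
    have h5 : sSup T < θ := lt_of_le_of_ne h4 (fun h => hB h.symm)
    have h6 : σ ≤ sSup T := le_csSup hTb (by
      rw [hT]
      refine ⟨le_rfl, by linarith, fun x hx => ?_⟩
      have : x = σ := le_antisymm hx.2 hx.1
      rw [this]; exact hhσ)
    obtain ⟨q, hq1, hq2⟩ := exists_rat_btwn h5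
    have hgq : g q ≠ ⊤ := trig_ne_top hg (a := σ) (b := θ) ⟨by linarith, hq2.le⟩ h3 hgσ hgθ
    have hhq : h q ≠ ⊤ := by
      rw [← hq q (by linarith) (by linarith)]; exact hgq
    have h7 : (q : ℝ) ∈ T := by
      rw [hT]
      refine ⟨by linarith, by linarith, fun x hx => ?_⟩
      refine trig_ne_top hh hx ?_ hhσ hhq
      have : ρ * (q - σ) ≤ ρ * (θ - σ) := mul_le_mul_of_nonneg_left (by linarith) hρ.le
      linarith
    have h8 := le_csSup hTb h7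
    linarith
  · have h4 : θ ∈ T := by
      rw [hT]
      exact ⟨h1.le, h2.le, fun x hx => trig_ne_top hh hx h3 hhσ hfin⟩
    have h5 : θ < sSup T := lt_of_le_of_ne (le_csSup hTb h4) hB
    obtain ⟨θ', hθ', hθ2⟩ := exists_lt_of_lt_csSup hTne h5
    rw [hT] at hθ'
    have h6 : θ < σ + Real.pi / ρ := by
      have : θ - σ < Real.pi / ρ := by
        rw [lt_div_iff₀ hρ]; linarith
      linarith
    obtain ⟨q, hq1, hq2⟩ := exists_rat_btwn (lt_min hθ2 h6)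
    have hq3 : (q : ℝ) < θ' := hq2.trans_le (min_le_left _ _)
    have hq4 : (q : ℝ) < σ + Real.pi / ρ := hq2.trans_le (min_le_right _ _)
    have hqM : (q : ℝ) < M := hq3.trans_le hθ'.2.1
    have hlt : ρ * (q - σ) < Real.pi := by
      have : (q : ℝ) - σ < Real.pi / ρ := by linarith
      rw [lt_div_iff₀ hρ] at this
      linarith
    have hhq : h q ≠ ⊤ := hθ'.2.2 q ⟨by linarith, hq3.le⟩
    have hgq : g q ≠ ⊤ := by rw [hq q (by linarith) hqM]; exact hhq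
    refine trig_eq (a := σ) (b := q) hρ hlt hg hh ?_ ?_ (D := Set.range ((↑) : ℚ → ℝ)) ?_ ?_ θ
      ⟨h1, hq1⟩
    · intro x hx
      exact trig_ne_top hg ⟨hx.1.le, hx.2.le⟩ hlt hgσ hgq
    · intro x hx
      exact trig_ne_top hh ⟨hx.1.le, hx.2.le⟩ hlt hhσ hhq
    · intro c d _ hcd _
      obtain ⟨r, hr1, hr2⟩ := exists_rat_btwn hcd
      exact ⟨r, ⟨r, rfl⟩, hr1, hr2⟩
    · rintro _ ⟨r, rfl⟩ hr
      exact hq r hr.1 (by linarith [hr.2])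

private lemma cos_zero_countable (c : ℝ) : {x : ℝ | Real.cos (c * x) = 0}.Countable := by
  apply (Set.countable_range (fun k : ℤ => (2 * (k : ℝ) + 1) * Real.pi / 2 / c)).mono
  intro x hx
  have hx' : Real.cos (c * x) = 0 := hx
  have hc : c ≠ 0 := by
    rintro rfl
    rw [zero_mul, Real.cos_zero] at hx'
    exact one_ne_zero hx'
  obtain ⟨k, hk⟩ := Real.cos_eq_zero_iff.mp hx'
  refine ⟨k, ?_⟩
  simp only
  rw [← hk]
  field_simp

private lemma wk_int {ρ : ℝ} {h : ℝ → EReal} (hh : Wk ρ h) (k : ℤ) (θ : ℝ) :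
    h (θ + k * (2 * Real.pi)) = h θ := by
  have hp : Function.Periodic h (2 * Real.pi) := hh.per
  exact hp.int_mul k θ

private lemma wk_reduce {ρ : ℝ} {g h : ℝ → EReal} (hg : Wk ρ g) (hh : Wk ρ h)
    (H : ∀ θ ∈ Icc (0 : ℝ) Real.pi, g θ = h θ) (θ : ℝ) : g θ = h θ := by
  have hpi := Real.pi_pos
  obtain ⟨k, hk⟩ : ∃ k : ℤ, k = round (θ / (2 * Real.pi)) := ⟨_, rfl⟩
  have h1 : |θ / (2 * Real.pi) - k| ≤ 1 / 2 := by rw [hk]; exact abs_sub_round _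
  obtain ⟨y, hy⟩ : ∃ y, y = θ - k * (2 * Real.pi) := ⟨_, rfl⟩
  have h2 : y = (θ / (2 * Real.pi) - k) * (2 * Real.pi) := by
    rw [hy]; field_simp
  have h3 : |y| ≤ Real.pi := by
    rw [h2, abs_mul, abs_of_pos (show 0 < 2 * Real.pi by linarith)]
    nlinarith
  have h4 : θ = y + k * (2 * Real.pi) := by rw [hy]; ring
  rw [h4, wk_int hg, wk_int hh]
  have h5 := H |y| ⟨abs_nonneg _, h3⟩
  rcases abs_choice y with h6 | h6
  · rw [h6] at h5; exact h5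
  · rw [h6, hg.even, hh.even] at h5; exact h5

private lemma wk_pi {ρ : ℝ} {h : ℝ → EReal} (hh : Wk ρ h) {θ : ℝ} (hθ : θ < Real.pi)
    (h2 : 2 * ρ * (Real.pi - θ) < Real.pi) (hpi : h Real.pi = ⊤) : h θ = ⊤ := by
  by_contra hne
  have h3 : h (2 * Real.pi - θ) ≠ ⊤ := by
    have : 2 * Real.pi - θ = -θ + 2 * Real.pi := by ring
    rw [this, hh.per, hh.even]; exact hne
  refine trig_ne_top hh.trig (a := θ) (b := 2 * Real.pi - θ) (x := Real.pi)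
    ⟨by linarith, by linarith⟩ ?_ hne h3 hpi
  rw [show ρ * (2 * Real.pi - θ - θ) = 2 * ρ * (Real.pi - θ) by ring]
  exact h2

theorem exists_dset {ρ : ℝ} (hρ : 0 < ρ) (hint : ¬ ∃ n : ℕ, ρ = n) {h : ℝ → EReal}
    (hh : Wk ρ h) : ∃ D, DSet ρ h D := by
  have hpi := Real.pi_pos
  obtain ⟨S, hS⟩ : ∃ S : Set ℝ, S = {x : ℝ | Real.cos ((⌊ρ⌋₊ : ℝ) * x) = 0} ∪ {0, Real.pi} :=
    ⟨_, rfl⟩
  have hSc : S.Countable := by
    rw [hS]
    exact (cos_zero_countable _).union ((Set.finite_singleton Real.pi).insert 0).countable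
  obtain ⟨E, hE⟩ : ∃ E : Set ℝ, E = Set.range ((↑) : ℚ → ℝ) ∪ {x : ℝ | Real.cos (ρ * x) = 0} ∪ S ∪
      ((fun σ => endp h σ Real.pi) '' S) ∪ ((fun σ => -endp (fun x => h (-x)) (-σ) 0) '' S) :=
    ⟨_, rfl⟩
  have hEc : E.Countable := by
    rw [hE]
    exact ((((Set.countable_range _).union (cos_zero_countable _)).union hSc).union
      (hSc.image _)).union (hSc.image _)
  have hq : ∀ q : ℚ, (q : ℝ) ∈ E := by
    intro q; rw [hE]; exact Or.inl (Or.inl (Or.inl (Or.inl ⟨q, rfl⟩)))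
  have hcz : ∀ x, Real.cos (ρ * x) = 0 → x ∈ E := by
    intro x hx; rw [hE]; exact Or.inl (Or.inl (Or.inl (Or.inr hx)))
  have hSE : ∀ x ∈ S, x ∈ E := by
    intro x hx; rw [hE]; exact Or.inl (Or.inl (Or.inr hx))
  have hβ : ∀ x ∈ S, endp h x Real.pi ∈ E := by
    intro x hx; rw [hE]; exact Or.inl (Or.inr ⟨x, hx, rfl⟩)
  have hα : ∀ x ∈ S, -endp (fun x => h (-x)) (-x) 0 ∈ E := by
    intro x hx; rw [hE]; exact Or.inr ⟨x, hx, rfl⟩
  have hS0 : (0 : ℝ) ∈ S := by rw [hS]; exact Or.inr (Or.inl rfl)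
  have hSπ : Real.pi ∈ S := by rw [hS]; exact Or.inr (Or.inr rfl)
  refine ⟨E ∩ Icc 0 Real.pi, ⟨hEc.mono inter_subset_left, inter_subset_right,
    fun θ hθ hc => ⟨hcz θ hc, hθ⟩, ⟨hSE _ hSπ, ⟨hpi.le, le_rfl⟩⟩, ?_, ?_⟩⟩
  · intro a b ha hab hb
    obtain ⟨q, hq1, hq2⟩ := exists_rat_btwn hab
    exact ⟨q, ⟨hq q, ⟨by linarith, by linarith⟩⟩, hq1, hq2⟩
  · intro g hg hgh
    apply wk_reduce hg hh
    intro θ hθ
    by_cases hθD : θ ∈ E
    · exact hgh θ ⟨hθD, hθ⟩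
    have hθπ : θ < Real.pi := lt_of_le_of_ne hθ.2 (by
      rintro rfl; exact hθD (hSE _ hSπ))
    have hθ0 : 0 < θ := lt_of_le_of_ne hθ.1 (by
      rintro rfl; exact hθD (hSE _ hS0))
    rcases lt_or_ge 0 (sg ρ θ) with hsg | hsg
    · rw [hg.off θ hθ hsg, hh.off θ hθ hsg]
    -- the main argument
    have main : ∀ σ ∈ S, σ ∈ Icc (0 : ℝ) Real.pi → g σ ≠ ⊤ → h σ ≠ ⊤ → ρ * |θ - σ| < Real.pi →
        g θ = h θ := by
      intro σ hσS hσ hgσ hhσ hlt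
      have hne : θ ≠ σ := by
        rintro rfl; exact hθD (hSE _ hσS)
      rcases lt_or_gt_of_ne hne with h1 | h1
      · -- θ < σ
        have h2 := core (σ := -σ) (θ := -θ) (M := 0) hρ (trig_refl hg.trig) (trig_refl hh.trig)
          (by linarith) (by linarith) (by
            rw [abs_of_neg (by linarith)] at hlt
            rw [show -θ - -σ = -(θ - σ) by ring]; exact hlt)
          (by simpa using hgσ) (by simpa using hhσ) (by
            intro q hq1 hq2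
            have := hgh ((-q : ℚ) : ℝ) ⟨hq _, by push_cast; constructor <;> linarith [hσ.2]⟩
            push_cast at this
            exact this) (by
            intro h
            apply hθD
            have := hα σ hσS
            rw [← h, neg_neg] at this
            exact this)
        simpa using h2
      · refine core (σ := σ) (θ := θ) (M := Real.pi) hρ hg.trig hh.trig h1 hθπ (by
            rw [abs_of_pos (by linarith)] at hlt; exact hlt) hgσ hhσ ?_ ?_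
        · intro q hq1 hq2
          exact hgh q ⟨hq q, ⟨by linarith [hσ.1], hq2.le⟩⟩
        · intro h
          apply hθD
          rw [h]
          exact hβ σ hσS
    rcases arc_pt hρ hint hθ hsg with ⟨σ, hσ, hσc, haa, hbb, hlt⟩ | h2
    · have hσS : σ ∈ S := by
        rw [hS]
        rcases hσc with h | h
        · exact Or.inl h
        · exact Or.inr (Or.inl h)
      refine main σ hσS hσ ?_ ?_ hlt
      · intro h
        have := hg.neg σ hσ haa hbb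
        rw [h] at this
        exact absurd this (by simp)
      · intro h
        have := hh.neg σ hσ haa hbb
        rw [h] at this
        exact absurd this (by simp)
    · have hgp : g Real.pi = h Real.pi := hgh _ ⟨hSE _ hSπ, ⟨hpi.le, le_rfl⟩⟩
      by_cases hp : h Real.pi = ⊤
      · rw [wk_pi hh hθπ h2 hp, wk_pi hg hθπ h2 (hgp.trans hp)]
      · refine main Real.pi hSπ ⟨hpi.le, le_rfl⟩ (by rw [hgp]; exact hp) hp ?_
        rw [abs_of_neg (by linarith)]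
        nlinarith

end Helper25.Ind
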