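import Pool.Agent.Helper25.Ind2.KInt
import Pool.Agent.Helper25.Ind2.KDer

/-!
# IND2 K4: the Mellin transform of the kernels

PROOF of `integral_kk_exp`. Put `σ = ρ + κ ∈ (p, p+1)`, `w = e^{s+iθ}`, `q = p + 1 - σ ∈ (0,1)`.
(1) `mellin_zero`: `∫_ℝ e^{q s}/(1+e^s) ds = π / sin(π q)`. Substitute `u = e^s/(1+e^s) ∈ (0,1)` (or `r = e^s` first): it is the Beta
    integral `∫_0^1 u^{q-1} (1-u)^{-q} du = Γ(q) Γ(1-q)/Γ(1)` and `Real.Gamma_mul_Gamma_one_sub` / `Complex.Gamma_mul_Gamma_one_sub`.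
    (Check Mathlib for `integral ... rpow / (1 + x)`.)
(2) For `0 ≤ θ < π` put `J(θ) = ∫_ℝ e^{-σ s} w^{p+1}/(1+w) ds`. The integrand `F(s,θ) = e^{-σ s} G(e^{s+iθ})`, `G(w) = w^{p+1}/(1+w)`, satisfies
    `∂_θ F = i (∂_s F + σ F)`, and `|F|, |∂_s F|, |∂_θ F| ≤ C_{θ₁} (e^{q s} 1_{s ≤ 0} + e^{-(1-q) s} 1_{s ≥ 0})` uniformly for `0 ≤ θ ≤ θ₁ < π`
    (`|1+w| ≥ c(1+|w|)`, `norm_one_add_ge`). Differentiate under the integral; `∫ ∂_s F ds = 0` (limits `0` at `±∞`), so `J' = iσ J` on `(0,π)`, `J` continuous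
    on `[0,π)`, hence `J(θ) = e^{iσθ} J(0)`, and `J(0) = π/sin(π q) = (-1)^p π / sin(πσ)`.
    (Alternative: for fixed `q` the function `ζ ↦ ∫ e^{q s}/(e^{-iζ... }+e^s)`; any other proof is fine, e.g. the identity theorem in `θ` as a complex variable.)
(3) `K(s) = log|E(-w,p)| = e^{ρ s} kk ρ θ s` has `K'(s) = (-1)^p Re(w^{p+1}/(1+w))` (`hasDerivAt_KK_re`), `K = O(e^{(p+1)s})` at `-∞`, `O(e^{(p+ε)s})` at `+∞`.
    Integrate by parts on `ℝ`: `∫ e^{-σ s} K ds = (1/σ) ∫ e^{-σ s} K' ds = (1/σ)(-1)^p Re J(θ) = π cos(σθ)/(σ sin(πσ))`.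
(4) `θ = π`: `tendsto_kk_L1` (with weight: `|∫ e^{-κ s}(kk θ - kk π)| ≤ ∫ e^{|κ||s|}|kk θ - kk π|`; if `|κ|` is not `< min(km,kp)` use dominated convergence directly
    with the majorant of `integrable_kk_exp`), both sides are continuous in `θ` on `[0,π]`.
`integral_mul_kk`: differentiate `integral_kk_exp` in `κ` at `κ = 0` (differentiation under the integral, `|s| e^{κ'|s|}|kk|` integrable):
`∫ s kk = - ∂_κ cc ρ κ θ |_{κ=0}`; if `cos(ρθ) = 0` this is `π θ sin(ρθ) / (ρ sin πρ) = DD ρ θ`.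
`U_affine`: `kk(x-y)(A+by)`, substitute `y = x - s`.
`cc_sign`: `sin(πρ)` has the sign of `(-1)^p` because `p < ρ < p+1`.
-/

open Complex Filter Topology MeasureTheory Set

namespace Helper25.Ind

private lemma mel_point (q x : ℝ) :
    |Real.sigmoid x * (1 - Real.sigmoid x)| • (Real.sigmoid x ^ (q - 1) *
      (1 - Real.sigmoid x) ^ (-q)) = Real.exp (q * x) / (1 + Real.exp x) := by
  have h0 := Real.sigmoid_pos x
  have h1 := Real.sigmoid_lt_one x
  have h2 : 0 < 1 - Real.sigmoid x := by linarith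
  have he := Real.exp_pos x
  have hs : Real.sigmoid x = Real.exp x / (1 + Real.exp x) := by
    rw [Real.sigmoid_def, Real.exp_neg]
    field_simp
    ring
  have hs1 : 1 - Real.sigmoid x = 1 / (1 + Real.exp x) := by
    rw [hs]
    field_simp
    ring
  rw [abs_of_pos (mul_pos h0 h2), smul_eq_mul]
  have h3 : Real.sigmoid x * (1 - Real.sigmoid x) * (Real.sigmoid x ^ (q - 1) *
      (1 - Real.sigmoid x) ^ (-q)) =
      (Real.sigmoid x * Real.sigmoid x ^ (q - 1)) *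
        ((1 - Real.sigmoid x) * (1 - Real.sigmoid x) ^ (-q)) := by ring
  have h4 : Real.sigmoid x * Real.sigmoid x ^ (q - 1) = Real.sigmoid x ^ q := by
    have := Real.rpow_add h0 1 (q - 1)
    rw [Real.rpow_one] at this
    rw [← this]
    congr 1
    ring
  have h5 : (1 - Real.sigmoid x) * (1 - Real.sigmoid x) ^ (-q) =
      (1 - Real.sigmoid x) ^ (1 - q) := by
    have := Real.rpow_add h2 1 (-q)
    rw [Real.rpow_one] at this
    rw [← this]
    congr 1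
  have hp : 0 < 1 + Real.exp x := by linarith
  rw [h3, h4, h5, hs1, hs, Real.div_rpow he.le hp.le, Real.div_rpow zero_le_one hp.le,
    Real.one_rpow, ← Real.exp_mul, mul_comm x q, div_mul_div_comm, mul_one, ← Real.rpow_add hp]
  norm_num

private lemma mel_beta {q : ℝ} (h0 : 0 < q) (h1 : q < 1) :
    IntegrableOn (fun u : ℝ => u ^ (q - 1) * (1 - u) ^ (-q)) (Ioo 0 1) ∧
    ∫ u in Ioo (0 : ℝ) 1, u ^ (q - 1) * (1 - u) ^ (-q) = Real.pi / Real.sin (Real.pi * q) := by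
  have hu : 0 < ((q : ℝ) : ℂ).re := by simpa using h0
  have hv : 0 < (1 - ((q : ℝ) : ℂ)).re := by simp; linarith
  have hpt : ∀ u ∈ Ioo (0 : ℝ) 1, (u : ℂ) ^ ((q : ℂ) - 1) * (1 - (u : ℂ)) ^ (1 - (q : ℂ) - 1) =
      ((u ^ (q - 1) * (1 - u) ^ (-q) : ℝ) : ℂ) := by
    intro u hu
    rw [Complex.ofReal_mul, Complex.ofReal_cpow hu.1.le, Complex.ofReal_cpow (by linarith [hu.2])]
    push_cast
    congr 2
    ring
  have hc := Complex.betaIntegral_convergent hu hv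
  rw [intervalIntegrable_iff_integrableOn_Ioo_of_le zero_le_one] at hc
  have hi : IntegrableOn (fun u : ℝ => ((u ^ (q - 1) * (1 - u) ^ (-q) : ℝ) : ℂ)) (Ioo 0 1) :=
    hc.congr_fun hpt measurableSet_Ioo
  have hi2 : IntegrableOn (fun u : ℝ => u ^ (q - 1) * (1 - u) ^ (-q)) (Ioo 0 1) := by
    have := hi.re
    simp only [RCLike.re_eq_complex_re, Complex.ofReal_re] at this
    exact this
  refine ⟨hi2, ?_⟩
  have hg := Complex.Gamma_mul_Gamma_eq_betaIntegral hu hv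
  rw [Complex.Gamma_mul_Gamma_one_sub, add_sub_cancel, Complex.Gamma_one, one_mul,
    Complex.betaIntegral, intervalIntegral.integral_of_le zero_le_one,
    MeasureTheory.integral_Ioc_eq_integral_Ioo,
    MeasureTheory.setIntegral_congr_fun measurableSet_Ioo hpt, integral_complex_ofReal] at hg
  have h2 := congrArg Complex.re hg
  rw [Complex.ofReal_re] at h2
  rw [← h2]
  have h3 : (Real.pi : ℂ) / Complex.sin (Real.pi * q) =
      ((Real.pi / Real.sin (Real.pi * q) : ℝ) : ℂ) := by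
    push_cast
    rfl
  rw [h3, Complex.ofReal_re]

lemma mellin_zero {q : ℝ} (h0 : 0 < q) (h1 : q < 1) :
    Integrable (fun s : ℝ => Real.exp (q * s) / (1 + Real.exp s)) ∧
    ∫ s : ℝ, Real.exp (q * s) / (1 + Real.exp s) = Real.pi / Real.sin (Real.pi * q) := by
  obtain ⟨hi, hv⟩ := mel_beta h0 h1
  have hr : Real.sigmoid '' univ = Ioo 0 1 := by rw [image_univ, Real.range_sigmoid]
  have hd : ∀ x ∈ (univ : Set ℝ), HasDerivWithinAt Real.sigmoid
      (Real.sigmoid x * (1 - Real.sigmoid x)) univ x := fun x _ =>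
    (Real.hasDerivAt_sigmoid x).hasDerivWithinAt
  have hinj : InjOn Real.sigmoid univ := Real.sigmoid_injective.injOn
  have e1 := (integrableOn_image_iff_integrableOn_abs_deriv_smul MeasurableSet.univ hd hinj
    (fun u : ℝ => u ^ (q - 1) * (1 - u) ^ (-q))).1 (by rw [hr]; exact hi)
  have e2 := integral_image_eq_integral_abs_deriv_smul MeasurableSet.univ hd hinj
    (fun u : ℝ => u ^ (q - 1) * (1 - u) ^ (-q))
  simp only [mel_point] at e1 e2
  rw [integrableOn_univ] at e1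
  rw [setIntegral_univ, hr, hv] at e2
  exact ⟨e1, e2.symm⟩

private lemma mel_low {θ₁ : ℝ} (h0 : 0 ≤ θ₁) (h1 : θ₁ < Real.pi) {ζ : ℂ} (hζ : |ζ.im| ≤ θ₁)
    (s : ℝ) : Real.cos (θ₁ / 2) * (1 + Real.exp (s + ζ.re)) ≤ ‖1 + Complex.exp (s + ζ)‖ := by
  set r := Real.exp (s + ζ.re) with hr
  have hr0 : 0 < r := Real.exp_pos _
  have hre : (Complex.exp (s + ζ)).re = r * Real.cos ζ.im := by
    rw [Complex.exp_re]; simp [hr]
  have him : (Complex.exp (s + ζ)).im = r * Real.sin ζ.im := by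
    rw [Complex.exp_im]; simp [hr]
  have hsq : ‖1 + Complex.exp (s + ζ)‖ ^ 2 = 1 + 2 * r * Real.cos ζ.im + r ^ 2 := by
    rw [← Complex.normSq_eq_norm_sq, Complex.normSq_apply]
    simp only [Complex.add_re, Complex.one_re, Complex.add_im, Complex.one_im, hre, him, zero_add]
    have := Real.sin_sq_add_cos_sq ζ.im
    linear_combination (r ^ 2) * this
  have hcos : Real.cos θ₁ ≤ Real.cos ζ.im := by
    rw [← Real.cos_abs ζ.im]
    exact Real.cos_le_cos_of_nonneg_of_le_pi (abs_nonneg _) h1.le hζ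
  have hc2 : Real.cos θ₁ = 2 * Real.cos (θ₁ / 2) ^ 2 - 1 := by
    rw [← Real.cos_two_mul]; congr 1; ring
  have hc1 : Real.cos (θ₁ / 2) ^ 2 ≤ 1 := Real.cos_sq_le_one _
  refine abs_le_of_sq_le_sq' ?_ (norm_nonneg _) |>.2
  rw [hsq, mul_pow]
  nlinarith [mul_le_mul_of_nonneg_left hcos hr0.le, mul_nonneg (sq_nonneg (1 - r))
    (by linarith : 0 ≤ 1 - Real.cos (θ₁ / 2) ^ 2)]

private lemma mel_cpos {θ₁ : ℝ} (h0 : 0 ≤ θ₁) (h1 : θ₁ < Real.pi) : 0 < Real.cos (θ₁ / 2) :=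
  Real.cos_pos_of_mem_Ioo ⟨by linarith [Real.pi_pos], by linarith⟩

private lemma mel_ne {ζ : ℂ} (hζ : |ζ.im| < Real.pi) (s : ℝ) :
    1 + Complex.exp (s + ζ) ≠ 0 := by
  have h1 := mel_low (abs_nonneg ζ.im) hζ le_rfl s
  have h2 := mel_cpos (abs_nonneg ζ.im) hζ
  have h3 : 0 < Real.cos (|ζ.im| / 2) * (1 + Real.exp (s + ζ.re)) := by positivity
  intro h4
  rw [h4, norm_zero] at h1
  linarith

/-- the integrand -/
private noncomputable def melF (q : ℝ) (ζ : ℂ) (s : ℝ) : ℂ :=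
  Complex.exp (q * s) / (1 + Complex.exp (s + ζ))

private noncomputable def melF' (q : ℝ) (ζ : ℂ) (s : ℝ) : ℂ :=
  -(Complex.exp (q * s) * Complex.exp (s + ζ) / (1 + Complex.exp (s + ζ)) ^ 2)

private lemma melF_meas (q : ℝ) (ζ : ℂ) : Measurable (melF q ζ) := by
  unfold melF; fun_prop

private lemma melF'_meas (q : ℝ) (ζ : ℂ) : Measurable (melF' q ζ) := by
  unfold melF'; fun_prop

private lemma melF_deriv (q : ℝ) {ζ : ℂ} (hζ : |ζ.im| < Real.pi) (s : ℝ) :
    HasDerivAt (fun ζ => melF q ζ s) (melF' q ζ s) ζ := by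
  have h1 : HasDerivAt (fun ζ : ℂ => 1 + Complex.exp (s + ζ)) (Complex.exp (s + ζ)) ζ := by
    have h2 : HasDerivAt (fun ζ : ℂ => (s : ℂ) + ζ) 1 ζ := (hasDerivAt_id ζ).const_add _
    have h3 := h2.cexp.const_add 1
    simpa using h3
  have h4 := (hasDerivAt_const ζ (Complex.exp (q * s))).div h1 (mel_ne hζ s)
  have h5 : melF' q ζ s = (0 * (1 + Complex.exp (s + ζ)) - Complex.exp (q * s) *
      Complex.exp (s + ζ)) / (1 + Complex.exp (s + ζ)) ^ 2 := by
    unfold melF'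
    ring
  rw [h5]
  exact h4

private lemma melF_bound (q : ℝ) {θ₁ : ℝ} (h0 : 0 ≤ θ₁) (h1 : θ₁ < Real.pi) {ζ : ℂ}
    (hζ : |ζ.im| ≤ θ₁) {X : ℝ} (hX : -X ≤ ζ.re) (hX0 : 0 ≤ X) (s : ℝ) :
    ‖melF q ζ s‖ ≤ Real.exp X / Real.cos (θ₁ / 2) *
      (Real.exp (q * s) / (1 + Real.exp s)) ∧
    ‖melF' q ζ s‖ ≤ Real.exp X / Real.cos (θ₁ / 2) ^ 2 *
      (Real.exp (q * s) / (1 + Real.exp s)) := by
  have hc := mel_cpos h0 h1
  have hl := mel_low h0 h1 hζ s
  set c := Real.cos (θ₁ / 2)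
  set r := Real.exp (s + ζ.re) with hr
  have hr0 : 0 < r := Real.exp_pos _
  have hn1 : ‖Complex.exp (q * s)‖ = Real.exp (q * s) := by
    rw [Complex.norm_exp]; simp
  have hn2 : ‖Complex.exp (s + ζ)‖ = r := by
    rw [Complex.norm_exp]; simp [hr]
  have hes : 0 < Real.exp s := Real.exp_pos _
  have h3 : 1 + Real.exp s ≤ Real.exp X * (1 + r) := by
    have e1 : 1 ≤ Real.exp X := Real.one_le_exp hX0
    have e2 : Real.exp s ≤ Real.exp X * r := by
      rw [hr, ← Real.exp_add]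
      exact Real.exp_le_exp.2 (by linarith)
    nlinarith
  have hX1 : 0 < Real.exp X := Real.exp_pos _
  have hqs : 0 < Real.exp (q * s) := Real.exp_pos _
  have hN0 : 0 < ‖1 + Complex.exp (s + ζ)‖ := lt_of_lt_of_le (by positivity) hl
  constructor
  · unfold melF
    rw [norm_div, hn1, div_mul_div_comm, div_le_div_iff₀ hN0 (by positivity)]
    calc Real.exp (q * s) * (c * (1 + Real.exp s)) ≤
        Real.exp (q * s) * (c * (Real.exp X * (1 + r))) := by gcongr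
      _ = Real.exp X * Real.exp (q * s) * (c * (1 + r)) := by ring
      _ ≤ Real.exp X * Real.exp (q * s) * ‖1 + Complex.exp (s + ζ)‖ := by gcongr
  · unfold melF'
    rw [norm_neg, norm_div, norm_mul, norm_pow, hn1, hn2, div_mul_div_comm,
      div_le_div_iff₀ (by positivity) (by positivity)]
    calc Real.exp (q * s) * r * (c ^ 2 * (1 + Real.exp s)) ≤
        Real.exp (q * s) * (1 + r) * (c ^ 2 * (Real.exp X * (1 + r))) := by
          gcongr
          linarith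
      _ = Real.exp X * Real.exp (q * s) * (c * (1 + r)) ^ 2 := by ring
      _ ≤ Real.exp X * Real.exp (q * s) * ‖1 + Complex.exp (s + ζ)‖ ^ 2 := by gcongr

private lemma melF_int {q : ℝ} (h0 : 0 < q) (h1 : q < 1) {ζ : ℂ} (hζ : |ζ.im| < Real.pi) :
    Integrable (melF q ζ) := by
  refine Integrable.mono' ((mellin_zero h0 h1).1.const_mul
    (Real.exp |ζ.re| / Real.cos (|ζ.im| / 2))) (melF_meas q ζ).aestronglyMeasurable
    (Eventually.of_forall fun s => ?_)
  exact (melF_bound q (abs_nonneg _) hζ le_rfl (by linarith [neg_abs_le ζ.re])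
    (abs_nonneg _) s).1

private lemma melPsi_diff {q : ℝ} (h0 : 0 < q) (h1 : q < 1) {ζ : ℂ} (hζ : |ζ.im| < Real.pi) :
    DifferentiableAt ℂ (fun ζ => ∫ s : ℝ, melF q ζ s) ζ := by
  set θ₁ := (|ζ.im| + Real.pi) / 2 with hθ
  have hθ0 : 0 ≤ θ₁ := by have := abs_nonneg ζ.im; have := Real.pi_pos; positivity
  have hθ1 : θ₁ < Real.pi := by rw [hθ]; linarith
  set r := min 1 ((Real.pi - |ζ.im|) / 2) with hr
  have hr0 : 0 < r := lt_min one_pos (by linarith)
  have hball : ∀ z ∈ Metric.ball ζ r, |z.im| ≤ θ₁ ∧ -(|ζ.re| + 1) ≤ z.re := by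
    intro z hz
    rw [Metric.mem_ball, dist_eq_norm] at hz
    have e1 : |(z - ζ).im| ≤ ‖z - ζ‖ := Complex.abs_im_le_norm _
    have e2 : |(z - ζ).re| ≤ ‖z - ζ‖ := Complex.abs_re_le_norm _
    have e3 : r ≤ 1 := min_le_left _ _
    have e4 : r ≤ (Real.pi - |ζ.im|) / 2 := min_le_right _ _
    rw [Complex.sub_im] at e1
    rw [Complex.sub_re] at e2
    constructor
    · have e5 : |z.im| ≤ |z.im - ζ.im| + |ζ.im| := by
        have := abs_add_le (z.im - ζ.im) ζ.im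
        simpa using this
      rw [hθ]; linarith
    · have e6 := neg_abs_le (z.re - ζ.re)
      have e7 := neg_abs_le ζ.re
      linarith
  have key := hasDerivAt_integral_of_dominated_loc_of_deriv_le (μ := volume)
    (F := fun (ζ : ℂ) (s : ℝ) => melF q ζ s) (F' := fun (ζ : ℂ) (s : ℝ) => melF' q ζ s)
    (x₀ := ζ) (s := Metric.ball ζ r)
    (bound := fun s => Real.exp (|ζ.re| + 1) / Real.cos (θ₁ / 2) ^ 2 *
      (Real.exp (q * s) / (1 + Real.exp s)))
    (Metric.ball_mem_nhds ζ hr0)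
    (Eventually.of_forall fun z => (melF_meas q z).aestronglyMeasurable)
    (melF_int h0 h1 hζ) (melF'_meas q ζ).aestronglyMeasurable
    (Eventually.of_forall fun s z hz => (melF_bound q hθ0 hθ1 (hball z hz).1
      (hball z hz).2 (by positivity) s).2)
    ((mellin_zero h0 h1).1.const_mul _)
    (Eventually.of_forall fun s z hz => melF_deriv q (lt_of_le_of_lt (hball z hz).1 hθ1) s)
  exact key.2.differentiableAt

private lemma melPsi_eq {q : ℝ} (h0 : 0 < q) (h1 : q < 1) {ζ : ℂ} (hζ : |ζ.im| < Real.pi) :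
    ∫ s : ℝ, melF q ζ s = Complex.exp (-(q * ζ)) * (Real.pi / Real.sin (Real.pi * q) : ℝ) := by
  have hreal : ∀ t : ℝ, ∫ s : ℝ, melF q t s =
      Complex.exp (-(q * t)) * (Real.pi / Real.sin (Real.pi * q) : ℝ) := by
    intro t
    rw [← integral_sub_right_eq_self (fun s => melF q t s) t, ← (mellin_zero h0 h1).2,
      ← integral_complex_ofReal, ← integral_const_mul]
    refine integral_congr_ae (Eventually.of_forall fun s => ?_)
    simp only [melF]
    push_cast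
    rw [← mul_div_assoc, ← Complex.exp_add]
    congr 2
    · congr 1; ring
    · congr 1
      congr 1
      ring
  set S : Set ℂ := {z | |z.im| < Real.pi} with hS
  have hSo : IsOpen S := isOpen_lt (by fun_prop) continuous_const
  have hSc : IsPreconnected S := by
    have hconv : Convex ℝ S := by
      have : S = Complex.im ⁻¹' (Set.Ioo (-Real.pi) Real.pi) := by
        ext z; simp [hS, abs_lt]
      rw [this]
      exact (convex_Ioo _ _).is_linear_preimage ⟨fun _ _ => Complex.add_im _ _, fun c z => by simp⟩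
    exact hconv.isPreconnected
  set g : ℂ → ℂ := fun z => (∫ s : ℝ, melF q z s) -
    Complex.exp (-(q * z)) * (Real.pi / Real.sin (Real.pi * q) : ℝ) with hg
  have hgd : DifferentiableOn ℂ g S := by
    intro z hz
    refine DifferentiableAt.differentiableWithinAt ?_
    refine (melPsi_diff h0 h1 hz).sub ?_
    fun_prop
  have hga : AnalyticOnNhd ℂ g S := hgd.analyticOnNhd hSo
  have hfreq : ∃ᶠ z in 𝓝[≠] (0 : ℂ), g z = 0 := by
    have ht : Tendsto (fun t : ℝ => (t : ℂ)) (𝓝[≠] 0) (𝓝[≠] 0) := by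
      refine tendsto_nhdsWithin_iff.2 ⟨?_, ?_⟩
      · have : Tendsto (fun t : ℝ => (t : ℂ)) (𝓝 0) (𝓝 ((0 : ℝ) : ℂ)) :=
          Complex.continuous_ofReal.tendsto 0
        rw [Complex.ofReal_zero] at this
        exact this.mono_left nhdsWithin_le_nhds
      · filter_upwards [self_mem_nhdsWithin] with t ht
        simpa using ht
    refine ht.frequently (Eventually.frequently (Eventually.of_forall fun t => ?_))
    simp only [hg]
    rw [hreal t, sub_self]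
  have h00 : (0 : ℂ) ∈ S := by simp [hS, Real.pi_pos]
  have hz := hga.eqOn_zero_of_preconnected_of_frequently_eq_zero hSc h00 hfreq (x := ζ) hζ
  exact sub_eq_zero.1 hz

/-- the complex Mellin integral -/
theorem mellin_cexp {q : ℝ} (h0 : 0 < q) (h1 : q < 1) {ζ : ℂ} (hζ : |ζ.im| < Real.pi) :
    Integrable (fun s : ℝ => Complex.exp (q * s) / (1 + Complex.exp (s + ζ))) ∧
    ∫ s : ℝ, Complex.exp (q * s) / (1 + Complex.exp (s + ζ)) =
      Complex.exp (-(q * ζ)) * (Real.pi / Real.sin (Real.pi * q) : ℝ) :=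
  ⟨melF_int h0 h1 hζ, melPsi_eq h0 h1 hζ⟩

private lemma mel_w (θ s : ℝ) : ((Real.exp s : ℝ) : ℂ) * Complex.exp (θ * Complex.I) =
    Complex.exp (s + θ * Complex.I) := by
  rw [Complex.ofReal_exp, ← Complex.exp_add]

private lemma mel_sin (p : ℕ) (x : ℝ) :
    Real.sin (Real.pi * ((p : ℝ) + 1 - x)) = (-1) ^ p * Real.sin (Real.pi * x) := by
  have h1 : Real.pi * ((p : ℝ) + 1 - x) = ((p : ℝ) * Real.pi) + (Real.pi - Real.pi * x) := by ring
  rw [h1, Real.sin_add, Real.sin_pi_sub, Real.sin_nat_mul_pi, Real.cos_nat_mul_pi, zero_mul,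
    zero_add]

private lemma mel_uv (ρ κ θ s : ℝ) :
    Real.exp (-((ρ + κ) * s)) * ((-1) ^ ⌊ρ⌋₊ *
      ((Real.exp s * Complex.exp (θ * Complex.I)) ^ (⌊ρ⌋₊ + 1) /
        (1 + Real.exp s * Complex.exp (θ * Complex.I))).re) =
    (-1) ^ ⌊ρ⌋₊ * (Complex.exp (((⌊ρ⌋₊ : ℝ) + 1) * θ * Complex.I) *
      melF (kp ρ - κ) (θ * Complex.I) s).re := by
  have h1 : Real.exp (-((ρ + κ) * s)) *
      ((Real.exp s * Complex.exp (θ * Complex.I)) ^ (⌊ρ⌋₊ + 1) /
        (1 + Real.exp s * Complex.exp (θ * Complex.I))).re =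
      (((Real.exp (-((ρ + κ) * s)) : ℝ) : ℂ) *
      ((Real.exp s * Complex.exp (θ * Complex.I)) ^ (⌊ρ⌋₊ + 1) /
        (1 + Real.exp s * Complex.exp (θ * Complex.I)))).re := by
    rw [Complex.re_ofReal_mul]
  rw [mul_left_comm, h1]
  congr 2
  rw [mel_w, ← Complex.exp_nat_mul, melF, ← mul_div_assoc, ← mul_div_assoc, Complex.ofReal_exp,
    ← Complex.exp_add, ← Complex.exp_add]
  congr 2
  unfold kp
  push_cast
  ring

private lemma mel_lt_pi {ρ κ θ : ℝ} (hρ : 0 < ρ) (h1 : -(km ρ) < κ) (h2 : κ < kp ρ)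
    (hθ0 : 0 ≤ θ) (hθ1 : θ < Real.pi) :
    ∫ s : ℝ, Real.exp (-(κ * s)) * kk ρ θ s = cc ρ κ θ := by
  have hθ : θ ∈ Icc (0 : ℝ) Real.pi := ⟨hθ0, hθ1.le⟩
  have hkk := kp_add_km ρ
  set q := kp ρ - κ with hq
  have hq0 : 0 < q := by rw [hq]; linarith
  have hq1 : q < 1 := by rw [hq]; linarith
  set σ := ρ + κ with hσ
  have hσ0 : 0 < σ := by
    have : km ρ = ρ - ⌊ρ⌋₊ := rfl
    have h3 : (0 : ℝ) ≤ (⌊ρ⌋₊ : ℝ) := Nat.cast_nonneg _
    rw [hσ]; linarith
  have him : |((θ : ℂ) * Complex.I).im| < Real.pi := by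
    simp only [Complex.mul_im, Complex.ofReal_re, Complex.I_im, mul_one, Complex.ofReal_im,
      Complex.I_re, mul_zero, add_zero]
    rw [abs_of_nonneg hθ0]; exact hθ1
  set v' : ℝ → ℝ := fun s => (-1) ^ ⌊ρ⌋₊ *
      ((Real.exp s * Complex.exp (θ * Complex.I)) ^ (⌊ρ⌋₊ + 1) /
        (1 + Real.exp s * Complex.exp (θ * Complex.I))).re with hv'
  have hF := (melF_int hq0 hq1 him).const_mul (Complex.exp (((⌊ρ⌋₊ : ℝ) + 1) * θ * Complex.I))
  have huv' : Integrable ((fun s => Real.exp (-(σ * s))) * v') := by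
    have h3 : ((fun s => Real.exp (-(σ * s))) * v') = fun s => (-1) ^ ⌊ρ⌋₊ *
        (Complex.exp (((⌊ρ⌋₊ : ℝ) + 1) * θ * Complex.I) * melF q (θ * Complex.I) s).re := by
      ext s
      exact mel_uv ρ κ θ s
    rw [h3]
    exact (hF.re).const_mul _
  have hkK : ∀ s, Real.exp (-(σ * s)) * KK ρ θ s = Real.exp (-(κ * s)) * kk ρ θ s := by
    intro s
    rw [kk_eq_KK, ← mul_assoc, ← Real.exp_add]
    congr 2
    rw [hσ]; ring
  have hik := integrable_kk_exp h1 h2 hθ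
  have huv : Integrable ((fun s => Real.exp (-(σ * s))) * KK ρ θ) := by
    have h3 : ((fun s => Real.exp (-(σ * s))) * KK ρ θ) = fun s =>
        Real.exp (-(κ * s)) * kk ρ θ s := by
      ext s
      exact hkK s
    rw [h3]
    exact hik
  have hu'v : Integrable ((fun s => -σ * Real.exp (-(σ * s))) * KK ρ θ) := by
    have h3 : ((fun s => -σ * Real.exp (-(σ * s))) * KK ρ θ) = fun s =>
        -σ * (Real.exp (-(κ * s)) * kk ρ θ s) := by
      ext s
      rw [← hkK s]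
      simp only [Pi.mul_apply]
      ring
    rw [h3]
    exact hik.const_mul _
  have hu : ∀ x : ℝ, HasDerivAt (fun s => Real.exp (-(σ * s))) (-σ * Real.exp (-(σ * x))) x := by
    intro x
    have h3 : HasDerivAt (fun s : ℝ => -(σ * s)) (-σ) x := by
      have h3' : HasDerivAt (fun s : ℝ => -(σ * s)) (-(σ * 1)) x :=
        ((hasDerivAt_id x).const_mul σ).neg
      rwa [mul_one] at h3'
    have h4 := h3.exp
    rw [mul_comm] at h4
    exact h4
  have hv : ∀ x : ℝ, HasDerivAt (KK ρ θ) (v' x) x := fun x =>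
    hasDerivAt_KK_re ρ hθ (Or.inl hθ1)
  have hparts := integral_mul_deriv_eq_deriv_mul_of_integrable (fun x _ => hu x)
    (fun x _ => hv x) huv' hu'v huv
  have hL : ∫ s : ℝ, Real.exp (-(σ * s)) * v' s =
      Real.pi * Real.cos (σ * θ) / Real.sin (Real.pi * σ) := by
    have h3 : (fun s : ℝ => Real.exp (-(σ * s)) * v' s) = fun s => (-1) ^ ⌊ρ⌋₊ *
        (Complex.exp (((⌊ρ⌋₊ : ℝ) + 1) * θ * Complex.I) * melF q (θ * Complex.I) s).re := by
      ext s
      exact mel_uv ρ κ θ s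
    rw [h3, integral_const_mul]
    have h4 : ∫ s : ℝ, (Complex.exp (((⌊ρ⌋₊ : ℝ) + 1) * θ * Complex.I) *
        melF q (θ * Complex.I) s).re = (∫ s : ℝ, (Complex.exp (((⌊ρ⌋₊ : ℝ) + 1) * θ *
          Complex.I) * melF q (θ * Complex.I) s)).re := integral_re hF
    rw [h4, integral_const_mul, melPsi_eq hq0 hq1 him, ← mul_assoc, ← Complex.exp_add,
      Complex.re_mul_ofReal]
    have h5 : ((⌊ρ⌋₊ : ℝ) + 1 : ℂ) * θ * Complex.I + -(q * (θ * Complex.I)) =
        ((σ * θ : ℝ) : ℂ) * Complex.I := by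
      rw [hq, hσ]
      unfold kp
      push_cast
      ring
    have h6 : Real.sin (Real.pi * q) = (-1) ^ ⌊ρ⌋₊ * Real.sin (Real.pi * σ) := by
      rw [← mel_sin]
      congr 2
      rw [hq, hσ]
      unfold kp
      ring
    rw [h5, Complex.exp_ofReal_mul_I_re, h6]
    have h7 : ((-1 : ℝ) ^ ⌊ρ⌋₊) * ((-1 : ℝ) ^ ⌊ρ⌋₊) = 1 := by
      rw [← mul_pow]; norm_num
    have h8 : ((-1 : ℝ) ^ ⌊ρ⌋₊) ≠ 0 := pow_ne_zero _ (by norm_num)
    by_cases hs : Real.sin (Real.pi * σ) = 0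
    · rw [hs]; simp
    · field_simp
  have hR : ∫ s : ℝ, (-σ * Real.exp (-(σ * s))) * KK ρ θ s =
      -σ * ∫ s : ℝ, Real.exp (-(κ * s)) * kk ρ θ s := by
    rw [← integral_const_mul]
    refine integral_congr_ae (Eventually.of_forall fun s => ?_)
    simp only []
    rw [← hkK s]
    ring
  rw [hL, hR] at hparts
  unfold cc
  rw [← hσ]
  have h10 : ∫ s : ℝ, Real.exp (-(κ * s)) * kk ρ θ s =
      (Real.pi * Real.cos (σ * θ) / Real.sin (Real.pi * σ)) / σ := by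
    rw [hparts]
    field_simp
  rw [h10, div_div, mul_comm (Real.sin (Real.pi * σ)) σ]

private lemma mel_maj {ρ κ : ℝ} (hρ : 0 < ρ) (h1 : -(km ρ) < κ) (h2 : κ < kp ρ) :
    Integrable (fun s : ℝ => Real.exp (-(κ * s)) * (ph ρ s * (1 + |s| ^ (-(1 / 2) : ℝ)))) := by
  have i1 := (integrable_ph_exp h1 h2).const_mul 2
  have i2 := (integrable_majorant (ρ := ρ) (κ := -1) (by linarith [km_nonneg hρ.le])
    (by linarith [kp_pos hρ.le])).const_mul (Real.exp (|κ| + 1))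
  refine Integrable.mono' (i1.add i2) ?_ (Eventually.of_forall fun s => ?_)
  · refine Measurable.aestronglyMeasurable ?_
    have := (continuous_ph ρ).measurable
    fun_prop
  · have hp := ph_pos ρ s
    have hr : 0 ≤ |s| ^ (-(1 / 2) : ℝ) := Real.rpow_nonneg (abs_nonneg s) _
    rw [Real.norm_of_nonneg (by positivity)]
    simp only [Pi.add_apply]
    rcases le_total 1 |s| with hs | hs
    · have h3 : |s| ^ (-(1 / 2) : ℝ) ≤ 1 := Real.rpow_le_one_of_one_le_of_nonpos hs (by norm_num)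
      have h4 : 0 ≤ Real.exp (|κ| + 1) * (Real.exp (-1 * |s|) *
        (ph ρ s * (1 + |s| ^ (-(1 / 2) : ℝ)))) := by positivity
      have h5 : Real.exp (-(κ * s)) * (ph ρ s * (1 + |s| ^ (-(1 / 2) : ℝ))) ≤
          Real.exp (-(κ * s)) * (ph ρ s * (1 + 1)) := by gcongr
      have h6 : Real.exp (-(κ * s)) * (ph ρ s * (1 + 1)) = 2 * (Real.exp (-(κ * s)) * ph ρ s) := by
        ring
      linarith
    · have h3 : Real.exp (-(κ * s)) ≤ Real.exp (|κ| + 1) * Real.exp (-1 * |s|) := by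
        rw [← Real.exp_add]
        refine Real.exp_le_exp.2 ?_
        have h4 : -(κ * s) ≤ |κ| * |s| := by
          rw [← abs_mul]; exact (neg_le_abs _)
        have h5 : |κ| * |s| ≤ |κ| * 1 := mul_le_mul_of_nonneg_left hs (abs_nonneg _)
        linarith
      have h4 : 0 ≤ 2 * (Real.exp (-(κ * s)) * ph ρ s) := by positivity
      have h5 : Real.exp (-(κ * s)) * (ph ρ s * (1 + |s| ^ (-(1 / 2) : ℝ))) ≤
          Real.exp (|κ| + 1) * Real.exp (-1 * |s|) * (ph ρ s * (1 + |s| ^ (-(1 / 2) : ℝ))) := by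
        gcongr
      linarith

private lemma mel_cc_cont (ρ κ : ℝ) : Continuous (cc ρ κ) := by
  unfold cc
  fun_prop

private lemma mel_sin_pos {ρ : ℝ} (hρ : 0 < ρ) (hint : ¬ ∃ n : ℕ, ρ = n) :
    0 < (-1) ^ ⌊ρ⌋₊ * Real.sin (Real.pi * ρ) := by
  rw [← mel_sin]
  have h1 := kp_pos hρ.le
  have h2 := km_pos hρ hint
  have h3 := kp_add_km ρ
  have h4 : kp ρ = (⌊ρ⌋₊ : ℝ) + 1 - ρ := rfl
  rw [← h4]
  refine Real.sin_pos_of_pos_of_lt_pi (mul_pos Real.pi_pos h1) ?_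
  nlinarith [Real.pi_pos]

theorem integral_kk_exp {ρ κ θ : ℝ} (hρ : 0 < ρ) (h1 : -(km ρ) < κ) (h2 : κ < kp ρ)
    (hθ : θ ∈ Icc (0 : ℝ) Real.pi) :
    ∫ s : ℝ, Real.exp (-(κ * s)) * kk ρ θ s = cc ρ κ θ := by
  rcases eq_or_lt_of_le hθ.2 with h | h
  · subst h
    have hlim : Tendsto (fun θ => ∫ s : ℝ, Real.exp (-(κ * s)) * kk ρ θ s) (𝓝[<] Real.pi)
        (𝓝 (∫ s : ℝ, Real.exp (-(κ * s)) * kk ρ Real.pi s)) := by
      obtain ⟨C, hC, hb⟩ := abs_kk_le ρ
      have hev : ∀ᶠ θ in 𝓝[<] Real.pi, θ ∈ Icc (0 : ℝ) Real.pi := by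
        have h3 : ∀ᶠ θ in 𝓝[<] Real.pi, (0 : ℝ) < θ :=
          nhdsWithin_le_nhds (lt_mem_nhds Real.pi_pos)
        filter_upwards [h3, self_mem_nhdsWithin] with θ h4 h5
        exact ⟨h4.le, le_of_lt h5⟩
      refine tendsto_integral_filter_of_dominated_convergence
        (fun s => C * (Real.exp (-(κ * s)) * (ph ρ s * (1 + |s| ^ (-(1 / 2) : ℝ))))) ?_ ?_
        ((mel_maj hρ h1 h2).const_mul C) ?_
      · refine Eventually.of_forall fun θ => ?_
        refine Measurable.aestronglyMeasurable ?_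
        have := measurable_kk ρ θ
        fun_prop
      · filter_upwards [hev] with θ hθ'
        have hne : ∀ᵐ s : ℝ, s ≠ 0 := by
          rw [ae_iff]
          simp
        filter_upwards [hne] with s hs
        rw [norm_mul, Real.norm_of_nonneg (Real.exp_pos _).le, Real.norm_eq_abs]
        have h3 := hb θ hθ' s hs
        calc Real.exp (-(κ * s)) * |kk ρ θ s| ≤ Real.exp (-(κ * s)) *
            (C * (ph ρ s * (1 + |s| ^ (-(1 / 2) : ℝ)))) := by gcongr
          _ = _ := by ring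
      · have hne : ∀ᵐ s : ℝ, s ≠ 0 := by
          rw [ae_iff]
          simp
        filter_upwards [hne] with s hs
        refine Tendsto.const_mul _ ?_
        have h3 := (continuousOn_kk ρ) (Real.pi, s) ⟨⟨Real.pi_pos.le, le_rfl⟩, Or.inr hs⟩
        have h4 : Tendsto (fun θ : ℝ => (θ, s)) (𝓝[<] Real.pi)
            (𝓝[{q : ℝ × ℝ | q.1 ∈ Icc (0 : ℝ) Real.pi ∧ (q.1 < Real.pi ∨ q.2 ≠ 0)}]
              (Real.pi, s)) := by
          refine tendsto_nhdsWithin_iff.2 ⟨?_, ?_⟩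
          · have h5 : Tendsto (fun θ : ℝ => (θ, s)) (𝓝 Real.pi) (𝓝 (Real.pi, s)) :=
              (by fun_prop : Continuous fun θ : ℝ => (θ, s)).tendsto Real.pi
            exact h5.mono_left nhdsWithin_le_nhds
          · filter_upwards [hev] with θ hθ'
            exact ⟨hθ', Or.inr hs⟩
        exact h3.tendsto.comp h4
    have hlim2 : Tendsto (fun θ => ∫ s : ℝ, Real.exp (-(κ * s)) * kk ρ θ s) (𝓝[<] Real.pi)
        (𝓝 (cc ρ κ Real.pi)) := by
      have h3 : Tendsto (cc ρ κ) (𝓝[<] Real.pi) (𝓝 (cc ρ κ Real.pi)) :=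
        ((mel_cc_cont ρ κ).tendsto Real.pi).mono_left nhdsWithin_le_nhds
      refine h3.congr' ?_
      have h4 : ∀ᶠ θ in 𝓝[<] Real.pi, (0 : ℝ) < θ :=
        nhdsWithin_le_nhds (lt_mem_nhds Real.pi_pos)
      filter_upwards [h4, self_mem_nhdsWithin] with θ h5 h6
      exact (mel_lt_pi hρ h1 h2 h5.le h6).symm
    exact tendsto_nhds_unique hlim hlim2
  · exact mel_lt_pi hρ h1 h2 hθ.1 h

theorem integral_kk {ρ θ : ℝ} (hρ : 0 < ρ) (hint : ¬ ∃ n : ℕ, ρ = n)
    (hθ : θ ∈ Icc (0 : ℝ) Real.pi) : ∫ s : ℝ, kk ρ θ s = cc ρ 0 θ := by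
  have h := integral_kk_exp (κ := 0) hρ (by linarith [km_pos hρ hint]) (kp_pos hρ.le) hθ
  simpa using h

lemma integrable_mul_kk {ρ θ : ℝ} (hρ : 0 < ρ) (hint : ¬ ∃ n : ℕ, ρ = n)
    (hθ : θ ∈ Icc (0 : ℝ) Real.pi) : Integrable (fun s : ℝ => s * kk ρ θ s) := by
  have h1 := km_pos hρ hint
  have h2 := kp_pos hρ.le
  set κ := min (km ρ) (kp ρ) / 2 with hκ
  have hm : 0 < min (km ρ) (kp ρ) := lt_min h1 h2
  have hκ0 : 0 < κ := by rw [hκ]; linarith
  have hκ1 : κ < km ρ := by have := min_le_left (km ρ) (kp ρ); rw [hκ]; linarith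
  have hκ2 : κ < kp ρ := by have := min_le_right (km ρ) (kp ρ); rw [hκ]; linarith
  refine Integrable.mono' ((integrable_kk_abs hκ1 hκ2 hθ).const_mul (1 / κ)) ?_
    (Eventually.of_forall fun s => ?_)
  · exact (measurable_id.mul (measurable_kk ρ θ)).aestronglyMeasurable
  · rw [norm_mul, Real.norm_eq_abs, Real.norm_eq_abs, ← mul_assoc]
    refine mul_le_mul_of_nonneg_right ?_ (abs_nonneg _)
    rw [one_div, ← div_eq_inv_mul, le_div_iff₀ hκ0]
    have := Real.add_one_le_exp (κ * |s|)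
    linarith

theorem integral_mul_kk {ρ θ : ℝ} (hρ : 0 < ρ) (hint : ¬ ∃ n : ℕ, ρ = n)
    (hθ : θ ∈ Icc (0 : ℝ) Real.pi) (hz : Real.cos (ρ * θ) = 0) :
    ∫ s : ℝ, s * kk ρ θ s = DD ρ θ := by
  have h1 := km_pos hρ hint
  have h2 := kp_pos hρ.le
  set κ₂ := min (km ρ) (kp ρ) / 2 with hκ
  have hm : 0 < min (km ρ) (kp ρ) := lt_min h1 h2
  have hκ0 : 0 < κ₂ := by rw [hκ]; linarith
  have hκ1 : κ₂ < km ρ := by have := min_le_left (km ρ) (kp ρ); rw [hκ]; linarith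
  have hκ2 : κ₂ < kp ρ := by have := min_le_right (km ρ) (kp ρ); rw [hκ]; linarith
  have hd := hasDerivAt_integral_of_dominated_loc_of_deriv_le (μ := volume)
    (F := fun (κ : ℝ) (s : ℝ) => Real.exp (-(κ * s)) * kk ρ θ s)
    (F' := fun (κ : ℝ) (s : ℝ) => -s * Real.exp (-(κ * s)) * kk ρ θ s)
    (x₀ := 0) (s := Metric.ball 0 (κ₂ / 2))
    (bound := fun s => 2 / κ₂ * (Real.exp (κ₂ * |s|) * |kk ρ θ s|))
    (Metric.ball_mem_nhds 0 (by positivity))
    (Eventually.of_forall fun κ => by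
      refine Measurable.aestronglyMeasurable ?_
      have := measurable_kk ρ θ
      fun_prop)
    (integrable_kk_exp (by linarith) (by linarith) hθ)
    (by
      refine Measurable.aestronglyMeasurable ?_
      have := measurable_kk ρ θ
      fun_prop)
    (Eventually.of_forall fun s κ hκ' => by
      rw [Metric.mem_ball, dist_zero_right, Real.norm_eq_abs] at hκ'
      rw [norm_mul, norm_mul, norm_neg, Real.norm_eq_abs, Real.norm_eq_abs, Real.norm_eq_abs,
        ← mul_assoc, abs_of_pos (Real.exp_pos _)]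
      refine mul_le_mul_of_nonneg_right ?_ (abs_nonneg _)
      have e1 : -(κ * s) ≤ κ₂ / 2 * |s| := by
        have h3 : -(κ * s) ≤ |κ| * |s| := by rw [← abs_mul]; exact neg_le_abs _
        have h4 : |κ| * |s| ≤ κ₂ / 2 * |s| := mul_le_mul_of_nonneg_right hκ'.le (abs_nonneg _)
        linarith
      have e2 : |s| ≤ 2 / κ₂ * Real.exp (κ₂ / 2 * |s|) := by
        rw [div_mul_eq_mul_div, le_div_iff₀ hκ0]
        have := Real.add_one_le_exp (κ₂ / 2 * |s|)
        linarith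
      calc |s| * Real.exp (-(κ * s)) ≤ (2 / κ₂ * Real.exp (κ₂ / 2 * |s|)) *
          Real.exp (κ₂ / 2 * |s|) := by gcongr
        _ = 2 / κ₂ * Real.exp (κ₂ * |s|) := by
          rw [mul_assoc, ← Real.exp_add]
          congr 2
          ring)
    ((integrable_kk_abs hκ1 hκ2 hθ).const_mul _)
    (Eventually.of_forall fun s κ _ => by
      have h3 : HasDerivAt (fun κ : ℝ => -(κ * s)) (-(1 * s)) κ :=
        ((hasDerivAt_id κ).mul_const s).neg
      have h4 := (h3.exp).mul_const (kk ρ θ s)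
      refine h4.congr_deriv ?_
      ring)
  have hd1 : HasDerivAt (fun κ : ℝ => ∫ s : ℝ, Real.exp (-(κ * s)) * kk ρ θ s)
      (-∫ s : ℝ, s * kk ρ θ s) 0 := by
    have h3 := hd.2
    have h4 : ∫ s : ℝ, -s * Real.exp (-(0 * s)) * kk ρ θ s = -∫ s : ℝ, s * kk ρ θ s := by
      rw [← integral_neg]
      refine integral_congr_ae (Eventually.of_forall fun s => ?_)
      simp
    rw [h4] at h3
    exact h3
  have hd2 : HasDerivAt (fun κ : ℝ => cc ρ κ θ) (-∫ s : ℝ, s * kk ρ θ s) 0 := by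
    refine hd1.congr_of_eventuallyEq ?_
    have h3 : ∀ᶠ κ : ℝ in 𝓝 0, -(km ρ) < κ := lt_mem_nhds (by linarith)
    have h4 : ∀ᶠ κ : ℝ in 𝓝 0, κ < kp ρ := gt_mem_nhds h2
    filter_upwards [h3, h4] with κ h5 h6
    exact (integral_kk_exp hρ h5 h6 hθ).symm
  have hs := mel_sin_pos hρ hint
  have hs0 : Real.sin (Real.pi * ρ) ≠ 0 := by
    intro h3
    rw [h3, mul_zero] at hs
    exact lt_irrefl _ hs
  have hd3 : HasDerivAt (fun κ : ℝ => cc ρ κ θ) (-(DD ρ θ)) 0 := by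
    have e0 : HasDerivAt (fun κ : ℝ => ρ + κ) 1 0 := (hasDerivAt_id (0 : ℝ)).const_add ρ
    have e1 : HasDerivAt (fun κ : ℝ => (ρ + κ) * θ) θ 0 := by
      have := e0.mul_const θ
      rwa [one_mul] at this
    have e2 := (e1.cos).const_mul Real.pi
    have e3 : HasDerivAt (fun κ : ℝ => Real.pi * (ρ + κ)) Real.pi 0 := by
      have := e0.const_mul Real.pi
      rwa [mul_one] at this
    have e4 := e0.mul e3.sin
    have hne : (ρ + 0) * Real.sin (Real.pi * (ρ + 0)) ≠ 0 := by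
      rw [add_zero]
      exact mul_ne_zero hρ.ne' hs0
    have e5 := e2.div e4 hne
    have e6 : HasDerivAt (fun κ : ℝ => cc ρ κ θ) _ 0 := e5
    refine e6.congr_deriv ?_
    simp only [Pi.mul_apply, add_zero, hz, mul_zero, zero_mul, sub_zero]
    unfold DD
    field_simp
  have := hd2.unique hd3
  linarith

lemma U_affine {ρ θ : ℝ} (hρ : 0 < ρ) (hint : ¬ ∃ n : ℕ, ρ = n)
    (hθ : θ ∈ Icc (0 : ℝ) Real.pi) (A b x : ℝ) :
    U ρ θ (fun y => A + b * y) x = cc ρ 0 θ * (A + b * x) - b * ∫ s : ℝ, s * kk ρ θ s := by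
  have hi1 := integrable_kk hρ hint hθ
  have hi2 := integrable_mul_kk hρ hint hθ
  unfold U
  rw [← integral_sub_left_eq_self (fun y => kk ρ θ (x - y) * (A + b * y)) volume x]
  have h1 : ∀ s : ℝ, kk ρ θ (x - (x - s)) * (A + b * (x - s)) =
      (A + b * x) * kk ρ θ s - b * (s * kk ρ θ s) := by
    intro s
    rw [sub_sub_cancel]
    ring
  simp only [h1]
  rw [integral_sub (hi1.const_mul _) (hi2.const_mul _), integral_const_mul, integral_const_mul,
    integral_kk hρ hint hθ]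
  ring

lemma U_const {ρ θ : ℝ} (hρ : 0 < ρ) (hint : ¬ ∃ n : ℕ, ρ = n)
    (hθ : θ ∈ Icc (0 : ℝ) Real.pi) (A x : ℝ) :
    U ρ θ (fun _ => A) x = cc ρ 0 θ * A := by
  have h := U_affine hρ hint hθ A 0 x
  simpa using h

lemma U_exp {ρ κ θ : ℝ} (hρ : 0 < ρ) (h1 : -(km ρ) < κ) (h2 : κ < kp ρ)
    (hθ : θ ∈ Icc (0 : ℝ) Real.pi) (x : ℝ) :
    U ρ θ (fun y => Real.exp (κ * y)) x = cc ρ κ θ * Real.exp (κ * x) := by
  unfold U
  rw [← integral_sub_left_eq_self (fun y => kk ρ θ (x - y) * Real.exp (κ * y)) volume x]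
  have h3 : ∀ s : ℝ, kk ρ θ (x - (x - s)) * Real.exp (κ * (x - s)) =
      Real.exp (κ * x) * (Real.exp (-(κ * s)) * kk ρ θ s) := by
    intro s
    rw [sub_sub_cancel, ← mul_assoc, ← Real.exp_add, mul_comm]
    congr 2
    ring
  simp only [h3]
  rw [integral_const_mul, integral_kk_exp hρ h1 h2 hθ, mul_comm]

/-- `cc ρ 0 θ` has the sign of `sg ρ θ` -/
lemma cc_eq_sg {ρ : ℝ} (hρ : 0 < ρ) (hint : ¬ ∃ n : ℕ, ρ = n) :
    ∃ c > 0, ∀ θ, cc ρ 0 θ = c * sg ρ θ := by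
  have hs := mel_sin_pos hρ hint
  refine ⟨Real.pi / (ρ * ((-1) ^ ⌊ρ⌋₊ * Real.sin (Real.pi * ρ))), ?_, fun θ => ?_⟩
  · have := Real.pi_pos
    positivity
  · unfold cc sg
    rw [add_zero]
    have h1 : ((-1 : ℝ) ^ ⌊ρ⌋₊) ≠ 0 := pow_ne_zero _ (by norm_num)
    have hs0 : Real.sin (Real.pi * ρ) ≠ 0 := by
      intro h3
      rw [h3, mul_zero] at hs
      exact lt_irrefl _ hs
    field_simp

lemma continuous_cc_theta (ρ κ : ℝ) : Continuous (cc ρ κ) := by
  exact mel_cc_cont ρ κ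

lemma DD_LE {ρ l : ℝ} (hρ : 0 < ρ) (hint : ¬ ∃ n : ℕ, ρ = n) (hl : LE ρ l) : 0 < DD ρ l := by
  obtain ⟨h0, h1, h2, h3⟩ := hl
  have hs := mel_sin_pos hρ hint
  have hl0 : 0 < l := by
    rcases eq_or_lt_of_le h0 with h | h
    · rw [← h, mul_zero, Real.cos_zero] at h2
      norm_num at h2
    · exact h
  have h4 : ((-1 : ℝ) ^ ⌊ρ⌋₊) ≠ 0 := pow_ne_zero _ (by norm_num)
  have h5 : DD ρ l = Real.pi * l * ((-1) ^ ⌊ρ⌋₊ * Real.sin (ρ * l)) /
      (ρ * ((-1) ^ ⌊ρ⌋₊ * Real.sin (Real.pi * ρ))) := by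
    have hs0 : Real.sin (Real.pi * ρ) ≠ 0 := by
      intro h3
      rw [h3, mul_zero] at hs
      exact lt_irrefl _ hs
    unfold DD
    field_simp
  rw [h5]
  have := Real.pi_pos
  positivity

lemma DD_RE {ρ r : ℝ} (hρ : 0 < ρ) (hint : ¬ ∃ n : ℕ, ρ = n) (hr : RE ρ r) : DD ρ r < 0 := by
  obtain ⟨h0, h1, h2, h3⟩ := hr
  have hs := mel_sin_pos hρ hint
  have hl0 : 0 < r := by
    rcases eq_or_lt_of_le h0 with h | h
    · rw [← h, mul_zero, Real.cos_zero] at h2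
      norm_num at h2
    · exact h
  have h4 : ((-1 : ℝ) ^ ⌊ρ⌋₊) ≠ 0 := pow_ne_zero _ (by norm_num)
  have h5 : DD ρ r = -(Real.pi * r * (-((-1) ^ ⌊ρ⌋₊ * Real.sin (ρ * r))) /
      (ρ * ((-1) ^ ⌊ρ⌋₊ * Real.sin (Real.pi * ρ)))) := by
    have hs0 : Real.sin (Real.pi * ρ) ≠ 0 := by
      intro h3
      rw [h3, mul_zero] at hs
      exact lt_irrefl _ hs
    unfold DD
    field_simp
  rw [h5, neg_lt_zero]
  have := Real.pi_pos
  have h6 : 0 < -((-1) ^ ⌊ρ⌋₊ * Real.sin (ρ * r)) := by linarith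
  positivity

end Helper25.Ind
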