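import Pool.Agent.Helper25.Ind2.Patch
import Pool.Agent.Helper25.Ind2.Mellin

/-!
# IND2 A1: patches, class A (`0 ≤ h l` at all left end points)

PROOF of `patch_a`. For `θ ∈ J`: `h θ < γ θ < ⊤`, so not `0 < sg ρ θ` (`InfCond.off`), hence `cc ρ 0 θ ≤ 0` (`cc_eq_sg`). If `cc ρ 0 θ < 0`, `cc ρ 0 θ * A < γ θ` for `A` large. If `cc ρ 0 θ = 0` then `cos ρθ = 0`, `sin ρθ = ±1`, `θ` is `LE` or `RE`, so `0 ≤ h θ`, `0 < γ θ`. `A₀` = maximum over `J` and `0`.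
Enumerate `J` by `Fin n`. Apply `patch_const` with `k j = kk ρ (φ j)`, `k₀ = kk ρ τ` (`integrable_kk`, `integral_kk`). `hcert`: `hh.maj` gives `h τ ≤ ∑ μ j(ℝ) h(φ j) ≤ ∑ μ j(ℝ) γ j` in `EReal` (`h(φ j) ≤ γ j`, `0 ≤ μ j(ℝ)`), and `t < h τ`.
`U ρ θ (fun y => A + m y) x = ∫ kk ρ θ (x-y) (A + m y) dy` by definition, `0 - y = -y`.
`limsup_eq_of`: `≤`: `le_of_forall_gt`-type argument with real `c > v` (`limsup_le_of_le`), `≥`: for real `c < v`, `le_limsup_of_frequently_le`.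
-/

open Filter Topology MeasureTheory Set

namespace Helper25.Ind

lemma zero_LE_or_RE {ρ θ : ℝ} (hθ : θ ∈ Icc (0 : ℝ) Real.pi) (hz : Real.cos (ρ * θ) = 0) :
    LE ρ θ ∨ RE ρ θ := by
  have h1 := Real.sin_sq_add_cos_sq (ρ * θ)
  rw [hz] at h1
  have h2 : (-1 : ℝ) ^ ⌊ρ⌋₊ * Real.sin (ρ * θ) ≠ 0 := by
    apply mul_ne_zero (pow_ne_zero _ (by norm_num))
    intro h
    rw [h] at h1
    norm_num at h1
  rcases lt_or_gt_of_ne h2 with h | h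
  · exact Or.inr ⟨hθ.1, hθ.2, hz, h⟩
  · exact Or.inl ⟨hθ.1, hθ.2, hz, h⟩

private lemma pa_coe_sum {n : ℕ} (f : Fin n → ℝ) :
    ((∑ j, f j : ℝ) : EReal) = ∑ j, ((f j : ℝ) : EReal) :=
  map_sum (⟨⟨fun x : ℝ => (x : EReal), EReal.coe_zero⟩, EReal.coe_add⟩ : ℝ →+ EReal) f _

private lemma pa_ev {ρ : ℝ} (hρ : 0 < ρ) (hint : ¬ ∃ n : ℕ, ρ = n) {h : ℝ → EReal}
    (hh : InfCond ρ h) (hcl : ∀ l, LE ρ l → 0 ≤ h l) {θ g : ℝ} (hθ : θ ∈ Icc (0 : ℝ) Real.pi)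
    (hg : h θ < ((g : ℝ) : EReal)) : ∀ᶠ A in atTop, cc ρ 0 θ * A < g := by
  have h0 : ¬ 0 < sg ρ θ := by
    intro hp
    rw [hh.off θ hθ hp] at hg
    exact not_top_lt hg
  obtain ⟨c, hc, hcc⟩ := cc_eq_sg hρ hint
  rcases lt_or_eq_of_le (not_lt.1 h0) with h1 | h1
  · have h2 : cc ρ 0 θ < 0 := by
      rw [hcc]
      exact mul_neg_of_pos_of_neg hc h1
    exact (tendsto_id.const_mul_atTop_of_neg h2).eventually_lt_atBot g
  · have h2 : Real.cos (ρ * θ) = 0 := by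
      unfold sg at h1
      exact (mul_eq_zero.1 h1).resolve_left (pow_ne_zero _ (by norm_num))
    have h3 : 0 ≤ h θ := by
      rcases zero_LE_or_RE hθ h2 with h4 | h4
      · exact hcl _ h4
      · exact hh.right _ h4
    have h4 : 0 < g := by
      have := lt_of_le_of_lt h3 hg
      exact_mod_cast this
    refine Eventually.of_forall fun A => ?_
    rw [hcc, h1, mul_zero, zero_mul]
    exact h4

theorem patch_a {ρ : ℝ} (hρ : 0 < ρ) (hint : ¬ ∃ n : ℕ, ρ = n) {h : ℝ → EReal}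
    (hh : InfCond ρ h) (hcl : ∀ l, LE ρ l → 0 ≤ h l) (J : Finset ℝ) (γ : ℝ → ℝ)
    (hJ : ∀ θ ∈ J, θ ∈ Icc (0 : ℝ) Real.pi ∧ h θ < ((γ θ : ℝ) : EReal)) {τ t : ℝ}
    (hτ : τ ∈ Icc (0 : ℝ) Real.pi) (ht : (t : EReal) < h τ) :
    ∃ A₀ : ℝ, ∀ A, A₀ ≤ A → (∀ θ ∈ J, cc ρ 0 θ * A < γ θ) ∧
      ∃ m : ℝ → ℝ, Continuous m ∧ HasCompactSupport m ∧ (∀ y, 0 ≤ A + m y) ∧
        (∀ θ ∈ J, ∀ x, U ρ θ (fun y => A + m y) x < γ θ) ∧
        t < U ρ τ (fun y => A + m y) 0 := by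
  have hev : ∀ᶠ A in atTop, (∀ θ ∈ J, cc ρ 0 θ * A < γ θ) ∧ 0 ≤ A :=
    ((Filter.eventually_all_finset J).2 fun θ hθ =>
      pa_ev hρ hint hh hcl (hJ θ hθ).1 (hJ θ hθ).2).and (eventually_ge_atTop 0)
  obtain ⟨A₀, hA₀⟩ := eventually_atTop.1 hev
  refine ⟨A₀, fun A hA => ?_⟩
  obtain ⟨h1, h2⟩ := hA₀ A hA
  refine ⟨h1, ?_⟩
  obtain ⟨n, φ, hφJ, hφs⟩ : ∃ (n : ℕ) (φ : Fin n → ℝ), (∀ j, φ j ∈ J) ∧ ∀ θ ∈ J, ∃ j, φ j = θ := by
    refine ⟨J.card, fun j => (J.equivFin.symm j : ℝ), fun j => (J.equivFin.symm j).2, ?_⟩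
    intro θ hθ
    exact ⟨J.equivFin ⟨θ, hθ⟩, by simp⟩
  have hcert : ∀ μ : Fin n → Measure ℝ, (∀ j, IsFiniteMeasure (μ j)) →
      (∀ᵐ s : ℝ, kk ρ τ s ≤ ∑ j, ∫ x, kk ρ (φ j) (s + x) ∂(μ j)) →
      t < ∑ j, γ (φ j) * (μ j univ).toReal := by
    intro μ hμ hae
    have h3 := hh.maj n φ μ τ hμ (fun j => (hJ _ (hφJ j)).1) hτ
      (fun j => ne_top_of_lt (hJ _ (hφJ j)).2) hae
    have h4 : ∑ j, (((μ j univ).toReal : ℝ) : EReal) * h (φ j) ≤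
        ((∑ j, γ (φ j) * (μ j univ).toReal : ℝ) : EReal) := by
      rw [pa_coe_sum]
      refine Finset.sum_le_sum fun j _ => ?_
      rw [mul_comm (γ (φ j)), EReal.coe_mul]
      refine mul_le_mul_of_nonneg_left (hJ _ (hφJ j)).2.le ?_
      exact_mod_cast ENNReal.toReal_nonneg
    have h5 := lt_of_lt_of_le ht (h3.trans h4)
    exact_mod_cast h5
  obtain ⟨m, hm1, hm2, hm3, hm4, hm5⟩ := patch_const (fun j => kk ρ (φ j)) (kk ρ τ)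
    (fun j => integrable_kk hρ hint (hJ _ (hφJ j)).1) (integrable_kk hρ hint hτ)
    (fun j => γ (φ j)) A t h2 (fun j => by
      rw [integral_kk hρ hint (hJ _ (hφJ j)).1, mul_comm]
      exact h1 _ (hφJ j)) hcert
  refine ⟨m, hm1, hm2, hm3, ?_, ?_⟩
  · intro θ hθ x
    obtain ⟨j, rfl⟩ := hφs θ hθ
    exact hm4 j x
  · unfold U
    simpa only [zero_sub] using hm5

lemma limsup_eq_of (u : ℝ → ℝ) (v : EReal)
    (hup : ∀ c : ℝ, v < (c : EReal) → ∀ᶠ x in atTop, u x ≤ c)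
    (hlow : ∀ c : ℝ, (c : EReal) < v → ∃ᶠ x in atTop, c ≤ u x) :
    limsup (fun x => ((u x : ℝ) : EReal)) atTop = v := by
  apply le_antisymm
  · refine le_of_forall_gt_imp_ge_of_dense fun a ha => ?_
    obtain ⟨c, hc1, hc2⟩ := EReal.lt_iff_exists_real_btwn.1 ha
    refine le_trans ?_ hc2.le
    refine limsup_le_of_le (h := ?_)
    filter_upwards [hup c hc1] with x hx
    exact_mod_cast hx
  · refine le_of_forall_lt_imp_le_of_dense fun a ha => ?_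
    obtain ⟨c, hc1, hc2⟩ := EReal.lt_iff_exists_real_btwn.1 ha
    refine le_trans hc1.le ?_
    refine le_limsup_of_frequently_le ?_
    exact (hlow c hc2).mono fun x hx => by exact_mod_cast hx

end Helper25.Ind
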