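import Pool.Agent.Helper25.Ind2.KInt

/-!
# IND2 R1: densities on the log scale and the measure `dens ρ N` on the `t` scale

`dens ρ N` has density `N(log t) t^{ρ-1}` on `(1, ∞)`; the substitution `t = e^y` turns it into `N(y) e^{ρ y} dy` on `(0, ∞)`.
PROOFS.
* `dens_Iic`: `(dens ρ N)(Iic t) = ∫⁻_{(1,t]} = ∫⁻_{(0, log t]} ofReal(N y e^{ρ y}) dy` (change of variables `t = e^y`, e.g. `lintegral_image_eq_lintegral_abs_deriv_mul` with `Real.exp`).
* `dens_map`: for measurable `g ≥ 0`: `∫⁻ g d(dens) = ∫⁻_{y>0} g(e^y) ofReal (N y e^{ρ y}) dy`, same for Bochner integrals.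
* `dens_growth`: `∫_0^{log t} N e^{ρ y} dy ≤ ∑_{k ≤ log t} C e^{ε k} e^{ρ(k+1)} ≤ C' t^{ρ+ε}` with `ε = ρ' - ρ`, for `t ≥ 1`; zero for `t ≤ 1`.
* `dens_univ`: `low` gives infinitely many disjoint unit intervals with mass `≥ e^{ρ y} ≥ 1`.
* `integrable_U`: `∫ |kk(x-y)| N y dy`: split in unit intervals `[k,k+1]`, `k ≥ 0`: if `|x - y| ≥ 1` on it, `|kk| ≤ C ph(x-y) ≤ C' e^{-κ|x-k|}` (`abs_kk_le_far`, `ph_le_exp`, `ph_le_pos`) times mass `C_ε e^{ε k}` with `ε < κ`; the at most three remaining intervals: `N` is bounded there (`sup`)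
  and `kk ∈ L¹` (`integrable_kk`).
* `dens_ker`: `ker p (e^x e^{iθ}) (e^y) = e^{ρ(x-y)} kk ρ θ (x-y)` (`ker_scale`), so `ker p z t d(dens) ↔ e^{ρ(x-y)} kk(x-y) N y e^{ρ y} dy = e^{ρ x} kk(x-y) N y dy`.
-/

open Complex Filter Topology MeasureTheory Set

namespace Helper25.Ind

/-- admissible densities on the log scale -/
structure DensOK (N : ℝ → ℝ) : Prop where
  meas : Measurable N
  nonneg : ∀ y, 0 ≤ N y
  zero : ∀ y, y ≤ 0 → N y = 0
  sup : ∀ ε : ℝ, 0 < ε → ∃ C : ℝ, ∀ y, 0 ≤ y → N y ≤ Real.exp (C * Real.exp (ε * y))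
  mass : ∀ ε : ℝ, 0 < ε → ∃ C : ℝ, ∀ y, 0 ≤ y → ∫ t in Icc y (y + 1), N t ≤ C * Real.exp (ε * y)
  low : ∀ Y : ℝ, ∃ y, Y ≤ y ∧ 1 ≤ ∫ t in Icc y (y + 1), N t

/-- the measure on the `t` scale -/
noncomputable def dens (ρ : ℝ) (N : ℝ → ℝ) : Measure ℝ :=
  (volume.restrict (Ioi (1 : ℝ))).withDensity
    (fun t => ENNReal.ofReal (N (Real.log t) * t ^ (ρ - 1)))

private lemma rd_img : (Real.exp '' Ioi (0 : ℝ)) = Ioi (1 : ℝ) := by
  ext t
  constructor
  · rintro ⟨y, hy, rfl⟩
    exact Real.one_lt_exp_iff.2 hy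
  · intro ht
    exact ⟨Real.log t, Real.log_pos ht, Real.exp_log (lt_trans one_pos ht)⟩

private lemma rd_w (ρ y c : ℝ) :
    Real.exp y * (c * (Real.exp y) ^ (ρ - 1)) = c * Real.exp (ρ * y) := by
  rw [← Real.exp_mul, mul_left_comm, ← Real.exp_add]
  congr 2
  ring

private lemma rd_meas (ρ : ℝ) {N : ℝ → ℝ} (hm : Measurable N) :
    Measurable (fun t : ℝ => ENNReal.ofReal (N (Real.log t) * t ^ (ρ - 1))) := by
  have h1 : Measurable (fun t : ℝ => N (Real.log t)) := hm.comp Real.measurable_log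
  fun_prop

private lemma rd_der : ∀ x ∈ Ioi (0 : ℝ),
    HasDerivWithinAt Real.exp (Real.exp x) (Ioi (0 : ℝ)) x :=
  fun x _ => (Real.hasDerivAt_exp x).hasDerivWithinAt

lemma dens_lintegral (ρ : ℝ) {N : ℝ → ℝ} (hN : DensOK N) {g : ℝ → ENNReal} (hg : Measurable g) :
    ∫⁻ t, g t ∂(dens ρ N) =
      ∫⁻ y in Ioi (0 : ℝ), g (Real.exp y) * ENNReal.ofReal (N y * Real.exp (ρ * y)) := by
  unfold dens
  rw [lintegral_withDensity_eq_lintegral_mul _ (rd_meas ρ hN.meas) hg, ← rd_img,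
    lintegral_image_eq_lintegral_abs_deriv_mul measurableSet_Ioi rd_der
      Real.exp_injective.injOn]
  refine setLIntegral_congr_fun measurableSet_Ioi (fun y _ => ?_)
  simp only [Pi.mul_apply]
  rw [Real.log_exp, abs_of_pos (Real.exp_pos y), ← mul_assoc,
    ← ENNReal.ofReal_mul (Real.exp_pos y).le, rd_w, mul_comm]

lemma dens_integral (ρ : ℝ) {N : ℝ → ℝ} (hN : DensOK N) (g : ℝ → ℝ) :
    (Integrable g (dens ρ N) ↔
      IntegrableOn (fun y => g (Real.exp y) * (N y * Real.exp (ρ * y))) (Ioi (0 : ℝ))) ∧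
    ∫ t, g t ∂(dens ρ N) = ∫ y in Ioi (0 : ℝ), g (Real.exp y) * (N y * Real.exp (ρ * y)) := by
  have hm := rd_meas ρ hN.meas
  have hlt : ∀ᵐ t ∂(volume.restrict (Ioi (1 : ℝ))),
      ENNReal.ofReal (N (Real.log t) * t ^ (ρ - 1)) < ⊤ :=
    Eventually.of_forall fun _ => ENNReal.ofReal_lt_top
  have hpt : ∀ y : ℝ, |Real.exp y| • ((ENNReal.ofReal (N (Real.log (Real.exp y)) *
      Real.exp y ^ (ρ - 1))).toReal • g (Real.exp y)) =
      g (Real.exp y) * (N y * Real.exp (ρ * y)) := by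
    intro y
    rw [Real.log_exp, abs_of_pos (Real.exp_pos y), ENNReal.toReal_ofReal
      (mul_nonneg (hN.nonneg _) (Real.rpow_nonneg (Real.exp_pos y).le _)), smul_eq_mul,
      smul_eq_mul, ← mul_assoc, rd_w, mul_comm]
  constructor
  · unfold dens
    rw [integrable_withDensity_iff_integrable_smul' hm hlt]
    change IntegrableOn _ (Ioi (1 : ℝ)) volume ↔ _
    rw [← rd_img, integrableOn_image_iff_integrableOn_abs_deriv_smul measurableSet_Ioi rd_der
      Real.exp_injective.injOn]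
    exact integrableOn_congr_fun (fun y _ => hpt y) measurableSet_Ioi
  · unfold dens
    rw [integral_withDensity_eq_integral_toReal_smul hm hlt, ← rd_img,
      integral_image_eq_integral_abs_deriv_smul measurableSet_Ioi rd_der
        Real.exp_injective.injOn]
    exact setIntegral_congr_fun measurableSet_Ioi (fun y _ => hpt y)

lemma dens_Iic_one (ρ : ℝ) (N : ℝ → ℝ) : dens ρ N (Iic 1) = 0 := by
  unfold dens
  refine withDensity_absolutelyContinuous _ _ ?_
  rw [Measure.restrict_apply measurableSet_Iic]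
  have h : Iic (1 : ℝ) ∩ Ioi 1 = ∅ := by
    ext t
    simp
  rw [h, measure_empty]

private lemma rd_bd {N : ℝ → ℝ} (hN : DensOK N) (b : ℝ) : ∃ M : ℝ, 0 ≤ M ∧
    ∀ y, y ≤ b → |N y| ≤ M := by
  obtain ⟨C, hC⟩ := hN.sup 1 one_pos
  refine ⟨Real.exp (|C| * Real.exp b), (Real.exp_pos _).le, fun y hy => ?_⟩
  rw [abs_of_nonneg (hN.nonneg y)]
  rcases le_or_gt 0 y with h | h
  · refine (hC y h).trans (Real.exp_le_exp.2 ?_)
    rw [one_mul]
    have h1 : Real.exp y ≤ Real.exp b := Real.exp_le_exp.2 hy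
    have h2 : C * Real.exp y ≤ |C| * Real.exp y :=
      mul_le_mul_of_nonneg_right (le_abs_self C) (Real.exp_pos y).le
    have h3 : |C| * Real.exp y ≤ |C| * Real.exp b := mul_le_mul_of_nonneg_left h1 (abs_nonneg C)
    linarith
  · rw [hN.zero y h.le]
    exact (Real.exp_pos _).le

private lemma rd_loc {N : ℝ → ℝ} (hN : DensOK N) {f : ℝ → ℝ} (hf : Continuous f) (a b : ℝ) :
    IntegrableOn (fun y => f y * N y) (Icc a b) := by
  obtain ⟨M, hM, h⟩ := rd_bd hN b
  have h1 : IntegrableOn N (Icc a b) := by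
    refine Measure.integrableOn_of_bounded (M := M) (by simp) hN.meas.aestronglyMeasurable ?_
    filter_upwards [ae_restrict_mem measurableSet_Icc] with y hy
    rw [Real.norm_eq_abs]
    exact h y hy.2
  exact h1.continuousOn_mul hf.continuousOn isCompact_Icc

private lemma rd_ii {N : ℝ → ℝ} (hN : DensOK N) {f : ℝ → ℝ} (hf : Continuous f) {a b : ℝ}
    (hab : a ≤ b) : IntervalIntegrable (fun y => f y * N y) volume a b := by
  rw [intervalIntegrable_iff_integrableOn_Icc_of_le hab]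
  exact rd_loc hN hf a b

private lemma rd_ii' {N : ℝ → ℝ} (hN : DensOK N) {a b : ℝ}
    (hab : a ≤ b) : IntervalIntegrable N volume a b := by
  have := rd_ii hN (f := fun _ => 1) continuous_const hab
  simpa using this

private lemma rd_tail {N : ℝ → ℝ} (hN : DensOK N) {a : ℝ} (ha : 0 < a) :
    IntegrableOn (fun y => Real.exp (-(a * y)) * N y) (Ioi (0 : ℝ)) := by
  obtain ⟨C, hC⟩ := hN.mass (a / 2) (half_pos ha)
  have hec : Continuous (fun y : ℝ => Real.exp (-(a * y))) := by fun_prop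
  have hr1 : Real.exp (-(a / 2)) < 1 := by
    rw [Real.exp_lt_one_iff]
    linarith
  have hr0 := Real.exp_pos (-(a / 2))
  have hC0 : 0 ≤ C := by
    have h1 := hC 0 le_rfl
    have h2 : 0 ≤ ∫ t in Icc (0 : ℝ) (0 + 1), N t := integral_nonneg fun t => hN.nonneg t
    rw [mul_zero, Real.exp_zero, mul_one] at h1
    linarith
  have hstep : ∀ n : ℕ, ∫ y in (n : ℝ)..((n : ℝ) + 1), Real.exp (-(a * y)) * N y ≤
      C * Real.exp (-(a / 2)) ^ n := by
    intro n
    have hn : (0 : ℝ) ≤ n := Nat.cast_nonneg n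
    have h1 : ∫ y in (n : ℝ)..((n : ℝ) + 1), Real.exp (-(a * y)) * N y ≤
        ∫ y in (n : ℝ)..((n : ℝ) + 1), Real.exp (-(a * n)) * N y := by
      refine intervalIntegral.integral_mono_on (by linarith) (rd_ii hN hec (by linarith))
        ((rd_ii' hN (by linarith)).const_mul _) ?_
      intro y hy
      refine mul_le_mul_of_nonneg_right (Real.exp_le_exp.2 ?_) (hN.nonneg y)
      have := mul_le_mul_of_nonneg_left hy.1 ha.le
      linarith
    rw [intervalIntegral.integral_const_mul, intervalIntegral.integral_of_le (by linarith),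
      intervalIntegral.integral_of_le (by linarith), ← integral_Icc_eq_integral_Ioc,
      ← integral_Icc_eq_integral_Ioc] at h1
    rw [intervalIntegral.integral_of_le (by linarith), ← integral_Icc_eq_integral_Ioc]
    refine h1.trans ?_
    have h2 := mul_le_mul_of_nonneg_left (hC n hn) (Real.exp_pos (-(a * n))).le
    refine h2.trans (le_of_eq ?_)
    rw [← Real.exp_nat_mul, mul_left_comm, ← Real.exp_add]
    congr 2
    ring
  refine integrableOn_Ioi_of_intervalIntegral_norm_bounded (l := atTop)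
    (b := fun n : ℕ => (n : ℝ)) (C / (1 - Real.exp (-(a / 2)))) 0 ?_
    tendsto_natCast_atTop_atTop ?_
  · intro n
    exact (rd_loc hN hec 0 n).mono_set Ioc_subset_Icc_self
  · refine Eventually.of_forall fun n => ?_
    have hnorm : ∀ y : ℝ, ‖Real.exp (-(a * y)) * N y‖ = Real.exp (-(a * y)) * N y := by
      intro y
      rw [Real.norm_eq_abs, abs_of_nonneg (mul_nonneg (Real.exp_pos _).le (hN.nonneg y))]
    simp only [hnorm]
    have key : ∀ n : ℕ, ∫ y in (0 : ℝ)..(n : ℝ), Real.exp (-(a * y)) * N y ≤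
        C * (1 - Real.exp (-(a / 2)) ^ n) / (1 - Real.exp (-(a / 2))) := by
      intro n
      induction n with
      | zero => simp
      | succ n ih =>
        have hn : (0 : ℝ) ≤ n := Nat.cast_nonneg n
        have h1 := intervalIntegral.integral_add_adjacent_intervals
          (rd_ii hN hec hn) (rd_ii hN hec (show (n : ℝ) ≤ (n : ℝ) + 1 by linarith))
        have h3 : 0 < 1 - Real.exp (-(a / 2)) := by linarith
        push_cast
        rw [← h1]
        refine (add_le_add ih (hstep n)).trans (le_of_eq ?_)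
        field_simp
        ring
    refine (key n).trans ?_
    have h3 : 0 < 1 - Real.exp (-(a / 2)) := by linarith
    have h4 : 0 ≤ Real.exp (-(a / 2)) ^ n := by positivity
    refine div_le_div_of_nonneg_right ?_ h3.le
    nlinarith

private lemma rd_all {N : ℝ → ℝ} (hN : DensOK N) {f : ℝ → ℝ}
    (h : IntegrableOn (fun y => f y * N y) (Ioi (0 : ℝ))) :
    Integrable (fun y => f y * N y) := by
  have e : (fun y => f y * N y) = (Ioi (0 : ℝ)).indicator (fun y => f y * N y) := by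
    funext y
    by_cases hy : y ∈ Ioi (0 : ℝ)
    · rw [indicator_of_mem hy]
    · rw [indicator_of_notMem hy, hN.zero y (not_lt.1 hy), mul_zero]
  rw [e, integrable_indicator_iff measurableSet_Ioi]
  exact h

lemma dens_growth {ρ ρ' : ℝ} (hρ : 0 < ρ) (h : ρ < ρ') {N : ℝ → ℝ} (hN : DensOK N) :
    ∃ A, 0 ≤ A ∧ Growth ρ' A (dens ρ N) := by
  have hI := rd_tail hN (sub_pos.2 h)
  have hnn : ∀ y, 0 ≤ Real.exp (-((ρ' - ρ) * y)) * N y :=
    fun y => mul_nonneg (Real.exp_pos _).le (hN.nonneg y)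
  refine ⟨∫ y in Ioi (0 : ℝ), Real.exp (-((ρ' - ρ) * y)) * N y, integral_nonneg hnn, ?_, ?_⟩
  · exact measure_mono_null (Iic_subset_Iic.2 zero_le_one) (dens_Iic_one ρ N)
  · intro t ht
    have h1 : dens ρ N (Iic t) = ∫⁻ s, (Iic t).indicator 1 s ∂(dens ρ N) := by
      rw [lintegral_indicator_one measurableSet_Iic]
    rw [h1, dens_lintegral ρ hN (measurable_one.indicator measurableSet_Iic), mul_comm,
      ← integral_const_mul, ofReal_integral_eq_lintegral_ofReal (hI.const_mul _)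
        (Eventually.of_forall fun y => mul_nonneg (Real.rpow_nonneg ht.le _) (hnn y))]
    refine lintegral_mono fun y => ?_
    by_cases hy : Real.exp y ∈ Iic t
    · rw [indicator_of_mem hy, Pi.one_apply, one_mul]
      refine ENNReal.ofReal_le_ofReal ?_
      have h2 : Real.exp (ρ' * y) ≤ t ^ ρ' := by
        have h3 : Real.exp (ρ' * y) = Real.exp y ^ ρ' := by
          rw [← Real.exp_mul, mul_comm]
        rw [h3]
        exact Real.rpow_le_rpow (Real.exp_pos y).le hy (hρ.trans h).le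
      have h4 : N y * Real.exp (ρ * y) =
          Real.exp (ρ' * y) * (Real.exp (-((ρ' - ρ) * y)) * N y) := by
        rw [← mul_assoc, ← Real.exp_add, mul_comm]
        congr 2
        ring
      rw [h4]
      exact mul_le_mul_of_nonneg_right h2 (hnn y)
    · rw [indicator_of_notMem hy, zero_mul]
      exact zero_le

lemma dens_univ {ρ : ℝ} (hρ : 0 < ρ) {N : ℝ → ℝ} (hN : DensOK N) : dens ρ N univ = ⊤ := by
  by_contra hne
  have h1 : dens ρ N univ = ∫⁻ _, 1 ∂(dens ρ N) := by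
    rw [lintegral_one]
  rw [h1, dens_lintegral ρ hN measurable_const] at hne
  have hlt : ∫⁻ y in Ioi (0 : ℝ), ENNReal.ofReal (N y) < ⊤ := by
    refine lt_of_le_of_lt ?_ (lt_top_iff_ne_top.2 hne)
    refine setLIntegral_mono_ae' measurableSet_Ioi (Eventually.of_forall fun y hy => ?_)
    rw [one_mul]
    refine ENNReal.ofReal_le_ofReal ?_
    have h2 : 1 ≤ Real.exp (ρ * y) := Real.one_le_exp (mul_nonneg hρ.le (le_of_lt hy))
    have h3 := mul_le_mul_of_nonneg_left h2 (hN.nonneg y)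
    rwa [mul_one] at h3
  have hI : IntegrableOn N (Ioi (0 : ℝ)) := by
    refine ⟨hN.meas.aestronglyMeasurable, ?_⟩
    rw [hasFiniteIntegral_iff_ofReal (Eventually.of_forall hN.nonneg)]
    exact hlt
  have hT := intervalIntegral_tendsto_integral_Ioi 0 hI
    (tendsto_id : Tendsto (id : ℝ → ℝ) atTop atTop)
  have hev : ∀ᶠ Y : ℝ in atTop, (∫ y in Ioi (0 : ℝ), N y) - 1 / 2 < ∫ y in (0 : ℝ)..id Y, N y :=
    hT.eventually (lt_mem_nhds (by linarith))
  obtain ⟨Y, hY, hY0⟩ := (hev.and (eventually_ge_atTop 0)).exists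
  obtain ⟨y, hy, hy1⟩ := hN.low Y
  have h5 := intervalIntegral.integral_add_adjacent_intervals (rd_ii' hN hY0) (rd_ii' hN hy)
  have h6 := intervalIntegral.integral_add_adjacent_intervals (rd_ii' hN (hY0.trans hy))
    (rd_ii' hN (show y ≤ y + 1 by linarith))
  have h7 : 0 ≤ ∫ s in Y..y, N s := intervalIntegral.integral_nonneg hy fun s _ => hN.nonneg s
  have h8 : ∫ s in y..(y + 1), N s = ∫ t in Icc y (y + 1), N t := by
    rw [intervalIntegral.integral_of_le (by linarith), integral_Icc_eq_integral_Ioc]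
  have h9 : ∫ s in (0 : ℝ)..(y + 1), N s ≤ ∫ s in Ioi (0 : ℝ), N s := by
    rw [intervalIntegral.integral_of_le (by linarith)]
    exact setIntegral_mono_set hI (Eventually.of_forall hN.nonneg)
      (LE.le.eventuallyLE Ioc_subset_Ioi_self)
  simp only [id] at hY
  linarith

lemma integrable_U {ρ θ : ℝ} (hρ : 0 < ρ) (hint : ¬ ∃ n : ℕ, ρ = n)
    (hθ : θ ∈ Icc (0 : ℝ) Real.pi) {N : ℝ → ℝ} (hN : DensOK N) (x : ℝ) :
    Integrable (fun y => kk ρ θ (x - y) * N y) := by
  have hmk : Measurable (fun y : ℝ => kk ρ θ (x - y)) :=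
    (measurable_kk ρ θ).comp (measurable_const.sub measurable_id)
  have hm : Measurable (fun y => kk ρ θ (x - y) * N y) := hmk.mul hN.meas
  have hki : Integrable (fun y => kk ρ θ (x - y)) := (integrable_kk hρ hint hθ).comp_sub_left x
  rw [← integrableOn_univ, ← Iic_union_Ioi (a := x + 1)]
  refine IntegrableOn.union ?_ ?_
  · obtain ⟨M, hM, hb⟩ := rd_bd hN (x + 1)
    refine Integrable.mono' (hki.norm.const_mul M).integrableOn hm.aestronglyMeasurable ?_
    filter_upwards [ae_restrict_mem measurableSet_Iic] with y hy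
    rw [norm_mul, mul_comm, Real.norm_eq_abs (N y)]
    exact mul_le_mul_of_nonneg_right (hb y hy) (norm_nonneg _)
  · obtain ⟨C, hC, hb⟩ := abs_kk_le_far ρ one_pos
    have hI := rd_all hN (rd_tail hN (kp_pos hρ.le))
    refine Integrable.mono' (hI.const_mul (C * (Real.exp (kp ρ * x) / ((⌊ρ⌋₊ : ℝ) + 1)))
      ).integrableOn hm.aestronglyMeasurable ?_
    filter_upwards [ae_restrict_mem measurableSet_Ioi] with y hy
    have hy' : x + 1 < y := hy
    have h1 : 1 ≤ |x - y| := by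
      rw [abs_sub_comm, abs_of_pos (by linarith)]
      linarith
    have h2 := hb θ hθ (x - y) h1
    have h3 := mul_le_mul_of_nonneg_left (ph_le_exp ρ (x - y)) hC.le
    rw [norm_mul, Real.norm_eq_abs, Real.norm_eq_abs, abs_of_nonneg (hN.nonneg y)]
    refine (mul_le_mul_of_nonneg_right (h2.trans h3) (hN.nonneg y)).trans (le_of_eq ?_)
    have h4 : kp ρ * (x - y) = kp ρ * x + -(kp ρ * y) := by ring
    rw [h4, Real.exp_add]
    ring

private lemma rd_ker (ρ θ x y : ℝ) :
    ker ⌊ρ⌋₊ (Real.exp x * Complex.exp (θ * Complex.I)) (Real.exp y) =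
      Real.exp (ρ * (x - y)) * kk ρ θ (x - y) := by
  unfold kk
  rw [ker_scale _ _ (Real.exp_pos x) (Real.exp_pos y),
    ker_scale _ _ (Real.exp_pos (x - y)) one_pos, ← mul_assoc, ← Real.exp_add,
    add_neg_cancel, Real.exp_zero, one_mul]
  congr 1
  rw [Real.exp_sub, one_div, inv_div]

lemma dens_ker {ρ θ : ℝ} (hρ : 0 < ρ) (hint : ¬ ∃ n : ℕ, ρ = n)
    (hθ : θ ∈ Icc (0 : ℝ) Real.pi) {N : ℝ → ℝ} (hN : DensOK N) (x : ℝ) :
    Integrable (ker ⌊ρ⌋₊ (Real.exp x * Complex.exp (θ * Complex.I))) (dens ρ N) ∧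
    ∫ t, ker ⌊ρ⌋₊ (Real.exp x * Complex.exp (θ * Complex.I)) t ∂(dens ρ N) =
      Real.exp (ρ * x) * U ρ θ N x := by
  have hpt : ∀ y : ℝ, ker ⌊ρ⌋₊ (Real.exp x * Complex.exp (θ * Complex.I)) (Real.exp y) *
      (N y * Real.exp (ρ * y)) = Real.exp (ρ * x) * (kk ρ θ (x - y) * N y) := by
    intro y
    rw [rd_ker]
    have h1 : ρ * x = ρ * (x - y) + ρ * y := by ring
    rw [h1, Real.exp_add]
    ring
  have hI := integrable_U hρ hint hθ hN x
  obtain ⟨h1, h2⟩ := dens_integral ρ hN (ker ⌊ρ⌋₊ (Real.exp x * Complex.exp (θ * Complex.I)))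
  refine ⟨?_, ?_⟩
  · rw [h1]
    refine (integrableOn_congr_fun (fun y _ => hpt y) measurableSet_Ioi).2 ?_
    exact (hI.const_mul _).integrableOn
  · rw [h2, setIntegral_congr_fun measurableSet_Ioi (fun y _ => hpt y), integral_const_mul]
    congr 1
    unfold U
    refine setIntegral_eq_integral_of_forall_compl_eq_zero fun y hy => ?_
    rw [hN.zero y (not_lt.1 hy), mul_zero]

end Helper25.Ind
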