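import Pool.Agent.Helper25.Ind2.MainN
import Pool.Agent.INDB.ClassB
import Pool.Agent.IND2I.Main

/-! # IND2 Z2: the characterisation for every order -/

open Complex Filter Topology MeasureTheory Set

namespace Helper25.Ind

theorem all_orders (ρ : ℝ) (hρ : 0 < ρ) (h : ℝ → EReal) :
    (∃ f, IsN ρ f ∧ ∀ θ, indicatorOf ρ f θ = h θ) ↔
      (∃ p : ℕ, ρ = p ∧
        ((∃ A B : ℝ, ∀ θ, h θ = ((A * Real.cos (p * θ) + B * Real.sin (p * θ) : ℝ) : EReal)) ∨
          ∃ B : ℝ, Pool.Agent.IND2I.IntCond p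
            (fun θ => h θ - ((B * Real.sin (p * θ) : ℝ) : EReal)))) ∨
      ((¬ ∃ p : ℕ, ρ = p) ∧
        ((∃ g : ℝ → ℝ, (∀ θ, h θ = g θ) ∧ Continuous g ∧ (∀ θ, g (θ + 2 * Real.pi) = g θ) ∧
          MajIneq ρ g) ∨ InfCond ρ h)) := by
  by_cases hint : ∃ p : ℕ, ρ = p
  · obtain ⟨p, rfl⟩ := hint
    have hp : 1 ≤ p := by
      have : (0 : ℝ) < p := hρ
      exact_mod_cast this
    rw [Pool.Agent.IND2I.integer_order hp h]
    constructor
    · exact fun H => Or.inl ⟨p, rfl, H⟩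
    · rintro (⟨q, hq, H⟩ | ⟨H, -⟩)
      · obtain rfl : p = q := by exact_mod_cast hq
        exact H
      · exact absurd ⟨p, rfl⟩ H
  · rw [nonint_iff hρ hint (fun hp h' hh h1 h2 D hD => INDB.suff_b hρ hint hp hh h1 h2 hD) h]
    constructor
    · exact fun H => Or.inr ⟨hint, H⟩
    · rintro (⟨q, hq, -⟩ | ⟨-, H⟩)
      · exact absurd ⟨q, hq⟩ hint
      · exact H

end Helper25.Ind
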