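import Mathlib

/-!
# IND2 C1: concatenation of patches on slowly varying backgrounds (elementary)

PROOFS.
* `exists_bg`: `E` is the piecewise linear function: `A 0` for `y ≤ p 0`, linear from `A i` to `A (i+1)` on `[p i, p i + G i]`, `A (i+1)` on `[p i + G i, p (i+1)]`. E.g. `E_0 = A 0`, `E_{n+1} y = E_n y + (A (n+1) - A n) * min 1 (max 0 ((y - p n)/G n))`; `E_{n+1} = E_n` on `(-∞, p n]`, `E_n = A n` on `[p (n-1) + G (n-1), ∞)`;
  `E y = E_n y` for any `n` with `y ≤ p n` (`p n ≥ p 0 + n`). The slope on `[p i, p i + G i]` is at most `1/(i+1)` in absolute value; Lipschitz constants of adjacent intervals combine.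
* `conc_seq`: choose `r i ≥ 0` with `m i = 0` outside `[-r i, r i]`, `M i ≥ 1` with `|m i| ≤ M i` and (`m i` is bounded, continuous with compact support). `d i = (1/κ) log (M i (i+1)) + i + 1`, so `M i exp(-κ (d i)) ≤ 1/(i+1)`. `R i = r i + d i` (core), `H i = R i + i + 1` (half window),
  `G i = (i+1) |A (i+1) - A i| + (i+3) log (M (i+1)) + r (i+1) + i + 1`, `X 0 = 2 + H 0 + 2 log (M 0)`, `p i = X i + H i`, `X (i+1) = p i + G i + H (i+1)`. So `X i - r i ≥ (i+1) log (M i)`: on the support of the `i`-th patch `M i ≤ exp(y/(i+1))`. `E` from `exists_bg` (`E = A i` on `[X i - H i, X i + H i]`).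
  `N y = c y * E y + ∑_i m i (y - X i)` with `c y = if y ≤ 0 then 0 else 1`; the supports `[X i - r i, X i + r i]` are disjoint and in `(1,∞)`, so the sum has at most one nonzero term (define it by `tsum`/`finsum`). `N ≥ 0`: on the `i`-th support `E = A i` and `A i + m i ≥ 0`; elsewhere `E ≥ 1`
  (convex combinations of the `A i`). `N = 0` for `y ≤ 0`. Growth: `E y ≤ A 0 + |y - p 0|`-Lipschitz, and the patches: finitely many with `1/(i+1) > ε` are bounded, the others `≤ exp(ε y)`. `low`: `N = A i ≥ 1` on `[X i + r i, X i + r i + 1]`.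
  ESTIMATES. For every `y`, `|c y E y - E y| ≤ A 0` if `y ≤ 0` and `0` otherwise (note `E = A 0` there); for `x` large, `A 0 ≤ ε exp(κ|x-y|)` for `y ≤ 0`.
  Patches: if `|x - X j| ≥ R j` and `|y - X j| ≤ r j` then `|x-y| ≥ d j` and `|m j (y - X j)| ≤ M j ≤ exp(κ|x-y|)/(j+1)`; for the finitely many `j` with `1/(j+1) > ε` use `x` large: `M j ≤ ε exp(κ(x - X j - r j))`. So for `x ≥ x₀`, for all `y`: `∑_{j : |x-X j| ≥ R j} |m j (y - X j)| ≤ ε exp(κ|x-y|)` (at most one nonzero term).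
  Case 1: `|x - X i| < R i` for some `i` (then `|x - X j| ≥ R j` for all `j ≠ i`; `i` is large when `x` is large). `x' = x - X i`. `|E y - A i| ≤ max 0 (|y - X i| - H i) ≤ max 0 (|x-y| - (i+1)) ≤ (1/κ) exp(-κ(i+1)) exp(κ|x-y|)` (`E` is 1-Lipschitz and `E = A i` on the window; `κ t ≤ exp(κ t)`).
  Case 2: `|x - X j| ≥ R j` for all `j`: `E x = (1-s) A i + s A (i+1)` where `X i ≤ x ≤ X (i+1)`; `|E y - E x| ≤ |x-y|/(i₀+1) ≤ exp(κ|x-y|)/(κ(i₀+1))` for `x, y ≥ p i₀`; for `y < p i₀` use `|E y - E x| ≤ |x-y| ≤ ε exp(κ|x-y|)` when `|x-y| ≥ x - p i₀` is large. The last clause is case 1 with `x = X i`.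
-/

open Filter Topology MeasureTheory Set

namespace Helper25.Ind

/-! ### The background -/

/-- clamping to `[q, q + G]` -/
private noncomputable def cl (q G y : ℝ) : ℝ := min (q + G) (max q y)

private lemma cl_mono {q G x y : ℝ} (h : x ≤ y) : cl q G x ≤ cl q G y := by
  unfold cl
  exact min_le_min_left _ (max_le_max_left _ h)

private lemma cl_lo {q G y : ℝ} (hG : 0 ≤ G) (h : y ≤ q) : cl q G y = q := by
  unfold cl
  rw [max_eq_left h, min_eq_right (by linarith)]

private lemma cl_hi {q G y : ℝ} (hG : 0 ≤ G) (h : q + G ≤ y) : cl q G y = q + G := by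
  unfold cl
  rw [max_eq_right (by linarith), min_eq_left h]

private lemma cl_step {q G r x y : ℝ} (hG : 0 ≤ G) (hr : q + G ≤ r) (h : x ≤ y) :
    (cl q G y - cl q G x) + (min y q - min x q) ≤ min y r - min x r := by
  unfold cl
  simp only [min_def, max_def]
  split_ifs <;> linarith

private lemma cl_sum (p G : ℕ → ℝ) (hG : ∀ i, 1 ≤ G i) (hp : ∀ i, p i + G i ≤ p (i + 1))
    {x y : ℝ} (h : x ≤ y) (n : ℕ) :
    ∑ j ∈ Finset.range n, (cl (p j) (G j) y - cl (p j) (G j) x) ≤ min y (p n) - min x (p n) := by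
  induction n with
  | zero =>
    rw [Finset.range_zero, Finset.sum_empty]
    linarith [min_le_min_right (p 0) h]
  | succ n ih =>
    rw [Finset.sum_range_succ]
    have := cl_step (show 0 ≤ G n by linarith [hG n]) (hp n) h
    linarith

private lemma p_mono (p G : ℕ → ℝ) (hG : ∀ i, 1 ≤ G i) (hp : ∀ i, p i + G i ≤ p (i + 1)) :
    Monotone p := by
  refine monotone_nat_of_le_succ fun i => ?_
  linarith [hG i, hp i]

private lemma p_lt (p G : ℕ → ℝ) (hG : ∀ i, 1 ≤ G i) (hp : ∀ i, p i + G i ≤ p (i + 1))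
    {i j : ℕ} (h : i < j) : p i + G i ≤ p j :=
  (hp i).trans (p_mono p G hG hp h)

private lemma p_ge (p G : ℕ → ℝ) (hG : ∀ i, 1 ≤ G i) (hp : ∀ i, p i + G i ≤ p (i + 1)) (n : ℕ) :
    p 0 + n ≤ p n := by
  induction n with
  | zero => simp
  | succ n ih =>
    push_cast
    linarith [hG n, hp n]

private lemma p_ex (p G : ℕ → ℝ) (hG : ∀ i, 1 ≤ G i) (hp : ∀ i, p i + G i ≤ p (i + 1)) (y : ℝ) :
    ∃ n, y ≤ p n := by
  obtain ⟨n, hn⟩ := exists_nat_ge (y - p 0)
  exact ⟨n, by linarith [p_ge p G hG hp n]⟩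

/-- partial backgrounds -/
private noncomputable def En (A p G : ℕ → ℝ) (n : ℕ) (y : ℝ) : ℝ :=
  A 0 + ∑ j ∈ Finset.range n, (A (j + 1) - A j) * ((cl (p j) (G j) y - p j) / G j)

private lemma En_stab (A p G : ℕ → ℝ) (hG : ∀ i, 1 ≤ G i) (hp : ∀ i, p i + G i ≤ p (i + 1))
    {n m : ℕ} (h : n ≤ m) {y : ℝ} (hy : y ≤ p n) : En A p G m y = En A p G n y := by
  unfold En
  congr 1
  symm
  refine Finset.sum_subset (Finset.range_mono h) fun j _ hj => ?_
  have hj' : n ≤ j := by simpa using hj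
  rw [cl_lo (by linarith [hG j]) (hy.trans (p_mono p G hG hp hj')), sub_self, zero_div, mul_zero]

private lemma En_full (A p G : ℕ → ℝ) (hG : ∀ i, 1 ≤ G i) (_hp : ∀ i, p i + G i ≤ p (i + 1))
    (n : ℕ) {y : ℝ} (hy : ∀ j, j < n → p j + G j ≤ y) : En A p G n y = A n := by
  unfold En
  have h1 : ∀ j ∈ Finset.range n, (A (j + 1) - A j) * ((cl (p j) (G j) y - p j) / G j) =
      A (j + 1) - A j := by
    intro j hj
    have hG0 : 0 < G j := by linarith [hG j]
    rw [cl_hi hG0.le (hy j (Finset.mem_range.1 hj)), add_sub_cancel_left, div_self hG0.ne', mul_one]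
  rw [Finset.sum_congr rfl h1, Finset.sum_range_sub]
  ring

private lemma En_lip (A p G : ℕ → ℝ) (hG : ∀ i, 1 ≤ G i)
    (hsl : ∀ i, |A (i + 1) - A i| ≤ G i / ((i : ℝ) + 1)) (hp : ∀ i, p i + G i ≤ p (i + 1))
    {i n : ℕ} {x y : ℝ} (hxy : x ≤ y) (hy : y ≤ p n) (hx : ∀ j, j < i → p j + G j ≤ x) :
    |En A p G n y - En A p G n x| ≤ (y - x) / ((i : ℝ) + 1) := by
  have hi : (0 : ℝ) < (i : ℝ) + 1 := by positivity
  have h1 : En A p G n y - En A p G n x = ∑ j ∈ Finset.range n,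
      (A (j + 1) - A j) * ((cl (p j) (G j) y - cl (p j) (G j) x) / G j) := by
    unfold En
    rw [add_sub_add_left_eq_sub, ← Finset.sum_sub_distrib]
    refine Finset.sum_congr rfl fun j _ => ?_
    ring
  rw [h1]
  refine (Finset.abs_sum_le_sum_abs _ _).trans ?_
  have h2 : ∀ j ∈ Finset.range n,
      |(A (j + 1) - A j) * ((cl (p j) (G j) y - cl (p j) (G j) x) / G j)| ≤
      (cl (p j) (G j) y - cl (p j) (G j) x) / ((i : ℝ) + 1) := by
    intro j _
    have hG0 : 0 < G j := by linarith [hG j]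
    have h3 : 0 ≤ cl (p j) (G j) y - cl (p j) (G j) x := by linarith [cl_mono (q := p j) (G := G j) hxy]
    rcases lt_or_ge j i with hj | hj
    · rw [cl_hi hG0.le (hx j hj), cl_hi hG0.le ((hx j hj).trans hxy), sub_self, zero_div, mul_zero,
        abs_zero, zero_div]
    · have hj1 : (0 : ℝ) < (j : ℝ) + 1 := by positivity
      have hij : (i : ℝ) ≤ j := by exact_mod_cast hj
      rw [abs_mul, abs_of_nonneg (div_nonneg h3 hG0.le)]
      calc |A (j + 1) - A j| * ((cl (p j) (G j) y - cl (p j) (G j) x) / G j)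
          ≤ G j / ((j : ℝ) + 1) * ((cl (p j) (G j) y - cl (p j) (G j) x) / G j) :=
            mul_le_mul_of_nonneg_right (hsl j) (div_nonneg h3 hG0.le)
        _ = (cl (p j) (G j) y - cl (p j) (G j) x) / ((j : ℝ) + 1) := by
            field_simp
        _ ≤ _ := div_le_div_of_nonneg_left h3 hi (by linarith)
  refine (Finset.sum_le_sum h2).trans ?_
  rw [← Finset.sum_div]
  refine div_le_div_of_nonneg_right ?_ hi.le
  have h3 := cl_sum p G hG hp hxy n
  rwa [min_eq_left hy, min_eq_left (hxy.trans hy)] at h3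

lemma exists_bg (A p G : ℕ → ℝ) (hG : ∀ i, 1 ≤ G i)
    (hsl : ∀ i, |A (i + 1) - A i| ≤ G i / ((i : ℝ) + 1)) (hp : ∀ i, p i + G i ≤ p (i + 1)) :
    ∃ E : ℝ → ℝ, (∀ y ≤ p 0, E y = A 0) ∧
      (∀ i y, p i + G i ≤ y → y ≤ p (i + 1) → E y = A (i + 1)) ∧
      (∀ i y, p i ≤ y → y ≤ p i + G i → ∃ s ∈ Icc (0 : ℝ) 1, E y = (1 - s) * A i + s * A (i + 1)) ∧
      (∀ i x y, p i ≤ x → p i ≤ y → |E x - E y| ≤ |x - y| / ((i : ℝ) + 1)) ∧
      (∀ x y, |E x - E y| ≤ |x - y|) := by
  choose ν hν using fun y => p_ex p G hG hp y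
  have hE : ∀ n y, y ≤ p n → En A p G (ν y) y = En A p G n y := by
    intro n y hy
    rcases le_total (ν y) n with h | h
    · exact (En_stab A p G hG hp h (hν y)).symm
    · exact En_stab A p G hG hp h hy
  have hlip : ∀ (i : ℕ) (x y : ℝ), (∀ j, j < i → p j + G j ≤ x) → (∀ j, j < i → p j + G j ≤ y) →
      |En A p G (ν x) x - En A p G (ν y) y| ≤ |x - y| / ((i : ℝ) + 1) := by
    intro i x y hx hy
    rcases le_total x y with h | h
    · rw [hE (ν y) x (h.trans (hν y)), abs_sub_comm, abs_sub_comm x y,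
        abs_of_nonneg (sub_nonneg.2 h)]
      exact En_lip A p G hG hsl hp h (hν y) hx
    · rw [hE (ν x) y (h.trans (hν x)), abs_of_nonneg (sub_nonneg.2 h)]
      exact En_lip A p G hG hsl hp h (hν x) hy
  refine ⟨fun y => En A p G (ν y) y, ?_, ?_, ?_, ?_, ?_⟩
  · intro y hy
    show En A p G (ν y) y = A 0
    rw [hE 0 y hy]
    exact En_full A p G hG hp 0 fun j hj => absurd hj (Nat.not_lt_zero j)
  · intro i y h1 h2
    show En A p G (ν y) y = A (i + 1)
    rw [hE (i + 1) y h2]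
    refine En_full A p G hG hp (i + 1) fun j hj => ?_
    rcases Nat.lt_succ_iff_lt_or_eq.1 hj with h | h
    · linarith [p_lt p G hG hp h, hG i]
    · rw [h]
      exact h1
  · intro i y h1 h2
    have hG0 : 0 < G i := by linarith [hG i]
    refine ⟨(cl (p i) (G i) y - p i) / G i, ⟨?_, ?_⟩, ?_⟩
    · refine div_nonneg ?_ hG0.le
      have : p i ≤ cl (p i) (G i) y := by
        unfold cl
        exact le_min (by linarith) (le_max_left _ _)
      linarith
    · rw [div_le_one hG0]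
      have : cl (p i) (G i) y ≤ p i + G i := min_le_left _ _
      linarith
    · show En A p G (ν y) y = _
      rw [hE (i + 1) y (h2.trans (hp i))]
      have h3 : En A p G i y = A i :=
        En_full A p G hG hp i fun j hj => (p_lt p G hG hp hj).trans h1
      have h4 : En A p G (i + 1) y = En A p G i y +
          (A (i + 1) - A i) * ((cl (p i) (G i) y - p i) / G i) := by
        unfold En
        rw [Finset.sum_range_succ]
        ring
      rw [h4, h3]
      ring
  · intro i x y hx hy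
    exact hlip i x y (fun j hj => (p_lt p G hG hp hj).trans hx)
      fun j hj => (p_lt p G hG hp hj).trans hy
  · intro x y
    have h := hlip 0 x y (fun j hj => absurd hj (Nat.not_lt_zero j))
      fun j hj => absurd hj (Nat.not_lt_zero j)
    simpa using h

/-! ### The concatenation -/

private structure CS (κ : ℝ) (A : ℕ → ℝ) (m : ℕ → ℝ → ℝ) (r M X H R G : ℕ → ℝ) (E : ℝ → ℝ) :
    Prop where
  k0 : 0 < κ
  A1 : ∀ i, 1 ≤ A i
  cont : ∀ i, Continuous (m i)
  pos : ∀ i y, 0 ≤ A i + m i y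
  r0 : ∀ i, 0 ≤ r i
  M1 : ∀ i, 1 ≤ M i
  supp : ∀ i y, r i < |y| → m i y = 0
  bd : ∀ i y, |m i y| ≤ M i
  HR : ∀ i, R i + ((i : ℝ) + 1) ≤ H i
  rR : ∀ i, r i + 1 ≤ R i
  MR : ∀ i, M i * ((i : ℝ) + 1) ≤ Real.exp (κ * (R i - r i))
  G1 : ∀ i, 1 ≤ G i
  Xs : ∀ i, X (i + 1) = X i + H i + G i + H (i + 1)
  Xr : ∀ i, 0 < X i - r i
  XM : ∀ i : ℕ, ((i : ℝ) + 1) * Real.log (M i) ≤ X i - r i
  E0 : ∀ y ≤ X 0 + H 0, E y = A 0
  E1 : ∀ i y, X i + H i + G i ≤ y → y ≤ X (i + 1) + H (i + 1) → E y = A (i + 1)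
  E2 : ∀ i y, X i + H i ≤ y → y ≤ X i + H i + G i →
    ∃ s ∈ Icc (0 : ℝ) 1, E y = (1 - s) * A i + s * A (i + 1)
  E3 : ∀ i x y, X i + H i ≤ x → X i + H i ≤ y → |E x - E y| ≤ |x - y| / ((i : ℝ) + 1)
  E4 : ∀ x y, |E x - E y| ≤ |x - y|

namespace CS

variable {κ : ℝ} {A : ℕ → ℝ} {m : ℕ → ℝ → ℝ} {r M X H R G : ℕ → ℝ} {E : ℝ → ℝ}

private lemma Hp (h : CS κ A m r M X H R G E) (i : ℕ) : r i + 2 ≤ H i := by
  have h1 := h.HR i
  have h2 := h.rR i
  have h3 : (0 : ℝ) ≤ i := Nat.cast_nonneg i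
  linarith

private lemma H0 (h : CS κ A m r M X H R G E) (i : ℕ) : 0 ≤ H i := by
  have h1 := h.Hp i
  have h2 := h.r0 i
  linarith

private lemma sep (h : CS κ A m r M X H R G E) {i j : ℕ} (hij : i < j) :
    X i + H i + H j ≤ X j := by
  induction j, hij using Nat.le_induction with
  | base => linarith [h.Xs i, h.G1 i]
  | succ j _ ih => linarith [h.Xs j, h.G1 j, h.H0 j, h.H0 (j + 1)]

private lemma far (h : CS κ A m r M X H R G E) {i j : ℕ} (hij : i ≠ j) {y : ℝ}
    (hy : |y - X i| ≤ H i) : H j ≤ |y - X j| := by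
  have h1 := abs_le.1 hy
  rcases lt_or_gt_of_ne hij with hl | hl
  · have h2 := h.sep hl
    have h3 := neg_abs_le (y - X j)
    linarith
  · have h2 := h.sep hl
    have h3 := le_abs_self (y - X j)
    linarith

private lemma S_win (h : CS κ A m r M X H R G E) {i j : ℕ} (hij : j ≠ i) {y : ℝ}
    (hy : |y - X i| ≤ H i) : m j (y - X j) = 0 := by
  apply h.supp
  have h1 := h.far (Ne.symm hij) hy
  have h2 := h.Hp j
  linarith

private lemma P_win (h : CS κ A m r M X H R G E) {i : ℕ} {y : ℝ} (hy : |y - X i| ≤ H i) :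
    ∑' j, m j (y - X j) = m i (y - X i) :=
  tsum_eq_single i fun _ hj => h.S_win hj hy

private lemma P_cases (h : CS κ A m r M X H R G E) (y : ℝ) :
    (∑' j, m j (y - X j) = 0 ∧ ∀ i, m i (y - X i) = 0) ∨
      ∃ i, |y - X i| ≤ r i ∧ ∑' j, m j (y - X j) = m i (y - X i) ∧
        ∀ j, j ≠ i → m j (y - X j) = 0 := by
  by_cases hc : ∃ i, |y - X i| ≤ r i
  · obtain ⟨i, hi⟩ := hc
    have hi' : |y - X i| ≤ H i := by linarith [h.Hp i]
    exact Or.inr ⟨i, hi, h.P_win hi', fun j hj => h.S_win hj hi'⟩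
  · push Not at hc
    have hz : ∀ i, m i (y - X i) = 0 := fun i => h.supp i _ (hc i)
    left
    refine ⟨?_, hz⟩
    simp [hz]

private lemma P_sub (h : CS κ A m r M X H R G E) (i : ℕ) (y : ℝ) :
    ∃ j, j ≠ i ∧ |∑' j, m j (y - X j) - m i (y - X i)| ≤ |m j (y - X j)| := by
  rcases h.P_cases y with ⟨h1, h2⟩ | ⟨k, -, h1, h2⟩
  · refine ⟨i + 1, by omega, ?_⟩
    rw [h1, h2 i, sub_zero, abs_zero]
    exact abs_nonneg _
  · by_cases hk : k = i
    · subst hk
      refine ⟨k + 1, by omega, ?_⟩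
      rw [h1, sub_self, abs_zero]
      exact abs_nonneg _
    · refine ⟨k, hk, ?_⟩
      rw [h1, h2 i (Ne.symm hk), sub_zero]

private lemma P_abs (h : CS κ A m r M X H R G E) (y : ℝ) :
    ∃ j, |∑' j, m j (y - X j)| ≤ |m j (y - X j)| := by
  rcases h.P_cases y with ⟨h1, -⟩ | ⟨k, -, h1, -⟩
  · refine ⟨0, ?_⟩
    rw [h1, abs_zero]
    exact abs_nonneg _
  · exact ⟨k, by rw [h1]⟩

private lemma E_win (h : CS κ A m r M X H R G E) {i : ℕ} {y : ℝ} (hy : |y - X i| ≤ H i) :
    E y = A i := by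
  have h1 := abs_le.1 hy
  rcases i with _ | i
  · exact h.E0 y (by linarith)
  · refine h.E1 i y ?_ (by linarith)
    have := h.Xs i
    linarith

private lemma p_mono' (h : CS κ A m r M X H R G E) {i j : ℕ} (hij : i ≤ j) :
    X i + H i ≤ X j + H j := by
  rcases hij.lt_or_eq with hl | hl
  · have h1 := h.sep hl
    have h2 := h.H0 j
    linarith
  · rw [hl]

private lemma X_ge (h : CS κ A m r M X H R G E) (n : ℕ) : (n : ℝ) ≤ X n := by
  induction n with
  | zero =>
    have h1 := h.Xr 0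
    have h2 := h.r0 0
    push_cast
    linarith
  | succ n ih =>
    push_cast
    linarith [h.Xs n, h.G1 n, h.H0 n, h.H0 (n + 1)]

private lemma bracket (h : CS κ A m r M X H R G E) {I : ℕ} {x : ℝ} (hx : X I + H I ≤ x) :
    ∃ i, I ≤ i ∧ X i + H i ≤ x ∧ x ≤ X (i + 1) + H (i + 1) := by
  have hex : ∃ n, x < X n + H n := by
    obtain ⟨n, hn⟩ := exists_nat_gt x
    exact ⟨n, by linarith [h.X_ge n, h.H0 n]⟩
  classical
  have h1 := Nat.find_spec hex
  have h2 : I < Nat.find hex := by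
    by_contra hc
    push Not at hc
    linarith [h.p_mono' hc]
  obtain ⟨k, hk⟩ : ∃ k, Nat.find hex = k + 1 := ⟨Nat.find hex - 1, by omega⟩
  have h3 : ¬ x < X k + H k := Nat.find_min hex (by omega)
  rw [hk] at h1
  exact ⟨k, by omega, not_lt.1 h3, h1.le⟩

private lemma E_comb (h : CS κ A m r M X H R G E) {i : ℕ} {x : ℝ} (h1 : X i + H i ≤ x)
    (h2 : x ≤ X (i + 1) + H (i + 1)) :
    ∃ s ∈ Icc (0 : ℝ) 1, E x = (1 - s) * A i + s * A (i + 1) := by
  rcases le_total x (X i + H i + G i) with h3 | h3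
  · exact h.E2 i x h1 h3
  · refine ⟨1, ⟨zero_le_one, le_rfl⟩, ?_⟩
    rw [h.E1 i x h3 h2]
    ring

private lemma E_ge (h : CS κ A m r M X H R G E) (y : ℝ) : 1 ≤ E y := by
  rcases le_total y (X 0 + H 0) with h1 | h1
  · rw [h.E0 y h1]
    exact h.A1 0
  · obtain ⟨i, -, h2, h3⟩ := h.bracket h1
    obtain ⟨s, hs, h4⟩ := h.E_comb h2 h3
    rw [h4]
    have h5 := mul_le_mul_of_nonneg_left (h.A1 i) (sub_nonneg.2 hs.2)
    have h6 := mul_le_mul_of_nonneg_left (h.A1 (i + 1)) hs.1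
    linarith

private lemma p0 (h : CS κ A m r M X H R G E) : 0 ≤ X 0 + H 0 := by
  have h1 := h.Xr 0
  have h2 := h.r0 0
  have h3 := h.H0 0
  linarith

private lemma P_neg (h : CS κ A m r M X H R G E) {y : ℝ} (hy : y ≤ 0) :
    ∑' j, m j (y - X j) = 0 := by
  have hz : ∀ i, m i (y - X i) = 0 := by
    intro i
    apply h.supp
    have h1 := h.Xr i
    have h2 := neg_abs_le (y - X i)
    linarith
  simp [hz]

private lemma summ (h : CS κ A m r M X H R G E) (y : ℝ) : Summable fun j => m j (y - X j) := by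
  rcases h.P_cases y with ⟨-, h2⟩ | ⟨k, -, -, h2⟩
  · simp only [h2]
    exact summable_zero
  · exact summable_of_hasFiniteSupport (Set.Finite.subset (Set.finite_singleton k) fun j hj => by
      by_contra hc
      exact hj (h2 j hc))

private lemma P_meas (h : CS κ A m r M X H R G E) : Measurable fun y => ∑' j, m j (y - X j) := by
  refine measurable_of_tendsto_metrizable (f := fun n y => ∑ j ∈ Finset.range n, m j (y - X j))
    (fun n => ?_) ?_
  · refine Finset.measurable_fun_sum _ fun j _ => ?_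
    exact (h.cont j).measurable.comp (measurable_id.sub_const _)
  · rw [tendsto_pi_nhds]
    intro y
    exact (h.summ y).hasSum.tendsto_sum_nat

private lemma E_cont (h : CS κ A m r M X H R G E) : Continuous E := by
  refine LipschitzWith.continuous (K := 1) (LipschitzWith.of_dist_le_mul fun x y => ?_)
  rw [Real.dist_eq, Real.dist_eq, NNReal.coe_one, one_mul]
  exact h.E4 x y

/-- far patches are small -/
private lemma estB (h : CS κ A m r M X H R G E) {ε : ℝ} (hε : 0 < ε) :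
    ∀ᶠ x in atTop, ∀ j y, R j ≤ |x - X j| →
      |m j (y - X j)| ≤ ε * Real.exp (κ * |x - y|) := by
  obtain ⟨J, hJ⟩ := exists_nat_gt (1 / ε)
  have h1 : ∀ᶠ x : ℝ in atTop, ∀ j ∈ Finset.range J, M j ≤ ε * Real.exp (κ * (x - (X j + r j))) := by
    rw [Filter.eventually_all_finset]
    intro j _
    have ht : Tendsto (fun x : ℝ => ε * Real.exp (κ * (x - (X j + r j)))) atTop atTop := by
      refine Tendsto.const_mul_atTop hε (Real.tendsto_exp_atTop.comp ?_)
      refine Tendsto.const_mul_atTop h.k0 ?_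
      exact tendsto_atTop_add_const_right atTop (-(X j + r j)) tendsto_id
    exact ht.eventually_ge_atTop (M j)
  filter_upwards [h1] with x hx j y hR
  by_cases hS : m j (y - X j) = 0
  · rw [hS, abs_zero]
    positivity
  · have h2 : |y - X j| ≤ r j := by
      by_contra hc
      exact hS (h.supp j _ (not_le.1 hc))
    refine (h.bd j _).trans ?_
    rcases lt_or_ge j J with hj | hj
    · refine (hx j (Finset.mem_range.2 hj)).trans (mul_le_mul_of_nonneg_left ?_ hε.le)
      refine Real.exp_le_exp.2 (mul_le_mul_of_nonneg_left ?_ h.k0.le)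
      have h3 := (abs_le.1 h2).2
      have h4 := le_abs_self (x - y)
      linarith
    · have hj1 : (0 : ℝ) < (j : ℝ) + 1 := by positivity
      have h3 : R j - r j ≤ |x - y| := by
        have h4 : |x - X j| ≤ |x - y| + |y - X j| := by
          have := abs_add_le (x - y) (y - X j)
          rwa [sub_add_sub_cancel] at this
        linarith
      have h4 : Real.exp (κ * (R j - r j)) ≤ Real.exp (κ * |x - y|) :=
        Real.exp_le_exp.2 (mul_le_mul_of_nonneg_left h3 h.k0.le)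
      have h5 := (h.MR j).trans h4
      have h6 : 1 ≤ ε * ((j : ℝ) + 1) := by
        have h7 : (J : ℝ) ≤ j := by exact_mod_cast hj
        have h8 : 1 / ε ≤ (j : ℝ) + 1 := by linarith
        rw [div_le_iff₀ hε] at h8
        linarith
      have hM0 : 0 ≤ M j := by linarith [h.M1 j]
      calc M j ≤ M j * (ε * ((j : ℝ) + 1)) := le_mul_of_one_le_right hM0 h6
        _ = ε * (M j * ((j : ℝ) + 1)) := by ring
        _ ≤ ε * Real.exp (κ * |x - y|) := mul_le_mul_of_nonneg_left h5 hε.le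

/-- the cut at `0` -/
private lemma estC (h : CS κ A m r M X H R G E) {ε : ℝ} (hε : 0 < ε) :
    ∀ᶠ x in atTop, ∀ y, |(if y ≤ 0 then 0 else E y) - E y| ≤ ε * Real.exp (κ * |x - y|) := by
  have ht : Tendsto (fun x : ℝ => ε * Real.exp (κ * x)) atTop atTop :=
    Tendsto.const_mul_atTop hε (Real.tendsto_exp_atTop.comp
      (Tendsto.const_mul_atTop h.k0 tendsto_id))
  filter_upwards [ht.eventually_ge_atTop (A 0)] with x hx y
  by_cases hy : y ≤ 0
  · rw [if_pos hy, zero_sub, abs_neg, h.E0 y (hy.trans h.p0),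
      abs_of_nonneg (by linarith [h.A1 0])]
    refine hx.trans (mul_le_mul_of_nonneg_left ?_ hε.le)
    refine Real.exp_le_exp.2 (mul_le_mul_of_nonneg_left ?_ h.k0.le)
    linarith [le_abs_self (x - y)]
  · rw [if_neg hy, sub_self, abs_zero]
    positivity

private lemma E_near (h : CS κ A m r M X H R G E) (i : ℕ) (y : ℝ) :
    |E y - A i| ≤ max 0 (|y - X i| - H i) := by
  rcases le_or_gt |y - X i| (H i) with h1 | h1
  · rw [h.E_win h1, sub_self, abs_zero]
    exact le_max_left _ _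
  · refine le_trans ?_ (le_max_right _ _)
    have hH := h.H0 i
    rcases le_total 0 (y - X i) with h2 | h2
    · have h3 : E (X i + H i) = A i := h.E_win (by
        rw [add_sub_cancel_left, abs_of_nonneg hH])
      rw [abs_of_nonneg h2] at h1 ⊢
      rw [← h3]
      refine (h.E4 _ _).trans (le_of_eq ?_)
      rw [abs_of_nonneg (by linarith)]
      ring
    · have h3 : E (X i - H i) = A i := h.E_win (by
        rw [sub_sub_cancel_left, abs_neg, abs_of_nonneg hH])
      rw [abs_of_nonpos h2] at h1 ⊢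
      rw [← h3]
      refine (h.E4 _ _).trans (le_of_eq ?_)
      rw [abs_of_nonpos (by linarith)]
      ring

private lemma t_exp {κ : ℝ} (hκ : 0 < κ) (t : ℝ) : t ≤ 1 / κ * Real.exp (κ * t) := by
  have h1 := Real.add_one_le_exp (κ * t)
  rw [div_mul_eq_mul_div, one_mul, le_div_iff₀ hκ]
  linarith

private lemma case1 (h : CS κ A m r M X H R G E) {ε : ℝ} (hε : 0 < ε) :
    ∀ᶠ x in atTop, ∀ i, |x - X i| < R i → 1 / ε ≤ i ∧ ∀ y,
      |((if y ≤ 0 then 0 else E y) + ∑' j, m j (y - X j)) - (A i + m i (y - X i))| ≤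
        ε * Real.exp (κ * |x - y|) := by
  have hε3 : 0 < ε / 3 := by positivity
  -- a large index
  have hI : ∀ᶠ n : ℕ in atTop, 1 / κ * Real.exp (κ * (-((n : ℝ) + 1))) ≤ ε / 3 := by
    have ht : Tendsto (fun n : ℕ => 1 / κ * Real.exp (κ * (-((n : ℝ) + 1)))) atTop
        (𝓝 (1 / κ * 0)) := by
      refine Tendsto.const_mul _ (Real.tendsto_exp_atBot.comp ?_)
      refine Tendsto.const_mul_atBot h.k0 (tendsto_neg_atTop_atBot.comp ?_)
      exact tendsto_atTop_add_const_right atTop 1 tendsto_natCast_atTop_atTop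
    rw [mul_zero] at ht
    exact ht.eventually_le_const hε3
  obtain ⟨I, hI1, hI2⟩ := (hI.and (tendsto_natCast_atTop_atTop.eventually_ge_atTop
    (1 / ε))).exists
  filter_upwards [h.estB hε3, h.estC hε3, eventually_ge_atTop (X I + H I)] with x hB hC hx i hi
  have hH := h.HR i
  have hi0 : (0 : ℝ) ≤ i := Nat.cast_nonneg i
  have hIi : I ≤ i := by
    by_contra hc
    push Not at hc
    have h1 := h.p_mono' hc.le
    have h2 := (abs_lt.1 hi).2
    linarith
  have hIi' : (I : ℝ) ≤ i := by exact_mod_cast hIi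
  refine ⟨hI2.trans hIi', fun y => ?_⟩
  have he := Real.exp_pos (κ * |x - y|)
  have h1 : |E y - A i| ≤ ε / 3 * Real.exp (κ * |x - y|) := by
    refine (h.E_near i y).trans (max_le (by positivity) ?_)
    have h2 : |y - X i| ≤ |x - y| + |x - X i| := by
      have := abs_add_le (y - x) (x - X i)
      rwa [sub_add_sub_cancel, abs_sub_comm y x] at this
    have h3 : |y - X i| - H i ≤ |x - y| + -((i : ℝ) + 1) := by linarith
    refine h3.trans ((t_exp h.k0 _).trans ?_)
    rw [mul_add, Real.exp_add, mul_comm (Real.exp _), ← mul_assoc]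
    refine mul_le_mul_of_nonneg_right ?_ he.le
    refine le_trans ?_ hI1
    refine mul_le_mul_of_nonneg_left (Real.exp_le_exp.2 ?_) (by have := h.k0; positivity)
    exact mul_le_mul_of_nonneg_left (by linarith) h.k0.le
  have h2 : |∑' j, m j (y - X j) - m i (y - X i)| ≤ ε / 3 * Real.exp (κ * |x - y|) := by
    obtain ⟨j, hj, h3⟩ := h.P_sub i y
    refine h3.trans (hB j y ?_)
    have h4 := h.far (Ne.symm hj) (y := x) (by linarith)
    have h5 := h.HR j
    have hj0 : (0 : ℝ) ≤ j := Nat.cast_nonneg j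
    linarith
  have h3 := hC y
  have h4 : ((if y ≤ 0 then 0 else E y) + ∑' j, m j (y - X j)) - (A i + m i (y - X i)) =
      ((if y ≤ 0 then 0 else E y) - E y) + (E y - A i) +
        (∑' j, m j (y - X j) - m i (y - X i)) := by ring
  rw [h4]
  refine (abs_add_three _ _ _).trans ?_
  linarith

private lemma case2 (h : CS κ A m r M X H R G E) {ε : ℝ} (hε : 0 < ε) :
    ∀ᶠ x in atTop, (∀ j, R j ≤ |x - X j|) → ∃ i : ℕ, 1 / ε ≤ i ∧ ∃ s ∈ Icc (0 : ℝ) 1, ∀ y,
      |((if y ≤ 0 then 0 else E y) + ∑' j, m j (y - X j)) -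
        ((1 - s) * A i + s * A (i + 1))| ≤ ε * Real.exp (κ * |x - y|) := by
  have hκ := h.k0
  have hε3 : 0 < ε / 3 := by positivity
  obtain ⟨I, hI1, hI2⟩ : ∃ I : ℕ, 1 / κ / (ε / 3) ≤ I ∧ 1 / ε ≤ I := by
    obtain ⟨I, hI⟩ := exists_nat_ge (max (1 / κ / (ε / 3)) (1 / ε))
    exact ⟨I, (le_max_left _ _).trans hI, (le_max_right _ _).trans hI⟩
  filter_upwards [h.estB hε3, h.estC hε3, eventually_ge_atTop (X I + H I),
    eventually_ge_atTop (X I + H I + 2 / (ε / 3 * κ ^ 2))] with x hB hC hx hx2 hR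
  obtain ⟨i, hIi, h1, h2⟩ := h.bracket hx
  obtain ⟨s, hs, hEx⟩ := h.E_comb h1 h2
  have hIi' : (I : ℝ) ≤ i := by exact_mod_cast hIi
  refine ⟨i, hI2.trans hIi', s, hs, fun y => ?_⟩
  rw [← hEx]
  have he := Real.exp_pos (κ * |x - y|)
  have h3 : |∑' j, m j (y - X j)| ≤ ε / 3 * Real.exp (κ * |x - y|) := by
    obtain ⟨j, hj⟩ := h.P_abs y
    exact hj.trans (hB j y (hR j))
  have h4 : |E y - E x| ≤ ε / 3 * Real.exp (κ * |x - y|) := by
    rcases le_total (X I + H I) y with hy | hy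
    · refine (h.E3 I y x hy hx).trans ?_
      rw [abs_sub_comm y x]
      have hI0 : (0 : ℝ) < (I : ℝ) + 1 := by positivity
      rw [div_le_iff₀ hI0]
      refine (t_exp hκ _).trans ?_
      have h5 : 1 / κ ≤ ε / 3 * ((I : ℝ) + 1) := by
        have h6 : 1 / κ / (ε / 3) ≤ (I : ℝ) + 1 := by linarith
        rw [div_le_iff₀ hε3] at h6
        linarith
      have h6 := mul_le_mul_of_nonneg_right h5 he.le
      linarith
    · refine (h.E4 y x).trans ?_
      rw [abs_sub_comm y x]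
      have h5 : 2 / (ε / 3 * κ ^ 2) ≤ |x - y| := by
        have := le_abs_self (x - y)
        linarith
      have ht : 0 ≤ |x - y| := abs_nonneg _
      have h6 := Real.quadratic_le_exp_of_nonneg (x := κ * |x - y|) (by positivity)
      rw [div_le_iff₀ (by positivity)] at h5
      have h7 : 0 ≤ κ * |x - y| := by positivity
      have h8 : |x - y| ≤ ε / 3 * ((κ * |x - y|) ^ 2 / 2) := by
        have h9 := mul_le_mul_of_nonneg_left h5 ht
        nlinarith
      refine h8.trans (mul_le_mul_of_nonneg_left ?_ hε3.le)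
      linarith
  have h5 := hC y
  have h6 : ((if y ≤ 0 then 0 else E y) + ∑' j, m j (y - X j)) - E x =
      ((if y ≤ 0 then 0 else E y) - E y) + (E y - E x) + ∑' j, m j (y - X j) := by ring
  rw [h6]
  refine (abs_add_three _ _ _).trans ?_
  linarith

private lemma growth (h : CS κ A m r M X H R G E) {ε : ℝ} (hε : 0 < ε) :
    ∃ C : ℝ, ∀ y, 0 ≤ y → (if y ≤ 0 then 0 else E y) + ∑' j, m j (y - X j) ≤
      C * Real.exp (ε * y) := by
  obtain ⟨J, hJ⟩ := exists_nat_gt (1 / ε)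
  refine ⟨(A 0 + 1 / ε) + (1 + ∑ j ∈ Finset.range J, M j), fun y hy => ?_⟩
  have he : 1 ≤ Real.exp (ε * y) := Real.one_le_exp (by positivity)
  have hM0 : ∀ j, 0 ≤ M j := fun j => by linarith [h.M1 j]
  have hsum : 0 ≤ ∑ j ∈ Finset.range J, M j := Finset.sum_nonneg fun j _ => hM0 j
  have hE0 : 0 ≤ E y := by linarith [h.E_ge y]
  have h1 : (if y ≤ 0 then 0 else E y) ≤ E y := by
    split_ifs
    · exact hE0
    · exact le_rfl
  have h2 : E y ≤ (A 0 + 1 / ε) * Real.exp (ε * y) := by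
    have h3 := h.E4 y 0
    rw [h.E0 0 h.p0, sub_zero, abs_of_nonneg hy] at h3
    have h4 := (abs_le.1 h3).2
    have h5 := t_exp hε y
    have h6 := mul_le_mul_of_nonneg_left he (show 0 ≤ A 0 by linarith [h.A1 0])
    linarith
  have h3 : |∑' j, m j (y - X j)| ≤ (1 + ∑ j ∈ Finset.range J, M j) * Real.exp (ε * y) := by
    rcases h.P_cases y with ⟨h4, -⟩ | ⟨k, hk, h4, -⟩
    · rw [h4, abs_zero]
      positivity
    · rw [h4]
      refine (h.bd k _).trans ?_
      rcases lt_or_ge k J with hj | hj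
      · have h5 : M k ≤ ∑ j ∈ Finset.range J, M j :=
          Finset.single_le_sum (f := M) (fun j _ => hM0 j) (Finset.mem_range.2 hj)
        have h6 := mul_le_mul_of_nonneg_left he
          (show 0 ≤ 1 + ∑ j ∈ Finset.range J, M j by linarith)
        linarith
      · have hMp : 0 < M k := by linarith [h.M1 k]
        have hk1 : (0 : ℝ) < (k : ℝ) + 1 := by positivity
        have h5 : ((k : ℝ) + 1) * Real.log (M k) ≤ y := by
          have h6 := h.XM k
          have h7 := (abs_le.1 hk).1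
          linarith
        have h6 : Real.log (M k) ≤ ε * y := by
          have h7 : (J : ℝ) ≤ k := by exact_mod_cast hj
          have h8 : 1 / ε ≤ (k : ℝ) + 1 := by linarith
          rw [div_le_iff₀ hε] at h8
          have h9 := Real.log_nonneg (h.M1 k)
          have h10 := mul_le_mul_of_nonneg_left h5 hε.le
          have h11 := mul_le_mul_of_nonneg_right h8 h9
          linarith
        have h7 : M k ≤ Real.exp (ε * y) := by
          rw [← Real.exp_log hMp]
          exact Real.exp_le_exp.2 h6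
        have h8 : Real.exp (ε * y) ≤ (1 + ∑ j ∈ Finset.range J, M j) * Real.exp (ε * y) :=
          le_mul_of_one_le_left (by positivity) (by linarith)
        exact h7.trans h8
  have h4 := (abs_le.1 h3).2
  rw [add_mul]
  linarith

private lemma lowb (h : CS κ A m r M X H R G E) (Y : ℝ) :
    ∃ y, Y ≤ y ∧ 1 ≤ ∫ t in Icc y (y + 1), ((if t ≤ 0 then 0 else E t) +
      ∑' j, m j (t - X j)) := by
  obtain ⟨i, hi⟩ := exists_nat_ge Y
  have hX := h.X_ge i
  have hr := h.r0 i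
  have hH := h.Hp i
  have hXr := h.Xr i
  refine ⟨X i + r i + 1 / 2, by linarith, ?_⟩
  have h1 : EqOn (fun t => (if t ≤ 0 then 0 else E t) + ∑' j, m j (t - X j)) (fun _ => A i)
      (Icc (X i + r i + 1 / 2) (X i + r i + 1 / 2 + 1)) := by
    intro t ht
    have ht1 := ht.1
    have ht2 := ht.2
    have h2 : |t - X i| ≤ H i := by
      rw [abs_of_nonneg (by linarith)]
      linarith
    have h3 : r i < |t - X i| := by
      rw [abs_of_nonneg (by linarith)]
      linarith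
    show (if t ≤ 0 then 0 else E t) + ∑' j, m j (t - X j) = A i
    rw [if_neg (by linarith), h.P_win h2, h.supp i _ h3, h.E_win h2, add_zero]
  rw [setIntegral_congr_fun measurableSet_Icc h1, setIntegral_const]
  have h2 : volume.real (Icc (X i + r i + 1 / 2) (X i + r i + 1 / 2 + 1)) = 1 := by
    rw [Real.volume_real_Icc_of_le (by linarith)]
    ring
  rw [h2, one_smul]
  exact h.A1 i

private lemma Nnonneg (h : CS κ A m r M X H R G E) (y : ℝ) :
    0 ≤ (if y ≤ 0 then 0 else E y) + ∑' j, m j (y - X j) := by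
  by_cases hy : y ≤ 0
  · rw [if_pos hy, h.P_neg hy, add_zero]
  · rw [if_neg hy]
    rcases h.P_cases y with ⟨h4, -⟩ | ⟨k, hk, h4, -⟩
    · rw [h4]
      linarith [h.E_ge y]
    · rw [h4, h.E_win (hk.trans (by linarith [h.Hp k]))]
      exact h.pos k _

end CS

private lemma cs_params {m : ℕ → ℝ → ℝ} (hm : ∀ i, Continuous (m i))
    (hs : ∀ i, HasCompactSupport (m i)) :
    ∃ r M : ℕ → ℝ, (∀ i, 0 ≤ r i) ∧ (∀ i, 1 ≤ M i) ∧ (∀ i y, r i < |y| → m i y = 0) ∧
      ∀ i y, |m i y| ≤ M i := by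
  have h1 : ∀ i, ∃ r : ℝ, 0 ≤ r ∧ ∀ y, r < |y| → m i y = 0 := by
    intro i
    obtain ⟨r, hr⟩ := (hs i).isCompact.isBounded.subset_closedBall (0 : ℝ)
    refine ⟨max r 0, le_max_right _ _, fun y hy => ?_⟩
    by_contra hc
    have h2 : y ∈ tsupport (m i) := subset_tsupport _ hc
    have h3 := hr h2
    rw [Metric.mem_closedBall, dist_zero_right, Real.norm_eq_abs] at h3
    linarith [le_max_left r 0]
  have h2 : ∀ i, ∃ M : ℝ, 1 ≤ M ∧ ∀ y, |m i y| ≤ M := by
    intro i
    obtain ⟨M, hM⟩ := (hm i).bounded_above_of_compact_support (hs i)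
    exact ⟨max M 1, le_max_right _ _, fun y => (hM y).trans (le_max_left _ _)⟩
  choose r hr0 hr using h1
  choose M hM1 hM using h2
  exact ⟨r, M, hr0, hM1, hr, hM⟩

theorem conc_seq {κ : ℝ} (hκ : 0 < κ) (A : ℕ → ℝ) (m : ℕ → ℝ → ℝ) (hA : ∀ i, 1 ≤ A i)
    (hm : ∀ i, Continuous (m i)) (hs : ∀ i, HasCompactSupport (m i))
    (hpos : ∀ i y, 0 ≤ A i + m i y) :
    ∃ (N : ℝ → ℝ) (X : ℕ → ℝ), Measurable N ∧ (∀ y, 0 ≤ N y) ∧ (∀ y, y ≤ 0 → N y = 0) ∧
      (∀ ε : ℝ, 0 < ε → ∃ C : ℝ, ∀ y, 0 ≤ y → N y ≤ C * Real.exp (ε * y)) ∧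
      (∀ Y : ℝ, ∃ y, Y ≤ y ∧ 1 ≤ ∫ t in Icc y (y + 1), N t) ∧ Tendsto X atTop atTop ∧
      (∀ ε : ℝ, 0 < ε → ∃ x₀ : ℝ, ∀ x, x₀ ≤ x → ∃ i : ℕ, 1 / ε ≤ i ∧
        ((∃ x' : ℝ, ∀ y, |N y - (A i + m i (y - x + x'))| ≤ ε * Real.exp (κ * |x - y|)) ∨
          ∃ s ∈ Icc (0 : ℝ) 1, ∀ y,
            |N y - ((1 - s) * A i + s * A (i + 1))| ≤ ε * Real.exp (κ * |x - y|))) ∧
      (∀ ε : ℝ, 0 < ε → ∃ i₀ : ℕ, ∀ i, i₀ ≤ i → ∀ y,
        |N y - (A i + m i (y - X i))| ≤ ε * Real.exp (κ * |X i - y|)) := by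
  obtain ⟨r, M, hr0, hM1, hr, hM⟩ := cs_params hm hs
  -- the sequences
  obtain ⟨R, hR⟩ : ∃ R : ℕ → ℝ, R = fun i => r i + (1 / κ * Real.log (M i * ((i : ℝ) + 1)) +
    ((i : ℝ) + 1)) := ⟨_, rfl⟩
  obtain ⟨H, hH⟩ : ∃ H : ℕ → ℝ, H = fun i => R i + ((i : ℝ) + 1) := ⟨_, rfl⟩
  obtain ⟨G, hGd⟩ : ∃ G : ℕ → ℝ, G = fun i : ℕ => ((i : ℝ) + 1) * |A (i + 1) - A i| +
    ((i : ℝ) + 3) * Real.log (M (i + 1)) + r (i + 1) + ((i : ℝ) + 1) := ⟨_, rfl⟩
  obtain ⟨X, hX0, hXs⟩ : ∃ X : ℕ → ℝ, X 0 = 2 + H 0 + 2 * Real.log (M 0) ∧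
      ∀ i, X (i + 1) = X i + H i + G i + H (i + 1) :=
    ⟨fun n => Nat.rec (2 + H 0 + 2 * Real.log (M 0)) (fun i x => x + H i + G i + H (i + 1)) n,
      rfl, fun i => rfl⟩
  have hl0 : ∀ i, 0 ≤ Real.log (M i) := fun i => Real.log_nonneg (hM1 i)
  have hMi : ∀ i : ℕ, 1 ≤ M i * ((i : ℝ) + 1) := fun i => by
    have h1 : (0 : ℝ) ≤ i := Nat.cast_nonneg i
    have h2 := hM1 i
    nlinarith
  have hd0 : ∀ i : ℕ, 0 ≤ 1 / κ * Real.log (M i * ((i : ℝ) + 1)) := fun i =>
    mul_nonneg (by positivity) (Real.log_nonneg (hMi i))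
  have hrR : ∀ i, r i + 1 ≤ R i := by
    intro i
    have h1 := hd0 i
    have h2 : (0 : ℝ) ≤ i := Nat.cast_nonneg i
    rw [hR]
    simp only
    linarith
  have hHR : ∀ i, R i + ((i : ℝ) + 1) ≤ H i := by
    intro i
    rw [hH]
  have hMR : ∀ i, M i * ((i : ℝ) + 1) ≤ Real.exp (κ * (R i - r i)) := by
    intro i
    have h0 : 0 < M i * ((i : ℝ) + 1) := by linarith [hMi i]
    rw [← Real.log_le_iff_le_exp h0, hR]
    simp only
    have h1 : κ * (r i + (1 / κ * Real.log (M i * ((i : ℝ) + 1)) + ((i : ℝ) + 1)) - r i) =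
        Real.log (M i * ((i : ℝ) + 1)) + κ * ((i : ℝ) + 1) := by
      field_simp
      ring
    rw [h1]
    have : 0 ≤ κ * ((i : ℝ) + 1) := by positivity
    linarith
  have hG1 : ∀ i, 1 ≤ G i := by
    intro i
    have h1 : (0 : ℝ) ≤ i := Nat.cast_nonneg i
    have h2 : 0 ≤ ((i : ℝ) + 1) * |A (i + 1) - A i| := by positivity
    have h3 : 0 ≤ ((i : ℝ) + 3) * Real.log (M (i + 1)) := mul_nonneg (by positivity) (hl0 _)
    have h4 := hr0 (i + 1)
    rw [hGd]
    simp only
    linarith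
  have hGs : ∀ i, |A (i + 1) - A i| ≤ G i / ((i : ℝ) + 1) := by
    intro i
    have h1 : (0 : ℝ) ≤ i := Nat.cast_nonneg i
    have h3 : 0 ≤ ((i : ℝ) + 3) * Real.log (M (i + 1)) := mul_nonneg (by positivity) (hl0 _)
    have h4 := hr0 (i + 1)
    rw [le_div_iff₀ (by positivity), hGd]
    simp only
    linarith
  have hHp : ∀ i, r i + 2 ≤ H i := by
    intro i
    have h1 := hHR i
    have h2 := hrR i
    have h3 : (0 : ℝ) ≤ i := Nat.cast_nonneg i
    linarith
  have hH0 : ∀ i, 0 ≤ H i := fun i => by linarith [hHp i, hr0 i]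
  have hXp : ∀ i, 0 ≤ X i := by
    intro i
    induction i with
    | zero =>
      rw [hX0]
      linarith [hH0 0, hl0 0]
    | succ i ih =>
      rw [hXs]
      linarith [hH0 i, hH0 (i + 1), hG1 i]
  have hXM : ∀ i : ℕ, ((i : ℝ) + 1) * Real.log (M i) + 1 ≤ X i - r i := by
    intro i
    cases i with
    | zero =>
      rw [hX0]
      push_cast
      linarith [hHp 0, hl0 0]
    | succ i =>
      have h1 : (0 : ℝ) ≤ i := Nat.cast_nonneg i
      have h2 : 0 ≤ ((i : ℝ) + 1) * |A (i + 1) - A i| := by positivity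
      have h3 : G i = ((i : ℝ) + 1) * |A (i + 1) - A i| +
        ((i : ℝ) + 3) * Real.log (M (i + 1)) + r (i + 1) + ((i : ℝ) + 1) := by rw [hGd]
      have h4 := hr0 (i + 1)
      have h5 := hHp (i + 1)
      have h6 := hXp i
      have h7 := hH0 i
      have h8 := hl0 (i + 1)
      rw [hXs, h3]
      push_cast
      linarith
  obtain ⟨E, hE0, hE1, hE2, hE3, hE4⟩ := exists_bg A (fun i => X i + H i) G hG1 hGs (fun i => by
    have h1 := hXs i
    have h2 := hH0 (i + 1)
    show X i + H i + G i ≤ X (i + 1) + H (i + 1)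
    linarith)
  have hCS : CS κ A m r M X H R G E :=
    { k0 := hκ
      A1 := hA
      cont := hm
      pos := hpos
      r0 := hr0
      M1 := hM1
      supp := hr
      bd := hM
      HR := hHR
      rR := hrR
      MR := hMR
      G1 := hG1
      Xs := hXs
      Xr := fun i => by
        have h1 := hXM i
        have h2 : 0 ≤ ((i : ℝ) + 1) * Real.log (M i) := mul_nonneg (by positivity) (hl0 i)
        linarith
      XM := fun i => by
        have h1 := hXM i
        linarith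
      E0 := hE0
      E1 := hE1
      E2 := hE2
      E3 := hE3
      E4 := hE4 }
  have hXt : Tendsto X atTop atTop :=
    tendsto_atTop_mono (fun n => hCS.X_ge n) tendsto_natCast_atTop_atTop
  refine ⟨fun y => (if y ≤ 0 then 0 else E y) + ∑' j, m j (y - X j), X, ?_, hCS.Nnonneg, ?_,
    fun ε hε => hCS.growth hε, hCS.lowb, hXt, ?_, ?_⟩
  · refine Measurable.add ?_ hCS.P_meas
    exact Measurable.ite measurableSet_Iic measurable_const hCS.E_cont.measurable
  · intro y hy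
    show (if y ≤ 0 then 0 else E y) + ∑' j, m j (y - X j) = 0
    rw [if_pos hy, hCS.P_neg hy, add_zero]
  · intro ε hε
    obtain ⟨x₀, hx₀⟩ := Filter.eventually_atTop.1 ((hCS.case1 hε).and (hCS.case2 hε))
    refine ⟨x₀, fun x hx => ?_⟩
    obtain ⟨h1, h2⟩ := hx₀ x hx
    by_cases hc : ∃ i, |x - X i| < R i
    · obtain ⟨i, hi⟩ := hc
      obtain ⟨h3, h4⟩ := h1 i hi
      refine ⟨i, h3, Or.inl ⟨x - X i, fun y => ?_⟩⟩
      have h5 := h4 y
      rw [show y - x + (x - X i) = y - X i by ring]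
      exact h5
    · push Not at hc
      obtain ⟨i, h3, s, hs', h4⟩ := h2 hc
      exact ⟨i, h3, Or.inr ⟨s, hs', h4⟩⟩
  · intro ε hε
    obtain ⟨i₀, hi₀⟩ := Filter.eventually_atTop.1 (hXt.eventually (hCS.case1 hε))
    refine ⟨i₀, fun i hi y => ?_⟩
    refine (hi₀ i hi i ?_).2 y
    rw [sub_self, abs_zero]
    linarith [hrR i, hr0 i]

end Helper25.Ind
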