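import Pool.Agent.Helper25.Ind2.CSeq
import Pool.Agent.Helper25.Ind2.RDens
import Pool.Agent.Helper25.Ind2.Mellin

/-!
# IND2 C2: concatenation of patches, potentials

PROOFS.
* `densOK_of`: `sup`: `C exp(ε y) ≤ exp(C' exp(ε y))` with `C' = max C 1`..., e.g. `C exp(εy) = exp(log C + εy) ≤ exp((|log C| + 1) exp(ε y))` (`εy ≤ exp(εy)`, `1 ≤ exp(εy)`). `mass`: integrate the bound over `[y,y+1]`.
* `conc_a`: `κ = min (km ρ) (kp ρ) / 2 > 0`, `conc_seq`, `loc_sup` (constant `C₀`, apply `conc_seq` with `ε / (C₀+1)` and also smaller than `ε`). For `x ≥ x₀`: case 1: `M y = A i + m i (y - x + x')`, `U ρ θ M x = ∫ kk ρ θ (x-y) (A i + m i (y-x+x')) dy = U ρ θ (A i + m i) x'` (substitution `z = y - x + x'`);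
  case 2: `M` constant, `U_const`. The bound `B` required by `loc_sup`: `M` is bounded, `|N y| ≤ |M y| + ε exp(κ|x-y|)`. Last clause: same at `x = X i` with `x' = 0`.
-/

open Filter Topology MeasureTheory Set

namespace Helper25.Ind

lemma densOK_of {N : ℝ → ℝ} (h1 : Measurable N) (h2 : ∀ y, 0 ≤ N y) (h3 : ∀ y, y ≤ 0 → N y = 0)
    (h4 : ∀ ε : ℝ, 0 < ε → ∃ C : ℝ, ∀ y, 0 ≤ y → N y ≤ C * Real.exp (ε * y))
    (h5 : ∀ Y : ℝ, ∃ y, Y ≤ y ∧ 1 ≤ ∫ t in Icc y (y + 1), N t) : DensOK N := by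
  refine ⟨h1, h2, h3, fun ε hε => ?_, fun ε hε => ?_, h5⟩
  · obtain ⟨C, hC⟩ := h4 ε hε
    refine ⟨C, fun y hy => (hC y hy).trans ?_⟩
    have := Real.add_one_le_exp (C * Real.exp (ε * y))
    linarith
  · obtain ⟨C, hC⟩ := h4 ε hε
    refine ⟨|C| * Real.exp ε, fun y hy => ?_⟩
    have hb : ∀ t ∈ Icc y (y + 1), ‖N t‖ ≤ |C| * Real.exp ε * Real.exp (ε * y) := by
      intro t ht
      rw [Real.norm_eq_abs, abs_of_nonneg (h2 t)]
      refine (hC t (hy.trans ht.1)).trans ?_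
      refine (mul_le_mul_of_nonneg_right (le_abs_self C) (Real.exp_pos _).le).trans ?_
      rw [mul_assoc, ← Real.exp_add]
      refine mul_le_mul_of_nonneg_left (Real.exp_le_exp.2 ?_) (abs_nonneg C)
      have : ε * t ≤ ε * (y + 1) := mul_le_mul_of_nonneg_left ht.2 hε.le
      linarith
    have hv : volume (Icc y (y + 1)) < ⊤ := by simp
    have h := norm_setIntegral_le_of_norm_le_const hv hb
    have hr : volume.real (Icc y (y + 1)) = 1 := by
      simp [Measure.real, Real.volume_Icc]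
    rw [hr, mul_one] at h
    exact (le_abs_self _).trans (by rwa [Real.norm_eq_abs] at h)

private lemma conc_bd {κ : ℝ} {N M : ℝ → ℝ} {x K δ : ℝ} (hκ : 0 < κ) (hδ : 0 ≤ δ) (hK : 0 ≤ K)
    (hM : ∀ y, |M y| ≤ K) (h : ∀ y, |N y - M y| ≤ δ * Real.exp (κ * |x - y|)) :
    (∀ y, |N y| ≤ (K + δ) * Real.exp (κ * |x - y|)) ∧
      (∀ y, |M y| ≤ (K + δ) * Real.exp (κ * |x - y|)) := by
  have he : ∀ y, 1 ≤ Real.exp (κ * |x - y|) := fun y =>
    Real.one_le_exp (mul_nonneg hκ.le (abs_nonneg _))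
  have h1 : ∀ y, |M y| ≤ K * Real.exp (κ * |x - y|) := fun y =>
    (hM y).trans (le_mul_of_one_le_right hK (he y))
  constructor
  · intro y
    have h2 : |N y| ≤ |N y - M y| + |M y| := by
      have := abs_add_le (N y - M y) (M y)
      rwa [sub_add_cancel] at this
    have := h y
    have := h1 y
    linarith
  · intro y
    have := h1 y
    have : 0 ≤ δ * Real.exp (κ * |x - y|) := mul_nonneg hδ (Real.exp_pos _).le
    linarith

private lemma conc_shift {ρ : ℝ} (θ a : ℝ) (m : ℝ → ℝ) (x x' : ℝ) :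
    U ρ θ (fun y => a + m (y - x + x')) x = U ρ θ (fun y => a + m y) x' := by
  unfold U
  rw [← integral_add_right_eq_self (fun y => kk ρ θ (x' - y) * (a + m y)) (x' - x)]
  refine integral_congr_ae (Eventually.of_forall fun y => ?_)
  have e1 : x' - (y - x + x') = x - y := by ring
  have e2 : y + (x' - x) = y - x + x' := by ring
  simp only [e2, e1]

theorem conc_a {ρ : ℝ} (hρ : 0 < ρ) (hint : ¬ ∃ n : ℕ, ρ = n) (A : ℕ → ℝ) (m : ℕ → ℝ → ℝ)
    (hA : ∀ i, 1 ≤ A i) (hm : ∀ i, Continuous (m i)) (hs : ∀ i, HasCompactSupport (m i))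
    (hpos : ∀ i y, 0 ≤ A i + m i y) :
    ∃ (N : ℝ → ℝ) (X : ℕ → ℝ), DensOK N ∧ Tendsto X atTop atTop ∧
      (∀ ε : ℝ, 0 < ε → ∃ x₀ : ℝ, ∀ x, x₀ ≤ x → ∃ i : ℕ, 1 / ε ≤ i ∧
        ((∃ x' : ℝ, ∀ θ ∈ Icc (0 : ℝ) Real.pi,
            |U ρ θ N x - U ρ θ (fun y => A i + m i y) x'| ≤ ε) ∨
          ∃ s ∈ Icc (0 : ℝ) 1, ∀ θ ∈ Icc (0 : ℝ) Real.pi,
            |U ρ θ N x - cc ρ 0 θ * ((1 - s) * A i + s * A (i + 1))| ≤ ε)) ∧
      (∀ ε : ℝ, 0 < ε → ∃ i₀ : ℕ, ∀ i, i₀ ≤ i → ∀ θ ∈ Icc (0 : ℝ) Real.pi,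
        |U ρ θ N (X i) - U ρ θ (fun y => A i + m i y) 0| ≤ ε) := by
  have hkm := km_pos hρ hint
  have hkp := kp_pos hρ.le
  set κ : ℝ := min (km ρ) (kp ρ) / 2 with hκd
  have hmin : 0 < min (km ρ) (kp ρ) := lt_min hkm hkp
  have hκ : 0 < κ := half_pos hmin
  have hκ1 : κ < km ρ := (half_lt_self hmin).trans_le (min_le_left _ _)
  have hκ2 : κ < kp ρ := (half_lt_self hmin).trans_le (min_le_right _ _)
  obtain ⟨N, X, hmeas, h0, hz, hgr, hlow, hX, hc, hc2⟩ := conc_seq hκ A m hA hm hs hpos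
  obtain ⟨C, hC, hL⟩ := loc_sup (ρ := ρ) hκ1 hκ2
  have key : ∀ (i : ℕ) (x x' δ ε : ℝ), 0 < δ → C * δ ≤ ε →
      (∀ y, |N y - (A i + m i (y - x + x'))| ≤ δ * Real.exp (κ * |x - y|)) →
      ∀ θ ∈ Icc (0 : ℝ) Real.pi,
        |U ρ θ N x - U ρ θ (fun y => A i + m i y) x'| ≤ ε := by
    intro i x x' δ ε hδ hCδ h θ hθ
    obtain ⟨K, hK⟩ := (hm i).bounded_above_of_compact_support (hs i)
    have hK0 : 0 ≤ K := (norm_nonneg _).trans (hK 0)
    have hM : ∀ y, |A i + m i (y - x + x')| ≤ |A i| + K := fun y =>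
      (abs_add_le _ _).trans (by
        have := hK (y - x + x')
        rw [Real.norm_eq_abs] at this
        linarith)
    have hb := conc_bd (N := N) (M := fun y => A i + m i (y - x + x')) (x := x) hκ hδ.le
      (add_nonneg (abs_nonneg _) hK0) hM h
    have hmM : Measurable (fun y => A i + m i (y - x + x')) := by
      have := (hm i).measurable
      fun_prop
    have := hL θ hθ N (fun y => A i + m i (y - x + x')) hmeas hmM x _ δ hδ.le hb.1 hb.2 h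
    rw [conc_shift] at this
    exact this.trans hCδ
  have hδe : ∀ ε : ℝ, 0 < ε → 0 < min ε (ε / C) ∧ C * min ε (ε / C) ≤ ε := by
    intro ε hε
    refine ⟨lt_min hε (div_pos hε hC), ?_⟩
    have : C * min ε (ε / C) ≤ C * (ε / C) := mul_le_mul_of_nonneg_left (min_le_right _ _) hC.le
    rwa [mul_div_cancel₀ _ hC.ne'] at this
  refine ⟨N, X, densOK_of hmeas h0 hz hgr hlow, hX, fun ε hε => ?_, fun ε hε => ?_⟩
  · obtain ⟨hδ, hCδ⟩ := hδe ε hε
    obtain ⟨x₀, hx₀⟩ := hc _ hδ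
    refine ⟨x₀, fun x hx => ?_⟩
    obtain ⟨i, hi, h⟩ := hx₀ x hx
    refine ⟨i, (one_div_le_one_div_of_le hδ (min_le_left _ _)).trans hi, ?_⟩
    rcases h with ⟨x', h⟩ | ⟨s, hs', h⟩
    · exact Or.inl ⟨x', key i x x' _ ε hδ hCδ h⟩
    · refine Or.inr ⟨s, hs', fun θ hθ => ?_⟩
      have hb := conc_bd (N := N) (M := fun _ => (1 - s) * A i + s * A (i + 1)) (x := x) hκ hδ.le
        (abs_nonneg ((1 - s) * A i + s * A (i + 1))) (fun _ => le_rfl) h
      have := hL θ hθ N (fun _ => (1 - s) * A i + s * A (i + 1)) hmeas measurable_const x _ _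
        hδ.le hb.1 hb.2 h
      rw [U_const hρ hint hθ] at this
      exact this.trans hCδ
  · obtain ⟨hδ, hCδ⟩ := hδe ε hε
    obtain ⟨i₀, hi₀⟩ := hc2 _ hδ
    refine ⟨i₀, fun i hi => key i (X i) 0 _ ε hδ hCδ fun y => ?_⟩
    have := hi₀ i hi y
    rwa [add_zero]

end Helper25.Ind
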