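import Pool.Agent.Helper25.Ind2.RDens
import Pool.Agent.Helper25.Ind2.LamB

/-!
# IND2 B1: truncated linear and quadratic densities; class B for `p = 0`

PROOFS. `κ = min (km ρ) (kp ρ)/2`.
* `U_lin_cut`: `loc_sup` at `x` with `N y = if y ≤ 0 then 0 else b y`, `M y = b y`: `|N y - M y| = |b||y| 1_{y ≤ 0} ≤ ε exp(κ|x-y|)` for `x ≥ x₀(ε)` (`|y| ≤ |x-y|`, `t ≤ ε exp(κ t)` for `t ≥ x₀`), then `U_affine` (`A = 0`).
* `U_sq_cut`: same with `y^2 = x^2 - 2x(x-y) + (x-y)^2`; `|y|^2 1_{y ≤ 0} ≤ ε exp(κ|x-y|)`. `∫ kk (x-y) y^2 dy = x^2 cc - 2x ∫ s kk + ∫ s^2 kk` (`integral_kk`, integrability of `s^2 kk` from `integrable_kk_abs`).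
* `densOK_lin`, `densOK_sq`: clear (`b > 0`).
* `p0_kernel` (`⌊ρ⌋₊ = 0`, so `0 < ρ < 1`, `kk ρ θ s = e^{-ρs} log|1+e^{s+iθ}|`, `cos l < cos θ` is false: `cos θ < cos l`). We may assume `θ < π` (`kk ρ π s ≤ kk ρ θ' s` for `s ≠ 0`, `θ' < π`, since `|1+e^{s+iθ}|` is decreasing in `θ`). `kk ρ l s ≤ C₁ ph`, `|kk ρ l s| ≤ C₁ ph` (`abs_kk_le_lt`, `l < π`), `|Lam ρ l s| ≤ C₂ ph` (`abs_Lam_le`).
  By `pattern_np` for `l` there are `S₁`, `c₁ > 0` with `kk ρ l s ≥ c₁ ph ρ s` for `s ≥ S₁`. For `s ≤ S₁`: `e^{ρs}(kk ρ l s - kk ρ θ s) = -(1/2) log(1 - 2e^s(cos l - cos θ)/(1+2e^s cos l+e^{2s})) ≥ e^s (cos l - cos θ)/(1+e^s)^2 ≥ δ log(1+e^s) = δ e^{ρs} ph`, `δ = (cos l - cos θ)/(1+e^{S₁})^2`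
  (`Phi 0 x = log(1+x) ≤ x`). Take `η = min 1 (δ/(2C₁))`, `c = min (δ/(2C₂)) (η c₁/C₂)`. For `s ≤ S₁`: `kk_l - kk_θ + η kk_l + c Lam_l ≥ (δ - ηC₁ - cC₂) ph ≥ 0`. For `s ≥ S₁`: `kk_θ ≤ kk_l`, `η kk_l + c Lam_l ≥ (η c₁ - c C₂) ph ≥ 0`.
* `p0_bot`: for `L > 0` let `μ = (1+η) δ_0 + c 1_{[-L,0]} dx`. `∫ kk_l(s+x) dμ = (1+η) kk_l(s) + c (Lam_l(s) - Lam_l(s-L)) ≥ (1+η) kk_l(s) + c Lam_l(s) ≥ kk_θ(s)` for `s ≠ 0` (`Lam_l ≤ 0` by `Lam_LE`). `MajMeas` with `n = 1`: `h θ ≤ (1 + η + cL) h l` for all `L > 0`, and `h l < 0`: `h θ = ⊥`.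
* `class_b0`: `ρ < 1`; `LE ρ l` means `ρ l = π/2`. `h θ = ⊤` for `θ < l` (`off`: `ρθ < π/2`), `h θ = ⊥` for `l < θ ≤ π` (`p0_bot`). If `h l = -a` real, `a > 0`: `N = b y 1_{y>0}`, `b = a / DD ρ l` (`DD_LE`); `U_l → -b DD = h l` (`integral_mul_kk`), and `cc ρ 0 θ b x - O(1) → ±∞` with the sign of `cc ρ 0 θ`
  (`cc_eq_sg`: positive for `θ < l`, negative for `l < θ ≤ π` as `π/2 < ρθ < 3π/2`). If `h l = ⊥`: `N = y^2 1_{y>0}`: `U_l = -2x DD ρ l + O(1) → -∞`, others `x^2 cc + O(x)`.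
-/

open Filter Topology MeasureTheory Set

namespace Helper25.Ind

private lemma cut_kappa {ρ : ℝ} (hρ : 0 < ρ) (hint : ¬ ∃ n : ℕ, ρ = n) :
    ∃ κ > 0, κ < km ρ ∧ κ < kp ρ := by
  have h1 := km_pos hρ hint
  have h2 := kp_pos hρ.le
  refine ⟨min (km ρ) (kp ρ) / 2, by positivity, ?_, ?_⟩
  · have := min_le_left (km ρ) (kp ρ)
    linarith
  · have := min_le_right (km ρ) (kp ρ)
    linarith

private lemma cut_pow (n : ℕ) {κ ε : ℝ} (hκ : 0 < κ) (hε : 0 < ε) :
    ∃ x₀ : ℝ, 0 ≤ x₀ ∧ ∀ t, x₀ ≤ t → t ^ n ≤ ε * Real.exp (κ * t) := by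
  have h1 := (isLittleO_pow_exp_pos_mul_atTop (k := n) hκ).def hε
  obtain ⟨x₀, hx₀⟩ := eventually_atTop.1 h1
  refine ⟨max x₀ 0, le_max_right _ _, fun t ht => ?_⟩
  have h2 := hx₀ t ((le_max_left _ _).trans ht)
  rw [Real.norm_eq_abs, Real.norm_eq_abs, abs_of_pos (Real.exp_pos _)] at h2
  exact (le_abs_self _).trans h2

private lemma cut_le1 {κ t : ℝ} (hκ : 0 < κ) (ht : 0 ≤ t) : t ≤ 1 / κ * Real.exp (κ * t) := by
  have h1 := Real.add_one_le_exp (κ * t)
  have h2 : κ * t ≤ Real.exp (κ * t) := by linarith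
  rw [div_mul_eq_mul_div, one_mul, le_div_iff₀ hκ]
  linarith

private lemma cut_le2 {κ t : ℝ} (hκ : 0 < κ) (ht : 0 ≤ t) :
    t ^ 2 ≤ 2 / κ ^ 2 * Real.exp (κ * t) := by
  have h1 := Real.quadratic_le_exp_of_nonneg (mul_nonneg hκ.le ht)
  have h2 : (κ * t) ^ 2 / 2 ≤ Real.exp (κ * t) := by
    have := mul_nonneg hκ.le ht
    linarith
  rw [div_mul_eq_mul_div, le_div_iff₀ (by positivity)]
  nlinarith

private lemma cut_one {κ t : ℝ} (hκ : 0 < κ) (ht : 0 ≤ t) : 1 ≤ Real.exp (κ * t) :=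
  Real.one_le_exp (mul_nonneg hκ.le ht)

/-- removing the left half line -/
private lemma cut_diff {ρ κ : ℝ} (hκ : 0 < κ) (h1 : κ < km ρ) (h2 : κ < kp ρ)
    {θ : ℝ} (hθ : θ ∈ Icc (0 : ℝ) Real.pi) {M : ℝ → ℝ} (hM : Measurable M) (n : ℕ) {D : ℝ}
    (hD : 0 ≤ D) (hbd : ∀ x, ∃ B, ∀ y, |M y| ≤ B * Real.exp (κ * |x - y|))
    (hn : ∀ y, y ≤ 0 → |M y| ≤ D * |y| ^ n) :
    Tendsto (fun x => U ρ θ (fun y => if y ≤ 0 then 0 else M y) x - U ρ θ M x) atTop (𝓝 0) := by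
  obtain ⟨C, hC, hloc⟩ := loc_sup h1 h2
  rw [Metric.tendsto_atTop]
  intro ε hε
  obtain ⟨x₀, hx₀, hx₁⟩ := cut_pow n hκ (ε := ε / (2 * C * (D + 1))) (by positivity)
  refine ⟨x₀, fun x hx => ?_⟩
  obtain ⟨B, hB⟩ := hbd x
  have hm : Measurable (fun y => if y ≤ 0 then 0 else M y) :=
    Measurable.ite measurableSet_Iic measurable_const hM
  have h3 := hloc θ hθ (fun y => if y ≤ 0 then 0 else M y) M hm hM x B (ε / (2 * C)) (by positivity)
    (fun y => by
      split_ifs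
      · rw [abs_zero]
        exact (abs_nonneg _).trans (hB y)
      · exact hB y) hB
    (fun y => by
      split_ifs with hy
      · rw [zero_sub, abs_neg]
        have h4 : |x - y| = x - y := abs_of_nonneg (by linarith)
        have h5 : |y| ≤ |x - y| := by
          rw [h4, abs_of_nonpos hy]
          linarith
        have h6 := hx₁ |x - y| (by rw [h4]; linarith)
        calc |M y| ≤ D * |y| ^ n := hn y hy
          _ ≤ (D + 1) * |x - y| ^ n := by
              gcongr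
              linarith
          _ ≤ (D + 1) * (ε / (2 * C * (D + 1)) * Real.exp (κ * |x - y|)) := by gcongr
          _ = ε / (2 * C) * Real.exp (κ * |x - y|) := by field_simp
      · rw [sub_self, abs_zero]
        positivity)
  rw [Real.dist_eq, sub_zero]
  calc _ ≤ C * (ε / (2 * C)) := h3
    _ = ε / 2 := by field_simp
    _ < ε := by linarith

lemma U_lin_cut {ρ θ : ℝ} (hρ : 0 < ρ) (hint : ¬ ∃ n : ℕ, ρ = n)
    (hθ : θ ∈ Icc (0 : ℝ) Real.pi) (b : ℝ) :
    Tendsto (fun x => U ρ θ (fun y => if y ≤ 0 then 0 else b * y) x -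
      (cc ρ 0 θ * (b * x) - b * ∫ s : ℝ, s * kk ρ θ s)) atTop (𝓝 0) := by
  obtain ⟨κ, hκ, h1, h2⟩ := cut_kappa hρ hint
  have h3 := cut_diff hκ h1 h2 hθ (M := fun y => b * y) (by fun_prop) 1 (abs_nonneg b)
    (fun x => ⟨|b| * |x| + |b| * (1 / κ), fun y => by
      have h4 : |y| ≤ |x| + |x - y| := by
        have h5 : y = x - (x - y) := by ring
        calc |y| = |x - (x - y)| := by rw [← h5]
          _ ≤ |x| + |x - y| := abs_sub _ _
      have h5 := cut_one hκ (abs_nonneg (x - y))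
      have h6 := cut_le1 hκ (abs_nonneg (x - y))
      rw [abs_mul]
      calc |b| * |y| ≤ |b| * (|x| + |x - y|) := by gcongr
        _ ≤ |b| * (|x| * Real.exp (κ * |x - y|) + 1 / κ * Real.exp (κ * |x - y|)) := by
            gcongr
            exact le_mul_of_one_le_right (abs_nonneg x) h5
        _ = _ := by ring⟩)
    (fun y _ => by rw [abs_mul, pow_one])
  refine h3.congr fun x => ?_
  have h4 := U_affine hρ hint hθ 0 b x
  simp only [zero_add] at h4
  rw [h4]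

lemma U_sq_cut {ρ θ : ℝ} (hρ : 0 < ρ) (hint : ¬ ∃ n : ℕ, ρ = n)
    (hθ : θ ∈ Icc (0 : ℝ) Real.pi) :
    Tendsto (fun x => U ρ θ (fun y => if y ≤ 0 then 0 else y ^ 2) x -
      (cc ρ 0 θ * x ^ 2 - 2 * x * (∫ s : ℝ, s * kk ρ θ s) + ∫ s : ℝ, s ^ 2 * kk ρ θ s))
      atTop (𝓝 0) := by
  obtain ⟨κ, hκ, h1, h2⟩ := cut_kappa hρ hint
  have h3 := cut_diff hκ h1 h2 hθ (M := fun y => y ^ 2) (by fun_prop) 2 zero_le_one
    (fun x => ⟨2 * x ^ 2 + 2 * (2 / κ ^ 2), fun y => by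
      have h5 := cut_one hκ (abs_nonneg (x - y))
      have h6 := cut_le2 hκ (abs_nonneg (x - y))
      rw [sq_abs] at h6
      rw [abs_of_nonneg (sq_nonneg y)]
      calc y ^ 2 ≤ 2 * x ^ 2 + 2 * (x - y) ^ 2 := by nlinarith [sq_nonneg (2 * x - y)]
        _ ≤ 2 * x ^ 2 * Real.exp (κ * |x - y|) + 2 * (2 / κ ^ 2 * Real.exp (κ * |x - y|)) :=
            add_le_add (le_mul_of_one_le_right (by positivity) h5)
              (mul_le_mul_of_nonneg_left h6 (by norm_num))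
        _ = _ := by ring⟩)
    (fun y _ => by rw [abs_of_nonneg (sq_nonneg y), one_mul, sq_abs])
  refine h3.congr fun x => ?_
  have hI0 := integrable_kk hρ hint hθ
  have hI1 := integrable_mul_kk hρ hint hθ
  have hI2 : Integrable (fun s : ℝ => s ^ 2 * kk ρ θ s) := by
    have h4 := (integrable_kk_abs h1 h2 hθ).const_mul (2 / κ ^ 2)
    refine h4.mono' ((measurable_id.pow_const 2).mul (measurable_kk ρ θ)).aestronglyMeasurable
      (Eventually.of_forall fun s => ?_)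
    have h6 := cut_le2 hκ (abs_nonneg s)
    rw [sq_abs] at h6
    rw [Real.norm_eq_abs, abs_mul, abs_of_nonneg (sq_nonneg s), ← mul_assoc]
    exact mul_le_mul_of_nonneg_right h6 (abs_nonneg _)
  have h4 : U ρ θ (fun y => y ^ 2) x = cc ρ 0 θ * x ^ 2 - 2 * x * (∫ s : ℝ, s * kk ρ θ s) +
      ∫ s : ℝ, s ^ 2 * kk ρ θ s := by
    unfold U
    have h5 : (∫ y, kk ρ θ (x - y) * y ^ 2) = ∫ y, (fun s => kk ρ θ s * (x - s) ^ 2) (x - y) := by
      refine integral_congr_ae (Eventually.of_forall fun y => ?_)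
      simp only [sub_sub_cancel]
    rw [h5, integral_sub_left_eq_self (fun s => kk ρ θ s * (x - s) ^ 2)]
    have h6 : ∀ s, kk ρ θ s * (x - s) ^ 2 =
        x ^ 2 * kk ρ θ s - 2 * x * (s * kk ρ θ s) + s ^ 2 * kk ρ θ s := fun s => by ring
    simp only [h6]
    have hI3 : Integrable (fun s : ℝ => x ^ 2 * kk ρ θ s - 2 * x * (s * kk ρ θ s)) :=
      (hI0.const_mul _).sub (hI1.const_mul _)
    rw [integral_add hI3 hI2, integral_sub (hI0.const_mul _) (hI1.const_mul _), integral_const_mul, integral_const_mul,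
      integral_kk hρ hint hθ]
    ring
  rw [h4]

private lemma cut_dens {N : ℝ → ℝ} (hc : Continuous N) (h0 : ∀ y, 0 ≤ N y)
    (hz : ∀ y, y ≤ 0 → N y = 0)
    (hg : ∀ ε : ℝ, 0 < ε → ∃ C : ℝ, ∀ y, 0 ≤ y → N y ≤ C * Real.exp (ε * y))
    (hl : Tendsto N atTop atTop) : DensOK N where
  meas := hc.measurable
  nonneg := h0
  zero := hz
  sup := by
    intro ε hε
    obtain ⟨C, hC⟩ := hg ε hε
    refine ⟨C, fun y hy => (hC y hy).trans ?_⟩
    have := Real.add_one_le_exp (C * Real.exp (ε * y))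
    linarith
  mass := by
    intro ε hε
    obtain ⟨C, hC⟩ := hg ε hε
    refine ⟨|C| * Real.exp ε, fun y hy => ?_⟩
    have h1 : ∀ t ∈ Icc y (y + 1), ‖N t‖ ≤ |C| * Real.exp ε * Real.exp (ε * y) := by
      intro t ht
      rw [Real.norm_of_nonneg (h0 t)]
      calc N t ≤ C * Real.exp (ε * t) := hC t (hy.trans ht.1)
        _ ≤ |C| * Real.exp (ε * t) := by
            gcongr
            exact le_abs_self C
        _ ≤ |C| * Real.exp (ε + ε * y) := by
            gcongr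
            nlinarith [ht.2]
        _ = |C| * Real.exp ε * Real.exp (ε * y) := by rw [Real.exp_add]; ring
    have h2 := norm_setIntegral_le_of_norm_le_const (μ := volume) (s := Icc y (y + 1)) (by simp) h1
    refine (le_abs_self _).trans (h2.trans (le_of_eq ?_))
    simp
  low := by
    intro Y
    obtain ⟨Y₀, hY₀⟩ := eventually_atTop.1 (hl.eventually_ge_atTop 1)
    refine ⟨max Y Y₀, le_max_left _ _, ?_⟩
    have h1 : ∫ t in Icc (max Y Y₀) (max Y Y₀ + 1), (1 : ℝ) ≤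
        ∫ t in Icc (max Y Y₀) (max Y Y₀ + 1), N t := by
      refine setIntegral_mono_on (integrableOn_const (by simp)) hc.integrableOn_Icc
        measurableSet_Icc fun t ht => ?_
      exact hY₀ t ((le_max_right _ _).trans ht.1)
    refine le_trans (le_of_eq ?_) h1
    simp

lemma densOK_lin {b : ℝ} (hb : 0 < b) : DensOK (fun y => if y ≤ 0 then 0 else b * y) := by
  have h1 : (fun y : ℝ => if y ≤ 0 then 0 else b * y) = fun y => b * max y 0 := by
    funext y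
    split_ifs with hy
    · rw [max_eq_right hy, mul_zero]
    · rw [max_eq_left (not_le.1 hy).le]
  rw [h1]
  refine cut_dens (by fun_prop) (fun y => by positivity)
    (fun y hy => by rw [max_eq_right hy, mul_zero]) (fun ε hε => ?_) ?_
  · refine ⟨b * (1 / ε), fun y hy => ?_⟩
    rw [max_eq_left hy, mul_assoc]
    exact mul_le_mul_of_nonneg_left (cut_le1 hε hy) hb.le
  · refine Tendsto.const_mul_atTop hb (tendsto_atTop_mono (fun y => le_max_left y 0) tendsto_id)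

lemma densOK_sq : DensOK (fun y => if y ≤ 0 then 0 else y ^ 2) := by
  have h1 : (fun y : ℝ => if y ≤ 0 then 0 else y ^ 2) = fun y => max y 0 ^ 2 := by
    funext y
    split_ifs with hy
    · rw [max_eq_right hy]
      ring
    · rw [max_eq_left (not_le.1 hy).le]
  rw [h1]
  refine cut_dens (by fun_prop) (fun y => by positivity)
    (fun y hy => by rw [max_eq_right hy]; ring) (fun ε hε => ?_) ?_
  · refine ⟨2 / ε ^ 2, fun y hy => ?_⟩
    rw [max_eq_left hy]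
    exact cut_le2 hε hy
  · exact (tendsto_pow_atTop two_ne_zero).comp
      (tendsto_atTop_mono (fun y => le_max_left y 0) tendsto_id)

private lemma cut_kk0 {ρ : ℝ} (hp : ⌊ρ⌋₊ = 0) (θ s : ℝ) :
    kk ρ θ s = Real.exp (-(ρ * s)) *
      (1 / 2 * Real.log (1 + 2 * Real.exp s * Real.cos θ + Real.exp s ^ 2)) := by
  rw [kk_eq, hp]
  have h1 : primary 0 (-(Real.exp s * Complex.exp (θ * Complex.I))) =
      1 + Real.exp s * Complex.exp (θ * Complex.I) := by
    unfold primary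
    simp
  have h2 : ‖(1 + Real.exp s * Complex.exp (θ * Complex.I) : ℂ)‖ =
      Real.sqrt (1 + 2 * Real.exp s * Real.cos θ + Real.exp s ^ 2) := by
    rw [Complex.norm_def, Complex.normSq_apply, Complex.exp_mul_I]
    congr 1
    have h3 := Real.cos_sq_add_sin_sq θ
    simp only [Complex.add_re, Complex.one_re, Complex.mul_re, Complex.ofReal_re,
      Complex.ofReal_im, Complex.add_im, Complex.one_im, Complex.mul_im, Complex.I_re,
      Complex.I_im, Complex.cos_ofReal_re, Complex.sin_ofReal_re, Complex.cos_ofReal_im,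
      Complex.sin_ofReal_im]
    nlinarith
  have h4 : 0 ≤ 1 + 2 * Real.exp s * Real.cos θ + Real.exp s ^ 2 := by
    have h5 := mul_nonneg (Real.exp_pos s).le
      (show (0 : ℝ) ≤ 1 + Real.cos θ by linarith [Real.neg_one_le_cos θ])
    nlinarith [sq_nonneg (1 - Real.exp s)]
  rw [h1, h2, Real.log_sqrt h4]
  ring

private lemma cut_ph0 {ρ : ℝ} (hp : ⌊ρ⌋₊ = 0) (s : ℝ) :
    ph ρ s = Real.exp (-(ρ * s)) * Real.log (1 + Real.exp s) := by
  unfold ph
  rw [hp, kerc_Phi_zero (Real.exp_pos s).le]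

/-- comparison of two kernels, `p = 0` -/
private lemma cut_cmp {ρ l θ : ℝ} (hp : ⌊ρ⌋₊ = 0) (hc : Real.cos θ ≤ Real.cos l) {s : ℝ}
    (hB : 0 < 1 + 2 * Real.exp s * Real.cos θ + Real.exp s ^ 2) :
    Real.exp (-(ρ * s)) * (Real.exp s * (Real.cos l - Real.cos θ) / (1 + Real.exp s) ^ 2) ≤
      kk ρ l s - kk ρ θ s := by
  rw [cut_kk0 hp, cut_kk0 hp, ← mul_sub]
  refine mul_le_mul_of_nonneg_left ?_ (Real.exp_pos _).le
  obtain ⟨e, he⟩ : ∃ e, e = Real.exp s := ⟨_, rfl⟩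
  have he0 : 0 < e := by rw [he]; exact Real.exp_pos s
  rw [← he] at hB ⊢
  obtain ⟨A, hA⟩ : ∃ A, A = 1 + 2 * e * Real.cos l + e ^ 2 := ⟨_, rfl⟩
  obtain ⟨D, hD⟩ : ∃ D, D = 1 + 2 * e * Real.cos θ + e ^ 2 := ⟨_, rfl⟩
  rw [← hA, ← hD]
  rw [← hD] at hB
  have hAD : A - D = 2 * (e * (Real.cos l - Real.cos θ)) := by rw [hA, hD]; ring
  have hAD0 : 0 ≤ e * (Real.cos l - Real.cos θ) := mul_nonneg he0.le (by linarith)
  have hA0 : 0 < A := by linarith
  have h1 := Real.add_one_le_exp (Real.log (D / A))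
  rw [Real.exp_log (div_pos hB hA0), Real.log_div hB.ne' hA0.ne'] at h1
  have h2 : (A - D) / A = 1 - D / A := by field_simp
  have h3 : (A - D) / A ≤ Real.log A - Real.log D := by linarith
  have h4 : A ≤ (1 + e) ^ 2 := by
    have := mul_le_mul_of_nonneg_left (Real.cos_le_one l) he0.le
    nlinarith
  have h5 : (A - D) / (1 + e) ^ 2 ≤ (A - D) / A := by
    refine div_le_div_of_nonneg_left ?_ hA0 h4
    linarith
  rw [hAD] at h5 h3
  have h6 : 2 * (e * (Real.cos l - Real.cos θ)) / (1 + e) ^ 2 =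
      2 * (e * (Real.cos l - Real.cos θ) / (1 + e) ^ 2) := by ring
  rw [h6] at h5
  linarith

private lemma cut_pos {θ s : ℝ} (h0 : 0 ≤ θ) (h1 : θ ≤ Real.pi) (hs : s ≠ 0) :
    0 < 1 + 2 * Real.exp s * Real.cos θ + Real.exp s ^ 2 := by
  have h5 := mul_nonneg (Real.exp_pos s).le
    (show (0 : ℝ) ≤ 1 + Real.cos θ by linarith [Real.neg_one_le_cos θ])
  have h6 : 0 < (1 - Real.exp s) ^ 2 := by
    apply sq_pos_of_ne_zero
    intro h
    apply hs
    have : Real.exp s = 1 := by linarith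
    exact Real.exp_eq_one_iff s |>.1 this
  nlinarith

lemma p0_kernel {ρ l θ : ℝ} (hρ : 0 < ρ) (hint : ¬ ∃ n : ℕ, ρ = n) (hp : ⌊ρ⌋₊ = 0)
    (hl : LE ρ l) (h1 : l < θ) (h2 : θ ≤ Real.pi) :
    ∃ η > 0, ∃ c > 0, ∀ s : ℝ, s ≠ 0 →
      kk ρ θ s ≤ (1 + η) * kk ρ l s + c * Lam ρ l s := by
  have hl0 : 0 ≤ l := hl.1
  have hlI : l ∈ Icc (0 : ℝ) Real.pi := ⟨hl.1, hl.2.1⟩
  obtain ⟨ha, hb⟩ := LE_ab hρ hint hl
  obtain ⟨s₀, -, -, h3⟩ := pattern_np ρ hlI ha hb
  obtain ⟨c₁, hc₁, -, h4⟩ := h3 1 one_pos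
  obtain ⟨C₁, hC₁, hk⟩ := abs_kk_le_lt ρ (lt_of_lt_of_le h1 h2)
  obtain ⟨C₂, hC₂, hL⟩ := abs_Lam_le hρ hint hlI hl.2.2.1
  have hcos : Real.cos θ < Real.cos l :=
    Real.cos_lt_cos_of_nonneg_of_le_pi hl0 h2 h1
  obtain ⟨δ, hδ⟩ : ∃ δ, δ = (Real.cos l - Real.cos θ) / (1 + Real.exp (s₀ + 1)) ^ 2 := ⟨_, rfl⟩
  have hδ0 : 0 < δ := by
    rw [hδ]
    refine div_pos (by linarith) ?_
    have := Real.exp_pos (s₀ + 1)
    positivity
  obtain ⟨η, hη⟩ : ∃ η, η = δ / (2 * C₁) := ⟨_, rfl⟩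
  have hη0 : 0 < η := by rw [hη]; positivity
  obtain ⟨c, hc⟩ : ∃ c, c = min (δ / (2 * C₂)) (η * c₁ / C₂) := ⟨_, rfl⟩
  have hc0 : 0 < c := by rw [hc]; positivity
  have hc2 : c * C₂ ≤ δ / 2 := by
    have h5 : c ≤ δ / (2 * C₂) := by rw [hc]; exact min_le_left _ _
    calc c * C₂ ≤ δ / (2 * C₂) * C₂ := mul_le_mul_of_nonneg_right h5 hC₂.le
      _ = δ / 2 := by field_simp
  have hc3 : c * C₂ ≤ η * c₁ := by
    have h5 : c ≤ η * c₁ / C₂ := by rw [hc]; exact min_le_right _ _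
    calc c * C₂ ≤ η * c₁ / C₂ * C₂ := mul_le_mul_of_nonneg_right h5 hC₂.le
      _ = η * c₁ := by field_simp
  have hη2 : η * C₁ = δ / 2 := by rw [hη]; field_simp
  refine ⟨η, hη0, c, hc0, fun s hs => ?_⟩
  have hph := ph_pos ρ s
  have hcmp := cut_cmp (ρ := ρ) hp hcos.le (cut_pos (hl0.trans h1.le) h2 hs)
  have hLs := (abs_le.1 (hL s)).1
  have hLs' : -(c * C₂ * ph ρ s) ≤ c * Lam ρ l s := by
    have := mul_le_mul_of_nonneg_left hLs hc0.le
    linarith
  rcases le_total s (s₀ + 1) with h | h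
  · have h5 : δ * ph ρ s ≤ kk ρ l s - kk ρ θ s := by
      refine le_trans ?_ hcmp
      rw [cut_ph0 hp]
      have h6 : Real.log (1 + Real.exp s) ≤ Real.exp s := by
        have := Real.log_le_sub_one_of_pos (show 0 < 1 + Real.exp s by positivity)
        linarith
      have h7 : δ * Real.log (1 + Real.exp s) ≤
          Real.exp s * (Real.cos l - Real.cos θ) / (1 + Real.exp s) ^ 2 := by
        have h8 : (Real.cos l - Real.cos θ) / (1 + Real.exp (s₀ + 1)) ^ 2 ≤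
            (Real.cos l - Real.cos θ) / (1 + Real.exp s) ^ 2 := by
          refine div_le_div_of_nonneg_left (by linarith) (by positivity) ?_
          have := Real.exp_le_exp.2 h
          gcongr
        calc δ * Real.log (1 + Real.exp s) ≤ δ * Real.exp s :=
              mul_le_mul_of_nonneg_left h6 hδ0.le
          _ ≤ (Real.cos l - Real.cos θ) / (1 + Real.exp s) ^ 2 * Real.exp s := by
              rw [hδ]
              exact mul_le_mul_of_nonneg_right h8 (Real.exp_pos s).le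
          _ = _ := by ring
      have h9 := mul_le_mul_of_nonneg_left h7 (Real.exp_pos (-(ρ * s))).le
      linarith
    have h6 := (abs_le.1 (hk l ⟨hl0, le_rfl⟩ s)).1
    have h7 := mul_le_mul_of_nonneg_left h6 hη0.le
    have h8 : η * -(C₁ * ph ρ s) = -(η * C₁) * ph ρ s := by ring
    rw [h8, hη2] at h7
    have h9 := mul_le_mul_of_nonneg_right hc2 hph.le
    linarith
  · have h5 : 0 ≤ kk ρ l s - kk ρ θ s := by
      refine le_trans ?_ hcmp
      refine mul_nonneg (Real.exp_pos _).le (div_nonneg (mul_nonneg (Real.exp_pos _).le ?_)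
        (by positivity))
      linarith
    have h6 := mul_le_mul_of_nonneg_left (h4 s h) hη0.le
    have h9 := mul_le_mul_of_nonneg_right hc3 hph.le
    linarith

private lemma cut_Lam_sub {ρ l : ℝ} (hρ : 0 < ρ) (hint : ¬ ∃ n : ℕ, ρ = n)
    (hl : l ∈ Icc (0 : ℝ) Real.pi) (s : ℝ) {L : ℝ} (hL : 0 ≤ L) :
    ∫ x in Icc (-L) 0, kk ρ l (s + x) = Lam ρ l s - Lam ρ l (s - L) := by
  have hk := integrable_kk hρ hint hl
  rw [integral_Icc_eq_integral_Ioc, ← intervalIntegral.integral_of_le (by linarith),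
    intervalIntegral.integral_comp_add_left (fun u => kk ρ l u) s]
  have h1 := intervalIntegral.integral_Iic_sub_Iic (a := s + -L) (b := s + 0) (f := kk ρ l)
    (μ := volume) hk.integrableOn hk.integrableOn
  rw [← h1, add_zero]
  rfl

theorem p0_bot {ρ l θ : ℝ} (hρ : 0 < ρ) (hint : ¬ ∃ n : ℕ, ρ = n) (hp : ⌊ρ⌋₊ = 0)
    {h : ℝ → EReal} (hh : InfCond ρ h) (hl : LE ρ l) (hneg : h l < 0) (h1 : l < θ)
    (h2 : θ ≤ Real.pi) : h θ = ⊥ := by
  obtain ⟨η, hη, c, hc, hker⟩ := p0_kernel hρ hint hp hl h1 h2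
  obtain ⟨c', hc', hLam⟩ := Lam_LE hρ hint hl
  have hlI : l ∈ Icc (0 : ℝ) Real.pi := ⟨hl.1, hl.2.1⟩
  have hk := integrable_kk hρ hint hlI
  have hne : h l ≠ ⊤ := ne_top_of_lt hneg
  have key : ∀ L : ℝ, 0 < L → h θ ≤ ((1 + η + c * L : ℝ) : EReal) * h l := by
    intro L hL
    obtain ⟨μ, hμ⟩ : ∃ μ : Measure ℝ, μ = (1 + η).toNNReal • Measure.dirac 0 +
      c.toNNReal • volume.restrict (Icc (-L) 0) := ⟨_, rfl⟩
    have hfin : IsFiniteMeasure μ := by
      rw [hμ]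
      infer_instance
    have hint1 : ∀ s, Integrable (fun x => kk ρ l (s + x)) (volume.restrict (Icc (-L) 0)) :=
      fun s => (hk.comp_add_left s).restrict
    have hint0 : ∀ s, Integrable (fun x => kk ρ l (s + x)) (Measure.dirac (0 : ℝ)) :=
      fun s => integrable_dirac (by simp)
    have hval : ∀ s, ∫ x, kk ρ l (s + x) ∂μ =
        (1 + η) * kk ρ l s + c * (Lam ρ l s - Lam ρ l (s - L)) := by
      intro s
      rw [hμ, integral_add_measure ((hint0 s).smul_measure_nnreal)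
        ((hint1 s).smul_measure_nnreal), integral_smul_nnreal_measure,
        integral_smul_nnreal_measure, integral_dirac, cut_Lam_sub hρ hint hlI s hL.le, add_zero,
        NNReal.smul_def, NNReal.smul_def, Real.coe_toNNReal _ (by linarith),
        Real.coe_toNNReal _ hc.le, smul_eq_mul, smul_eq_mul]
    have hmass : (μ univ).toReal = 1 + η + c * L := by
      have h3 : μ univ = ENNReal.ofReal (1 + η) + ENNReal.ofReal (c * L) := by
        rw [hμ, Measure.add_apply, Measure.smul_apply, Measure.smul_apply, measure_univ,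
          Measure.restrict_apply MeasurableSet.univ, univ_inter, Real.volume_Icc,
          ENNReal.ofReal_mul hc.le]
        simp [ENNReal.smul_def, ENNReal.ofReal]
      rw [h3, ENNReal.toReal_add ENNReal.ofReal_ne_top ENNReal.ofReal_ne_top,
        ENNReal.toReal_ofReal (by linarith), ENNReal.toReal_ofReal (by positivity)]
    have h3 := hh.maj 1 (fun _ => l) (fun _ => μ) θ (fun _ => hfin) (fun _ => hlI)
      ⟨hl.1.trans h1.le, h2⟩ (fun _ => hne) (by
        have hs0 : ∀ᵐ s : ℝ, s ≠ 0 := by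
          rw [ae_iff]
          simp
        filter_upwards [hs0] with s hs
        rw [Fin.sum_univ_one, hval]
        have h4 := hker s hs
        have h5 := hLam (s - L)
        have h6 := ph_pos ρ (s - L)
        have h7 : 0 ≤ c * -(Lam ρ l (s - L)) := by
          refine mul_nonneg hc.le ?_
          have := mul_pos hc' h6
          linarith
        linarith)
    rw [Fin.sum_univ_one, hmass] at h3
    exact h3
  rcases eq_or_ne (h l) ⊥ with hb | hb
  · have h3 := key 1 one_pos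
    rw [hb, EReal.coe_mul_bot_of_pos (by positivity)] at h3
    exact le_bot_iff.1 h3
  · obtain ⟨a, ha⟩ : ∃ a : ℝ, h l = a := ⟨(h l).toReal, (EReal.coe_toReal hne hb).symm⟩
    rw [ha] at key hneg
    have ha0 : a < 0 := by exact_mod_cast hneg
    rw [EReal.eq_bot_iff_forall_lt]
    intro y
    obtain ⟨L, hL, hLy⟩ : ∃ L : ℝ, 0 < L ∧ (1 + η + c * L) * a < y := by
      refine ⟨(|y| + 1) / (c * -a), div_pos (by positivity) (by nlinarith), ?_⟩
      have h4 : c * ((|y| + 1) / (c * -a)) * a = -(|y| + 1) := by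
        have : a ≠ 0 := ha0.ne
        field_simp
      have h5 := neg_abs_le y
      nlinarith
    refine lt_of_le_of_lt (key L hL) ?_
    rw [← EReal.coe_mul]
    exact_mod_cast hLy

private lemma cut_top {f : ℝ → ℝ} (h : Tendsto f atTop atTop) :
    limsup (fun x : ℝ => ((f x : ℝ) : EReal)) atTop = ⊤ :=
  (EReal.tendsto_coe_nhds_top_iff.2 h).limsup_eq

private lemma cut_bot {f : ℝ → ℝ} (h : Tendsto f atTop atBot) :
    limsup (fun x : ℝ => ((f x : ℝ) : EReal)) atTop = ⊥ :=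
  (EReal.tendsto_coe_nhds_bot_iff.2 h).limsup_eq

private lemma cut_add_top {f g : ℝ → ℝ} (h : Tendsto (fun x => f x - g x) atTop (𝓝 0))
    (hg : Tendsto g atTop atTop) : Tendsto f atTop atTop := by
  have h1 := h.add_atTop hg
  refine h1.congr fun x => ?_
  ring

private lemma cut_add_bot {f g : ℝ → ℝ} (h : Tendsto (fun x => f x - g x) atTop (𝓝 0))
    (hg : Tendsto g atTop atBot) : Tendsto f atTop atBot := by
  have h1 := h.add_atBot hg
  refine h1.congr fun x => ?_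
  ring

private lemma cut_lin_top {A : ℝ} (hA : 0 < A) (B : ℝ) :
    Tendsto (fun x => A * x + B) atTop atTop :=
  tendsto_atTop_add_const_right _ _ (tendsto_id.const_mul_atTop hA)

private lemma cut_lin_bot {A : ℝ} (hA : A < 0) (B : ℝ) :
    Tendsto (fun x => A * x + B) atTop atBot :=
  tendsto_atBot_add_const_right _ _ (tendsto_id.const_mul_atTop_of_neg hA)

theorem class_b0 {ρ : ℝ} (hρ : 0 < ρ) (hint : ¬ ∃ n : ℕ, ρ = n) (hp : ⌊ρ⌋₊ = 0)
    {h : ℝ → EReal} (hh : InfCond ρ h) {l : ℝ} (hl : LE ρ l) (hneg : h l < 0) :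
    ∃ N, DensOK N ∧ ∀ θ ∈ Icc (0 : ℝ) Real.pi,
      limsup (fun x : ℝ => ((U ρ θ N x : ℝ) : EReal)) atTop = h θ := by
  have hpi := Real.pi_pos
  have hρ1 : ρ < 1 := by
    have := Nat.lt_floor_add_one ρ
    rw [hp] at this
    simpa using this
  obtain ⟨cg, hcg, hcc⟩ := cc_eq_sg hρ hint
  have hlI : l ∈ Icc (0 : ℝ) Real.pi := ⟨hl.1, hl.2.1⟩
  -- the position of `l`
  have hsgn : ∀ θ, sg ρ θ = Real.cos (ρ * θ) := by
    intro θ
    unfold sg
    rw [hp, pow_zero, one_mul]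
  have hlt : ∀ θ ∈ Icc (0 : ℝ) Real.pi, θ < l → 0 < sg ρ θ := by
    intro θ hθ hθl
    rw [hsgn, ← hl.2.2.1]
    refine Real.cos_lt_cos_of_nonneg_of_le_pi (mul_nonneg hρ.le hθ.1) ?_
      (mul_lt_mul_of_pos_left hθl hρ)
    nlinarith [hl.2.1]
  have hgt : ∀ θ ∈ Icc (0 : ℝ) Real.pi, l < θ → sg ρ θ < 0 := by
    intro θ hθ hθl
    rw [hsgn, ← hl.2.2.1]
    refine Real.cos_lt_cos_of_nonneg_of_le_pi (mul_nonneg hρ.le hl.1) ?_
      (mul_lt_mul_of_pos_left hθl hρ)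
    nlinarith [hθ.2]
  have hccl : cc ρ 0 l = 0 := by
    rw [hcc, hsgn, hl.2.2.1, mul_zero]
  have hDD := DD_LE hρ hint hl
  have hDDe := integral_mul_kk hρ hint hlI hl.2.2.1
  rcases eq_or_ne (h l) ⊥ with hb | hb
  · -- quadratic density
    refine ⟨_, densOK_sq, fun θ hθ => ?_⟩
    have hU := U_sq_cut hρ hint hθ
    obtain ⟨I1, hI1⟩ : ∃ I1, I1 = ∫ s : ℝ, s * kk ρ θ s := ⟨_, rfl⟩
    obtain ⟨I2, hI2⟩ : ∃ I2, I2 = ∫ s : ℝ, s ^ 2 * kk ρ θ s := ⟨_, rfl⟩
    rw [← hI1, ← hI2] at hU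
    rcases lt_trichotomy θ l with h1 | h1 | h1
    · rw [hh.off θ hθ (hlt θ hθ h1)]
      have hc : 0 < cc ρ 0 θ := by rw [hcc]; exact mul_pos hcg (hlt θ hθ h1)
      refine cut_top (cut_add_top hU ?_)
      have h2 : Tendsto (fun x : ℝ => x * (cc ρ 0 θ * x + -(2 * I1)) + I2) atTop atTop :=
        tendsto_atTop_add_const_right _ _ (tendsto_id.atTop_mul_atTop₀ (cut_lin_top hc _))
      refine h2.congr fun x => ?_
      ring
    · subst h1
      rw [hb]
      refine cut_bot (cut_add_bot hU ?_)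
      have h2 := cut_lin_bot (show -(2 * I1) < 0 by rw [hI1, hDDe]; linarith) I2
      refine h2.congr fun x => ?_
      rw [hccl]
      ring
    · rw [p0_bot hρ hint hp hh hl hneg h1 hθ.2]
      have hc : cc ρ 0 θ < 0 := by
        rw [hcc]
        exact mul_neg_of_pos_of_neg hcg (hgt θ hθ h1)
      refine cut_bot (cut_add_bot hU ?_)
      have h2 : Tendsto (fun x : ℝ => x * (cc ρ 0 θ * x + -(2 * I1)) + I2) atTop atBot :=
        tendsto_atBot_add_const_right _ _ (tendsto_id.atTop_mul_atBot₀ (cut_lin_bot hc _))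
      refine h2.congr fun x => ?_
      ring
  · -- linear density
    obtain ⟨a, ha⟩ : ∃ a : ℝ, h l = a :=
      ⟨(h l).toReal, (EReal.coe_toReal (ne_top_of_lt hneg) hb).symm⟩
    have ha0 : a < 0 := by
      rw [ha] at hneg
      exact_mod_cast hneg
    obtain ⟨b, hbd⟩ : ∃ b, b = -a / DD ρ l := ⟨_, rfl⟩
    have hb0 : 0 < b := by
      rw [hbd]
      exact div_pos (by linarith) hDD
    refine ⟨_, densOK_lin hb0, fun θ hθ => ?_⟩
    have hU := U_lin_cut hρ hint hθ b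
    rcases lt_trichotomy θ l with h1 | h1 | h1
    · rw [hh.off θ hθ (hlt θ hθ h1)]
      have hc : 0 < cc ρ 0 θ := by rw [hcc]; exact mul_pos hcg (hlt θ hθ h1)
      refine cut_top (cut_add_top hU ?_)
      refine (cut_lin_top (mul_pos hc hb0) (-(b * ∫ s : ℝ, s * kk ρ θ s))).congr fun x => ?_
      ring
    · subst h1
      rw [ha]
      have h2 : ∀ x : ℝ, cc ρ 0 θ * (b * x) - b * ∫ s : ℝ, s * kk ρ θ s = a := by
        intro x
        rw [hccl, hDDe, hbd]
        field_simp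
        ring
      simp only [h2] at hU
      have h3 := hU.add_const a
      simp only [sub_add_cancel, zero_add] at h3
      exact ((continuous_coe_real_ereal.tendsto a).comp h3).limsup_eq
    · rw [p0_bot hρ hint hp hh hl hneg h1 hθ.2]
      have hc : cc ρ 0 θ < 0 := by
        rw [hcc]
        exact mul_neg_of_pos_of_neg hcg (hgt θ hθ h1)
      refine cut_bot (cut_add_bot hU ?_)
      refine (cut_lin_bot (mul_neg_of_neg_of_pos hc hb0)
        (-(b * ∫ s : ℝ, s * kk ρ θ s))).congr fun x => ?_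
      ring

end Helper25.Ind
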