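import Pool.Agent.Helper25.Ind2.ConcA
import Pool.Agent.Helper25.Ind2.Cut

/-!
# IND2 B4: concatenation of signed patches on a linear background

PROOFS.
* `conc_lin`: like `conc_seq` (`CSeq.lean`). Choose `r i ≥ 0`, `M i ≥ 1` with `m i = 0` outside `[-r i, r i]`, `|m i| ≤ M i`; `d i = (1/κ) log (M i (i+1)) + i + 1`, `R i = r i + d i`; `X i` increasing so fast that `X i - R i ≥ (i+1) M i / b + (i+1) M i + i + 1` and `X (i+1) - R (i+1) ≥ X i + R i + 1`.
  `N y = (if y ≤ 0 then 0 else b y) + ∑_i m i (y - X i)` (disjoint supports in `(0,∞)`). `N ≥ 0` because on the `i`-th support `b y ≥ b (X i - r i) ≥ M i`. Growth: `|m i (y - X i)| ≤ M i ≤ y` on the support. `low`: at `y = X i + r i + 1` large `N = b y`.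
  Given `x` large let `i` be the index with `|x - X i| < R i` if there is one, otherwise the largest `i` with `X i ≤ x`; `x' = x - X i`. Then `|m i| ≤ M i ≤ x/(i+1)`. `|N y - (b y + m i (y - X i))| ≤ b|y| 1_{y ≤ 0} + ∑_{j ≠ i} |m j (y - X j)|`, and `|x - X j| ≥ R j` for `j ≠ i`: as in `CSeq`.
* `conc_l`: `loc_sup`, `U_affine` and additivity of the integral (`integrable_kk_mul`); `∫ kk ρ θ (x-y) m i (y - x + x') dy = U ρ θ (m i) x'`.
-/

open Filter Topology MeasureTheory Set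

namespace Helper25.Ind

private structure CLD (κ b : ℝ) (m : ℕ → ℝ → ℝ) (r M d X : ℕ → ℝ) (S : ℝ → ℝ) : Prop where
  r0 : ∀ i, 0 ≤ r i
  M1 : ∀ i, 1 ≤ M i
  d0 : ∀ i, 0 < d i
  hr : ∀ i y, r i < |y| → m i y = 0
  hM : ∀ i y, |m i y| ≤ M i
  hd : ∀ i : ℕ, M i * ((i : ℝ) + 1) ≤ Real.exp (κ * d i)
  L : ∀ i : ℕ, ((i : ℝ) + 1) * M i + ((i : ℝ) + 1) * M i / b + (i : ℝ) + 1 ≤ X i - (r i + d i)
  sep : ∀ i j, i < j → X i + (r i + d i) + 1 ≤ X j - (r j + d j)
  Sm : Measurable S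
  S1 : ∀ y j, m j (y - X j) ≠ 0 → S y = m j (y - X j)
  S0 : ∀ y, (∀ j, m j (y - X j) = 0) → S y = 0

private lemma cl_data (m : ℕ → ℝ → ℝ) (hm : ∀ i, Continuous (m i))
    (hs : ∀ i, HasCompactSupport (m i)) : ∃ r M : ℕ → ℝ, (∀ i, 0 ≤ r i) ∧ (∀ i, 1 ≤ M i) ∧
      (∀ i y, r i < |y| → m i y = 0) ∧ ∀ i y, |m i y| ≤ M i := by
  have h1 : ∀ i, ∃ r : ℝ, 0 ≤ r ∧ ∀ y, r < |y| → m i y = 0 := by
    intro i
    obtain ⟨r, hr⟩ := (hs i).isCompact.isBounded.subset_closedBall (0 : ℝ)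
    refine ⟨max r 0, le_max_right _ _, fun y hy => ?_⟩
    by_contra hne
    have h2 : y ∈ tsupport (m i) := subset_tsupport _ hne
    have h3 := hr h2
    rw [mem_closedBall_zero_iff, Real.norm_eq_abs] at h3
    exact absurd (h3.trans (le_max_left r 0)) (not_le.2 hy)
  have h2 : ∀ i, ∃ M : ℝ, 1 ≤ M ∧ ∀ y, |m i y| ≤ M := by
    intro i
    obtain ⟨C, hC⟩ := (hs i).exists_bound_of_continuous (hm i)
    exact ⟨max C 1, le_max_right _ _, fun y => (hC y).trans (le_max_left _ _)⟩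
  choose r hr0 hr using h1
  choose M hM1 hM using h2
  exact ⟨r, M, hr0, hM1, hr, hM⟩

private lemma cl_exists {κ b : ℝ} (hκ : 0 < κ) (hb : 0 < b) (m : ℕ → ℝ → ℝ)
    (hm : ∀ i, Continuous (m i)) (hs : ∀ i, HasCompactSupport (m i)) :
    ∃ (r M d X : ℕ → ℝ) (S : ℝ → ℝ), CLD κ b m r M d X S := by
  obtain ⟨r, M, r0, M1, hr, hM⟩ := cl_data m hm hs
  obtain ⟨d, hdd⟩ : ∃ d : ℕ → ℝ, ∀ i : ℕ, d i = 1 / κ * Real.log (M i * ((i : ℝ) + 1)) + 1 :=
    ⟨_, fun _ => rfl⟩
  have hMi : ∀ i : ℕ, 1 ≤ M i * ((i : ℝ) + 1) := by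
    intro i
    have h1 := M1 i
    have h2 : (0 : ℝ) ≤ i := Nat.cast_nonneg i
    nlinarith
  have d0 : ∀ i, 0 < d i := by
    intro i
    rw [hdd]
    have h1 := Real.log_nonneg (hMi i)
    have h2 : 0 ≤ 1 / κ * Real.log (M i * ((i : ℝ) + 1)) := mul_nonneg (by positivity) h1
    linarith
  have hd : ∀ i : ℕ, M i * ((i : ℝ) + 1) ≤ Real.exp (κ * d i) := by
    intro i
    have h1 := hMi i
    have h2 : κ * d i = Real.log (M i * ((i : ℝ) + 1)) + κ := by
      rw [hdd]
      field_simp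
    rw [h2, Real.exp_add, Real.exp_log (by linarith)]
    have h3 : 1 ≤ Real.exp κ := Real.one_le_exp hκ.le
    nlinarith
  obtain ⟨R, hR⟩ : ∃ R : ℕ → ℝ, ∀ i, R i = r i + d i := ⟨_, fun _ => rfl⟩
  obtain ⟨L, hL⟩ : ∃ L : ℕ → ℝ, ∀ i : ℕ, L i =
      ((i : ℝ) + 1) * M i + ((i : ℝ) + 1) * M i / b + (i : ℝ) + 1 := ⟨_, fun _ => rfl⟩
  have R0 : ∀ i, 0 ≤ R i := fun i => by rw [hR]; linarith [r0 i, d0 i]
  have L0 : ∀ i, 0 ≤ L i := fun i => by
    rw [hL]
    have h1 := M1 i
    have h2 : (0 : ℝ) ≤ i := Nat.cast_nonneg i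
    positivity
  obtain ⟨T, hT⟩ : ∃ T : ℕ → ℝ, ∀ i, T i = ∑ j ∈ Finset.range i, (L j + 2 * R j + 1) :=
    ⟨_, fun _ => rfl⟩
  have T0 : ∀ i, 0 ≤ T i := fun i => by
    rw [hT]
    exact Finset.sum_nonneg fun j _ => by linarith [L0 j, R0 j]
  have Ts : ∀ i, T (i + 1) = T i + (L i + 2 * R i + 1) := fun i => by
    rw [hT, hT, Finset.sum_range_succ]
  obtain ⟨X, hX⟩ : ∃ X : ℕ → ℝ, ∀ i, X i = T (i + 1) - R i := ⟨_, fun _ => rfl⟩
  have hXL : ∀ i, L i ≤ X i - R i := fun i => by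
    rw [hX, Ts]
    linarith [T0 i]
  have hXs : ∀ i, X i + R i + 1 ≤ X (i + 1) - R (i + 1) := fun i => by
    rw [hX, hX, Ts (i + 1)]
    linarith [L0 (i + 1)]
  have sep : ∀ i j, i < j → X i + (r i + d i) + 1 ≤ X j - (r j + d j) := by
    intro i j hij
    rw [← hR, ← hR]
    induction j, hij using Nat.le_induction with
    | base => exact hXs i
    | succ j hj ih =>
      have h1 := hXs j
      have h2 := R0 j
      linarith
  have hL' : ∀ i : ℕ, ((i : ℝ) + 1) * M i + ((i : ℝ) + 1) * M i / b + (i : ℝ) + 1 ≤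
      X i - (r i + d i) := fun i => by
    rw [← hR, ← hL]
    exact hXL i
  have hsup : ∀ y j, m j (y - X j) ≠ 0 → |y - X j| ≤ r j := by
    intro y j h
    by_contra hc
    exact h (hr j _ (not_le.1 hc))
  have hjy : ∀ y j, m j (y - X j) ≠ 0 → (j : ℝ) < y := by
    intro y j h
    have h1 := hsup y j h
    have h2 := hXL j
    rw [hL, hR] at h2
    have h3 := (abs_le.1 h1).1
    have h4 := d0 j
    have h5 : (0 : ℝ) ≤ ((j : ℝ) + 1) * M j := by
      have := M1 j
      positivity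
    have h6 : (0 : ℝ) ≤ ((j : ℝ) + 1) * M j / b := by positivity
    linarith
  have huniq : ∀ y j l, m j (y - X j) ≠ 0 → l ≠ j → m l (y - X l) = 0 := by
    intro y j l h hlj
    by_contra hc
    have h1 := abs_le.1 (hsup y j h)
    have h2 := abs_le.1 (hsup y l hc)
    rcases lt_or_gt_of_ne hlj with h3 | h3
    · have h4 := sep l j h3
      linarith [d0 l, d0 j]
    · have h4 := sep j l h3
      linarith [d0 l, d0 j]
  refine ⟨r, M, d, X, fun y => ∑ j ∈ Finset.range ⌈y⌉₊, m j (y - X j), r0, M1, d0, hr, hM, hd,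
    hL', sep, ?_, ?_, ?_⟩
  · refine measurable_of_tendsto_metrizable
      (f := fun (n : ℕ) (y : ℝ) => ∑ j ∈ Finset.range n, m j (y - X j)) (fun n => ?_) ?_
    · refine Finset.measurable_sum _ fun j _ => ?_
      exact (hm j).measurable.comp (measurable_id.sub measurable_const)
    · rw [tendsto_pi_nhds]
      intro y
      refine tendsto_const_nhds.congr' ?_
      filter_upwards [eventually_ge_atTop ⌈y⌉₊] with n hn
      refine Finset.sum_subset (Finset.range_mono hn) fun j _ hj => ?_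
      by_contra hne
      exact hj (Finset.mem_range.2 (Nat.lt_ceil.2 (hjy y j hne)))
  · intro y j h
    exact Finset.sum_eq_single j (fun l _ hl => huniq y j l h hl)
      (fun hj => absurd (Finset.mem_range.2 (Nat.lt_ceil.2 (hjy y j h))) hj)
  · intro y h
    exact Finset.sum_eq_zero fun j _ => h j

section

variable {κ b : ℝ} {m : ℕ → ℝ → ℝ} {r M d X : ℕ → ℝ} {S : ℝ → ℝ}

private lemma CLD.supp (D : CLD κ b m r M d X S) {y : ℝ} {j : ℕ} (h : m j (y - X j) ≠ 0) :
    |y - X j| ≤ r j := by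
  by_contra hc
  exact h (D.hr j _ (not_le.1 hc))

private lemma CLD.uniq (D : CLD κ b m r M d X S) {y : ℝ} {j l : ℕ} (h : m j (y - X j) ≠ 0)
    (hlj : l ≠ j) : m l (y - X l) = 0 := by
  by_contra hc
  have h1 := abs_le.1 (D.supp h)
  have h2 := abs_le.1 (D.supp hc)
  rcases lt_or_gt_of_ne hlj with h3 | h3
  · have h4 := D.sep l j h3
    linarith [D.d0 l, D.d0 j]
  · have h4 := D.sep j l h3
    linarith [D.d0 l, D.d0 j]

private lemma CLD.big (D : CLD κ b m r M d X S) (hb : 0 < b) {y : ℝ} {j : ℕ}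
    (h : m j (y - X j) ≠ 0) : (j : ℝ) < y ∧ M j ≤ y ∧ M j ≤ b * y := by
  have h1 := abs_le.1 (D.supp h)
  have h2 := D.L j
  have h4 := D.d0 j
  have h5 := D.M1 j
  have h7 : (0 : ℝ) ≤ j := Nat.cast_nonneg j
  have h5' : (0 : ℝ) ≤ (j : ℝ) * M j := by positivity
  have h6 : (0 : ℝ) ≤ ((j : ℝ) + 1) * M j / b := by positivity
  refine ⟨by linarith, by linarith, ?_⟩
  have h8 : ((j : ℝ) + 1) * M j / b ≤ y := by linarith
  rw [div_le_iff₀ hb] at h8
  linarith

private lemma CLD.main (D : CLD κ b m r M d X S) (hκ : 0 < κ) (hb : 0 < b) {ε : ℝ}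
    (hε : 0 < ε) : ∃ x₀ : ℝ, 0 ≤ x₀ ∧ ∀ x, x₀ ≤ x → ∀ i, X i - (r i + d i) ≤ x →
      x < X (i + 1) - (r (i + 1) + d (i + 1)) →
      ∀ y, |((if y ≤ 0 then 0 else b * y) + S y) - (b * y + m i (y - X i))| ≤
        ε * Real.exp (κ * |x - y|) := by
  have e2 : ∀ᶠ x : ℝ in atTop, ∀ j ∈ Finset.range ⌈1 / ε⌉₊,
      M j ≤ ε * Real.exp (κ * (x - X j - r j)) := by
    rw [Finset.eventually_all]
    intro j _
    have h1 : Tendsto (fun x : ℝ => κ * (x - X j - r j)) atTop atTop := by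
      refine Tendsto.const_mul_atTop hκ ?_
      have h2 : (fun x : ℝ => x - X j - r j) = fun x => x + (-X j - r j) := by
        funext x
        ring
      rw [h2]
      exact tendsto_atTop_add_const_right _ _ tendsto_id
    have h3 := (Real.tendsto_exp_atTop.comp h1).eventually_ge_atTop (M j / ε)
    filter_upwards [h3] with x hx
    rw [div_le_iff₀ hε] at hx
    rw [mul_comm]
    exact hx
  obtain ⟨x₁, hx₁⟩ := eventually_atTop.1 e2
  refine ⟨max (max x₁ (2 * b / (ε * κ ^ 2))) 0, le_max_right _ _, fun x hx i hi1 hi2 y => ?_⟩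
  have hxa : x₁ ≤ x := (le_max_left _ _).trans ((le_max_left _ _).trans hx)
  have hxb : 2 * b / (ε * κ ^ 2) ≤ x := (le_max_right _ _).trans ((le_max_left _ _).trans hx)
  have hx0 : 0 ≤ x := (le_max_right _ _).trans hx
  have hR : 0 ≤ ε * Real.exp (κ * |x - y|) := by positivity
  by_cases hy : y ≤ 0
  · rw [if_pos hy]
    have h1 : ∀ j, m j (y - X j) = 0 := by
      intro j
      by_contra hne
      have h2 := (D.big hb hne).1
      have h3 : (0 : ℝ) ≤ j := Nat.cast_nonneg j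
      linarith
    rw [D.S0 y h1, h1 i, add_zero, add_zero, zero_sub, abs_neg, abs_mul, abs_of_pos hb,
      abs_of_nonpos hy]
    have h4 : |x - y| = x - y := abs_of_nonneg (by linarith)
    rw [h4]
    obtain ⟨t, ht⟩ : ∃ t, t = x - y := ⟨_, rfl⟩
    rw [← ht]
    have ht1 : x ≤ t := by linarith
    have ht0 : 0 ≤ t := by linarith
    have h5 := Real.quadratic_le_exp_of_nonneg (mul_nonneg hκ.le ht0)
    have h6 : b * t ≤ ε * Real.exp (κ * t) := by
      have h7 : 2 * b ≤ t * (ε * κ ^ 2) := by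
        have := hxb.trans ht1
        rwa [div_le_iff₀ (by positivity)] at this
      have h8 : 2 * b * t ≤ t * (ε * κ ^ 2) * t := mul_le_mul_of_nonneg_right h7 ht0
      have h9 : ε * ((κ * t) ^ 2 / 2) ≤ ε * Real.exp (κ * t) := by
        refine mul_le_mul_of_nonneg_left ?_ hε.le
        have := mul_nonneg hκ.le ht0
        linarith
      have h10 : ε * ((κ * t) ^ 2 / 2) = t * (ε * κ ^ 2) * t / 2 := by ring
      linarith
    refine le_trans ?_ h6
    exact mul_le_mul_of_nonneg_left (by linarith) hb.le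
  · rw [if_neg hy, add_sub_add_left_eq_sub]
    by_cases hall : ∀ j, m j (y - X j) = 0
    · rw [D.S0 y hall, hall i, sub_zero, abs_zero]
      exact hR
    · push Not at hall
      obtain ⟨j, hj⟩ := hall
      rw [D.S1 y j hj]
      by_cases hji : j = i
      · rw [hji, sub_self, abs_zero]
        exact hR
      · rw [D.uniq hj (Ne.symm hji), sub_zero]
        refine (D.hM j _).trans ?_
        have hs1 := D.supp hj
        have hxX : r j + d j ≤ |x - X j| := by
          rcases lt_or_gt_of_ne hji with h3 | h3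
          · have h4 := D.sep j i h3
            exact le_trans (by linarith) (le_abs_self _)
          · rcases eq_or_lt_of_le (Nat.succ_le_of_lt h3) with h5 | h5
            · rw [Nat.succ_eq_add_one] at h5
              rw [h5] at hi2
              rw [abs_sub_comm]
              exact le_trans (by linarith) (le_abs_self _)
            · have h4 := D.sep (i + 1) j h5
              rw [abs_sub_comm]
              have h6 := D.r0 (i + 1)
              have h7 := D.d0 (i + 1)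
              exact le_trans (by linarith) (le_abs_self _)
        have hdxy : d j ≤ |x - y| := by
          have h4 := abs_sub_le x y (X j)
          linarith
        by_cases hJ : j < ⌈1 / ε⌉₊
        · refine (hx₁ x hxa j (Finset.mem_range.2 hJ)).trans ?_
          refine mul_le_mul_of_nonneg_left (Real.exp_le_exp.2 ?_) hε.le
          refine mul_le_mul_of_nonneg_left ?_ hκ.le
          have h4 := (abs_le.1 hs1).2
          exact le_trans (by linarith) (le_abs_self _)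
        · have h4 : 1 / ε ≤ (j : ℝ) := by
            rw [not_lt, Nat.ceil_le] at hJ
            exact hJ
          rw [div_le_iff₀ hε] at h4
          have h5 := D.hd j
          have h6 : Real.exp (κ * d j) ≤ Real.exp (κ * |x - y|) :=
            Real.exp_le_exp.2 (mul_le_mul_of_nonneg_left hdxy hκ.le)
          have h7 := D.M1 j
          have h8 : M j ≤ ε * (M j * ((j : ℝ) + 1)) := by nlinarith
          exact h8.trans (mul_le_mul_of_nonneg_left (h5.trans h6) hε.le)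

private lemma CLD.Xge (D : CLD κ b m r M d X S) (hb : 0 < b) (i : ℕ) :
    (i : ℝ) + 1 ≤ X i - (r i + d i) := by
  have h2 := D.L i
  have h5 := D.M1 i
  have h7 : (0 : ℝ) ≤ i := Nat.cast_nonneg i
  have h5' : (0 : ℝ) ≤ ((i : ℝ) + 1) * M i := by positivity
  have h6 : (0 : ℝ) ≤ ((i : ℝ) + 1) * M i / b := by positivity
  linarith

private lemma CLD.index (D : CLD κ b m r M d X S) (hb : 0 < b) {x : ℝ} (I : ℕ)
    (hx : X I - (r I + d I) ≤ x) : ∃ i, I ≤ i ∧ X i - (r i + d i) ≤ x ∧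
      x < X (i + 1) - (r (i + 1) + d (i + 1)) := by
  classical
  have hex : ∃ i, I ≤ i ∧ x < X (i + 1) - (r (i + 1) + d (i + 1)) := by
    refine ⟨max I ⌈x⌉₊, le_max_left _ _, ?_⟩
    have h1 := D.Xge hb (max I ⌈x⌉₊ + 1)
    have h2 : x ≤ ((max I ⌈x⌉₊ : ℕ) : ℝ) := (Nat.le_ceil x).trans (by
      exact_mod_cast le_max_right I ⌈x⌉₊)
    push_cast at h1 h2
    linarith
  obtain ⟨h1, h2⟩ := Nat.find_spec hex
  refine ⟨Nat.find hex, h1, ?_, h2⟩
  rcases eq_or_lt_of_le h1 with h3 | h3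
  · rw [← h3]
    exact hx
  · obtain ⟨j, hj⟩ : ∃ j, Nat.find hex = j + 1 := ⟨Nat.find hex - 1, by omega⟩
    have h4 := Nat.find_min hex (m := j) (by omega)
    rw [hj]
    by_contra hc
    exact h4 ⟨by omega, not_le.1 hc⟩

end

theorem conc_lin {κ b : ℝ} (hκ : 0 < κ) (hb : 0 < b) (m : ℕ → ℝ → ℝ)
    (hm : ∀ i, Continuous (m i)) (hs : ∀ i, HasCompactSupport (m i)) :
    ∃ (N : ℝ → ℝ) (X : ℕ → ℝ), Measurable N ∧ (∀ y, 0 ≤ N y) ∧ (∀ y, y ≤ 0 → N y = 0) ∧
      (∀ ε : ℝ, 0 < ε → ∃ C : ℝ, ∀ y, 0 ≤ y → N y ≤ C * Real.exp (ε * y)) ∧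
      (∀ Y : ℝ, ∃ y, Y ≤ y ∧ 1 ≤ ∫ t in Icc y (y + 1), N t) ∧ Tendsto X atTop atTop ∧
      (∀ ε : ℝ, 0 < ε → ∃ x₀ : ℝ, ∀ x, x₀ ≤ x → ∃ i : ℕ, 1 / ε ≤ i ∧ (∀ y, |m i y| ≤ ε * x) ∧
        ∃ x' : ℝ, ∀ y, |N y - (b * y + m i (y - x + x'))| ≤ ε * Real.exp (κ * |x - y|)) ∧
      (∀ ε : ℝ, 0 < ε → ∃ i₀ : ℕ, ∀ i, i₀ ≤ i → ∀ y,
        |N y - (b * y + m i (y - X i))| ≤ ε * Real.exp (κ * |X i - y|)) := by
  obtain ⟨r, M, d, X, S, D⟩ := cl_exists hκ hb m hm hs
  have hXge := D.Xge hb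
  have hXi : ∀ i : ℕ, (i : ℝ) ≤ X i := fun i => by
    have := hXge i
    linarith [D.r0 i, D.d0 i]
  have hXt : Tendsto X atTop atTop := tendsto_atTop_mono hXi tendsto_natCast_atTop_atTop
  refine ⟨fun y => (if y ≤ 0 then 0 else b * y) + S y, X, ?_, ?_, ?_, ?_, ?_, hXt, ?_, ?_⟩
  · refine Measurable.add (Measurable.ite measurableSet_Iic measurable_const ?_) D.Sm
    exact measurable_const.mul measurable_id
  · intro y
    simp only
    by_cases hall : ∀ j, m j (y - X j) = 0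
    · rw [D.S0 y hall, add_zero]
      split_ifs with h
      · exact le_rfl
      · exact mul_nonneg hb.le (not_le.1 h).le
    · push Not at hall
      obtain ⟨j, hj⟩ := hall
      obtain ⟨h1, h2, h3⟩ := D.big hb hj
      have h4 : (0 : ℝ) ≤ j := Nat.cast_nonneg j
      rw [D.S1 y j hj, if_neg (by linarith)]
      have h5 := D.hM j (y - X j)
      have h6 := neg_abs_le (m j (y - X j))
      linarith
  · intro y hy
    simp only
    rw [if_pos hy, D.S0 y, add_zero]
    intro j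
    by_contra hj
    have h1 := (D.big hb hj).1
    have h4 : (0 : ℝ) ≤ j := Nat.cast_nonneg j
    linarith
  · intro ε hε
    refine ⟨(b + 1) / ε, fun y hy => ?_⟩
    have h1 : (if y ≤ 0 then 0 else b * y) + S y ≤ (b + 1) * y := by
      have h2 : (if y ≤ 0 then 0 else b * y) ≤ b * y := by
        split_ifs
        · exact mul_nonneg hb.le hy
        · exact le_rfl
      have h3 : S y ≤ y := by
        by_cases hall : ∀ j, m j (y - X j) = 0
        · rw [D.S0 y hall]
          exact hy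
        · push Not at hall
          obtain ⟨j, hj⟩ := hall
          rw [D.S1 y j hj]
          exact (le_abs_self _).trans ((D.hM j _).trans (D.big hb hj).2.1)
      linarith
    refine h1.trans ?_
    have h4 : ε * y ≤ Real.exp (ε * y) := by
      have := Real.add_one_le_exp (ε * y)
      linarith
    rw [div_mul_eq_mul_div, le_div_iff₀ hε, mul_assoc, mul_comm y ε]
    exact mul_le_mul_of_nonneg_left h4 (by linarith)
  · intro Y
    obtain ⟨i, hi⟩ := exists_nat_ge (max Y (1 / b))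
    have hiY : Y ≤ i := (le_max_left _ _).trans hi
    have hib : 1 / b ≤ i := (le_max_right _ _).trans hi
    have hR0 : 0 ≤ r i + d i := by linarith [D.r0 i, D.d0 i]
    refine ⟨X i + (r i + d i), by linarith [hXi i], ?_⟩
    have hN : ∀ t ∈ Icc (X i + (r i + d i)) (X i + (r i + d i) + 1),
        (if t ≤ 0 then 0 else b * t) + S t = b * t := by
      intro t ht
      have ht0 : (i : ℝ) + 1 ≤ t := by linarith [hXge i, ht.1]
      have h4 : (0 : ℝ) ≤ i := Nat.cast_nonneg i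
      rw [if_neg (by linarith), D.S0 t, add_zero]
      intro j
      by_contra hj
      have h5 := abs_le.1 (D.supp hj)
      rcases lt_trichotomy j i with h6 | h6 | h6
      · have h7 := D.sep j i h6
        linarith [ht.1, D.d0 j]
      · subst h6
        linarith [ht.1, D.d0 j]
      · have h7 := D.sep i j h6
        linarith [ht.2, D.d0 j]
    have h8 : ∫ t in Icc (X i + (r i + d i)) (X i + (r i + d i) + 1),
        ((if t ≤ 0 then 0 else b * t) + S t) =
        ∫ t in Icc (X i + (r i + d i)) (X i + (r i + d i) + 1), b * t :=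
      setIntegral_congr_fun measurableSet_Icc hN
    rw [h8]
    have h9 : ∫ _ in Icc (X i + (r i + d i)) (X i + (r i + d i) + 1), (1 : ℝ) ≤
        ∫ t in Icc (X i + (r i + d i)) (X i + (r i + d i) + 1), b * t := by
      have hc : Continuous fun t : ℝ => b * t := by fun_prop
      refine setIntegral_mono_on ?_ (hc.continuousOn.integrableOn_Icc) measurableSet_Icc ?_
      · exact continuousOn_const.integrableOn_Icc
      · intro t ht
        rw [div_le_iff₀ hb] at hib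
        have h10 : (i : ℝ) ≤ t := by linarith [hXi i, ht.1]
        have h11 : (i : ℝ) * b ≤ t * b := mul_le_mul_of_nonneg_right h10 hb.le
        linarith
    refine le_trans (le_of_eq ?_) h9
    rw [setIntegral_const, Measure.real, Real.volume_Icc, add_sub_cancel_left,
      ENNReal.toReal_ofReal zero_le_one, smul_eq_mul, mul_one]
  · intro ε hε
    obtain ⟨x₀, hx₀0, hx₀⟩ := D.main hκ hb hε
    obtain ⟨I, hI⟩ : ∃ I : ℕ, I = ⌈1 / ε⌉₊ := ⟨_, rfl⟩
    refine ⟨max x₀ (X I - (r I + d I)), fun x hx => ?_⟩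
    obtain ⟨i, hIi, hi1, hi2⟩ := D.index hb I ((le_max_right _ _).trans hx)
    have hiε : 1 / ε ≤ (i : ℝ) := by
      have h1 : 1 / ε ≤ (I : ℝ) := by
        rw [hI]
        exact Nat.le_ceil _
      exact h1.trans (by exact_mod_cast hIi)
    refine ⟨i, hiε, fun y => ?_, x - X i, fun y => ?_⟩
    · refine (D.hM i y).trans ?_
      have h1 := D.L i
      have h5 := D.M1 i
      have h7 : (0 : ℝ) ≤ i := Nat.cast_nonneg i
      have h6 : (0 : ℝ) ≤ ((i : ℝ) + 1) * M i / b := by positivity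
      have h8 : ((i : ℝ) + 1) * M i ≤ x := by linarith
      rw [div_le_iff₀ hε] at hiε
      have h9 : M i ≤ ε * (((i : ℝ) + 1) * M i) := by nlinarith
      exact h9.trans (mul_le_mul_of_nonneg_left h8 hε.le)
    · have h1 := hx₀ x ((le_max_left _ _).trans hx) i hi1 hi2 y
      have h2 : y - x + (x - X i) = y - X i := by ring
      rw [h2]
      exact h1
  · intro ε hε
    obtain ⟨x₀, hx₀0, hx₀⟩ := D.main hκ hb hε
    obtain ⟨i₀, hi₀⟩ := eventually_atTop.1 (hXt.eventually_ge_atTop x₀)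
    refine ⟨i₀, fun i hi y => ?_⟩
    refine hx₀ (X i) (hi₀ i hi) i ?_ ?_ y
    · linarith [D.r0 i, D.d0 i]
    · have := D.sep i (i + 1) (Nat.lt_succ_self i)
      linarith [D.r0 i, D.d0 i]

private lemma cl_U {ρ κ θ b Mg x x' : ℝ} (hρ : 0 < ρ) (hint : ¬ ∃ n : ℕ, ρ = n)
    (h1 : κ < km ρ) (h2 : κ < kp ρ) (hκ : 0 < κ) (hb : 0 < b)
    (hθ : θ ∈ Icc (0 : ℝ) Real.pi) {g : ℝ → ℝ} (hg : Continuous g) (hM : ∀ y, |g y| ≤ Mg) :
    (∀ y, |b * y + g (y - x + x')| ≤ (b * |x| + b / κ + Mg) * Real.exp (κ * |x - y|)) ∧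
    U ρ θ (fun y => b * y + g (y - x + x')) x =
      cc ρ 0 θ * (b * x) - (b * ∫ s : ℝ, s * kk ρ θ s) + U ρ θ g x' := by
  have hMg : 0 ≤ Mg := (abs_nonneg _).trans (hM 0)
  have hE : ∀ y : ℝ, 1 ≤ Real.exp (κ * |x - y|) := fun y =>
    Real.one_le_exp (mul_nonneg hκ.le (abs_nonneg _))
  have b1 : ∀ y : ℝ, |b * y| ≤ (b * |x| + b / κ) * Real.exp (κ * |x - y|) := by
    intro y
    have h3 : |y| ≤ |x| + |x - y| := by
      have h4 := abs_sub_abs_le_abs_sub y x
      rw [abs_sub_comm y x] at h4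
      linarith
    have h4 : κ * |x - y| ≤ Real.exp (κ * |x - y|) := by
      have := Real.add_one_le_exp (κ * |x - y|)
      linarith
    have h5 : |x - y| ≤ Real.exp (κ * |x - y|) / κ := by
      rw [le_div_iff₀ hκ]
      linarith
    rw [abs_mul, abs_of_pos hb]
    have h6 := mul_le_mul_of_nonneg_left (h3.trans (add_le_add_right h5 |x|)) hb.le
    have h7 : b * |x| ≤ b * |x| * Real.exp (κ * |x - y|) :=
      le_mul_of_one_le_right (by positivity) (hE y)
    refine h6.trans ?_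
    have h8 : b * (|x| + Real.exp (κ * |x - y|) / κ) =
        b * |x| + b / κ * Real.exp (κ * |x - y|) := by ring
    rw [h8]
    linarith
  have b2 : ∀ y : ℝ, |g (y - x + x')| ≤ Mg * Real.exp (κ * |x - y|) := fun y =>
    (hM _).trans (le_mul_of_one_le_right hMg (hE y))
  refine ⟨fun y => (abs_add_le _ _).trans ?_, ?_⟩
  · have := add_le_add (b1 y) (b2 y)
    linarith
  · have hmb : Measurable fun y : ℝ => b * y := measurable_const.mul measurable_id
    have hmg : Measurable fun y : ℝ => g (y - x + x') :=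
      hg.measurable.comp ((measurable_id.sub measurable_const).add measurable_const)
    have i1 := integrable_kk_mul (x := x) h1 h2 hθ hmb b1
    have i2 := integrable_kk_mul (x := x) h1 h2 hθ hmg b2
    have e1 : U ρ θ (fun y => b * y + g (y - x + x')) x =
        ∫ y, (kk ρ θ (x - y) * (b * y) + kk ρ θ (x - y) * g (y - x + x')) := by
      unfold U
      refine integral_congr_ae (Eventually.of_forall fun y => ?_)
      simp only
      ring
    rw [e1, integral_add i1 i2]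
    have e2 : ∫ y, kk ρ θ (x - y) * (b * y) =
        cc ρ 0 θ * (b * x) - b * ∫ s : ℝ, s * kk ρ θ s := by
      have h3 := U_affine hρ hint hθ 0 b x
      unfold U at h3
      simp only [zero_add] at h3
      exact h3
    have e3 : ∫ y, kk ρ θ (x - y) * g (y - x + x') = U ρ θ g x' := by
      unfold U
      rw [← integral_add_right_eq_self (fun z : ℝ => kk ρ θ (x' - z) * g z) (x' - x)]
      refine integral_congr_ae (Eventually.of_forall fun y => ?_)
      simp only
      have h4 : x' - (y + (x' - x)) = x - y := by ring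
      have h5 : y + (x' - x) = y - x + x' := by ring
      rw [h4, h5]
    rw [e2, e3]

theorem conc_l {ρ b : ℝ} (hρ : 0 < ρ) (hint : ¬ ∃ n : ℕ, ρ = n) (hb : 0 < b) (m : ℕ → ℝ → ℝ)
    (hm : ∀ i, Continuous (m i)) (hs : ∀ i, HasCompactSupport (m i)) :
    ∃ (N : ℝ → ℝ) (X : ℕ → ℝ), DensOK N ∧ Tendsto X atTop atTop ∧
      (∀ ε : ℝ, 0 < ε → ∃ x₀ : ℝ, ∀ x, x₀ ≤ x → ∃ i : ℕ, 1 / ε ≤ i ∧ (∀ y, |m i y| ≤ ε * x) ∧
        ∃ x' : ℝ, ∀ θ ∈ Icc (0 : ℝ) Real.pi,
          |U ρ θ N x - (cc ρ 0 θ * (b * x) - (b * ∫ s : ℝ, s * kk ρ θ s) +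
            U ρ θ (m i) x')| ≤ ε) ∧
      (∀ ε : ℝ, 0 < ε → ∃ i₀ : ℕ, ∀ i, i₀ ≤ i → ∀ θ ∈ Icc (0 : ℝ) Real.pi,
        |U ρ θ N (X i) - (cc ρ 0 θ * (b * X i) - (b * ∫ s : ℝ, s * kk ρ θ s) +
          U ρ θ (m i) 0)| ≤ ε) := by
  have hkm := km_pos hρ hint
  have hkp := kp_pos hρ.le
  obtain ⟨κ, hκe⟩ : ∃ κ : ℝ, κ = min (km ρ) (kp ρ) / 2 := ⟨_, rfl⟩
  have hmin : 0 < min (km ρ) (kp ρ) := lt_min hkm hkp
  have hκ : 0 < κ := by rw [hκe]; exact half_pos hmin
  have h1 : κ < km ρ := by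
    have := min_le_left (km ρ) (kp ρ)
    rw [hκe]
    linarith
  have h2 : κ < kp ρ := by
    have := min_le_right (km ρ) (kp ρ)
    rw [hκe]
    linarith
  obtain ⟨C, hC, hloc⟩ := loc_sup h1 h2
  obtain ⟨N, X, n1, n2, n3, n4, n5, n6, n7, n8⟩ := conc_lin hκ hb m hm hs
  have hbd : ∀ i, ∃ Mg : ℝ, ∀ y, |m i y| ≤ Mg := fun i => by
    obtain ⟨C, hC⟩ := (hs i).exists_bound_of_continuous (hm i)
    exact ⟨C, hC⟩
  have key : ∀ (ε : ℝ), 0 < ε → ∀ (x x' : ℝ) (i : ℕ),
      (∀ y, |N y - (b * y + m i (y - x + x'))| ≤ min ε (ε / C) * Real.exp (κ * |x - y|)) →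
      ∀ θ ∈ Icc (0 : ℝ) Real.pi,
        |U ρ θ N x - (cc ρ 0 θ * (b * x) - (b * ∫ s : ℝ, s * kk ρ θ s) +
          U ρ θ (m i) x')| ≤ ε := by
    intro ε hε x x' i hN θ hθ
    obtain ⟨Mg, hMg⟩ := hbd i
    obtain ⟨hB, hU⟩ := cl_U (x := x) (x' := x') hρ hint h1 h2 hκ hb hθ (hm i) hMg
    rw [← hU]
    have hε1 : 0 < min ε (ε / C) := lt_min hε (div_pos hε hC)
    have hmM : Measurable fun y : ℝ => b * y + m i (y - x + x') :=
      (measurable_const.mul measurable_id).add ((hm i).measurable.comp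
        ((measurable_id.sub measurable_const).add measurable_const))
    have h3 := hloc θ hθ N (fun y => b * y + m i (y - x + x')) n1 hmM x
      (b * |x| + b / κ + Mg + min ε (ε / C)) (min ε (ε / C)) hε1.le (fun y => by
        have h4 := hN y
        have h5 := hB y
        have h6 := abs_sub_abs_le_abs_sub (N y) (b * y + m i (y - x + x'))
        have h7 := add_le_add h5 h4
        rw [← add_mul] at h7
        linarith) (fun y => by
        refine (hB y).trans ?_
        exact mul_le_mul_of_nonneg_right (by linarith) (Real.exp_pos _).le) hN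
    refine h3.trans ?_
    calc C * min ε (ε / C) ≤ C * (ε / C) := mul_le_mul_of_nonneg_left (min_le_right _ _) hC.le
      _ = ε := by field_simp
  refine ⟨N, X, densOK_of n1 n2 n3 n4 n5, n6, ?_, ?_⟩
  · intro ε hε
    have hε1 : 0 < min ε (ε / C) := lt_min hε (div_pos hε hC)
    obtain ⟨x₀, hx₀⟩ := n7 (min ε (ε / C)) hε1
    refine ⟨max x₀ 0, fun x hx => ?_⟩
    have hx0 : 0 ≤ x := (le_max_right _ _).trans hx
    obtain ⟨i, hi1, hi2, x', hx'⟩ := hx₀ x ((le_max_left _ _).trans hx)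
    refine ⟨i, ?_, fun y => ?_, x', key ε hε x x' i hx'⟩
    · exact (one_div_le_one_div_of_le hε1 (min_le_left _ _)).trans hi1
    · exact (hi2 y).trans (mul_le_mul_of_nonneg_right (min_le_left _ _) hx0)
  · intro ε hε
    have hε1 : 0 < min ε (ε / C) := lt_min hε (div_pos hε hC)
    obtain ⟨i₀, hi₀⟩ := n8 (min ε (ε / C)) hε1
    refine ⟨i₀, fun i hi => key ε hε (X i) 0 i fun y => ?_⟩
    rw [add_zero]
    exact hi₀ i hi y

end Helper25.Ind
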