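import Pool.Agent.Helper25.Ind.Defs

/-!
# Indicators of entire functions with negative zeros, infinite values: definitions

Log scale: `x = log r`, `y = log a`.
-/

open Complex Filter Topology MeasureTheory Set

namespace Helper25.Ind

/-- The kernel `k_θ(s) = e^{-ρ s} log |E(-e^{s + iθ}, p)|`, `p = ⌊ρ⌋`. -/
noncomputable def kk (ρ θ s : ℝ) : ℝ :=
  Real.exp (-(ρ * s)) * ker ⌊ρ⌋₊ (Real.exp s * Complex.exp (θ * Complex.I)) 1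

/-- The envelope `ph(s) = e^{-ρ s} Φ_p(e^s)`. -/
noncomputable def ph (ρ s : ℝ) : ℝ := Real.exp (-(ρ * s)) * Phi ⌊ρ⌋₊ (Real.exp s)

/-- `κ₊ = p + 1 - ρ` -/
noncomputable def kp (ρ : ℝ) : ℝ := (⌊ρ⌋₊ : ℝ) + 1 - ρ

/-- `κ₋ = ρ - p` -/
noncomputable def km (ρ : ℝ) : ℝ := ρ - ⌊ρ⌋₊

/-- `a_θ = (-1)^p cos ((p+1) θ)`; the kernel behaves like `a_θ e^{κ₊ s} / (p + 1)` at `-∞`. -/
noncomputable def aa (ρ θ : ℝ) : ℝ := (-1) ^ ⌊ρ⌋₊ * Real.cos (((⌊ρ⌋₊ : ℝ) + 1) * θ)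

/-- `b_θ = (-1)^p cos (p θ)`; the kernel behaves like `b_θ e^{-κ₋ s} / p` at `+∞`. -/
noncomputable def bb (ρ θ : ℝ) : ℝ := (-1) ^ ⌊ρ⌋₊ * Real.cos ((⌊ρ⌋₊ : ℝ) * θ)

/-- `sg_θ = (-1)^p cos (ρ θ)`, which has the sign of `∫ k_θ`. -/
noncomputable def sg (ρ θ : ℝ) : ℝ := (-1) ^ ⌊ρ⌋₊ * Real.cos (ρ * θ)

/-- `c_θ(κ) = ∫ k_θ(s) e^{-κ s} ds = π cos ((ρ+κ) θ) / ((ρ+κ) sin (π (ρ+κ)))`. -/
noncomputable def cc (ρ κ θ : ℝ) : ℝ :=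
  Real.pi * Real.cos ((ρ + κ) * θ) / ((ρ + κ) * Real.sin (Real.pi * (ρ + κ)))

/-- `D_θ = ∫ s k_θ(s) ds` for the zeros `θ` of `cos ρθ`. -/
noncomputable def DD (ρ θ : ℝ) : ℝ :=
  Real.pi * θ * Real.sin (ρ * θ) / (ρ * Real.sin (Real.pi * ρ))

/-- left end points of the arcs of `{(-1)^p cos ρθ ≤ 0}` in `[0, π]` -/
def LE (ρ l : ℝ) : Prop :=
  0 ≤ l ∧ l ≤ Real.pi ∧ Real.cos (ρ * l) = 0 ∧ 0 < (-1) ^ ⌊ρ⌋₊ * Real.sin (ρ * l)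

/-- right end points of the arcs of `{(-1)^p cos ρθ ≤ 0}` in `[0, π]` -/
def RE (ρ r : ℝ) : Prop :=
  0 ≤ r ∧ r ≤ Real.pi ∧ Real.cos (ρ * r) = 0 ∧ (-1) ^ ⌊ρ⌋₊ * Real.sin (ρ * r) < 0

/-- potential of a density on the log scale -/
noncomputable def U (ρ θ : ℝ) (N : ℝ → ℝ) (x : ℝ) : ℝ := ∫ y, kk ρ θ (x - y) * N y

/-- potential of a measure on the log scale -/
noncomputable def Um (ρ θ : ℝ) (N : Measure ℝ) (x : ℝ) : ℝ := ∫ y, kk ρ θ (x - y) ∂N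

/-- primitive of the kernel -/
noncomputable def Lam (ρ θ v : ℝ) : ℝ := ∫ s in Iic v, kk ρ θ s

/-- The majorisation inequalities for finite measures on finitely many rays, extended values. -/
def MajMeas (ρ : ℝ) (h : ℝ → EReal) : Prop :=
  ∀ (n : ℕ) (φ : Fin n → ℝ) (μ : Fin n → Measure ℝ) (τ : ℝ), (∀ j, IsFiniteMeasure (μ j)) →
    (∀ j, φ j ∈ Icc (0 : ℝ) Real.pi) → τ ∈ Icc (0 : ℝ) Real.pi → (∀ j, h (φ j) ≠ ⊤) →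
    (∀ᵐ s : ℝ, kk ρ τ s ≤ ∑ j, ∫ x, kk ρ (φ j) (s + x) ∂(μ j)) →
    h τ ≤ ∑ j, (((μ j univ).toReal : ℝ) : EReal) * h (φ j)

/-- `ρ`-trigonometric convexity for extended real valued functions. -/
def TrigConv (ρ : ℝ) (h : ℝ → EReal) : Prop :=
  ∀ θ₁ θ θ₂ A₁ A₂ : ℝ, θ₁ < θ → θ < θ₂ → ρ * (θ₂ - θ₁) < Real.pi →
    h θ₁ ≤ (A₁ : EReal) → h θ₂ ≤ (A₂ : EReal) →
    h θ ≤ (((A₁ * Real.sin (ρ * (θ₂ - θ)) + A₂ * Real.sin (ρ * (θ - θ₁))) /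
      Real.sin (ρ * (θ₂ - θ₁)) : ℝ) : EReal)

/-- The infinite-type conditions, `ρ` not an integer. -/
structure InfCond (ρ : ℝ) (h : ℝ → EReal) : Prop where
  top : ∃ θ, h θ = ⊤
  per : ∀ θ, h (θ + 2 * Real.pi) = h θ
  even : ∀ θ, h (-θ) = h θ
  off : ∀ θ ∈ Icc (0 : ℝ) Real.pi, 0 < sg ρ θ → h θ = ⊤
  right : ∀ r, RE ρ r → 0 ≤ h r
  maj : MajMeas ρ h
  trig : TrigConv ρ h
  mix : (∃ l, LE ρ l ∧ h l < 0) → (∃ r, RE ρ r ∧ h r < ⊤) →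
    ∀ θ ∈ Icc (0 : ℝ) Real.pi, sg ρ θ < 0 → h θ = ⊥

end Helper25.Ind
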