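import Mathlib

/-!
# IND2 H1: Hahn-Banach with finite measures on a compact space

PROOF. Work in the normed space `E = (Fin n → C(X, ℝ)) × ℝ`. Let `O = {(f, r) | (∀ j x, f j x < 1) ∧ c < r}`; it is convex, nonempty and open (`X` compact: `∀ x, f x < 1` is an open condition in `C(X,ℝ)`, since
`sup f < 1` by compactness; if `X` is empty every condition is trivial). Let `Q = {(fun j => T j v, ℓ v) | v ∈ D}`, convex, nonempty. By `hfail` they are disjoint. `geometric_hahn_banach_open` gives a continuous linear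
`Λ : E →L ℝ` and `u` with `Λ o < u` for `o ∈ O`, `u ≤ Λ q` for `q ∈ Q`. Write `Λ (f, r) = ∑ j, Φ j (f j) - β r` (`Φ j` = restriction to the `j`-th coordinate, `β = -Λ(0,1)`).
Since `(f, r) ∈ O` with `r → ∞`: `β ≥ 0`. Since `f j` may be replaced by `f j - s g`, `g ≥ 0`, `s → ∞`: `Φ j g ≥ 0` for `g ≥ 0`. Letting `f → 1`, `r → c` : `∑ Φ j 1 - β c ≤ u`. For `v = 0 ∈ D`: `u ≤ 0`. If `β = 0` then `∑ Φ j 1 ≤ 0`, so `Φ j 1 = 0`
and by positivity `Φ j = 0`, so `Λ = 0`, contradiction with `Λ o < u ≤ Λ q`. So `β > 0`; divide by `β`. Riesz-Markov-Kakutani on the compact Hausdorff space `X` for the positive functionals `Φ j / β`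
(`RealRMK.rieszMeasure`, `RealRMK.integral_rieszMeasure` for `C_c(X,ℝ)`, which is all of `C(X,ℝ)` as `X` is compact) gives finite measures `μ j` with `Φ j g / β = ∫ g dμ j`. For `v ∈ D`:
`∑ Φ j (T j v) - β ℓ v ≥ u ≥ ∑ Φ j 1 - β c`, i.e. `ℓ v - ∑ ∫ T j v dμ j ≤ c - ∑ μ j (X)`.
-/

open Filter Topology MeasureTheory Set

namespace Helper25.Ind

private lemma hb_riesz {X : Type} [TopologicalSpace X] [CompactSpace X] [T2Space X]
    [MeasurableSpace X] [BorelSpace X] (Φ : C(X, ℝ) →ₗ[ℝ] ℝ)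
    (hΦ : ∀ g : C(X, ℝ), (∀ x, 0 ≤ g x) → 0 ≤ Φ g) :
    ∃ μ : Measure X, IsFiniteMeasure μ ∧ ∀ g : C(X, ℝ), ∫ x, g x ∂μ = Φ g := by
  let Λ₀ : CompactlySupportedContinuousMap X ℝ →ₗ[ℝ] ℝ :=
    { toFun := fun g => Φ g.toContinuousMap
      map_add' := fun f g => by
        rw [← map_add]
        rfl
      map_smul' := fun r g => by
        rw [RingHom.id_apply, ← map_smul]
        rfl }
  let Λ : CompactlySupportedContinuousMap X ℝ →ₚ[ℝ] ℝ :=
    PositiveLinearMap.mk₀ Λ₀ (fun g hg => hΦ g.toContinuousMap (fun x => hg x))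
  refine ⟨RealRMK.rieszMeasure Λ, inferInstance, ?_⟩
  intro g
  have h := RealRMK.integral_rieszMeasure Λ
    (CompactlySupportedContinuousMap.continuousMapEquiv g)
  have h2 : Λ (CompactlySupportedContinuousMap.continuousMapEquiv g) = Φ g := rfl
  rw [← h2, ← h]
  rfl

private lemma hb_lin {A B u : ℝ} (h : ∀ s : ℝ, 0 ≤ s → A + s * B < u) : B ≤ 0 := by
  by_contra hB
  push Not at hB
  have h1 := h (|u - A| / B) (by positivity)
  rw [div_mul_cancel₀ _ hB.ne'] at h1
  have h2 := le_abs_self (u - A)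
  linarith

theorem hb_measure {V : Type*} [AddCommGroup V] [Module ℝ V] {n : ℕ} {X : Type}
    [TopologicalSpace X] [CompactSpace X] [T2Space X] [MeasurableSpace X] [BorelSpace X]
    (T : Fin n → V →ₗ[ℝ] C(X, ℝ)) (ℓ : V →ₗ[ℝ] ℝ) (D : Set V) (hD : Convex ℝ D)
    (h0 : (0 : V) ∈ D) (c : ℝ) (hfail : ∀ v ∈ D, (∀ j x, T j v x < 1) → ℓ v ≤ c) :
    ∃ μ : Fin n → Measure X, (∀ j, IsFiniteMeasure (μ j)) ∧
      ∀ v ∈ D, ℓ v - ∑ j, ∫ x, T j v x ∂(μ j) ≤ c - ∑ j, (μ j univ).toReal := by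
  classical
  let O : Set ((Fin n → C(X, ℝ)) × ℝ) := {p | (∀ j x, p.1 j x < 1) ∧ c < p.2}
  have hOconv : Convex ℝ O := by
    intro p hp q hq a b ha hb hab
    refine ⟨fun j x => ?_, ?_⟩
    · show a * p.1 j x + b * q.1 j x < 1
      have h1 := hp.1 j x
      have h2 := hq.1 j x
      have h3 : a * p.1 j x ≤ a := by nlinarith
      have h4 : b * q.1 j x ≤ b := by nlinarith
      rcases ha.lt_or_eq with ha' | ha'
      · have : a * p.1 j x < a := by nlinarith
        linarith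
      · have hb' : 0 < b := by linarith
        have : b * q.1 j x < b := by nlinarith
        linarith
    · show c < a * p.2 + b * q.2
      have h1 : c < p.2 := hp.2
      have h2 : c < q.2 := hq.2
      have h3 : a * c ≤ a * p.2 := by nlinarith
      have h4 : b * c ≤ b * q.2 := by nlinarith
      have h5 : c = a * c + b * c := by rw [← add_mul, hab, one_mul]
      rcases ha.lt_or_eq with ha' | ha'
      · have : a * c < a * p.2 := by nlinarith
        linarith
      · have hb' : 0 < b := by linarith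
        have : b * c < b * q.2 := by nlinarith
        linarith
  have hOopen : IsOpen O := by
    have h1 : O = (⋂ j, {p : (Fin n → C(X, ℝ)) × ℝ | MapsTo (p.1 j) univ (Iio 1)}) ∩
        {p | c < p.2} := by
      ext p
      simp only [O, mem_ofPred_eq, mem_inter_iff, mem_iInter, MapsTo, mem_univ, true_imp_iff,
        mem_Iio]
    rw [h1]
    refine IsOpen.inter (isOpen_iInter_of_finite fun j => ?_) ?_
    · have h2 : IsOpen {f : C(X, ℝ) | MapsTo f univ (Iio 1)} :=
        ContinuousMap.isOpen_setOfPred_mapsTo isCompact_univ isOpen_Iio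
      have h3 : Continuous fun p : (Fin n → C(X, ℝ)) × ℝ => p.1 j :=
        (continuous_apply j).comp continuous_fst
      exact h2.preimage h3
    · exact isOpen_lt continuous_const continuous_snd
  let L : V →ₗ[ℝ] (Fin n → C(X, ℝ)) × ℝ := LinearMap.prod (LinearMap.pi T) ℓ
  have hL1 : ∀ v j, (L v).1 j = T j v := fun v j => rfl
  have hL2 : ∀ v, (L v).2 = ℓ v := fun v => rfl
  have hQconv : Convex ℝ (L '' D) := hD.linear_image L
  have hdisj : Disjoint O (L '' D) := by
    rw [Set.disjoint_left]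
    rintro _ hp ⟨v, hv, rfl⟩
    have h1 := hfail v hv (fun j x => hp.1 j x)
    have h2 : c < ℓ v := hp.2
    linarith
  obtain ⟨Λ, u, hO, hQ⟩ := geometric_hahn_banach_open hOconv hOopen hQconv hdisj
  let Φ : Fin n → C(X, ℝ) →ₗ[ℝ] ℝ := fun j =>
    Λ.toLinearMap ∘ₗ (LinearMap.inl ℝ (Fin n → C(X, ℝ)) ℝ) ∘ₗ
      (LinearMap.single ℝ (fun _ : Fin n => C(X, ℝ)) j)
  obtain ⟨β, hβ⟩ : ∃ β : ℝ, β = - Λ (0, 1) := ⟨_, rfl⟩
  have hΛ : ∀ (f : Fin n → C(X, ℝ)) (r : ℝ), Λ (f, r) = ∑ j, Φ j (f j) - β * r := by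
    intro f r
    have h1 : (f, r) = (∑ j, ((Pi.single j (f j) : Fin n → C(X, ℝ)), (0 : ℝ))) +
        r • ((0 : Fin n → C(X, ℝ)), (1 : ℝ)) := by
      refine Prod.ext ?_ ?_
      · rw [Prod.fst_add, Prod.fst_sum, Prod.smul_fst, smul_zero, add_zero]
        exact (Finset.univ_sum_single f).symm
      · rw [Prod.snd_add, Prod.snd_sum, Prod.smul_snd]
        simp
    rw [h1, map_add, map_sum, map_smul, hβ]
    have h2 : ∀ j, Φ j (f j) = Λ ((Pi.single j (f j) : Fin n → C(X, ℝ)), (0 : ℝ)) := fun j => rfl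
    simp only [h2, smul_eq_mul]
    ring
  have hu : u ≤ 0 := by
    have := hQ (L 0) ⟨0, h0, rfl⟩
    simpa using this
  have hβ0 : 0 ≤ β := by
    have h1 : -β ≤ 0 := by
      refine hb_lin (A := -β * (c + 1)) (u := u) ?_
      intro s hs
      have h2 := hO (0, c + 1 + s) ⟨fun j x => by simp, by show c < c + 1 + s; linarith⟩
      rw [hΛ] at h2
      simp only [Pi.zero_apply, map_zero, Finset.sum_const_zero] at h2
      linarith
    linarith
  have hβ1 : 0 < β := by
    rcases hβ0.lt_or_eq with h | h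
    · exact h
    · exfalso
      have h2 := hO (0, c + 1) ⟨fun j x => by simp, by show c < c + 1; linarith⟩
      rw [hΛ] at h2
      simp only [Pi.zero_apply, map_zero, Finset.sum_const_zero, ← h] at h2
      linarith
  have hpos : ∀ j, ∀ g : C(X, ℝ), (∀ x, 0 ≤ g x) → 0 ≤ Φ j g := by
    intro j g hg
    have h1 : -(Φ j g) ≤ 0 := by
      refine hb_lin (A := -β * (c + 1)) (u := u) ?_
      intro s hs
      have h2 := hO ((Pi.single j (-(s • g)) : Fin n → C(X, ℝ)), c + 1) ⟨?_, by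
        show c < c + 1; linarith⟩
      · rw [hΛ] at h2
        have h3 : ∑ i, Φ i ((Pi.single j (-(s • g)) : Fin n → C(X, ℝ)) i) = -(s * Φ j g) := by
          rw [Finset.sum_eq_single j]
          · rw [Pi.single_eq_same, map_neg, map_smul, smul_eq_mul]
          · intro i _ hi
            rw [Pi.single_eq_of_ne hi, map_zero]
          · intro h
            exact absurd (Finset.mem_univ j) h
        rw [h3] at h2
        linarith
      · intro i x
        show (Pi.single j (-(s • g)) : Fin n → C(X, ℝ)) i x < 1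
        by_cases hi : i = j
        · subst hi
          rw [Pi.single_eq_same]
          show -(s * g x) < 1
          have := mul_nonneg hs (hg x)
          linarith
        · rw [Pi.single_eq_of_ne hi]
          show (0 : ℝ) < 1
          norm_num
    linarith
  have hlim : ∑ j, Φ j 1 - β * c ≤ u := by
    by_contra hcon
    push Not at hcon
    obtain ⟨K, hK⟩ : ∃ K, K = ∑ j, Φ j 1 + β := ⟨_, rfl⟩
    have hS : 0 ≤ ∑ j, Φ j 1 := Finset.sum_nonneg fun j _ => hpos j 1 (fun x => by simp)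
    have hK0 : 0 < K := by linarith
    obtain ⟨δ, hδ⟩ : ∃ δ, δ = ∑ j, Φ j 1 - β * c - u := ⟨_, rfl⟩
    have hδ0 : 0 < δ := by linarith
    have hε : 0 < δ / K := by positivity
    have h2 := hO ((fun _ => (1 - δ / K) • (1 : C(X, ℝ))), c + δ / K) ⟨?_, by
      show c < c + δ / K; linarith⟩
    · rw [hΛ] at h2
      simp only [map_smul, smul_eq_mul, ← Finset.mul_sum] at h2
      have h3 : δ / K * K = δ := div_mul_cancel₀ _ hK0.ne'
      have h4 : (1 - δ / K) * ∑ j, Φ j 1 - β * (c + δ / K) =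
          (∑ j, Φ j 1 - β * c) - δ / K * K := by
        rw [hK]
        ring
      rw [h4, h3] at h2
      linarith
    · intro j x
      show (1 - δ / K) * 1 < 1
      linarith
  have hR : ∀ j, ∃ μ : Measure X, IsFiniteMeasure μ ∧
      ∀ g : C(X, ℝ), ∫ x, g x ∂μ = (β⁻¹ • Φ j) g := by
    intro j
    refine hb_riesz (β⁻¹ • Φ j) ?_
    intro g hg
    show 0 ≤ β⁻¹ * Φ j g
    have := hpos j g hg
    positivity
  choose μ hfin hint using hR
  refine ⟨μ, hfin, ?_⟩
  intro v hv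
  have h1 := hQ (L v) ⟨v, hv, rfl⟩
  have h2 : Λ (L v) = ∑ j, Φ j (T j v) - β * ℓ v := hΛ _ _
  rw [h2] at h1
  have h3 : ∑ j, ∫ x, T j v x ∂(μ j) = β⁻¹ * ∑ j, Φ j (T j v) := by
    rw [Finset.mul_sum]
    exact Finset.sum_congr rfl fun j _ => hint j (T j v)
  have h4 : ∑ j, (μ j univ).toReal = β⁻¹ * ∑ j, Φ j 1 := by
    rw [Finset.mul_sum]
    refine Finset.sum_congr rfl fun j _ => ?_
    have h5 := hint j 1
    have h6 : ∫ x, (1 : C(X, ℝ)) x ∂(μ j) = (μ j univ).toReal := by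
      have := hfin j
      simp [Measure.real]
    rw [← h6, h5]
    rfl
  rw [h3, h4]
  have h7 : β * (ℓ v - β⁻¹ * ∑ j, Φ j (T j v)) ≤ β * (c - β⁻¹ * ∑ j, Φ j 1) := by
    have h8 : β * (ℓ v - β⁻¹ * ∑ j, Φ j (T j v)) = β * ℓ v - ∑ j, Φ j (T j v) := by
      rw [mul_sub, ← mul_assoc, mul_inv_cancel₀ hβ1.ne', one_mul]
    have h9 : β * (c - β⁻¹ * ∑ j, Φ j 1) = β * c - ∑ j, Φ j 1 := by
      rw [mul_sub, ← mul_assoc, mul_inv_cancel₀ hβ1.ne', one_mul]
    rw [h8, h9]
    linarith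
  exact le_of_mul_le_mul_left h7 hβ1

end Helper25.Ind
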