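import Pool.Agent.Helper25.Ind2.HB1

/-!
# IND2 H2: Hahn-Banach with finite measures on the line

Functions on `ℝ` with limits at `±∞` are continuous functions on `EReal = [-∞, ∞]` (compact, Hausdorff, Borel).
PROOF of `exists_ereal_extension`: `F ⊥ = a`, `F ⊤ = b`, `F x = f x`; continuity at real points because `ℝ → EReal` is an open embedding, at `⊤`: neighbourhoods of `⊤` are `Ioi` of reals (`EReal.nhds_top_basis` or
`EReal.tendsto_nhds_top_iff_real`), same at `⊥`.
PROOF of `hb_line`: let `W j = ` the linear maps `v ↦ F_v ∈ C(EReal, ℝ)`, `F_v = T j v` extended by the limits `a j v`, `b j v` (linear in `v` because limits are unique). Apply `hb_measure` with `X = EReal`: measures `ν j` on `EReal`. Put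
`μ j = (ν j).comap ((↑) : ℝ → EReal)` (measurable embedding), finite. `∫ F_v dν j = ∫_ℝ T j v dμ j + a j v ν j{⊥} + b j v ν j{⊤}` and `ν j (univ) = μ j (univ) + ν j {⊥} + ν j{⊤}`. For `v ∈ D`, `a j v ≤ 0`, `b j v ≤ 0` hence
`ℓ v - ∑ ∫ T j v dμ j ≤ c - ∑ μ j(ℝ) - ∑ (ν j{⊥} + ν j{⊤}) + ∑ (a j v ν j{⊥} + b j v ν j{⊤}) ≤ c - ∑ μ j (ℝ)`.
The hypothesis `hfail` of `hb_measure`: if `F_v < 1` on `EReal` then `T j v x < 1` for all real `x`.
-/

open Filter Topology MeasureTheory Set

namespace Helper25.Ind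

lemma exists_ereal_extension {f : ℝ → ℝ} (hf : Continuous f) {a b : ℝ}
    (ha : Tendsto f atBot (𝓝 a)) (hb : Tendsto f atTop (𝓝 b)) :
    ∃ F : C(EReal, ℝ), (∀ x : ℝ, F (x : EReal) = f x) ∧ F ⊥ = a ∧ F ⊤ = b := by
  let G : EReal → ℝ := fun e => if e = ⊥ then a else if e = ⊤ then b else f e.toReal
  have hG : ∀ x : ℝ, G (x : EReal) = f x := by
    intro x
    simp [G]
  have hGb : G ⊥ = a := by simp [G]
  have hGt : G ⊤ = b := by simp [G]
  have hc : Continuous G := by
    rw [continuous_iff_continuousAt]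
    intro e
    induction e using EReal.rec with
    | bot =>
      rw [ContinuousAt, hGb]
      intro U hU
      obtain ⟨N, hN⟩ := eventually_atBot.1 (ha hU)
      rw [Filter.mem_map, EReal.mem_nhds_bot_iff]
      refine ⟨N, ?_⟩
      intro e he
      induction e using EReal.rec with
      | bot => simpa [hGb] using mem_of_mem_nhds hU
      | coe x =>
        have hx : x < N := by simpa using he
        simpa [hG] using hN x hx.le
      | top => simp at he
    | coe x =>
      rw [← EReal.isOpenEmbedding_coe.continuousAt_iff]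
      have h1 : G ∘ ((↑) : ℝ → EReal) = f := funext hG
      rw [h1]
      exact hf.continuousAt
    | top =>
      rw [ContinuousAt, hGt]
      intro U hU
      obtain ⟨N, hN⟩ := eventually_atTop.1 (hb hU)
      rw [Filter.mem_map, EReal.mem_nhds_top_iff]
      refine ⟨N, ?_⟩
      intro e he
      induction e using EReal.rec with
      | bot => simp at he
      | coe x =>
        have hx : N < x := by simpa using he
        simpa [hG] using hN x hx.le
      | top => simpa [hGt] using mem_of_mem_nhds hU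
  exact ⟨⟨G, hc⟩, hG, hGb, hGt⟩

private lemma hbtwo_range : (range ((↑) : ℝ → EReal))ᶜ = {⊥} ∪ {⊤} := by
  ext e
  induction e using EReal.rec with
  | bot => simp
  | coe x => simp
  | top => simp

private lemma hbtwo_emb : MeasurableEmbedding ((↑) : ℝ → EReal) :=
  EReal.isOpenEmbedding_coe.measurableEmbedding

private lemma hbtwo_int (ν : Measure EReal) [IsFiniteMeasure ν] (F : C(EReal, ℝ)) :
    ∫ e, F e ∂ν = ∫ x : ℝ, F (x : EReal) ∂(ν.comap ((↑) : ℝ → EReal)) +
      (F ⊥ * ν.real {⊥} + F ⊤ * ν.real {⊤}) := by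
  have hint : Integrable (fun e => F e) ν := by
    refine Integrable.of_bound F.continuous.aestronglyMeasurable ‖F‖ ?_
    exact Eventually.of_forall fun e => F.norm_coe_le_norm e
  rw [← integral_add_compl hbtwo_emb.measurableSet_range hint]
  congr 1
  · rw [← hbtwo_emb.map_comap, hbtwo_emb.integral_map]
  · rw [hbtwo_range, setIntegral_union (by simp) (measurableSet_singleton _)
      hint.integrableOn hint.integrableOn, integral_singleton, integral_singleton]
    simp only [smul_eq_mul]
    ring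

private lemma hbtwo_univ (ν : Measure EReal) [IsFiniteMeasure ν] :
    (ν univ).toReal = ((ν.comap ((↑) : ℝ → EReal)) univ).toReal +
      (ν.real {⊥} + ν.real {⊤}) := by
  have h := hbtwo_int ν 1
  simp only [ContinuousMap.one_apply, integral_const, smul_eq_mul, mul_one, one_mul] at h
  exact h

theorem hb_line {V : Type*} [AddCommGroup V] [Module ℝ V] {n : ℕ}
    (T : Fin n → V →ₗ[ℝ] (ℝ → ℝ)) (a b : Fin n → V → ℝ)
    (hT : ∀ j v, Continuous (T j v)) (ha : ∀ j v, Tendsto (T j v) atBot (𝓝 (a j v)))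
    (hb : ∀ j v, Tendsto (T j v) atTop (𝓝 (b j v))) (ℓ : V →ₗ[ℝ] ℝ)
    (D : Set V) (hD : Convex ℝ D) (h0 : (0 : V) ∈ D) (haD : ∀ j, ∀ v ∈ D, a j v ≤ 0)
    (hbD : ∀ j, ∀ v ∈ D, b j v ≤ 0) (c : ℝ)
    (hfail : ∀ v ∈ D, (∀ j x, T j v x < 1) → ℓ v ≤ c) :
    ∃ μ : Fin n → Measure ℝ, (∀ j, IsFiniteMeasure (μ j)) ∧
      ∀ v ∈ D, ℓ v - ∑ j, ∫ x, T j v x ∂(μ j) ≤ c - ∑ j, (μ j univ).toReal := by
  have hF : ∀ j v, ∃ F : C(EReal, ℝ), (∀ x : ℝ, F (x : EReal) = T j v x) ∧ F ⊥ = a j v ∧
      F ⊤ = b j v := fun j v => exists_ereal_extension (hT j v) (ha j v) (hb j v)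
  choose F hF1 hF2 hF3 using hF
  have hadd_a : ∀ j v w, a j (v + w) = a j v + a j w := by
    intro j v w
    refine tendsto_nhds_unique (ha j (v + w)) ?_
    have := (ha j v).add (ha j w)
    refine this.congr fun x => ?_
    rw [map_add, Pi.add_apply]
  have hadd_b : ∀ j v w, b j (v + w) = b j v + b j w := by
    intro j v w
    refine tendsto_nhds_unique (hb j (v + w)) ?_
    have := (hb j v).add (hb j w)
    refine this.congr fun x => ?_
    rw [map_add, Pi.add_apply]
  have hsm_a : ∀ j (r : ℝ) v, a j (r • v) = r * a j v := by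
    intro j r v
    refine tendsto_nhds_unique (ha j (r • v)) ?_
    have := (ha j v).const_mul r
    refine this.congr fun x => ?_
    rw [map_smul, Pi.smul_apply, smul_eq_mul]
  have hsm_b : ∀ j (r : ℝ) v, b j (r • v) = r * b j v := by
    intro j r v
    refine tendsto_nhds_unique (hb j (r • v)) ?_
    have := (hb j v).const_mul r
    refine this.congr fun x => ?_
    rw [map_smul, Pi.smul_apply, smul_eq_mul]
  let W : Fin n → V →ₗ[ℝ] C(EReal, ℝ) := fun j =>
    { toFun := F j
      map_add' := by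
        intro v w
        ext e
        rw [ContinuousMap.add_apply]
        induction e using EReal.rec with
        | bot => rw [hF2, hF2, hF2, hadd_a]
        | coe x => rw [hF1, hF1, hF1, map_add, Pi.add_apply]
        | top => rw [hF3, hF3, hF3, hadd_b]
      map_smul' := by
        intro r v
        ext e
        rw [RingHom.id_apply, ContinuousMap.smul_apply, smul_eq_mul]
        induction e using EReal.rec with
        | bot => rw [hF2, hF2, hsm_a]
        | coe x => rw [hF1, hF1, map_smul, Pi.smul_apply, smul_eq_mul]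
        | top => rw [hF3, hF3, hsm_b] }
  obtain ⟨ν, hν, hνD⟩ := hb_measure W ℓ D hD h0 c (by
    intro v hv h
    refine hfail v hv fun j x => ?_
    have := h j (x : EReal)
    rwa [show W j v (x : EReal) = T j v x from hF1 j v x] at this)
  have hfin : ∀ j, IsFiniteMeasure ((ν j).comap ((↑) : ℝ → EReal)) := by
    intro j
    have := hν j
    constructor
    rw [hbtwo_emb.comap_apply]
    exact measure_lt_top _ _
  refine ⟨fun j => (ν j).comap ((↑) : ℝ → EReal), hfin, ?_⟩
  intro v hv
  have h1 := hνD v hv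
  have h2 : ∀ j, ∫ e, W j v e ∂(ν j) = ∫ x : ℝ, T j v x ∂((ν j).comap ((↑) : ℝ → EReal)) +
      (a j v * (ν j).real {⊥} + b j v * (ν j).real {⊤}) := by
    intro j
    have := hν j
    rw [hbtwo_int (ν j) (W j v), show W j v ⊥ = a j v from hF2 j v,
      show W j v ⊤ = b j v from hF3 j v]
    congr 2
    funext x
    exact hF1 j v x
  have h3 : ∀ j, (ν j univ).toReal = (((ν j).comap ((↑) : ℝ → EReal)) univ).toReal +
      ((ν j).real {⊥} + (ν j).real {⊤}) := by
    intro j
    have := hν j
    exact hbtwo_univ (ν j)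
  have e1 := (Finset.sum_congr rfl fun j (_ : j ∈ Finset.univ) => h2 j).trans
    Finset.sum_add_distrib
  have e2 := (Finset.sum_congr rfl fun j (_ : j ∈ Finset.univ) => h3 j).trans
    Finset.sum_add_distrib
  rw [e1, e2] at h1
  have h4 : ∑ j, (a j v * (ν j).real {⊥} + b j v * (ν j).real {⊤}) ≤
      ∑ j, ((ν j).real {⊥} + (ν j).real {⊤}) := by
    refine Finset.sum_le_sum fun j _ => ?_
    have h5 : 0 ≤ (ν j).real {⊥} := measureReal_nonneg
    have h6 : 0 ≤ (ν j).real {⊤} := measureReal_nonneg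
    have h7 := mul_nonpos_of_nonpos_of_nonneg (haD j v hv) h5
    have h8 := mul_nonpos_of_nonpos_of_nonneg (hbD j v hv) h6
    linarith
  show ℓ v - ∑ j, ∫ x, T j v x ∂((ν j).comap ((↑) : ℝ → EReal)) ≤
    c - ∑ j, (((ν j).comap ((↑) : ℝ → EReal)) univ).toReal
  linarith

end Helper25.Ind
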