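import Pool.Agent.Helper25.Ind2.Ph
import Pool.Agent.Helper25.Ind.KerA
import Pool.Agent.Helper25.Ind.KerC

/-!
# IND2 K2: bounds, measurability and continuity of the kernels `kk ρ θ`, `θ ∈ [0, π]`

`kk ρ θ s = e^{-ρ s} log ‖primary p (-w)‖`, `w = e^s e^{iθ}`, `|w| = e^s`, `p = ⌊ρ⌋₊`.
PROOFS.
* `kk_eq`: unfold `ker`, `div_one`.
* `measurable_kk`: composition of continuous maps with `Real.log ‖·‖` (measurable).
* `continuousOn_kk`: `primary p` is continuous (`differentiable_primary`), `primary p (-w) = 0` iff `w = -1`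
  (`primary_eq_zero_iff`) and `w = -1` forces `s = 0` and (for `0 ≤ θ ≤ π`) `θ = π`; `Real.log` is continuous off `0`.
* `kk_le_ph`: `norm_primary_le`: `log ‖primary p (-w)‖ ≤ C Φ(|w|)` (if the value is `0` the log is `0`).
* `abs_kk_le_lt`: `abs_ker_le` with `δ = π - θ₁` (`z = e^s e^{iθ}`, `arg z = θ`, `‖z‖ = e^s`, `t = 1`). If `θ₁ < 0` the interval is empty.
* `abs_kk_le_far`: upper bound `kk_le_ph`. Lower bound of `log ‖primary p (-w)‖`:
  (i) `|w| ≤ e^{-δ}`: if moreover `|w| ≤ 1/2` use `abs_log_primary_le` and `ph_ge_neg`; the compact set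
  `e^{-δ} ≥ |w| ≥ 1/2` is handled by (iii). (ii) `|w| ≥ 2`: `log‖1+w‖ ≥ log(|w| - 1) ≥ 0` and
  `|Re ∑_{j<p} (-w)^{j+1}/(j+1)| ≤ p |w|^p` (`|w| ≥ 1`), while `Φ(|w|) ≥ c |w|^p` (from `ph_ge_pos`, or directly); for `p = 0` the sum is empty.
  (iii) `1/2 ≤ |w| ≤ 2`, `|log |w|| ≥ δ`: `‖1+w‖ ≥ |1 - |w|| ≥ c_δ > 0` so `log ‖1+w‖ ≥ -C_δ`, the polynomial part is bounded and `ph` is
  bounded below by a positive constant on compact sets (continuous, positive).
* `abs_kk_le`: for `|s| ≥ 1` from `abs_kk_le_far`. For `0 < |s| < 1`: `‖1+w‖ ≥ |1 - e^s| ≥ |s|/2` (for `|s| ≤ 1`), so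
  `log ‖1+w‖ ≥ log(|s|/2) ≥ -2 |s|^{-1/2} - 1` (`log x ≤ 2 √x`-type inequality: `log (1/y) ≤ 2 y^{-1/2}` for `0<y≤1`), upper bound `≤ C`;
  `ph` is bounded below by a positive constant on `[-1,1]`.
-/

open Complex Filter Topology MeasureTheory Set

namespace Helper25.Ind

lemma kk_eq (ρ θ s : ℝ) : kk ρ θ s = Real.exp (-(ρ * s)) *
    Real.log ‖primary ⌊ρ⌋₊ (-(Real.exp s * Complex.exp (θ * Complex.I)))‖ := by
  unfold kk ker
  rw [Complex.ofReal_one, div_one]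

private lemma kb_norm (θ s : ℝ) : ‖(Real.exp s : ℂ) * Complex.exp (θ * Complex.I)‖ = Real.exp s := by
  rw [norm_mul, Complex.norm_exp_ofReal_mul_I, mul_one, Complex.norm_real, Real.norm_of_nonneg
    (Real.exp_pos s).le]

private lemma kb_cont (p : ℕ) : Continuous (fun q : ℝ × ℝ =>
    primary p (-((Real.exp q.2 : ℂ) * Complex.exp (q.1 * Complex.I)))) := by
  apply (differentiable_primary p).continuous.comp
  have h1 : Continuous fun q : ℝ × ℝ => ((Real.exp q.2 : ℝ) : ℂ) :=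
    Complex.continuous_ofReal.comp (Real.continuous_exp.comp continuous_snd)
  have h2 : Continuous fun q : ℝ × ℝ => Complex.exp ((q.1 : ℂ) * Complex.I) :=
    Complex.continuous_exp.comp ((Complex.continuous_ofReal.comp continuous_fst).mul
      continuous_const)
  exact (h1.mul h2).neg

lemma measurable_kk_uncurry (ρ : ℝ) : Measurable (fun q : ℝ × ℝ => kk ρ q.1 q.2) := by
  have h : (fun q : ℝ × ℝ => kk ρ q.1 q.2) = fun q : ℝ × ℝ => Real.exp (-(ρ * q.2)) *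
      Real.log ‖primary ⌊ρ⌋₊ (-((Real.exp q.2 : ℂ) * Complex.exp (q.1 * Complex.I)))‖ := by
    funext q
    exact kk_eq ρ q.1 q.2
  rw [h]
  have h1 : Measurable fun q : ℝ × ℝ => Real.exp (-(ρ * q.2)) := by fun_prop
  exact h1.mul (Real.measurable_log.comp (kb_cont ⌊ρ⌋₊).norm.measurable)

lemma measurable_kk (ρ θ : ℝ) : Measurable (kk ρ θ) := by
  have h1 : Measurable fun s : ℝ => (θ, s) := measurable_prodMk_left
  exact (measurable_kk_uncurry ρ).comp h1

lemma continuousOn_kk (ρ : ℝ) : ContinuousOn (fun q : ℝ × ℝ => kk ρ q.1 q.2)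
    {q | q.1 ∈ Icc (0 : ℝ) Real.pi ∧ (q.1 < Real.pi ∨ q.2 ≠ 0)} := by
  have h : (fun q : ℝ × ℝ => kk ρ q.1 q.2) = fun q : ℝ × ℝ => Real.exp (-(ρ * q.2)) *
      Real.log ‖primary ⌊ρ⌋₊ (-((Real.exp q.2 : ℂ) * Complex.exp (q.1 * Complex.I)))‖ := by
    funext q
    exact kk_eq ρ q.1 q.2
  rw [h]
  have h1 : Continuous fun q : ℝ × ℝ => Real.exp (-(ρ * q.2)) := by fun_prop
  refine h1.continuousOn.mul ((kb_cont ⌊ρ⌋₊).norm.continuousOn.log ?_)
  rintro ⟨θ, s⟩ ⟨hθ, hor⟩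
  simp only at hθ hor ⊢
  rw [norm_ne_zero_iff, Ne, primary_eq_zero_iff]
  intro h0
  have h2 : (Real.exp s : ℂ) * Complex.exp (θ * Complex.I) = -1 := by
    rw [← h0, neg_neg]
  have h3 : Real.exp s = 1 := by
    rw [← kb_norm θ s, h2, norm_neg, norm_one]
  have h4 : s = 0 := by
    rwa [Real.exp_eq_one_iff] at h3
  rcases hor with hlt | hs
  · rw [h3, Complex.ofReal_one, one_mul] at h2
    have h5 : Real.cos θ = -1 := by
      have := congrArg Complex.re h2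
      rw [Complex.exp_ofReal_mul_I_re] at this
      simpa using this
    have h6 := Real.cos_lt_cos_of_nonneg_of_le_pi hθ.1 le_rfl hlt
    rw [Real.cos_pi, h5] at h6
    exact lt_irrefl _ h6
  · exact hs h4

lemma continuous_kk (ρ : ℝ) {θ : ℝ} (h0 : 0 ≤ θ) (h1 : θ < Real.pi) : Continuous (kk ρ θ) := by
  have h2 : Continuous fun s : ℝ => (θ, s) := by fun_prop
  exact (continuousOn_kk ρ).comp_continuous h2 (fun s => ⟨⟨h0, h1.le⟩, Or.inl h1⟩)

private lemma kb_Phi (p : ℕ) (s : ℝ) : 0 < Phi p (Real.exp s) := Phi_pos p (Real.exp_pos s)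

lemma kk_le_ph (ρ : ℝ) : ∃ C > 0, ∀ θ s : ℝ, kk ρ θ s ≤ C * ph ρ s := by
  obtain ⟨C, hC, h⟩ := norm_primary_le ⌊ρ⌋₊
  refine ⟨C, hC, fun θ s => ?_⟩
  rw [kk_eq]
  unfold ph
  have h1 := h (-((Real.exp s : ℂ) * Complex.exp (θ * Complex.I)))
  rw [norm_neg, kb_norm] at h1
  have hP := kb_Phi ⌊ρ⌋₊ s
  have h2 : Real.log ‖primary ⌊ρ⌋₊ (-((Real.exp s : ℂ) * Complex.exp (θ * Complex.I)))‖ ≤
      C * Phi ⌊ρ⌋₊ (Real.exp s) := by
    rcases (norm_nonneg (primary ⌊ρ⌋₊ (-((Real.exp s : ℂ) *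
      Complex.exp (θ * Complex.I))))).eq_or_lt with h0 | h0
    · rw [← h0, Real.log_zero]; positivity
    · rw [Real.log_le_iff_le_exp h0]; exact h1
  calc Real.exp (-(ρ * s)) * Real.log _ ≤ Real.exp (-(ρ * s)) * (C * Phi ⌊ρ⌋₊ (Real.exp s)) :=
        mul_le_mul_of_nonneg_left h2 (Real.exp_pos _).le
    _ = C * (Real.exp (-(ρ * s)) * Phi ⌊ρ⌋₊ (Real.exp s)) := by ring

private lemma kb_arg {θ s : ℝ} (h0 : 0 ≤ θ) (h1 : θ ≤ Real.pi) :
    ((Real.exp s : ℂ) * Complex.exp (θ * Complex.I)).arg = θ := by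
  rw [Complex.arg_real_mul _ (Real.exp_pos s), Complex.arg_exp_mul_I,
    toIocMod_eq_self Real.two_pi_pos]
  constructor
  · linarith [Real.pi_pos]
  · linarith [Real.pi_pos]

lemma abs_kk_le_lt (ρ : ℝ) {θ₁ : ℝ} (h : θ₁ < Real.pi) :
    ∃ C > 0, ∀ θ ∈ Icc (0 : ℝ) θ₁, ∀ s : ℝ, |kk ρ θ s| ≤ C * ph ρ s := by
  by_cases hθ₁ : θ₁ < 0
  · refine ⟨1, one_pos, fun θ hθ => ?_⟩
    exact absurd (hθ.1.trans hθ.2) (not_le.2 hθ₁)
  push Not at hθ₁
  have hsin : 0 < Real.sin ((Real.pi - θ₁) / 2) := Real.sin_pos_of_pos_of_lt_pi (by linarith)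
    (by linarith [Real.pi_pos])
  refine ⟨1 / Real.sin ((Real.pi - θ₁) / 2), by positivity, fun θ hθ s => ?_⟩
  have harg := kb_arg (s := s) hθ.1 (hθ.2.trans h.le)
  have hw0 : (Real.exp s : ℂ) * Complex.exp (θ * Complex.I) ≠ 0 := by
    rw [← norm_pos_iff, kb_norm]; exact Real.exp_pos s
  have hslit : (Real.exp s : ℂ) * Complex.exp (θ * Complex.I) ∈ slitPlane := by
    rw [Complex.mem_slitPlane_iff_arg, harg]
    exact ⟨(lt_of_le_of_lt hθ.2 h).ne, hw0⟩
  have h1 := abs_ker_le ⌊ρ⌋₊ hslit (δ := Real.pi - θ₁) (by linarith) (by linarith)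
    (by rw [harg, abs_of_nonneg hθ.1]; linarith [hθ.2]) one_pos
  rw [kb_norm, div_one] at h1
  unfold kk ph
  rw [abs_mul, abs_of_pos (Real.exp_pos _)]
  calc Real.exp (-(ρ * s)) * |ker ⌊ρ⌋₊ ((Real.exp s : ℂ) * Complex.exp (θ * Complex.I)) 1|
      ≤ Real.exp (-(ρ * s)) * (Phi ⌊ρ⌋₊ (Real.exp s) / Real.sin ((Real.pi - θ₁) / 2)) :=
        mul_le_mul_of_nonneg_left h1 (Real.exp_pos _).le
    _ = _ := by ring

private lemma kb_gen (p : ℕ) : ∃ C > 0, ∀ (w : ℂ) (m : ℝ), 0 ≤ m → ‖w‖ ≠ 1 →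
    -m ≤ Real.log |1 - ‖w‖| → |Real.log ‖primary p (-w)‖| ≤ C * (1 + m) * Phi p ‖w‖ := by
  obtain ⟨C₁, hC₁, H₁⟩ := norm_primary_le p
  obtain ⟨C₂, hC₂, H₂⟩ := abs_log_primary_le p
  have hP0 : 0 < Phi p (1 / 2) := Phi_pos p (by norm_num)
  have hp0 : (0 : ℝ) ≤ p := Nat.cast_nonneg p
  refine ⟨C₁ + 2 * (p + 1) * C₂ + 1 / Phi p (1 / 2) + p * 2 ^ p * (3 * (p + 1)), by positivity,
    fun w m hm hw1 hlog => ?_⟩
  obtain ⟨x, hx⟩ : ∃ x, x = ‖w‖ := ⟨_, rfl⟩
  have hx0 : 0 ≤ x := by rw [hx]; exact norm_nonneg w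
  have hPx : 0 ≤ Phi p x := Phi_nonneg p hx0
  have hw : w ≠ -1 := by
    rintro rfl
    rw [norm_neg, norm_one] at hw1
    exact hw1 rfl
  have hE0 : 0 < ‖primary p (-w)‖ := by
    rw [norm_pos_iff, Ne, primary_eq_zero_iff]
    intro h
    apply hw
    rw [← h, neg_neg]
  have hup : Real.log ‖primary p (-w)‖ ≤ C₁ * Phi p x := by
    rw [Real.log_le_iff_le_exp hE0, hx]
    have := H₁ (-w)
    rwa [norm_neg] at this
  rw [← hx] at hlog ⊢
  have hpos1 : 0 ≤ 1 / Phi p (1 / 2) := by positivity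
  have hpos2 : 0 ≤ (p : ℝ) * 2 ^ p * (3 * (p + 1)) := by positivity
  have hpos3 : 0 ≤ 2 * ((p : ℝ) + 1) * C₂ := by positivity
  -- reduction: it suffices to bound by the sum
  have red : ∀ A : ℝ, A ≤ C₁ * Phi p x ∨ A ≤ 2 * (p + 1) * C₂ * Phi p x ∨
      A ≤ m * (1 / Phi p (1 / 2)) * Phi p x + p * 2 ^ p * (3 * (p + 1)) * Phi p x →
      A ≤ (C₁ + 2 * (p + 1) * C₂ + 1 / Phi p (1 / 2) + p * 2 ^ p * (3 * (p + 1))) * (1 + m) *
        Phi p x := by
    intro A hA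
    have k1 : 0 ≤ C₁ * Phi p x := by positivity
    have k2 : 0 ≤ 2 * (p + 1) * C₂ * Phi p x := by positivity
    have k3 : 0 ≤ 1 / Phi p (1 / 2) * Phi p x := by positivity
    have k4 : 0 ≤ p * 2 ^ p * (3 * (p + 1)) * Phi p x := by positivity
    have k5 : 0 ≤ m * (C₁ * Phi p x) := by positivity
    have k6 : 0 ≤ m * (2 * (p + 1) * C₂ * Phi p x) := by positivity
    have k7 : 0 ≤ m * (1 / Phi p (1 / 2) * Phi p x) := by positivity
    have k8 : 0 ≤ m * (p * 2 ^ p * (3 * (p + 1)) * Phi p x) := by positivity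
    have e : (C₁ + 2 * (p + 1) * C₂ + 1 / Phi p (1 / 2) + p * 2 ^ p * (3 * (p + 1))) * (1 + m) *
        Phi p x = C₁ * Phi p x + 2 * (p + 1) * C₂ * Phi p x + 1 / Phi p (1 / 2) * Phi p x +
        p * 2 ^ p * (3 * (p + 1)) * Phi p x + m * (C₁ * Phi p x) +
        m * (2 * (p + 1) * C₂ * Phi p x) + m * (1 / Phi p (1 / 2) * Phi p x) +
        m * (p * 2 ^ p * (3 * (p + 1)) * Phi p x) := by ring
    rw [e]
    rcases hA with hA | hA | hA
    · linarith
    · linarith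
    · have e2 : m * (1 / Phi p (1 / 2)) * Phi p x = m * (1 / Phi p (1 / 2) * Phi p x) := by ring
      linarith
  rcases le_or_gt x (1 / 2) with hxs | hxs
  · apply red
    right; left
    have h1 := H₂ (-w) (by rw [norm_neg, ← hx]; exact hxs)
    rw [norm_neg, ← hx] at h1
    have h2 := Phi_ge p hx0
    have h3 : x ^ (p + 1) ≤ 2 * (p + 1) * Phi p x := by
      rw [div_le_iff₀ (by positivity)] at h2
      have h4 : Phi p x * ((p + 1) * (1 + x)) ≤ Phi p x * ((p + 1) * 2) := by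
        apply mul_le_mul_of_nonneg_left _ hPx
        apply mul_le_mul_of_nonneg_left _ (by positivity)
        linarith
      linarith
    calc |Real.log ‖primary p (-w)‖| ≤ C₂ * x ^ (p + 1) := h1
      _ ≤ C₂ * (2 * (p + 1) * Phi p x) := mul_le_mul_of_nonneg_left h3 hC₂.le
      _ = 2 * (p + 1) * C₂ * Phi p x := by ring
  · rw [abs_le']
    refine ⟨red _ (Or.inl hup), red _ (Or.inr (Or.inr ?_))⟩
    have h1w : 0 < ‖1 + w‖ := by
      rw [norm_pos_iff]
      intro h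
      apply hw
      linear_combination h
    have hlogE : Real.log ‖primary p (-w)‖ = Real.log ‖1 + w‖ +
        (∑ j ∈ Finset.range p, (-w) ^ (j + 1) / ((j : ℂ) + 1)).re := by
      unfold primary
      rw [norm_mul, sub_neg_eq_add, Real.log_mul h1w.ne' (by
        rw [Complex.norm_exp]; exact (Real.exp_pos _).ne'), Complex.norm_exp, Real.log_exp]
    have h2 : Real.log |1 - x| ≤ Real.log ‖1 + w‖ := by
      apply Real.log_le_log
      · rw [abs_pos, sub_ne_zero, hx]; exact Ne.symm hw1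
      · have h3 := abs_norm_sub_norm_le (1 : ℂ) (-w)
        rw [norm_one, norm_neg, sub_neg_eq_add, ← hx] at h3
        exact h3
    have h3 : -(∑ j ∈ Finset.range p, x ^ (j + 1)) ≤
        (∑ j ∈ Finset.range p, (-w) ^ (j + 1) / ((j : ℂ) + 1)).re := by
      have h4 : ‖∑ j ∈ Finset.range p, (-w) ^ (j + 1) / ((j : ℂ) + 1)‖ ≤
          ∑ j ∈ Finset.range p, x ^ (j + 1) := by
        refine (norm_sum_le _ _).trans (Finset.sum_le_sum fun j _ => ?_)
        rw [norm_div, norm_pow, norm_neg, ← hx]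
        refine div_le_self (by positivity) ?_
        have h2 : ‖((j : ℂ) + 1)‖ = (j : ℝ) + 1 := by
          have : ((j : ℂ) + 1) = (((j : ℝ) + 1 : ℝ) : ℂ) := by push_cast; rfl
          rw [this, Complex.norm_real, Real.norm_of_nonneg (by positivity)]
        rw [h2]
        have : (0 : ℝ) ≤ j := Nat.cast_nonneg j
        linarith
      have h5 := (abs_le.1 (Complex.abs_re_le_norm
        (∑ j ∈ Finset.range p, (-w) ^ (j + 1) / ((j : ℂ) + 1)))).1
      linarith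
    have h4 : ∑ j ∈ Finset.range p, x ^ (j + 1) ≤ p * 2 ^ p * (3 * (p + 1)) * Phi p x := by
      have h5 : x ^ p ≤ 3 * (p + 1) * Phi p x := by
        have h6 := Phi_ge p hx0
        have h7 : x ^ (p + 1) / ((p + 1) * (3 * x)) ≤ Phi p x := by
          refine le_trans ?_ h6
          apply div_le_div_of_nonneg_left (by positivity) (by positivity)
          apply mul_le_mul_of_nonneg_left _ (by positivity)
          linarith
        have hx0' : 0 < x := by linarith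
        have h8 : x ^ (p + 1) / ((p + 1) * (3 * x)) = x ^ p / (3 * (p + 1)) := by
          rw [pow_succ]; field_simp
        rw [h8, div_le_iff₀ (by positivity)] at h7
        linarith
      have h6 : ∀ j ∈ Finset.range p, x ^ (j + 1) ≤ 2 ^ p * x ^ p := by
        intro j hj
        rw [Finset.mem_range] at hj
        have h7 : x ^ p = x ^ (j + 1) * x ^ (p - (j + 1)) := by
          rw [← pow_add]; congr 1; omega
        have h8 : (1 : ℝ) ≤ 2 ^ p * x ^ (p - (j + 1)) := by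
          have h9 : (2 : ℝ) ^ (p - (j + 1)) ≤ 2 ^ p :=
            pow_le_pow_right₀ (by norm_num) (by omega)
          have h10 : (1 : ℝ) ≤ (2 * x) ^ (p - (j + 1)) := one_le_pow₀ (by linarith)
          rw [mul_pow] at h10
          refine h10.trans ?_
          exact mul_le_mul_of_nonneg_right h9 (by positivity)
        rw [h7]
        have h11 : 0 ≤ x ^ (j + 1) := by positivity
        calc x ^ (j + 1) = x ^ (j + 1) * 1 := (mul_one _).symm
          _ ≤ x ^ (j + 1) * (2 ^ p * x ^ (p - (j + 1))) := mul_le_mul_of_nonneg_left h8 h11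
          _ = _ := by ring
      refine (Finset.sum_le_sum h6).trans ?_
      rw [Finset.sum_const, Finset.card_range, nsmul_eq_mul]
      calc (p : ℝ) * (2 ^ p * x ^ p) = p * 2 ^ p * x ^ p := by ring
        _ ≤ p * 2 ^ p * (3 * (p + 1) * Phi p x) := mul_le_mul_of_nonneg_left h5 (by positivity)
        _ = _ := by ring
    have h5 : m ≤ m * (1 / Phi p (1 / 2)) * Phi p x := by
      have h6 : Phi p (1 / 2) ≤ Phi p x := Phi_mono p (by norm_num) hxs.le
      have h7 : 1 ≤ 1 / Phi p (1 / 2) * Phi p x := by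
        rw [one_div, inv_mul_eq_div, one_le_div hP0]; exact h6
      calc m = m * 1 := (mul_one m).symm
        _ ≤ m * (1 / Phi p (1 / 2) * Phi p x) := mul_le_mul_of_nonneg_left h7 hm
        _ = _ := by ring
    rw [hlogE]
    linarith

private lemma kb_gen' (ρ : ℝ) : ∃ C > 0, ∀ (θ s m : ℝ), 0 ≤ m → s ≠ 0 →
    -m ≤ Real.log |1 - Real.exp s| → |kk ρ θ s| ≤ C * (1 + m) * ph ρ s := by
  obtain ⟨C, hC, H⟩ := kb_gen ⌊ρ⌋₊
  refine ⟨C, hC, fun θ s m hm hs hlog => ?_⟩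
  have h1 := H ((Real.exp s : ℂ) * Complex.exp (θ * Complex.I)) m hm (by
    rw [kb_norm]
    intro h
    exact hs (by rwa [Real.exp_eq_one_iff] at h)) (by rw [kb_norm]; exact hlog)
  rw [kb_norm] at h1
  rw [kk_eq, abs_mul, abs_of_pos (Real.exp_pos _)]
  unfold ph
  calc Real.exp (-(ρ * s)) * |Real.log _| ≤
        Real.exp (-(ρ * s)) * (C * (1 + m) * Phi ⌊ρ⌋₊ (Real.exp s)) :=
        mul_le_mul_of_nonneg_left h1 (Real.exp_pos _).le
    _ = _ := by ring

lemma abs_kk_le_far (ρ : ℝ) {δ : ℝ} (hδ : 0 < δ) :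
    ∃ C > 0, ∀ θ ∈ Icc (0 : ℝ) Real.pi, ∀ s : ℝ, δ ≤ |s| → |kk ρ θ s| ≤ C * ph ρ s := by
  obtain ⟨C, hC, H⟩ := kb_gen' ρ
  have he : Real.exp (-δ) < 1 := by
    have := Real.exp_lt_exp.2 (show -δ < 0 by linarith)
    rwa [Real.exp_zero] at this
  have hepos := Real.exp_pos (-δ)
  have hm : 0 ≤ -Real.log (1 - Real.exp (-δ)) := by
    have := Real.log_nonpos (x := 1 - Real.exp (-δ)) (by linarith) (by linarith)
    linarith
  refine ⟨C * (1 + -Real.log (1 - Real.exp (-δ))), by positivity, fun θ _ s hs => ?_⟩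
  have hs0 : s ≠ 0 := by
    rintro rfl
    rw [abs_zero] at hs
    linarith
  apply H θ s _ hm hs0
  rw [neg_neg]
  apply Real.log_le_log (by linarith)
  rcases le_abs.1 hs with h | h
  · have h1 : Real.exp δ ≤ Real.exp s := Real.exp_le_exp.2 h
    have h2 : Real.exp δ * Real.exp (-δ) = 1 := by rw [← Real.exp_add, add_neg_cancel, Real.exp_zero]
    have h3 : 2 ≤ Real.exp δ + Real.exp (-δ) := by
      nlinarith [sq_nonneg (Real.exp δ - Real.exp (-δ)), Real.exp_pos δ]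
    rw [abs_sub_comm]
    exact le_trans (by linarith) (le_abs_self _)
  · have h1 : Real.exp s ≤ Real.exp (-δ) := Real.exp_le_exp.2 (by linarith)
    exact le_trans (by linarith) (le_abs_self _)

lemma abs_kk_le (ρ : ℝ) : ∃ C > 0, ∀ θ ∈ Icc (0 : ℝ) Real.pi, ∀ s : ℝ, s ≠ 0 →
    |kk ρ θ s| ≤ C * (ph ρ s * (1 + |s| ^ (-(1 / 2) : ℝ))) := by
  obtain ⟨C, hC, H⟩ := kb_gen' ρ
  obtain ⟨C', hC', H'⟩ := abs_kk_le_far ρ one_pos
  refine ⟨C * (1 + 2 * (2 : ℝ) ^ (1 / 2 : ℝ)) + C', by positivity, fun θ hθ s hs => ?_⟩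
  have hph : 0 ≤ ph ρ s := by
    unfold ph
    have := kb_Phi ⌊ρ⌋₊ s
    positivity
  have hr : 0 ≤ |s| ^ (-(1 / 2) : ℝ) := Real.rpow_nonneg (abs_nonneg s) _
  have h2r : 0 ≤ (2 : ℝ) ^ (1 / 2 : ℝ) := Real.rpow_nonneg (by norm_num) _
  rcases le_or_gt 1 |s| with h1 | h1
  · refine (H' θ hθ s h1).trans ?_
    have k1 : C' * ph ρ s ≤ C' * (ph ρ s * (1 + |s| ^ (-(1 / 2) : ℝ))) := by
      apply mul_le_mul_of_nonneg_left _ hC'.le
      nlinarith
    have k2 : 0 ≤ C * (1 + 2 * (2 : ℝ) ^ (1 / 2 : ℝ)) * (ph ρ s * (1 + |s| ^ (-(1 / 2) : ℝ))) := by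
      positivity
    rw [add_mul]
    linarith
  · have hs0 : 0 < |s| := abs_pos.2 hs
    have hm0 : 0 ≤ 2 * ((2 : ℝ) ^ (1 / 2 : ℝ) * |s| ^ (-(1 / 2) : ℝ)) := by positivity
    have h2 : -(2 * ((2 : ℝ) ^ (1 / 2 : ℝ) * |s| ^ (-(1 / 2) : ℝ))) ≤
        Real.log |1 - Real.exp s| := by
      have h3 : |s| / 2 ≤ |1 - Real.exp s| := by
        rcases le_or_gt 0 s with h | h
        · rw [abs_of_nonneg h, abs_sub_comm]
          refine le_trans ?_ (le_abs_self _)
          have := Real.add_one_le_exp s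
          linarith
        · rw [abs_of_neg h] at h1 ⊢
          refine le_trans ?_ (le_abs_self _)
          have h4 : Real.exp s ≤ 1 + s / 2 := by
            have h5 := Real.add_one_le_exp (-s)
            have h6 : Real.exp s * Real.exp (-s) = 1 := by
              rw [← Real.exp_add, add_neg_cancel, Real.exp_zero]
            have h7 := Real.exp_pos s
            have h8 : Real.exp s * (1 - s) ≤ 1 := by nlinarith
            have h9 : 1 ≤ (1 + s / 2) * (1 - s) := by nlinarith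
            have h10 : 0 < 1 - s := by linarith
            by_contra hcon
            push Not at hcon
            nlinarith
          linarith
      have h4 : Real.log (|s| / 2) ≤ Real.log |1 - Real.exp s| :=
        Real.log_le_log (by positivity) h3
      have h5 : Real.log (2 / |s|) ≤ (2 / |s|) ^ (1 / 2 : ℝ) / (1 / 2) :=
        Real.log_le_rpow_div (by positivity) (by norm_num)
      have h6 : Real.log (|s| / 2) = -Real.log (2 / |s|) := by
        rw [← Real.log_inv, inv_div]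
      have h7 : (2 / |s|) ^ (1 / 2 : ℝ) = (2 : ℝ) ^ (1 / 2 : ℝ) * |s| ^ (-(1 / 2) : ℝ) := by
        rw [Real.div_rpow (by norm_num) hs0.le, Real.rpow_neg hs0.le, div_eq_mul_inv]
      rw [h7] at h5
      linarith
    refine (H θ s _ hm0 hs h2).trans ?_
    have k1 : C * (1 + 2 * ((2 : ℝ) ^ (1 / 2 : ℝ) * |s| ^ (-(1 / 2) : ℝ))) ≤
        C * ((1 + 2 * (2 : ℝ) ^ (1 / 2 : ℝ)) * (1 + |s| ^ (-(1 / 2) : ℝ))) := by
      apply mul_le_mul_of_nonneg_left _ hC.le
      nlinarith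
    have k2 := mul_le_mul_of_nonneg_right k1 hph
    have k3 : 0 ≤ C' * (ph ρ s * (1 + |s| ^ (-(1 / 2) : ℝ))) := by positivity
    have k4 : C * ((1 + 2 * (2 : ℝ) ^ (1 / 2 : ℝ)) * (1 + |s| ^ (-(1 / 2) : ℝ))) * ph ρ s =
        C * (1 + 2 * (2 : ℝ) ^ (1 / 2 : ℝ)) * (ph ρ s * (1 + |s| ^ (-(1 / 2) : ℝ))) := by ring
    rw [add_mul]
    linarith

end Helper25.Ind
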