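import Pool.Agent.Helper25.Ind2.KBound

/-!
# IND2 K3: integrability of the kernels and `L¹` continuity in the angle

PROOFS. The majorant is `C ph(s) (1 + |s|^{-1/2})` times `e^{-κ s}` or `e^{κ|s|}` (`abs_kk_le`, valid a.e.), integrable because
`e^{..} ph(s)` is continuous and integrable (`integrable_ph_exp`, `integrable_ph_abs`) and `|s|^{-1/2}` is integrable on `[-1,1]`
(`e^{..} ph` bounded there) and `≤ 1` outside `[-1,1]`. This is `integrable_majorant`. `tendsto_kk_L1`: dominated convergence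
(`tendsto_integral_filter_of_dominated_convergence` with `𝓝[Icc 0 π] θ₀`, countably generated), pointwise convergence for `s ≠ 0` by
`continuousOn_kk`; the limit of the integrand is `0`.
`integrable_kk_mul`: `|N y| ≤ B e^{κ|x-y|}` and `integrable_kk_abs` after the substitution `s = x - y`.
`loc_sup`: `|U N x - U M x| ≤ ∫ |kk(x-y)| ε e^{κ|x-y|} dy`, substitution, and the majorant uniform in `θ`.
`continuous_U`: `x ↦ ∫ kk(s) N(x - s) ds` is continuous by dominated convergence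
  (`|N(x-s)| ≤ B e^{κ(|x₀|+1)} e^{κ|s|}` for `|x-x₀| ≤ 1`).
`U_tendsto_theta`: `|U θ N x - U θ₀ N x| ≤ B ∫ |kk ρ θ s - kk ρ θ₀ s| e^{κ|s|} ds` if `|N y| ≤ B e^{κ|x-y|}`.
-/

open Complex Filter Topology MeasureTheory Set

namespace Helper25.Ind

private lemma integrableOn_abs_rpow :
    IntegrableOn (fun s : ℝ => |s| ^ (-(1 / 2) : ℝ)) (Icc (-1 : ℝ) 1) := by
  have h1 : IntervalIntegrable (fun s : ℝ => |s| ^ (-(1 / 2) : ℝ)) volume 0 1 := by
    have h := intervalIntegral.intervalIntegrable_rpow' (a := 0) (b := 1) (r := -(1 / 2))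
      (by norm_num)
    rw [intervalIntegrable_iff_integrableOn_Ioc_of_le zero_le_one] at h ⊢
    refine h.congr_fun (fun s hs => ?_) measurableSet_Ioc
    simp only [abs_of_pos hs.1]
  have h2 : IntervalIntegrable (fun s : ℝ => |s| ^ (-(1 / 2) : ℝ)) volume (-1) 0 := by
    have h := (IntervalIntegrable.iff_comp_neg (f := fun s : ℝ => |s| ^ (-(1 / 2) : ℝ))
      (a := 0) (b := 1)).1 h1
    simp only [abs_neg, neg_zero] at h
    exact h.symm
  have h3 := h2.trans h1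
  rwa [intervalIntegrable_iff_integrableOn_Icc_of_le (by norm_num)] at h3

private lemma integrable_mul_w {g : ℝ → ℝ} (hg : Continuous g) (hi : Integrable g) :
    Integrable (fun s : ℝ => g s * (1 + |s| ^ (-(1 / 2) : ℝ))) := by
  have hm : Measurable (fun s : ℝ => |s| ^ (-(1 / 2) : ℝ)) := by fun_prop
  have e : (fun s : ℝ => g s * (1 + |s| ^ (-(1 / 2) : ℝ)))
      = fun s => g s + g s * |s| ^ (-(1 / 2) : ℝ) := by
    funext s; ring
  rw [e]
  refine hi.add ?_
  rw [← integrableOn_univ, ← union_compl_self (Icc (-1 : ℝ) 1)]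
  refine IntegrableOn.union ?_ ?_
  · exact integrableOn_abs_rpow.continuousOn_mul hg.continuousOn isCompact_Icc
  · refine Integrable.mono' (g := fun s => |g s|) hi.abs.integrableOn
      (hg.measurable.mul hm).aestronglyMeasurable ?_
    filter_upwards [ae_restrict_mem (measurableSet_Icc.compl)] with s hs
    have h1 : 1 ≤ |s| := by
      by_contra hc
      push Not at hc
      exact hs ⟨(abs_lt.1 hc).1.le, (abs_lt.1 hc).2.le⟩
    have h2 : |s| ^ (-(1 / 2) : ℝ) ≤ 1 := Real.rpow_le_one_of_one_le_of_nonpos h1 (by norm_num)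
    have h3 : 0 ≤ |s| ^ (-(1 / 2) : ℝ) := Real.rpow_nonneg (abs_nonneg s) _
    rw [Real.norm_eq_abs, abs_mul, abs_of_nonneg h3]
    exact mul_le_of_le_one_right (abs_nonneg _) h2

lemma integrable_majorant {ρ κ : ℝ} (h1 : κ < km ρ) (h2 : κ < kp ρ) :
    Integrable (fun s : ℝ => Real.exp (κ * |s|) * (ph ρ s * (1 + |s| ^ (-(1 / 2) : ℝ)))) := by
  have hc : Continuous (fun s : ℝ => Real.exp (κ * |s|) * ph ρ s) := by
    have := continuous_ph ρ
    fun_prop
  have h := integrable_mul_w hc (integrable_ph_abs h1 h2)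
  refine h.congr (Eventually.of_forall fun s => ?_)
  simp only
  ring

lemma integrable_kk_exp {ρ κ θ : ℝ} (h1 : -(km ρ) < κ) (h2 : κ < kp ρ)
    (hθ : θ ∈ Icc (0 : ℝ) Real.pi) :
    Integrable (fun s : ℝ => Real.exp (-(κ * s)) * kk ρ θ s) := by
  obtain ⟨C, hC, hb⟩ := abs_kk_le ρ
  have hc : Continuous (fun s : ℝ => Real.exp (-(κ * s)) * ph ρ s) := by
    have := continuous_ph ρ
    fun_prop
  have h := (integrable_mul_w hc (integrable_ph_exp h1 h2)).const_mul C
  have hme : Measurable (fun s : ℝ => Real.exp (-(κ * s))) := by fun_prop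
  refine Integrable.mono' h (hme.mul (measurable_kk ρ θ)).aestronglyMeasurable ?_
  have h0 : ∀ᵐ s : ℝ, s ≠ 0 := by
    simp [ae_iff]
  filter_upwards [h0] with s hs
  rw [Real.norm_eq_abs, abs_mul, abs_of_pos (Real.exp_pos _)]
  have := mul_le_mul_of_nonneg_left (hb θ hθ s hs) (Real.exp_pos (-(κ * s))).le
  refine this.trans (le_of_eq ?_)
  ring

private lemma ae_ne_zero : ∀ᵐ s : ℝ, s ≠ 0 := by
  simp [ae_iff]

private lemma meas_exp_abs (κ : ℝ) : Measurable (fun s : ℝ => Real.exp (κ * |s|)) := by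
  fun_prop

lemma integrable_kk_abs {ρ κ θ : ℝ} (h1 : κ < km ρ) (h2 : κ < kp ρ)
    (hθ : θ ∈ Icc (0 : ℝ) Real.pi) :
    Integrable (fun s : ℝ => Real.exp (κ * |s|) * |kk ρ θ s|) := by
  obtain ⟨C, hC, hb⟩ := abs_kk_le ρ
  have h := (integrable_majorant h1 h2).const_mul C
  refine Integrable.mono' h
    ((meas_exp_abs κ).mul (measurable_kk ρ θ).norm).aestronglyMeasurable ?_
  filter_upwards [ae_ne_zero] with s hs
  rw [Real.norm_eq_abs, abs_mul, abs_of_pos (Real.exp_pos _), abs_abs]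
  have := mul_le_mul_of_nonneg_left (hb θ hθ s hs) (Real.exp_pos (κ * |s|)).le
  refine this.trans (le_of_eq ?_)
  ring

lemma integrable_kk {ρ θ : ℝ} (hρ : 0 < ρ) (hint : ¬ ∃ n : ℕ, ρ = n)
    (hθ : θ ∈ Icc (0 : ℝ) Real.pi) : Integrable (kk ρ θ) := by
  have h := integrable_kk_exp (ρ := ρ) (κ := 0) (θ := θ)
    (by linarith [km_pos hρ hint]) (kp_pos hρ.le) hθ
  simpa using h

lemma tendsto_kk_L1 {ρ κ θ₀ : ℝ} (h1 : κ < km ρ) (h2 : κ < kp ρ)
    (hθ : θ₀ ∈ Icc (0 : ℝ) Real.pi) :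
    Tendsto (fun θ => ∫ s : ℝ, Real.exp (κ * |s|) * |kk ρ θ s - kk ρ θ₀ s|)
      (𝓝[Icc (0 : ℝ) Real.pi] θ₀) (𝓝 0) := by
  obtain ⟨C, hC, hb⟩ := abs_kk_le ρ
  have hI := (integrable_majorant h1 h2).const_mul (2 * C)
  suffices key : Tendsto (fun θ => ∫ s : ℝ, Real.exp (κ * |s|) * |kk ρ θ s - kk ρ θ₀ s|)
      (𝓝[Icc (0 : ℝ) Real.pi] θ₀) (𝓝 (∫ _ : ℝ, (0 : ℝ))) by
    rwa [integral_zero] at key
  refine tendsto_integral_filter_of_dominated_convergence _ ?_ ?_ hI ?_
  · refine Eventually.of_forall fun θ => ?_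
    exact ((meas_exp_abs κ).mul
      ((measurable_kk ρ θ).sub (measurable_kk ρ θ₀)).norm).aestronglyMeasurable
  · filter_upwards [self_mem_nhdsWithin] with θ hθ'
    filter_upwards [ae_ne_zero] with s hs
    rw [Real.norm_eq_abs, abs_mul, abs_of_pos (Real.exp_pos _), abs_abs]
    have ha : |kk ρ θ s - kk ρ θ₀ s| ≤ 2 * (C * (ph ρ s * (1 + |s| ^ (-(1 / 2) : ℝ)))) := by
      have := abs_sub (kk ρ θ s) (kk ρ θ₀ s)
      have := hb θ hθ' s hs
      have := hb θ₀ hθ s hs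
      linarith
    have := mul_le_mul_of_nonneg_left ha (Real.exp_pos (κ * |s|)).le
    refine this.trans (le_of_eq ?_)
    ring
  · filter_upwards [ae_ne_zero] with s hs
    have hco : ContinuousWithinAt (fun θ => kk ρ θ s) (Icc (0 : ℝ) Real.pi) θ₀ := by
      have h := continuousOn_kk ρ (θ₀, s) ⟨hθ, Or.inr hs⟩
      have hm : MapsTo (fun θ : ℝ => (θ, s)) (Icc (0 : ℝ) Real.pi)
          {q : ℝ × ℝ | q.1 ∈ Icc (0 : ℝ) Real.pi ∧ (q.1 < Real.pi ∨ q.2 ≠ 0)} :=
        fun θ hθ' => ⟨hθ', Or.inr hs⟩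
      have hf : ContinuousWithinAt (fun θ : ℝ => (θ, s)) (Icc (0 : ℝ) Real.pi) θ₀ := by
        fun_prop
      exact ContinuousWithinAt.comp (g := fun q : ℝ × ℝ => kk ρ q.1 q.2)
        (f := fun θ : ℝ => (θ, s)) h hf hm
    have ht : Tendsto (fun θ => kk ρ θ s - kk ρ θ₀ s) (𝓝[Icc (0 : ℝ) Real.pi] θ₀) (𝓝 0) := by
      have := hco.tendsto.sub_const (kk ρ θ₀ s)
      simpa using this
    have := (ht.abs).const_mul (Real.exp (κ * |s|))
    simpa using this

lemma integrable_kk_mul {ρ κ θ x B : ℝ} (h1 : κ < km ρ) (h2 : κ < kp ρ)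
    (hθ : θ ∈ Icc (0 : ℝ) Real.pi) {N : ℝ → ℝ} (hN : Measurable N)
    (hB : ∀ y, |N y| ≤ B * Real.exp (κ * |x - y|)) :
    Integrable (fun y : ℝ => kk ρ θ (x - y) * N y) := by
  have hI := ((integrable_kk_abs h1 h2 hθ).comp_sub_left x).const_mul B
  have hm : Measurable (fun y : ℝ => kk ρ θ (x - y)) :=
    (measurable_kk ρ θ).comp (measurable_const.sub measurable_id)
  refine Integrable.mono' hI (hm.mul hN).aestronglyMeasurable (Eventually.of_forall fun y => ?_)
  rw [Real.norm_eq_abs, abs_mul]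
  have := mul_le_mul_of_nonneg_left (hB y) (abs_nonneg (kk ρ θ (x - y)))
  refine this.trans (le_of_eq ?_)
  ring

private lemma abs_U_sub_le {ρ κ θ x ε : ℝ} (h1 : κ < km ρ) (h2 : κ < kp ρ)
    (hθ : θ ∈ Icc (0 : ℝ) Real.pi) {N : ℝ → ℝ}
    (hε : ∀ y, |N y| ≤ ε * Real.exp (κ * |x - y|)) :
    |∫ y : ℝ, kk ρ θ (x - y) * N y| ≤ ε * ∫ s : ℝ, Real.exp (κ * |s|) * |kk ρ θ s| := by
  have hI := ((integrable_kk_abs h1 h2 hθ).comp_sub_left x).const_mul ε
  have h3 : |∫ y : ℝ, kk ρ θ (x - y) * N y|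
      ≤ ∫ y : ℝ, ε * (Real.exp (κ * |x - y|) * |kk ρ θ (x - y)|) := by
    rw [← Real.norm_eq_abs]
    refine norm_integral_le_of_norm_le hI (Eventually.of_forall fun y => ?_)
    rw [Real.norm_eq_abs, abs_mul]
    have := mul_le_mul_of_nonneg_left (hε y) (abs_nonneg (kk ρ θ (x - y)))
    refine this.trans (le_of_eq ?_)
    ring
  refine h3.trans (le_of_eq ?_)
  rw [integral_const_mul]
  congr 1
  exact integral_sub_left_eq_self (fun s : ℝ => Real.exp (κ * |s|) * |kk ρ θ s|) volume x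

/-- localisation -/
lemma loc_sup {ρ κ : ℝ} (h1 : κ < km ρ) (h2 : κ < kp ρ) :
    ∃ C > 0, ∀ θ ∈ Icc (0 : ℝ) Real.pi, ∀ N M : ℝ → ℝ, Measurable N → Measurable M →
      ∀ x B ε : ℝ, 0 ≤ ε → (∀ y, |N y| ≤ B * Real.exp (κ * |x - y|)) →
      (∀ y, |M y| ≤ B * Real.exp (κ * |x - y|)) →
      (∀ y, |N y - M y| ≤ ε * Real.exp (κ * |x - y|)) →
      |U ρ θ N x - U ρ θ M x| ≤ C * ε := by
  obtain ⟨C, hC, hb⟩ := abs_kk_le ρ
  have hI := (integrable_majorant h1 h2).const_mul C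
  set J : ℝ := ∫ s : ℝ, C * (Real.exp (κ * |s|) * (ph ρ s * (1 + |s| ^ (-(1 / 2) : ℝ)))) with hJ
  have hJ0 : 0 ≤ J := by
    refine integral_nonneg fun s => ?_
    have := ph_pos ρ s
    have := Real.rpow_nonneg (abs_nonneg s) (-(1 / 2) : ℝ)
    positivity
  refine ⟨J + 1, by linarith, ?_⟩
  intro θ hθ N M hN hM x B ε hε hNB hMB hNM
  have hi1 := integrable_kk_mul h1 h2 hθ hN hNB
  have hi2 := integrable_kk_mul h1 h2 hθ hM hMB
  have e : U ρ θ N x - U ρ θ M x = ∫ y : ℝ, kk ρ θ (x - y) * (N y - M y) := by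
    unfold U
    rw [← integral_sub hi1 hi2]
    congr 1
    funext y
    ring
  rw [e]
  refine (abs_U_sub_le h1 h2 hθ hNM).trans ?_
  have hle : ∫ s : ℝ, Real.exp (κ * |s|) * |kk ρ θ s| ≤ J := by
    refine integral_mono_ae (integrable_kk_abs h1 h2 hθ) hI ?_
    filter_upwards [ae_ne_zero] with s hs
    have := mul_le_mul_of_nonneg_left (hb θ hθ s hs) (Real.exp_pos (κ * |s|)).le
    refine this.trans (le_of_eq ?_)
    ring
  calc ε * ∫ s : ℝ, Real.exp (κ * |s|) * |kk ρ θ s| ≤ ε * J :=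
        mul_le_mul_of_nonneg_left hle hε
    _ ≤ (J + 1) * ε := by nlinarith

lemma continuous_U {ρ κ θ B : ℝ} (hκ : 0 ≤ κ) (h1 : κ < km ρ) (h2 : κ < kp ρ)
    (hθ : θ ∈ Icc (0 : ℝ) Real.pi) {N : ℝ → ℝ} (hN : Continuous N)
    (hB : ∀ y, |N y| ≤ B * Real.exp (κ * |y|)) : Continuous (U ρ θ N) := by
  have hB0 : 0 ≤ B := by
    have h := (abs_nonneg _).trans (hB 0)
    simpa using h
  have e : U ρ θ N = fun x => ∫ s : ℝ, kk ρ θ s * N (x - s) := by
    funext x
    unfold U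
    have := integral_sub_left_eq_self (fun s : ℝ => kk ρ θ s * N (x - s)) volume x
    simp only [sub_sub_cancel] at this
    exact this
  rw [e, continuous_iff_continuousAt]
  intro x₀
  have hI := (integrable_kk_abs h1 h2 hθ).const_mul (B * Real.exp (κ * (|x₀| + 1)))
  refine continuousAt_of_dominated (bound := fun s =>
    B * Real.exp (κ * (|x₀| + 1)) * (Real.exp (κ * |s|) * |kk ρ θ s|)) ?_ ?_ hI ?_
  · refine Eventually.of_forall fun x => ?_
    have hm : Measurable (fun s : ℝ => N (x - s)) :=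
      hN.measurable.comp (measurable_const.sub measurable_id)
    exact ((measurable_kk ρ θ).mul hm).aestronglyMeasurable
  · have hball : ∀ᶠ x in 𝓝 x₀, |x - x₀| < 1 := by
      have := Metric.ball_mem_nhds x₀ (zero_lt_one' ℝ)
      filter_upwards [this] with x hx
      rwa [Metric.mem_ball, Real.dist_eq] at hx
    filter_upwards [hball] with x hx
    refine Eventually.of_forall fun s => ?_
    rw [Real.norm_eq_abs, abs_mul]
    have h3 : |x - s| ≤ (|x₀| + 1) + |s| := by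
      have ha : |x - s| ≤ |x| + |s| := abs_sub x s
      have hb : |x| ≤ |x₀| + |x - x₀| := by
        have := abs_add_le x₀ (x - x₀)
        simpa using this
      linarith
    have h4 : |N (x - s)| ≤ B * (Real.exp (κ * (|x₀| + 1)) * Real.exp (κ * |s|)) := by
      refine (hB (x - s)).trans ?_
      refine mul_le_mul_of_nonneg_left ?_ hB0
      rw [← Real.exp_add]
      refine Real.exp_le_exp.2 ?_
      rw [← mul_add]
      exact mul_le_mul_of_nonneg_left h3 hκ
    have := mul_le_mul_of_nonneg_left h4 (abs_nonneg (kk ρ θ s))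
    refine this.trans (le_of_eq ?_)
    ring
  · refine Eventually.of_forall fun s => ?_
    have : Continuous (fun x : ℝ => kk ρ θ s * N (x - s)) := by fun_prop
    exact this.continuousAt

lemma U_tendsto_theta {ρ κ θ₀ x B : ℝ} (h1 : κ < km ρ) (h2 : κ < kp ρ)
    (hθ : θ₀ ∈ Icc (0 : ℝ) Real.pi) {N : ℝ → ℝ} (hN : Measurable N)
    (hB : ∀ y, |N y| ≤ B * Real.exp (κ * |x - y|)) :
    Tendsto (fun θ => U ρ θ N x) (𝓝[Icc (0 : ℝ) Real.pi] θ₀) (𝓝 (U ρ θ₀ N x)) := by
  rw [tendsto_iff_norm_sub_tendsto_zero]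
  have ht := (tendsto_kk_L1 h1 h2 hθ).const_mul B
  rw [mul_zero] at ht
  refine squeeze_zero' (Eventually.of_forall fun θ => norm_nonneg _) ?_ ht
  filter_upwards [self_mem_nhdsWithin] with θ hθ'
  have hi1 := integrable_kk_mul h1 h2 hθ' hN hB
  have hi2 := integrable_kk_mul h1 h2 hθ hN hB
  have hd : Integrable (fun s : ℝ => Real.exp (κ * |s|) * |kk ρ θ s - kk ρ θ₀ s|) := by
    refine Integrable.mono' ((integrable_kk_abs h1 h2 hθ').add (integrable_kk_abs h1 h2 hθ))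
      ((meas_exp_abs κ).mul
        ((measurable_kk ρ θ).sub (measurable_kk ρ θ₀)).norm).aestronglyMeasurable
      (Eventually.of_forall fun s => ?_)
    rw [Real.norm_eq_abs, abs_mul, abs_of_pos (Real.exp_pos _), abs_abs]
    have := mul_le_mul_of_nonneg_left (abs_sub (kk ρ θ s) (kk ρ θ₀ s))
      (Real.exp_pos (κ * |s|)).le
    refine this.trans (le_of_eq ?_)
    simp only [Pi.add_apply]
    ring
  have e : U ρ θ N x - U ρ θ₀ N x = ∫ y : ℝ, (kk ρ θ (x - y) - kk ρ θ₀ (x - y)) * N y := by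
    unfold U
    rw [← integral_sub hi1 hi2]
    congr 1
    funext y
    ring
  rw [e]
  have hI := (hd.comp_sub_left x).const_mul B
  have h3 : ‖∫ y : ℝ, (kk ρ θ (x - y) - kk ρ θ₀ (x - y)) * N y‖
      ≤ ∫ y : ℝ, B * (Real.exp (κ * |x - y|) * |kk ρ θ (x - y) - kk ρ θ₀ (x - y)|) := by
    refine norm_integral_le_of_norm_le hI (Eventually.of_forall fun y => ?_)
    rw [Real.norm_eq_abs, abs_mul]
    have := mul_le_mul_of_nonneg_left (hB y) (abs_nonneg (kk ρ θ (x - y) - kk ρ θ₀ (x - y)))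
    refine this.trans (le_of_eq ?_)
    ring
  refine h3.trans (le_of_eq ?_)
  rw [integral_const_mul]
  congr 1
  exact integral_sub_left_eq_self
    (fun s : ℝ => Real.exp (κ * |s|) * |kk ρ θ s - kk ρ θ₀ s|) volume x

end Helper25.Ind
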