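import Pool.Agent.Helper25.Ind2.Mellin

/-!
# IND2 B2: uniqueness of two sided Laplace transforms, and an explicit kernel

PROOFS.
* `ae_eq_of_laplace`: let `d = f - g`. The measures `ν± = volume.withDensity (ofReal d±)` (`d+ = max d 0`, `d- = max (-d) 0`) are finite and `∫ e^{κs} dν+ = ∫ e^{κs} dν-` for `|κ| < κ₀`. Both complex moment generating functions are analytic in `|Re z| < κ₀` (`analyticOnNhd_complexMGF`, the interval lies in the interior of `integrableExpSet id ν±`), they agree on the real interval, hence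
  in the strip (identity theorem, `AnalyticOnNhd.eqOn_of_preconnected_of_frequently_eq`), in particular on the imaginary axis: the characteristic functions agree, `Measure.ext_of_charFun` gives `ν+ = ν-`, so `d+ = d-` a.e., `d = 0` a.e.
* `PK α β x = sin(πα/β) / (2β (cosh(πx/β) + cos(πα/β)))`, `0 < α < β`. Positive, continuous, `≤ C e^{-π|x|/β}`.
* `laplace_PK`: with `u = πx/β`, `a = πα/β ∈ (0,π)`, `σ = κβ/π ∈ (-1,1)`, it is `(sin a/(2π)) ∫ e^{σu}/(cosh u + cos a) du`. Put `I(q) = ∫ e^{-qs} e^s/(1 + 2e^s cos a + e^{2s}) ds = (1/2) ∫ e^{-qs}/(cosh s + cos a) ds` (even in `q`). Claim: `I(q) = π sin(qa)/(sin a sin(πq))` for `0 < |q| < 1`. PROOF (one of several):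
  `∫ e^{-qs} (e^{2s} + e^s cos a)/(1+2e^s cos a+e^{2s}) ds = J(q) = π cos(qa)/sin(πq)` for `0<q<1` (this is `Re ∫ e^{-qs} e^{s+ia}/(1+e^{s+ia}) ds`; it follows from `integral_kk_exp`-type computations: `∫ e^{-qs} log|1+e^{s+ia}| ds = π cos(qa)/(q sin πq)` is `integral_kk` of `Mellin.lean` for `ρ = q`, `p = 0`, and integration by parts with
  `hasDerivAt_KK`; you may import `Pool.Agent.Helper25.Ind2.Mellin`). Since `J(q) = I(1-q) + cos a I(q)` and `J(1-q) = I(q) + cos a I(1-q)`, `sin^2 a I(q) = J(1-q) - cos a J(q) = (π/sin πq)(cos((1-q)a) - cos a cos(qa)) = π sin a sin(qa)/sin πq`.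
  So `∫ e^{κx} PK dx = (sin a/π) I(σ) = sin(σa)/sin(πσ) = sin(κα)/sin(κβ)` for `κ ≠ 0`. For `κ = 0`: `∫ PK = α/β` by continuity (dominated convergence, `κ → 0`).
-/

open Filter Topology MeasureTheory Set

namespace Helper25.Ind

theorem ae_eq_of_laplace {f g : ℝ → ℝ} {κ₀ : ℝ} (hκ : 0 < κ₀)
    (hf : ∀ κ : ℝ, |κ| < κ₀ → Integrable (fun s => Real.exp (κ * s) * f s))
    (hg : ∀ κ : ℝ, |κ| < κ₀ → Integrable (fun s => Real.exp (κ * s) * g s))
    (h : ∀ κ : ℝ, |κ| < κ₀ → ∫ s, Real.exp (κ * s) * f s = ∫ s, Real.exp (κ * s) * g s) :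
    f =ᵐ[volume] g := by
  obtain ⟨d, hd⟩ : ∃ d : ℝ → ℝ, ∀ s, d s = f s - g s := ⟨_, fun _ => rfl⟩
  have hdi : ∀ κ : ℝ, |κ| < κ₀ → Integrable (fun s => Real.exp (κ * s) * d s) := fun κ hk => by
    have := (hf κ hk).sub (hg κ hk)
    refine this.congr (Eventually.of_forall fun s => ?_)
    simp only [Pi.sub_apply, hd]
    ring
  have hd0 : ∀ κ : ℝ, |κ| < κ₀ → ∫ s, Real.exp (κ * s) * d s = 0 := fun κ hk => by
    have h1 := integral_sub (hf κ hk) (hg κ hk)
    rw [h κ hk, sub_self] at h1
    rw [← h1]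
    refine integral_congr_ae (Eventually.of_forall fun s => ?_)
    simp only [hd]
    ring
  have hd1 : Integrable d := by
    have := hdi 0 (by simpa using hκ)
    simpa using this
  -- a general statement about the positive part
  have main : ∀ e : ℝ → ℝ, Integrable e → (∀ κ : ℝ, |κ| < κ₀ →
      Integrable (fun s => Real.exp (κ * s) * e s)) → ∀ κ : ℝ, |κ| < κ₀ →
      Integrable (fun s => Real.exp (κ * s))
        (volume.withDensity fun s => ENNReal.ofReal (e s)) ∧
      ∫ s, Real.exp (κ * s) ∂(volume.withDensity fun s => ENNReal.ofReal (e s)) =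
        ∫ s, max (Real.exp (κ * s) * e s) 0 := by
    intro e he hei κ hk
    have hm : AEMeasurable (fun s => ENNReal.ofReal (e s)) volume := he.aemeasurable.ennreal_ofReal
    have hfin : ∀ᵐ s ∂volume, ENNReal.ofReal (e s) < ⊤ :=
      Eventually.of_forall fun s => ENNReal.ofReal_lt_top
    have hpt : ∀ s, (ENNReal.ofReal (e s)).toReal • Real.exp (κ * s) =
        max (Real.exp (κ * s) * e s) 0 := by
      intro s
      rw [ENNReal.toReal_ofReal', smul_eq_mul, mul_comm, mul_max_of_nonneg _ _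
        (Real.exp_pos _).le, mul_zero]
    constructor
    · rw [integrable_withDensity_iff_integrable_smul₀' hm hfin]
      simp only [hpt]
      exact (hei κ hk).pos_part
    · rw [integral_withDensity_eq_integral_toReal_smul₀ hm hfin]
      simp only [hpt]
  have m1 := main d hd1 hdi
  have m2 := main (fun s => -d s) hd1.neg (fun κ hk => by
    refine (hdi κ hk).neg.congr (Eventually.of_forall fun s => ?_)
    simp only [Pi.neg_apply]
    ring)
  obtain ⟨ν₁, hν₁⟩ : ∃ ν₁ : Measure ℝ, ν₁ = volume.withDensity fun s => ENNReal.ofReal (d s) :=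
    ⟨_, rfl⟩
  obtain ⟨ν₂, hν₂⟩ : ∃ ν₂ : Measure ℝ, ν₂ = volume.withDensity fun s => ENNReal.ofReal (-d s) :=
    ⟨_, rfl⟩
  rw [← hν₁] at m1
  rw [← hν₂] at m2
  have : IsFiniteMeasure ν₁ := by
    rw [hν₁]
    exact isFiniteMeasure_withDensity_ofReal hd1.2
  have : IsFiniteMeasure ν₂ := by
    rw [hν₂]
    exact isFiniteMeasure_withDensity_ofReal hd1.neg.2
  have heq : ∀ κ : ℝ, |κ| < κ₀ → ∫ s, Real.exp (κ * s) ∂ν₁ = ∫ s, Real.exp (κ * s) ∂ν₂ := by
    intro κ hk
    rw [(m1 κ hk).2, (m2 κ hk).2]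
    have hi1 := (hdi κ hk).pos_part
    have hi2 : Integrable (fun s => max (Real.exp (κ * s) * -d s) 0) := by
      have h1 := (hdi κ hk).neg.pos_part
      refine h1.congr (Eventually.of_forall fun s => ?_)
      simp only [Pi.neg_apply, mul_neg]
    have hz := hd0 κ hk
    rw [← sub_eq_zero, ← integral_sub hi1 hi2]
    refine Eq.trans ?_ hz
    refine integral_congr_ae (Eventually.of_forall fun s => ?_)
    change max (Real.exp (κ * s) * d s) 0 - max (Real.exp (κ * s) * -d s) 0 =
      Real.exp (κ * s) * d s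
    rw [mul_neg]
    rcases le_total 0 (Real.exp (κ * s) * d s) with h3 | h3
    · rw [max_eq_left h3, max_eq_right (by linarith), sub_zero]
    · rw [max_eq_right h3, max_eq_left (by linarith)]
      ring
  -- the strip
  obtain ⟨S, hS⟩ : ∃ S : Set ℂ, S = {z | |z.re| < κ₀} := ⟨_, rfl⟩
  have hsub : ∀ ν : Measure ℝ, (∀ κ : ℝ, |κ| < κ₀ → Integrable (fun s => Real.exp (κ * s)) ν) →
      AnalyticOnNhd ℂ (ProbabilityTheory.complexMGF id ν) S := by
    intro ν hν
    refine ProbabilityTheory.analyticOnNhd_complexMGF.mono ?_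
    intro z hz
    rw [hS] at hz
    have hz' : |z.re| < κ₀ := hz
    change z.re ∈ interior (ProbabilityTheory.integrableExpSet id ν)
    rw [mem_interior]
    refine ⟨Ioo (-κ₀) κ₀, ?_, isOpen_Ioo, abs_lt.1 hz'⟩
    intro κ hk
    exact hν κ (abs_lt.2 hk)
  have a1 := hsub ν₁ fun κ hk => (m1 κ hk).1
  have a2 := hsub ν₂ fun κ hk => (m2 κ hk).1
  have hSc : IsPreconnected S := by
    have hconv : Convex ℝ S := by
      have : S = Complex.re ⁻¹' (Set.Ioo (-κ₀) κ₀) := by
        ext z
        simp [hS, abs_lt]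
      rw [this]
      exact (convex_Ioo _ _).is_linear_preimage ⟨fun _ _ => Complex.add_re _ _, fun c z => by simp⟩
    exact hconv.isPreconnected
  have h00 : (0 : ℂ) ∈ S := by simp [hS, hκ]
  have hfreq : ∃ᶠ z in 𝓝[≠] (0 : ℂ), ProbabilityTheory.complexMGF id ν₁ z =
      ProbabilityTheory.complexMGF id ν₂ z := by
    have ht : Tendsto (fun t : ℝ => (t : ℂ)) (𝓝[≠] 0) (𝓝[≠] 0) := by
      refine tendsto_nhdsWithin_iff.2 ⟨?_, ?_⟩
      · have : Tendsto (fun t : ℝ => (t : ℂ)) (𝓝 0) (𝓝 ((0 : ℝ) : ℂ)) :=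
          Complex.continuous_ofReal.tendsto 0
        rw [Complex.ofReal_zero] at this
        exact this.mono_left nhdsWithin_le_nhds
      · filter_upwards [self_mem_nhdsWithin] with t ht
        simpa using ht
    refine ht.frequently (Eventually.frequently ?_)
    have hev : ∀ᶠ t : ℝ in 𝓝[≠] 0, |t| < κ₀ := by
      have : ∀ᶠ t : ℝ in 𝓝 0, |t| < κ₀ := by
        have hc : Continuous fun t : ℝ => |t| := continuous_abs
        exact hc.continuousAt.eventually_lt continuousAt_const (by simpa using hκ)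
      exact this.filter_mono nhdsWithin_le_nhds
    filter_upwards [hev] with t ht
    rw [ProbabilityTheory.complexMGF_ofReal, ProbabilityTheory.complexMGF_ofReal]
    congr 1
    exact heq t ht
  have hEq := a1.eqOn_of_preconnected_of_frequently_eq a2 hSc h00 hfreq
  have hν : ν₁ = ν₂ := by
    refine Measure.ext_of_charFun (funext fun t => ?_)
    rw [← ProbabilityTheory.complexMGF_id_mul_I, ← ProbabilityTheory.complexMGF_id_mul_I]
    refine hEq ?_
    simp [hS, hκ]
  rw [hν₁, hν₂] at hν
  have hm1 : AEMeasurable (fun s => ENNReal.ofReal (d s)) volume := hd1.aemeasurable.ennreal_ofReal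
  have hm2 : AEMeasurable (fun s => ENNReal.ofReal (-d s)) volume :=
    hd1.neg.aemeasurable.ennreal_ofReal
  have hae := (withDensity_eq_iff_of_sigmaFinite hm1 hm2).1 hν
  filter_upwards [hae] with s hs
  have hds : d s = 0 := by
    rcases lt_trichotomy (d s) 0 with h1 | h1 | h1
    · rw [ENNReal.ofReal_of_nonpos h1.le] at hs
      have := (ENNReal.ofReal_eq_zero.1 hs.symm)
      linarith
    · exact h1
    · rw [ENNReal.ofReal_of_nonpos (by linarith : -d s ≤ 0)] at hs
      have := (ENNReal.ofReal_eq_zero.1 hs)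
      linarith
  rw [hd] at hds
  linarith

/-- explicit kernel with Laplace transform `sin κα / sin κβ` -/
noncomputable def PK (α β x : ℝ) : ℝ :=
  Real.sin (Real.pi * α / β) / (2 * β * (Real.cosh (Real.pi * x / β) +
    Real.cos (Real.pi * α / β)))

private lemma pk_a {α β : ℝ} (h0 : 0 < α) (h1 : α < β) :
    0 < Real.pi * α / β ∧ Real.pi * α / β < Real.pi := by
  have hβ : 0 < β := h0.trans h1
  refine ⟨by have := Real.pi_pos; positivity, ?_⟩
  rw [div_lt_iff₀ hβ]
  exact mul_lt_mul_of_pos_left h1 Real.pi_pos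

private lemma pk_cos {a : ℝ} (h0 : 0 < a) (h1 : a < Real.pi) : -1 < Real.cos a := by
  have := Real.cos_lt_cos_of_nonneg_of_le_pi h0.le le_rfl h1
  rwa [Real.cos_pi] at this

private lemma pk_den {a : ℝ} (h0 : 0 < a) (h1 : a < Real.pi) (u : ℝ) :
    0 < Real.cosh u + Real.cos a := by
  have h2 := pk_cos h0 h1
  have h3 := Real.one_le_cosh u
  linarith

lemma PK_pos {α β : ℝ} (h0 : 0 < α) (h1 : α < β) (x : ℝ) : 0 < PK α β x := by
  obtain ⟨ha, ha'⟩ := pk_a h0 h1
  have hβ : 0 < β := h0.trans h1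
  exact div_pos (Real.sin_pos_of_pos_of_lt_pi ha ha')
    (mul_pos (by linarith) (pk_den ha ha' _))

lemma continuous_PK {α β : ℝ} (h0 : 0 < α) (h1 : α < β) : Continuous (PK α β) := by
  obtain ⟨ha, ha'⟩ := pk_a h0 h1
  have hβ : 0 < β := h0.trans h1
  have hc : Continuous fun x : ℝ => Real.cosh (Real.pi * x / β) :=
    Real.continuous_cosh.comp (by fun_prop)
  unfold PK
  refine continuous_const.div (by fun_prop) fun x => ?_
  exact (mul_pos (by linarith) (pk_den ha ha' _)).ne'

lemma PK_le {α β : ℝ} (h0 : 0 < α) (h1 : α < β) :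
    ∃ C > 0, ∀ x, PK α β x ≤ C * Real.exp (-(Real.pi / β * |x|)) := by
  obtain ⟨ha, ha'⟩ := pk_a h0 h1
  have hβ : 0 < β := h0.trans h1
  obtain ⟨a, hadef⟩ : ∃ a, a = Real.pi * α / β := ⟨_, rfl⟩
  rw [← hadef] at ha ha'
  have hs : 0 < Real.sin a := Real.sin_pos_of_pos_of_lt_pi ha ha'
  obtain ⟨c, hc0, hc1, hc2⟩ : ∃ c : ℝ, 0 < c ∧ c ≤ 1 ∧ c ≤ 1 + Real.cos a :=
    ⟨min 1 (1 + Real.cos a), lt_min one_pos (by linarith [pk_cos ha ha']), min_le_left _ _,
      min_le_right _ _⟩
  refine ⟨Real.sin a / (β * c), by positivity, fun x => ?_⟩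
  unfold PK
  rw [← hadef]
  obtain ⟨u, hu⟩ : ∃ u, u = Real.pi * x / β := ⟨_, rfl⟩
  have hu' : Real.pi / β * |x| = |u| := by
    rw [hu, abs_div, abs_mul, abs_of_pos Real.pi_pos, abs_of_pos hβ]
    ring
  rw [← hu, hu']
  have hcosh : Real.exp |u| ≤ 2 * Real.cosh u := by
    rw [← Real.cosh_abs u, Real.cosh_eq]
    have := Real.exp_pos (-|u|)
    linarith
  have h3 : c * Real.cosh u ≤ Real.cosh u + Real.cos a := by
    have h4 := Real.one_le_cosh u
    rcases le_total 0 (Real.cos a) with h5 | h5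
    · nlinarith
    · nlinarith
  have h6 : c * Real.exp |u| ≤ 2 * (Real.cosh u + Real.cos a) := by nlinarith
  rw [Real.exp_neg]
  have he : 0 < Real.exp |u| := Real.exp_pos _
  have hden := pk_den ha ha' u
  rw [← div_eq_mul_inv, div_div, div_le_div_iff_of_pos_left hs (by positivity) (by positivity)]
  calc β * c * Real.exp |u| = β * (c * Real.exp |u|) := by ring
    _ ≤ β * (2 * (Real.cosh u + Real.cos a)) := mul_le_mul_of_nonneg_left h6 hβ.le
    _ = 2 * β * (Real.cosh u + Real.cos a) := by ring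

/-- the basic integral -/
private lemma pk_base {a q : ℝ} (h0 : 0 < a) (h1 : a < Real.pi) (hq : q ≠ 0) (hq1 : |q| < 1) :
    Integrable (fun u => Real.exp (q * u) * (Real.sin a / (2 * (Real.cosh u + Real.cos a)))) ∧
    ∫ u, Real.exp (q * u) * (Real.sin a / (2 * (Real.cosh u + Real.cos a))) =
      Real.pi * (Real.sin (q * a) / Real.sin (Real.pi * q)) := by
  -- positive exponents
  have pos : ∀ q : ℝ, 0 < q → q < 1 →
      Integrable (fun u => Real.exp (q * u) * (Real.sin a / (2 * (Real.cosh u + Real.cos a)))) ∧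
      ∫ u, Real.exp (q * u) * (Real.sin a / (2 * (Real.cosh u + Real.cos a))) =
        Real.pi * (Real.sin (q * a) / Real.sin (Real.pi * q)) := by
    intro q hq0 hq1
    have him : ((a : ℂ) * Complex.I).im = a := by simp
    obtain ⟨hi, hv⟩ := mellin_cexp hq0 hq1 (ζ := (a : ℂ) * Complex.I)
      (by rw [him, abs_of_pos h0]; exact h1)
    have hpt : ∀ u : ℝ, (Complex.exp (q * u) / (1 + Complex.exp (u + a * Complex.I))).im =
        -(Real.exp (q * u) * (Real.sin a / (2 * (Real.cosh u + Real.cos a)))) := by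
      intro u
      have e1 : Complex.exp ((q : ℂ) * u) = (Real.exp (q * u) : ℝ) := by push_cast; rfl
      have e2 : Complex.exp ((u : ℂ) + a * Complex.I) =
          ((Real.exp u * Real.cos a : ℝ) : ℂ) + ((Real.exp u * Real.sin a : ℝ) : ℂ) * Complex.I := by
        rw [Complex.exp_add, Complex.exp_mul_I]
        push_cast
        ring
      rw [e1, Complex.div_im, e2]
      have hr : ∀ x y : ℝ, (1 + ((x : ℂ) + (y : ℂ) * Complex.I)).re = 1 + x := by
        intro x y
        simp
      have hm : ∀ x y : ℝ, (1 + ((x : ℂ) + (y : ℂ) * Complex.I)).im = y := by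
        intro x y
        simp
      rw [Complex.normSq_apply, hr, hm, Complex.ofReal_re, Complex.ofReal_im]
      have hN : (1 + Real.exp u * Real.cos a) * (1 + Real.exp u * Real.cos a) +
          Real.exp u * Real.sin a * (Real.exp u * Real.sin a) =
          Real.exp u * (2 * (Real.cosh u + Real.cos a)) := by
        rw [Real.cosh_eq]
        have h3 := Real.sin_sq_add_cos_sq a
        have h4 : Real.exp u * Real.exp (-u) = 1 := by rw [← Real.exp_add, add_neg_cancel,
          Real.exp_zero]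
        linear_combination Real.exp u ^ 2 * h3 - h4
      rw [hN]
      have hden := pk_den h0 h1 u
      have hex := Real.exp_pos u
      field_simp
      ring
    have hi2 : Integrable (fun u : ℝ => (Complex.exp (q * u) /
        (1 + Complex.exp (u + a * Complex.I))).im) := hi.im
    simp only [hpt] at hi2
    refine ⟨by simpa using hi2.neg, ?_⟩
    have h5 := congrArg Complex.im hv
    have h6 : (∫ s : ℝ, Complex.exp (q * s) / (1 + Complex.exp (s + a * Complex.I))).im =
        ∫ s : ℝ, (Complex.exp (q * s) / (1 + Complex.exp (s + a * Complex.I))).im :=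
      (integral_im hi).symm
    rw [h6] at h5
    simp only [hpt] at h5
    rw [integral_neg] at h5
    have h7 : (Complex.exp (-((q : ℂ) * (a * Complex.I))) *
        ((Real.pi / Real.sin (Real.pi * q) : ℝ) : ℂ)).im =
        -(Real.sin (q * a) * (Real.pi / Real.sin (Real.pi * q))) := by
      have e3 : -((q : ℂ) * (a * Complex.I)) = ((-(q * a) : ℝ) : ℂ) * Complex.I := by
        push_cast
        ring
      rw [e3, Complex.im_mul_ofReal, Complex.exp_ofReal_mul_I_im, Real.sin_neg]
      ring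
    rw [h7] at h5
    rw [neg_injective h5]
    ring
  rcases lt_or_gt_of_ne hq with h2 | h2
  · obtain ⟨hi, hv⟩ := pos (-q) (by linarith) (by linarith [neg_le_abs q])
    have hpt : ∀ u : ℝ, Real.exp (-q * -u) * (Real.sin a / (2 * (Real.cosh (-u) + Real.cos a))) =
        Real.exp (q * u) * (Real.sin a / (2 * (Real.cosh u + Real.cos a))) := by
      intro u
      rw [Real.cosh_neg, neg_mul_neg]
    have hi' := hi.comp_neg
    simp only [hpt] at hi'
    refine ⟨hi', ?_⟩
    have hv' := integral_neg_eq_self (fun u => Real.exp (-q * u) *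
      (Real.sin a / (2 * (Real.cosh u + Real.cos a)))) volume
    simp only [hpt] at hv'
    rw [hv', hv]
    have e4 : -q * a = -(q * a) := by ring
    have e5 : Real.pi * -q = -(Real.pi * q) := by ring
    rw [e4, e5, Real.sin_neg, Real.sin_neg, neg_div_neg_eq]
  · exact pos q h2 (by linarith [le_abs_self q])

theorem laplace_PK {α β κ : ℝ} (h0 : 0 < α) (h1 : α < β) (hκ : κ ≠ 0)
    (hκ' : |κ| * β < Real.pi) :
    Integrable (fun x => Real.exp (κ * x) * PK α β x) ∧
    ∫ x, Real.exp (κ * x) * PK α β x = Real.sin (κ * α) / Real.sin (κ * β) := by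
  obtain ⟨ha, ha'⟩ := pk_a h0 h1
  have hβ : 0 < β := h0.trans h1
  have hπ := Real.pi_pos
  have hσ0 : κ * β / Real.pi ≠ 0 := by positivity
  have hσ1 : |κ * β / Real.pi| < 1 := by
    rw [abs_div, abs_mul, abs_of_pos hβ, abs_of_pos hπ, div_lt_one hπ]
    exact hκ'
  obtain ⟨hi, hv⟩ := pk_base ha ha' hσ0 hσ1
  have hc : Real.pi / β ≠ 0 := by positivity
  have hpt : ∀ x : ℝ, Real.exp (κ * β / Real.pi * (Real.pi / β * x)) *
      (Real.sin (Real.pi * α / β) / (2 * (Real.cosh (Real.pi / β * x) +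
        Real.cos (Real.pi * α / β)))) = β * (Real.exp (κ * x) * PK α β x) := by
    intro x
    unfold PK
    have e1 : κ * β / Real.pi * (Real.pi / β * x) = κ * x := by
      field_simp
    have e2 : Real.pi / β * x = Real.pi * x / β := by ring
    rw [e1, e2]
    have hden := pk_den ha ha' (Real.pi * x / β)
    field_simp
  have hi2 := hi.comp_mul_left' hc
  have hv2 := Measure.integral_comp_mul_left (fun u => Real.exp (κ * β / Real.pi * u) *
    (Real.sin (Real.pi * α / β) / (2 * (Real.cosh u + Real.cos (Real.pi * α / β))))) (Real.pi / β)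
  simp only [hpt] at hi2 hv2
  constructor
  · have hi3 := hi2.const_mul β⁻¹
    refine hi3.congr (Eventually.of_forall fun x => ?_)
    simp only
    rw [← mul_assoc, inv_mul_cancel₀ hβ.ne', one_mul]
  · rw [integral_const_mul, hv, smul_eq_mul, abs_of_pos (by positivity)] at hv2
    have e3 : κ * β / Real.pi * (Real.pi * α / β) = κ * α := by field_simp
    have e4 : Real.pi * (κ * β / Real.pi) = κ * β := by field_simp
    rw [e3, e4] at hv2
    have e5 : (Real.pi / β)⁻¹ * (Real.pi * (Real.sin (κ * α) / Real.sin (κ * β))) =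
        β * (Real.sin (κ * α) / Real.sin (κ * β)) := by
      field_simp
    rw [e5] at hv2
    exact mul_left_cancel₀ hβ.ne' hv2

lemma integral_PK {α β : ℝ} (h0 : 0 < α) (h1 : α < β) :
    Integrable (PK α β) ∧ ∫ x, PK α β x = α / β := by
  have hβ : 0 < β := h0.trans h1
  have hπ := Real.pi_pos
  obtain ⟨c, hc⟩ : ∃ c, c = Real.pi / (2 * β) := ⟨_, rfl⟩
  have hc0 : 0 < c := by rw [hc]; positivity
  have hcβ : |c| * β < Real.pi := by
    rw [abs_of_pos hc0, hc]
    have : Real.pi / (2 * β) * β = Real.pi / 2 := by field_simp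
    rw [this]
    linarith
  have hp := (laplace_PK h0 h1 hc0.ne' hcβ).1
  have hm := (laplace_PK h0 h1 (neg_ne_zero.2 hc0.ne') (by rwa [abs_neg])).1
  have hbound : ∀ κ : ℝ, |κ| ≤ c → ∀ x, ‖Real.exp (κ * x) * PK α β x‖ ≤
      Real.exp (c * x) * PK α β x + Real.exp (-c * x) * PK α β x := by
    intro κ hκ x
    have hP := PK_pos h0 h1 x
    rw [Real.norm_eq_abs, abs_mul, abs_of_pos hP, abs_of_pos (Real.exp_pos _), ← add_mul]
    refine mul_le_mul_of_nonneg_right ?_ hP.le
    have h3 : κ * x ≤ c * |x| := by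
      calc κ * x ≤ |κ * x| := le_abs_self _
        _ = |κ| * |x| := abs_mul _ _
        _ ≤ c * |x| := mul_le_mul_of_nonneg_right hκ (abs_nonneg x)
    rcases le_total 0 x with hx | hx
    · rw [abs_of_nonneg hx] at h3
      have := Real.exp_pos (-c * x)
      have := Real.exp_le_exp.2 h3
      linarith
    · rw [abs_of_nonpos hx] at h3
      have h4 : κ * x ≤ -c * x := by linarith
      have := Real.exp_pos (c * x)
      have := Real.exp_le_exp.2 h4
      linarith
  have hint : Integrable (PK α β) := by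
    refine Integrable.mono' (hp.add hm) (continuous_PK h0 h1).aestronglyMeasurable
      (Eventually.of_forall fun x => ?_)
    have := hbound 0 (by simpa using hc0.le) x
    simpa using this
  refine ⟨hint, ?_⟩
  have hlim : Tendsto (fun κ : ℝ => ∫ x, Real.exp (κ * x) * PK α β x) (𝓝[≠] 0)
      (𝓝 (∫ x, PK α β x)) := by
    refine tendsto_integral_filter_of_dominated_convergence
      (fun x => Real.exp (c * x) * PK α β x + Real.exp (-c * x) * PK α β x) ?_ ?_
      (hp.add hm) ?_
    · refine Eventually.of_forall fun κ => ?_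
      have hcc := continuous_PK h0 h1
      exact ((by fun_prop : Continuous fun x : ℝ => Real.exp (κ * x)).mul hcc).aestronglyMeasurable
    · have hev : ∀ᶠ κ : ℝ in 𝓝[≠] 0, |κ| ≤ c := by
        have : ∀ᶠ κ : ℝ in 𝓝 0, |κ| < c :=
          continuous_abs.continuousAt.eventually_lt continuousAt_const (by simpa using hc0)
        exact (this.mono fun _ h => h.le).filter_mono nhdsWithin_le_nhds
      filter_upwards [hev] with κ hκ
      exact Eventually.of_forall fun x => hbound κ hκ x
    · refine Eventually.of_forall fun x => ?_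
      have hcont : Continuous fun κ : ℝ => Real.exp (κ * x) * PK α β x := by fun_prop
      have := hcont.tendsto 0
      simp only [zero_mul, Real.exp_zero, one_mul] at this
      exact this.mono_left nhdsWithin_le_nhds
  have hlim2 : Tendsto (fun κ : ℝ => ∫ x, Real.exp (κ * x) * PK α β x) (𝓝[≠] 0)
      (𝓝 (α / β)) := by
    have hd : ∀ c : ℝ, Tendsto (fun t : ℝ => t⁻¹ * Real.sin (t * c)) (𝓝[≠] 0) (𝓝 c) := by
      intro c
      have h5 : HasDerivAt (fun t : ℝ => Real.sin (t * c)) (Real.cos (0 * c) * (1 * c)) 0 :=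
        ((hasDerivAt_id (0 : ℝ)).mul_const c).sin
      have h6 := h5.tendsto_slope_zero
      simp only [zero_add, zero_mul, Real.sin_zero, sub_zero, smul_eq_mul, Real.cos_zero,
        one_mul] at h6
      exact h6
    have h7 := (hd α).div (hd β) hβ.ne'
    refine h7.congr' ?_
    have hev : ∀ᶠ κ : ℝ in 𝓝[≠] 0, |κ| < c := by
      have : ∀ᶠ κ : ℝ in 𝓝 0, |κ| < c :=
        continuous_abs.continuousAt.eventually_lt continuousAt_const (by simpa using hc0)
      exact this.filter_mono nhdsWithin_le_nhds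
    filter_upwards [hev, self_mem_nhdsWithin] with κ hκ hκ0
    have hκ0' : κ ≠ 0 := hκ0
    have hκβ : |κ| * β < Real.pi := by
      rw [abs_of_pos hc0] at hcβ
      nlinarith
    rw [(laplace_PK h0 h1 hκ0' hκβ).2]
    simp only [Pi.div_apply]
    rw [mul_div_mul_left _ _ (inv_ne_zero hκ0')]
  exact tendsto_nhds_unique hlim hlim2

end Helper25.Ind
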