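import Pool.Agent.Helper25.Ind2.Mellin

/-!
# IND2 K7: monotone modulation and slowly varying densities

PROOFS. `mm_np`: for every `y`, `k(x-y) (χ y - χ (x-s₀)) ≤ 0`: if `y ≥ x - s₀` then `x-y ≤ s₀`, `k ≤ 0`, `χ y ≥ χ(x-s₀)`; if `y ≤ x-s₀` then `k ≥ 0`, `χ y ≤ χ(x-s₀)`. Multiply by `E y ≥ 0` and integrate
(`integral_mono`, `integral_const_mul`). `mm_pn`: the mirror image.
`exists_slow`: `∫ |kk| (e^{μ|s|} - 1) → 0` as `μ → 0+` (dominated convergence, majorant `e^{κ|s|}|kk|`).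
`slow_upper`: substitute `y = x - s`: `U N x = ∫ kk(s) N(x-s) ds = c N(x) + ∫ kk(s)(N(x-s) - N(x)) ds ≤ c N(x) + N(x) ∫|kk|(e^{μ|s|}-1) ≤ c N x + N x |c|/2`.
`slow_const`: the same with `|N(x-s)-N x| ≤ N x (e^{μ|s|}-1)` gives `|U N x - c N x| ≤ (|c|/2) N x`.
`neg_upper`: `k < 0` everywhere (kernel `kk ρ θ` of pattern `pattern_neg`, `θ < π` so continuous), `N ≥ 0`, `N y ≥ η N x` for `|y-x| ≤ 1`: `U N x ≤ ∫_{|x-y|≤1} kk(x-y) N y dy ≤ -c η N x`.
-/

open Complex Filter Topology MeasureTheory Set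

namespace Helper25.Ind

lemma mm_np {k χ E : ℝ → ℝ} {s₀ x : ℝ} (h1 : ∀ s ≤ s₀, k s ≤ 0) (h2 : ∀ s, s₀ ≤ s → 0 ≤ k s)
    (hχ : Monotone χ) (hE : ∀ y, 0 ≤ E y)
    (i1 : Integrable (fun y => k (x - y) * (χ y * E y)))
    (i2 : Integrable (fun y => k (x - y) * E y)) :
    ∫ y, k (x - y) * (χ y * E y) ≤ χ (x - s₀) * ∫ y, k (x - y) * E y := by
  rw [← integral_const_mul]
  refine integral_mono i1 (i2.const_mul _) (fun y => ?_)
  simp only
  have key : k (x - y) * (χ y - χ (x - s₀)) ≤ 0 := by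
    rcases le_total (x - s₀) y with h | h
    · exact mul_nonpos_of_nonpos_of_nonneg (h1 _ (by linarith)) (sub_nonneg.2 (hχ h))
    · exact mul_nonpos_of_nonneg_of_nonpos (h2 _ (by linarith)) (sub_nonpos.2 (hχ h))
  have h3 := mul_nonpos_of_nonpos_of_nonneg key (hE y)
  have e : k (x - y) * (χ y * E y) - χ (x - s₀) * (k (x - y) * E y)
      = k (x - y) * (χ y - χ (x - s₀)) * E y := by ring
  linarith

lemma mm_pn {k χ E : ℝ → ℝ} {s₀ x : ℝ} (h1 : ∀ s ≤ s₀, 0 ≤ k s) (h2 : ∀ s, s₀ ≤ s → k s ≤ 0)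
    (hχ : Antitone χ) (hE : ∀ y, 0 ≤ E y)
    (i1 : Integrable (fun y => k (x - y) * (χ y * E y)))
    (i2 : Integrable (fun y => k (x - y) * E y)) :
    ∫ y, k (x - y) * (χ y * E y) ≤ χ (x - s₀) * ∫ y, k (x - y) * E y := by
  rw [← integral_const_mul]
  refine integral_mono i1 (i2.const_mul _) (fun y => ?_)
  simp only
  have key : k (x - y) * (χ y - χ (x - s₀)) ≤ 0 := by
    rcases le_total (x - s₀) y with h | h
    · exact mul_nonpos_of_nonneg_of_nonpos (h1 _ (by linarith)) (sub_nonpos.2 (hχ h))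
    · exact mul_nonpos_of_nonpos_of_nonneg (h2 _ (by linarith)) (sub_nonneg.2 (hχ h))
  have h3 := mul_nonpos_of_nonpos_of_nonneg key (hE y)
  have e : k (x - y) * (χ y * E y) - χ (x - s₀) * (k (x - y) * E y)
      = k (x - y) * (χ y - χ (x - s₀)) * E y := by ring
  linarith

/-- the weighted integral with a small exponent -/
private lemma mm_small {ρ θ : ℝ} (hρ : 0 < ρ) (hint : ¬ ∃ n : ℕ, ρ = n)
    (hθ : θ ∈ Icc (0 : ℝ) Real.pi) {ε : ℝ} (hε : 0 < ε) :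
    ∃ μ₀ > 0, μ₀ < km ρ ∧ μ₀ < kp ρ ∧
      ∫ s : ℝ, (Real.exp (μ₀ * |s|) - 1) * |kk ρ θ s| < ε := by
  have hm := km_pos hρ hint
  have hp := kp_pos hρ.le
  obtain ⟨κ, hκ⟩ : ∃ κ, κ = min (km ρ) (kp ρ) / 2 := ⟨_, rfl⟩
  have hκ0 : 0 < κ := by rw [hκ]; exact half_pos (lt_min hm hp)
  have hκm : κ < km ρ := by
    rw [hκ]; have := min_le_left (km ρ) (kp ρ); linarith
  have hκp : κ < kp ρ := by
    rw [hκ]; have := min_le_right (km ρ) (kp ρ); linarith
  have ht : Tendsto (fun μ : ℝ => ∫ s : ℝ, (Real.exp (μ * |s|) - 1) * |kk ρ θ s|)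
      (𝓝[Ioo 0 κ] 0) (𝓝 (∫ _ : ℝ, (0 : ℝ))) := by
    refine tendsto_integral_filter_of_dominated_convergence
      (fun s => Real.exp (κ * |s|) * |kk ρ θ s|) ?_ ?_ (integrable_kk_abs hκm hκp hθ) ?_
    · refine Eventually.of_forall fun μ => ?_
      have hme : Measurable (fun s : ℝ => Real.exp (μ * |s|) - 1) := by fun_prop
      exact (hme.mul (measurable_kk ρ θ).norm).aestronglyMeasurable
    · filter_upwards [self_mem_nhdsWithin] with μ hμ
      refine Eventually.of_forall fun s => ?_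
      have h0 : 0 ≤ Real.exp (μ * |s|) - 1 := by
        have := Real.add_one_le_exp (μ * |s|)
        have := mul_nonneg hμ.1.le (abs_nonneg s)
        linarith
      rw [Real.norm_eq_abs, abs_mul, abs_abs, abs_of_nonneg h0]
      refine mul_le_mul_of_nonneg_right ?_ (abs_nonneg _)
      have : Real.exp (μ * |s|) ≤ Real.exp (κ * |s|) :=
        Real.exp_le_exp.2 (mul_le_mul_of_nonneg_right hμ.2.le (abs_nonneg s))
      linarith
    · refine Eventually.of_forall fun s => ?_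
      have hc : Continuous (fun μ : ℝ => (Real.exp (μ * |s|) - 1) * |kk ρ θ s|) := by fun_prop
      have := (hc.tendsto 0).mono_left (nhdsWithin_le_nhds (s := Ioo 0 κ))
      simpa using this
  rw [integral_zero] at ht
  have hne : (𝓝[Ioo (0 : ℝ) κ] (0 : ℝ)).NeBot := by
    rw [← mem_closure_iff_nhdsWithin_neBot, closure_Ioo hκ0.ne]
    exact ⟨le_rfl, hκ0.le⟩
  have h1 := (ht.eventually (gt_mem_nhds hε)).and self_mem_nhdsWithin
  obtain ⟨μ, hμ1, hμ2⟩ := h1.exists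
  exact ⟨μ, hμ2.1, hμ2.2.trans hκm, hμ2.2.trans hκp, hμ1⟩

lemma exists_slow {ρ θ : ℝ} (hρ : 0 < ρ) (hint : ¬ ∃ n : ℕ, ρ = n)
    (hθ : θ ∈ Icc (0 : ℝ) Real.pi) (hc : cc ρ 0 θ ≠ 0) :
    ∃ μ₀ > 0, μ₀ < km ρ ∧ μ₀ < kp ρ ∧ ∀ μ, 0 < μ → μ ≤ μ₀ → ∀ (N : ℝ → ℝ) (x : ℝ),
      Measurable N → 0 ≤ N x → (∀ s, |N (x + s) - N x| ≤ N x * (Real.exp (μ * |s|) - 1)) →
      |U ρ θ N x - cc ρ 0 θ * N x| ≤ |cc ρ 0 θ| / 2 * N x := by
  obtain ⟨μ₀, h0, hm, hp, hI⟩ := mm_small hρ hint hθ (ε := |cc ρ 0 θ| / 2)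
    (half_pos (abs_pos.2 hc))
  refine ⟨μ₀, h0, hm, hp, fun μ hμ hμ0 N x hN hNx hs => ?_⟩
  have hint1 := integrable_kk hρ hint hθ
  have i0 : Integrable (fun s : ℝ => (Real.exp (μ₀ * |s|) - 1) * |kk ρ θ s|) := by
    have := (integrable_kk_abs hm hp hθ).sub hint1.abs
    refine this.congr (Eventually.of_forall fun s => ?_)
    simp only [Pi.sub_apply]
    ring
  have bd : ∀ s : ℝ, |kk ρ θ s * (N (x - s) - N x)| ≤
      N x * ((Real.exp (μ₀ * |s|) - 1) * |kk ρ θ s|) := by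
    intro s
    have h1 := hs (-s)
    rw [abs_neg, ← sub_eq_add_neg] at h1
    have h2 : Real.exp (μ * |s|) ≤ Real.exp (μ₀ * |s|) :=
      Real.exp_le_exp.2 (mul_le_mul_of_nonneg_right hμ0 (abs_nonneg s))
    have h3 : |N (x - s) - N x| ≤ N x * (Real.exp (μ₀ * |s|) - 1) :=
      h1.trans (mul_le_mul_of_nonneg_left (by linarith) hNx)
    rw [abs_mul]
    have h4 := mul_le_mul_of_nonneg_left h3 (abs_nonneg (kk ρ θ s))
    refine h4.trans (le_of_eq ?_)
    ring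
  have hmN : Measurable (fun s : ℝ => N (x - s)) :=
    hN.comp (measurable_const.sub measurable_id)
  have i1 : Integrable (fun s : ℝ => kk ρ θ s * (N (x - s) - N x)) := by
    refine Integrable.mono' (i0.const_mul (N x))
      ((measurable_kk ρ θ).mul (hmN.sub measurable_const)).aestronglyMeasurable
      (Eventually.of_forall fun s => ?_)
    rw [Real.norm_eq_abs]
    exact bd s
  have e1 : U ρ θ N x = ∫ s : ℝ, kk ρ θ s * N (x - s) := by
    unfold U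
    have := integral_sub_left_eq_self (fun s : ℝ => kk ρ θ s * N (x - s)) volume x
    simp only [sub_sub_cancel] at this
    exact this
  have e2 : U ρ θ N x - cc ρ 0 θ * N x = ∫ s : ℝ, kk ρ θ s * (N (x - s) - N x) := by
    have h5 : ∫ s : ℝ, kk ρ θ s * N (x - s)
        = (∫ s : ℝ, kk ρ θ s * (N (x - s) - N x)) + ∫ s : ℝ, kk ρ θ s * N x := by
      rw [← integral_add i1 (hint1.mul_const _)]
      congr 1
      funext s
      ring
    rw [e1, h5, integral_mul_const, integral_kk hρ hint hθ]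
    ring
  rw [e2]
  have h6 : |∫ s : ℝ, kk ρ θ s * (N (x - s) - N x)| ≤
      ∫ s : ℝ, N x * ((Real.exp (μ₀ * |s|) - 1) * |kk ρ θ s|) := by
    rw [← Real.norm_eq_abs]
    refine norm_integral_le_of_norm_le (i0.const_mul (N x)) (Eventually.of_forall fun s => ?_)
    rw [Real.norm_eq_abs]
    exact bd s
  refine h6.trans ?_
  rw [integral_const_mul, mul_comm]
  exact mul_le_mul_of_nonneg_right hI.le hNx

lemma neg_upper {ρ θ : ℝ} (hρ : 0 < ρ) (hint : ¬ ∃ n : ℕ, ρ = n)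
    (hθ : θ ∈ Icc (0 : ℝ) Real.pi) (ha : aa ρ θ ≤ 0) (hb : bb ρ θ ≤ 0) :
    ∃ c > 0, ∀ (N : ℝ → ℝ) (x η : ℝ), Measurable N → (∀ y, 0 ≤ N y) → 0 ≤ η →
      (∀ y, |y - x| ≤ 1 → η ≤ N y) → Integrable (fun y => kk ρ θ (x - y) * N y) →
      U ρ θ N x ≤ -(c * η) := by
  have hneg := pattern_neg ρ hθ ha hb
  have hθ1 : θ < Real.pi := by
    rcases lt_or_eq_of_le hθ.2 with h | h
    · exact h
    · exfalso
      rw [h] at hb
      unfold bb at hb
      rw [Real.cos_nat_mul_pi, ← mul_pow] at hb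
      norm_num at hb
  have hcont := continuous_kk ρ hθ.1 hθ1
  obtain ⟨s1, hs1, hmax⟩ := (isCompact_Icc (a := (-1 : ℝ)) (b := 1)).exists_isMaxOn
    ⟨0, by norm_num, by norm_num⟩ hcont.continuousOn
  have hmax' : ∀ s ∈ Icc (-1 : ℝ) 1, kk ρ θ s ≤ kk ρ θ s1 := fun s hs => hmax hs
  obtain ⟨c, hcdef⟩ : ∃ c, c = -kk ρ θ s1 := ⟨_, rfl⟩
  have hc0 : 0 < c := by rw [hcdef]; have := hneg s1; linarith
  refine ⟨c * 2, by positivity, fun N x η hN hN0 hη hy hi => ?_⟩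
  unfold U
  have h1 : ∫ y, kk ρ θ (x - y) * N y ≤ ∫ y in Icc (x - 1) (x + 1), kk ρ θ (x - y) * N y := by
    have h2 := integral_add_compl (measurableSet_Icc (a := x - 1) (b := x + 1)) hi
    have h3 : ∫ y in (Icc (x - 1) (x + 1))ᶜ, kk ρ θ (x - y) * N y ≤ 0 := by
      refine integral_nonpos fun y => ?_
      exact mul_nonpos_of_nonpos_of_nonneg (hneg _).le (hN0 y)
    linarith
  have h4 : ∫ y in Icc (x - 1) (x + 1), kk ρ θ (x - y) * N y ≤
      ∫ _ in Icc (x - 1) (x + 1), -(c * η) := by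
    refine setIntegral_mono_on hi.integrableOn ?_ measurableSet_Icc (fun y hy' => ?_)
    · exact integrableOn_const (by simp)
    · have h5 : kk ρ θ (x - y) ≤ -c := by
        rw [hcdef, neg_neg]
        exact hmax' _ ⟨by linarith [hy'.2], by linarith [hy'.1]⟩
      have h6 : η ≤ N y := hy y (abs_le.2 ⟨by linarith [hy'.1], by linarith [hy'.2]⟩)
      have h7 : kk ρ θ (x - y) * N y ≤ -c * N y := mul_le_mul_of_nonneg_right h5 (hN0 y)
      have h8 : c * η ≤ c * N y := mul_le_mul_of_nonneg_left h6 hc0.le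
      linarith
  have h9 : ∫ _ in Icc (x - 1) (x + 1), -(c * η) = -(c * 2 * η) := by
    rw [setIntegral_const, Measure.real, Real.volume_Icc]
    have : x + 1 - (x - 1) = 2 := by ring
    rw [this, ENNReal.toReal_ofReal (by norm_num), smul_eq_mul]
    ring
  linarith

end Helper25.Ind
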