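import Pool.Agent.Helper25.Ind2.Lap
import Pool.Agent.Helper25.Ind2.Mellin

/-!
# IND2 M1b: Gaussian identity and Lipschitz bound

PROOFS: see the last four items of the header of `MixK.lean`.
* `GG ρ ε θ u = e^{-ρu} e^{-(u²-θ²)/(2ε)} cos(uθ/ε) = e^{-ρu} Re exp(-(u+iθ)²/(2ε))`.
* `integral_GG`: `∫ e^{-ζu} exp(-(u+iθ)²/(2ε)) du = √(2πε) e^{εζ²/2} e^{iζθ}` (Gaussian integral with complex linear term, `integral_cexp_quadratic` or `fourierIntegral_gaussian`), `ζ = ρ + κ` real, real part.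
* `kk_gauss`: both sides continuous in `s` (bounded continuous integrable `GG`, `kk ∈ L¹`); Laplace transforms at `κ` (small): `cc ρ κ θ √(2πε) e^{ε(ρ+κ)²/2}` and `cc ρ κ 0 √(2πε) e^{ε(ρ+κ)²/2} cos((ρ+κ)θ)`, equal by the definition of `cc`. `ae_eq_of_laplace`, then continuity.
* `kk_lip` (`θ < π`): `kk' = -ρ kk + e^{-ρs} KK'`, `hasDerivAt_KK`: `|KK'| ≤ e^{(p+1)s}(1+e^s)/|1+e^{s+iθ}|² ≤ C_θ e^{(p+1)s}/(1+e^s)` and `e^{ρs} ph ρ s = Phi p (e^s) ≥ c e^{(p+1)s}/(1+e^s)`; `|kk| ≤ C ph`. Mean value theorem and `ph ρ (s - u) ≤ C ph ρ s` for `|u| ≤ 1` (`ph_add_le`, `ph_sub_le`).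
-/

open Filter Topology MeasureTheory Set

namespace Helper25.Ind

/-- weighted Gaussian, shifted in the imaginary direction -/
noncomputable def GG (ρ ε θ u : ℝ) : ℝ :=
  Real.exp (-(ρ * u)) * (Real.exp (-(u ^ 2 - θ ^ 2) / (2 * ε)) * Real.cos (u * θ / ε))

private lemma mg_point {ρ ε θ κ : ℝ} (hε : 0 < ε) (u : ℝ) :
    Real.exp (-(κ * u)) * GG ρ ε θ u =
      (Complex.exp (((-(1 / (2 * ε)) : ℝ) : ℂ) * u ^ 2 +
        (((-(ρ + κ) : ℝ) : ℂ) + ((-(θ / ε) : ℝ) : ℂ) * Complex.I) * u +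
        ((θ ^ 2 / (2 * ε) : ℝ) : ℂ))).re := by
  have e1 : ((-(1 / (2 * ε)) : ℝ) : ℂ) * u ^ 2 +
        (((-(ρ + κ) : ℝ) : ℂ) + ((-(θ / ε) : ℝ) : ℂ) * Complex.I) * u +
        ((θ ^ 2 / (2 * ε) : ℝ) : ℂ) =
      ((-(1 / (2 * ε)) * u ^ 2 - (ρ + κ) * u + θ ^ 2 / (2 * ε) : ℝ) : ℂ) +
        ((-(u * θ / ε) : ℝ) : ℂ) * Complex.I := by
    push_cast
    ring
  rw [e1, Complex.exp_add, ← Complex.ofReal_exp, Complex.re_ofReal_mul,
    Complex.exp_ofReal_mul_I_re, Real.cos_neg]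
  unfold GG
  rw [← mul_assoc, ← mul_assoc, ← Real.exp_add, ← Real.exp_add]
  congr 2
  field_simp
  ring

lemma integral_GG {ρ ε θ κ : ℝ} (hε : 0 < ε) :
    Integrable (fun u => Real.exp (-(κ * u)) * GG ρ ε θ u) ∧
    ∫ u, Real.exp (-(κ * u)) * GG ρ ε θ u =
      Real.sqrt (2 * Real.pi * ε) * Real.exp (ε * (ρ + κ) ^ 2 / 2) *
        Real.cos ((ρ + κ) * θ) := by
  have hb : (((-(1 / (2 * ε)) : ℝ) : ℂ)).re < 0 := by
    rw [Complex.ofReal_re]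
    have : 0 < 1 / (2 * ε) := by positivity
    linarith
  have hI := integrable_cexp_quadratic' hb
    (((-(ρ + κ) : ℝ) : ℂ) + ((-(θ / ε) : ℝ) : ℂ) * Complex.I) ((θ ^ 2 / (2 * ε) : ℝ) : ℂ)
  have hV := integral_cexp_quadratic hb
    (((-(ρ + κ) : ℝ) : ℂ) + ((-(θ / ε) : ℝ) : ℂ) * Complex.I) ((θ ^ 2 / (2 * ε) : ℝ) : ℂ)
  have hfun : (fun u => Real.exp (-(κ * u)) * GG ρ ε θ u) = fun u : ℝ =>
      (Complex.exp (((-(1 / (2 * ε)) : ℝ) : ℂ) * u ^ 2 +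
        (((-(ρ + κ) : ℝ) : ℂ) + ((-(θ / ε) : ℝ) : ℂ) * Complex.I) * u +
        ((θ ^ 2 / (2 * ε) : ℝ) : ℂ))).re := funext fun u => mg_point hε u
  refine ⟨?_, ?_⟩
  · rw [hfun]
    exact hI.re
  · rw [hfun]
    have h1 : ∫ u : ℝ, (Complex.exp (((-(1 / (2 * ε)) : ℝ) : ℂ) * u ^ 2 +
        (((-(ρ + κ) : ℝ) : ℂ) + ((-(θ / ε) : ℝ) : ℂ) * Complex.I) * u +
        ((θ ^ 2 / (2 * ε) : ℝ) : ℂ))).re = (∫ u : ℝ, Complex.exp (((-(1 / (2 * ε)) : ℝ) : ℂ) *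
        u ^ 2 + (((-(ρ + κ) : ℝ) : ℂ) + ((-(θ / ε) : ℝ) : ℂ) * Complex.I) * u +
        ((θ ^ 2 / (2 * ε) : ℝ) : ℂ))).re := integral_re hI
    rw [h1, hV]
    have hε' : (ε : ℂ) ≠ 0 := by exact_mod_cast hε.ne'
    have h2 : ((Real.pi : ℂ) / -((-(1 / (2 * ε)) : ℝ) : ℂ)) = ((2 * Real.pi * ε : ℝ) : ℂ) := by
      push_cast
      field_simp
    have h3 : ((2 * Real.pi * ε : ℝ) : ℂ) ^ (1 / 2 : ℂ) =
        ((Real.sqrt (2 * Real.pi * ε) : ℝ) : ℂ) := by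
      rw [Real.sqrt_eq_rpow, Complex.ofReal_cpow (by positivity)]
      norm_num
    have h4 : ((θ ^ 2 / (2 * ε) : ℝ) : ℂ) - (((-(ρ + κ) : ℝ) : ℂ) +
        ((-(θ / ε) : ℝ) : ℂ) * Complex.I) ^ 2 / (4 * ((-(1 / (2 * ε)) : ℝ) : ℂ)) =
        ((ε * (ρ + κ) ^ 2 / 2 : ℝ) : ℂ) + (((ρ + κ) * θ : ℝ) : ℂ) * Complex.I := by
      push_cast
      field_simp
      ring_nf
      simp only [Complex.I_sq]
      ring
    rw [h2, h3, h4, Complex.exp_add, ← Complex.ofReal_exp, Complex.re_ofReal_mul,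
      Complex.re_ofReal_mul, Complex.exp_ofReal_mul_I_re]
    ring

private lemma mg_cont (ρ ε θ : ℝ) : Continuous (GG ρ ε θ) := by
  unfold GG
  fun_prop

private lemma mg_bd {ρ ε θ : ℝ} (hε : 0 < ε) (u : ℝ) :
    |GG ρ ε θ u| ≤ Real.exp (ε * ρ ^ 2 / 2 + θ ^ 2 / (2 * ε)) := by
  unfold GG
  rw [abs_mul, abs_mul, abs_of_pos (Real.exp_pos _), abs_of_pos (Real.exp_pos _)]
  have h1 := Real.abs_cos_le_one (u * θ / ε)
  calc Real.exp (-(ρ * u)) * (Real.exp (-(u ^ 2 - θ ^ 2) / (2 * ε)) * |Real.cos (u * θ / ε)|)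
      ≤ Real.exp (-(ρ * u)) * (Real.exp (-(u ^ 2 - θ ^ 2) / (2 * ε)) * 1) := by gcongr
    _ = Real.exp (-(ρ * u) + -(u ^ 2 - θ ^ 2) / (2 * ε)) := by rw [mul_one, ← Real.exp_add]
    _ ≤ Real.exp (ε * ρ ^ 2 / 2 + θ ^ 2 / (2 * ε)) := by
        refine Real.exp_le_exp.2 ?_
        have h2 : ε * ρ ^ 2 / 2 + θ ^ 2 / (2 * ε) - (-(ρ * u) + -(u ^ 2 - θ ^ 2) / (2 * ε)) =
            (u + ε * ρ) ^ 2 / (2 * ε) := by
          field_simp
          ring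
        have h3 : 0 ≤ (u + ε * ρ) ^ 2 / (2 * ε) := by positivity
        linarith

open scoped Convolution in
/-- Laplace transform of the convolution -/
private lemma mg_conv {k g : ℝ → ℝ} {κ : ℝ} (hk : Integrable (fun s => Real.exp (κ * s) * k s))
    (hg : Integrable (fun s => Real.exp (κ * s) * g s)) :
    Integrable (fun s => Real.exp (κ * s) * ∫ u, k (s - u) * g u) ∧
    ∫ s, Real.exp (κ * s) * ∫ u, k (s - u) * g u =
      (∫ s, Real.exp (κ * s) * g s) * ∫ s, Real.exp (κ * s) * k s := by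
  have e : (fun s => Real.exp (κ * s) * ∫ u, k (s - u) * g u) =
      ((fun s => Real.exp (κ * s) * g s) ⋆[ContinuousLinearMap.mul ℝ ℝ, volume]
        (fun s => Real.exp (κ * s) * k s)) := by
    funext s
    rw [convolution_def, ← integral_const_mul]
    congr 1
    funext u
    rw [ContinuousLinearMap.mul_apply']
    have h1 : Real.exp (κ * s) = Real.exp (κ * u) * Real.exp (κ * (s - u)) := by
      rw [← Real.exp_add]
      congr 1
      ring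
    rw [h1]
    ring
  refine ⟨?_, ?_⟩
  · rw [e]
    exact hg.integrable_convolution (ContinuousLinearMap.mul ℝ ℝ) hk
  · rw [e, integral_convolution (ContinuousLinearMap.mul ℝ ℝ) hg hk]
    rfl

theorem kk_gauss {ρ ε θ : ℝ} (hρ : 0 < ρ) (hint : ¬ ∃ n : ℕ, ρ = n) (hε : 0 < ε)
    (h0 : 0 ≤ θ) (h1 : θ < Real.pi) (s : ℝ) :
    ∫ u, kk ρ θ (s - u) * GG ρ ε 0 u = ∫ u, kk ρ 0 (s - u) * GG ρ ε θ u := by
  have hkm := km_pos hρ hint
  have hkp := kp_pos hρ.le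
  have hθI : θ ∈ Icc (0 : ℝ) Real.pi := ⟨h0, h1.le⟩
  have h0I : (0 : ℝ) ∈ Icc (0 : ℝ) Real.pi := ⟨le_rfl, Real.pi_pos.le⟩
  have hcont : ∀ a ∈ Icc (0 : ℝ) Real.pi, ∀ b : ℝ, Continuous (U ρ a (GG ρ ε b)) := by
    intro a ha b
    refine continuous_U (κ := 0) (B := Real.exp (ε * ρ ^ 2 / 2 + b ^ 2 / (2 * ε))) le_rfl hkm hkp
      ha (mg_cont ρ ε b) fun y => ?_
    rw [zero_mul, Real.exp_zero, mul_one]
    exact mg_bd hε y
  have hlap : ∀ a ∈ Icc (0 : ℝ) Real.pi, ∀ b : ℝ, ∀ κ : ℝ, |κ| < min (km ρ) (kp ρ) →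
      Integrable (fun s => Real.exp (κ * s) * U ρ a (GG ρ ε b) s) ∧
      ∫ s, Real.exp (κ * s) * U ρ a (GG ρ ε b) s =
        (Real.sqrt (2 * Real.pi * ε) * Real.exp (ε * (ρ + -κ) ^ 2 / 2) *
        Real.cos ((ρ + -κ) * b)) * cc ρ (-κ) a := by
    intro a ha b κ hκ
    have hκ1 := lt_of_lt_of_le hκ (min_le_left _ _)
    have hκ2 := lt_of_lt_of_le hκ (min_le_right _ _)
    have e1 := (abs_lt.1 hκ1).2
    have e2 := (abs_lt.1 hκ2).1
    have hk := integrable_kk_exp (ρ := ρ) (κ := -κ) (θ := a) (by linarith) (by linarith) ha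
    have hkv := integral_kk_exp (ρ := ρ) (κ := -κ) (θ := a) hρ (by linarith) (by linarith) ha
    obtain ⟨hg, hgv⟩ := integral_GG (ρ := ρ) (ε := ε) (θ := b) (κ := -κ) hε
    have hfix : ∀ s : ℝ, Real.exp (-(-κ * s)) = Real.exp (κ * s) := fun s => by
      congr 1
      ring
    simp only [hfix] at hk hkv hg hgv
    obtain ⟨c1, c2⟩ := mg_conv hk hg
    refine ⟨c1, ?_⟩
    rw [hkv, hgv] at c2
    exact c2
  have hae : U ρ θ (GG ρ ε 0) =ᵐ[volume] U ρ 0 (GG ρ ε θ) := by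
    refine ae_eq_of_laplace (κ₀ := min (km ρ) (kp ρ)) (lt_min hkm hkp)
      (fun κ hκ => (hlap θ hθI 0 κ hκ).1) (fun κ hκ => (hlap 0 h0I θ κ hκ).1) fun κ hκ => ?_
    rw [(hlap θ hθI 0 κ hκ).2, (hlap 0 h0I θ κ hκ).2]
    unfold cc
    rw [mul_zero, Real.cos_zero]
    ring
  have hall := Continuous.ae_eq_iff_eq volume (hcont θ hθI 0) (hcont 0 h0I θ) |>.1 hae
  exact congrFun hall s

lemma kk_lip {ρ θ : ℝ} (h0 : 0 ≤ θ) (h1 : θ < Real.pi) :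
    ∃ C > 0, ∀ s u : ℝ, |u| ≤ 1 → |kk ρ θ (s - u) - kk ρ θ s| ≤ C * |u| * ph ρ s := by
  have hθI : θ ∈ Icc (0 : ℝ) Real.pi := ⟨h0, h1.le⟩
  obtain ⟨C₁, hC₁, hb⟩ := abs_kk_le_lt ρ h1
  set c : ℝ := Real.sin ((Real.pi - θ) / 2) with hc
  have hc0 : 0 < c := Real.sin_pos_of_pos_of_lt_pi (by linarith) (by linarith [Real.pi_pos])
  have hp0 : (0 : ℝ) < (⌊ρ⌋₊ : ℝ) + 1 := by positivity
  set D : ℝ → ℝ := fun s => Real.exp (((⌊ρ⌋₊ : ℝ) + 1) * s) * (aa ρ θ + bb ρ θ * Real.exp s) /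
      ‖1 + Real.exp s * Complex.exp (θ * Complex.I)‖ ^ 2 with hD
  have haa : |aa ρ θ| ≤ 1 := by
    unfold aa
    rw [abs_mul, abs_pow, abs_neg, abs_one, one_pow, one_mul]
    exact Real.abs_cos_le_one _
  have hbb : |bb ρ θ| ≤ 1 := by
    unfold bb
    rw [abs_mul, abs_pow, abs_neg, abs_one, one_pow, one_mul]
    exact Real.abs_cos_le_one _
  have hDb : ∀ s, |Real.exp (-(ρ * s)) * D s| ≤ ((⌊ρ⌋₊ : ℝ) + 1) / c ^ 2 * ph ρ s := by
    intro s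
    have hes := Real.exp_pos s
    have hlow : (1 + Real.exp s) * c ≤ ‖1 + (Real.exp s : ℂ) * Complex.exp (θ * Complex.I)‖ := by
      have harg : ((Real.exp s : ℂ) * Complex.exp (θ * Complex.I)).arg = θ := by
        rw [Complex.arg_real_mul _ hes, Complex.arg_exp_mul_I]
        exact (toIocMod_eq_self Real.two_pi_pos).2 ⟨by linarith [Real.pi_pos], by linarith⟩
      have h2 := norm_one_add_ge (z := (Real.exp s : ℂ) * Complex.exp (θ * Complex.I))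
        (δ := Real.pi - θ) (by linarith) (by linarith) (by rw [harg, abs_of_nonneg h0]; linarith)
      have h3 : ‖(Real.exp s : ℂ) * Complex.exp (θ * Complex.I)‖ = Real.exp s := by
        rw [norm_mul, Complex.norm_exp_ofReal_mul_I, mul_one, Complex.norm_real,
          Real.norm_of_nonneg hes.le]
      rw [h3] at h2
      exact h2
    have hN : 0 < ((1 + Real.exp s) * c) ^ 2 := by positivity
    have hN2 : ((1 + Real.exp s) * c) ^ 2 ≤
        ‖1 + (Real.exp s : ℂ) * Complex.exp (θ * Complex.I)‖ ^ 2 :=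
      pow_le_pow_left₀ (by positivity) hlow 2
    have hnum : |aa ρ θ + bb ρ θ * Real.exp s| ≤ 1 + Real.exp s := by
      refine (abs_add_le _ _).trans ?_
      rw [abs_mul, abs_of_pos hes]
      have := mul_le_mul_of_nonneg_right hbb hes.le
      linarith
    have hDs : |D s| ≤ Real.exp (((⌊ρ⌋₊ : ℝ) + 1) * s) * (1 + Real.exp s) /
        ((1 + Real.exp s) * c) ^ 2 := by
      rw [hD]
      simp only
      rw [abs_div, abs_mul, abs_of_pos (Real.exp_pos _), abs_pow, abs_norm]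
      exact div_le_div₀ (by positivity) (mul_le_mul_of_nonneg_left hnum (Real.exp_pos _).le) hN hN2
    have hPhi := Phi_ge ⌊ρ⌋₊ hes.le
    have hpow : Real.exp s ^ (⌊ρ⌋₊ + 1) = Real.exp (((⌊ρ⌋₊ : ℝ) + 1) * s) := by
      rw [← Real.exp_nat_mul]
      push_cast
      rfl
    rw [hpow] at hPhi
    rw [abs_mul, abs_of_pos (Real.exp_pos _)]
    unfold ph
    calc Real.exp (-(ρ * s)) * |D s| ≤ Real.exp (-(ρ * s)) *
          (Real.exp (((⌊ρ⌋₊ : ℝ) + 1) * s) * (1 + Real.exp s) / ((1 + Real.exp s) * c) ^ 2) :=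
          mul_le_mul_of_nonneg_left hDs (Real.exp_pos _).le
      _ = ((⌊ρ⌋₊ : ℝ) + 1) / c ^ 2 * (Real.exp (-(ρ * s)) *
          (Real.exp (((⌊ρ⌋₊ : ℝ) + 1) * s) / (((⌊ρ⌋₊ : ℝ) + 1) * (1 + Real.exp s)))) := by
          field_simp
      _ ≤ ((⌊ρ⌋₊ : ℝ) + 1) / c ^ 2 * (Real.exp (-(ρ * s)) * Phi ⌊ρ⌋₊ (Real.exp s)) := by
          gcongr
  set C₂ : ℝ := |ρ| * C₁ + ((⌊ρ⌋₊ : ℝ) + 1) / c ^ 2 with hC₂
  have hC₂0 : 0 < C₂ := by positivity
  set E : ℝ := Real.exp (|kp ρ| + |km ρ|) with hE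
  have hE0 : 0 < E := Real.exp_pos _
  have hder : ∀ t, HasDerivAt (kk ρ θ) (-ρ * kk ρ θ t + Real.exp (-(ρ * t)) * D t) t := by
    intro t
    have h2 := hasDerivAt_KK ρ hθI (s := t) (Or.inl h1)
    have h3 : HasDerivAt (fun t : ℝ => Real.exp (-(ρ * t))) (Real.exp (-(ρ * t)) * (-(ρ * 1))) t :=
      (((hasDerivAt_id t).const_mul ρ).neg).exp
    have h4 := h3.mul h2
    have e1 : kk ρ θ = fun t => Real.exp (-(ρ * t)) * KK ρ θ t := funext fun t => kk_eq_KK ρ θ t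
    rw [e1]
    refine h4.congr_deriv ?_
    simp only [hD]
    ring
  have hbd : ∀ t, ‖-ρ * kk ρ θ t + Real.exp (-(ρ * t)) * D t‖ ≤ C₂ * ph ρ t := by
    intro t
    rw [Real.norm_eq_abs]
    refine (abs_add_le _ _).trans ?_
    rw [abs_mul, abs_neg, hC₂, add_mul]
    refine add_le_add ?_ (hDb t)
    rw [mul_assoc]
    exact mul_le_mul_of_nonneg_left (hb θ ⟨h0, le_rfl⟩ t) (abs_nonneg _)
  have hph : ∀ s t : ℝ, |t - s| ≤ 1 → ph ρ t ≤ E * ph ρ s := by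
    intro s t hst
    have hps := ph_pos ρ s
    have ha := abs_le.1 hst
    rcases le_total s t with h | h
    · have h2 := ph_add_le ρ (sub_nonneg.2 h) s
      rw [add_sub_cancel] at h2
      refine h2.trans (mul_le_mul_of_nonneg_right (Real.exp_le_exp.2 ?_) hps.le)
      have h3 : kp ρ * (t - s) ≤ |kp ρ| * 1 :=
        mul_le_mul (le_abs_self _) ha.2 (sub_nonneg.2 h) (abs_nonneg _)
      have := abs_nonneg (km ρ)
      linarith
    · have h2 := ph_sub_le ρ (sub_nonneg.2 h) s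
      rw [sub_sub_cancel] at h2
      refine h2.trans (mul_le_mul_of_nonneg_right (Real.exp_le_exp.2 ?_) hps.le)
      have h3 : km ρ * (s - t) ≤ |km ρ| * 1 :=
        mul_le_mul (le_abs_self _) (by linarith) (sub_nonneg.2 h) (abs_nonneg _)
      have := abs_nonneg (kp ρ)
      linarith
  refine ⟨C₂ * E, by positivity, fun s u hu => ?_⟩
  have hu' := abs_le.1 hu
  have hmv := Convex.norm_image_sub_le_of_norm_hasDerivWithin_le (f := kk ρ θ)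
    (f' := fun t => -ρ * kk ρ θ t + Real.exp (-(ρ * t)) * D t) (C := C₂ * E * ph ρ s)
    (s := Icc (s - 1) (s + 1)) (x := s) (y := s - u)
    (fun t _ => (hder t).hasDerivWithinAt) (fun t ht => by
      refine (hbd t).trans ?_
      rw [mul_assoc]
      refine mul_le_mul_of_nonneg_left (hph s t ?_) hC₂0.le
      rw [abs_le]
      constructor <;> linarith [ht.1, ht.2])
    (convex_Icc _ _) ⟨by linarith, by linarith⟩ ⟨by linarith, by linarith⟩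
  rw [Real.norm_eq_abs, Real.norm_eq_abs] at hmv
  have e2 : |s - u - s| = |u| := by
    rw [show s - u - s = -u by ring, abs_neg]
  rw [e2] at hmv
  calc _ ≤ _ := hmv
    _ = _ := by ring

end Helper25.Ind
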