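import Pool.Agent.Helper25.Ind2.MixN
import Pool.Agent.Helper25.Ind2.MixG
import Pool.Agent.Helper25.Ind2.NAsm

/-!
# IND2 M3: necessity of the mixed condition, second part (`um_mix`, `mix_evLe`, `nec_mix`)

`FF ρ θ N x = ∫ Lam ρ θ (x-y) dN(y)`. Standing assumptions: `N` tame, `EvLe ρ N l (-δ)` with `δ > 0`, `EvLe ρ N r A`. Facts: `hat ≤ C(1+x)` for `x ≥ 0` (`flux_right`), `hat ≥ c x` for large `x` (`flux_LE`), `c ph ≤ -Lam ρ l ≤ C ph`, `c ph ≤ Lam ρ r ≤ C ph` (`Lam_LE`, `Lam_RE`, `abs_Lam_le`), so `c hat ≤ -FF l ≤ C hat`.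
PROOFS.
* `near_const`: `a x = -FF l x / DD l`, `b x = FF r x / (-DD r)`. By `flux`: `a` is nondecreasing on `[x₀,∞)` and `b (x+s) - b x ≤ C s` for `x ≥ x₀`, `s ≥ 0`. `G v = ∫_{-∞}^v (-Lam l/DD l - Lam r/(-DD r))`; the total integral is `1 - 1 = 0` (`integral_Lam`), so `|G v| ≤ C ph v` (`integral_ph_Iic` for `v ≤ 0`, `integral_ph_Ioi` for `v ≥ 0`). Fubini:
  `∫_x^{x+R} (a - b) = ∫ (G(x+R-y) - G(x-y)) dN`, so `|∫_x^{x+R}(a-b)| ≤ C(hat(x+R) + hat x) ≤ C₁(1+x+R)`. For `x - L - R ≥ x₀`: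
  `R a(x+L) ≤ ∫_{x+L}^{x+L+R} a ≤ ∫_{x+L}^{x+L+R} b + C₁(1+x+L+R)`, `∫_{x+L}^{x+L+R} b ≤ ∫_{x-L-R}^{x-L} b + C R(2L+R)` (shift by `2L+R`), `∫_{x-L-R}^{x-L} b ≤ ∫_{x-L-R}^{x-L} a + C₁(1+x) ≤ R a(x-L) + C₁(1+x)`. So `a(x+L) - a(x-L) ≤ C(2L+R) + 2C₁(1+x+L+R)/R`. Choose `R` large (given `ε`), then `x` large: `≤ ε x`.
* `um_zero`: `Um ρ 0 N x = -(1/sin ρl) ∫ QK l u FF l (x-u) du` (`kk_zero_eq`, Fubini: `∫∫ QK(u) ph(x-u-y) du dN < ∞` since `ph(x-y-u) ≤ e^{|u|} ph(x-y)` (`ph_add_le`, `ph_sub_le`, `kp ≤ 1`, `km ≤ 1`) and `QK ≤ C e^{-π|u|/l}`; if `l = π` the exponent is exactly `1`: use `kp, km < 1`: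
  `ph(x-y-u) ≤ e^{max(kp,km)|u|} ph(x-y)`). `∫ QK = 1/l`. Split `|u| ≤ L` (`near_const`) and `|u| > L` (`|FF l (x-u)| ≤ C e^{max(kp,km)|u|} hat x ≤ C' e^{..}(1+x)`, small for `L` large). Here `kp < 1` because `ρ` is not an integer (`kp + km = 1`, `km > 0`).
* `um_mix` (`0 ≤ θ < π`). Let `S_ε = ∫ GG ρ ε 0 = √(2πε) e^{ερ²/2}` and `∫ GG ρ ε θ = S_ε cos ρθ` (`integral_GG`, `κ = 0`). `∫ Um ρ θ N (x-u) GG ρ ε 0 u du = ∫ Um ρ 0 N (x-u) GG ρ ε θ u du` (`kk_gauss`, Fubini twice, `|kk ρ θ| ≤ C ph`, `ph(x-y-u) ≤ e^{|u|} ph(x-y)`, Gaussian decay).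
  The right side is `(cos ρθ) S_ε B x + o(x)` for fixed `ε`, with `B x = -FF l x/(l sin ρl)` (`um_zero`, `near_const` for `|u| ≤ L`; for `|u| > L` the bound `C e^{|u|} hat x |GG|`). The left side differs from `S_ε Um ρ θ N x` by at most `∫ |Um θ N (x-u) - Um θ N x| GG ρ ε 0 u du ≤ hat x (C ∫_{|u| ≤ 1} |u| GG + C ∫_{|u|>1} e^{|u|} GG)`
  (`kk_lip`), and the bracket divided by `S_ε` tends to `0` as `ε → 0+`. Since `hat x ≤ C(1+x)`: choose `ε` first, then `L`, then `x₀`.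
* `mix_evLe`: `sg ρ θ < 0`: `cos(ρθ)/sin(ρl) < 0` as `(-1)^p sin ρl > 0`, and `-FF l x ≥ c hat x ≥ c' x`: `Um ρ θ N x ≤ -c'' x` for large `x`.
* `nec_mix`: `exists_rep`, `evLe_of_lt` for `l` (choose real `-δ` with `h l < -δ < 0`) and `r`. For `θ < π`: `indicator_le_of_evLe` with all reals: `⊥`. For `θ = π` with `sg ρ π < 0`: `sg ρ θ' < 0` for `θ' < π` close to `π`, `h θ' = ⊥ = h(2π - θ')` (evenness, period), `nec_trig` on `(θ', π, 2π-θ')` gives `h π ≤` every real.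
-/

open Filter Topology MeasureTheory Set

namespace Helper25.Ind

private lemma mp_cont (ρ ε θ : ℝ) : Continuous (GG ρ ε θ) := by
  unfold GG
  fun_prop

/-- Gaussian bound -/
private lemma mp_bd {ρ ε θ κ : ℝ} (hρ : 0 < ρ) (hε : 0 < ε) (u : ℝ) :
    Real.exp (κ * |u|) * |GG ρ ε θ u| ≤
      Real.exp (θ ^ 2 / (2 * ε) + ε * (ρ + κ) ^ 2) * Real.exp (-(1 / (4 * ε)) * u ^ 2) := by
  unfold GG
  rw [abs_mul, abs_mul, abs_of_pos (Real.exp_pos _), abs_of_pos (Real.exp_pos _)]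
  have h1 := Real.abs_cos_le_one (u * θ / ε)
  calc Real.exp (κ * |u|) *
        (Real.exp (-(ρ * u)) * (Real.exp (-(u ^ 2 - θ ^ 2) / (2 * ε)) * |Real.cos (u * θ / ε)|))
      ≤ Real.exp (κ * |u|) *
        (Real.exp (-(ρ * u)) * (Real.exp (-(u ^ 2 - θ ^ 2) / (2 * ε)) * 1)) := by gcongr
    _ = Real.exp (κ * |u| + (-(ρ * u) + -(u ^ 2 - θ ^ 2) / (2 * ε))) := by
        rw [mul_one, ← Real.exp_add, ← Real.exp_add]
    _ ≤ Real.exp (θ ^ 2 / (2 * ε) + ε * (ρ + κ) ^ 2 + -(1 / (4 * ε)) * u ^ 2) := by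
        refine Real.exp_le_exp.2 ?_
        have h2 : θ ^ 2 / (2 * ε) + ε * (ρ + κ) ^ 2 + -(1 / (4 * ε)) * u ^ 2 -
            (κ * |u| + (ρ * |u| + -(u ^ 2 - θ ^ 2) / (2 * ε))) =
            (|u| - 2 * ε * (ρ + κ)) ^ 2 / (4 * ε) := by
          have e1 : (|u| - 2 * ε * (ρ + κ)) ^ 2 =
              u ^ 2 - 4 * ε * (ρ + κ) * |u| + 4 * ε ^ 2 * (ρ + κ) ^ 2 := by
            rw [← sq_abs u]
            ring
          rw [e1]
          field_simp
          ring
        have h3 : 0 ≤ (|u| - 2 * ε * (ρ + κ)) ^ 2 / (4 * ε) := by positivity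
        have h4 : -(ρ * u) ≤ ρ * |u| := by
          have := mul_le_mul_of_nonneg_left (neg_abs_le u) hρ.le
          linarith
        linarith
    _ = _ := Real.exp_add _ _

private lemma mp_gau {ε : ℝ} (hε : 0 < ε) :
    Integrable (fun u : ℝ => Real.exp (-(1 / (4 * ε)) * u ^ 2)) :=
  integrable_exp_neg_mul_sq (by positivity)

private lemma mp_intE {ρ ε θ : ℝ} (hρ : 0 < ρ) (hε : 0 < ε) (κ : ℝ) :
    Integrable (fun u => Real.exp (κ * |u|) * |GG ρ ε θ u|) := by
  refine ((mp_gau hε).const_mul (Real.exp (θ ^ 2 / (2 * ε) + ε * (ρ + κ) ^ 2))).mono' ?_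
    (Eventually.of_forall fun u => ?_)
  · have := mp_cont ρ ε θ
    exact Continuous.aestronglyMeasurable (by fun_prop)
  · rw [Real.norm_of_nonneg (by positivity)]
    exact mp_bd hρ hε u

private lemma mp_intG {ρ ε θ : ℝ} (hρ : 0 < ρ) (hε : 0 < ε) :
    Integrable (fun u => |GG ρ ε θ u|) := by
  have := mp_intE (θ := θ) hρ hε 0
  simpa using this

/-- values of the Gaussian integrals -/
private lemma mp_val {ρ ε θ : ℝ} (hε : 0 < ε) :
    ∫ u, GG ρ ε θ u =
      Real.sqrt (2 * Real.pi * ε) * Real.exp (ε * ρ ^ 2 / 2) * Real.cos (ρ * θ) := by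
  have h := (integral_GG (ρ := ρ) (ε := ε) (θ := θ) (κ := 0) hε).2
  simp only [zero_mul, neg_zero, Real.exp_zero, one_mul, add_zero] at h
  exact h

private lemma mp_hat {ρ : ℝ} (hρ : 0 < ρ) (hint : ¬ ∃ n : ℕ, ρ = n) {N : Measure ℝ}
    (hN : Tame N) (x u : ℝ) : hat ρ N (x - u) ≤ Real.exp |u| * hat ρ N x := by
  have h0 := hat_nonneg ρ N x
  rcases le_total 0 u with h | h
  · refine (hat_sub hρ hint hN x h).trans (mul_le_mul_of_nonneg_right (Real.exp_le_exp.2 ?_) h0)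
    rw [abs_of_nonneg h]
    (first | linarith [km_lt_one hρ.le] | nlinarith [km_lt_one hρ.le])
  · have h1 := hat_add hρ hint hN x (u := -u) (by linarith)
    rw [← sub_eq_add_neg] at h1
    refine h1.trans (mul_le_mul_of_nonneg_right (Real.exp_le_exp.2 ?_) h0)
    rw [abs_of_nonpos h]
    (first | linarith [kp_le_one hρ.le] | nlinarith [kp_le_one hρ.le])

private lemma mp_fub {ρ ε a b : ℝ} (hρ : 0 < ρ) (hint : ¬ ∃ n : ℕ, ρ = n) {N : Measure ℝ}
    (hN : Tame N) (ha : a ∈ Icc (0 : ℝ) Real.pi) (hε : 0 < ε) (x : ℝ) :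
    Integrable (fun u => Um ρ a N (x - u) * GG ρ ε b u) ∧
    ∫ u, Um ρ a N (x - u) * GG ρ ε b u =
      ∫ y, (∫ u, kk ρ a ((x - y) - u) * GG ρ ε b u) ∂N := by
  have hkp := kp_pos hρ.le
  have hkm := km_pos hρ hint
  obtain ⟨κ, hκ0, hκ1, hκ2⟩ : ∃ κ : ℝ, 0 < κ ∧ κ < km ρ ∧ κ < kp ρ := by
    refine ⟨min (km ρ) (kp ρ) / 2, by positivity, ?_, ?_⟩
    · have := min_le_left (km ρ) (kp ρ)
      have : 0 < min (km ρ) (kp ρ) := by positivity
      linarith
    · have := min_le_right (km ρ) (kp ρ)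
      have : 0 < min (km ρ) (kp ρ) := by positivity
      linarith
  have hT : Measurable (fun v => GG ρ ε b (x - v)) :=
    ((mp_cont ρ ε b).comp (continuous_const.sub continuous_id)).measurable
  have hB : ∀ v, |GG ρ ε b (x - v)| ≤
      (Real.exp (b ^ 2 / (2 * ε) + ε * (ρ + κ) ^ 2) * Real.exp (κ * |x|)) *
        Real.exp (-(κ * |v|)) := by
    intro v
    have h1 := mp_bd (ε := ε) (θ := b) (κ := κ) hρ hε (x - v)
    have h2 : Real.exp (-(1 / (4 * ε)) * (x - v) ^ 2) ≤ 1 := by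
      refine Real.exp_le_one_iff.2 ?_
      have : 0 ≤ 1 / (4 * ε) * (x - v) ^ 2 := by positivity
      linarith
    have h3 : Real.exp (κ * |v|) ≤ Real.exp (κ * |x|) * Real.exp (κ * |x - v|) := by
      rw [← Real.exp_add]
      refine Real.exp_le_exp.2 ?_
      have h4 : |v| ≤ |x| + |x - v| := by
        have := abs_sub_abs_le_abs_sub v x
        rw [abs_sub_comm] at this
        linarith
      (first | linarith | nlinarith)
    have h5 : Real.exp (κ * |x - v|) * |GG ρ ε b (x - v)| ≤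
        Real.exp (b ^ 2 / (2 * ε) + ε * (ρ + κ) ^ 2) := by
      refine h1.trans ?_
      have := mul_le_mul_of_nonneg_left h2
        (Real.exp_pos (b ^ 2 / (2 * ε) + ε * (ρ + κ) ^ 2)).le
      linarith
    have h6 : |GG ρ ε b (x - v)| =
        (Real.exp (κ * |v|) * |GG ρ ε b (x - v)|) * Real.exp (-(κ * |v|)) := by
      rw [Real.exp_neg]
      field_simp
    rw [h6]
    refine mul_le_mul_of_nonneg_right ?_ (Real.exp_pos _).le
    calc Real.exp (κ * |v|) * |GG ρ ε b (x - v)|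
        ≤ (Real.exp (κ * |x|) * Real.exp (κ * |x - v|)) * |GG ρ ε b (x - v)| :=
          mul_le_mul_of_nonneg_right h3 (abs_nonneg _)
      _ = Real.exp (κ * |x|) * (Real.exp (κ * |x - v|) * |GG ρ ε b (x - v)|) := by ring
      _ ≤ Real.exp (κ * |x|) * Real.exp (b ^ 2 / (2 * ε) + ε * (ρ + κ) ^ 2) :=
          mul_le_mul_of_nonneg_left h5 (Real.exp_pos _).le
      _ = _ := by ring
  obtain ⟨f1, -, f3⟩ := tame_fubini hρ hint hN ha hκ0 hκ1 hκ2 hT hB
  have hsub : ∀ u : ℝ, x - (x - u) = u := fun u => by ring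
  refine ⟨?_, ?_⟩
  · have := f1.comp_sub_left x
    simpa only [hsub] using this
  · have e1 := integral_sub_left_eq_self (fun v => Um ρ a N v * GG ρ ε b (x - v)) volume x
    simp only [hsub] at e1
    rw [e1, f3]
    refine integral_congr_ae (Eventually.of_forall fun y => ?_)
    have e2 := integral_sub_left_eq_self (fun v => kk ρ a (v - y) * GG ρ ε b (x - v)) volume x
    simp only [hsub] at e2
    simp only
    rw [← e2]
    refine integral_congr_ae (Eventually.of_forall fun u => ?_)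
    simp only
    rw [show x - u - y = x - y - u by ring]

private lemma mp_small {ρ : ℝ} (hρ : 0 < ρ) {η : ℝ} (hη : 0 < η) : ∃ ε > 0,
    Integrable (fun u => |u| * Real.exp |u| * GG ρ ε 0 u) ∧
    ∫ u, |u| * Real.exp |u| * GG ρ ε 0 u ≤
      η * (Real.sqrt (2 * Real.pi * ε) * Real.exp (ε * ρ ^ 2 / 2)) := by
  have hlim : Tendsto (fun ε : ℝ => 2 * Real.sqrt (8 * ε) * Real.exp ((1 + ρ) ^ 2 * ε))
      (𝓝 0) (𝓝 0) := by
    have hc : Continuous (fun ε : ℝ => 2 * Real.sqrt (8 * ε) * Real.exp ((1 + ρ) ^ 2 * ε)) := by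
      fun_prop
    have := hc.tendsto 0
    simpa using this
  obtain ⟨ε, h1, h2⟩ := (((hlim.eventually (gt_mem_nhds hη)).filter_mono
    (nhdsWithin_le_nhds (s := Ioi (0 : ℝ)))).and self_mem_nhdsWithin).exists
  have hε : 0 < ε := h2
  have hs : 0 < Real.sqrt (8 * ε) := Real.sqrt_pos.2 (by positivity)
  have hpt : ∀ u : ℝ, |u| * Real.exp |u| * GG ρ ε 0 u ≤
      Real.sqrt (8 * ε) * Real.exp ((1 + ρ) ^ 2 * ε) * Real.exp (-(1 / (8 * ε)) * u ^ 2) := by
    intro u
    have hu : |u| ≤ Real.sqrt (8 * ε) * Real.exp (u ^ 2 / (8 * ε)) := by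
      have e1 : (|u| / Real.sqrt (8 * ε)) ^ 2 = u ^ 2 / (8 * ε) := by
        rw [div_pow, sq_abs, Real.sq_sqrt (by positivity)]
      have e2 := Real.add_one_le_exp ((|u| / Real.sqrt (8 * ε)) ^ 2)
      have e3 : |u| / Real.sqrt (8 * ε) ≤ Real.exp (u ^ 2 / (8 * ε)) := by
        rw [← e1]
        (first | linarith [sq_nonneg (|u| / Real.sqrt (8 * ε) - 1)] | nlinarith [sq_nonneg (|u| / Real.sqrt (8 * ε) - 1)])
      rw [div_le_iff₀ hs] at e3
      linarith
    have hG : GG ρ ε 0 u = Real.exp (-(ρ * u) + -(u ^ 2) / (2 * ε)) := by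
      unfold GG
      rw [mul_zero, zero_div, Real.cos_zero, mul_one, ← Real.exp_add]
      congr 3
      ring
    have hG0 : 0 ≤ GG ρ ε 0 u := by rw [hG]; exact (Real.exp_pos _).le
    calc |u| * Real.exp |u| * GG ρ ε 0 u
        ≤ Real.sqrt (8 * ε) * Real.exp (u ^ 2 / (8 * ε)) * Real.exp |u| * GG ρ ε 0 u := by
          gcongr
      _ = Real.sqrt (8 * ε) *
          Real.exp (u ^ 2 / (8 * ε) + |u| + (-(ρ * u) + -(u ^ 2) / (2 * ε))) := by
          rw [hG, Real.exp_add (u ^ 2 / (8 * ε) + |u|), Real.exp_add (u ^ 2 / (8 * ε)) |u|]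
          ring
      _ ≤ Real.sqrt (8 * ε) * Real.exp ((1 + ρ) ^ 2 * ε + -(1 / (8 * ε)) * u ^ 2) := by
          refine mul_le_mul_of_nonneg_left (Real.exp_le_exp.2 ?_) hs.le
          have h2 : (1 + ρ) ^ 2 * ε + -(1 / (8 * ε)) * u ^ 2 -
              (u ^ 2 / (8 * ε) + |u| + (ρ * |u| + -(u ^ 2) / (2 * ε))) =
              (|u| - 2 * ε * (1 + ρ)) ^ 2 / (4 * ε) := by
            have e1 : (|u| - 2 * ε * (1 + ρ)) ^ 2 =
                u ^ 2 - 4 * ε * (1 + ρ) * |u| + 4 * ε ^ 2 * (1 + ρ) ^ 2 := by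
              rw [← sq_abs u]
              ring
            rw [e1]
            field_simp
            ring
          have h3 : 0 ≤ (|u| - 2 * ε * (1 + ρ)) ^ 2 / (4 * ε) := by positivity
          have h4 : -(ρ * u) ≤ ρ * |u| := by
            have := mul_le_mul_of_nonneg_left (neg_abs_le u) hρ.le
            linarith
          linarith
      _ = _ := by rw [Real.exp_add, mul_assoc]
  have hnn : ∀ u : ℝ, 0 ≤ |u| * Real.exp |u| * GG ρ ε 0 u := by
    intro u
    have : 0 ≤ GG ρ ε 0 u := by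
      unfold GG
      rw [mul_zero, zero_div, Real.cos_zero]
      positivity
    positivity
  have hI : Integrable (fun u : ℝ => Real.sqrt (8 * ε) * Real.exp ((1 + ρ) ^ 2 * ε) *
      Real.exp (-(1 / (8 * ε)) * u ^ 2)) :=
    (integrable_exp_neg_mul_sq (by positivity)).const_mul _
  refine ⟨ε, hε, hI.mono' ?_ (Eventually.of_forall fun u => ?_), ?_⟩
  · have := mp_cont ρ ε 0
    exact Continuous.aestronglyMeasurable (by fun_prop)
  · rw [Real.norm_of_nonneg (hnn u)]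
    exact hpt u
  · refine (integral_mono_of_nonneg (Eventually.of_forall hnn) hI
      (Eventually.of_forall hpt)).trans ?_
    rw [integral_const_mul, integral_gaussian]
    have e1 : Real.pi / (1 / (8 * ε)) = 2 ^ 2 * (2 * Real.pi * ε) := by
      field_simp
      norm_num
    have e2 : Real.sqrt (Real.pi / (1 / (8 * ε))) = 2 * Real.sqrt (2 * Real.pi * ε) := by
      rw [e1, Real.sqrt_mul (by norm_num), Real.sqrt_sq (by norm_num)]
    rw [e2]
    have hS : 0 ≤ Real.sqrt (2 * Real.pi * ε) := Real.sqrt_nonneg _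
    have h3 : (1 : ℝ) ≤ Real.exp (ε * ρ ^ 2 / 2) := Real.one_le_exp (by positivity)
    calc Real.sqrt (8 * ε) * Real.exp ((1 + ρ) ^ 2 * ε) * (2 * Real.sqrt (2 * Real.pi * ε))
        = (2 * Real.sqrt (8 * ε) * Real.exp ((1 + ρ) ^ 2 * ε)) * Real.sqrt (2 * Real.pi * ε) := by
          ring
      _ ≤ η * Real.sqrt (2 * Real.pi * ε) := mul_le_mul_of_nonneg_right h1.le hS
      _ = η * (Real.sqrt (2 * Real.pi * ε) * 1) := by ring
      _ ≤ _ := by gcongr

private lemma mp_lip {ρ θ : ℝ} (hρ : 0 < ρ) (hint : ¬ ∃ n : ℕ, ρ = n) {N : Measure ℝ}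
    (hN : Tame N) (h3 : 0 ≤ θ) (h4 : θ < Real.pi) :
    ∃ C > 0, ∀ x u : ℝ, |Um ρ θ N (x - u) - Um ρ θ N x| ≤
      C * (|u| * Real.exp |u|) * hat ρ N x := by
  obtain ⟨C₁, hC₁, hk⟩ := kk_lip (ρ := ρ) h3 h4
  obtain ⟨C₀, hC₀, hU⟩ := abs_Um_le hρ hint h4
  refine ⟨C₁ + 2 * C₀, by positivity, fun x u => ?_⟩
  have hh := hat_nonneg ρ N x
  have hu0 := abs_nonneg u
  have he : 1 ≤ Real.exp |u| := Real.one_le_exp hu0
  rcases le_or_gt |u| 1 with h | h
  · have e1 : Um ρ θ N (x - u) - Um ρ θ N x =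
        ∫ y, (kk ρ θ ((x - y) - u) - kk ρ θ (x - y)) ∂N := by
      have i1 := integrable_kk_tame hρ hint hN h3 h4 (x - u)
      have i2 := integrable_kk_tame hρ hint hN h3 h4 x
      have e2 : (fun y => kk ρ θ (x - u - y)) = fun y => kk ρ θ (x - y - u) := by
        funext y
        rw [show x - u - y = x - y - u by ring]
      unfold Um
      rw [e2] at i1 ⊢
      rw [integral_sub i1 i2]
    rw [e1, ← Real.norm_eq_abs]
    have e3 : ∫ y, C₁ * |u| * ph ρ (x - y) ∂N = C₁ * |u| * hat ρ N x := by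
      rw [integral_const_mul]
      rfl
    calc ‖∫ y, (kk ρ θ ((x - y) - u) - kk ρ θ (x - y)) ∂N‖
        ≤ ∫ y, C₁ * |u| * ph ρ (x - y) ∂N :=
          norm_integral_le_of_norm_le ((integrable_ph_sub hρ hint hN x).const_mul _)
            (Eventually.of_forall fun y => hk (x - y) u h)
      _ = C₁ * |u| * hat ρ N x := e3
      _ ≤ (C₁ + 2 * C₀) * (|u| * Real.exp |u|) * hat ρ N x := by
          refine mul_le_mul_of_nonneg_right ?_ hh
          have : |u| ≤ |u| * Real.exp |u| := le_mul_of_one_le_right hu0 he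
          (first | linarith [mul_nonneg hu0 (Real.exp_pos |u|).le] | nlinarith [mul_nonneg hu0 (Real.exp_pos |u|).le])
  · have i1 := hU N hN θ ⟨h3, le_rfl⟩ (x - u)
    have i2 := hU N hN θ ⟨h3, le_rfl⟩ x
    have i3 := mp_hat hρ hint hN x u
    have i4 : |Um ρ θ N (x - u) - Um ρ θ N x| ≤ |Um ρ θ N (x - u)| + |Um ρ θ N x| := abs_sub _ _
    have i5 : |Um ρ θ N (x - u)| ≤ C₀ * (Real.exp |u| * hat ρ N x) :=
      i1.trans (mul_le_mul_of_nonneg_left i3 hC₀.le)
    have i6 : hat ρ N x ≤ Real.exp |u| * hat ρ N x := le_mul_of_one_le_left hh he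
    have i7 : |Um ρ θ N x| ≤ C₀ * (Real.exp |u| * hat ρ N x) :=
      i2.trans (mul_le_mul_of_nonneg_left i6 hC₀.le)
    have i8 : Real.exp |u| * hat ρ N x ≤ |u| * (Real.exp |u| * hat ρ N x) :=
      le_mul_of_one_le_left (by positivity) h.le
    have i9 : 0 ≤ |u| * (Real.exp |u| * hat ρ N x) := by positivity
    (first | linarith [mul_nonneg hC₁.le i9, mul_le_mul_of_nonneg_left i8 hC₀.le] | nlinarith [mul_nonneg hC₁.le i9, mul_le_mul_of_nonneg_left i8 hC₀.le])

private lemma mp_FF {ρ l : ℝ} (hρ : 0 < ρ) (hint : ¬ ∃ n : ℕ, ρ = n) {N : Measure ℝ}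
    (hN : Tame N) (hl : LE ρ l) : ∃ C > 0, ∀ x, |FF ρ l N x| ≤ C * hat ρ N x := by
  obtain ⟨C, hC, h⟩ := abs_Lam_le hρ hint ⟨hl.1, hl.2.1⟩ hl.2.2.1
  refine ⟨C, hC, fun x => ?_⟩
  unfold FF hat
  rw [← Real.norm_eq_abs, ← integral_const_mul]
  exact norm_integral_le_of_norm_le ((integrable_ph_sub hρ hint hN x).const_mul _)
    (Eventually.of_forall fun y => h (x - y))

theorem um_mix {ρ l r δ A θ : ℝ} (hρ : 0 < ρ) (hint : ¬ ∃ n : ℕ, ρ = n) {N : Measure ℝ}
    (hN : Tame N) (hl : LE ρ l) (hr : RE ρ r) (hδ : 0 < δ) (h1 : EvLe ρ N l (-δ))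
    (h2 : EvLe ρ N r A) (h3 : 0 ≤ θ) (h4 : θ < Real.pi) {ε : ℝ} (hε : 0 < ε) :
    ∃ x₀, ∀ x, x₀ ≤ x → |Um ρ θ N x -
      Real.cos (ρ * θ) * (-FF ρ l N x / (l * Real.sin (ρ * l)))| ≤ ε * x := by
  obtain ⟨C₁, hC₁, hlip⟩ := mp_lip hρ hint hN h3 h4
  obtain ⟨C₀, hC₀, hU⟩ := abs_Um_le hρ hint h4
  obtain ⟨C₂, hC₂, hF⟩ := mp_FF hρ hint hN hl
  obtain ⟨K', hK'⟩ := (flux_right hρ hint hN hr h2).2
  set K : ℝ := max K' 1 with hK
  have hK1 : 1 ≤ K := le_max_right _ _
  have hhat : ∀ x, 1 ≤ x → hat ρ N x ≤ 2 * K * x := by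
    intro x hx
    refine (hK' x (by linarith)).trans ?_
    have : K' ≤ K := le_max_left _ _
    (first | linarith | nlinarith)
  set q : ℝ := |l * Real.sin (ρ * l)|⁻¹ with hq
  have hq0 : 0 ≤ q := inv_nonneg.2 (abs_nonneg _)
  set Bf : ℝ → ℝ := fun x => -FF ρ l N x / (l * Real.sin (ρ * l)) with hBf
  have hBabs : ∀ x y, |Bf x - Bf y| = q * |FF ρ l N x - FF ρ l N y| := by
    intro x y
    rw [hBf, hq]
    simp only
    rw [← sub_div, abs_div, div_eq_inv_mul, show -FF ρ l N x - -FF ρ l N y =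
      -(FF ρ l N x - FF ρ l N y) by ring, abs_neg]
  have hBle : ∀ x, |Bf x| ≤ q * C₂ * hat ρ N x := by
    intro x
    rw [hBf, hq]
    simp only
    rw [abs_div, div_eq_inv_mul, abs_neg, mul_assoc]
    exact mul_le_mul_of_nonneg_left (hF x) (inv_nonneg.2 (abs_nonneg _))
  -- choice of the Gaussian width
  obtain ⟨e, he, hJi, hJ⟩ := mp_small hρ (η := ε / (6 * K * C₁)) (by positivity)
  set S : ℝ := Real.sqrt (2 * Real.pi * e) * Real.exp (e * ρ ^ 2 / 2) with hS
  have hS0 : 0 < S := mul_pos (Real.sqrt_pos.2 (by positivity)) (Real.exp_pos _)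
  set W : ℝ := Real.exp (θ ^ 2 / (2 * e) + e * (ρ + 2) ^ 2) with hW
  have hW0 : 0 < W := Real.exp_pos _
  set G₀ : ℝ := ∫ u : ℝ, Real.exp (-(1 / (4 * e)) * u ^ 2) with hG₀
  have hG₀0 : 0 ≤ G₀ := integral_nonneg fun u => (Real.exp_pos _).le
  set M₁ : ℝ := ∫ u, |GG ρ e θ u| with hM₁
  have hM₁0 : 0 ≤ M₁ := integral_nonneg fun u => abs_nonneg _
  set C₃ : ℝ := C₀ + q * C₂ with hC₃
  have hC₃0 : 0 < C₃ := by positivity
  -- choice of L
  obtain ⟨L, hL0, hL⟩ : ∃ L : ℝ, 0 < L ∧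
      2 * K * C₃ * W * G₀ * Real.exp (-L) ≤ S * ε / 3 := by
    have hlim : Tendsto (fun L : ℝ => 2 * K * C₃ * W * G₀ * Real.exp (-L)) atTop
        (𝓝 (2 * K * C₃ * W * G₀ * 0)) :=
      (Real.tendsto_exp_atBot.comp tendsto_neg_atTop_atBot).const_mul _
    rw [mul_zero] at hlim
    have hpos : 0 < S * ε / 3 := by positivity
    obtain ⟨L, h5, h6⟩ := ((hlim.eventually (gt_mem_nhds hpos)).and
      (eventually_gt_atTop (0 : ℝ))).exists
    exact ⟨L, h6, h5.le⟩
  obtain ⟨η, hη0, hη⟩ : ∃ η : ℝ, 0 < η ∧ 3 * η * M₁ ≤ S * ε / 3 := by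
    refine ⟨S * ε / (9 * (M₁ + 1)), by positivity, ?_⟩
    rw [show 3 * (S * ε / (9 * (M₁ + 1))) * M₁ = S * ε / 3 * (M₁ / (M₁ + 1)) by
      field_simp
      ring]
    have h5 : M₁ / (M₁ + 1) ≤ 1 := by
      rw [div_le_one (by positivity)]
      linarith
    have : 0 ≤ S * ε / 3 := by positivity
    exact mul_le_of_le_one_right this h5
  obtain ⟨x₁, hx₁⟩ := um_zero hρ hint hN hl hr hδ h1 h2 hη0
  obtain ⟨x₂, hx₂⟩ := near_const hρ hint hN hl hr hδ h1 h2 hL0
    (ε := η / (q + 1)) (by positivity)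
  refine ⟨max (x₁ + L) (max x₂ (max 1 L)), fun x hx => ?_⟩
  have hxa : x₁ + L ≤ x := (le_max_left _ _).trans hx
  have hxb : x₂ ≤ x := (le_max_left _ _).trans ((le_max_right _ _).trans hx)
  have hxc : 1 ≤ x := (le_max_left _ _).trans ((le_max_right _ _).trans
    ((le_max_right _ _).trans hx))
  have hxd : L ≤ x := (le_max_right _ _).trans ((le_max_right _ _).trans
    ((le_max_right _ _).trans hx))
  have hh := hat_nonneg ρ N x
  have hx0 : 0 < x := by linarith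
  have hθI : θ ∈ Icc (0 : ℝ) Real.pi := ⟨h3, h4.le⟩
  have h0I : (0 : ℝ) ∈ Icc (0 : ℝ) Real.pi := ⟨le_rfl, Real.pi_pos.le⟩
  obtain ⟨fl1, fl2⟩ := mp_fub (ε := e) (b := 0) hρ hint hN hθI he x
  obtain ⟨fr1, fr2⟩ := mp_fub (ε := e) (b := θ) hρ hint hN h0I he x
  have hid : ∫ u, Um ρ θ N (x - u) * GG ρ e 0 u = ∫ u, Um ρ 0 N (x - u) * GG ρ e θ u := by
    rw [fl2, fr2]
    refine integral_congr_ae (Eventually.of_forall fun y => ?_)
    exact kk_gauss hρ hint he h3 h4 (x - y)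
  have hGi : ∀ b, Integrable (GG ρ e b) := fun b =>
    (integrable_norm_iff (mp_cont ρ e b).aestronglyMeasurable).1 (mp_intG hρ he)
  have hS1 : ∫ u, GG ρ e 0 u = S := by
    rw [mp_val he, mul_zero, Real.cos_zero, mul_one]
  have hS2 : ∫ u, GG ρ e θ u = S * Real.cos (ρ * θ) := mp_val he
  have hGG0 : ∀ u, 0 ≤ GG ρ e 0 u := by
    intro u
    unfold GG
    rw [mul_zero, zero_div, Real.cos_zero]
    positivity
  -- left side
  have hleft : |(∫ u, Um ρ θ N (x - u) * GG ρ e 0 u) - S * Um ρ θ N x| ≤ S * ε / 3 * x := by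
    have e1 : (∫ u, Um ρ θ N (x - u) * GG ρ e 0 u) - S * Um ρ θ N x =
        ∫ u, (Um ρ θ N (x - u) - Um ρ θ N x) * GG ρ e 0 u := by
      rw [← hS1, mul_comm, ← integral_const_mul, ← integral_sub fl1 ((hGi 0).const_mul _)]
      refine integral_congr_ae (Eventually.of_forall fun u => ?_)
      simp only
      ring
    rw [e1, ← Real.norm_eq_abs]
    have e2 : ∫ u, C₁ * hat ρ N x * (|u| * Real.exp |u| * GG ρ e 0 u) =
        C₁ * hat ρ N x * ∫ u, |u| * Real.exp |u| * GG ρ e 0 u := integral_const_mul _ _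
    calc ‖∫ u, (Um ρ θ N (x - u) - Um ρ θ N x) * GG ρ e 0 u‖
        ≤ ∫ u, C₁ * hat ρ N x * (|u| * Real.exp |u| * GG ρ e 0 u) := by
          refine norm_integral_le_of_norm_le (hJi.const_mul _) (Eventually.of_forall fun u => ?_)
          rw [norm_mul, Real.norm_eq_abs, Real.norm_of_nonneg (hGG0 u)]
          refine (mul_le_mul_of_nonneg_right (hlip x u) (hGG0 u)).trans (le_of_eq ?_)
          ring
      _ = C₁ * hat ρ N x * ∫ u, |u| * Real.exp |u| * GG ρ e 0 u := e2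
      _ ≤ C₁ * (2 * K * x) * (ε / (6 * K * C₁) * S) := by
          refine mul_le_mul (mul_le_mul_of_nonneg_left (hhat x hxc) hC₁.le) hJ ?_ (by positivity)
          refine integral_nonneg fun u => ?_
          have := hGG0 u
          positivity
      _ = S * ε / 3 * x := by
          field_simp
          ring
  -- right side
  have hright : |(∫ u, Um ρ 0 N (x - u) * GG ρ e θ u) - S * Real.cos (ρ * θ) * Bf x| ≤
      (S * ε / 3 + S * ε / 3) * x := by
    have e1 : (∫ u, Um ρ 0 N (x - u) * GG ρ e θ u) - S * Real.cos (ρ * θ) * Bf x =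
        ∫ u, (Um ρ 0 N (x - u) - Bf x) * GG ρ e θ u := by
      rw [← hS2, mul_comm _ (Bf x), ← integral_const_mul,
        ← integral_sub fr1 ((hGi θ).const_mul _)]
      refine integral_congr_ae (Eventually.of_forall fun u => ?_)
      simp only
      ring
    rw [e1, ← Real.norm_eq_abs]
    have hIa := (mp_intG (θ := θ) hρ he).const_mul (3 * η * x)
    have hIb := (mp_gau he).const_mul (C₃ * hat ρ N x * W * Real.exp (-L))
    calc ‖∫ u, (Um ρ 0 N (x - u) - Bf x) * GG ρ e θ u‖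
        ≤ ∫ u, (3 * η * x * |GG ρ e θ u| +
          C₃ * hat ρ N x * W * Real.exp (-L) * Real.exp (-(1 / (4 * e)) * u ^ 2)) := by
          refine norm_integral_le_of_norm_le (hIa.add hIb) (Eventually.of_forall fun u => ?_)
          rw [norm_mul, Real.norm_eq_abs, Real.norm_eq_abs]
          have p1 : 0 ≤ 3 * η * x * |GG ρ e θ u| := by positivity
          have p2 : 0 ≤ C₃ * hat ρ N x * W * Real.exp (-L) *
            Real.exp (-(1 / (4 * e)) * u ^ 2) := by positivity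
          rcases le_or_gt |u| L with h | h
          · have ha := abs_le.1 h
            have i1 := hx₁ (x - u) (by linarith)
            have i2 := hx₂ x hxb u h
            have i3 : |Bf (x - u) - Bf x| ≤ η * x := by
              rw [hBabs]
              refine (mul_le_mul_of_nonneg_left i2 hq0).trans ?_
              have i4 : q * (η / (q + 1) * x) = η * x * (q / (q + 1)) := by
                field_simp
              rw [i4]
              have i5 : q / (q + 1) ≤ 1 := by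
                rw [div_le_one (by positivity)]
                linarith
              have i6 : 0 ≤ η * x := by positivity
              exact mul_le_of_le_one_right i6 i5
            have i7 : |Um ρ 0 N (x - u) - Bf x| ≤ 3 * η * x := by
              have i8 : |Um ρ 0 N (x - u) - Bf (x - u)| ≤ η * (x - u) := i1
              have i9 := abs_sub_le (Um ρ 0 N (x - u)) (Bf (x - u)) (Bf x)
              have i10 : η * (x - u) ≤ η * (2 * x) :=
                mul_le_mul_of_nonneg_left (by linarith [ha.1]) hη0.le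
              linarith
            have i10 := mul_le_mul_of_nonneg_right i7 (abs_nonneg (GG ρ e θ u))
            linarith
          · have i1 := hU N hN 0 ⟨le_rfl, h3⟩ (x - u)
            have i2 := mp_hat hρ hint hN x u
            have i3 := hBle x
            have he1 : 1 ≤ Real.exp |u| := Real.one_le_exp (abs_nonneg u)
            have i4 : |Um ρ 0 N (x - u) - Bf x| ≤ C₃ * hat ρ N x * Real.exp |u| := by
              have j1 : |Um ρ 0 N (x - u) - Bf x| ≤ |Um ρ 0 N (x - u)| + |Bf x| := abs_sub _ _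
              have j2 := mul_le_mul_of_nonneg_left i2 hC₀.le
              have j3 : q * C₂ * hat ρ N x ≤ q * C₂ * hat ρ N x * Real.exp |u| :=
                le_mul_of_one_le_right (by positivity) he1
              rw [hC₃]
              linarith
            have i5 := mp_bd (ε := e) (θ := θ) (κ := 2) hρ he u
            have i6 : Real.exp |u| * |GG ρ e θ u| ≤
                Real.exp (-L) * (W * Real.exp (-(1 / (4 * e)) * u ^ 2)) := by
              have j1 : Real.exp |u| * |GG ρ e θ u| =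
                  Real.exp (-|u|) * (Real.exp (2 * |u|) * |GG ρ e θ u|) := by
                rw [← mul_assoc, ← Real.exp_add]
                congr 2
                ring
              rw [j1]
              refine mul_le_mul (Real.exp_le_exp.2 (by linarith)) i5 (by positivity)
                (Real.exp_pos _).le
            have i7 := mul_le_mul_of_nonneg_right i4 (abs_nonneg (GG ρ e θ u))
            have i8 := mul_le_mul_of_nonneg_left i6
              (mul_nonneg hC₃0.le hh : 0 ≤ C₃ * hat ρ N x)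
            calc |Um ρ 0 N (x - u) - Bf x| * |GG ρ e θ u|
                ≤ C₃ * hat ρ N x * Real.exp |u| * |GG ρ e θ u| := i7
              _ = C₃ * hat ρ N x * (Real.exp |u| * |GG ρ e θ u|) := by ring
              _ ≤ _ := i8
              _ = C₃ * hat ρ N x * W * Real.exp (-L) * Real.exp (-(1 / (4 * e)) * u ^ 2) := by
                  ring
              _ ≤ _ := by linarith
      _ = 3 * η * x * M₁ + C₃ * hat ρ N x * W * Real.exp (-L) * G₀ := by
          rw [integral_add hIa hIb, integral_const_mul, integral_const_mul]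
      _ ≤ 3 * η * x * M₁ + C₃ * (2 * K * x) * W * Real.exp (-L) * G₀ := by
          have := hhat x hxc
          gcongr
      _ = (3 * η * M₁ + 2 * K * C₃ * W * G₀ * Real.exp (-L)) * x := by ring
      _ ≤ _ := by gcongr
  rw [hid] at hleft
  have e1 := abs_sub_le (S * Um ρ θ N x) (∫ u, Um ρ 0 N (x - u) * GG ρ e θ u)
    (S * Real.cos (ρ * θ) * Bf x)
  rw [abs_sub_comm (S * Um ρ θ N x) (∫ u, Um ρ 0 N (x - u) * GG ρ e θ u)] at e1
  have e2 : |S * Um ρ θ N x - S * Real.cos (ρ * θ) * Bf x| =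
      S * |Um ρ θ N x - Real.cos (ρ * θ) * Bf x| := by
    rw [show S * Um ρ θ N x - S * Real.cos (ρ * θ) * Bf x =
      S * (Um ρ θ N x - Real.cos (ρ * θ) * Bf x) by ring, abs_mul, abs_of_pos hS0]
  rw [e2] at e1
  have e3 : S * |Um ρ θ N x - Real.cos (ρ * θ) * Bf x| ≤ S * (ε * x) := by
    have : S * (ε * x) = S * ε / 3 * x + (S * ε / 3 + S * ε / 3) * x := by ring
    linarith
  exact le_of_mul_le_mul_left e3 hS0

theorem mix_evLe {ρ l r δ A θ : ℝ} (hρ : 0 < ρ) (hint : ¬ ∃ n : ℕ, ρ = n) {N : Measure ℝ}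
    (hN : Tame N) (hl : LE ρ l) (hr : RE ρ r) (hδ : 0 < δ) (h1 : EvLe ρ N l (-δ))
    (h2 : EvLe ρ N r A) (h3 : 0 ≤ θ) (h4 : θ < Real.pi) (h5 : sg ρ θ < 0) (B : ℝ) :
    EvLe ρ N θ B := by
  obtain ⟨c, hc, x₁, hx₁⟩ := flux_LE hρ hint hN hl hδ h1
  obtain ⟨c', hc', hL⟩ := Lam_LE hρ hint hl
  have hl0 : 0 < l := by
    refine lt_of_le_of_ne hl.1 fun h => ?_
    have := hl.2.2.1
    rw [← h, mul_zero, Real.cos_zero] at this
    exact one_ne_zero this
  have hFF : ∀ x, c' * hat ρ N x ≤ -FF ρ l N x := by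
    intro x
    obtain ⟨C, hC, hLC⟩ := abs_Lam_le hρ hint ⟨hl.1, hl.2.1⟩ hl.2.2.1
    have hI : Integrable (fun y => Lam ρ l (x - y)) N := by
      refine Integrable.mono' ((integrable_ph_sub hρ hint hN x).const_mul C) ?_
        (Eventually.of_forall fun y => ?_)
      · exact ((continuous_Lam hρ hint ⟨hl.1, hl.2.1⟩).comp
          (continuous_const.sub continuous_id)).aestronglyMeasurable
      · exact hLC (x - y)
    have h6 : FF ρ l N x ≤ ∫ y, -(c' * ph ρ (x - y)) ∂N :=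
      integral_mono hI ((integrable_ph_sub hρ hint hN x).const_mul c').neg
        fun y => hL (x - y)
    have h7 : ∫ y, -(c' * ph ρ (x - y)) ∂N = -(c' * hat ρ N x) := by
      rw [integral_neg, integral_const_mul]
      rfl
    linarith
  have hneg : Real.cos (ρ * θ) * Real.sin (ρ * l) < 0 := by
    have h6 : Real.cos (ρ * θ) * Real.sin (ρ * l) =
        sg ρ θ * ((-1) ^ ⌊ρ⌋₊ * Real.sin (ρ * l)) := by
      unfold sg
      have : ((-1 : ℝ) ^ ⌊ρ⌋₊) * (-1) ^ ⌊ρ⌋₊ = 1 := by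
        rw [← mul_pow]
        norm_num
      calc Real.cos (ρ * θ) * Real.sin (ρ * l)
          = ((-1 : ℝ) ^ ⌊ρ⌋₊ * (-1) ^ ⌊ρ⌋₊) * (Real.cos (ρ * θ) * Real.sin (ρ * l)) := by
            rw [this, one_mul]
        _ = _ := by ring
    rw [h6]
    exact mul_neg_of_neg_of_pos h5 hl.2.2.2
  have hs0 : Real.sin (ρ * l) ≠ 0 := fun h => by
    rw [h, mul_zero] at hneg
    exact lt_irrefl _ hneg
  obtain ⟨q, hq, hqe⟩ : ∃ q : ℝ, 0 < q ∧ Real.cos (ρ * θ) / (l * Real.sin (ρ * l)) = -q := by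
    refine ⟨-(Real.cos (ρ * θ) / (l * Real.sin (ρ * l))), ?_, by ring⟩
    have h6 : Real.cos (ρ * θ) / (l * Real.sin (ρ * l)) =
        Real.cos (ρ * θ) * Real.sin (ρ * l) / (l * Real.sin (ρ * l) ^ 2) := by
      field_simp
    rw [h6, neg_pos]
    exact div_neg_of_neg_of_pos hneg (by positivity)
  obtain ⟨x₂, hx₂⟩ := um_mix hρ hint hN hl hr hδ h1 h2 h3 h4
    (ε := q * c' * c / 2) (by positivity)
  set m : ℝ := q * c' * c with hm
  have hm0 : 0 < m := by positivity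
  refine ⟨max (max x₁ x₂) (max 0 (-(2 * B / m))), Eventually.of_forall fun x hx => ?_⟩
  have ha : x₁ ≤ x := (le_max_left _ _).trans ((le_max_left _ _).trans hx)
  have hb : x₂ ≤ x := (le_max_right _ _).trans ((le_max_left _ _).trans hx)
  have hc0 : 0 ≤ x := (le_max_left _ _).trans ((le_max_right _ _).trans hx)
  have hd : -(2 * B / m) ≤ x := (le_max_right _ _).trans ((le_max_right _ _).trans hx)
  have i1 := (abs_le.1 (hx₂ x hb)).2
  have i2 : Real.cos (ρ * θ) * (-FF ρ l N x / (l * Real.sin (ρ * l))) = -q * -FF ρ l N x := by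
    rw [← hqe]
    ring
  rw [i2] at i1
  have i3 : m * x ≤ q * -FF ρ l N x := by
    calc m * x = q * (c' * (c * x)) := by rw [hm]; ring
      _ ≤ q * (c' * hat ρ N x) := by
          have := hx₁ x ha
          gcongr
      _ ≤ q * -FF ρ l N x := by
          have := hFF x
          gcongr
  have i4 : -(m * x / 2) ≤ B := by
    have i5 := mul_le_mul_of_nonneg_left hd hm0.le
    have i6 : m * -(2 * B / m) = -(2 * B) := by
      field_simp
    rw [i6] at i5
    linarith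
  linarith

private lemma mp_bot {z : EReal} (h : ∀ B : ℝ, z ≤ (B : EReal)) : z = ⊥ := by
  rw [EReal.eq_bot_iff_forall_lt]
  intro y
  refine (h (y - 1)).trans_lt ?_
  exact_mod_cast sub_one_lt y

theorem nec_mix {ρ l r : ℝ} (hρ : 0 < ρ) (hint : ¬ ∃ n : ℕ, ρ = n) {f : ℂ → ℂ}
    (hf : IsN ρ f) (hl : LE ρ l) (hr : RE ρ r) (h1 : indicatorOf ρ f l < 0)
    (h2 : indicatorOf ρ f r < ⊤) {θ : ℝ} (hθ : θ ∈ Icc (0 : ℝ) Real.pi) (h3 : sg ρ θ < 0) :
    indicatorOf ρ f θ = ⊥ := by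
  obtain ⟨N, hR⟩ := exists_rep hρ hint hf
  obtain ⟨a, ha1, ha2⟩ := EReal.lt_iff_exists_real_btwn.1 h1
  have ha0 : a < 0 := by exact_mod_cast ha2
  obtain ⟨A, hA1, -⟩ := EReal.lt_iff_exists_real_btwn.1 h2
  have hEl : EvLe ρ N l (-(-a)) := by
    rw [neg_neg]
    exact evLe_of_lt hρ hR ⟨hl.1, hl.2.1⟩ ha1
  have hEr : EvLe ρ N r A := evLe_of_lt hρ hR ⟨hr.1, hr.2.1⟩ hA1
  have hlt : ∀ t : ℝ, 0 ≤ t → t < Real.pi → sg ρ t < 0 → indicatorOf ρ f t = ⊥ := by
    intro t ht0 ht1 ht2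
    refine mp_bot fun B => ?_
    exact indicator_le_of_evLe hρ hR ⟨ht0, ht1.le⟩
      (mix_evLe hρ hint hR.tame hl hr (neg_pos.2 ha0) hEl hEr ht0 ht1 ht2 B)
  rcases hθ.2.lt_or_eq with h | h
  · exact hlt θ hθ.1 h h3
  · rw [h] at h3 ⊢
    have hc : Continuous (sg ρ) := by
      unfold sg
      fun_prop
    have hev : ∀ᶠ t in 𝓝[<] Real.pi, sg ρ t < 0 :=
      ((hc.tendsto Real.pi).eventually (gt_mem_nhds h3)).filter_mono nhdsWithin_le_nhds
    have hev2 : ∀ᶠ t : ℝ in 𝓝[<] Real.pi, 0 < t :=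
      (lt_mem_nhds Real.pi_pos).filter_mono nhdsWithin_le_nhds
    have hev3 : ∀ᶠ t : ℝ in 𝓝[<] Real.pi, ρ * (2 * (Real.pi - t)) < Real.pi := by
      have hc2 : Continuous (fun t : ℝ => ρ * (2 * (Real.pi - t))) := by fun_prop
      have h5 := hc2.tendsto Real.pi
      rw [sub_self, mul_zero, mul_zero] at h5
      exact (h5.eventually (gt_mem_nhds Real.pi_pos)).filter_mono nhdsWithin_le_nhds
    obtain ⟨t, ⟨⟨ht1, ht2⟩, ht3⟩, ht4⟩ :=
      (((hev.and hev2).and hev3).and self_mem_nhdsWithin).exists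
    have ht4' : t < Real.pi := ht4
    have hb1 := hlt t ht2.le ht4' ht1
    have hb2 : indicatorOf ρ f (2 * Real.pi - t) = ⊥ := by
      rw [show 2 * Real.pi - t = -t + 2 * Real.pi by ring, indicatorOf_add_two_pi,
        even_of_indicator hρ hint hf, hb1]
    refine mp_bot fun B => ?_
    set v : ℝ := ρ * (Real.pi - t) with hv
    have hv0 : 0 < v := mul_pos hρ (by linarith)
    have hv1 : 2 * v < Real.pi := by
      rw [hv]
      linarith
    have hs1 : 0 < Real.sin v := Real.sin_pos_of_pos_of_lt_pi hv0 (by linarith)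
    have hs2 : 0 < Real.sin (2 * v) := Real.sin_pos_of_pos_of_lt_pi (by linarith) hv1
    have h6 := nec_trig hρ hf (h := indicatorOf ρ f) (fun _ => rfl) t Real.pi (2 * Real.pi - t)
      (B * Real.sin (2 * v) / (2 * Real.sin v)) (B * Real.sin (2 * v) / (2 * Real.sin v))
      ht4' (by linarith) (by rw [show 2 * Real.pi - t - t = 2 * (Real.pi - t) by ring]; exact ht3)
      (by rw [hb1]; exact bot_le) (by rw [hb2]; exact bot_le)
    have e1 : ρ * (2 * Real.pi - t - Real.pi) = v := by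
      rw [hv]
      ring
    have e2 : ρ * (2 * Real.pi - t - t) = 2 * v := by
      rw [hv]
      ring
    rw [e1, e2, ← hv] at h6
    have e3 : (B * Real.sin (2 * v) / (2 * Real.sin v) * Real.sin v +
        B * Real.sin (2 * v) / (2 * Real.sin v) * Real.sin v) / Real.sin (2 * v) = B := by
      field_simp
      ring
    rw [e3] at h6
    exact h6

end Helper25.Ind
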