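import Pool.Agent.Helper25.Ind2.Pair
import Pool.Agent.Helper25.Ind2.ConcL
import Pool.Agent.Helper25.Ind2.Finish

/-!
# IND2 B5: sufficiency, mixed class (`h l₀ < 0` for a left end point, `h r₀ < ⊤` for a right end point)

PROOFS.
* `finite_zeros`: `ρθ = (k + 1/2)π` with integers `0 ≤ k ≤ ρ`.
* `exists_slope`: `b = max over LE l with h l < 0 of -(h l)/DD ρ l` (finite nonempty set; `h l ≠ ⊥` by `pair_ineq` with `r₀`; `DD_LE`), `b > 0`. For `RE r` with `h r ≠ ⊤`: `pair_ineq` with the maximising `l` gives `-(h l)/DD ρ l ≤ h r/(-DD ρ r)`. So for all zeros `θ` with `h θ ≠ ⊤`: `h θ` is real and `0 ≤ h θ + b DD ρ θ`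
  (for `LE l` with `0 ≤ h l`: trivial as `DD > 0`; `h l ≠ ⊥` there).
* `patch_m`: `patch_signed` with `k j = kk ρ (φ j)`, `k₀ = kk ρ τ`, `D j = DD ρ (φ j)`, `D₀ = DD ρ τ`, `β = b`; `hs`: `-(b DD) ≤ h < γ`. `hcert`: `InfCond.maj` (an a.e. equality is an a.e. inequality), as in `patch_a`. `hmom`: from `kk τ s = ∑ ∫ kk (φ j) (s+x) dμ j` a.e., integrate over `s ∈ (-∞, v]` (Fubini, `kk ∈ L¹`, finite measures):
  `Lam ρ τ v = ∑ ∫ Lam ρ (φ j) (v+x) dμ j` for all `v`; integrate over `v` (`integrable_Lam`, Fubini): `-DD τ = ∑ -DD (φ j) μ j(ℝ)` (`integral_Lam`).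
* `suff_m`: zeros of `cos ρθ` in `[0,π]`: finite set `Z`. Stage `i`: constraints `J = {θ ∈ Z | h θ ≠ ⊤}`, `γ θ = (h θ).toReal + 1/(i+1)`; target `τ i`: enumerate `Z` (nonempty) by `e : ℕ → ℝ` with range `Z`, `τ i = e (Nat.unpair i).1`, level `i` if `h τ = ⊤`, else `(h τ).toReal - 1/(i+1)`. `patch_m` gives `m i`; `conc_l` gives `N`, `X`.
  For `θ ∈ Z`: `cc ρ 0 θ = 0`, `∫ s kk = DD ρ θ` (`integral_mul_kk`): for `x` large `U N x ≤ -(b DD) + U (m i) x' + ε < γ θ + ε`, and at `X i`: `≥ t i - ε`: `limsup_eq_of` (as in `suff_a`). For `0 < sg ρ θ`: `cc > 0` (`cc_eq_sg`), `U N x ≥ cc b x - C - C' ε x - ε` where `|U (m i) x'| ≤ ε x ∫|kk|` and `ε` is small compared with `cc b/∫|kk|`: tends to `+∞ = h θ` (`off`).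
  For `sg ρ θ < 0` it tends to `-∞`, `h θ = ⊥` (`InfCond.mix`). `sg ρ θ = 0` iff `θ ∈ Z`.
-/

open Filter Topology MeasureTheory Set

namespace Helper25.Ind

lemma finite_zeros (ρ : ℝ) (hρ : 0 < ρ) :
    {θ : ℝ | θ ∈ Icc (0 : ℝ) Real.pi ∧ Real.cos (ρ * θ) = 0}.Finite := by
  have hpi := Real.pi_pos
  refine ((Set.finite_Icc (-1 : ℤ) ⌈ρ⌉).image
    (fun k : ℤ => (2 * (k : ℝ) + 1) * Real.pi / 2 / ρ)).subset ?_
  rintro θ ⟨⟨h0, h1⟩, h2⟩
  obtain ⟨k, hk⟩ := Real.cos_eq_zero_iff.1 h2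
  refine ⟨k, ⟨?_, ?_⟩, ?_⟩
  · by_contra hc
    have h3 : k ≤ -2 := by omega
    have h4 : (k : ℝ) ≤ -2 := by exact_mod_cast h3
    have h5 : 0 ≤ ρ * θ := by positivity
    rw [hk] at h5
    nlinarith
  · have h5 : ρ * θ ≤ ρ * Real.pi := mul_le_mul_of_nonneg_left h1 hρ.le
    rw [hk] at h5
    have h6 : (2 * (k : ℝ) + 1) / 2 ≤ ρ := by
      by_contra hc
      push Not at hc
      nlinarith [mul_lt_mul_of_pos_right hc hpi]
    have h7 : (k : ℝ) ≤ (⌈ρ⌉ : ℝ) := by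
      have := Int.le_ceil ρ
      linarith
    exact_mod_cast h7
  · simp only
    rw [← hk]
    field_simp

lemma exists_slope {ρ : ℝ} (hρ : 0 < ρ) (hint : ¬ ∃ n : ℕ, ρ = n) {h : ℝ → EReal}
    (hh : InfCond ρ h) (h1 : ∃ l, LE ρ l ∧ h l < 0) (h2 : ∃ r, RE ρ r ∧ h r < ⊤) :
    ∃ b : ℝ, 0 < b ∧ ∀ θ ∈ Icc (0 : ℝ) Real.pi, Real.cos (ρ * θ) = 0 → h θ ≠ ⊤ →
      ∃ v : ℝ, h θ = v ∧ 0 ≤ v + b * DD ρ θ := by
  classical
  obtain ⟨r₀, hr₀, hr₀t⟩ := h2
  have hLr : ∀ l, LE ρ l → h l ≠ ⊤ → ∃ a : ℝ, h l = a := by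
    intro l hl hlt
    obtain ⟨a, b, h3, h4, h5⟩ := pair_ineq hρ hint hh hl hr₀ hlt hr₀t.ne
    exact ⟨a, h3⟩
  set Z := (finite_zeros ρ hρ).toFinset with hZ
  have hZm : ∀ θ, θ ∈ Z ↔ θ ∈ Icc (0 : ℝ) Real.pi ∧ Real.cos (ρ * θ) = 0 := by
    intro θ
    rw [hZ, Set.Finite.mem_toFinset]
    rfl
  set L := Z.filter (fun l => LE ρ l ∧ h l < 0) with hL
  have hLne : L.Nonempty := by
    obtain ⟨l, hl, hl0⟩ := h1
    refine ⟨l, ?_⟩
    rw [hL, Finset.mem_filter]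
    exact ⟨(hZm l).2 ⟨⟨hl.1, hl.2.1⟩, hl.2.2.1⟩, hl, hl0⟩
  obtain ⟨l, hlL, hlmax⟩ := Finset.exists_max_image L (fun l => -(h l).toReal / DD ρ l) hLne
  have hl : LE ρ l ∧ h l < 0 := (Finset.mem_filter.1 hlL).2
  have hlt : h l ≠ ⊤ := (lt_of_lt_of_le hl.2 le_top).ne
  obtain ⟨a, ha⟩ := hLr l hl.1 hlt
  have hDl := DD_LE hρ hint hl.1
  have ha0 : a < 0 := by
    have := hl.2
    rw [ha] at this
    exact_mod_cast this
  have hb0 : 0 < -a / DD ρ l := div_pos (neg_pos.2 ha0) hDl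
  refine ⟨-a / DD ρ l, hb0, ?_⟩
  intro θ hθ hz hθt
  rcases zero_LE_or_RE hθ hz with hE | hE
  · obtain ⟨v, hv⟩ := hLr θ hE hθt
    refine ⟨v, hv, ?_⟩
    have hDθ := DD_LE hρ hint hE
    by_cases hv0 : v < 0
    · have hmem : θ ∈ L := by
        rw [hL, Finset.mem_filter]
        refine ⟨(hZm θ).2 ⟨hθ, hz⟩, hE, ?_⟩
        rw [hv]
        exact_mod_cast hv0
      have h3 := hlmax θ hmem
      simp only [hv, ha, EReal.toReal_coe] at h3
      rw [div_le_iff₀ hDθ] at h3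
      linarith
    · have := mul_pos hb0 hDθ
      linarith
  · obtain ⟨a', v, h3, h4, h5⟩ := pair_ineq hρ hint hh hl.1 hE hlt hθt
    have haa : a' = a := by
      rw [ha] at h3
      exact_mod_cast h3.symm
    refine ⟨v, h4, ?_⟩
    rw [haa] at h5
    have h6 : v + -a / DD ρ l * DD ρ θ = (DD ρ l * v - DD ρ θ * a) / DD ρ l := by
      field_simp
      ring
    rw [h6]
    exact div_nonneg h5 hDl.le

private lemma sm_prod {f : ℝ → ℝ} (hm : Measurable f) (hf : Integrable f) (μ : Measure ℝ)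
    [IsFiniteMeasure μ] :
    Integrable (fun q : ℝ × ℝ => f (q.1 + q.2)) ((volume : Measure ℝ).prod μ) := by
  have hmm : Measurable (fun q : ℝ × ℝ => f (q.1 + q.2)) :=
    hm.comp (measurable_fst.add measurable_snd)
  rw [integrable_prod_iff' hmm.aestronglyMeasurable]
  refine ⟨Eventually.of_forall fun y => hf.comp_add_right y, ?_⟩
  have h1 : (fun y : ℝ => ∫ x, ‖f (x + y)‖) = fun _ => ∫ x, ‖f x‖ := by
    funext y
    exact integral_add_right_eq_self (fun x => ‖f x‖) y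
  simp only
  rw [h1]
  exact integrable_const _

private lemma sm_int1 {f : ℝ → ℝ} (hm : Measurable f) (hf : Integrable f) (μ : Measure ℝ)
    [IsFiniteMeasure μ] : Integrable (fun s : ℝ => ∫ x, f (s + x) ∂μ) :=
  (sm_prod hm hf μ).integral_prod_left

private lemma sm_int2 {f : ℝ → ℝ} (hm : Measurable f) (hf : Integrable f) (μ : Measure ℝ)
    [IsFiniteMeasure μ] :
    ∫ s : ℝ, ∫ x, f (s + x) ∂μ = (μ univ).toReal * ∫ s, f s := by
  rw [integral_integral_swap (f := fun s x => f (s + x)) (sm_prod hm hf μ)]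
  have h1 : (fun x : ℝ => ∫ s, f (s + x)) = fun _ => ∫ s, f s := by
    funext x
    exact integral_add_right_eq_self f x
  rw [h1, integral_const]
  rfl

private lemma sm_int3 {f : ℝ → ℝ} (hm : Measurable f) (hf : Integrable f) (μ : Measure ℝ)
    [IsFiniteMeasure μ] (v : ℝ) :
    ∫ s in Iic v, ∫ x, f (s + x) ∂μ = ∫ x, (∫ s in Iic (v + x), f s) ∂μ := by
  have h : ((volume : Measure ℝ).restrict (Iic v)).prod μ =
      ((volume : Measure ℝ).prod μ).restrict (Iic v ×ˢ univ) := by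
    conv_lhs => rw [← Measure.restrict_univ (μ := μ)]
    rw [Measure.prod_restrict]
  have hI : Integrable (fun q : ℝ × ℝ => f (q.1 + q.2))
      (((volume : Measure ℝ).restrict (Iic v)).prod μ) := by
    rw [h]
    exact (sm_prod hm hf μ).integrableOn
  rw [integral_integral_swap (f := fun s x => f (s + x)) hI]
  congr 1
  funext x
  rw [← integral_indicator measurableSet_Iic, ← integral_indicator measurableSet_Iic,
    ← integral_add_right_eq_self (indicator (Iic (v + x)) f) x]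
  congr 1
  funext s
  by_cases hs : s ≤ v
  · rw [indicator_of_mem (show s ∈ Iic v from hs),
      indicator_of_mem (show s + x ∈ Iic (v + x) from by simpa using hs)]
  · rw [indicator_of_notMem (show s ∉ Iic v from hs),
      indicator_of_notMem (show s + x ∉ Iic (v + x) from by simpa using hs)]

private lemma sm_mom {ρ : ℝ} (hρ : 0 < ρ) (hint : ¬ ∃ n : ℕ, ρ = n) {n : ℕ} (φ : Fin n → ℝ)
    (τ : ℝ) (hφ : ∀ j, φ j ∈ Icc (0 : ℝ) Real.pi ∧ Real.cos (ρ * φ j) = 0)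
    (hτ : τ ∈ Icc (0 : ℝ) Real.pi) (hτz : Real.cos (ρ * τ) = 0) (μ : Fin n → Measure ℝ)
    (hμ : ∀ j, IsFiniteMeasure (μ j))
    (hae : ∀ᵐ s : ℝ, kk ρ τ s = ∑ j, ∫ x, kk ρ (φ j) (s + x) ∂(μ j)) :
    DD ρ τ = ∑ j, DD ρ (φ j) * (μ j univ).toReal := by
  have h1 : ∀ v, Lam ρ τ v = ∑ j, ∫ x, Lam ρ (φ j) (v + x) ∂(μ j) := by
    intro v
    unfold Lam
    rw [integral_congr_ae (ae_restrict_of_ae hae), integral_finsetSum]
    · refine Finset.sum_congr rfl fun j _ => ?_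
      have := hμ j
      exact sm_int3 (measurable_kk ρ (φ j)) (integrable_kk hρ hint (hφ j).1) (μ j) v
    · intro j _
      have := hμ j
      exact (sm_int1 (measurable_kk ρ (φ j)) (integrable_kk hρ hint (hφ j).1) (μ j)).integrableOn
  have h2 := integral_Lam hρ hint hτ hτz
  have h3 : ∫ v, Lam ρ τ v = ∑ j, (μ j univ).toReal * ∫ v, Lam ρ (φ j) v := by
    have e : (fun v => Lam ρ τ v) = fun v => ∑ j, ∫ x, Lam ρ (φ j) (v + x) ∂(μ j) := funext h1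
    rw [e, integral_finsetSum]
    · refine Finset.sum_congr rfl fun j _ => ?_
      have := hμ j
      exact sm_int2 (continuous_Lam hρ hint (hφ j).1).measurable
        (integrable_Lam hρ hint (hφ j).1 (hφ j).2) (μ j)
    · intro j _
      have := hμ j
      exact sm_int1 (continuous_Lam hρ hint (hφ j).1).measurable
        (integrable_Lam hρ hint (hφ j).1 (hφ j).2) (μ j)
  rw [h2] at h3
  have h4 : ∑ j, (μ j univ).toReal * ∫ v, Lam ρ (φ j) v =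
      -∑ j, DD ρ (φ j) * (μ j univ).toReal := by
    rw [← Finset.sum_neg_distrib]
    refine Finset.sum_congr rfl fun j _ => ?_
    rw [integral_Lam hρ hint (hφ j).1 (hφ j).2]
    ring
  rw [h4] at h3
  linarith

private lemma sm_coe_sum {n : ℕ} (f : Fin n → ℝ) :
    ((∑ j, f j : ℝ) : EReal) = ∑ j, ((f j : ℝ) : EReal) :=
  map_sum (⟨⟨fun x : ℝ => (x : EReal), EReal.coe_zero⟩, EReal.coe_add⟩ : ℝ →+ EReal) f _

lemma patch_m {ρ b : ℝ} (hρ : 0 < ρ) (hint : ¬ ∃ n : ℕ, ρ = n) {h : ℝ → EReal}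
    (hh : InfCond ρ h) (J : Finset ℝ) (γ : ℝ → ℝ)
    (hJ : ∀ θ ∈ J, θ ∈ Icc (0 : ℝ) Real.pi ∧ Real.cos (ρ * θ) = 0 ∧ h θ < ((γ θ : ℝ) : EReal) ∧
      -(b * DD ρ θ) < γ θ) {τ t : ℝ} (hτ : τ ∈ Icc (0 : ℝ) Real.pi)
    (hτz : Real.cos (ρ * τ) = 0) (ht : (t : EReal) < h τ) :
    ∃ m : ℝ → ℝ, Continuous m ∧ HasCompactSupport m ∧
      (∀ θ ∈ J, ∀ x, -(b * DD ρ θ) + U ρ θ m x < γ θ) ∧ t < -(b * DD ρ τ) + U ρ τ m 0 := by
  obtain ⟨n, φ, hφJ, hφs⟩ : ∃ (n : ℕ) (φ : Fin n → ℝ), (∀ j, φ j ∈ J) ∧ ∀ θ ∈ J, ∃ j, φ j = θ := by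
    refine ⟨J.card, fun j => (J.equivFin.symm j : ℝ), fun j => (J.equivFin.symm j).2, ?_⟩
    intro θ hθ
    exact ⟨J.equivFin ⟨θ, hθ⟩, by simp⟩
  have hcert : ∀ μ : Fin n → Measure ℝ, (∀ j, IsFiniteMeasure (μ j)) →
      (∀ᵐ s : ℝ, kk ρ τ s = ∑ j, ∫ x, kk ρ (φ j) (s + x) ∂(μ j)) →
      t < ∑ j, γ (φ j) * (μ j univ).toReal := by
    intro μ hμ hae
    have h3 := hh.maj n φ μ τ hμ (fun j => (hJ _ (hφJ j)).1) hτ
      (fun j => ne_top_of_lt (hJ _ (hφJ j)).2.2.1) (hae.mono fun s hs => hs.le)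
    have h4 : ∑ j, (((μ j univ).toReal : ℝ) : EReal) * h (φ j) ≤
        ((∑ j, γ (φ j) * (μ j univ).toReal : ℝ) : EReal) := by
      rw [sm_coe_sum]
      refine Finset.sum_le_sum fun j _ => ?_
      rw [mul_comm (γ (φ j)), EReal.coe_mul]
      refine mul_le_mul_of_nonneg_left (hJ _ (hφJ j)).2.2.1.le ?_
      exact_mod_cast ENNReal.toReal_nonneg
    have h5 := lt_of_lt_of_le ht (h3.trans h4)
    exact_mod_cast h5
  obtain ⟨m, hm1, hm2, hm3, hm4⟩ := patch_signed (fun j => kk ρ (φ j)) (kk ρ τ)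
    (fun j => integrable_kk hρ hint (hJ _ (hφJ j)).1) (integrable_kk hρ hint hτ)
    (fun j => γ (φ j)) (fun j => DD ρ (φ j)) (DD ρ τ) b t
    (fun j => (hJ _ (hφJ j)).2.2.2)
    (fun μ hμ hae => sm_mom hρ hint φ τ (fun j => ⟨(hJ _ (hφJ j)).1, (hJ _ (hφJ j)).2.1⟩)
      hτ hτz μ hμ hae) hcert
  refine ⟨m, hm1, hm2, ?_, ?_⟩
  · intro θ hθ x
    obtain ⟨j, rfl⟩ := hφs θ hθ
    exact hm3 j x
  · unfold U
    simpa only [zero_sub] using hm4

open Classical in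
private noncomputable def up (v : EReal) (i : ℕ) : ℝ :=
  if v = ⊥ then -(i : ℝ) else v.toReal + 1 / ((i : ℝ) + 1)

open Classical in
private noncomputable def dn (v : EReal) (i : ℕ) : ℝ :=
  if v = ⊤ then (i : ℝ) else v.toReal - 1 / ((i : ℝ) + 1)

private lemma lt_up {v : EReal} (hv : v ≠ ⊤) (i : ℕ) : v < ((up v i : ℝ) : EReal) := by
  unfold up
  split_ifs with h
  · rw [h]; exact EReal.bot_lt_coe _
  · have e : ((v.toReal : ℝ) : EReal) = v := EReal.coe_toReal hv h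
    conv_lhs => rw [← e]
    rw [EReal.coe_lt_coe_iff]
    have : (0 : ℝ) < 1 / ((i : ℝ) + 1) := by positivity
    linarith

private lemma dn_lt {v : EReal} (hv : v ≠ ⊥) (i : ℕ) : ((dn v i : ℝ) : EReal) < v := by
  unfold dn
  split_ifs with h
  · rw [h]; exact EReal.coe_lt_top _
  · have e : ((v.toReal : ℝ) : EReal) = v := EReal.coe_toReal h hv
    conv_rhs => rw [← e]
    rw [EReal.coe_lt_coe_iff]
    have : (0 : ℝ) < 1 / ((i : ℝ) + 1) := by positivity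
    linarith

private lemma inv_le_of {δ : ℝ} (hδ : 0 < δ) {i : ℕ} (hi : ⌈1 / δ⌉₊ ≤ i) :
    1 / ((i : ℝ) + 1) ≤ δ := by
  have h1 : 1 / δ ≤ (i : ℝ) := (Nat.le_ceil _).trans (by exact_mod_cast hi)
  rw [div_le_iff₀ (by positivity)]
  rw [div_le_iff₀ hδ] at h1
  nlinarith

private lemma up_ev {v : EReal} {c : ℝ} (hc : v < (c : EReal)) :
    ∃ δ : ℝ, 0 < δ ∧ ∃ i₁ : ℕ, ∀ i, i₁ ≤ i → up v i + δ ≤ c := by
  unfold up
  split_ifs with h
  · refine ⟨1, one_pos, ⌈1 - c⌉₊, fun i hi => ?_⟩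
    have h1 : 1 - c ≤ (i : ℝ) := (Nat.le_ceil _).trans (by exact_mod_cast hi)
    linarith
  · have hv : v ≠ ⊤ := fun e => by rw [e] at hc; exact absurd hc (not_lt.2 le_top)
    have e : ((v.toReal : ℝ) : EReal) = v := EReal.coe_toReal hv h
    rw [← e, EReal.coe_lt_coe_iff] at hc
    refine ⟨(c - v.toReal) / 2, by linarith, ⌈1 / ((c - v.toReal) / 2)⌉₊, fun i hi => ?_⟩
    have := inv_le_of (by linarith : 0 < (c - v.toReal) / 2) hi
    linarith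

private lemma dn_ev {v : EReal} {c : ℝ} (hc : (c : EReal) < v) :
    ∃ δ : ℝ, 0 < δ ∧ ∃ i₁ : ℕ, ∀ i, i₁ ≤ i → c + δ ≤ dn v i := by
  unfold dn
  split_ifs with h
  · refine ⟨1, one_pos, ⌈c + 1⌉₊, fun i hi => ?_⟩
    exact (Nat.le_ceil _).trans (by exact_mod_cast hi)
  · have hv : v ≠ ⊥ := fun e => by rw [e] at hc; exact absurd hc (not_lt.2 bot_le)
    have e : ((v.toReal : ℝ) : EReal) = v := EReal.coe_toReal h hv
    rw [← e, EReal.coe_lt_coe_iff] at hc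
    refine ⟨(v.toReal - c) / 2, by linarith, ⌈1 / ((v.toReal - c) / 2)⌉₊, fun i hi => ?_⟩
    have := inv_le_of (by linarith : 0 < (v.toReal - c) / 2) hi
    linarith

private lemma sm_bd {ρ θ : ℝ} (hρ : 0 < ρ) (hint : ¬ ∃ n : ℕ, ρ = n)
    (hθ : θ ∈ Icc (0 : ℝ) Real.pi) {m : ℝ → ℝ} {B : ℝ} (hB : ∀ y, |m y| ≤ B) (x : ℝ) :
    |U ρ θ m x| ≤ B * ∫ s : ℝ, |kk ρ θ s| := by
  have hk := integrable_kk hρ hint hθ
  have hI : Integrable (fun y : ℝ => B * |kk ρ θ (x - y)|) :=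
    ((hk.comp_sub_left x).abs).const_mul B
  have h1 : |U ρ θ m x| ≤ ∫ y : ℝ, B * |kk ρ θ (x - y)| := by
    unfold U
    rw [← Real.norm_eq_abs]
    refine norm_integral_le_of_norm_le hI (Eventually.of_forall fun y => ?_)
    rw [Real.norm_eq_abs, abs_mul, mul_comm]
    exact mul_le_mul_of_nonneg_right (hB y) (abs_nonneg _)
  refine h1.trans (le_of_eq ?_)
  rw [integral_const_mul]
  congr 1
  exact integral_sub_left_eq_self (fun s : ℝ => |kk ρ θ s|) volume x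

theorem suff_m {ρ : ℝ} (hρ : 0 < ρ) (hint : ¬ ∃ n : ℕ, ρ = n) {h : ℝ → EReal}
    (hh : InfCond ρ h) (h1 : ∃ l, LE ρ l ∧ h l < 0) (h2 : ∃ r, RE ρ r ∧ h r < ⊤) :
    ∃ N, DensOK N ∧ ∀ θ ∈ Icc (0 : ℝ) Real.pi,
      limsup (fun x : ℝ => ((U ρ θ N x : ℝ) : EReal)) atTop = h θ := by
  classical
  obtain ⟨b, hb, hslope⟩ := exists_slope hρ hint hh h1 h2
  have hZfin := finite_zeros ρ hρ
  have hZne : {θ : ℝ | θ ∈ Icc (0 : ℝ) Real.pi ∧ Real.cos (ρ * θ) = 0}.Nonempty := by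
    obtain ⟨l, hl, -⟩ := h1
    exact ⟨l, ⟨hl.1, hl.2.1⟩, hl.2.2.1⟩
  obtain ⟨e, he⟩ := hZfin.countable.exists_eq_range hZne
  have heZ : ∀ k, e k ∈ Icc (0 : ℝ) Real.pi ∧ Real.cos (ρ * e k) = 0 := by
    intro k
    have : e k ∈ {θ : ℝ | θ ∈ Icc (0 : ℝ) Real.pi ∧ Real.cos (ρ * θ) = 0} := by
      rw [he]; exact mem_range_self k
    exact this
  set J : Finset ℝ := hZfin.toFinset.filter (fun θ => h θ ≠ ⊤) with hJ
  have hJm : ∀ θ, θ ∈ J ↔ (θ ∈ Icc (0 : ℝ) Real.pi ∧ Real.cos (ρ * θ) = 0) ∧ h θ ≠ ⊤ := by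
    intro θ
    rw [hJ, Finset.mem_filter, Set.Finite.mem_toFinset]
    rfl
  have hJmem : ∀ (i : ℕ) (θ : ℝ), θ ∈ J → θ ∈ Icc (0 : ℝ) Real.pi ∧ Real.cos (ρ * θ) = 0 ∧
      h θ < ((up (h θ) i : ℝ) : EReal) ∧ -(b * DD ρ θ) < up (h θ) i := by
    intro i θ hθ
    obtain ⟨⟨h3, h4⟩, h5⟩ := (hJm θ).1 hθ
    have h6 := lt_up h5 i
    refine ⟨h3, h4, h6, ?_⟩
    obtain ⟨v, hv, hv0⟩ := hslope θ h3 h4 h5
    have h7 : v < up (h θ) i := by
      have h8 := h6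
      conv_lhs at h8 => rw [hv]
      exact_mod_cast h8
    linarith
  have hbot : ∀ k, h (e k) ≠ ⊥ := by
    intro k hk
    have h3 : h (e k) ≠ ⊤ := by rw [hk]; exact bot_ne_top
    obtain ⟨v, hv, -⟩ := hslope (e k) (heZ k).1 (heZ k).2 h3
    rw [hv] at hk
    exact EReal.coe_ne_bot _ hk
  have hst : ∀ i : ℕ, ∃ m : ℝ → ℝ, Continuous m ∧ HasCompactSupport m ∧
      (∀ θ ∈ J, ∀ x, -(b * DD ρ θ) + U ρ θ m x < up (h θ) i) ∧
      dn (h (e (Nat.unpair i).1)) i < -(b * DD ρ (e (Nat.unpair i).1)) +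
        U ρ (e (Nat.unpair i).1) m 0 := by
    intro i
    exact patch_m hρ hint hh J (fun θ => up (h θ) i) (hJmem i) (heZ _).1 (heZ _).2
      (dn_lt (hbot _) i)
  choose m hmc hms hUJ hUt using hst
  obtain ⟨N, X, hN, hX, H1, H2⟩ := conc_l hρ hint hb m hmc hms
  refine ⟨N, hN, fun θ hθ => ?_⟩
  obtain ⟨c₁, hc₁, hcc⟩ := cc_eq_sg hρ hint
  have hlin : ∀ η : ℝ, 0 < η → ∃ K : ℝ, ∀ᶠ x in atTop,
      |U ρ θ N x - cc ρ 0 θ * (b * x)| ≤ η * x + K := by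
    intro η hη
    set I : ℝ := ∫ s : ℝ, |kk ρ θ s| with hI
    have hI0 : 0 ≤ I := integral_nonneg fun s => abs_nonneg _
    set S : ℝ := b * ∫ s : ℝ, s * kk ρ θ s with hS
    set ε : ℝ := min 1 (η / (I + 1)) with hε
    have hε0 : 0 < ε := lt_min one_pos (by positivity)
    have hε1 : ε ≤ 1 := min_le_left _ _
    have hεI : ε * I ≤ η := by
      have h3 : ε ≤ η / (I + 1) := min_le_right _ _
      rw [le_div_iff₀ (by positivity)] at h3
      nlinarith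
    obtain ⟨x₀, hx₀⟩ := H1 ε hε0
    refine ⟨1 + |S|, eventually_atTop.2 ⟨max x₀ 0, fun x hx => ?_⟩⟩
    have hx0 : 0 ≤ x := (le_max_right _ _).trans hx
    obtain ⟨i, -, hmi, x', hx'⟩ := hx₀ x ((le_max_left _ _).trans hx)
    have h3 := hx' θ hθ
    have h4 := sm_bd hρ hint hθ hmi x'
    rw [← hI] at h4
    have h5 : ε * x * I ≤ η * x := by nlinarith
    rw [← hS] at h3
    have h6 := abs_le.1 h3
    have h7 := abs_le.1 h4
    have h8 := le_abs_self S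
    have h9 := neg_abs_le S
    rw [abs_le]
    constructor <;> linarith [h6.1, h6.2, h7.1, h7.2]
  rcases lt_trichotomy (sg ρ θ) 0 with hs | hs | hs
  · rw [hh.mix h1 h2 θ hθ hs]
    refine limsup_eq_of _ _ ?_ ?_
    · intro c _
      have hcb : cc ρ 0 θ * b < 0 := by
        rw [hcc]
        exact mul_neg_of_neg_of_pos (mul_neg_of_pos_of_neg hc₁ hs) hb
      obtain ⟨K, hK⟩ := hlin (-(cc ρ 0 θ * b) / 2) (by linarith)
      have hlim : Tendsto (fun x : ℝ => cc ρ 0 θ * b / 2 * x + K) atTop atBot :=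
        tendsto_atBot_add_const_right _ _
          (tendsto_id.const_mul_atTop_of_neg (by linarith : cc ρ 0 θ * b / 2 < 0))
      filter_upwards [hK, hlim.eventually_le_atBot c] with x hx hx2
      have h3 := (abs_le.1 hx).2
      linarith
    · intro c hc
      exact absurd hc not_lt_bot
  · -- zeros
    have hz : Real.cos (ρ * θ) = 0 := by
      unfold sg at hs
      exact (mul_eq_zero.1 hs).resolve_left (pow_ne_zero _ (by norm_num))
    have hcc0 : cc ρ 0 θ = 0 := by rw [hcc, hs, mul_zero]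
    have hDD := integral_mul_kk hρ hint hθ hz
    obtain ⟨k, rfl⟩ : ∃ k, e k = θ := by
      have : θ ∈ {θ : ℝ | θ ∈ Icc (0 : ℝ) Real.pi ∧ Real.cos (ρ * θ) = 0} := ⟨hθ, hz⟩
      rw [he] at this
      exact this
    refine limsup_eq_of _ _ ?_ ?_
    · intro c hc
      obtain ⟨δ, hδ, i₁, hi₁⟩ := up_ev hc
      have htop : h (e k) ≠ ⊤ := fun e' => by
        rw [e'] at hc; exact absurd hc (not_lt.2 le_top)
      have hmem : e k ∈ J := (hJm _).2 ⟨⟨hθ, hz⟩, htop⟩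
      set n := i₁ + 1 with hn
      have hn0 : (0 : ℝ) < n := by rw [hn]; positivity
      set ε := min δ (1 / (n : ℝ)) with hε
      have hε0 : 0 < ε := lt_min hδ (by positivity)
      obtain ⟨x₀, hx₀⟩ := H1 ε hε0
      refine eventually_atTop.2 ⟨x₀, fun x hx => ?_⟩
      obtain ⟨i, hi, -, x', hx'⟩ := hx₀ x hx
      have hni : n ≤ i := by
        have h3 : (n : ℝ) ≤ 1 / ε := by
          rw [le_div_iff₀ hε0]
          calc (n : ℝ) * ε ≤ n * (1 / n) := by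
                gcongr
                exact min_le_right _ _
            _ = 1 := by field_simp
        exact_mod_cast h3.trans hi
      have h4 := (abs_le.1 (hx' (e k) hθ)).2
      rw [hcc0, hDD, zero_mul] at h4
      have h5 := hUJ i (e k) hmem x'
      have h6 := hi₁ i (by omega)
      have h7 : ε ≤ δ := min_le_left _ _
      linarith
    · intro c hc
      obtain ⟨δ, hδ, i₁, hi₁⟩ := dn_ev hc
      obtain ⟨i₀, hi₀⟩ := H2 δ hδ
      refine frequently_atTop.2 fun a => ?_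
      obtain ⟨i₂, hi₂⟩ := eventually_atTop.1 (hX.eventually_ge_atTop a)
      set n := max i₀ (max i₁ i₂) with hn
      set i := Nat.pair k n with hi
      have hni : n ≤ i := Nat.right_le_pair _ _
      have hun : (Nat.unpair i).1 = k := by rw [hi, Nat.unpair_pair]
      refine ⟨X i, hi₂ i (by omega), ?_⟩
      have h4 := hUt i
      rw [hun] at h4
      have h5 := hi₁ i (by omega)
      have h6 := (abs_le.1 (hi₀ i (by omega) (e k) hθ)).1
      rw [hcc0, hDD, zero_mul] at h6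
      linarith
  · rw [hh.off θ hθ hs]
    refine limsup_eq_of _ _ ?_ ?_
    · intro c hc
      exact absurd hc (not_lt.2 le_top)
    · intro c _
      have hcb : 0 < cc ρ 0 θ * b := by
        rw [hcc]
        exact mul_pos (mul_pos hc₁ hs) hb
      obtain ⟨K, hK⟩ := hlin (cc ρ 0 θ * b / 2) (by linarith)
      have hlim : Tendsto (fun x : ℝ => cc ρ 0 θ * b / 2 * x - K) atTop atTop :=
        tendsto_atTop_add_const_right _ _
          (tendsto_id.const_mul_atTop (by linarith : 0 < cc ρ 0 θ * b / 2))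
      have hev : ∀ᶠ x in atTop, c ≤ U ρ θ N x := by
        filter_upwards [hK, hlim.eventually_ge_atTop c] with x hx hx2
        have h3 := (abs_le.1 hx).1
        linarith
      exact hev.frequently

theorem class_m {ρ : ℝ} (hρ : 0 < ρ) (hint : ¬ ∃ n : ℕ, ρ = n) {h : ℝ → EReal}
    (hh : InfCond ρ h) (h1 : ∃ l, LE ρ l ∧ h l < 0) (h2 : ∃ r, RE ρ r ∧ h r < ⊤) :
    ∃ f, IsN ρ f ∧ ∀ θ, indicatorOf ρ f θ = h θ := by
  obtain ⟨D, hD⟩ := exists_dset hρ hint hh.wk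
  obtain ⟨N, hN, hlim⟩ := suff_m hρ hint hh h1 h2
  exact finish hρ hint hh.wk hD hN fun θ hθ => hlim θ (hD.sub hθ)

theorem class_b0' {ρ : ℝ} (hρ : 0 < ρ) (hint : ¬ ∃ n : ℕ, ρ = n) (hp : ⌊ρ⌋₊ = 0)
    {h : ℝ → EReal} (hh : InfCond ρ h) (h1 : ∃ l, LE ρ l ∧ h l < 0) :
    ∃ f, IsN ρ f ∧ ∀ θ, indicatorOf ρ f θ = h θ := by
  obtain ⟨D, hD⟩ := exists_dset hρ hint hh.wk
  obtain ⟨l, hl, hneg⟩ := h1
  obtain ⟨N, hN, hlim⟩ := class_b0 hρ hint hp hh hl hneg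
  exact finish hρ hint hh.wk hD hN fun θ hθ => hlim θ (hD.sub hθ)

end Helper25.Ind
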