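import Pool.Agent.Helper25.Ind2.SuffA
import Pool.Agent.Helper25.Ind2.SuffM
import Pool.Agent.Helper25.Ind2.MixP
import Pool.Agent.Helper25.Ind.Main1

/-! # IND2 Z1: the characterisation for non-integer order, from the construction of class B -/

open Complex Filter Topology MeasureTheory Set

namespace Helper25.Ind

/-- what is needed from class B (`1 ≤ ⌊ρ⌋₊`) -/
def ClassB (ρ : ℝ) : Prop :=
  ∀ h : ℝ → EReal, InfCond ρ h → (∃ l, LE ρ l ∧ h l < 0) → (∀ r, RE ρ r → h r = ⊤) →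
    ∀ D, DSet ρ h D → ∃ N, DensOK N ∧
      ∀ θ ∈ D, limsup (fun x : ℝ => ((U ρ θ N x : ℝ) : EReal)) atTop = h θ

theorem nec_inf {ρ : ℝ} (hρ : 0 < ρ) (hint : ¬ ∃ n : ℕ, ρ = n) {f : ℂ → ℂ} (hf : IsN ρ f)
    {h : ℝ → EReal} (hh : ∀ θ, indicatorOf ρ f θ = h θ) (htop : ∃ θ, h θ = ⊤) :
    InfCond ρ h := by
  obtain rfl : indicatorOf ρ f = h := funext hh
  refine ⟨htop, fun θ => indicatorOf_add_two_pi ρ θ f, fun θ => even_of_indicator hρ hint hf θ,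
    fun θ hθ hs => nec_off hρ hint hf htop hθ hs, fun r hr => nec_right hρ hint hf hr,
    nec_maj hρ hint hf fun _ => rfl, nec_trig hρ hf fun _ => rfl, ?_⟩
  rintro ⟨l, hl, h1⟩ ⟨r, hr, h2⟩ θ hθ hs
  exact nec_mix hρ hint hf hl hr h1 h2 hθ hs

theorem suff_inf {ρ : ℝ} (hρ : 0 < ρ) (hint : ¬ ∃ n : ℕ, ρ = n)
    (hB : 1 ≤ ⌊ρ⌋₊ → ClassB ρ) {h : ℝ → EReal} (hh : InfCond ρ h) :
    ∃ f, IsN ρ f ∧ ∀ θ, indicatorOf ρ f θ = h θ := by
  by_cases h1 : ∃ l, LE ρ l ∧ h l < 0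
  · by_cases h2 : ∃ r, RE ρ r ∧ h r < ⊤
    · exact class_m hρ hint hh h1 h2
    · by_cases hp : ⌊ρ⌋₊ = 0
      · exact class_b0' hρ hint hp hh h1
      · have h3 : ∀ r, RE ρ r → h r = ⊤ := fun r hr => by
          by_contra hne
          exact h2 ⟨r, hr, lt_top_iff_ne_top.2 hne⟩
        obtain ⟨D, hD⟩ := exists_dset hρ hint hh.wk
        obtain ⟨N, hN, hlim⟩ := hB (Nat.one_le_iff_ne_zero.2 hp) h hh h1 h3 D hD
        exact finish hρ hint hh.wk hD hN hlim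
  · refine class_a hρ hint hh fun l hl => ?_
    by_contra hne
    exact h1 ⟨l, hl, not_le.1 hne⟩

theorem nonint_iff {ρ : ℝ} (hρ : 0 < ρ) (hint : ¬ ∃ n : ℕ, ρ = n)
    (hB : 1 ≤ ⌊ρ⌋₊ → ClassB ρ) (h : ℝ → EReal) :
    (∃ f, IsN ρ f ∧ ∀ θ, indicatorOf ρ f θ = h θ) ↔
      (∃ g : ℝ → ℝ, (∀ θ, h θ = g θ) ∧ Continuous g ∧ (∀ θ, g (θ + 2 * Real.pi) = g θ) ∧
        MajIneq ρ g) ∨ InfCond ρ h := by
  constructor
  · rintro ⟨f, hf, hh⟩
    by_cases htop : ∃ θ, h θ = ⊤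
    · exact Or.inr (nec_inf hρ hint hf hh htop)
    · left
      have h1 : ∀ θ, indicatorOf ρ f θ ≠ ⊤ := fun θ ht => htop ⟨θ, (hh θ).symm.trans ht⟩
      have h2 := ne_bot_of_ne_top hρ hf h1
      have h3 : ∀ θ, h θ = ((h θ).toReal : EReal) := fun θ => by
        rw [EReal.coe_toReal]
        · rw [← hh θ]; exact h1 θ
        · rw [← hh θ]; exact h2 θ
      have h4 := (finite_valued ρ hρ fun θ => (h θ).toReal).1
        ⟨f, hf, fun θ => (hh θ).trans (h3 θ)⟩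
      rcases h4 with h4 | h4
      · exact absurd h4.1 hint
      · exact ⟨fun θ => (h θ).toReal, h3, h4.2.1, h4.2.2.1, h4.2.2.2⟩
  · rintro (⟨g, hg, h1, h2, h3⟩ | hh)
    · obtain ⟨f, hf, hfe⟩ := (finite_valued ρ hρ g).2 (Or.inr ⟨hint, h1, h2, h3⟩)
      exact ⟨f, hf, fun θ => (hfe θ).trans (hg θ).symm⟩
    · exact suff_inf hρ hint hB hh

end Helper25.Ind
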