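import Pool.Agent.Helper25.Ind2.Lap
import Pool.Agent.Helper25.Ind2.LamB

/-!
# IND2 M1: kernel identities for the mixed condition

PROOFS.
* `QK l x = π / (4 l² cosh²(πx/(2l)))` is the limit of `PK α l x / α` as `α → 0+` (`cosh u + 1 = 2 cosh²(u/2)`); `∫ e^{κx} QK dx = κ / sin κl` for `0 < |κ| l < π` (limit of `laplace_PK` by dominated convergence, `PK α l x/α ≤ C e^{-π|x|/l}` uniformly for `α ≤ l/2`; or direct computation), `∫ QK = 1/l`.
* `kk_zero_eq` (`θ > 0` automatically, `cos ρθ = 0`): both sides are continuous in `s` (`continuous_kk` for the angle `0 < π`; `Lam` bounded continuous, `QK` integrable), so a.e. equality is enough: `ae_eq_of_laplace` with small `κ₀`. `∫ e^{-κs} kk ρ 0 s ds = cc ρ κ 0`. For `κ ≠ 0` small `∫ e^{-κs} Lam ρ θ s ds = cc ρ κ θ / κ`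
  (Fubini / integration by parts, `|Lam| ≤ C ph`), and `cos((ρ+κ)θ) = -sin(ρθ) sin(κθ)`, so `-(1/sin ρθ) (κ/sin κθ) (π (-sin ρθ sin κθ)/((ρ+κ) sin π(ρ+κ) κ)) = π/((ρ+κ) sin π(ρ+κ)) = cc ρ κ 0`. For `κ = 0`: `-(1/sin ρθ)(1/θ)(-DD ρ θ) = π/(ρ sin πρ)` (`integral_Lam`, `integral_QK`).
* `GG ρ ε θ u = e^{-ρu} e^{-(u²-θ²)/(2ε)} cos(uθ/ε) = e^{-ρu} Re exp(-(u+iθ)²/(2ε))`.
* `integral_GG`: `∫ e^{-ζu} exp(-(u+iθ)²/(2ε)) du = √(2πε) e^{εζ²/2} e^{iζθ}` (Gaussian integral with complex linear term, `integral_cexp_quadratic` or `fourierIntegral_gaussian`), real part.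
* `kk_gauss`: both sides continuous in `s` (bounded continuous integrable `GG`, `kk ∈ L¹`); Laplace transforms at `κ` (small): `cc ρ κ θ √(2πε) e^{ε(ρ+κ)²/2}` and `cc ρ κ 0 √(2πε) e^{ε(ρ+κ)²/2} cos((ρ+κ)θ)`, equal by the definition of `cc`. `ae_eq_of_laplace`.
* `kk_lip` (`θ < π`): `kk' = -ρ kk + e^{-ρs} KK'`, `hasDerivAt_KK`: `|KK'| ≤ e^{(p+1)s}(1+e^s)/|1+e^{s+iθ}|² ≤ C_θ e^{(p+1)s}/(1+e^s)` and `e^{ρs} ph ρ s = Phi p (e^s) ≥ c e^{(p+1)s}/(1+e^s)`; `|kk| ≤ C ph`. Mean value theorem and `ph ρ (s - u) ≤ C ph ρ s` for `|u| ≤ 1` (`ph_add_le`, `ph_sub_le`).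
-/

open Filter Topology MeasureTheory Set

namespace Helper25.Ind

/-- explicit kernel with Laplace transform `κ / sin κl` -/
noncomputable def QK (l x : ℝ) : ℝ :=
  Real.pi / (4 * l ^ 2 * Real.cosh (Real.pi * x / (2 * l)) ^ 2)

private lemma mxk_cosh {l : ℝ} (hl : 0 < l) (x : ℝ) :
    Real.cosh (Real.pi * x / l) + 1 = 2 * Real.cosh (Real.pi * x / (2 * l)) ^ 2 := by
  have h1 : Real.pi * x / l = 2 * (Real.pi * x / (2 * l)) := by field_simp
  rw [h1, Real.cosh_two_mul, Real.cosh_sq]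
  ring

private lemma mxk_QK {l : ℝ} (hl : 0 < l) (x : ℝ) :
    QK l x = Real.pi / (2 * l ^ 2 * (Real.cosh (Real.pi * x / l) + 1)) := by
  unfold QK
  rw [mxk_cosh hl]
  congr 1
  ring

private lemma mxk_half {l : ℝ} (hl : 0 < l) (x : ℝ) :
    PK (l / 2) l x = 1 / (2 * l * Real.cosh (Real.pi * x / l)) := by
  unfold PK
  have h1 : Real.pi * (l / 2) / l = Real.pi / 2 := by field_simp
  rw [h1, Real.sin_pi_div_two, Real.cos_pi_div_two, add_zero]

lemma QK_pos {l : ℝ} (hl : 0 < l) (x : ℝ) : 0 < QK l x := by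
  unfold QK
  have h1 := Real.cosh_pos (Real.pi * x / (2 * l))
  have h2 := Real.pi_pos
  positivity

lemma continuous_QK {l : ℝ} (hl : 0 < l) : Continuous (QK l) := by
  have hc : Continuous fun x : ℝ => Real.cosh (Real.pi * x / (2 * l)) :=
    Real.continuous_cosh.comp (by fun_prop)
  unfold QK
  refine continuous_const.div (by fun_prop) fun x => ?_
  have h1 := Real.cosh_pos (Real.pi * x / (2 * l))
  positivity

private lemma mxk_QK_le {l : ℝ} (hl : 0 < l) (x : ℝ) :
    QK l x ≤ Real.pi / l * PK (l / 2) l x := by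
  rw [mxk_QK hl, mxk_half hl]
  have h1 := Real.cosh_pos (Real.pi * x / l)
  have h2 := Real.pi_pos
  have h3 : Real.pi / l * (1 / (2 * l * Real.cosh (Real.pi * x / l))) =
      Real.pi / (2 * l ^ 2 * Real.cosh (Real.pi * x / l)) := by
    field_simp
  rw [h3]
  refine div_le_div_of_nonneg_left h2.le (by positivity) ?_
  refine mul_le_mul_of_nonneg_left (by linarith) (by positivity)

private lemma mxk_PK_le {l α : ℝ} (hl : 0 < l) (h0 : 0 < α) (h1 : α ≤ l / 2) (x : ℝ) :
    PK α l x / α ≤ Real.pi / l * PK (l / 2) l x := by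
  rw [mxk_half hl]
  unfold PK
  have hπ := Real.pi_pos
  have hch := Real.cosh_pos (Real.pi * x / l)
  have ha0 : 0 ≤ Real.pi * α / l := by positivity
  have ha1 : Real.pi * α / l ≤ Real.pi / 2 := by
    rw [div_le_iff₀ hl]
    nlinarith
  have hs : Real.sin (Real.pi * α / l) ≤ Real.pi * α / l := Real.sin_le ha0
  have hc : 0 ≤ Real.cos (Real.pi * α / l) :=
    Real.cos_nonneg_of_neg_pi_div_two_le_of_le (by linarith) ha1
  have h3 : Real.pi / l * (1 / (2 * l * Real.cosh (Real.pi * x / l))) =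
      (Real.pi * α / l) / (2 * l * Real.cosh (Real.pi * x / l)) / α := by
    field_simp
  rw [h3]
  refine div_le_div_of_nonneg_right ?_ h0.le
  refine div_le_div₀ ha0 hs (by positivity) ?_
  refine mul_le_mul_of_nonneg_left (by linarith) (by positivity)

private lemma mxk_slope (c : ℝ) :
    Tendsto (fun t : ℝ => t⁻¹ * Real.sin (t * c)) (𝓝[>] 0) (𝓝 c) := by
  have h5 : HasDerivAt (fun t : ℝ => Real.sin (t * c)) (Real.cos (0 * c) * (1 * c)) 0 :=
    ((hasDerivAt_id (0 : ℝ)).mul_const c).sin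
  have h6 := h5.tendsto_slope_zero
  simp only [zero_add, zero_mul, Real.sin_zero, sub_zero, smul_eq_mul, Real.cos_zero,
    one_mul] at h6
  exact h6.mono_left (nhdsWithin_mono _ fun t ht => (mem_Ioi.1 ht).ne')

private lemma mxk_tend {l : ℝ} (hl : 0 < l) (x : ℝ) :
    Tendsto (fun α => PK α l x / α) (𝓝[>] 0) (𝓝 (QK l x)) := by
  have hch := Real.one_le_cosh (Real.pi * x / l)
  have h1 := mxk_slope (Real.pi / l)
  have h2 : Tendsto (fun α : ℝ => 2 * l * (Real.cosh (Real.pi * x / l) +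
      Real.cos (Real.pi * α / l))) (𝓝[>] 0)
      (𝓝 (2 * l * (Real.cosh (Real.pi * x / l) + Real.cos (Real.pi * 0 / l)))) := by
    have hc : Continuous fun α : ℝ => 2 * l * (Real.cosh (Real.pi * x / l) +
      Real.cos (Real.pi * α / l)) := by fun_prop
    exact (hc.tendsto 0).mono_left nhdsWithin_le_nhds
  rw [mul_zero, zero_div, Real.cos_zero] at h2
  have h3 := h1.div h2 (by positivity)
  have h4 : Real.pi / l / (2 * l * (Real.cosh (Real.pi * x / l) + 1)) = QK l x := by
    rw [mxk_QK hl]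
    field_simp
  rw [h4] at h3
  refine h3.congr' ?_
  filter_upwards [self_mem_nhdsWithin] with α hα
  have hα0 : (0 : ℝ) < α := hα
  simp only [Pi.div_apply]
  unfold PK
  have e1 : α * (Real.pi / l) = Real.pi * α / l := by ring
  rw [e1]
  rw [inv_mul_eq_div, div_right_comm]

private lemma mxk_dom {l κ : ℝ} (hl : 0 < l) (hκ : |κ| * l < Real.pi) :
    Integrable (fun x => Real.exp (κ * x) * PK (l / 2) l x) := by
  rcases eq_or_ne κ 0 with h | h
  · have := (integral_PK (half_pos hl) (half_lt_self hl)).1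
    rw [h]
    simpa using this
  · exact (laplace_PK (half_pos hl) (half_lt_self hl) h hκ).1

private lemma mxk_int {l κ : ℝ} (hl : 0 < l) (hκ : |κ| * l < Real.pi) :
    Integrable (fun x => Real.exp (κ * x) * QK l x) := by
  refine Integrable.mono' ((mxk_dom hl hκ).const_mul (Real.pi / l)) ?_
    (Eventually.of_forall fun x => ?_)
  · exact ((by fun_prop : Continuous fun x : ℝ => Real.exp (κ * x)).mul
      (continuous_QK hl)).aestronglyMeasurable
  · have h1 := QK_pos hl x
    have h2 := Real.exp_pos (κ * x)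
    rw [Real.norm_eq_abs, abs_of_pos (mul_pos h2 h1)]
    calc Real.exp (κ * x) * QK l x ≤ Real.exp (κ * x) * (Real.pi / l * PK (l / 2) l x) :=
          mul_le_mul_of_nonneg_left (mxk_QK_le hl x) h2.le
      _ = Real.pi / l * (Real.exp (κ * x) * PK (l / 2) l x) := by ring

private lemma mxk_lim {l κ : ℝ} (hl : 0 < l) (hκ : |κ| * l < Real.pi) :
    Tendsto (fun α : ℝ => ∫ x, Real.exp (κ * x) * (PK α l x / α)) (𝓝[>] 0)
      (𝓝 (∫ x, Real.exp (κ * x) * QK l x)) := by
  have hev : ∀ᶠ α : ℝ in 𝓝[>] 0, 0 < α ∧ α ≤ l / 2 := by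
    filter_upwards [Ioc_mem_nhdsGT (half_pos hl)] with α hα
    exact hα
  refine tendsto_integral_filter_of_dominated_convergence
    (fun x => Real.pi / l * (Real.exp (κ * x) * PK (l / 2) l x)) ?_ ?_
    ((mxk_dom hl hκ).const_mul _) ?_
  · filter_upwards [hev] with α hα
    have hcc := continuous_PK hα.1 (hα.2.trans_lt (half_lt_self hl))
    exact ((by fun_prop : Continuous fun x : ℝ => Real.exp (κ * x)).mul
      (hcc.div_const α)).aestronglyMeasurable
  · filter_upwards [hev] with α hα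
    refine Eventually.of_forall fun x => ?_
    have h1 := PK_pos hα.1 (hα.2.trans_lt (half_lt_self hl)) x
    have h2 := Real.exp_pos (κ * x)
    rw [Real.norm_eq_abs, abs_of_pos (mul_pos h2 (div_pos h1 hα.1))]
    calc Real.exp (κ * x) * (PK α l x / α) ≤
          Real.exp (κ * x) * (Real.pi / l * PK (l / 2) l x) :=
          mul_le_mul_of_nonneg_left (mxk_PK_le hl hα.1 hα.2 x) h2.le
      _ = Real.pi / l * (Real.exp (κ * x) * PK (l / 2) l x) := by ring
  · exact Eventually.of_forall fun x => (mxk_tend hl x).const_mul _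

lemma QK_le {l : ℝ} (hl : 0 < l) :
    ∃ C > 0, ∀ x, QK l x ≤ C * Real.exp (-(Real.pi / l * |x|)) := by
  obtain ⟨C, hC, h⟩ := PK_le (half_pos hl) (half_lt_self hl)
  have hπ := Real.pi_pos
  refine ⟨Real.pi / l * C, by positivity, fun x => ?_⟩
  calc QK l x ≤ Real.pi / l * PK (l / 2) l x := mxk_QK_le hl x
    _ ≤ Real.pi / l * (C * Real.exp (-(Real.pi / l * |x|))) :=
        mul_le_mul_of_nonneg_left (h x) (by positivity)
    _ = Real.pi / l * C * Real.exp (-(Real.pi / l * |x|)) := by ring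

lemma integral_QK {l : ℝ} (hl : 0 < l) : Integrable (QK l) ∧ ∫ x, QK l x = 1 / l := by
  have h0 : |(0 : ℝ)| * l < Real.pi := by
    rw [abs_zero, zero_mul]
    exact Real.pi_pos
  have h1 := mxk_int hl h0
  have h2 := mxk_lim hl h0
  simp only [zero_mul, Real.exp_zero, one_mul] at h1 h2
  refine ⟨h1, tendsto_nhds_unique h2 ?_⟩
  refine tendsto_const_nhds.congr' ?_
  filter_upwards [Ioc_mem_nhdsGT (half_pos hl)] with α hα
  rw [integral_div, (integral_PK hα.1 (hα.2.trans_lt (half_lt_self hl))).2]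
  have := hα.1.ne'
  field_simp

lemma laplace_QK {l κ : ℝ} (hl : 0 < l) (hκ : κ ≠ 0) (hκ' : |κ| * l < Real.pi) :
    Integrable (fun x => Real.exp (κ * x) * QK l x) ∧
    ∫ x, Real.exp (κ * x) * QK l x = κ / Real.sin (κ * l) := by
  refine ⟨mxk_int hl hκ', tendsto_nhds_unique (mxk_lim hl hκ') ?_⟩
  refine ((mxk_slope κ).div_const (Real.sin (κ * l))).congr' ?_
  filter_upwards [Ioc_mem_nhdsGT (half_pos hl)] with α hα
  have h1 : ∀ x, Real.exp (κ * x) * (PK α l x / α) = Real.exp (κ * x) * PK α l x / α :=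
    fun x => by ring
  simp only [h1]
  rw [integral_div, (laplace_PK hα.1 (hα.2.trans_lt (half_lt_self hl)) hκ hκ').2]
  rw [mul_comm α κ]
  ring

/-! ### Laplace transform of the primitive -/

private lemma mxk_Lam_int {ρ θ κ : ℝ} (hρ : 0 < ρ) (hint : ¬ ∃ n : ℕ, ρ = n)
    (hθ : θ ∈ Icc (0 : ℝ) Real.pi) (hz : Real.cos (ρ * θ) = 0) (h1 : -(km ρ) < κ)
    (h2 : κ < kp ρ) : Integrable (fun v => Real.exp (-(κ * v)) * Lam ρ θ v) := by
  obtain ⟨C, hC, h⟩ := abs_Lam_le hρ hint hθ hz
  refine Integrable.mono' ((integrable_ph_exp h1 h2).const_mul C) ?_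
    (Eventually.of_forall fun v => ?_)
  · exact ((by fun_prop : Continuous fun x : ℝ => Real.exp (-(κ * x))).mul
      (continuous_Lam hρ hint hθ)).aestronglyMeasurable
  · have h3 := Real.exp_pos (-(κ * v))
    rw [Real.norm_eq_abs, abs_mul, abs_of_pos h3]
    calc Real.exp (-(κ * v)) * |Lam ρ θ v| ≤ Real.exp (-(κ * v)) * (C * ph ρ v) :=
          mul_le_mul_of_nonneg_left (h v) h3.le
      _ = C * (Real.exp (-(κ * v)) * ph ρ v) := by ring

/-- Fubini on a half line, `κ > 0` -/
private lemma mxk_fub {κ : ℝ} (hκ : 0 < κ) {k : ℝ → ℝ} (hk : Measurable k)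
    (hki : Integrable (fun s => Real.exp (-(κ * s)) * k s)) :
    ∫ v, Real.exp (-(κ * v)) * ∫ s in Iic v, k s =
      (∫ s, Real.exp (-(κ * s)) * k s) / κ := by
  set S : Set (ℝ × ℝ) := {q | q.2 ≤ q.1} with hS
  have hSm : MeasurableSet S := measurableSet_le measurable_snd measurable_fst
  have hslice : ∀ s v : ℝ, indicator S (fun q : ℝ × ℝ => Real.exp (-(κ * q.1)) * k q.2) (v, s) =
      indicator (Ici s) (fun v => Real.exp (-(κ * v))) v * k s := by
    intro s v
    by_cases hv : s ≤ v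
    · rw [indicator_of_mem (show (v, s) ∈ S from hv), indicator_of_mem (show v ∈ Ici s from hv)]
    · rw [indicator_of_notMem (show (v, s) ∉ S from hv),
        indicator_of_notMem (show v ∉ Ici s from hv), zero_mul]
  have hexp : ∀ s : ℝ, IntegrableOn (fun v => Real.exp (-(κ * v))) (Ici s) ∧
      ∫ v in Ici s, Real.exp (-(κ * v)) = Real.exp (-(κ * s)) / κ := by
    intro s
    have h1 : ∀ v : ℝ, Real.exp (-(κ * v)) = Real.exp (-κ * v) := fun v => by
      rw [neg_mul]
    simp only [h1]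
    rw [integrableOn_Ici_iff_integrableOn_Ioi, integral_Ici_eq_integral_Ioi,
      integral_exp_mul_Ioi (neg_lt_zero.2 hκ)]
    refine ⟨integrableOn_exp_mul_Ioi (neg_lt_zero.2 hκ) s, ?_⟩
    rw [neg_div_neg_eq]
  have hmeas : Measurable (indicator S (fun q : ℝ × ℝ => Real.exp (-(κ * q.1)) * k q.2)) := by
    refine Measurable.indicator ?_ hSm
    exact (by fun_prop : Measurable fun q : ℝ × ℝ => Real.exp (-(κ * q.1))).mul
      (hk.comp measurable_snd)
  have hI : Integrable (Function.uncurry fun v s =>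
      indicator S (fun q : ℝ × ℝ => Real.exp (-(κ * q.1)) * k q.2) (v, s))
      (volume.prod volume) := by
    have hm' : AEStronglyMeasurable (Function.uncurry fun v s =>
      indicator S (fun q : ℝ × ℝ => Real.exp (-(κ * q.1)) * k q.2) (v, s))
      (volume.prod volume) := hmeas.aestronglyMeasurable
    rw [integrable_prod_iff' hm']
    refine ⟨Eventually.of_forall fun s => ?_, ?_⟩
    · simp only [Function.uncurry_apply_pair, hslice]
      exact ((integrable_indicator_iff measurableSet_Ici).2 (hexp s).1).mul_const _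
    · have e2 : (fun s => ∫ v, ‖Function.uncurry (fun v s =>
          indicator S (fun q : ℝ × ℝ => Real.exp (-(κ * q.1)) * k q.2) (v, s)) (v, s)‖) =
          fun s => |Real.exp (-(κ * s)) * k s| / κ := by
        funext s
        simp only [Function.uncurry_apply_pair, hslice, norm_mul, Real.norm_eq_abs]
        rw [integral_mul_const]
        have h3 : ∀ v, |indicator (Ici s) (fun v => Real.exp (-(κ * v))) v| =
            indicator (Ici s) (fun v => Real.exp (-(κ * v))) v := fun v =>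
          abs_of_nonneg (indicator_nonneg (fun _ _ => (Real.exp_pos _).le) v)
        simp only [h3]
        rw [integral_indicator measurableSet_Ici, (hexp s).2, abs_mul,
          abs_of_pos (Real.exp_pos _)]
        ring
      rw [e2]
      exact hki.abs.div_const κ
  have e1 : ∀ v, Real.exp (-(κ * v)) * ∫ s in Iic v, k s =
      ∫ s, indicator S (fun q : ℝ × ℝ => Real.exp (-(κ * q.1)) * k q.2) (v, s) := by
    intro v
    rw [← integral_const_mul, ← integral_indicator measurableSet_Iic]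
    refine integral_congr_ae (Eventually.of_forall fun s => ?_)
    simp only
    by_cases hs : s ≤ v
    · rw [indicator_of_mem (show s ∈ Iic v from hs), indicator_of_mem (show (v, s) ∈ S from hs)]
    · rw [indicator_of_notMem (show s ∉ Iic v from hs),
        indicator_of_notMem (show (v, s) ∉ S from hs)]
  simp only [e1]
  rw [integral_integral_swap hI]
  simp only [hslice]
  rw [← integral_div]
  refine integral_congr_ae (Eventually.of_forall fun s => ?_)
  simp only
  rw [integral_mul_const, integral_indicator measurableSet_Ici, (hexp s).2]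
  ring

private lemma mxk_Lam {ρ θ κ : ℝ} (hρ : 0 < ρ) (hint : ¬ ∃ n : ℕ, ρ = n)
    (hθ : θ ∈ Icc (0 : ℝ) Real.pi) (hz : Real.cos (ρ * θ) = 0) (h1 : -(km ρ) < κ)
    (h2 : κ < kp ρ) (hκ : κ ≠ 0) :
    ∫ v, Real.exp (-(κ * v)) * Lam ρ θ v = cc ρ κ θ / κ := by
  have hcc := integral_kk_exp hρ h1 h2 hθ
  have hki := integrable_kk_exp h1 h2 hθ
  rcases lt_or_gt_of_ne hκ with h | h
  · -- reflection
    have hk := integrable_kk hρ hint hθ
    have h0 : ∫ s, kk ρ θ s = 0 := by
      rw [integral_kk hρ hint hθ]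
      unfold cc
      rw [add_zero, hz, mul_zero, zero_div]
    have hL : ∀ v, Lam ρ θ (-v) = -∫ s in Iic v, kk ρ θ (-s) := by
      intro v
      have h3 := intervalIntegral.integral_Iic_add_Ioi (b := -v) hk.integrableOn hk.integrableOn
      rw [h0] at h3
      have h4 : ∫ s in Iic v, kk ρ θ (-s) = ∫ s in Ioi (-v), kk ρ θ s :=
        integral_comp_neg_Iic v (kk ρ θ)
      unfold Lam
      linarith
    have hk2 : Measurable fun s => kk ρ θ (-s) := (measurable_kk ρ θ).comp measurable_neg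
    have hki2 : Integrable (fun s => Real.exp (-(-κ * s)) * kk ρ θ (-s)) := by
      refine hki.comp_neg.congr (Eventually.of_forall fun s => ?_)
      simp only
      rw [neg_mul, mul_neg]
    have h5 := mxk_fub (neg_pos.2 h) hk2 hki2
    have h6 : ∫ v, Real.exp (-(κ * v)) * Lam ρ θ v =
        ∫ v, Real.exp (-(κ * -v)) * Lam ρ θ (-v) :=
      (integral_neg_eq_self (fun v => Real.exp (-(κ * v)) * Lam ρ θ v) volume).symm
    have h7 : ∫ v, Real.exp (-(κ * v)) * kk ρ θ v =
        ∫ v, Real.exp (-(κ * -v)) * kk ρ θ (-v) :=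
      (integral_neg_eq_self (fun v => Real.exp (-(κ * v)) * kk ρ θ v) volume).symm
    rw [h6]
    simp only [hL]
    have h8 : ∀ v : ℝ, Real.exp (-(κ * -v)) * -∫ s in Iic v, kk ρ θ (-s) =
        -(Real.exp (-(-κ * v)) * ∫ s in Iic v, kk ρ θ (-s)) := by
      intro v
      rw [mul_neg, mul_neg κ v, neg_mul κ v]
    simp only [h8]
    rw [integral_neg, h5, ← hcc, h7]
    have h9 : ∀ s : ℝ, Real.exp (-(-κ * s)) * kk ρ θ (-s) =
        Real.exp (-(κ * -s)) * kk ρ θ (-s) := by
      intro s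
      rw [mul_neg κ s, neg_mul κ s]
    simp only [h9]
    rw [div_neg, neg_neg]
  · rw [← hcc]
    exact mxk_fub h (measurable_kk ρ θ) hki

theorem kk_zero_eq {ρ θ : ℝ} (hρ : 0 < ρ) (hint : ¬ ∃ n : ℕ, ρ = n)
    (hθ : θ ∈ Icc (0 : ℝ) Real.pi) (hz : Real.cos (ρ * θ) = 0) (s : ℝ) :
    kk ρ 0 s = -(1 / Real.sin (ρ * θ)) * ∫ x, QK θ x * Lam ρ θ (s - x) := by
  have hπ := Real.pi_pos
  have hθ0 : 0 < θ := by
    refine lt_of_le_of_ne hθ.1 fun h => ?_
    rw [← h, mul_zero, Real.cos_zero] at hz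
    exact one_ne_zero hz
  have hsin : Real.sin (ρ * θ) ≠ 0 := by
    intro h
    have h1 := Real.sin_sq_add_cos_sq (ρ * θ)
    rw [h, hz] at h1
    norm_num at h1
  have hkm := km_pos hρ hint
  have hkp := kp_pos hρ.le
  have hkp1 := kp_le_one hρ.le
  have h00 : (0 : ℝ) ∈ Icc (0 : ℝ) Real.pi := ⟨le_rfl, hπ.le⟩
  obtain ⟨L, hL⟩ : ∃ L : ℝ →L[ℝ] ℝ →L[ℝ] ℝ, L = ContinuousLinearMap.mul ℝ ℝ := ⟨_, rfl⟩
  have hconv : ∀ (f g : ℝ → ℝ) (s : ℝ), MeasureTheory.convolution f g L volume s =
      ∫ x, f x * g (s - x) := by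
    intro f g s
    rw [hL]
    rfl
  -- continuity
  have hLc := continuous_Lam hρ hint hθ
  have hLi := integrable_Lam hρ hint hθ hz
  have hQ := integral_QK hθ0
  have hbdd : BddAbove (range fun x => ‖Lam ρ θ x‖) := by
    refine ⟨∫ s, |kk ρ θ s|, ?_⟩
    rintro _ ⟨v, rfl⟩
    have hk := (integrable_kk hρ hint hθ)
    have h1 : ‖Lam ρ θ v‖ ≤ ∫ s in Iic v, |kk ρ θ s| := by
      rw [Real.norm_eq_abs]
      exact abs_integral_le_integral_abs
    refine h1.trans ?_
    exact setIntegral_le_integral hk.abs (Eventually.of_forall fun s => abs_nonneg _)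
  have hgc : Continuous fun s => ∫ x, QK θ x * Lam ρ θ (s - x) := by
    have h1 := hbdd.continuous_convolution_right_of_integrable L hQ.1 hLc
    have h2 : (fun s => ∫ x, QK θ x * Lam ρ θ (s - x)) =
        MeasureTheory.convolution (QK θ) (Lam ρ θ) L volume := by
      funext s
      exact (hconv _ _ s).symm
    rw [h2]
    exact h1
  -- transforms
  have hpt : ∀ κ s : ℝ, Real.exp (κ * s) * (-(1 / Real.sin (ρ * θ)) *
      ∫ x, QK θ x * Lam ρ θ (s - x)) = -(1 / Real.sin (ρ * θ)) *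
      MeasureTheory.convolution (fun x => Real.exp (κ * x) * QK θ x)
        (fun x => Real.exp (κ * x) * Lam ρ θ x) L volume s := by
    intro κ s
    rw [hconv, mul_left_comm, ← integral_const_mul]
    congr 1
    refine integral_congr_ae (Eventually.of_forall fun x => ?_)
    simp only
    have h1 : Real.exp (κ * s) = Real.exp (κ * x) * Real.exp (κ * (s - x)) := by
      rw [← Real.exp_add]
      congr 1
      ring
    rw [h1]
    ring
  have hsmall : ∀ κ : ℝ, |κ| < min (km ρ) (kp ρ) → -(km ρ) < -κ ∧ -κ < kp ρ ∧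
      |κ| * θ < Real.pi := by
    intro κ hκ
    have h1 := hκ.trans_le (min_le_left _ _)
    have h2 := hκ.trans_le (min_le_right _ _)
    refine ⟨by linarith [le_abs_self κ], by linarith [neg_abs_le κ], ?_⟩
    have h3 : |κ| < 1 := h2.trans_le hkp1
    have h4 := hθ.2
    nlinarith [abs_nonneg κ]
  have hLk : ∀ κ : ℝ, |κ| < min (km ρ) (kp ρ) →
      Integrable (fun x => Real.exp (κ * x) * Lam ρ θ x) := by
    intro κ hκ
    obtain ⟨h1, h2, -⟩ := hsmall κ hκ
    have h3 := mxk_Lam_int hρ hint hθ hz h1 h2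
    refine h3.congr (Eventually.of_forall fun x => ?_)
    simp only [neg_mul, neg_neg]
  have hQk : ∀ κ : ℝ, |κ| < min (km ρ) (kp ρ) →
      Integrable (fun x => Real.exp (κ * x) * QK θ x) := fun κ hκ =>
    mxk_int hθ0 (hsmall κ hκ).2.2
  have hae : kk ρ 0 =ᵐ[volume] fun s => -(1 / Real.sin (ρ * θ)) *
      ∫ x, QK θ x * Lam ρ θ (s - x) := by
    refine ae_eq_of_laplace (κ₀ := min (km ρ) (kp ρ)) (lt_min hkm hkp) ?_ ?_ ?_
    · intro κ hκ
      obtain ⟨h1, h2, -⟩ := hsmall κ hκ
      refine (integrable_kk_exp h1 h2 h00).congr (Eventually.of_forall fun x => ?_)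
      simp only [neg_mul, neg_neg]
    · intro κ hκ
      simp only [hpt]
      exact ((hQk κ hκ).integrable_convolution L (hLk κ hκ)).const_mul _
    · intro κ hκ
      obtain ⟨h1, h2, h3⟩ := hsmall κ hκ
      simp only [hpt]
      rw [integral_const_mul, integral_convolution L (hQk κ hκ) (hLk κ hκ)]
      have h4 : ∫ s, Real.exp (κ * s) * kk ρ 0 s = cc ρ (-κ) 0 := by
        rw [← integral_kk_exp hρ h1 h2 h00]
        simp only [neg_mul, neg_neg]
      rw [h4, hL, ContinuousLinearMap.mul_apply']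
      rcases eq_or_ne κ 0 with h | h
      · subst h
        have h5 := integral_Lam hρ hint hθ hz
        simp only [zero_mul, Real.exp_zero, one_mul, neg_zero]
        rw [h5, hQ.2]
        unfold cc DD
        rw [add_zero, mul_zero, Real.cos_zero]
        have hs2 : Real.sin (Real.pi * ρ) ≠ 0 := by
          intro h6
          obtain ⟨n, hn⟩ := Real.sin_eq_zero_iff.1 h6
          have h7 : (n : ℝ) = ρ := by
            have h8 : ((n : ℝ) - ρ) * Real.pi = 0 := by linarith
            have h9 := (mul_eq_zero.1 h8).resolve_right hπ.ne'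
            linarith
          have h10 : 0 < n := by
            have : (0 : ℝ) < n := by rw [h7]; exact hρ
            exact_mod_cast this
          refine hint ⟨n.toNat, ?_⟩
          rw [← h7]
          have h11 : ((n.toNat : ℤ) : ℝ) = (n : ℝ) := by rw [Int.toNat_of_nonneg h10.le]
          exact_mod_cast h11.symm
        field_simp
      · rw [(laplace_QK hθ0 h h3).2]
        have h5 : ∫ x, Real.exp (κ * x) * Lam ρ θ x = cc ρ (-κ) θ / -κ := by
          rw [← mxk_Lam hρ hint hθ hz h1 h2 (neg_ne_zero.2 h)]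
          simp only [neg_mul, neg_neg]
        rw [h5]
        have h6 : Real.sin (κ * θ) ≠ 0 := by
          have h7 : |κ * θ| < Real.pi := by rwa [abs_mul, abs_of_pos hθ0]
          rw [abs_lt] at h7
          have h8 : κ * θ ≠ 0 := mul_ne_zero h hθ0.ne'
          intro h9
          exact h8 ((Real.sin_eq_zero_iff_of_lt_of_lt h7.1 h7.2).1 h9)
        unfold cc
        have h7 : Real.cos ((ρ + -κ) * θ) = Real.sin (ρ * θ) * Real.sin (κ * θ) := by
          rw [show (ρ + -κ) * θ = ρ * θ - κ * θ by ring, Real.cos_sub, hz]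
          ring
        rw [h7, mul_zero, Real.cos_zero]
        generalize (ρ + -κ) * Real.sin (Real.pi * (ρ + -κ)) = D
        generalize Real.sin (κ * θ) = t at h6 ⊢
        generalize Real.sin (ρ * θ) = t' at hsin ⊢
        rcases eq_or_ne D 0 with hD | hD
        · rw [hD]
          simp
        · field_simp
  have hc0 : Continuous (kk ρ 0) := continuous_kk ρ le_rfl hπ
  have hc1 : Continuous fun s => -(1 / Real.sin (ρ * θ)) *
      ∫ x, QK θ x * Lam ρ θ (s - x) := continuous_const.mul hgc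
  exact congrFun ((hc0.ae_eq_iff_eq volume hc1).1 hae) s

end Helper25.Ind
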