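import Pool.Agent.Helper25.Ind2.MixK
import Pool.Agent.Helper25.Ind2.NFlux

/-!
# IND2 M2: necessity of the mixed condition

`FF ρ θ N x = ∫ Lam ρ θ (x-y) dN(y)`. Standing assumptions: `N` tame, `EvLe ρ N l (-δ)` with `δ > 0`, `EvLe ρ N r A`. Facts: `hat ≤ C(1+x)` for `x ≥ 0` (`flux_right`), `hat ≥ c x` for large `x` (`flux_LE`), `c ph ≤ -Lam ρ l ≤ C ph`, `c ph ≤ Lam ρ r ≤ C ph` (`Lam_LE`, `Lam_RE`, `abs_Lam_le`), so `c hat ≤ -FF l ≤ C hat`.
PROOFS.
* `near_const`: `a x = -FF l x / DD l`, `b x = FF r x / (-DD r)`. By `flux`: `a` is nondecreasing on `[x₀,∞)` and `b (x+s) - b x ≤ C s` for `x ≥ x₀`, `s ≥ 0`. `G v = ∫_{-∞}^v (-Lam l/DD l - Lam r/(-DD r))`; the total integral is `1 - 1 = 0` (`integral_Lam`), so `|G v| ≤ C ph v` (`integral_ph_Iic` for `v ≤ 0`, `integral_ph_Ioi` for `v ≥ 0`). Fubini: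
  `∫_x^{x+R} (a - b) = ∫ (G(x+R-y) - G(x-y)) dN`, so `|∫_x^{x+R}(a-b)| ≤ C(hat(x+R) + hat x) ≤ C₁(1+x+R)`. For `x - L - R ≥ x₀`:
  `R a(x+L) ≤ ∫_{x+L}^{x+L+R} a ≤ ∫_{x+L}^{x+L+R} b + C₁(1+x+L+R)`, `∫_{x+L}^{x+L+R} b ≤ ∫_{x-L-R}^{x-L} b + C R(2L+R)` (shift by `2L+R`), `∫_{x-L-R}^{x-L} b ≤ ∫_{x-L-R}^{x-L} a + C₁(1+x) ≤ R a(x-L) + C₁(1+x)`. So `a(x+L) - a(x-L) ≤ C(2L+R) + 2C₁(1+x+L+R)/R`. Choose `R` large (given `ε`), then `x` large: `≤ ε x`.
* `um_zero`: `Um ρ 0 N x = -(1/sin ρl) ∫ QK l u FF l (x-u) du` (`kk_zero_eq`, Fubini: `∫∫ QK(u) ph(x-u-y) du dN < ∞` since `ph(x-y-u) ≤ e^{|u|} ph(x-y)` (`ph_add_le`, `ph_sub_le`, `kp ≤ 1`, `km ≤ 1`) and `QK ≤ C e^{-π|u|/l}`; if `l = π` the exponent is exactly `1`: use `kp, km < 1`: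
  `ph(x-y-u) ≤ e^{max(kp,km)|u|} ph(x-y)`). `∫ QK = 1/l`. Split `|u| ≤ L` (`near_const`) and `|u| > L` (`|FF l (x-u)| ≤ C e^{max(kp,km)|u|} hat x ≤ C' e^{..}(1+x)`, small for `L` large). Here `kp < 1` because `ρ` is not an integer (`kp + km = 1`, `km > 0`).
* `um_mix` (`0 ≤ θ < π`). Let `S_ε = ∫ GG ρ ε 0 = √(2πε) e^{ερ²/2}` and `∫ GG ρ ε θ = S_ε cos ρθ` (`integral_GG`, `κ = 0`). `∫ Um ρ θ N (x-u) GG ρ ε 0 u du = ∫ Um ρ 0 N (x-u) GG ρ ε θ u du` (`kk_gauss`, Fubini twice, `|kk ρ θ| ≤ C ph`, `ph(x-y-u) ≤ e^{|u|} ph(x-y)`, Gaussian decay).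
  The right side is `(cos ρθ) S_ε B x + o(x)` for fixed `ε`, with `B x = -FF l x/(l sin ρl)` (`um_zero`, `near_const` for `|u| ≤ L`; for `|u| > L` the bound `C e^{|u|} hat x |GG|`). The left side differs from `S_ε Um ρ θ N x` by at most `∫ |Um θ N (x-u) - Um θ N x| GG ρ ε 0 u du ≤ hat x (C ∫_{|u| ≤ 1} |u| GG + C ∫_{|u|>1} e^{|u|} GG)`
  (`kk_lip`), and the bracket divided by `S_ε` tends to `0` as `ε → 0+`. Since `hat x ≤ C(1+x)`: choose `ε` first, then `L`, then `x₀`.
* `mix_evLe`: `sg ρ θ < 0`: `cos(ρθ)/sin(ρl) < 0` as `(-1)^p sin ρl > 0`, and `-FF l x ≥ c hat x ≥ c' x`: `Um ρ θ N x ≤ -c'' x` for large `x`.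
* `nec_mix`: `exists_rep`, `evLe_of_lt` for `l` (choose real `-δ` with `h l < -δ < 0`) and `r`. For `θ < π`: `indicator_le_of_evLe` with all reals: `⊥`. For `θ = π` with `sg ρ π < 0`: `sg ρ θ' < 0` for `θ' < π` close to `π`, `h θ' = ⊥ = h(2π - θ')` (evenness, period), `nec_trig` on `(θ', π, 2π-θ')` gives `h π ≤` every real.
-/

open Filter Topology MeasureTheory Set

namespace Helper25.Ind

/-- convolution of `Lam` with a measure -/
noncomputable def FF (ρ θ : ℝ) (N : Measure ℝ) (x : ℝ) : ℝ := ∫ y, Lam ρ θ (x - y) ∂N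

private lemma mn_shift (ρ v u : ℝ) :
    ph ρ (v - u) ≤ Real.exp (max (kp ρ) (km ρ) * |u|) * ph ρ v := by
  have hp := (ph_pos ρ v).le
  rcases le_total 0 u with hu | hu
  · refine (ph_sub_le ρ hu v).trans ?_
    rw [abs_of_nonneg hu]
    refine mul_le_mul_of_nonneg_right (Real.exp_le_exp.2 ?_) hp
    exact mul_le_mul_of_nonneg_right (le_max_right _ _) hu
  · have h := ph_add_le ρ (neg_nonneg.2 hu) v
    rw [← sub_eq_add_neg] at h
    refine h.trans ?_
    rw [abs_of_nonpos hu]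
    refine mul_le_mul_of_nonneg_right (Real.exp_le_exp.2 ?_) hp
    exact mul_le_mul_of_nonneg_right (le_max_left _ _) (neg_nonneg.2 hu)

section

variable {ρ : ℝ} (hρ : 0 < ρ) (hint : ¬ ∃ n : ℕ, ρ = n) {N : Measure ℝ} (hN : Tame N)

include hρ hint hN

private lemma mn_hat_shift (x u : ℝ) :
    hat ρ N (x - u) ≤ Real.exp (max (kp ρ) (km ρ) * |u|) * hat ρ N x := by
  unfold hat
  rw [← integral_const_mul]
  refine integral_mono (integrable_ph_sub hρ hint hN _)
    ((integrable_ph_sub hρ hint hN x).const_mul _) fun y => ?_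
  have h := mn_shift ρ (x - y) u
  have e : x - u - y = x - y - u := by ring
  show ph ρ (x - u - y) ≤ _
  rw [e]
  exact h

variable {g : ℝ → ℝ} (hg : Continuous g) {C : ℝ} (hb : ∀ v, |g v| ≤ C * ph ρ v)

include hg hb

private lemma mn_int (x : ℝ) : Integrable (fun y => g (x - y)) N :=
  ((integrable_ph_sub hρ hint hN x).const_mul C).mono'
    (hg.comp (continuous_const.sub continuous_id)).aestronglyMeasurable
    (Eventually.of_forall fun y => hb (x - y))

private lemma mn_abs (x : ℝ) : |∫ y, g (x - y) ∂N| ≤ C * hat ρ N x := by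
  refine (abs_integral_le_integral_abs).trans ?_
  unfold hat
  rw [← integral_const_mul]
  exact integral_mono (mn_int hρ hint hN hg hb x).abs
    ((integrable_ph_sub hρ hint hN x).const_mul C) fun y => hb (x - y)

private lemma mn_fub {x₁ x₂ : ℝ} (h : x₁ ≤ x₂) :
    IntervalIntegrable (fun t => ∫ y, g (t - y) ∂N) volume x₁ x₂ ∧
    ∫ t in x₁..x₂, ∫ y, g (t - y) ∂N = ∫ y, (∫ t in x₁..x₂, g (t - y)) ∂N := by
  have := hN.sigmaFinite
  obtain ⟨C', hC', hh⟩ := hat_le hρ hint hN one_pos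
  have hC0 : 0 ≤ C := by
    have h1 := (abs_nonneg _).trans (hb 0)
    have h2 := ph_pos ρ 0
    by_contra hc
    push Not at hc
    nlinarith
  have hcont : Continuous (fun q : ℝ × ℝ => g (q.1 - q.2)) :=
    hg.comp (continuous_fst.sub continuous_snd)
  have hsm : StronglyMeasurable (fun q : ℝ × ℝ => g (q.1 - q.2)) := hcont.stronglyMeasurable
  have hI : Integrable (fun q : ℝ × ℝ => g (q.1 - q.2))
      ((volume.restrict (Ioc x₁ x₂)).prod N) := by
    rw [integrable_prod_iff hsm.aestronglyMeasurable]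
    refine ⟨Eventually.of_forall fun t => mn_int hρ hint hN hg hb t, ?_⟩
    have hc : Continuous (fun t : ℝ => C * (C' * Real.exp (1 * |t|))) := by fun_prop
    refine Integrable.mono' (g := fun t : ℝ => C * (C' * Real.exp (1 * |t|)))
      hc.integrableOn_Ioc hsm.norm.integral_prod_right'.aestronglyMeasurable
      (Eventually.of_forall fun t => ?_)
    rw [Real.norm_of_nonneg (integral_nonneg fun y => norm_nonneg _)]
    have h1 : ∫ y, ‖g (t - y)‖ ∂N ≤ C * hat ρ N t := by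
      unfold hat
      rw [← integral_const_mul]
      exact integral_mono (mn_int hρ hint hN hg hb t).norm
        ((integrable_ph_sub hρ hint hN t).const_mul C) fun y => hb (t - y)
    exact h1.trans (mul_le_mul_of_nonneg_left (hh t) hC0)
  constructor
  · rw [intervalIntegrable_iff_integrableOn_Ioc_of_le h]
    exact hI.integral_prod_left
  · simp only [intervalIntegral.integral_of_le h]
    exact integral_integral_swap hI

private lemma mn_prim (hgi : Integrable g) {G : ℝ → ℝ} {C' : ℝ}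
    (hG : ∀ v, G v = ∫ s in Iic v, g s) (hGb : ∀ v, |G v| ≤ C' * ph ρ v) {x₁ x₂ : ℝ}
    (h : x₁ ≤ x₂) :
    |∫ t in x₁..x₂, ∫ y, g (t - y) ∂N| ≤ C' * (hat ρ N x₂ + hat ρ N x₁) := by
  rw [(mn_fub hρ hint hN hg hb h).2]
  have e1 : ∀ y, ∫ t in x₁..x₂, g (t - y) = G (x₂ - y) - G (x₁ - y) := by
    intro y
    rw [intervalIntegral.integral_comp_sub_right (fun s => g s) y, hG, hG,
      intervalIntegral.integral_Iic_sub_Iic hgi.integrableOn hgi.integrableOn]
  simp only [e1]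
  have i1 := (integrable_ph_sub hρ hint hN x₂).const_mul C'
  have i2 := (integrable_ph_sub hρ hint hN x₁).const_mul C'
  have h2 := norm_integral_le_of_norm_le (i1.add i2) (f := fun y => G (x₂ - y) - G (x₁ - y))
    (Eventually.of_forall fun y => by
      rw [Real.norm_eq_abs]
      exact (abs_sub _ _).trans (add_le_add (hGb _) (hGb _)))
  rw [Real.norm_eq_abs] at h2
  refine h2.trans (le_of_eq ?_)
  have h3 : ∫ a, ((fun y => C' * ph ρ (x₂ - y)) + fun y => C' * ph ρ (x₁ - y)) a ∂N =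
      (∫ a, C' * ph ρ (x₂ - a) ∂N) + ∫ a, C' * ph ρ (x₁ - a) ∂N := integral_add i1 i2
  rw [h3, integral_const_mul, integral_const_mul]
  unfold hat
  ring

end

private lemma mn_G {ρ : ℝ} (hρ : 0 < ρ) (hint : ¬ ∃ n : ℕ, ρ = n) {g : ℝ → ℝ} {C : ℝ}
    (hb : ∀ v, |g v| ≤ C * ph ρ v) (hgi : Integrable g) (h0 : ∫ s, g s = 0) :
    ∃ C' > 0, ∀ v, |∫ s in Iic v, g s| ≤ C' * ph ρ v := by
  obtain ⟨C1, hC1, H1⟩ := integral_ph_Ioi hρ hint
  obtain ⟨C2, hC2, H2⟩ := integral_ph_Iic hρ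
  have hC0 : 0 ≤ C := by
    have h1 := (abs_nonneg _).trans (hb 0)
    have h2 := ph_pos ρ 0
    by_contra hc
    push Not at hc
    nlinarith
  have hP : Integrable (ph ρ) := by
    have h := integrable_ph_exp (ρ := ρ) (κ := 0) (by linarith [km_pos hρ hint]) (kp_pos hρ.le)
    simpa using h
  have key : ∀ S : Set ℝ, MeasurableSet S → |∫ s in S, g s| ≤ C * ∫ s in S, ph ρ s := by
    intro S hS
    refine (abs_integral_le_integral_abs).trans ?_
    rw [← integral_const_mul]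
    exact setIntegral_mono_on hgi.abs.integrableOn (hP.const_mul C).integrableOn hS
      fun s _ => hb s
  refine ⟨C * C1 + C * C2 + 1, by positivity, fun v => ?_⟩
  have hph := (ph_pos ρ v).le
  rcases le_total v 0 with hv | hv
  · refine (key _ measurableSet_Iic).trans ?_
    have h1 := mul_le_mul_of_nonneg_left (H2 v hv) hC0
    have h2 : 0 ≤ C * C1 * ph ρ v := by positivity
    nlinarith
  · have h3 : ∫ s in Iic v, g s = -∫ s in Ioi v, g s := by
      have h4 := intervalIntegral.integral_Iic_add_Ioi (b := v) (f := g) (μ := volume)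
        hgi.integrableOn hgi.integrableOn
      rw [h0] at h4
      linarith
    rw [h3, abs_neg]
    refine (key _ measurableSet_Ioi).trans ?_
    have h1 := mul_le_mul_of_nonneg_left (H1 v hv) hC0
    have h2 : 0 ≤ C * C2 * ph ρ v := by positivity
    nlinarith

private lemma mn_mono {ρ θ A x₀ : ℝ} (hρ : 0 < ρ) (hint : ¬ ∃ n : ℕ, ρ = n) {N : Measure ℝ}
    (hN : Tame N) (hθ : θ ∈ Icc (0 : ℝ) Real.pi) (hz : Real.cos (ρ * θ) = 0)
    (hx₀ : ∀ᵐ x : ℝ, x₀ ≤ x → Um ρ θ N x ≤ A) {x₁ x₂ : ℝ} (h0 : x₀ ≤ x₁) (h : x₁ ≤ x₂) :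
    FF ρ θ N x₂ - FF ρ θ N x₁ ≤ A * (x₂ - x₁) := by
  obtain ⟨f1, f2⟩ := flux hρ hint hN hθ hz h
  unfold FF
  rw [← f2]
  have h1 : ∫ x in x₁..x₂, Um ρ θ N x ≤ ∫ _ in x₁..x₂, A := by
    refine intervalIntegral.integral_mono_ae_restrict h f1 (by simp) ?_
    rw [EventuallyLE, ae_restrict_iff' measurableSet_Icc]
    filter_upwards [hx₀] with x hx hxm
    exact hx (h0.trans hxm.1)
  rw [intervalIntegral.integral_const, smul_eq_mul] at h1
  linarith

/-- the abstract argument -/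
private lemma mn_core {P Q : ℝ → ℝ} {x₀ C₁ K : ℝ} (h00 : 0 ≤ x₀) (hC₁ : 0 ≤ C₁)
    (hP : ∀ a b, x₀ ≤ a → a ≤ b → P a ≤ P b)
    (hQ : ∀ a b, x₀ ≤ a → a ≤ b → Q b - Q a ≤ K * (b - a))
    (iP : ∀ a b, a ≤ b → IntervalIntegrable P volume a b)
    (iQ : ∀ a b, a ≤ b → IntervalIntegrable Q volume a b)
    (hPQ : ∀ a b, 0 ≤ a → a ≤ b → |∫ t in a..b, (P t - Q t)| ≤ C₁ * (1 + b))
    {L ε : ℝ} (hL : 0 < L) (hε : 0 < ε) :
    ∃ x₂, ∀ x, x₂ ≤ x → x₀ ≤ x - L ∧ P (x + L) - P (x - L) ≤ ε * x := by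
  obtain ⟨R, hR⟩ : ∃ R, R = 1 + 4 * C₁ / ε := ⟨_, rfl⟩
  have hR0 : 0 < R := by
    rw [hR]
    have : 0 ≤ 4 * C₁ / ε := by positivity
    linarith
  have hRε : 4 * C₁ ≤ R * ε := by
    rw [hR, add_mul, div_mul_cancel₀ _ hε.ne']
    linarith
  obtain ⟨M, hM⟩ : ∃ M, M = R * K * (2 * L + R) + 2 * C₁ * (1 + L + R) := ⟨_, rfl⟩
  refine ⟨max (x₀ + L + R) (2 * M / (R * ε)), fun x hx => ?_⟩
  have hx1 : x₀ + L + R ≤ x := (le_max_left _ _).trans hx
  have hx2 : 2 * M / (R * ε) ≤ x := (le_max_right _ _).trans hx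
  refine ⟨by linarith, ?_⟩
  have hRe : 0 < R * ε := by positivity
  rw [div_le_iff₀ hRe] at hx2
  -- first step
  have s1 : R * P (x + L) ≤ ∫ t in (x + L)..(x + L + R), P t := by
    have h1 : ∫ _ in (x + L)..(x + L + R), P (x + L) ≤ ∫ t in (x + L)..(x + L + R), P t := by
      refine intervalIntegral.integral_mono_on (by linarith) (by simp)
        (iP _ _ (by linarith)) fun t ht => hP _ _ (by linarith) ht.1
    rw [intervalIntegral.integral_const, smul_eq_mul] at h1
    have h2 : x + L + R - (x + L) = R := by ring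
    rwa [h2] at h1
  have s5 : ∫ t in (x - L - R)..(x - L), P t ≤ R * P (x - L) := by
    have h1 : ∫ t in (x - L - R)..(x - L), P t ≤ ∫ _ in (x - L - R)..(x - L), P (x - L) := by
      refine intervalIntegral.integral_mono_on (by linarith) (iP _ _ (by linarith)) (by simp)
        fun t ht => hP _ _ (by linarith [ht.1]) ht.2
    rw [intervalIntegral.integral_const, smul_eq_mul] at h1
    have h2 : x - L - (x - L - R) = R := by ring
    rwa [h2] at h1
  have hdiff : ∀ a b, 0 ≤ a → a ≤ b →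
      |(∫ t in a..b, P t) - ∫ t in a..b, Q t| ≤ C₁ * (1 + b) := by
    intro a b ha hab
    rw [← intervalIntegral.integral_sub (iP a b hab) (iQ a b hab)]
    exact hPQ a b ha hab
  have s2 := (abs_le.1 (hdiff (x + L) (x + L + R) (by linarith) (by linarith))).2
  have s4 := (abs_le.1 (hdiff (x - L - R) (x - L) (by linarith) (by linarith))).1
  have s3 : ∫ t in (x + L)..(x + L + R), Q t ≤
      (∫ t in (x - L - R)..(x - L), Q t) + R * (K * (2 * L + R)) := by
    have e1 : ∫ t in (x - L - R)..(x - L), Q (t + (2 * L + R)) =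
        ∫ t in (x + L)..(x + L + R), Q t := by
      rw [intervalIntegral.integral_comp_add_right (fun t => Q t) (2 * L + R)]
      congr 1 <;> ring
    have i1 : IntervalIntegrable (fun t => Q (t + (2 * L + R))) volume (x - L - R) (x - L) := by
      have h1 := (iQ (x + L) (x + L + R) (by linarith)).comp_add_right (2 * L + R)
      have e2 : x + L - (2 * L + R) = x - L - R := by ring
      have e3 : x + L + R - (2 * L + R) = x - L := by ring
      rwa [e2, e3] at h1
    have i2 := iQ (x - L - R) (x - L) (by linarith)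
    have h2 : ∫ t in (x - L - R)..(x - L), Q (t + (2 * L + R)) ≤
        ∫ t in (x - L - R)..(x - L), (Q t + K * (2 * L + R)) := by
      refine intervalIntegral.integral_mono_on (by linarith) i1 (i2.add (by simp)) fun t ht => ?_
      have h3 := hQ t (t + (2 * L + R)) (by linarith [ht.1]) (by linarith)
      have h4 : t + (2 * L + R) - t = 2 * L + R := by ring
      rw [h4] at h3
      linarith
    rw [e1, intervalIntegral.integral_add i2 (by simp), intervalIntegral.integral_const,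
      smul_eq_mul] at h2
    have h5 : x - L - (x - L - R) = R := by ring
    rwa [h5] at h2
  have h6 : R * (P (x + L) - P (x - L)) ≤ R * (ε * x) := by
    have h7 : C₁ * (1 + (x - L)) ≤ C₁ * (1 + x) :=
      mul_le_mul_of_nonneg_left (by linarith) hC₁
    have h8 : C₁ * (1 + (x + L + R)) = C₁ * (1 + L + R) + C₁ * x := by ring
    have h9 : C₁ * (1 + x) ≤ C₁ * (1 + L + R) + C₁ * x := by
      have : 0 ≤ C₁ * (L + R) := by positivity
      linarith
    have hx0 : 0 ≤ x := by linarith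
    have h10 : 4 * C₁ * x ≤ R * ε * x := mul_le_mul_of_nonneg_right hRε hx0
    have h11 : R * (K * (2 * L + R)) = R * K * (2 * L + R) := by ring
    nlinarith
  exact le_of_mul_le_mul_left h6 hR0

theorem near_const {ρ l r δ A : ℝ} (hρ : 0 < ρ) (hint : ¬ ∃ n : ℕ, ρ = n) {N : Measure ℝ}
    (hN : Tame N) (hl : LE ρ l) (hr : RE ρ r) (hδ : 0 < δ) (h1 : EvLe ρ N l (-δ))
    (h2 : EvLe ρ N r A) {L ε : ℝ} (hL : 0 < L) (hε : 0 < ε) :
    ∃ x₀, ∀ x, x₀ ≤ x → ∀ u, |u| ≤ L → |FF ρ l N (x - u) - FF ρ l N x| ≤ ε * x := by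
  have hθl : l ∈ Icc (0 : ℝ) Real.pi := ⟨hl.1, hl.2.1⟩
  have hθr : r ∈ Icc (0 : ℝ) Real.pi := ⟨hr.1, hr.2.1⟩
  obtain ⟨hA, Ch, hhat⟩ := flux_right hρ hint hN hr h2
  obtain ⟨xl, hxl⟩ := h1
  obtain ⟨xr, hxr⟩ := h2
  obtain ⟨Cl, hCl, bl⟩ := abs_Lam_le hρ hint hθl hl.2.2.1
  obtain ⟨Cr, hCr, br⟩ := abs_Lam_le hρ hint hθr hr.2.2.1
  have cl := continuous_Lam hρ hint hθl
  have cr := continuous_Lam hρ hint hθr
  obtain ⟨α, hα⟩ : ∃ α, α = DD ρ l := ⟨_, rfl⟩
  obtain ⟨β, hβ⟩ : ∃ β, β = -DD ρ r := ⟨_, rfl⟩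
  have hα0 : 0 < α := by rw [hα]; exact DD_LE hρ hint hl
  have hβ0 : 0 < β := by rw [hβ]; linarith [DD_RE hρ hint hr]
  have hCh : 0 ≤ Ch := by
    have h3 := (hat_nonneg ρ N 0).trans (hhat 0 le_rfl)
    linarith
  obtain ⟨g, hg⟩ : ∃ g : ℝ → ℝ, g = fun s => -(β * Lam ρ l s) - α * Lam ρ r s := ⟨_, rfl⟩
  have gc : Continuous g := by
    rw [hg]
    exact (continuous_const.mul cl).neg.sub (continuous_const.mul cr)
  have gb : ∀ v, |g v| ≤ (β * Cl + α * Cr) * ph ρ v := by
    intro v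
    rw [hg]
    refine (abs_sub _ _).trans ?_
    rw [abs_neg, abs_mul, abs_mul, abs_of_pos hα0, abs_of_pos hβ0]
    have h3 := mul_le_mul_of_nonneg_left (bl v) hβ0.le
    have h4 := mul_le_mul_of_nonneg_left (br v) hα0.le
    linarith
  have il := integrable_Lam hρ hint hθl hl.2.2.1
  have ir := integrable_Lam hρ hint hθr hr.2.2.1
  have gi : Integrable g := by
    rw [hg]
    exact (il.const_mul β).neg.sub (ir.const_mul α)
  have g0 : ∫ s, g s = 0 := by
    have h3 : ∫ s, g s = (∫ s, -(β * Lam ρ l s)) - ∫ s, α * Lam ρ r s := by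
      rw [hg]
      exact integral_sub (il.const_mul β).neg (ir.const_mul α)
    rw [h3, integral_neg, integral_const_mul, integral_const_mul,
      integral_Lam hρ hint hθl hl.2.2.1, integral_Lam hρ hint hθr hr.2.2.1, ← hα, ← hβ]
    ring
  obtain ⟨C', hC', hG⟩ := mn_G hρ hint gb gi g0
  have ePQ : ∀ t, ∫ y, g (t - y) ∂N = -(β * FF ρ l N t) - α * FF ρ r N t := by
    intro t
    have i1 := (mn_int hρ hint hN cl bl t).const_mul β
    have i2 := (mn_int hρ hint hN cr br t).const_mul α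
    rw [hg]
    have h3 : ∫ y, (-(β * Lam ρ l (t - y)) - α * Lam ρ r (t - y)) ∂N =
        (∫ y, -(β * Lam ρ l (t - y)) ∂N) - ∫ y, α * Lam ρ r (t - y) ∂N := integral_sub i1.neg i2
    refine h3.trans ?_
    rw [integral_neg, integral_const_mul, integral_const_mul]
    rfl
  have iL : ∀ a b, a ≤ b → IntervalIntegrable (FF ρ l N) volume a b := fun a b hab =>
    (mn_fub hρ hint hN cl bl hab).1
  have iR : ∀ a b, a ≤ b → IntervalIntegrable (FF ρ r N) volume a b := fun a b hab =>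
    (mn_fub hρ hint hN cr br hab).1
  obtain ⟨x₂, hx₂⟩ := mn_core (P := fun t => -(β * FF ρ l N t)) (Q := fun t => α * FF ρ r N t)
    (x₀ := max (max xl xr) 0) (C₁ := 2 * C' * Ch) (K := α * A) (le_max_right _ _)
    (by positivity)
    (by
      intro a b ha hab
      have ha' : xl ≤ a := ((le_max_left _ _).trans (le_max_left _ _)).trans ha
      have h3 := mn_mono hρ hint hN hθl hl.2.2.1 hxl ha' hab
      have h4 : -δ * (b - a) ≤ 0 := by nlinarith
      have h5 : β * FF ρ l N b ≤ β * FF ρ l N a :=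
        mul_le_mul_of_nonneg_left (by linarith) hβ0.le
      show -(β * FF ρ l N a) ≤ -(β * FF ρ l N b)
      linarith)
    (by
      intro a b ha hab
      have ha' : xr ≤ a := ((le_max_right _ _).trans (le_max_left _ _)).trans ha
      have h3 := mn_mono hρ hint hN hθr hr.2.2.1 hxr ha' hab
      have h4 := mul_le_mul_of_nonneg_left h3 hα0.le
      show α * FF ρ r N b - α * FF ρ r N a ≤ α * A * (b - a)
      linarith)
    (fun a b hab => ((iL a b hab).const_mul β).neg)
    (fun a b hab => (iR a b hab).const_mul α)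
    (by
      intro a b ha hab
      have h3 := mn_prim hρ hint hN gc gb gi (G := fun v => ∫ s in Iic v, g s) (fun v => rfl)
        hG hab
      simp only [ePQ] at h3
      refine h3.trans ?_
      have h4 := hhat a ha
      have h5 := hhat b (ha.trans hab)
      have h6 : hat ρ N b + hat ρ N a ≤ 2 * Ch * (1 + b) := by
        have h7 : Ch * (1 + a) ≤ Ch * (1 + b) := mul_le_mul_of_nonneg_left (by linarith) hCh
        linarith
      have h8 := mul_le_mul_of_nonneg_left h6 hC'.le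
      linarith)
    hL (show 0 < β * ε by positivity)
  refine ⟨x₂, fun x hx u hu => ?_⟩
  obtain ⟨q1, q2⟩ := hx₂ x hx
  have hm : ∀ a b, x - L ≤ a → a ≤ b → β * FF ρ l N b ≤ β * FF ρ l N a := by
    intro a b ha hab
    have ha' : xl ≤ a := (((le_max_left _ _).trans (le_max_left _ _)).trans q1).trans ha
    have h3 := mn_mono hρ hint hN hθl hl.2.2.1 hxl ha' hab
    have h4 : -δ * (b - a) ≤ 0 := by nlinarith
    exact mul_le_mul_of_nonneg_left (by linarith) hβ0.le
  obtain ⟨hu1, hu2⟩ := abs_le.1 hu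
  have m1 := hm (x - L) (x - u) le_rfl (by linarith)
  have m2 := hm (x - u) (x + L) (by linarith) (by linarith)
  have m3 := hm (x - L) x le_rfl (by linarith)
  have m4 := hm x (x + L) (by linarith) (by linarith)
  have q3 : -(β * FF ρ l N (x + L)) - -(β * FF ρ l N (x - L)) ≤ β * ε * x := q2
  have h9 : |β * FF ρ l N (x - u) - β * FF ρ l N x| ≤ β * (ε * x) := by
    rw [abs_le]
    constructor <;> linarith
  rw [← mul_sub, abs_mul, abs_of_pos hβ0] at h9
  exact le_of_mul_le_mul_left h9 hβ0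

private lemma mn_exp_int {μ : ℝ} (hμ : 0 < μ) :
    Integrable fun x : ℝ => Real.exp (-(μ * |x|)) := by
  rw [← integrableOn_univ, ← Iic_union_Ioi (a := (0 : ℝ))]
  refine IntegrableOn.union ?_ ?_
  · refine (integrableOn_exp_mul_Iic hμ 0).congr_fun (fun x hx => ?_) measurableSet_Iic
    rw [mem_Iic] at hx
    show Real.exp (μ * x) = Real.exp (-(μ * |x|))
    rw [abs_of_nonpos hx]
    congr 1
    ring
  · refine (integrableOn_exp_mul_Ioi (neg_lt_zero.2 hμ) 0).congr_fun (fun x hx => ?_)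
      measurableSet_Ioi
    rw [mem_Ioi] at hx
    show Real.exp (-μ * x) = Real.exp (-(μ * |x|))
    rw [abs_of_pos hx]
    congr 1
    ring

private lemma mn_QK {l m : ℝ} (hl : 0 < l) (hlp : l ≤ Real.pi) (hm : m < 1) :
    Integrable (fun u => Real.exp (m * |u|) * QK l u) := by
  obtain ⟨C, hC, h⟩ := QK_le hl
  have h1 : 1 ≤ Real.pi / l := (one_le_div hl).2 hlp
  have hc : Continuous (fun u : ℝ => Real.exp (m * |u|)) := by fun_prop
  refine ((mn_exp_int (show 0 < 1 - m by linarith)).const_mul C).mono'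
    (hc.mul (continuous_QK hl)).aestronglyMeasurable (Eventually.of_forall fun u => ?_)
  rw [Real.norm_of_nonneg (mul_nonneg (Real.exp_pos _).le (QK_pos hl u).le)]
  have h2 : Real.exp (m * |u|) * Real.exp (-(Real.pi / l * |u|)) ≤
      Real.exp (-((1 - m) * |u|)) := by
    rw [← Real.exp_add]
    refine Real.exp_le_exp.2 ?_
    have h3 := mul_le_mul_of_nonneg_right h1 (abs_nonneg u)
    linarith
  calc Real.exp (m * |u|) * QK l u ≤
        Real.exp (m * |u|) * (C * Real.exp (-(Real.pi / l * |u|))) :=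
        mul_le_mul_of_nonneg_left (h u) (Real.exp_pos _).le
    _ = C * (Real.exp (m * |u|) * Real.exp (-(Real.pi / l * |u|))) := by ring
    _ ≤ C * Real.exp (-((1 - m) * |u|)) := mul_le_mul_of_nonneg_left h2 hC.le

theorem um_zero {ρ l r δ A : ℝ} (hρ : 0 < ρ) (hint : ¬ ∃ n : ℕ, ρ = n) {N : Measure ℝ}
    (hN : Tame N) (hl : LE ρ l) (hr : RE ρ r) (hδ : 0 < δ) (h1 : EvLe ρ N l (-δ))
    (h2 : EvLe ρ N r A) {ε : ℝ} (hε : 0 < ε) :
    ∃ x₀, ∀ x, x₀ ≤ x → |Um ρ 0 N x - -FF ρ l N x / (l * Real.sin (ρ * l))| ≤ ε * x := by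
  have := hN.sigmaFinite
  have hθl : l ∈ Icc (0 : ℝ) Real.pi := ⟨hl.1, hl.2.1⟩
  have hl0 : 0 < l := by
    rcases hl.1.lt_or_eq with h | h
    · exact h
    · exfalso
      have h3 := hl.2.2.1
      rw [← h, mul_zero, Real.cos_zero] at h3
      exact one_ne_zero h3
  obtain ⟨s, hs⟩ : ∃ s, s = Real.sin (ρ * l) := ⟨_, rfl⟩
  have hs1 : |s| = 1 := by
    have h3 := Real.sin_sq_add_cos_sq (ρ * l)
    rw [hl.2.2.1, ← hs] at h3
    have h4 : |s| ^ 2 = 1 := by
      rw [sq_abs]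
      linarith
    have h5 := abs_nonneg s
    nlinarith
  have hs0 : s ≠ 0 := by
    intro h3
    rw [h3, abs_zero] at hs1
    exact zero_ne_one hs1
  obtain ⟨-, Ch, hhat⟩ := flux_right hρ hint hN hr h2
  obtain ⟨Cl, hCl, bl⟩ := abs_Lam_le hρ hint hθl hl.2.2.1
  have cl := continuous_Lam hρ hint hθl
  have hCh : 0 ≤ Ch := by
    have h3 := (hat_nonneg ρ N 0).trans (hhat 0 le_rfl)
    linarith
  obtain ⟨m, hm⟩ : ∃ m, m = max (kp ρ) (km ρ) := ⟨_, rfl⟩
  have hm1 : m < 1 := by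
    have h3 := kp_add_km ρ
    have h4 := kp_pos hρ.le
    have h5 := km_pos hρ hint
    rw [hm]
    exact max_lt (by linarith) (by linarith)
  have hm0 : 0 < m := by
    rw [hm]
    exact lt_max_of_lt_left (kp_pos hρ.le)
  obtain ⟨m', hm'⟩ : ∃ m', m' = (m + 1) / 2 := ⟨_, rfl⟩
  have hm'1 : m' < 1 := by rw [hm']; linarith
  obtain ⟨c, hc⟩ : ∃ c, c = m' - m := ⟨_, rfl⟩
  have hc0 : 0 < c := by rw [hc, hm']; linarith
  have hshift : ∀ v u, ph ρ (v - u) ≤ Real.exp (m * |u|) * ph ρ v := by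
    intro v u
    rw [hm]
    exact mn_shift ρ v u
  have hhs : ∀ x u, hat ρ N (x - u) ≤ Real.exp (m * |u|) * hat ρ N x := by
    intro x u
    rw [hm]
    exact mn_hat_shift hρ hint hN x u
  have hFF : ∀ x, |FF ρ l N x| ≤ Cl * hat ρ N x := fun x => mn_abs hρ hint hN cl bl x
  have hQ1 := mn_QK hl0 hl.2.1 hm1
  have hQ2 := mn_QK hl0 hl.2.1 hm'1
  obtain ⟨iQ, eQ⟩ := integral_QK hl0
  have cQ := continuous_QK hl0
  -- Fubini
  have hI : ∀ x, Integrable (fun q : ℝ × ℝ => QK l q.2 * Lam ρ l (x - q.1 - q.2))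
      (N.prod volume) := by
    intro x
    refine (((integrable_ph_sub hρ hint hN x).mul_prod hQ1).const_mul Cl).mono' ?_
      (Eventually.of_forall fun q => ?_)
    · refine Continuous.aestronglyMeasurable ?_
      exact (cQ.comp continuous_snd).mul
        (cl.comp ((continuous_const.sub continuous_fst).sub continuous_snd))
    · rw [Real.norm_eq_abs, abs_mul, abs_of_pos (QK_pos hl0 q.2)]
      have h3 := (bl (x - q.1 - q.2)).trans
        (mul_le_mul_of_nonneg_left (hshift (x - q.1) q.2) hCl.le)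
      have h4 := mul_le_mul_of_nonneg_left h3 (QK_pos hl0 q.2).le
      refine h4.trans (le_of_eq ?_)
      ring
  have eI : ∀ x u, ∫ y, QK l u * Lam ρ l (x - y - u) ∂N = QK l u * FF ρ l N (x - u) := by
    intro x u
    rw [integral_const_mul]
    congr 1
    unfold FF
    refine integral_congr_ae (Eventually.of_forall fun y => ?_)
    show Lam ρ l (x - y - u) = Lam ρ l (x - u - y)
    congr 1
    ring
  have iF : ∀ x, Integrable (fun u => QK l u * FF ρ l N (x - u)) := by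
    intro x
    have h3 := (hI x).integral_prod_right
    have h4 : (fun u => ∫ y, QK l u * Lam ρ l (x - y - u) ∂N) =
        fun u => QK l u * FF ρ l N (x - u) := funext fun u => eI x u
    rw [← h4]
    exact h3
  have eU : ∀ x, Um ρ 0 N x = -(1 / s) * ∫ u, QK l u * FF ρ l N (x - u) := by
    intro x
    unfold Um
    have h3 : ∀ y, kk ρ 0 (x - y) = -(1 / s) * ∫ u, QK l u * Lam ρ l (x - y - u) := by
      intro y
      rw [hs]
      exact kk_zero_eq hρ hint hθl hl.2.2.1 (x - y)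
    simp only [h3]
    rw [integral_const_mul]
    congr 1
    have h4 := integral_integral_swap (f := fun y u => QK l u * Lam ρ l (x - y - u)) (hI x)
    have h5 : ∫ y, (∫ u, QK l u * Lam ρ l (x - y - u)) ∂N =
        ∫ u, ∫ y, QK l u * Lam ρ l (x - y - u) ∂N := h4
    rw [h5]
    simp only [eI]
  have eD : ∀ x, Um ρ 0 N x - -FF ρ l N x / (l * Real.sin (ρ * l)) =
      -(1 / s) * ∫ u, QK l u * (FF ρ l N (x - u) - FF ρ l N x) := by
    intro x
    have h3 : ∫ u, QK l u * (FF ρ l N (x - u) - FF ρ l N x) =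
        (∫ u, QK l u * FF ρ l N (x - u)) - (1 / l) * FF ρ l N x := by
      have h4 : (fun u => QK l u * (FF ρ l N (x - u) - FF ρ l N x)) =
          fun u => QK l u * FF ρ l N (x - u) - QK l u * FF ρ l N x := by
        funext u
        ring
      rw [h4, integral_sub (iF x) (iQ.mul_const _), integral_mul_const, eQ]
    rw [h3, eU, ← hs]
    field_simp
    ring
  -- constants
  obtain ⟨K, hK⟩ : ∃ K, K = ∫ u, Real.exp (m' * |u|) * QK l u := ⟨_, rfl⟩
  have hK0 : 0 ≤ K := by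
    rw [hK]
    exact integral_nonneg fun u => mul_nonneg (Real.exp_pos _).le (QK_pos hl0 u).le
  obtain ⟨B, hB⟩ : ∃ B, B = 2 * Cl * Ch := ⟨_, rfl⟩
  have hB0 : 0 ≤ B := by rw [hB]; positivity
  obtain ⟨L, hL⟩ : ∃ L, L = 1 + 4 * (B * K) / (c * ε) := ⟨_, rfl⟩
  have hL0 : 0 < L := by
    rw [hL]
    have : 0 ≤ 4 * (B * K) / (c * ε) := by positivity
    linarith
  have hLe : B * K * Real.exp (-(c * L)) ≤ ε / 4 := by
    have h3 : 4 * (B * K) ≤ ε * Real.exp (c * L) := by
      have h4 := Real.add_one_le_exp (c * L)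
      have h5 : 4 * (B * K) ≤ ε * (c * L) := by
        rw [hL]
        have h6 : ε * (c * (1 + 4 * (B * K) / (c * ε))) = ε * c + 4 * (B * K) := by
          field_simp
        rw [h6]
        have : 0 < ε * c := by positivity
        linarith
      have h7 : ε * (c * L) ≤ ε * Real.exp (c * L) :=
        mul_le_mul_of_nonneg_left (by linarith) hε.le
      linarith
    rw [Real.exp_neg]
    have h8 := Real.exp_pos (c * L)
    rw [← div_eq_mul_inv, div_le_iff₀ h8]
    linarith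
  obtain ⟨x₀, hx₀⟩ := near_const hρ hint hN hl hr hδ h1 h2 hL0
    (show 0 < l * ε / 2 by positivity)
  refine ⟨max x₀ 1, fun x hx => ?_⟩
  have hx1 : x₀ ≤ x := (le_max_left _ _).trans hx
  have hx2 : 1 ≤ x := (le_max_right _ _).trans hx
  rw [eD, abs_mul, abs_neg, abs_div, abs_one, hs1, div_one, one_mul]
  obtain ⟨E, hE⟩ : ∃ E, E = Real.exp (-(c * L)) := ⟨_, rfl⟩
  have hE0 : 0 < E := by rw [hE]; exact Real.exp_pos _
  have hpt : ∀ u, |FF ρ l N (x - u) - FF ρ l N x| ≤
      l * ε / 2 * x + B * (1 + x) * E * Real.exp (m' * |u|) := by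
    intro u
    rcases le_or_gt |u| L with hu | hu
    · have h3 := hx₀ x hx1 u hu
      have h4 : 0 ≤ B * (1 + x) * E * Real.exp (m' * |u|) := by positivity
      linarith
    · have h3 := (abs_sub (FF ρ l N (x - u)) (FF ρ l N x)).trans
        (add_le_add (hFF (x - u)) (hFF x))
      have h4 := hhs x u
      have h5 := hhat x (by linarith)
      have h6 : 1 ≤ Real.exp (m * |u|) := Real.one_le_exp (by positivity)
      have h7 := hat_nonneg ρ N x
      have h8 : Cl * hat ρ N (x - u) + Cl * hat ρ N x ≤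
          2 * Cl * Real.exp (m * |u|) * hat ρ N x := by
        have h9 := mul_le_mul_of_nonneg_left h4 hCl.le
        have h10 : Cl * hat ρ N x * 1 ≤ Cl * hat ρ N x * Real.exp (m * |u|) :=
          mul_le_mul_of_nonneg_left h6 (by positivity)
        linarith
      have h11 : 2 * Cl * Real.exp (m * |u|) * hat ρ N x ≤
          2 * Cl * Real.exp (m * |u|) * (Ch * (1 + x)) :=
        mul_le_mul_of_nonneg_left h5 (by positivity)
      have h12 : Real.exp (m * |u|) ≤ E * Real.exp (m' * |u|) := by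
        rw [hE, ← Real.exp_add]
        refine Real.exp_le_exp.2 ?_
        have h13 : c * L ≤ c * |u| := mul_le_mul_of_nonneg_left hu.le hc0.le
        have h14 : m' * |u| = m * |u| + c * |u| := by rw [hc]; ring
        linarith
      have h15 : 2 * Cl * Real.exp (m * |u|) * (Ch * (1 + x)) =
          B * (1 + x) * Real.exp (m * |u|) := by rw [hB]; ring
      have h16 : B * (1 + x) * Real.exp (m * |u|) ≤
          B * (1 + x) * (E * Real.exp (m' * |u|)) :=
        mul_le_mul_of_nonneg_left h12 (by positivity)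
      have h17 : 0 ≤ l * ε / 2 * x := by positivity
      linarith
  have i1 : Integrable (fun u => l * ε / 2 * x * QK l u +
      B * (1 + x) * E * (Real.exp (m' * |u|) * QK l u)) :=
    (iQ.const_mul _).add (hQ2.const_mul _)
  have h3 := norm_integral_le_of_norm_le i1
    (f := fun u => QK l u * (FF ρ l N (x - u) - FF ρ l N x))
    (Eventually.of_forall fun u => by
      rw [Real.norm_eq_abs, abs_mul, abs_of_pos (QK_pos hl0 u)]
      have h4 := mul_le_mul_of_nonneg_left (hpt u) (QK_pos hl0 u).le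
      linarith)
  rw [Real.norm_eq_abs] at h3
  refine h3.trans ?_
  rw [integral_add (iQ.const_mul _) (hQ2.const_mul _), integral_const_mul, integral_const_mul,
    eQ, ← hK]
  have h5 : l * ε / 2 * x * (1 / l) = ε / 2 * x := by
    field_simp
  rw [h5]
  have h6 : B * (1 + x) * E * K = (B * K * E) * (1 + x) := by ring
  rw [← hE] at hLe
  have h7 : (B * K * E) * (1 + x) ≤ ε / 4 * (1 + x) :=
    mul_le_mul_of_nonneg_right hLe (by linarith)
  have h8 : ε / 4 * (1 + x) ≤ ε / 2 * x := by nlinarith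
  linarith

end Helper25.Ind
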