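import Pool.Agent.Helper25.Ind2.Tame

/-!
# IND2 N1: a ray with positive mean and bounded potential forces finite type

PROOF of `bounded_of_pos`. Take `μ = μ₀` from `exists_slow` (for `θ`), `T_X(x) = e^{-μ|x-X|}`, which satisfies `|T(x+s) - T(x)| ≤ T(x)(e^{μ|s|}-1)` (two cases; `T(x+s) ≥ e^{-μ|s|} T(x)` and `1 - e^{-a} ≤ e^a - 1`). The reflected kernel: `∫ kk(x-y) T(x) dx`:
substitute `x = y + s`: `∫ kk(s) T(y+s) ds ≥ c T(y) - T(y) ∫|kk|(e^{μ|s|}-1) ds ≥ (c/2) T(y)`, `c = cc ρ 0 θ > 0`. (`exists_slow` is stated for `U`; apply it to the function `y ↦ T(2 y₀ - y)`... or reprove: `∫ kk(s) T(y+s) ds = U ρ θ N y` with `N z = T(2y - z)`,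
`N(y) = T y`, `|N(y+s) - N(y)| = |T(y-s) - T(y)| ≤ T(y)(e^{μ|s|}-1)`.)
`tame_fubini`: `∫ Um T = ∫ (∫ kk(x-y) T(x) dx) dN(y) ≥ (c/2) ∫ T dN`. Upper bound: for a.e. `x ≥ x₀`, `Um ≤ max A 0`; for `x ≤ x₀`, `Um ≤ C hat ≤ C'` (`Um_le`, `hat_left`); so `∫ Um T ≤ (max A 0 + C'') · 2/μ`. Hence `∫ T_X dN ≤ C₃` for all `X`, and
`hat X = ∫ ph(X-y) dN ≤ C₄ ∫ e^{-μ|X-y|} dN = C₄ ∫ T_X dN` because `ph(s) ≤ C₄ e^{-μ|s|}` (`μ < kp`, `μ < km`: `ph_le_exp`, `ph_le_pos`).
`um_bounded`: `Um_le`.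
-/

open Complex Filter Topology MeasureTheory Set

namespace Helper25.Ind

lemma ph_le_abs {ρ κ : ℝ} (h1 : κ < km ρ) (h2 : κ < kp ρ) (h0 : 0 ≤ κ) :
    ∃ C > 0, ∀ s : ℝ, ph ρ s ≤ C * Real.exp (-(κ * |s|)) := by
  obtain ⟨C, hC, h⟩ := ph_le_pos ρ h1
  refine ⟨max C 1, lt_max_of_lt_right one_pos, fun s => ?_⟩
  rcases le_total 0 s with hs | hs
  · rw [abs_of_nonneg hs]
    exact (h s hs).trans (mul_le_mul_of_nonneg_right (le_max_left _ _) (Real.exp_pos _).le)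
  · rw [abs_of_nonpos hs]
    have e1 : Real.exp (kp ρ * s) / ((⌊ρ⌋₊ : ℝ) + 1) ≤ Real.exp (kp ρ * s) := by
      refine div_le_self (Real.exp_pos _).le ?_
      have := Nat.cast_nonneg (α := ℝ) ⌊ρ⌋₊
      linarith
    have e2 : Real.exp (kp ρ * s) ≤ Real.exp (-(κ * -s)) := by
      rw [Real.exp_le_exp]
      nlinarith
    calc ph ρ s ≤ Real.exp (-(κ * -s)) := ((ph_le_exp ρ s).trans e1).trans e2
      _ = 1 * Real.exp (-(κ * -s)) := (one_mul _).symm
      _ ≤ max C 1 * Real.exp (-(κ * -s)) :=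
        mul_le_mul_of_nonneg_right (le_max_right _ _) (Real.exp_pos _).le

private lemma npos_int {μ : ℝ} (hμ : 0 < μ) : Integrable fun x : ℝ => Real.exp (-(μ * |x|)) := by
  rw [← integrableOn_univ, ← Iic_union_Ioi (a := (0 : ℝ))]
  refine IntegrableOn.union ?_ ?_
  · refine (integrableOn_exp_mul_Iic hμ 0).congr_fun (fun x hx => ?_) measurableSet_Iic
    rw [mem_Iic] at hx
    show Real.exp (μ * x) = Real.exp (-(μ * |x|))
    rw [abs_of_nonpos hx]
    congr 1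
    ring
  · refine (integrableOn_exp_mul_Ioi (neg_lt_zero.2 hμ) 0).congr_fun (fun x hx => ?_)
      measurableSet_Ioi
    rw [mem_Ioi] at hx
    show Real.exp (-μ * x) = Real.exp (-(μ * |x|))
    rw [abs_of_pos hx]
    congr 1
    ring

private lemma npos_exp {t u : ℝ} (h : |t| ≤ u) : |Real.exp t - 1| ≤ Real.exp u - 1 := by
  have h1 := Real.add_one_le_exp t
  have h2 := Real.add_one_le_exp (-t)
  have h3 : Real.exp |t| ≤ Real.exp u := Real.exp_le_exp.2 h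
  rcases le_total 0 t with ht | ht
  · rw [abs_of_nonneg ht] at h3
    rw [abs_of_nonneg (by linarith)]
    linarith
  · rw [abs_of_nonpos ht] at h3
    have h4 : Real.exp t ≤ 1 := Real.exp_le_one_iff.2 ht
    rw [abs_of_nonpos (by linarith)]
    linarith

theorem bounded_of_pos {ρ θ A : ℝ} (hρ : 0 < ρ) (hint : ¬ ∃ n : ℕ, ρ = n) {N : Measure ℝ}
    (hN : Tame N) (hθ : θ ∈ Icc (0 : ℝ) Real.pi) (hc : 0 < cc ρ 0 θ) (h : EvLe ρ N θ A) :
    ∃ C, ∀ x, hat ρ N x ≤ C := by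
  obtain ⟨μ, hμ, hμ1, hμ2, hslow⟩ := exists_slow hρ hint hθ hc.ne'
  obtain ⟨T, hT⟩ : ∃ T : ℝ → ℝ → ℝ, T = fun X x => Real.exp (-(μ * |x - X|)) := ⟨_, rfl⟩
  have hTc : ∀ X, Continuous (T X) := by
    intro X
    rw [hT]
    fun_prop
  have hT0 : ∀ X x, 0 < T X x := by
    intro X x
    rw [hT]
    exact Real.exp_pos _
  have hTs : ∀ X y s, |T X (y - s) - T X y| ≤ T X y * (Real.exp (μ * |s|) - 1) := by
    intro X y s
    obtain ⟨t, ht⟩ : ∃ t, t = μ * |y - X| - μ * |y - s - X| := ⟨_, rfl⟩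
    have e1 : T X (y - s) = T X y * Real.exp t := by
      rw [hT, ht]
      show Real.exp _ = Real.exp _ * Real.exp _
      rw [← Real.exp_add]
      congr 1
      ring
    have e2 : |t| ≤ μ * |s| := by
      rw [ht, ← mul_sub, abs_mul, abs_of_pos hμ]
      refine mul_le_mul_of_nonneg_left ?_ hμ.le
      refine (abs_abs_sub_abs_le_abs_sub _ _).trans ?_
      rw [show y - X - (y - s - X) = s by ring]
    rw [e1, ← mul_sub_one, abs_mul, abs_of_pos (hT0 X y)]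
    exact mul_le_mul_of_nonneg_left (npos_exp e2) (hT0 X y).le
  have hkey : ∀ X y, cc ρ 0 θ / 2 * T X y ≤ ∫ x, kk ρ θ (x - y) * T X x := by
    intro X y
    have h1 := hslow μ hμ le_rfl (fun z => T X (2 * y - z)) y
      ((hTc X).measurable.comp (measurable_const.sub measurable_id))
      (by
        show 0 ≤ T X (2 * y - y)
        exact (hT0 X _).le) (fun s => by
        show |T X (2 * y - (y + s)) - T X (2 * y - y)| ≤ T X (2 * y - y) * _
        rw [show 2 * y - (y + s) = y - s by ring, show 2 * y - y = y by ring]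
        exact hTs X y s)
    have e1 : U ρ θ (fun z => T X (2 * y - z)) y = ∫ x, kk ρ θ (x - y) * T X x := by
      unfold U
      rw [← integral_sub_left_eq_self (fun x => kk ρ θ (x - y) * T X x) volume (2 * y)]
      refine integral_congr_ae (Filter.Eventually.of_forall fun z => ?_)
      show kk ρ θ (y - z) * T X (2 * y - z) = kk ρ θ (2 * y - z - y) * T X (2 * y - z)
      rw [show 2 * y - z - y = y - z by ring]
    have e2 : T X (2 * y - y) = T X y := by rw [show 2 * y - y = y by ring]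
    rw [e1, e2, abs_of_pos hc] at h1
    have h2 := (abs_le.1 h1).1
    linarith
  obtain ⟨x₀, hx₀⟩ := h
  obtain ⟨C', hC'⟩ := hat_left hρ hint hN x₀
  obtain ⟨C, hC, hUm⟩ := Um_le hρ hint
  obtain ⟨M, hM⟩ : ∃ M, M = max A (C * C') := ⟨_, rfl⟩
  have hUM : ∀ᵐ x : ℝ, Um ρ θ N x ≤ M := by
    filter_upwards [hx₀] with x hx
    rcases le_total x₀ x with h1 | h1
    · exact (hx h1).trans (by rw [hM]; exact le_max_left _ _)
    · have h2 := (hUm N hN θ x).trans (mul_le_mul_of_nonneg_left (hC' x h1) hC.le)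
      exact h2.trans (by rw [hM]; exact le_max_right _ _)
  have hTI : ∀ X, Integrable (T X) := by
    intro X
    have h1 := (npos_int hμ).comp_sub_right X
    rw [hT]
    exact h1
  have hTII : ∀ X, ∫ x, T X x = ∫ x : ℝ, Real.exp (-(μ * |x|)) := by
    intro X
    rw [hT]
    exact integral_sub_right_eq_self (fun x : ℝ => Real.exp (-(μ * |x|))) X
  obtain ⟨C₄, hC₄, hph⟩ := ph_le_abs hμ1 hμ2 hμ.le
  have hB : ∀ X x, |T X x| ≤ Real.exp (μ * |X|) * Real.exp (-(μ * |x|)) := by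
    intro X x
    rw [abs_of_pos (hT0 X x), hT]
    show Real.exp _ ≤ _
    rw [← Real.exp_add, Real.exp_le_exp]
    have h1 : |x| ≤ |x - X| + |X| := by
      have := abs_add_le (x - X) X
      rwa [sub_add_cancel] at this
    have h2 := mul_le_mul_of_nonneg_left h1 hμ.le
    rw [mul_add] at h2
    linarith
  refine ⟨C₄ * (2 / cc ρ 0 θ * (M * ∫ x : ℝ, Real.exp (-(μ * |x|)))), fun X => ?_⟩
  obtain ⟨i1, i2, i3⟩ := tame_fubini hρ hint hN hθ hμ hμ1 hμ2 (hTc X).measurable (hB X)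
  have h3 : ∫ x, Um ρ θ N x * T X x ≤ M * ∫ x : ℝ, Real.exp (-(μ * |x|)) := by
    rw [← hTII X, ← integral_const_mul]
    refine integral_mono_ae i1 ((hTI X).const_mul M) ?_
    filter_upwards [hUM] with x hx
    exact mul_le_mul_of_nonneg_right hx (hT0 X x).le
  have hTX : ∀ y, T X y ≤ 2 / cc ρ 0 θ * ∫ x, kk ρ θ (x - y) * T X x := by
    intro y
    have h4 := hkey X y
    rw [div_mul_eq_mul_div, le_div_iff₀ hc]
    linarith
  have h5 : Integrable (T X) N := by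
    refine (i2.const_mul (2 / cc ρ 0 θ)).mono' (hTc X).measurable.aestronglyMeasurable ?_
    refine Filter.Eventually.of_forall fun y => ?_
    rw [Real.norm_eq_abs, abs_of_pos (hT0 X y)]
    exact hTX y
  have h6 : ∫ y, T X y ∂N ≤ 2 / cc ρ 0 θ * (M * ∫ x : ℝ, Real.exp (-(μ * |x|))) := by
    calc ∫ y, T X y ∂N ≤ ∫ y, 2 / cc ρ 0 θ * (∫ x, kk ρ θ (x - y) * T X x) ∂N :=
          integral_mono h5 (i2.const_mul _) hTX
      _ = 2 / cc ρ 0 θ * ∫ y, (∫ x, kk ρ θ (x - y) * T X x) ∂N := integral_const_mul _ _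
      _ ≤ _ := by
          rw [← i3]
          exact mul_le_mul_of_nonneg_left h3 (div_nonneg two_pos.le hc.le)
  calc hat ρ N X ≤ ∫ y, C₄ * T X y ∂N := by
        unfold hat
        refine integral_mono (integrable_ph_sub hρ hint hN X) (h5.const_mul _) fun y => ?_
        have h7 := hph (X - y)
        rw [abs_sub_comm] at h7
        rw [hT]
        exact h7
    _ = C₄ * ∫ y, T X y ∂N := integral_const_mul _ _
    _ ≤ _ := mul_le_mul_of_nonneg_left h6 hC₄.le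

theorem um_bounded {ρ : ℝ} (hρ : 0 < ρ) (hint : ¬ ∃ n : ℕ, ρ = n) {N : Measure ℝ}
    (hN : Tame N) (h : ∃ C, ∀ x, hat ρ N x ≤ C) : ∃ A, ∀ θ x, Um ρ θ N x ≤ A := by
  obtain ⟨C', hC'⟩ := h
  obtain ⟨C, hC, hUm⟩ := Um_le hρ hint
  exact ⟨C * C', fun θ x => (hUm N hN θ x).trans (mul_le_mul_of_nonneg_left (hC' x) hC.le)⟩

end Helper25.Ind
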