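import Pool.Agent.Helper25.Ind2.Lap
import Pool.Agent.Helper25.Ind2.PatchA

/-!
# IND2 B3: the relation between a left and a right end point

PROOFS.
* `pair_kernel` (`0 < α < β ≤ π`, both zeros of `cos ρθ`, `sin ρα = -sin ρβ`): `f s = kk ρ α s`, `g s = -∫ kk ρ β (s+x) PK α β x dx`. For small `|κ|` all the weighted integrals converge (`integrable_kk_exp`, `PK_le`, Fubini) and `∫ e^{-κs} g ds = -cc ρ κ β ∫ e^{κx} PK dx = -cc ρ κ β sin(κα)/sin(κβ)` for `κ ≠ 0`;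
  `cc ρ κ β = π cos(ρβ+κβ)/((ρ+κ) sin π(ρ+κ)) = -π sin(ρβ) sin(κβ)/(..)`, `cc ρ κ α = -π sin(ρα) sin(κα)/(..)`, so it equals `cc ρ κ α` (`integral_kk_exp`). At `κ = 0` both are `0`. `ae_eq_of_laplace`.
  (`∀ᵐ s` and the sign: `kk ρ α s + ∫ kk ρ β (s+x) PK x dx = 0`.) The integral w.r.t. the measure `volume.withDensity (ofReal ∘ PK)` is the same.
* `pair_ineq`: let `l` be `LE`, `r` be `RE`, `h l ≠ ⊤ ≠ h r`; `0 ≤ h r` so `h r = b` real. Suppose first `l < r`... `l ≠ r`. Let `α = min l r < β = max l r`, `ν` the finite measure with density `PK α β`, `ν(ℝ) = α/β`. For every `n : ℕ`: `kk r s = kk r s + n (kk α s + ∫ kk β (s+x) dν)` a.e. This is `MajMeas` for `τ = r` with the two rays `α, β`: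
  the measures are `n δ_0` on `α`, `n ν` on `β`, plus `δ_0` on `r`. So `h r ≤ h r + n (h α + (α/β) h β)`. If `h l = ⊥` the right side is `⊥` for `n = 1`, impossible as `0 ≤ h r`. So `h l = a` real, and `0 ≤ h α + (α/β) h β`. Multiply by `β`: `0 ≤ β h α + α h β`; in both cases (`α = l` or `α = r`): `0 ≤ r a + l b`.
  `DD ρ l = c l`, `DD ρ r = -c r` with `c = π/(ρ |sin πρ|) > 0` (`DD ρ θ = πθ sin(ρθ)/(ρ sin πρ)`, `DD_LE`, `DD_RE`), hence `0 ≤ -(DD ρ r) a + (DD ρ l) b`.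
-/

open Filter Topology MeasureTheory Set

namespace Helper25.Ind

private lemma PK_neg (α β x : ℝ) : PK α β (-x) = PK α β x := by
  unfold PK
  rw [mul_neg, neg_div, Real.cosh_neg]

private lemma conv_flip (ρ α β s : ℝ) :
    ∫ x, kk ρ β (s + x) * PK α β x = ∫ x, PK α β x * kk ρ β (s - x) := by
  have h := integral_neg_eq_self (fun x => kk ρ β (s + x) * PK α β x) volume
  rw [← h]
  refine integral_congr_ae (Eventually.of_forall fun x => ?_)
  simp only
  rw [PK_neg, ← sub_eq_add_neg, mul_comm]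

private lemma conv_exp (ρ α β κ s : ℝ) :
    Real.exp (κ * s) * ∫ x, kk ρ β (s + x) * PK α β x =
      ∫ t, (Real.exp (κ * t) * PK α β t) * (Real.exp (κ * (s - t)) * kk ρ β (s - t)) := by
  rw [conv_flip, ← integral_const_mul]
  refine integral_congr_ae (Eventually.of_forall fun t => ?_)
  simp only
  have e : Real.exp (κ * s) = Real.exp (κ * t) * Real.exp (κ * (s - t)) := by
    rw [← Real.exp_add]
    congr 1
    ring
  rw [e]
  ring

theorem pair_kernel {ρ α β : ℝ} (hρ : 0 < ρ) (hint : ¬ ∃ n : ℕ, ρ = n) (h0 : 0 < α)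
    (h1 : α < β) (h2 : β ≤ Real.pi) (hα : Real.cos (ρ * α) = 0) (hβ : Real.cos (ρ * β) = 0)
    (hs : Real.sin (ρ * α) = -Real.sin (ρ * β)) :
    ∀ᵐ s : ℝ, kk ρ α s = -∫ x, kk ρ β (s + x) * PK α β x := by
  have hβ0 : 0 < β := h0.trans h1
  have hkm := km_pos hρ hint
  have hkp := kp_pos hρ.le
  have hπ := Real.pi_pos
  obtain ⟨κ₀, hκ0, hκm, hκp, hκβ⟩ : ∃ κ₀ : ℝ, 0 < κ₀ ∧ κ₀ ≤ km ρ ∧ κ₀ ≤ kp ρ ∧
      κ₀ ≤ Real.pi / β := by
    refine ⟨min (km ρ) (min (kp ρ) (Real.pi / β)), lt_min hkm (lt_min hkp (by positivity)),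
      min_le_left _ _, (min_le_right _ _).trans (min_le_left _ _),
      (min_le_right _ _).trans (min_le_right _ _)⟩
  have hαI : α ∈ Icc (0 : ℝ) Real.pi := ⟨h0.le, by linarith⟩
  have hβI : β ∈ Icc (0 : ℝ) Real.pi := ⟨hβ0.le, h2⟩
  have hkint : ∀ κ : ℝ, |κ| < κ₀ → ∀ θ ∈ Icc (0 : ℝ) Real.pi,
      Integrable (fun s => Real.exp (κ * s) * kk ρ θ s) ∧
      ∫ s, Real.exp (κ * s) * kk ρ θ s = cc ρ (-κ) θ := by
    intro κ hκ θ hθ
    have h3 := abs_lt.1 hκ
    have h4 : -(km ρ) < -κ := by linarith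
    have h5 : -κ < kp ρ := by linarith
    have h6 := integrable_kk_exp h4 h5 hθ
    have h7 := integral_kk_exp hρ h4 h5 hθ
    simp only [neg_mul, neg_neg] at h6 h7
    exact ⟨h6, h7⟩
  have hPint : ∀ κ : ℝ, |κ| < κ₀ → Integrable (fun x => Real.exp (κ * x) * PK α β x) := by
    intro κ hκ
    rcases eq_or_ne κ 0 with h3 | h3
    · subst h3
      simpa using (integral_PK h0 h1).1
    · refine (laplace_PK h0 h1 h3 ?_).1
      have : |κ| < Real.pi / β := lt_of_lt_of_le hκ hκβ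
      rwa [lt_div_iff₀ hβ0] at this
  have hconv : ∀ κ : ℝ, |κ| < κ₀ →
      Integrable (fun s => Real.exp (κ * s) * -∫ x, kk ρ β (s + x) * PK α β x) ∧
      ∫ s, Real.exp (κ * s) * -∫ x, kk ρ β (s + x) * PK α β x =
        -((∫ x, Real.exp (κ * x) * PK α β x) * cc ρ (-κ) β) := by
    intro κ hκ
    have hf := hPint κ hκ
    obtain ⟨hg, hgv⟩ := hkint κ hκ β hβI
    have h3 := hf.integrable_convolution (ContinuousLinearMap.mul ℝ ℝ) hg
    have h4 := integral_convolution (ContinuousLinearMap.mul ℝ ℝ) hf hg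
    have h5 : ∀ s, (MeasureTheory.convolution (fun x => Real.exp (κ * x) * PK α β x)
        (fun s => Real.exp (κ * s) * kk ρ β s) (ContinuousLinearMap.mul ℝ ℝ) volume) s =
        Real.exp (κ * s) * ∫ x, kk ρ β (s + x) * PK α β x := by
      intro s
      rw [conv_exp]
      rfl
    have h6 : (fun s => Real.exp (κ * s) * -∫ x, kk ρ β (s + x) * PK α β x) =
        fun s => -(MeasureTheory.convolution (fun x => Real.exp (κ * x) * PK α β x)
        (fun s => Real.exp (κ * s) * kk ρ β s) (ContinuousLinearMap.mul ℝ ℝ) volume) s := by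
      funext s
      rw [h5]
      ring
    rw [h6]
    refine ⟨h3.neg, ?_⟩
    rw [integral_neg, h4, hgv]
    rfl
  refine ae_eq_of_laplace (f := fun s => kk ρ α s)
    (g := fun s => -∫ x, kk ρ β (s + x) * PK α β x) hκ0 (fun κ hκ => (hkint κ hκ α hαI).1)
    (fun κ hκ => (hconv κ hκ).1) fun κ hκ => ?_
  rw [(hkint κ hκ α hαI).2, (hconv κ hκ).2]
  have hc : ∀ θ, Real.cos (ρ * θ) = 0 →
      Real.cos ((ρ + -κ) * θ) = Real.sin (ρ * θ) * Real.sin (κ * θ) := by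
    intro θ hθ
    have e : (ρ + -κ) * θ = ρ * θ - κ * θ := by ring
    rw [e, Real.cos_sub, hθ]
    ring
  rcases eq_or_ne κ 0 with h3 | h3
  · subst h3
    unfold cc
    rw [hc α hα, hc β hβ]
    simp
  · have h4 : |κ| * β < Real.pi := by
      have : |κ| < Real.pi / β := lt_of_lt_of_le hκ hκβ
      rwa [lt_div_iff₀ hβ0] at this
    rw [(laplace_PK h0 h1 h3 h4).2]
    have h5 : Real.sin (κ * β) ≠ 0 := by
      intro h6
      have h7 : |κ * β| < Real.pi := by rwa [abs_mul, abs_of_pos hβ0]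
      have h8 := abs_lt.1 h7
      rw [Real.sin_eq_zero_iff_of_lt_of_lt h8.1 h8.2] at h6
      rcases mul_eq_zero.1 h6 with h9 | h9
      · exact h3 h9
      · exact hβ0.ne' h9
    unfold cc
    rw [hc α hα, hc β hβ, hs]
    have h6 : Real.sin (κ * α) / Real.sin (κ * β) * (Real.pi *
        (Real.sin (ρ * β) * Real.sin (κ * β)) / ((ρ + -κ) * Real.sin (Real.pi * (ρ + -κ)))) =
        Real.sin (κ * α) / Real.sin (κ * β) * Real.sin (κ * β) * (Real.pi *
        Real.sin (ρ * β) / ((ρ + -κ) * Real.sin (Real.pi * (ρ + -κ)))) := by ring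
    rw [h6, div_mul_cancel₀ _ h5]
    ring

private lemma LE_pos {ρ l : ℝ} (hl : LE ρ l) : 0 < l := by
  obtain ⟨h0, _, h2, _⟩ := hl
  rcases eq_or_lt_of_le h0 with h | h
  · rw [← h, mul_zero, Real.cos_zero] at h2
    norm_num at h2
  · exact h

private lemma RE_pos {ρ l : ℝ} (hl : RE ρ l) : 0 < l := by
  obtain ⟨h0, _, h2, _⟩ := hl
  rcases eq_or_lt_of_le h0 with h | h
  · rw [← h, mul_zero, Real.cos_zero] at h2
    norm_num at h2
  · exact h

private lemma sq_eq_one_iff_of_side (x y : ℝ) (hx : x ^ 2 = 1) (hy : y ^ 2 = 1)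
    (hxy : x * y < 0) : y = -x := by
  have h1 : (y + x) * (y - x) = 0 := by ring_nf; linarith
  rcases mul_eq_zero.1 h1 with h2 | h2
  · linarith
  · have h3 : y = x := by linarith
    rw [h3] at hxy
    nlinarith [sq_nonneg x]

private lemma sin_opp {ρ l r : ℝ} (hl : LE ρ l) (hr : RE ρ r) :
    Real.sin (ρ * r) = -Real.sin (ρ * l) := by
  obtain ⟨_, _, h2, h3⟩ := hl
  obtain ⟨_, _, h5, h6⟩ := hr
  have e1 : Real.sin (ρ * l) ^ 2 = 1 := by
    have := Real.sin_sq_add_cos_sq (ρ * l)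
    rw [h2] at this
    linarith
  have e2 : Real.sin (ρ * r) ^ 2 = 1 := by
    have := Real.sin_sq_add_cos_sq (ρ * r)
    rw [h5] at this
    linarith
  have e3 : ((-1 : ℝ) ^ ⌊ρ⌋₊) ^ 2 = 1 := by rw [← pow_mul, mul_comm, pow_mul]; norm_num
  have e4 : ((-1 : ℝ) ^ ⌊ρ⌋₊ * Real.sin (ρ * l)) * ((-1 : ℝ) ^ ⌊ρ⌋₊ * Real.sin (ρ * r)) < 0 :=
    mul_neg_of_pos_of_neg h3 h6
  have e5 : Real.sin (ρ * l) * Real.sin (ρ * r) < 0 := by
    have : ((-1 : ℝ) ^ ⌊ρ⌋₊ * Real.sin (ρ * l)) * ((-1 : ℝ) ^ ⌊ρ⌋₊ * Real.sin (ρ * r)) =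
        ((-1 : ℝ) ^ ⌊ρ⌋₊) ^ 2 * (Real.sin (ρ * l) * Real.sin (ρ * r)) := by ring
    rw [this, e3, one_mul] at e4
    exact e4
  exact sq_eq_one_iff_of_side (Real.sin (ρ * l)) (Real.sin (ρ * r)) e1 e2 e5

theorem pair_ineq {ρ l r : ℝ} (hρ : 0 < ρ) (hint : ¬ ∃ n : ℕ, ρ = n) {h : ℝ → EReal}
    (hh : InfCond ρ h) (hl : LE ρ l) (hr : RE ρ r) (h1 : h l ≠ ⊤) (h2 : h r ≠ ⊤) :
    ∃ a b : ℝ, h l = a ∧ h r = b ∧ 0 ≤ DD ρ l * b - DD ρ r * a := by
  have hl0 := LE_pos hl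
  have hr0 := RE_pos hr
  have hopp := sin_opp hl hr
  have hsne : l ≠ r := by
    intro e
    subst e
    have h3 := hl.2.2.2
    have h4 := hr.2.2.2
    linarith
  obtain ⟨α, β, hα0, hαβ, hβπ, hcα, hcβ, hsαβ, hcase⟩ : ∃ α β : ℝ, 0 < α ∧ α < β ∧
      β ≤ Real.pi ∧ Real.cos (ρ * α) = 0 ∧ Real.cos (ρ * β) = 0 ∧
      Real.sin (ρ * α) = -Real.sin (ρ * β) ∧ ((α = l ∧ β = r) ∨ (α = r ∧ β = l)) := by
    rcases lt_or_gt_of_ne hsne with h3 | h3
    · exact ⟨l, r, hl0, h3, hr.2.1, hl.2.2.1, hr.2.2.1, by rw [hopp]; ring, Or.inl ⟨rfl, rfl⟩⟩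
    · exact ⟨r, l, hr0, h3, hl.2.1, hr.2.2.1, hl.2.2.1, hopp, Or.inr ⟨rfl, rfl⟩⟩
  have hβ0 : 0 < β := hα0.trans hαβ
  have hker := pair_kernel hρ hint hα0 hαβ hβπ hcα hcβ hsαβ
  obtain ⟨hPi, hPv⟩ := integral_PK hα0 hαβ
  have hPpos := PK_pos hα0 hαβ
  obtain ⟨ν, hν⟩ : ∃ ν : Measure ℝ, ν = volume.withDensity
      (fun x => ENNReal.ofReal (PK α β x)) := ⟨_, rfl⟩
  have hνf : IsFiniteMeasure ν := by
    rw [hν]
    exact isFiniteMeasure_withDensity_ofReal hPi.2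
  have hνu : (ν univ).toReal = α / β := by
    rw [hν, withDensity_apply _ MeasurableSet.univ, Measure.restrict_univ,
      ← ofReal_integral_eq_lintegral_ofReal hPi (Eventually.of_forall fun x => (hPpos x).le), hPv,
      ENNReal.toReal_ofReal (by positivity)]
  have hνi : ∀ s, ∫ x, kk ρ β (s + x) ∂ν = ∫ x, kk ρ β (s + x) * PK α β x := by
    intro s
    rw [hν, integral_withDensity_eq_integral_toReal_smul₀ hPi.aemeasurable.ennreal_ofReal
      (Eventually.of_forall fun x => ENNReal.ofReal_lt_top)]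
    refine integral_congr_ae (Eventually.of_forall fun x => ?_)
    simp only
    rw [ENNReal.toReal_ofReal (hPpos x).le, smul_eq_mul, mul_comm]
  have htα : h α ≠ ⊤ := by rcases hcase with ⟨e, _⟩ | ⟨e, _⟩ <;> rw [e] <;> assumption
  have htβ : h β ≠ ⊤ := by rcases hcase with ⟨_, e⟩ | ⟨_, e⟩ <;> rw [e] <;> assumption
  have hαI : α ∈ Icc (0 : ℝ) Real.pi := ⟨hα0.le, by linarith⟩
  have hβI : β ∈ Icc (0 : ℝ) Real.pi := ⟨hβ0.le, hβπ⟩
  have hrI : r ∈ Icc (0 : ℝ) Real.pi := ⟨hr.1, hr.2.1⟩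
  have hmaj := hh.maj 3 ![r, α, β] ![Measure.dirac 0, Measure.dirac 0, ν] r
    (by
      intro j
      fin_cases j
      · exact inferInstanceAs (IsFiniteMeasure (Measure.dirac (0 : ℝ)))
      · exact inferInstanceAs (IsFiniteMeasure (Measure.dirac (0 : ℝ)))
      · exact hνf)
    (by
      intro j
      fin_cases j
      · exact hrI
      · exact hαI
      · exact hβI)
    hrI
    (by
      intro j
      fin_cases j
      · exact h2
      · exact htα
      · exact htβ)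
    (by
      filter_upwards [hker] with s hs
      rw [Fin.sum_univ_three]
      simp only [Matrix.cons_val_zero, Matrix.cons_val_one, Matrix.cons_val_two, Matrix.head_cons,
        Matrix.tail_cons, Matrix.cons_val]
      rw [integral_dirac, integral_dirac, add_zero, hνi, hs]
      linarith)
  rw [Fin.sum_univ_three] at hmaj
  simp only [Matrix.cons_val_zero, Matrix.cons_val_one, Matrix.cons_val_two, Matrix.head_cons,
    Matrix.tail_cons, Matrix.cons_val, hνu, Measure.dirac_apply_of_mem (mem_univ (0 : ℝ)),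
    ENNReal.toReal_one, EReal.coe_one, one_mul] at hmaj
  have hb0 := hh.right r hr
  have hbb : h r ≠ ⊥ := fun e => by rw [e] at hb0; exact absurd hb0 (by simp)
  obtain ⟨b, hb⟩ : ∃ b : ℝ, h r = b := ⟨(h r).toReal, (EReal.coe_toReal h2 hbb).symm⟩
  have hq : 0 < α / β := by positivity
  have hla : h l ≠ ⊥ := by
    intro e
    rcases hcase with ⟨e1, e2⟩ | ⟨e1, e2⟩
    · rw [e1, e, hb, e2, hb] at hmaj
      simp at hmaj
    · rw [e1, e2, e, hb, EReal.coe_mul_bot_of_pos (by rw [e1, e2] at hq; exact hq)] at hmaj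
      simp at hmaj
  obtain ⟨a, ha⟩ : ∃ a : ℝ, h l = a := ⟨(h l).toReal, (EReal.coe_toReal h1 hla).symm⟩
  refine ⟨a, b, ha, hb, ?_⟩
  have hkey : 0 ≤ l * b + r * a := by
    rcases hcase with ⟨e1, e2⟩ | ⟨e1, e2⟩
    · rw [e1, e2, hb, ha] at hmaj
      have h3 : b ≤ b + a + l / r * b := by exact_mod_cast hmaj
      have h4 : 0 ≤ (a + l / r * b) * r := mul_nonneg (by linarith) hr0.le
      have h5 : (a + l / r * b) * r = l * b + r * a := by field_simp; ring
      linarith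
    · rw [e1, e2, hb, ha] at hmaj
      have h3 : b ≤ b + b + r / l * a := by exact_mod_cast hmaj
      have h4 : 0 ≤ (b + r / l * a) * l := mul_nonneg (by linarith) hl0.le
      have h5 : (b + r / l * a) * l = l * b + r * a := by field_simp
      linarith
  have hDl := DD_LE hρ hint hl
  have e1 : DD ρ l * b - DD ρ r * a = DD ρ l / l * (l * b + r * a) := by
    unfold DD
    rw [hopp]
    field_simp
    ring
  rw [e1]
  positivity

end Helper25.Ind
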