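import Pool.Agent.Helper25.Ind2.HB2

/-!
# IND2 H3: patches on a constant background (abstract integrable kernels)

`V = C_c(ℝ, ℝ)` (or the submodule of continuous compactly supported functions).
COMMON FACTS. For `k` integrable and `m ∈ C_c`, `x ↦ ∫ k(x-y) m(y) dy` is continuous and tends to `0` at `±∞` (convolution of an `L¹` function with a `C_c` function: uniform continuity of `m`, and tails of `k`).
PROOF of `patch_const`. Put `d j = γ j - A ∫ k j > 0` and `T j m = (k j * m)/d j`, `ℓ m = ∫ k₀(-y) m(y) dy`, `D = {m | ∀ y, 0 ≤ A + m y}`, `c = t - A ∫ k₀`. Suppose no `m` as required; then for `m ∈ D` with `T j m < 1` we have `ℓ m ≤ c`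
(note `∫ k(x-y)(A + m y) dy = A ∫ k + (k*m)(x)`). `hb_line` (`a = b = 0`) gives finite `μ j`; put `n j = μ j / d j`. So for all `m ∈ D`:
(1) `∫ k₀(-y) m(y) dy - ∑ ∫ (k j * m) dn j ≤ t - A ∫ k₀ - ∑ (γ j - A ∫ k j) n j(ℝ)`.
Fubini (`∫∫ |k j (x-y)||m y| dy dn j(x) ≤ ‖m‖_∞ ‖k j‖₁ n j(ℝ)`): `∫ (k j * m) dn j = ∫ G j(y) m(y) dy`, `G j(y) = ∫ k j(x-y) dn j(x)`, which is defined for a.e. `y` and integrable, `∫ G j = n j(ℝ) ∫ k j`.
With `m ≥ 0` arbitrary (scaling `m → s m`, `s → ∞`): `∫ (k₀(-y) - ∑ G j (y)) m(y) dy ≤ 0` for all `0 ≤ m ∈ C_c`, hence `k₀(-y) ≤ ∑ G j(y)` for a.e. `y` (an integrable function whose integral against every nonnegative `C_c` function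
is `≤ 0` is a.e. `≤ 0`), i.e. `k₀(s) ≤ ∑ ∫ k j(s+x) dn j(x)` for a.e. `s`. With `m = -A χ_R`, `χ_R ∈ C_c`, `0 ≤ χ_R ≤ 1`, `χ_R → 1` (dominated convergence):
`-A ∫ k₀ + A ∑ n j(ℝ) ∫ k j ≤ t - A ∫ k₀ - ∑ (γ j - A∫ k j) n j(ℝ)`, i.e. `∑ γ j n j (ℝ) ≤ t`. This contradicts `hcert`.
PROOF of `patch_signed`. Now no positivity: `D = V`, `d j = γ j + β * D j > 0` where the background has potential `-β D j`. HB gives (1') `ℓ m - ∑ ∫ (k j*m) dn j ≤ t + β D₀ - ∑ (γ j + β D j) n j(ℝ)` for ALL `m`, hence the left side is `0` for all `m`, so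
`k₀(s) = ∑ ∫ k j(s+x) dn j(x)` for a.e. `s`, and `∑ (γ j + β D j) n j(ℝ) ≤ t + β D₀`. The hypothesis `hmom` (first moments) gives `D₀ = ∑ D j n j(ℝ)`, hence `∑ γ j n j(ℝ) ≤ t`: contradiction with `hcert`.
-/

open Filter Topology MeasureTheory Set

namespace Helper25.Ind

private lemma patch_bdd {m : ℝ → ℝ} (hm : Continuous m) (hs : HasCompactSupport m) :
    ∃ M, 0 ≤ M ∧ ∀ x, |m x| ≤ M := by
  obtain ⟨C, hC⟩ := hs.exists_bound_of_continuous hm
  exact ⟨max C 0, le_max_right _ _, fun x => (hC x).trans (le_max_left _ _)⟩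

lemma conv_cc {k : ℝ → ℝ} (hk : Integrable k) {m : ℝ → ℝ} (hm : Continuous m)
    (hs : HasCompactSupport m) : Continuous (fun x => ∫ y, k (x - y) * m y) ∧
      Tendsto (fun x => ∫ y, k (x - y) * m y) atBot (𝓝 0) ∧
      Tendsto (fun x => ∫ y, k (x - y) * m y) atTop (𝓝 0) := by
  obtain ⟨M, hM0, hM⟩ := patch_bdd hm hs
  have e : (fun x => ∫ y, k (x - y) * m y) = fun x => ∫ z, k z * m (x - z) := by
    funext x
    rw [← integral_sub_left_eq_self (fun z => k z * m (x - z)) volume x]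
    simp only [sub_sub_cancel]
  have key : ∀ (l : Filter ℝ) [l.IsCountablyGenerated] (g : ℝ → ℝ),
      (∀ z, Tendsto (fun x => m (x - z)) l (𝓝 (g z))) →
      Tendsto (fun x => ∫ z, k z * m (x - z)) l (𝓝 (∫ z, k z * g z)) := by
    intro l _ g hg
    refine tendsto_integral_filter_of_dominated_convergence (fun z => ‖k z‖ * M) ?_ ?_ ?_ ?_
    · exact Eventually.of_forall fun x => hk.aestronglyMeasurable.mul
        (hm.comp (by fun_prop : Continuous fun z => x - z)).aestronglyMeasurable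
    · refine Eventually.of_forall fun x => Eventually.of_forall fun z => ?_
      rw [norm_mul]
      exact mul_le_mul_of_nonneg_left (hM _) (norm_nonneg _)
    · exact hk.norm.mul_const M
    · exact Eventually.of_forall fun z => (hg z).const_mul _
  rw [e]
  have h0 : ∫ z, k z * (0 : ℝ) = 0 := by simp
  refine ⟨?_, ?_, ?_⟩
  · rw [continuous_iff_continuousAt]
    intro x
    exact key (𝓝 x) (fun z => m (x - z)) fun z =>
      (hm.comp (by fun_prop : Continuous fun x => x - z)).tendsto x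
  · have h1 := key atBot (fun _ => 0) fun z => hs.is_zero_at_infty.comp
      ((tendsto_atBot_add_const_right atBot (-z) tendsto_id).mono_right atBot_le_cocompact)
    rwa [h0] at h1
  · have h1 := key atTop (fun _ => 0) fun z => hs.is_zero_at_infty.comp
      ((tendsto_atTop_add_const_right atTop (-z) tendsto_id).mono_right atTop_le_cocompact)
    rwa [h0] at h1

private lemma patch_prod {k : ℝ → ℝ} (hk : Integrable k) (ν : Measure ℝ) [IsFiniteMeasure ν] :
    Integrable (fun p : ℝ × ℝ => k (p.2 - p.1)) ((volume : Measure ℝ).prod ν) := by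
  have h1 : Integrable (fun _ : ℝ => (1 : ℝ)) ν := integrable_const 1
  have h2 : Integrable (fun z => k (-z)) (volume : Measure ℝ) := hk.comp_neg
  have h3 := h1.convolution_integrand (ContinuousLinearMap.mul ℝ ℝ) h2
  simpa using h3

private lemma patch_prod_mul {k : ℝ → ℝ} (hk : Integrable k) (ν : Measure ℝ)
    [IsFiniteMeasure ν] {v : ℝ → ℝ} (hv : Continuous v) {M : ℝ} (hM : ∀ y, |v y| ≤ M) :
    Integrable (fun p : ℝ × ℝ => k (p.2 - p.1) * v p.1) ((volume : Measure ℝ).prod ν) :=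
  (patch_prod hk ν).mul_bdd (c := M) (hv.comp continuous_fst).aestronglyMeasurable
    (Eventually.of_forall fun p => hM p.1)

private lemma patch_fub {k : ℝ → ℝ} (hk : Integrable k) (ν : Measure ℝ) [IsFiniteMeasure ν]
    {v : ℝ → ℝ} (hv : Continuous v) {M : ℝ} (hM : ∀ y, |v y| ≤ M) :
    ∫ x, (∫ y, k (x - y) * v y) ∂ν = ∫ y, (∫ x, k (x - y) ∂ν) * v y := by
  have h := integral_integral_swap (f := fun y x => k (x - y) * v y)
    (patch_prod_mul hk ν hv hM)
  rw [← h]
  refine integral_congr_ae (Eventually.of_forall fun y => ?_)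
  exact integral_mul_const (v y) fun x => k (x - y)

private lemma patch_G {k : ℝ → ℝ} (hk : Integrable k) (ν : Measure ℝ) [IsFiniteMeasure ν] :
    Integrable (fun y => ∫ x, k (x - y) ∂ν) :=
  (patch_prod hk ν).integral_prod_left

private lemma patch_G_int {k : ℝ → ℝ} (hk : Integrable k) (ν : Measure ℝ)
    [IsFiniteMeasure ν] : ∫ y, ∫ x, k (x - y) ∂ν = (ν univ).toReal * ∫ s, k s := by
  have h := patch_fub hk ν (v := fun _ => 1) continuous_const (M := 1) (fun _ => by simp)
  simp only [mul_one] at h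
  rw [← h]
  have h1 : ∀ x, ∫ y, k (x - y) = ∫ s, k s := fun x => integral_sub_left_eq_self k volume x
  simp only [h1, integral_const, smul_eq_mul]
  rfl

private lemma patch_ae {H : ℝ → ℝ} (hH : Integrable H)
    (h : ∀ v : ℝ → ℝ, Continuous v → HasCompactSupport v → (∀ y, 0 ≤ v y) →
      ∫ y, H y * v y ≤ 0) : ∀ᵐ y, H y ≤ 0 := by
  have hK : ∀ K : Set ℝ, IsCompact K → ∫ y in K, H y ≤ 0 := by
    intro K hK
    obtain ⟨δ, hδ, hδ0⟩ : ∃ δ : ℕ → ℝ, (∀ n, 0 < δ n) ∧ Tendsto δ atTop (𝓝 0) :=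
      ⟨fun n => 1 / ((n : ℝ) + 1), fun n => by positivity,
        tendsto_one_div_add_atTop_nhds_zero_nat⟩
    have hlim := thickenedIndicator_tendsto_indicator_closure hδ hδ0 K
    rw [tendsto_pi_nhds, hK.isClosed.closure_eq] at hlim
    have hlim2 : ∀ y, Tendsto (fun n => ((thickenedIndicator (hδ n) K y : NNReal) : ℝ)) atTop
        (𝓝 (K.indicator (fun _ => (1 : ℝ)) y)) := by
      intro y
      have h1 := (NNReal.tendsto_coe.2 (hlim y))
      convert h1 using 2
      by_cases hy : y ∈ K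
      · simp [hy]
      · simp [hy]
    have h1 : Tendsto (fun n => ∫ y, H y * ((thickenedIndicator (hδ n) K y : NNReal) : ℝ))
        atTop (𝓝 (∫ y, H y * K.indicator (fun _ => (1 : ℝ)) y)) := by
      refine tendsto_integral_of_dominated_convergence (fun y => ‖H y‖) ?_ hH.norm ?_ ?_
      · intro n
        refine hH.aestronglyMeasurable.mul ?_
        exact (NNReal.continuous_coe.comp
          (thickenedIndicator (hδ n) K).continuous).aestronglyMeasurable
      · intro n
        refine Eventually.of_forall fun y => ?_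
        rw [norm_mul]
        refine mul_le_of_le_one_right (norm_nonneg _) ?_
        rw [Real.norm_eq_abs, abs_of_nonneg (NNReal.coe_nonneg _)]
        exact_mod_cast thickenedIndicator_le_one (hδ n) K y
      · exact Eventually.of_forall fun y => (hlim2 y).const_mul _
    have h2 : ∫ y, H y * K.indicator (fun _ => (1 : ℝ)) y = ∫ y in K, H y := by
      rw [← integral_indicator hK.measurableSet]
      refine integral_congr_ae (Eventually.of_forall fun y => ?_)
      by_cases hy : y ∈ K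
      · simp [hy]
      · simp [hy]
    rw [← h2]
    refine le_of_tendsto' h1 fun n => h _ ?_ ?_ ?_
    · exact NNReal.continuous_coe.comp (thickenedIndicator (hδ n) K).continuous
    · refine HasCompactSupport.intro (hK.cthickening (r := δ n)) fun y hy => ?_
      rw [thickenedIndicator_zero (hδ n) K
        (fun hy' => hy (Metric.thickening_subset_cthickening _ _ hy'))]
      rfl
    · intro y
      exact NNReal.coe_nonneg _
  obtain ⟨g, hg, hHg⟩ := hH.aestronglyMeasurable
  have hgi : Integrable g := hH.congr hHg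
  have hg0 : volume {y | 0 < g y} = 0 := by
    by_contra hne
    obtain ⟨K, hKs, hKc, hKpos⟩ := (measurableSet_lt measurable_const
      hg.measurable).exists_lt_isCompact (pos_iff_ne_zero.2 hne)
    have h1 : ∫ y in K, g y ≤ 0 := by
      rw [← integral_congr_ae (ae_restrict_of_ae hHg)]
      exact hK K hKc
    have h2 : 0 ≤ᵐ[volume.restrict K] g :=
      (ae_restrict_iff' hKc.measurableSet).2 (Eventually.of_forall fun y hy => (hKs hy).le)
    have h3 : ∫ y in K, g y = 0 := le_antisymm h1 (integral_nonneg_of_ae h2)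
    rw [integral_eq_zero_iff_of_nonneg_ae h2 hgi.integrableOn] at h3
    have h4 : ∀ᵐ _y ∂((volume : Measure ℝ).restrict K), False := by
      filter_upwards [h3, ae_restrict_mem hKc.measurableSet] with y hy hyK
      exact (hKs hyK).ne' hy
    rw [ae_iff] at h4
    simp at h4
    exact hKpos.ne' h4
  filter_upwards [hHg, compl_mem_ae_iff.2 hg0] with y h1 h2
  rw [h1]
  exact not_lt.1 h2

/-- continuous functions with compact support -/
private def patchV : Submodule ℝ (ℝ → ℝ) where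
  carrier := {m | Continuous m ∧ HasCompactSupport m}
  add_mem' := fun h1 h2 => ⟨h1.1.add h2.1, h1.2.add h2.2⟩
  zero_mem' := ⟨continuous_const, HasCompactSupport.zero⟩
  smul_mem' := fun c _ h => ⟨h.1.const_smul c, h.2.smul_left (f := fun _ => c)⟩

private lemma patch_int {k : ℝ → ℝ} (hk : Integrable k) {v : ℝ → ℝ} (hv : Continuous v)
    (hs : HasCompactSupport v) : Integrable (fun y => k y * v y) := by
  obtain ⟨M, -, hM⟩ := patch_bdd hv hs
  exact hk.mul_bdd (c := M) hv.aestronglyMeasurable (Eventually.of_forall hM)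

private lemma patch_core {n : ℕ} (k : Fin n → ℝ → ℝ) (k₀ : ℝ → ℝ) (hk : ∀ j, Integrable (k j))
    (hk₀ : Integrable k₀) (d : Fin n → ℝ) (hd : ∀ j, 0 < d j) (c : ℝ) (D : Set patchV)
    (hD : Convex ℝ D) (h0 : (0 : patchV) ∈ D)
    (hfail : ∀ v ∈ D, (∀ j x, ∫ y, k j (x - y) * (v : ℝ → ℝ) y < d j) →
      ∫ y, k₀ (-y) * (v : ℝ → ℝ) y ≤ c) :
    ∃ ν : Fin n → Measure ℝ, (∀ j, IsFiniteMeasure (ν j)) ∧ ∀ v ∈ D,
      ∫ y, (k₀ (-y) - ∑ j, ∫ x, k j (x - y) ∂(ν j)) * (v : ℝ → ℝ) y ≤
        c - ∑ j, d j * (ν j univ).toReal := by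
  have hki : ∀ j (x : ℝ) (v : patchV), Integrable (fun y => k j (x - y) * (v : ℝ → ℝ) y) :=
    fun j x v => patch_int ((hk j).comp_sub_left x) v.2.1 v.2.2
  have hk₀i : ∀ v : patchV, Integrable (fun y => k₀ (-y) * (v : ℝ → ℝ) y) :=
    fun v => patch_int hk₀.comp_neg v.2.1 v.2.2
  let T : Fin n → patchV →ₗ[ℝ] (ℝ → ℝ) := fun j =>
    { toFun := fun v x => (∫ y, k j (x - y) * (v : ℝ → ℝ) y) / d j
      map_add' := by
        intro v w
        funext x
        rw [Pi.add_apply, ← add_div, ← integral_add (hki j x v) (hki j x w)]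
        congr 2
        funext y
        rw [Submodule.coe_add, Pi.add_apply, mul_add]
      map_smul' := by
        intro r v
        funext x
        rw [RingHom.id_apply, Pi.smul_apply, smul_eq_mul, ← mul_div_assoc,
          ← integral_const_mul]
        congr 2
        funext y
        rw [Submodule.coe_smul, Pi.smul_apply, smul_eq_mul]
        ring }
  let l : patchV →ₗ[ℝ] ℝ :=
    { toFun := fun v => ∫ y, k₀ (-y) * (v : ℝ → ℝ) y
      map_add' := by
        intro v w
        rw [← integral_add (hk₀i v) (hk₀i w)]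
        congr 1
        funext y
        rw [Submodule.coe_add, Pi.add_apply, mul_add]
      map_smul' := by
        intro r v
        rw [RingHom.id_apply, smul_eq_mul, ← integral_const_mul]
        congr 1
        funext y
        rw [Submodule.coe_smul, Pi.smul_apply, smul_eq_mul]
        ring }
  have hT : ∀ j v x, T j v x = (∫ y, k j (x - y) * (v : ℝ → ℝ) y) / d j := fun _ _ _ => rfl
  have hl : ∀ v, l v = ∫ y, k₀ (-y) * (v : ℝ → ℝ) y := fun _ => rfl
  obtain ⟨μ, hμ, hμD⟩ := hb_line T (fun _ _ => 0) (fun _ _ => 0)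
    (fun j v => (conv_cc (hk j) v.2.1 v.2.2).1.div_const _)
    (fun j v => by
      have := (conv_cc (hk j) v.2.1 v.2.2).2.1.div_const (d j)
      rwa [zero_div] at this)
    (fun j v => by
      have := (conv_cc (hk j) v.2.1 v.2.2).2.2.div_const (d j)
      rwa [zero_div] at this) l D hD h0 (fun _ _ _ => le_rfl) (fun _ _ _ => le_rfl) c (by
      intro v hv h
      rw [hl]
      refine hfail v hv fun j x => ?_
      have h1 := h j x
      rwa [hT, div_lt_one (hd j)] at h1)
  have hfin : ∀ j, IsFiniteMeasure (ENNReal.ofReal (1 / d j) • μ j) := by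
    intro j
    have := hμ j
    exact Measure.smul_finite (μ j) ENNReal.ofReal_ne_top
  refine ⟨fun j => ENNReal.ofReal (1 / d j) • μ j, hfin, ?_⟩
  intro v hv
  have h1 := hμD v hv
  obtain ⟨M, -, hM⟩ := patch_bdd v.2.1 v.2.2
  have h2 : ∀ j, ∫ x, T j v x ∂(μ j) =
      ∫ y, (∫ x, k j (x - y) ∂(ENNReal.ofReal (1 / d j) • μ j)) * (v : ℝ → ℝ) y := by
    intro j
    have := hfin j
    rw [← patch_fub (hk j) _ v.2.1 hM, integral_smul_measure,
      ENNReal.toReal_ofReal (one_div_nonneg.2 (hd j).le), smul_eq_mul, ← integral_const_mul]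
    refine integral_congr_ae (Eventually.of_forall fun x => ?_)
    show T j v x = 1 / d j * ∫ y, k j (x - y) * (v : ℝ → ℝ) y
    rw [hT]
    ring
  have h3 : ∀ j, (μ j univ).toReal =
      d j * ((ENNReal.ofReal (1 / d j) • μ j) univ).toReal := by
    intro j
    rw [Measure.smul_apply, smul_eq_mul, ENNReal.toReal_mul,
      ENNReal.toReal_ofReal (one_div_nonneg.2 (hd j).le)]
    have := (hd j).ne'
    field_simp
  rw [Finset.sum_congr rfl fun j _ => h2 j, Finset.sum_congr rfl fun j _ => h3 j, hl] at h1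
  have hGi : ∀ j, Integrable (fun y =>
      (∫ x, k j (x - y) ∂(ENNReal.ofReal (1 / d j) • μ j)) * (v : ℝ → ℝ) y) := by
    intro j
    have := hfin j
    exact patch_int (patch_G (hk j) _) v.2.1 v.2.2
  rw [← integral_finsetSum _ fun j _ => hGi j,
    ← integral_sub (hk₀i v) (integrable_finsetSum _ fun j _ => hGi j)] at h1
  refine le_trans (le_of_eq ?_) h1
  congr 1
  funext y
  rw [sub_mul, Finset.sum_mul]

/-- patches on a constant background -/
theorem patch_const {n : ℕ} (k : Fin n → ℝ → ℝ) (k₀ : ℝ → ℝ) (hk : ∀ j, Integrable (k j))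
    (hk₀ : Integrable k₀) (γ : Fin n → ℝ) (A t : ℝ) (hA : 0 ≤ A)
    (hs : ∀ j, A * ∫ s, k j s < γ j)
    (hcert : ∀ μ : Fin n → Measure ℝ, (∀ j, IsFiniteMeasure (μ j)) →
      (∀ᵐ s : ℝ, k₀ s ≤ ∑ j, ∫ x, k j (s + x) ∂(μ j)) → t < ∑ j, γ j * (μ j univ).toReal) :
    ∃ m : ℝ → ℝ, Continuous m ∧ HasCompactSupport m ∧ (∀ y, 0 ≤ A + m y) ∧
      (∀ j x, ∫ y, k j (x - y) * (A + m y) < γ j) ∧ t < ∫ y, k₀ (-y) * (A + m y) := by
  by_contra hno
  have hsplit : ∀ (q : ℝ → ℝ), Integrable q → ∀ v : patchV,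
      ∫ y, q y * (A + (v : ℝ → ℝ) y) = A * (∫ s, q s) + ∫ y, q y * (v : ℝ → ℝ) y := by
    intro q hq v
    rw [← integral_const_mul, ← integral_add (hq.const_mul A) (patch_int hq v.2.1 v.2.2)]
    congr 1
    funext y
    ring
  let D : Set patchV := {v | ∀ y, 0 ≤ A + (v : ℝ → ℝ) y}
  have hmem : ∀ v : patchV, v ∈ D ↔ ∀ y, 0 ≤ A + (v : ℝ → ℝ) y := fun _ => Iff.rfl
  have hD : Convex ℝ D := by
    intro v hv w hw a b ha hb hab
    rw [hmem] at hv hw ⊢
    intro y
    rw [Submodule.coe_add, Submodule.coe_smul, Submodule.coe_smul, Pi.add_apply,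
      Pi.smul_apply, Pi.smul_apply, smul_eq_mul, smul_eq_mul]
    have h1 := mul_nonneg ha (hv y)
    have h2 := mul_nonneg hb (hw y)
    nlinarith
  have h0 : (0 : patchV) ∈ D := by
    rw [hmem]
    intro y
    simpa using hA
  obtain ⟨ν, hν, hνD⟩ := patch_core k k₀ hk hk₀ (fun j => γ j - A * ∫ s, k j s)
    (fun j => sub_pos.2 (hs j)) (t - A * ∫ s, k₀ s) D hD h0 (by
      intro v hv h
      by_contra hlt
      rw [not_le] at hlt
      refine hno ⟨v, v.2.1, v.2.2, hv, ?_, ?_⟩
      · intro j x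
        rw [hsplit (fun y => k j (x - y)) ((hk j).comp_sub_left x) v,
          integral_sub_left_eq_self (k j) volume x]
        have := h j x
        linarith
      · rw [hsplit (fun y => k₀ (-y)) hk₀.comp_neg v, integral_neg_eq_self k₀ volume]
        linarith)
  have hGi : Integrable (fun y => ∑ j, ∫ x, k j (x - y) ∂(ν j)) := by
    refine integrable_finsetSum _ fun j _ => ?_
    have := hν j
    exact patch_G (hk j) _
  have hHi : Integrable (fun y => k₀ (-y) - ∑ j, ∫ x, k j (x - y) ∂(ν j)) :=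
    hk₀.comp_neg.sub hGi
  set H : ℝ → ℝ := fun y => k₀ (-y) - ∑ j, ∫ x, k j (x - y) ∂(ν j) with hH
  set C : ℝ := t - A * (∫ s, k₀ s) - ∑ j, (γ j - A * ∫ s, k j s) * (ν j univ).toReal with hC
  have hHv : ∀ v : ℝ → ℝ, Continuous v → HasCompactSupport v → (∀ y, 0 ≤ A + v y) →
      ∫ y, H y * v y ≤ C := fun v h1 h2 h3 => hνD ⟨v, h1, h2⟩ h3
  have hae : ∀ᵐ y, H y ≤ 0 := by
    refine patch_ae hHi fun v h1 h2 h3 => ?_
    by_contra hpos
    rw [not_le] at hpos
    obtain ⟨N, hN⟩ := exists_nat_gt (C / ∫ y, H y * v y)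
    have h4 := hHv (fun y => (N : ℝ) * v y) (h1.const_mul (N : ℝ))
      (h2.mul_left (f := fun _ => (N : ℝ)))
      (fun y => by have := mul_nonneg (Nat.cast_nonneg (α := ℝ) N) (h3 y); linarith)
    have h5 : ∫ y, H y * ((N : ℝ) * v y) = (N : ℝ) * ∫ y, H y * v y := by
      rw [← integral_const_mul]
      congr 1
      funext y
      ring
    rw [h5] at h4
    rw [div_lt_iff₀ hpos] at hN
    linarith
  have hae2 : ∀ᵐ s : ℝ, k₀ s ≤ ∑ j, ∫ x, k j (s + x) ∂(ν j) := by
    have h1 := (Measure.measurePreserving_neg (volume : Measure ℝ)).quasiMeasurePreserving.ae hae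
    filter_upwards [h1] with s hs'
    have h2 : k₀ s - ∑ j, ∫ x, k j (s + x) ∂(ν j) ≤ 0 := by
      have h3 : H (-s) = k₀ s - ∑ j, ∫ x, k j (s + x) ∂(ν j) := by
        rw [hH]
        simp only [neg_neg, sub_neg_eq_add, add_comm]
      rw [← h3]
      exact hs'
    linarith
  have hfinal : -A * ∫ y, H y ≤ C := by
    obtain ⟨χ, hχc, hχs, hχ0, hχ1, hχl⟩ : ∃ χ : ℕ → ℝ → ℝ, (∀ N, Continuous (χ N)) ∧
        (∀ N, HasCompactSupport (χ N)) ∧ (∀ N y, 0 ≤ χ N y) ∧ (∀ N y, χ N y ≤ 1) ∧
        ∀ y, Tendsto (fun N => χ N y) atTop (𝓝 1) := by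
      refine ⟨fun N y => max 0 (1 - |y| / ((N : ℝ) + 1)), fun N => by fun_prop, fun N => ?_,
        fun N y => le_max_left _ _, fun N y => ?_, fun y => ?_⟩
      · refine HasCompactSupport.intro (isCompact_Icc (a := -((N : ℝ) + 1))
          (b := (N : ℝ) + 1)) fun y hy => ?_
        have h1 : (N : ℝ) + 1 < |y| := by
          by_contra hle
          rw [not_lt, abs_le] at hle
          exact hy hle
        have h2 : (0 : ℝ) < (N : ℝ) + 1 := by positivity
        have h3 : 1 < |y| / ((N : ℝ) + 1) := (one_lt_div h2).2 h1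
        exact max_eq_left (by linarith)
      · refine max_le zero_le_one ?_
        have : 0 ≤ |y| / ((N : ℝ) + 1) := by positivity
        linarith
      · have h1 : Tendsto (fun N : ℕ => |y| / ((N : ℝ) + 1)) atTop (𝓝 0) := by
          have h2 := (tendsto_one_div_add_atTop_nhds_zero_nat (𝕜 := ℝ)).const_mul |y|
          simp only [mul_one_div, mul_zero] at h2
          exact h2
        have h3 := (tendsto_const_nhds (x := (0 : ℝ)) (f := atTop)).max (h1.const_sub 1)
        simpa using h3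
    have h1 : Tendsto (fun N => ∫ y, H y * (-A * χ N y)) atTop (𝓝 (∫ y, H y * (-A * 1))) := by
      refine tendsto_integral_of_dominated_convergence (fun y => ‖H y‖ * A) ?_
        (hHi.norm.mul_const A) ?_ ?_
      · intro N
        exact hHi.aestronglyMeasurable.mul ((hχc N).const_mul (-A)).aestronglyMeasurable
      · intro N
        refine Eventually.of_forall fun y => ?_
        rw [norm_mul]
        refine mul_le_mul_of_nonneg_left ?_ (norm_nonneg _)
        rw [Real.norm_eq_abs, abs_mul, abs_neg, abs_of_nonneg hA, abs_of_nonneg (hχ0 N y)]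
        exact mul_le_of_le_one_right hA (hχ1 N y)
      · exact Eventually.of_forall fun y => ((hχl y).const_mul (-A)).const_mul _
    have h2 : -A * ∫ y, H y = ∫ y, H y * (-A * 1) := by
      rw [← integral_const_mul]
      congr 1
      funext y
      ring
    rw [h2]
    refine le_of_tendsto' h1 fun N => hHv _ ((hχc N).const_mul (-A))
      ((hχs N).mul_left (f := fun _ => -A)) fun y => ?_
    have := mul_le_of_le_one_right hA (hχ1 N y)
    linarith
  have hHint : ∫ y, H y = (∫ s, k₀ s) - ∑ j, (ν j univ).toReal * ∫ s, k j s := by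
    rw [hH, integral_sub hk₀.comp_neg hGi, integral_neg_eq_self k₀ volume,
      integral_finsetSum _ fun j _ => by have := hν j; exact patch_G (hk j) _]
    congr 1
    refine Finset.sum_congr rfl fun j _ => ?_
    have := hν j
    exact patch_G_int (hk j) _
  have hlt := hcert ν hν hae2
  rw [hHint, hC] at hfinal
  have h6 : ∑ j, (γ j - A * ∫ s, k j s) * (ν j univ).toReal =
      ∑ j, γ j * (ν j univ).toReal - A * ∑ j, (ν j univ).toReal * ∫ s, k j s := by
    rw [Finset.mul_sum, ← Finset.sum_sub_distrib]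
    refine Finset.sum_congr rfl fun j _ => ?_
    ring
  rw [h6] at hfinal
  linarith

/-- signed patches -/
theorem patch_signed {n : ℕ} (k : Fin n → ℝ → ℝ) (k₀ : ℝ → ℝ) (hk : ∀ j, Integrable (k j))
    (hk₀ : Integrable k₀) (γ D : Fin n → ℝ) (D₀ β t : ℝ) (hs : ∀ j, -(β * D j) < γ j)
    (hmom : ∀ μ : Fin n → Measure ℝ, (∀ j, IsFiniteMeasure (μ j)) →
      (∀ᵐ s : ℝ, k₀ s = ∑ j, ∫ x, k j (s + x) ∂(μ j)) → D₀ = ∑ j, D j * (μ j univ).toReal)
    (hcert : ∀ μ : Fin n → Measure ℝ, (∀ j, IsFiniteMeasure (μ j)) →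
      (∀ᵐ s : ℝ, k₀ s = ∑ j, ∫ x, k j (s + x) ∂(μ j)) → t < ∑ j, γ j * (μ j univ).toReal) :
    ∃ m : ℝ → ℝ, Continuous m ∧ HasCompactSupport m ∧
      (∀ j x, -(β * D j) + ∫ y, k j (x - y) * m y < γ j) ∧
      t < -(β * D₀) + ∫ y, k₀ (-y) * m y := by
  by_contra hno
  obtain ⟨ν, hν, hνD⟩ := patch_core k k₀ hk hk₀ (fun j => γ j + β * D j)
    (fun j => by have := hs j; linarith) (t + β * D₀) univ convex_univ (mem_univ _) (by
      intro v _ h
      by_contra hlt
      rw [not_le] at hlt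
      refine hno ⟨v, v.2.1, v.2.2, ?_, ?_⟩
      · intro j x
        have := h j x
        linarith
      · linarith)
  have hGi : Integrable (fun y => ∑ j, ∫ x, k j (x - y) ∂(ν j)) := by
    refine integrable_finsetSum _ fun j _ => ?_
    have := hν j
    exact patch_G (hk j) _
  have hHi : Integrable (fun y => k₀ (-y) - ∑ j, ∫ x, k j (x - y) ∂(ν j)) :=
    hk₀.comp_neg.sub hGi
  set H : ℝ → ℝ := fun y => k₀ (-y) - ∑ j, ∫ x, k j (x - y) ∂(ν j) with hH
  set C : ℝ := t + β * D₀ - ∑ j, (γ j + β * D j) * (ν j univ).toReal with hC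
  have hHv : ∀ v : ℝ → ℝ, Continuous v → HasCompactSupport v → ∫ y, H y * v y ≤ C :=
    fun v h1 h2 => hνD ⟨v, h1, h2⟩ (mem_univ _)
  have hz : ∀ v : ℝ → ℝ, Continuous v → HasCompactSupport v → ∫ y, H y * v y ≤ 0 := by
    intro v h1 h2
    by_contra hpos
    rw [not_le] at hpos
    obtain ⟨N, hN⟩ := exists_nat_gt (C / ∫ y, H y * v y)
    have h4 := hHv (fun y => (N : ℝ) * v y) (h1.const_mul (N : ℝ))
      (h2.mul_left (f := fun _ => (N : ℝ)))
    have h5 : ∫ y, H y * ((N : ℝ) * v y) = (N : ℝ) * ∫ y, H y * v y := by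
      rw [← integral_const_mul]
      congr 1
      funext y
      ring
    rw [h5] at h4
    rw [div_lt_iff₀ hpos] at hN
    linarith
  have hae1 : ∀ᵐ y, H y ≤ 0 := patch_ae hHi fun v h1 h2 _ => hz v h1 h2
  have hae2 : ∀ᵐ y, -H y ≤ 0 := by
    refine patch_ae hHi.neg fun v h1 h2 _ => ?_
    have h3 := hz (fun y => -v y) h1.neg h2.neg
    refine le_trans (le_of_eq ?_) h3
    congr 1
    funext y
    ring
  have hae : ∀ᵐ s : ℝ, k₀ s = ∑ j, ∫ x, k j (s + x) ∂(ν j) := by
    have h1 := (Measure.measurePreserving_neg (volume : Measure ℝ)).quasiMeasurePreserving.ae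
      (hae1.and hae2)
    filter_upwards [h1] with s hs'
    have h3 : H (-s) = k₀ s - ∑ j, ∫ x, k j (s + x) ∂(ν j) := by
      rw [hH]
      simp only [neg_neg, sub_neg_eq_add, add_comm]
    have h4 : H (-s) ≤ 0 := hs'.1
    have h5 : -H (-s) ≤ 0 := hs'.2
    linarith
  have h0C : 0 ≤ C := by
    have := hHv (fun _ => 0) continuous_const HasCompactSupport.zero
    simpa using this
  have hlt := hcert ν hν hae
  have hm := hmom ν hν hae
  have h6 : ∑ j, (γ j + β * D j) * (ν j univ).toReal =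
      ∑ j, γ j * (ν j univ).toReal + β * ∑ j, D j * (ν j univ).toReal := by
    rw [Finset.mul_sum, ← Finset.sum_add_distrib]
    refine Finset.sum_congr rfl fun j _ => ?_
    ring
  rw [hC, h6, ← hm] at h0C
  linarith

end Helper25.Ind
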