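import Pool.Agent.Helper25.Ind2.Defs
import Pool.Agent.Helper25.Ind.Phi

/-!
# IND2 K1: the envelope `ph`

PROOFS (write `p = ⌊ρ⌋₊`, `Φ = Phi p`, `Φ(x) = ∫_0^x y^p/(1+y) dy`; everything is elementary).
* `kp_pos` .. `km_pos`: `Nat.floor_le`, `Nat.lt_floor_add_one`.
* Scaling: for `λ ≥ 1`, `x ≥ 0` substitute `y = λ u`: `Φ(λ x) = λ^{p+1} ∫_0^x u^p/(1+λ u) du ≤ λ^{p+1} Φ(x)`.
  For `0 < λ ≤ 1`: `1 + λ u ≥ λ (1+u)` gives `Φ(λ x) ≤ λ^p Φ(x)`.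
  (Alternatively compare derivatives in `x`.) With `λ = e^u` resp. `λ = e^{-u}`: `ph_add_le`, `ph_sub_le`.
* `ph_le_exp`: `y^p/(1+y) ≤ y^p`, so `Φ(x) ≤ x^{p+1}/(p+1)`.
* `ph_ge_neg`: `Phi_ge` with `x = e^s ≤ 1`.
* `ph_ge_pos`: for `x ≥ 1`, `Φ(x) ≥ ∫_{x/2}^x y^p/(1+y) dy ≥ (x/2) (x/2)^p / (1+x) ≥ (x/2)^p / 4` (`1 + x ≤ 2 x`).
* `ph_le_pos`: if `κ < km ρ` choose `κ' = min 1 (km ρ - κ) > 0` and use `Phi_le_rpow` with `κ'` for `x ≥ 1`: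
  `Φ(x) ≤ x^{p+κ'}/(p+κ')`, `p + κ' - ρ = κ' - km ρ ≤ -κ`. (`p + κ' > 0`.)
* `ph_le_pos'`: `y^p/(1+y) ≤ y^{p-1}` so `Φ(x) ≤ x^p/p` for `p ≥ 1`.
* `ph_mul`: both `≤ 0`: `ph_le_exp` at `u+v`, `ph_ge_neg` at `u`, `v`. Both `≥ 0`: if `p ≥ 1` use `ph_le_pos'` at `u+v` and
  `ph_ge_pos` at `u`, `v`. If `p = 0`: `Φ(x) = log(1+x)` (`∫_0^x 1/(1+y)`), `log(1+xy) ≤ log(1+x) + log(1+y) ≤ (2/log 2) log(1+x) log(1+y)`
  for `x, y ≥ 1`.
* integrability: continuous function dominated by `C e^{(kp-κ)s}` on `s ≤ 0` and by `C e^{-(κ''+κ)s}` on `s ≥ 0` with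
  `-κ < κ'' < km ρ` (`ph_le_pos`); use `integrable_exp_mul...` / `integrableOn_exp_...` on half lines.
-/

open Complex Filter Topology MeasureTheory Set

namespace Helper25.Ind

lemma kp_pos {ρ : ℝ} (hρ : 0 ≤ ρ) : 0 < kp ρ := by
  have := Nat.lt_floor_add_one ρ
  unfold kp
  linarith

lemma kp_le_one {ρ : ℝ} (hρ : 0 ≤ ρ) : kp ρ ≤ 1 := by
  have := Nat.floor_le hρ
  unfold kp
  linarith

lemma km_nonneg {ρ : ℝ} (hρ : 0 ≤ ρ) : 0 ≤ km ρ := by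
  have := Nat.floor_le hρ
  unfold km
  linarith

lemma km_lt_one {ρ : ℝ} (hρ : 0 ≤ ρ) : km ρ < 1 := by
  have := Nat.lt_floor_add_one ρ
  unfold km
  linarith

lemma kp_add_km (ρ : ℝ) : kp ρ + km ρ = 1 := by
  unfold kp km
  ring

lemma km_pos {ρ : ℝ} (hρ : 0 < ρ) (hint : ¬ ∃ n : ℕ, ρ = n) : 0 < km ρ := by
  refine lt_of_le_of_ne (km_nonneg hρ.le) fun h => hint ⟨⌊ρ⌋₊, ?_⟩
  unfold km at h
  linarith

lemma ph_pos (ρ s : ℝ) : 0 < ph ρ s :=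
  mul_pos (Real.exp_pos _) (Phi_pos _ (Real.exp_pos _))

lemma continuous_ph (ρ : ℝ) : Continuous (ph ρ) := by
  unfold ph
  refine Continuous.mul (by fun_prop) ?_
  exact (continuousOn_Phi ⌊ρ⌋₊).comp_continuous Real.continuous_exp
    (fun s => (Real.exp_pos s).le)

private lemma ph_scale (p : ℕ) (l x : ℝ) :
    Phi p (l * x) = ∫ u in (0 : ℝ)..x, l * ((l * u) ^ p / (1 + l * u)) := by
  unfold Phi
  have h := intervalIntegral.mul_integral_comp_mul_left (a := 0) (b := x)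
    (f := fun y : ℝ => y ^ p / (1 + y)) l
  rw [mul_zero] at h
  rw [← h, intervalIntegral.integral_const_mul]

private lemma ph_scale_int (p : ℕ) {l x : ℝ} (hl : 0 ≤ l) (hx : 0 ≤ x) :
    IntervalIntegrable (fun u : ℝ => l * ((l * u) ^ p / (1 + l * u))) volume 0 x := by
  apply ContinuousOn.intervalIntegrable
  rw [uIcc_of_le hx]
  refine ContinuousOn.mul (by fun_prop) (ContinuousOn.div (by fun_prop) (by fun_prop) ?_)
  intro y hy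
  have h1 : 0 ≤ l * y := mul_nonneg hl hy.1
  positivity

private lemma ph_scale_ge (p : ℕ) {l x : ℝ} (hl : 1 ≤ l) (hx : 0 ≤ x) :
    Phi p (l * x) ≤ l ^ (p + 1) * Phi p x := by
  rw [ph_scale]
  unfold Phi
  rw [← intervalIntegral.integral_const_mul]
  apply intervalIntegral.integral_mono_on hx (ph_scale_int p (by linarith) hx)
    ((phi_int p le_rfl hx).const_mul _)
  intro u hu
  have hu0 := hu.1
  have h1 : 1 + u ≤ 1 + l * u := by nlinarith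
  have h2 : (l * u) ^ p / (1 + l * u) ≤ (l * u) ^ p / (1 + u) := by
    apply div_le_div_of_nonneg_left (by positivity) (by positivity) h1
  calc l * ((l * u) ^ p / (1 + l * u)) ≤ l * ((l * u) ^ p / (1 + u)) := by gcongr
    _ = l ^ (p + 1) * (u ^ p / (1 + u)) := by
        rw [mul_pow, pow_succ]
        ring

private lemma ph_scale_le (p : ℕ) {l x : ℝ} (hl0 : 0 < l) (hl : l ≤ 1) (hx : 0 ≤ x) :
    Phi p (l * x) ≤ l ^ p * Phi p x := by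
  rw [ph_scale]
  unfold Phi
  rw [← intervalIntegral.integral_const_mul]
  apply intervalIntegral.integral_mono_on hx (ph_scale_int p hl0.le hx)
    ((phi_int p le_rfl hx).const_mul _)
  intro u hu
  have hu0 := hu.1
  have h1 : l * (1 + u) ≤ 1 + l * u := by nlinarith
  have h2 : (l * u) ^ p / (1 + l * u) ≤ (l * u) ^ p / (l * (1 + u)) := by
    apply div_le_div_of_nonneg_left (by positivity) (by positivity) h1
  calc l * ((l * u) ^ p / (1 + l * u)) ≤ l * ((l * u) ^ p / (l * (1 + u))) := by gcongr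
    _ = l ^ p * (u ^ p / (1 + u)) := by
        rw [mul_pow]
        field_simp

lemma ph_add_le (ρ : ℝ) {u : ℝ} (hu : 0 ≤ u) (v : ℝ) :
    ph ρ (v + u) ≤ Real.exp (kp ρ * u) * ph ρ v := by
  unfold ph
  have h1 := ph_scale_ge ⌊ρ⌋₊ (Real.one_le_exp hu) (Real.exp_pos v).le
  have e1 : Real.exp (v + u) = Real.exp u * Real.exp v := by rw [Real.exp_add, mul_comm]
  have e2 : Real.exp u ^ (⌊ρ⌋₊ + 1) = Real.exp (((⌊ρ⌋₊ : ℝ) + 1) * u) := by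
    rw [← Real.exp_nat_mul]
    push_cast
    rfl
  rw [e2] at h1
  rw [e1]
  calc Real.exp (-(ρ * (v + u))) * Phi ⌊ρ⌋₊ (Real.exp u * Real.exp v)
      ≤ Real.exp (-(ρ * (v + u))) * (Real.exp (((⌊ρ⌋₊ : ℝ) + 1) * u) * Phi ⌊ρ⌋₊ (Real.exp v)) := by
        gcongr
    _ = Real.exp (kp ρ * u) * (Real.exp (-(ρ * v)) * Phi ⌊ρ⌋₊ (Real.exp v)) := by
        rw [← mul_assoc, ← mul_assoc, ← Real.exp_add, ← Real.exp_add]
        congr 2
        unfold kp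
        ring

lemma ph_sub_le (ρ : ℝ) {u : ℝ} (hu : 0 ≤ u) (v : ℝ) :
    ph ρ (v - u) ≤ Real.exp (km ρ * u) * ph ρ v := by
  unfold ph
  have h1 := ph_scale_le ⌊ρ⌋₊ (Real.exp_pos (-u)) (Real.exp_le_one_iff.2 (by linarith))
    (Real.exp_pos v).le
  have e1 : Real.exp (v - u) = Real.exp (-u) * Real.exp v := by
    rw [← Real.exp_add]
    congr 1
    ring
  have e2 : Real.exp (-u) ^ ⌊ρ⌋₊ = Real.exp (((⌊ρ⌋₊ : ℝ)) * (-u)) := by
    rw [← Real.exp_nat_mul]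
  rw [e2] at h1
  rw [e1]
  calc Real.exp (-(ρ * (v - u))) * Phi ⌊ρ⌋₊ (Real.exp (-u) * Real.exp v)
      ≤ Real.exp (-(ρ * (v - u))) * (Real.exp (((⌊ρ⌋₊ : ℝ)) * (-u)) * Phi ⌊ρ⌋₊ (Real.exp v)) := by
        gcongr
    _ = Real.exp (km ρ * u) * (Real.exp (-(ρ * v)) * Phi ⌊ρ⌋₊ (Real.exp v)) := by
        rw [← mul_assoc, ← mul_assoc, ← Real.exp_add, ← Real.exp_add]
        congr 2
        unfold km
        ring

private lemma ph_exp_pow (s a : ℝ) : Real.exp s ^ a = Real.exp (a * s) := by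
  rw [mul_comm, Real.exp_mul]

lemma ph_le_exp (ρ s : ℝ) : ph ρ s ≤ Real.exp (kp ρ * s) / ((⌊ρ⌋₊ : ℝ) + 1) := by
  unfold ph
  have h1 := Phi_le_rpow ⌊ρ⌋₊ one_pos le_rfl (Real.exp_pos s).le
  rw [ph_exp_pow] at h1
  calc Real.exp (-(ρ * s)) * Phi ⌊ρ⌋₊ (Real.exp s)
      ≤ Real.exp (-(ρ * s)) * (Real.exp (((⌊ρ⌋₊ : ℝ) + 1) * s) / ((⌊ρ⌋₊ : ℝ) + 1)) := by gcongr
    _ = Real.exp (kp ρ * s) / ((⌊ρ⌋₊ : ℝ) + 1) := by
        rw [← mul_div_assoc, ← Real.exp_add]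
        congr 2
        unfold kp
        ring

lemma ph_ge_neg (ρ : ℝ) {s : ℝ} (hs : s ≤ 0) :
    Real.exp (kp ρ * s) / (2 * ((⌊ρ⌋₊ : ℝ) + 1)) ≤ ph ρ s := by
  unfold ph
  have h1 := Phi_ge ⌊ρ⌋₊ (Real.exp_pos s).le
  have hx : Real.exp s ≤ 1 := Real.exp_le_one_iff.2 hs
  have h0 := Real.exp_pos s
  have e2 : Real.exp s ^ (⌊ρ⌋₊ + 1) = Real.exp (((⌊ρ⌋₊ : ℝ) + 1) * s) := by
    rw [← Real.exp_nat_mul]
    push_cast
    rfl
  have h2 : Real.exp (((⌊ρ⌋₊ : ℝ) + 1) * s) / (2 * ((⌊ρ⌋₊ : ℝ) + 1)) ≤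
      Real.exp s ^ (⌊ρ⌋₊ + 1) / (((⌊ρ⌋₊ : ℝ) + 1) * (1 + Real.exp s)) := by
    rw [e2]
    apply div_le_div_of_nonneg_left (by positivity) (by positivity)
    have : (0 : ℝ) < (⌊ρ⌋₊ : ℝ) + 1 := by positivity
    nlinarith
  calc Real.exp (kp ρ * s) / (2 * ((⌊ρ⌋₊ : ℝ) + 1))
      = Real.exp (-(ρ * s)) * (Real.exp (((⌊ρ⌋₊ : ℝ) + 1) * s) / (2 * ((⌊ρ⌋₊ : ℝ) + 1))) := by
        rw [← mul_div_assoc, ← Real.exp_add]
        congr 2
        unfold kp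
        ring
    _ ≤ Real.exp (-(ρ * s)) * Phi ⌊ρ⌋₊ (Real.exp s) := by
        gcongr
        exact h2.trans h1

lemma ph_ge_pos (ρ : ℝ) : ∃ c > 0, ∀ s : ℝ, 0 ≤ s → c * Real.exp (-(km ρ * s)) ≤ ph ρ s := by
  refine ⟨1 / (2 * ((⌊ρ⌋₊ : ℝ) + 1)), by positivity, fun s hs => ?_⟩
  unfold ph
  have h1 := Phi_ge ⌊ρ⌋₊ (Real.exp_pos s).le
  have hx : 1 ≤ Real.exp s := Real.one_le_exp hs
  have e2 : Real.exp s ^ ⌊ρ⌋₊ = Real.exp ((⌊ρ⌋₊ : ℝ) * s) := by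
    rw [← Real.exp_nat_mul]
  have h2 : 1 / (2 * ((⌊ρ⌋₊ : ℝ) + 1)) * Real.exp ((⌊ρ⌋₊ : ℝ) * s) ≤
      Real.exp s ^ (⌊ρ⌋₊ + 1) / (((⌊ρ⌋₊ : ℝ) + 1) * (1 + Real.exp s)) := by
    rw [← e2, one_div, inv_mul_eq_div, div_le_div_iff₀ (by positivity) (by positivity), pow_succ]
    have h3 : 0 < Real.exp s ^ ⌊ρ⌋₊ := by positivity
    have h4 : (0 : ℝ) < (⌊ρ⌋₊ : ℝ) + 1 := by positivity
    nlinarith [mul_pos h3 h4]
  calc 1 / (2 * ((⌊ρ⌋₊ : ℝ) + 1)) * Real.exp (-(km ρ * s))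
      = Real.exp (-(ρ * s)) * (1 / (2 * ((⌊ρ⌋₊ : ℝ) + 1)) * Real.exp ((⌊ρ⌋₊ : ℝ) * s)) := by
        have e3 : -(km ρ * s) = -(ρ * s) + (⌊ρ⌋₊ : ℝ) * s := by
          unfold km
          ring
        rw [e3, Real.exp_add]
        ring
    _ ≤ Real.exp (-(ρ * s)) * Phi ⌊ρ⌋₊ (Real.exp s) := by
        gcongr
        exact h2.trans h1

lemma ph_le_pos (ρ : ℝ) {κ : ℝ} (hκ : κ < km ρ) :
    ∃ C > 0, ∀ s : ℝ, 0 ≤ s → ph ρ s ≤ C * Real.exp (-(κ * s)) := by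
  have hk0 : 0 < min 1 (km ρ - κ) := lt_min one_pos (by linarith)
  have hp : (0 : ℝ) ≤ ⌊ρ⌋₊ := Nat.cast_nonneg _
  refine ⟨1 / ((⌊ρ⌋₊ : ℝ) + min 1 (km ρ - κ)), by positivity, fun s hs => ?_⟩
  unfold ph
  have h1 := Phi_le_rpow ⌊ρ⌋₊ hk0 (min_le_left _ _) (Real.exp_pos s).le
  rw [ph_exp_pow] at h1
  calc Real.exp (-(ρ * s)) * Phi ⌊ρ⌋₊ (Real.exp s)
      ≤ Real.exp (-(ρ * s)) * (Real.exp (((⌊ρ⌋₊ : ℝ) + min 1 (km ρ - κ)) * s) /
          ((⌊ρ⌋₊ : ℝ) + min 1 (km ρ - κ))) := by gcongr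
    _ = 1 / ((⌊ρ⌋₊ : ℝ) + min 1 (km ρ - κ)) *
        Real.exp (-(ρ * s) + ((⌊ρ⌋₊ : ℝ) + min 1 (km ρ - κ)) * s) := by
        rw [Real.exp_add]
        ring
    _ ≤ 1 / ((⌊ρ⌋₊ : ℝ) + min 1 (km ρ - κ)) * Real.exp (-(κ * s)) := by
        gcongr
        have h2 : min 1 (km ρ - κ) ≤ km ρ - κ := min_le_right _ _
        have h3 : min 1 (km ρ - κ) * s ≤ (km ρ - κ) * s := mul_le_mul_of_nonneg_right h2 hs
        unfold km at h3 ⊢
        linarith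

private lemma ph_phi_le (p : ℕ) (hp : 1 ≤ p) {x : ℝ} (hx : 0 ≤ x) : Phi p x ≤ x ^ p / p := by
  obtain ⟨q, rfl⟩ : ∃ q, p = q + 1 := ⟨p - 1, by omega⟩
  have h1 : ∫ y in (0 : ℝ)..x, y ^ q = x ^ (q + 1) / ((q + 1 : ℕ) : ℝ) := by
    rw [integral_pow]
    push_cast
    simp
  rw [← h1]
  unfold Phi
  apply intervalIntegral.integral_mono_on hx (phi_int _ le_rfl hx)
    ((continuous_pow q).intervalIntegrable 0 x)
  intro y hy
  have hy0 := hy.1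
  rw [div_le_iff₀ (by positivity), pow_succ]
  have h2 : 0 ≤ y ^ q := by positivity
  nlinarith

lemma ph_le_pos' (ρ : ℝ) (hp : 1 ≤ ⌊ρ⌋₊) :
    ∃ C > 0, ∀ s : ℝ, 0 ≤ s → ph ρ s ≤ C * Real.exp (-(km ρ * s)) := by
  have hp' : (0 : ℝ) < ⌊ρ⌋₊ := by exact_mod_cast hp
  refine ⟨1 / (⌊ρ⌋₊ : ℝ), by positivity, fun s hs => ?_⟩
  unfold ph
  have h1 := ph_phi_le ⌊ρ⌋₊ hp (Real.exp_pos s).le
  have e2 : Real.exp s ^ ⌊ρ⌋₊ = Real.exp ((⌊ρ⌋₊ : ℝ) * s) := by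
    rw [← Real.exp_nat_mul]
  rw [e2] at h1
  calc Real.exp (-(ρ * s)) * Phi ⌊ρ⌋₊ (Real.exp s)
      ≤ Real.exp (-(ρ * s)) * (Real.exp ((⌊ρ⌋₊ : ℝ) * s) / (⌊ρ⌋₊ : ℝ)) := by gcongr
    _ = 1 / (⌊ρ⌋₊ : ℝ) * Real.exp (-(km ρ * s)) := by
        have e3 : -(km ρ * s) = -(ρ * s) + (⌊ρ⌋₊ : ℝ) * s := by
          unfold km
          ring
        rw [e3, Real.exp_add]
        ring

private lemma ph_phi_zero {x : ℝ} (hx : 0 ≤ x) : Phi 0 x = Real.log (1 + x) := by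
  unfold Phi
  have h1 : ∫ y in (0 : ℝ)..x, y ^ 0 / (1 + y) = ∫ y in (0 : ℝ)..x, (fun t : ℝ => t⁻¹) (1 + y) := by
    apply intervalIntegral.integral_congr
    intro y _
    simp
  rw [h1, intervalIntegral.integral_comp_add_left (fun t : ℝ => t⁻¹), add_zero,
    integral_inv_of_pos one_pos (by linarith), div_one]

private lemma ph_log_mul {x y : ℝ} (hx : 1 ≤ x) (hy : 1 ≤ y) :
    Real.log (1 + x * y) ≤ 2 / Real.log 2 * (Real.log (1 + x) * Real.log (1 + y)) := by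
  have h2 : 0 < Real.log 2 := Real.log_pos (by norm_num)
  have hx2 : Real.log 2 ≤ Real.log (1 + x) := Real.log_le_log (by norm_num) (by linarith)
  have hy2 : Real.log 2 ≤ Real.log (1 + y) := Real.log_le_log (by norm_num) (by linarith)
  have h3 : Real.log (1 + x * y) ≤ Real.log (1 + x) + Real.log (1 + y) := by
    rw [← Real.log_mul (by positivity) (by positivity)]
    apply Real.log_le_log (by positivity)
    nlinarith
  rw [div_mul_eq_mul_div, le_div_iff₀ h2]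
  have h4 := mul_le_mul_of_nonneg_right h3 h2.le
  nlinarith [mul_le_mul_of_nonneg_left hy2 (by linarith : 0 ≤ Real.log (1 + x)),
    mul_le_mul_of_nonneg_left hx2 (by linarith : 0 ≤ Real.log (1 + y))]

private lemma ph_mul_pos (ρ : ℝ) : ∃ C > 0, ∀ u v : ℝ, 0 ≤ u → 0 ≤ v →
    ph ρ (u + v) ≤ C * (ph ρ u * ph ρ v) := by
  rcases Nat.eq_zero_or_pos ⌊ρ⌋₊ with hp | hp
  · have h2 : 0 < Real.log 2 := Real.log_pos (by norm_num)
    refine ⟨2 / Real.log 2, by positivity, fun u v hu hv => ?_⟩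
    unfold ph
    rw [hp, ph_phi_zero (Real.exp_pos _).le, ph_phi_zero (Real.exp_pos _).le,
      ph_phi_zero (Real.exp_pos _).le]
    have h3 := ph_log_mul (Real.one_le_exp hu) (Real.one_le_exp hv)
    rw [← Real.exp_add] at h3
    have e : Real.exp (-(ρ * (u + v))) = Real.exp (-(ρ * u)) * Real.exp (-(ρ * v)) := by
      rw [← Real.exp_add]
      congr 1
      ring
    rw [e]
    calc Real.exp (-(ρ * u)) * Real.exp (-(ρ * v)) * Real.log (1 + Real.exp (u + v))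
        ≤ Real.exp (-(ρ * u)) * Real.exp (-(ρ * v)) *
          (2 / Real.log 2 * (Real.log (1 + Real.exp u) * Real.log (1 + Real.exp v))) := by gcongr
      _ = 2 / Real.log 2 * (Real.exp (-(ρ * u)) * Real.log (1 + Real.exp u) *
          (Real.exp (-(ρ * v)) * Real.log (1 + Real.exp v))) := by ring
  · obtain ⟨c, hc, h1⟩ := ph_ge_pos ρ
    obtain ⟨C, hC, h2⟩ := ph_le_pos' ρ hp
    refine ⟨C / (c * c), by positivity, fun u v hu hv => ?_⟩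
    have h3 := h2 (u + v) (by linarith)
    have h4 : c * Real.exp (-(km ρ * u)) * (c * Real.exp (-(km ρ * v))) ≤ ph ρ u * ph ρ v :=
      mul_le_mul (h1 u hu) (h1 v hv) (by positivity) (ph_pos ρ u).le
    have e : C * Real.exp (-(km ρ * (u + v))) =
        C / (c * c) * (c * Real.exp (-(km ρ * u)) * (c * Real.exp (-(km ρ * v)))) := by
      have e2 : -(km ρ * (u + v)) = -(km ρ * u) + -(km ρ * v) := by ring
      rw [e2, Real.exp_add]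
      field_simp
    rw [e] at h3
    exact h3.trans (mul_le_mul_of_nonneg_left h4 (by positivity))

private lemma ph_mul_neg (ρ : ℝ) : ∃ C > 0, ∀ u v : ℝ, u ≤ 0 → v ≤ 0 →
    ph ρ (u + v) ≤ C * (ph ρ u * ph ρ v) := by
  refine ⟨4 * ((⌊ρ⌋₊ : ℝ) + 1), by positivity, fun u v hu hv => ?_⟩
  have h3 := ph_le_exp ρ (u + v)
  have h4 : Real.exp (kp ρ * u) / (2 * ((⌊ρ⌋₊ : ℝ) + 1)) *
      (Real.exp (kp ρ * v) / (2 * ((⌊ρ⌋₊ : ℝ) + 1))) ≤ ph ρ u * ph ρ v :=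
    mul_le_mul (ph_ge_neg ρ hu) (ph_ge_neg ρ hv) (by positivity) (ph_pos ρ u).le
  have e : Real.exp (kp ρ * (u + v)) / ((⌊ρ⌋₊ : ℝ) + 1) = 4 * ((⌊ρ⌋₊ : ℝ) + 1) *
      (Real.exp (kp ρ * u) / (2 * ((⌊ρ⌋₊ : ℝ) + 1)) *
      (Real.exp (kp ρ * v) / (2 * ((⌊ρ⌋₊ : ℝ) + 1)))) := by
    have e2 : kp ρ * (u + v) = kp ρ * u + kp ρ * v := by ring
    have e3 : (0 : ℝ) < (⌊ρ⌋₊ : ℝ) + 1 := by positivity
    rw [e2, Real.exp_add]
    field_simp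
    norm_num
  rw [e] at h3
  exact h3.trans (mul_le_mul_of_nonneg_left h4 (by positivity))

/-- submultiplicativity on each half line -/
lemma ph_mul (ρ : ℝ) : ∃ C > 0, ∀ u v : ℝ, (0 ≤ u ∧ 0 ≤ v ∨ u ≤ 0 ∧ v ≤ 0) →
    ph ρ (u + v) ≤ C * (ph ρ u * ph ρ v) := by
  obtain ⟨C₁, h1, h2⟩ := ph_mul_pos ρ
  obtain ⟨C₂, h3, h4⟩ := ph_mul_neg ρ
  refine ⟨C₁ + C₂, by positivity, fun u v huv => ?_⟩
  have h5 : 0 ≤ ph ρ u * ph ρ v := mul_nonneg (ph_pos ρ u).le (ph_pos ρ v).le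
  rcases huv with ⟨hu, hv⟩ | ⟨hu, hv⟩
  · have := h2 u v hu hv
    nlinarith [mul_nonneg h3.le h5]
  · have := h4 u v hu hv
    nlinarith [mul_nonneg h1.le h5]

private lemma ph_int_aux {f : ℝ → ℝ} (hf : Continuous f) (hf0 : ∀ s, 0 ≤ f s) {a b C D : ℝ}
    (ha : 0 < a) (hb : 0 < b) (h1 : ∀ s, s ≤ 0 → f s ≤ C * Real.exp (a * s))
    (h2 : ∀ s, 0 ≤ s → f s ≤ D * Real.exp (-(b * s))) : Integrable f := by
  rw [← integrableOn_univ, ← Iic_union_Ioi (a := (0 : ℝ))]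
  refine IntegrableOn.union ?_ ?_
  · refine Integrable.mono' ((integrableOn_exp_mul_Iic ha 0).const_mul C)
      hf.aestronglyMeasurable ?_
    refine (ae_restrict_iff' measurableSet_Iic).2 (Filter.Eventually.of_forall fun s hs => ?_)
    rw [Real.norm_eq_abs, abs_of_nonneg (hf0 s)]
    exact h1 s hs
  · refine Integrable.mono' ((integrableOn_exp_mul_Ioi (neg_lt_zero.2 hb) 0).const_mul D)
      hf.aestronglyMeasurable ?_
    refine (ae_restrict_iff' measurableSet_Ioi).2 (Filter.Eventually.of_forall fun s hs => ?_)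
    rw [Real.norm_eq_abs, abs_of_nonneg (hf0 s), neg_mul]
    exact h2 s (le_of_lt hs)

lemma integrable_ph_exp {ρ κ : ℝ} (h1 : -(km ρ) < κ) (h2 : κ < kp ρ) :
    Integrable (fun s : ℝ => Real.exp (-(κ * s)) * ph ρ s) := by
  obtain ⟨κ', hk1, hk2⟩ := exists_between (show -κ < km ρ by linarith)
  obtain ⟨C, hC, h3⟩ := ph_le_pos ρ hk2
  refine ph_int_aux (a := kp ρ - κ) (b := κ' + κ) (C := 1 / ((⌊ρ⌋₊ : ℝ) + 1)) (D := C)
    (Continuous.mul (by fun_prop) (continuous_ph ρ))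
    (fun s => mul_nonneg (Real.exp_pos _).le (ph_pos ρ s).le) (by linarith) (by linarith)
    (fun s _ => ?_) (fun s hs => ?_)
  · have h4 := ph_le_exp ρ s
    calc Real.exp (-(κ * s)) * ph ρ s
        ≤ Real.exp (-(κ * s)) * (Real.exp (kp ρ * s) / ((⌊ρ⌋₊ : ℝ) + 1)) := by gcongr
      _ = 1 / ((⌊ρ⌋₊ : ℝ) + 1) * Real.exp ((kp ρ - κ) * s) := by
          have e : (kp ρ - κ) * s = -(κ * s) + kp ρ * s := by ring
          rw [e, Real.exp_add]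
          ring
  · have h4 := h3 s hs
    calc Real.exp (-(κ * s)) * ph ρ s
        ≤ Real.exp (-(κ * s)) * (C * Real.exp (-(κ' * s))) := by gcongr
      _ = C * Real.exp (-((κ' + κ) * s)) := by
          have e : -((κ' + κ) * s) = -(κ * s) + -(κ' * s) := by ring
          rw [e, Real.exp_add]
          ring

lemma integrable_ph_abs {ρ κ : ℝ} (h1 : κ < km ρ) (h2 : κ < kp ρ) :
    Integrable (fun s : ℝ => Real.exp (κ * |s|) * ph ρ s) := by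
  obtain ⟨κ', hk1, hk2⟩ := exists_between h1
  obtain ⟨C, hC, h3⟩ := ph_le_pos ρ hk2
  refine ph_int_aux (a := kp ρ - κ) (b := κ' - κ) (C := 1 / ((⌊ρ⌋₊ : ℝ) + 1)) (D := C)
    (Continuous.mul (by fun_prop) (continuous_ph ρ))
    (fun s => mul_nonneg (Real.exp_pos _).le (ph_pos ρ s).le) (by linarith) (by linarith)
    (fun s hs => ?_) (fun s hs => ?_)
  · have h4 := ph_le_exp ρ s
    calc Real.exp (κ * |s|) * ph ρ s
        ≤ Real.exp (κ * |s|) * (Real.exp (kp ρ * s) / ((⌊ρ⌋₊ : ℝ) + 1)) := by gcongr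
      _ = 1 / ((⌊ρ⌋₊ : ℝ) + 1) * Real.exp ((kp ρ - κ) * s) := by
          have e : (kp ρ - κ) * s = κ * |s| + kp ρ * s := by
            rw [abs_of_nonpos hs]
            ring
          rw [e, Real.exp_add]
          ring
  · have h4 := h3 s hs
    calc Real.exp (κ * |s|) * ph ρ s
        ≤ Real.exp (κ * |s|) * (C * Real.exp (-(κ' * s))) := by gcongr
      _ = C * Real.exp (-((κ' - κ) * s)) := by
          have e : -((κ' - κ) * s) = κ * |s| + -(κ' * s) := by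
            rw [abs_of_nonneg hs]
            ring
          rw [e, Real.exp_add]
          ring

end Helper25.Ind
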