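import Pool.Agent.Helper25.Ind2.RDens
import Pool.Agent.Helper25.Ind.Disc
import Pool.Agent.Helper25.Ind.Quant
import Pool.Agent.Helper25.Ind.Canon
import Pool.Agent.Helper25.Ind.SuffC
import Pool.Agent.Helper25.Ind.Int
import Pool.Agent.Helper25.Ind.KerB
import Pool.Agent.Helper25.Ind.IndApi

/-!
# IND2 R2: the canonical product of a density, angles `< π`

`p = ⌊ρ⌋₊`, `ν = dens ρ N`, `ρ' ∈ (ρ, p+1)` fixed.
PROOFS.
* `exists_canon`: `exists_quantiles` for `ν` (`dens_Iic_one`, `dens_growth` for finiteness, `dens_univ`) gives `a`. `diracs a (Iic t) ≤ ν (Iic t)` so `Growth ρ' A (diracs a)` and `∑ (a k)^{-(p+1)} < ∞` (`suff_summable_inv` with `ρ'`); `exists_canonical`.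
* `canon_lt`: copy the proof of `discretize` (`Ind/Disc.lean`) for this given `a` (the counting functions differ by at most 1): `|∑' ker p z (a k) - ∫ ker p z dν| ≤ Phi p ‖z‖ / sin(δ/2)` for `|arg z| ≤ π - δ` (`canon_disc`). With `z = r e^{iθ}`, `r = e^x`, `dens_ker`: `|log‖f z‖ r^{-ρ} - U ρ θ N x| ≤ C Phi p r · r^{-ρ} → 0`
  (`suff_Phi_small`). `f z ≠ 0` for `θ < π` (`suff_ne_zero_of_slit`). Hence the limsups agree (`x = log r`, `Real.exp` maps `atTop` to `atTop` and is onto `(0,∞)`).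
* `canon_isN`: `upper`: for `σ > ρ` choose `ρ'' ∈ (ρ, min(σ,p+1))`: `∑ Phi(r/a_k) ≤ C r^{ρ''}` (`lintegral_exp_weight_le` / `suff_sum_Phi`), `‖f‖ ≤ exp(C' ∑ Phi)` (`norm_primary_le` through the log formula; at zeros trivial). `lower`: at the angle `star p`: `log‖f(r e^{i star p})‖ ≥ s0 p ∑ Phi(r/a_k) ≥ c #{k : a_k ≤ r}`
  (`ker_star_ge`, `Phi_mono`: `Phi p 1 > 0`) and for `r = e^{y+1}` with `∫_y^{y+1} N ≥ 1`, `y` large: `ν(Iic r) ≥ e^{ρ y}`, so `#{..} ≥ e^{ρ y} - 1 = e^{-ρ} r^ρ - 1 ≥ r^σ/c` for `σ < ρ`. (`suff_star_lower` is similar.)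
  `zeros`: `z = -(a k)`, `a k ≥ 1`.
-/

open Complex Filter Topology MeasureTheory Set

namespace Helper25.Ind

/-- `f` is the canonical product over the quantiles `a` of `dens ρ N` -/
structure CanonP (ρ : ℝ) (N : ℝ → ℝ) (a : ℕ → ℝ) (f : ℂ → ℂ) : Prop where
  one_le : ∀ k, 1 ≤ a k
  cnt : ∀ t, (diracs a) (Iic t) = ((⌊(dens ρ N (Iic t)).toReal⌋₊ : ℕ) : ENNReal)
  diff : Differentiable ℂ f
  zero_iff : ∀ z, f z = 0 ↔ ∃ k, z = -(a k : ℂ)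
  log : ∀ z, f z ≠ 0 → (Summable fun k => ker ⌊ρ⌋₊ z (a k)) ∧
    Real.log ‖f z‖ = ∑' k, ker ⌊ρ⌋₊ z (a k)

private lemma rc_floor {ρ : ℝ} (hρ : 0 < ρ) (hint : ¬ ∃ n : ℕ, ρ = n) :
    ((⌊ρ⌋₊ : ℕ) : ℝ) < ρ ∧ ρ < ((⌊ρ⌋₊ : ℕ) : ℝ) + 1 :=
  ⟨lt_of_le_of_ne (Nat.floor_le hρ.le) fun h => hint ⟨_, h.symm⟩, Nat.lt_floor_add_one ρ⟩

private lemma rc_growth {ρ ρ' : ℝ} (hρ : 0 < ρ) (h : ρ < ρ') {N : ℝ → ℝ} (hN : DensOK N)
    {a : ℕ → ℝ}
    (cnt : ∀ t, (diracs a) (Iic t) = ((⌊(dens ρ N (Iic t)).toReal⌋₊ : ℕ) : ENNReal)) :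
    ∃ A, 0 ≤ A ∧ Growth ρ' A (dens ρ N) ∧ Growth ρ' A (diracs a) := by
  obtain ⟨A, hA, hG⟩ := dens_growth hρ h hN
  refine ⟨A, hA, hG, ?_, fun t ht => ?_⟩
  · rw [cnt, hG.1]
    simp
  · rw [cnt]
    refine le_trans ?_ (hG.2 t ht)
    have hfin : dens ρ N (Iic t) < ⊤ := (hG.2 t ht).trans_lt ENNReal.ofReal_lt_top
    have : ((⌊(dens ρ N (Iic t)).toReal⌋₊ : ℕ) : ENNReal) =
        ENNReal.ofReal ((⌊(dens ρ N (Iic t)).toReal⌋₊ : ℕ) : ℝ) := by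
      rw [ENNReal.ofReal_natCast]
    rw [this, ← ENNReal.ofReal_toReal hfin.ne]
    refine ENNReal.ofReal_le_ofReal ?_
    rw [ENNReal.toReal_ofReal ENNReal.toReal_nonneg]
    exact Nat.floor_le ENNReal.toReal_nonneg

theorem exists_canon {ρ : ℝ} (hρ : 0 < ρ) (hint : ¬ ∃ n : ℕ, ρ = n) {N : ℝ → ℝ}
    (hN : DensOK N) : ∃ a f, CanonP ρ N a f := by
  obtain ⟨hp1, hp2⟩ := rc_floor hρ hint
  obtain ⟨ρ', h1, h2⟩ := exists_between hp2
  obtain ⟨A, hA, hG⟩ := dens_growth hρ h1 hN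
  have hfin : ∀ t, dens ρ N (Iic t) < ⊤ := by
    intro t
    rcases le_or_gt t 0 with ht | ht
    · rw [measure_mono_null (Iic_subset_Iic.2 (by linarith)) (dens_Iic_one ρ N)]
      exact ENNReal.zero_lt_top
    · exact (hG.2 t ht).trans_lt ENNReal.ofReal_lt_top
  obtain ⟨a, ha1, ha2⟩ := exists_quantiles (dens_Iic_one ρ N) hfin (dens_univ hρ hN)
  obtain ⟨B, hB, _, hGa⟩ := rc_growth hρ h1 hN ha2
  have ha : ∀ k, 0 < a k := fun k => lt_of_lt_of_le one_pos (ha1 k)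
  obtain ⟨f, hfd, _, hfz, hflog⟩ := exists_canonical (p := ⌊ρ⌋₊) a ha
    (suff_summable_inv (hp1.trans h1) h2 hB ha1 hGa)
  exact ⟨a, f, ⟨ha1, ha2, hfd, hfz, hflog⟩⟩

lemma canon_disc {ρ : ℝ} (hρ : 0 < ρ) (hint : ¬ ∃ n : ℕ, ρ = n) {N : ℝ → ℝ} (hN : DensOK N)
    {a : ℕ → ℝ} {f : ℂ → ℂ} (hf : CanonP ρ N a f) {δ : ℝ} (hδ : 0 < δ) (hδ' : δ ≤ Real.pi)
    {z : ℂ} (hz : z ∈ slitPlane) (hz' : |z.arg| ≤ Real.pi - δ) :
    |(∑' k, ker ⌊ρ⌋₊ z (a k)) - ∫ t, ker ⌊ρ⌋₊ z t ∂(dens ρ N)| ≤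
      Phi ⌊ρ⌋₊ ‖z‖ / Real.sin (δ / 2) := by
  obtain ⟨hp1, hp2⟩ := rc_floor hρ hint
  obtain ⟨ρ', h1, h2⟩ := exists_between hp2
  obtain ⟨A, hA, hν, hG⟩ := rc_growth hρ h1 hN hf.cnt
  have hp1' := hp1.trans h1
  have ha2 := hf.cnt
  have hz0 : ∀ t : ℝ, t ≤ 1 → dens ρ N (Iic t) = 0 := fun t ht =>
    measure_mono_null (Iic_subset_Iic.2 ht) (dens_Iic_one ρ N)
  rw [← suff_integral_diracs a (integrable_ker hp1' h2 hA hG hz)]
  generalize ⌊ρ⌋₊ = p at *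
  generalize dens ρ N = ν at *
  have hs : 0 < Real.sin (δ / 2) := Real.sin_pos_of_pos_of_lt_pi (by linarith)
    (by linarith [Real.pi_pos])
  obtain ⟨hi1, he1⟩ := integral_ker_eq hp1' h2 hA hG hz
  obtain ⟨hi2, he2⟩ := integral_ker_eq hp1' h2 hA hν hz
  have hr : 0 < ‖z‖ := norm_pos_iff.2 (slitPlane_ne_zero hz)
  rw [he1, he2]
  have hsub : -(∫ t in Ioi (0 : ℝ), ((diracs a) (Iic t)).toReal *
        (((-z / t) ^ (p + 1) / (1 + z / t)).re / t)) -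
      -(∫ t in Ioi (0 : ℝ), (ν (Iic t)).toReal * (((-z / t) ^ (p + 1) / (1 + z / t)).re / t)) =
      ∫ t in Ioi (0 : ℝ), ((ν (Iic t)).toReal * (((-z / t) ^ (p + 1) / (1 + z / t)).re / t) -
        ((diracs a) (Iic t)).toReal * (((-z / t) ^ (p + 1) / (1 + z / t)).re / t)) := by
    rw [integral_sub hi2 hi1]
    ring
  rw [hsub]
  have hzero : ∀ t ∈ Ioi (0 : ℝ) \ Ioi 1,
      ((ν (Iic t)).toReal * (((-z / t) ^ (p + 1) / (1 + z / t)).re / t) -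
        ((diracs a) (Iic t)).toReal * (((-z / t) ^ (p + 1) / (1 + z / t)).re / t)) = 0 := by
    intro t ht
    have ht1 : t ≤ 1 := not_lt.1 ht.2
    rw [ha2, hz0 t ht1]
    simp
  rw [setIntegral_eq_of_subset_of_forall_sdiff_eq_zero measurableSet_Ioi
    (Ioi_subset_Ioi zero_le_one) hzero]
  obtain ⟨hi, he⟩ := disc_integral p hr
  rw [← he, ← Real.norm_eq_abs, ← integral_div]
  refine norm_integral_le_of_norm_le (hi.div_const _) ?_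
  refine (ae_restrict_iff' measurableSet_Ioi).2 (Eventually.of_forall fun t ht => ?_)
  have ht0 : (0 : ℝ) < t := lt_trans one_pos ht
  rw [← sub_mul, norm_mul, Real.norm_eq_abs, Real.norm_eq_abs]
  have hF : |(ν (Iic t)).toReal - ((diracs a) (Iic t)).toReal| ≤ 1 := by
    rw [ha2, ENNReal.toReal_natCast, abs_le]
    constructor
    · linarith [Nat.floor_le (ENNReal.toReal_nonneg (a := ν (Iic t)))]
    · linarith [Nat.lt_floor_add_one (ν (Iic t)).toReal]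
  calc |(ν (Iic t)).toReal - ((diracs a) (Iic t)).toReal| *
        |((-z / t) ^ (p + 1) / (1 + z / t)).re / t|
      ≤ 1 * |((-z / t) ^ (p + 1) / (1 + z / t)).re / t| := by gcongr
    _ = |((-z / t) ^ (p + 1) / (1 + z / t)).re / t| := one_mul _
    _ ≤ _ := disc_bound p hδ hδ' hz' ht0

private lemma rc_limsup_le {V W : ℝ → ℝ}
    (h : ∀ ε : ℝ, 0 < ε → ∀ᶠ x in atTop, |V x - W x| ≤ ε) :
    limsup (fun x : ℝ => ((V x : ℝ) : EReal)) atTop ≤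
      limsup (fun x : ℝ => ((W x : ℝ) : EReal)) atTop := by
  by_contra hc
  rw [not_le] at hc
  obtain ⟨q, hq1, hq2⟩ := EReal.lt_iff_exists_real_btwn.1 hc
  obtain ⟨q', hq3, hq4⟩ := EReal.lt_iff_exists_real_btwn.1 hq1
  have hq4' : q' < q := by exact_mod_cast hq4
  have h1 : limsup (fun x : ℝ => ((V x : ℝ) : EReal)) atTop ≤ (q : EReal) := by
    refine limsup_le_of_le (h := ?_)
    filter_upwards [h (q - q') (by linarith), eventually_lt_of_limsup_lt hq3] with x h2 h3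
    have h3' : W x < q' := by exact_mod_cast h3
    have h4 := (abs_le.1 h2).2
    have h5 : V x ≤ q := by linarith
    exact_mod_cast h5
  exact absurd hq2 (not_lt.2 h1)

/-- the key comparison on a ray -/
private lemma rc_key {ρ θ : ℝ} (hρ : 0 < ρ) (hint : ¬ ∃ n : ℕ, ρ = n) {N : ℝ → ℝ}
    (hN : DensOK N) {a : ℕ → ℝ} {f : ℂ → ℂ} (hf : CanonP ρ N a f) (h0 : 0 ≤ θ)
    (h1 : θ < Real.pi) (x : ℝ) :
    f ((Real.exp x : ℝ) * Complex.exp (θ * Complex.I)) ≠ 0 ∧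
    |Real.log ‖f ((Real.exp x : ℝ) * Complex.exp (θ * Complex.I))‖ -
      Real.exp (ρ * x) * U ρ θ N x| ≤
        Phi ⌊ρ⌋₊ (Real.exp x) / Real.sin ((Real.pi - θ) / 2) := by
  have hθ : |θ| < Real.pi := by rwa [abs_of_nonneg h0]
  have hr := Real.exp_pos x
  have hz := suff_slit hr hθ
  have ha : ∀ k, 0 < a k := fun k => lt_of_lt_of_le one_pos (hf.one_le k)
  have hne := suff_ne_zero_of_slit ha hf.zero_iff hz
  refine ⟨hne, ?_⟩
  have h2 := canon_disc hρ hint hN hf (δ := Real.pi - θ) (by linarith) (by linarith) hz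
    (by rw [suff_arg hr hθ, abs_of_nonneg h0]; linarith)
  rw [(dens_ker hρ hint ⟨h0, h1.le⟩ hN x).2, suff_norm hr.le] at h2
  rw [(hf.log _ hne).2]
  exact h2

theorem canon_lt {ρ θ : ℝ} (hρ : 0 < ρ) (hint : ¬ ∃ n : ℕ, ρ = n) {N : ℝ → ℝ} (hN : DensOK N)
    {a : ℕ → ℝ} {f : ℂ → ℂ} (hf : CanonP ρ N a f) (h0 : 0 ≤ θ) (h1 : θ < Real.pi) :
    indicatorOf ρ f θ = limsup (fun x : ℝ => ((U ρ θ N x : ℝ) : EReal)) atTop := by
  obtain ⟨hp1, hp2⟩ := rc_floor hρ hint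
  obtain ⟨V, hV⟩ : ∃ V : ℝ → ℝ, V = fun x => Real.log ‖f ((Real.exp x : ℝ) *
      Complex.exp (θ * Complex.I))‖ / (Real.exp x) ^ ρ := ⟨_, rfl⟩
  have e1 : indicatorOf ρ f θ = limsup (fun x : ℝ => ((V x : ℝ) : EReal)) atTop := by
    unfold indicatorOf
    conv_lhs => rw [← Real.map_exp_atTop]
    rw [← limsup_comp]
    congr 1
    funext x
    rw [hV]
    show ratio ρ f θ (Real.exp x) = _
    unfold ratio
    rw [if_neg (rc_key hρ hint hN hf h0 h1 x).1]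
  have hs : 0 < Real.sin ((Real.pi - θ) / 2) := Real.sin_pos_of_pos_of_lt_pi (by linarith)
    (by linarith [Real.pi_pos])
  have e2 : ∀ ε : ℝ, 0 < ε → ∀ᶠ x in atTop, |V x - U ρ θ N x| ≤ ε := by
    intro ε hε
    obtain ⟨R, hR, H⟩ := suff_Phi_small (p := ⌊ρ⌋₊) hp1 (mul_pos hε hs)
    filter_upwards [eventually_ge_atTop (Real.log R)] with x hx
    have hx' : R ≤ Real.exp x := by
      rw [← Real.log_le_iff_le_exp hR]
      exact hx
    have h3 := H _ hx'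
    have h4 := (rc_key hρ hint hN hf h0 h1 x).2
    have h5 : Real.exp (ρ * x) = (Real.exp x) ^ ρ := by
      rw [← Real.exp_mul, mul_comm]
    have hp : 0 < (Real.exp x) ^ ρ := Real.rpow_pos_of_pos (Real.exp_pos x) _
    have h6 : V x - U ρ θ N x = (Real.log ‖f ((Real.exp x : ℝ) *
        Complex.exp (θ * Complex.I))‖ - Real.exp (ρ * x) * U ρ θ N x) / (Real.exp x) ^ ρ := by
      rw [hV, h5]
      field_simp
    rw [h6, abs_div, abs_of_pos hp, div_le_iff₀ hp]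
    refine h4.trans ?_
    rw [div_le_iff₀ hs]
    linarith
  rw [e1]
  refine le_antisymm (rc_limsup_le e2) (rc_limsup_le fun ε hε => ?_)
  filter_upwards [e2 ε hε] with x hx
  rwa [abs_sub_comm]

private lemma rc_upper {p : ℕ} {ρ A : ℝ} (h1 : (p : ℝ) < ρ) (h2 : ρ < p + 1) (hA : 0 ≤ A)
    {a : ℕ → ℝ} (ha : ∀ k, 0 < a k) (hga : Growth ρ A (diracs a)) {f : ℂ → ℂ}
    (hfz : ∀ z, f z = 0 ↔ ∃ k, z = -(a k : ℂ))
    (hflog : ∀ z, f z ≠ 0 → (Summable fun k => ker p z (a k)) ∧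
      Real.log ‖f z‖ = ∑' k, ker p z (a k)) :
    ∃ C > 0, ∀ z : ℂ, z ≠ 0 → ‖f z‖ ≤ Real.exp (C * ‖z‖ ^ ρ) := by
  obtain ⟨C1, hC1, hPhi⟩ := suff_sum_Phi h1 h2
  obtain ⟨C2, hC2, hprim⟩ := norm_primary_le p
  refine ⟨C2 * (C1 * A) + 1, by positivity, ?_⟩
  intro z hz
  have hr : 0 < ‖z‖ := norm_pos_iff.2 hz
  by_cases hfz0 : f z = 0
  · rw [hfz0, norm_zero]
    positivity
  · obtain ⟨hs, hl⟩ := hflog z hfz0
    obtain ⟨hs2, hl2⟩ := hPhi A a hA ha hga ‖z‖ hr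
    have h3 : ∀ k, ker p z (a k) ≤ C2 * Phi p (‖z‖ / a k) := by
      intro k
      unfold ker
      have h4 := hprim (-z / a k)
      have h5 : ‖-z / (a k : ℂ)‖ = ‖z‖ / a k := by
        rw [norm_div, norm_neg, Complex.norm_real, Real.norm_of_nonneg (ha k).le]
      rw [h5] at h4
      have h6 : primary p (-z / a k) ≠ 0 := by
        rw [Ne, primary_eq_zero_iff]
        intro h7
        apply hfz0
        rw [hfz]
        refine ⟨k, ?_⟩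
        have h8 : (a k : ℂ) ≠ 0 := by exact_mod_cast (ha k).ne'
        rw [div_eq_iff h8, one_mul] at h7
        rw [← h7, neg_neg]
      calc Real.log ‖primary p (-z / a k)‖ ≤ Real.log (Real.exp (C2 * Phi p (‖z‖ / a k))) :=
            Real.log_le_log (norm_pos_iff.2 h6) h4
        _ = C2 * Phi p (‖z‖ / a k) := Real.log_exp _
    have h4 : Real.log ‖f z‖ ≤ C2 * (C1 * A * ‖z‖ ^ ρ) := by
      rw [hl]
      calc ∑' k, ker p z (a k) ≤ ∑' k, C2 * Phi p (‖z‖ / a k) :=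
            hs.tsum_le_tsum h3 (hs2.mul_left _)
        _ = C2 * ∑' k, Phi p (‖z‖ / a k) := tsum_mul_left
        _ ≤ C2 * (C1 * A * ‖z‖ ^ ρ) := by gcongr
    have h5 : 0 < ‖f z‖ := norm_pos_iff.2 hfz0
    rw [← Real.log_le_iff_le_exp h5]
    have h6 : 0 ≤ ‖z‖ ^ ρ := by positivity
    nlinarith

/-- lower bound for the potential in the positive direction -/
private lemma rc_star {ρ : ℝ} (hρ : 0 < ρ) (hint : ¬ ∃ n : ℕ, ρ = n) {N : ℝ → ℝ}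
    (hN : DensOK N) {y : ℝ} (hy : 1 ≤ ∫ t in Icc y (y + 1), N t) :
    s0 ⌊ρ⌋₊ * Phi ⌊ρ⌋₊ 1 * Real.exp (-ρ) ≤ U ρ (star ⌊ρ⌋₊) N (y + 1) := by
  have hs0 := s0_pos ⌊ρ⌋₊
  have hP1 : 0 < Phi ⌊ρ⌋₊ 1 := Phi_pos _ one_pos
  have hkk : ∀ s, 0 ≤ kk ρ (star ⌊ρ⌋₊) s := by
    intro s
    unfold kk
    refine mul_nonneg (Real.exp_pos _).le ?_
    exact le_trans (mul_nonneg hs0.le (Phi_nonneg _ (by positivity)))
      (ker_star_ge ⌊ρ⌋₊ (Real.exp_pos s) one_pos)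
  have hkk1 : ∀ s, 0 ≤ s → s ≤ 1 →
      s0 ⌊ρ⌋₊ * Phi ⌊ρ⌋₊ 1 * Real.exp (-ρ) ≤ kk ρ (star ⌊ρ⌋₊) s := by
    intro s h0 h1
    unfold kk
    have h2 := ker_star_ge ⌊ρ⌋₊ (Real.exp_pos s) one_pos
    have h3 : Phi ⌊ρ⌋₊ 1 ≤ Phi ⌊ρ⌋₊ (Real.exp s / 1) := by
      refine Phi_mono _ zero_le_one ?_
      rw [div_one]
      exact Real.one_le_exp h0
    have h4 : s0 ⌊ρ⌋₊ * Phi ⌊ρ⌋₊ 1 ≤
        ker ⌊ρ⌋₊ (Real.exp s * Complex.exp (star ⌊ρ⌋₊ * Complex.I)) 1 :=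
      (mul_le_mul_of_nonneg_left h3 hs0.le).trans h2
    have h5 : Real.exp (-ρ) ≤ Real.exp (-(ρ * s)) := by
      apply Real.exp_le_exp.2
      nlinarith
    rw [mul_comm]
    exact mul_le_mul h5 h4 (by positivity) (Real.exp_pos _).le
  have hst : star ⌊ρ⌋₊ ∈ Icc (0 : ℝ) Real.pi := ⟨star_nonneg _, (star_lt_pi _).le⟩
  have hint1 := integrable_U hρ hint hst hN (y + 1)
  have hNi : IntegrableOn N (Icc y (y + 1)) := by
    by_contra hni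
    have := integral_undef (μ := volume.restrict (Icc y (y + 1))) hni
    linarith
  obtain ⟨c, hc⟩ : ∃ c, c = s0 ⌊ρ⌋₊ * Phi ⌊ρ⌋₊ 1 * Real.exp (-ρ) := ⟨_, rfl⟩
  have hc0 : 0 ≤ c := by rw [hc]; positivity
  rw [← hc]
  have hstep1 : c * ∫ t in Icc y (y + 1), N t ≤
      ∫ t in Icc y (y + 1), kk ρ (star ⌊ρ⌋₊) (y + 1 - t) * N t := by
    rw [← integral_const_mul]
    refine setIntegral_mono_on (hNi.const_mul c) hint1.integrableOn measurableSet_Icc ?_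
    intro t ht
    refine mul_le_mul_of_nonneg_right ?_ (hN.nonneg t)
    rw [hc]
    exact hkk1 _ (by linarith [ht.2]) (by linarith [ht.1])
  have hstep2 : ∫ t in Icc y (y + 1), kk ρ (star ⌊ρ⌋₊) (y + 1 - t) * N t ≤
      U ρ (star ⌊ρ⌋₊) N (y + 1) := by
    unfold U
    exact setIntegral_le_integral hint1
      (Eventually.of_forall fun t => mul_nonneg (hkk _) (hN.nonneg t))
  calc c = c * 1 := (mul_one c).symm
    _ ≤ c * ∫ t in Icc y (y + 1), N t := mul_le_mul_of_nonneg_left hy hc0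
    _ ≤ _ := hstep1.trans hstep2

theorem canon_isN {ρ : ℝ} (hρ : 0 < ρ) (hint : ¬ ∃ n : ℕ, ρ = n) {N : ℝ → ℝ} (hN : DensOK N)
    {a : ℕ → ℝ} {f : ℂ → ℂ} (hf : CanonP ρ N a f) : IsN ρ f := by
  obtain ⟨hp1, hp2⟩ := rc_floor hρ hint
  have ha : ∀ k, 0 < a k := fun k => lt_of_lt_of_le one_pos (hf.one_le k)
  refine ⟨hf.diff, ?_, ?_, ?_⟩
  · intro z hz
    obtain ⟨k, hk⟩ := (hf.zero_iff z).1 hz
    rw [hk]
    simp [ha k]
  · intro σ hσ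
    obtain ⟨τ, h1, h2⟩ := exists_between (lt_min hσ hp2)
    obtain ⟨A, hA, _, hG⟩ := rc_growth hρ h1 hN hf.cnt
    have hτσ : τ < σ := lt_of_lt_of_le h2 (min_le_left _ _)
    have hτp : τ < ((⌊ρ⌋₊ : ℕ) : ℝ) + 1 := lt_of_lt_of_le h2 (min_le_right _ _)
    obtain ⟨C, hC, H⟩ := rc_upper (hp1.trans h1) hτp hA ha hG hf.zero_iff hf.log
    have h3 : Tendsto (fun r : ℝ => r ^ (σ - τ)) atTop atTop :=
      tendsto_rpow_atTop (by linarith)
    obtain ⟨R, hR⟩ := eventually_atTop.1 (h3.eventually_ge_atTop C)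
    refine ⟨max R 1, fun z hz => ?_⟩
    have hr1 : 1 ≤ ‖z‖ := le_trans (le_max_right _ _) hz
    have hr0 : 0 < ‖z‖ := by linarith
    refine (H z (norm_pos_iff.1 hr0)).trans (Real.exp_le_exp.2 ?_)
    have h4 := hR ‖z‖ (le_trans (le_max_left _ _) hz)
    have h5 : ‖z‖ ^ σ = ‖z‖ ^ (σ - τ) * ‖z‖ ^ τ := by
      rw [← Real.rpow_add hr0]
      ring_nf
    rw [h5]
    have h6 : 0 < ‖z‖ ^ τ := Real.rpow_pos_of_pos hr0 _
    nlinarith
  · intro σ hσ R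
    obtain ⟨c, hc⟩ : ∃ c, c = s0 ⌊ρ⌋₊ * Phi ⌊ρ⌋₊ 1 * Real.exp (-ρ) := ⟨_, rfl⟩
    have hs0 := s0_pos ⌊ρ⌋₊
    have hP1 : 0 < Phi ⌊ρ⌋₊ 1 := Phi_pos _ one_pos
    have hc0 : 0 < c := by rw [hc]; positivity
    have hs : 0 < Real.sin ((Real.pi - star ⌊ρ⌋₊) / 2) :=
      Real.sin_pos_of_pos_of_lt_pi (by linarith [star_lt_pi ⌊ρ⌋₊])
      (by linarith [Real.pi_pos, star_nonneg ⌊ρ⌋₊])
    obtain ⟨R1, hR1, H1⟩ := suff_Phi_small (p := ⌊ρ⌋₊) hp1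
      (show 0 < c / 2 * Real.sin ((Real.pi - star ⌊ρ⌋₊) / 2) by positivity)
    have h3 : Tendsto (fun r : ℝ => r ^ (ρ - σ)) atTop atTop :=
      tendsto_rpow_atTop (by linarith)
    obtain ⟨R2, hR2⟩ := eventually_atTop.1 (h3.eventually_ge_atTop (2 / c))
    obtain ⟨y, hy1, hy2⟩ := hN.low (Real.log (max (max R1 R2) (max R 1)))
    have hM : 0 < max (max R1 R2) (max R 1) := by positivity
    have hr : max (max R1 R2) (max R 1) ≤ Real.exp (y + 1) := by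
      rw [← Real.log_le_iff_le_exp hM]
      linarith
    obtain ⟨r, hre⟩ : ∃ r, r = Real.exp (y + 1) := ⟨_, rfl⟩
    have hr0 : 0 < r := by rw [hre]; exact Real.exp_pos _
    have hrR1 : R1 ≤ r := by
      rw [hre]; exact le_trans (le_trans (le_max_left _ _) (le_max_left _ _)) hr
    have hrR2 : R2 ≤ r := by
      rw [hre]; exact le_trans (le_trans (le_max_right _ _) (le_max_left _ _)) hr
    have hrR : R ≤ r := by
      rw [hre]; exact le_trans (le_trans (le_max_left _ _) (le_max_right _ _)) hr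
    obtain ⟨hne, hk⟩ := rc_key hρ hint hN hf (star_nonneg ⌊ρ⌋₊) (star_lt_pi ⌊ρ⌋₊) (y + 1)
    have hU := rc_star hρ hint hN hy2
    rw [← hc] at hU
    rw [← hre] at hne hk
    refine ⟨r * Complex.exp (star ⌊ρ⌋₊ * Complex.I), ?_, ?_⟩
    · rw [suff_norm hr0.le]
      exact hrR
    rw [suff_norm hr0.le]
    have h5 : Real.exp (ρ * (y + 1)) = r ^ ρ := by
      rw [hre, ← Real.exp_mul, mul_comm]
    rw [h5] at hk
    have hrρ : 0 < r ^ ρ := Real.rpow_pos_of_pos hr0 _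
    have h6 : Phi ⌊ρ⌋₊ r / Real.sin ((Real.pi - star ⌊ρ⌋₊) / 2) ≤ c / 2 * r ^ ρ := by
      rw [div_le_iff₀ hs]
      linarith [H1 r hrR1]
    have h7 : r ^ σ ≤ c / 2 * r ^ ρ := by
      have h8 := hR2 r hrR2
      have h9 : r ^ ρ = r ^ (ρ - σ) * r ^ σ := by
        rw [← Real.rpow_add hr0]
        ring_nf
      have h10 : 0 < r ^ σ := Real.rpow_pos_of_pos hr0 _
      have h11 : 1 ≤ c / 2 * r ^ (ρ - σ) := by
        rw [div_le_iff₀ hc0] at h8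
        linarith
      rw [h9]
      nlinarith
    have h12 : r ^ ρ * c ≤ r ^ ρ * U ρ (star ⌊ρ⌋₊) N (y + 1) :=
      mul_le_mul_of_nonneg_left hU hrρ.le
    have h13 : r ^ σ ≤ Real.log ‖f (r * Complex.exp (star ⌊ρ⌋₊ * Complex.I))‖ := by
      rw [abs_le] at hk
      linarith [hk.1]
    calc Real.exp (r ^ σ) ≤
          Real.exp (Real.log ‖f (r * Complex.exp (star ⌊ρ⌋₊ * Complex.I))‖) :=
          Real.exp_le_exp.2 h13
      _ = _ := Real.exp_log (norm_pos_iff.2 hne)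

end Helper25.Ind
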