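import Pool.Agent.Helper25.Ind.Defs

/-!
# IND2 R4a: sums over quantiles and integrals of antitone functions

If `diracs a (Iic t) = ⌊ν (Iic t)⌋` for all `t`, then `∑ g (a k) ≤ ∫ g dν ≤ ∑ g (a k) + sup g` for antitone
nonnegative `g` (layer cake; the sets `{g > s}` are lower sets).
-/

open Filter Topology MeasureTheory Set

namespace Helper25.Ind

lemma rpa_Iic {ν : Measure ℝ} {a : ℕ → ℝ} (hfin : ∀ t, ν (Iic t) < ⊤)
    (hcnt : ∀ t, (diracs a) (Iic t) = ((⌊(ν (Iic t)).toReal⌋₊ : ℕ) : ENNReal)) (t : ℝ) :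
    (diracs a) (Iic t) ≤ ν (Iic t) ∧ ν (Iic t) ≤ (diracs a) (Iic t) + 1 := by
  have h1 : ν (Iic t) = ENNReal.ofReal (ν (Iic t)).toReal :=
    (ENNReal.ofReal_toReal (hfin t).ne).symm
  have h0 : 0 ≤ (ν (Iic t)).toReal := ENNReal.toReal_nonneg
  rw [hcnt]
  constructor
  · conv_rhs => rw [h1]
    rw [← ENNReal.ofReal_natCast]
    exact ENNReal.ofReal_le_ofReal (Nat.floor_le h0)
  · conv_lhs => rw [h1]
    rw [← ENNReal.ofReal_natCast, ← ENNReal.ofReal_one, ← ENNReal.ofReal_add (Nat.cast_nonneg _)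
      zero_le_one]
    exact ENNReal.ofReal_le_ofReal (Nat.lt_floor_add_one _).le

lemma rpa_lower {ν : Measure ℝ} {a : ℕ → ℝ} (hfin : ∀ t, ν (Iic t) < ⊤)
    (hcnt : ∀ t, (diracs a) (Iic t) = ((⌊(ν (Iic t)).toReal⌋₊ : ℕ) : ENNReal)) {E : Set ℝ}
    (hE : IsLowerSet E) : (diracs a) E ≤ ν E ∧ ν E ≤ (diracs a) E + 1 := by
  by_cases hmax : ∃ c ∈ E, ∀ x ∈ E, x ≤ c
  · obtain ⟨c, hc, hx⟩ := hmax
    have hEc : E = Iic c := by
      ext x
      exact ⟨fun h => hx x h, fun h => hE h hc⟩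
    rw [hEc]
    exact rpa_Iic hfin hcnt c
  · push Not at hmax
    have hU : E = ⋃ q ∈ {q : ℚ | (q : ℝ) ∈ E}, Iic (q : ℝ) := by
      ext x
      simp only [mem_iUnion, mem_Iic, mem_ofPred_eq, exists_prop]
      constructor
      · intro hx
        obtain ⟨y, hy, hxy⟩ := hmax x hx
        obtain ⟨q, hq1, hq2⟩ := exists_rat_btwn hxy
        exact ⟨q, hE hq2.le hy, hq1.le⟩
      · rintro ⟨q, hq, hxq⟩
        exact hE hxq hq
    have hdir : DirectedOn (Function.onFun (· ⊆ ·) fun q : ℚ => Iic (q : ℝ))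
        {q : ℚ | (q : ℝ) ∈ E} := by
      intro q hq q' hq'
      rcases le_total q q' with h | h
      · exact ⟨q', hq', Iic_subset_Iic.2 (by exact_mod_cast h), subset_rfl⟩
      · exact ⟨q, hq, subset_rfl, Iic_subset_Iic.2 (by exact_mod_cast h)⟩
    have hm : ∀ μ : Measure ℝ, μ E = ⨆ q ∈ {q : ℚ | (q : ℝ) ∈ E}, μ (Iic (q : ℝ)) := by
      intro μ
      conv_lhs => rw [hU]
      exact measure_biUnion_eq_iSup (to_countable _) hdir
    have hsub : ∀ q ∈ {q : ℚ | (q : ℝ) ∈ E}, Iic (q : ℝ) ⊆ E := fun q hq x hx => hE hx hq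
    constructor
    · rw [hm (diracs a)]
      exact iSup₂_le fun q hq => (rpa_Iic hfin hcnt q).1.trans (measure_mono (hsub q hq))
    · rw [hm ν]
      exact iSup₂_le fun q hq => (rpa_Iic hfin hcnt q).2.trans
        (add_le_add_left (measure_mono (hsub q hq)) 1)

lemma rpa_diracs (a : ℕ → ℝ) {g : ℝ → ENNReal} (hg : Measurable g) :
    ∫⁻ t, g t ∂(diracs a) = ∑' k, g (a k) := by
  unfold diracs
  rw [lintegral_sum_measure]
  congr 1
  funext k
  exact lintegral_dirac' _ hg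

lemma rpa_antitone {ν : Measure ℝ} {a : ℕ → ℝ} (hfin : ∀ t, ν (Iic t) < ⊤)
    (hcnt : ∀ t, (diracs a) (Iic t) = ((⌊(ν (Iic t)).toReal⌋₊ : ℕ) : ENNReal)) {g : ℝ → ℝ}
    (hg : Antitone g) (h0 : ∀ t, 0 ≤ g t) {M : ℝ} (hM : ∀ t, g t ≤ M) :
    ∑' k, ENNReal.ofReal (g (a k)) ≤ ∫⁻ t, ENNReal.ofReal (g t) ∂ν ∧
      ∫⁻ t, ENNReal.ofReal (g t) ∂ν ≤ ∑' k, ENNReal.ofReal (g (a k)) + ENNReal.ofReal M := by
  have hmeas : Measurable g := hg.measurable
  have hlow : ∀ s : ℝ, IsLowerSet {t | s < g t} := fun s x y hyx hx => lt_of_lt_of_le hx (hg hyx)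
  have hl : ∀ μ : Measure ℝ, ∫⁻ t, ENNReal.ofReal (g t) ∂μ =
      ∫⁻ s in Ioi (0 : ℝ), μ {t | s < g t} := fun μ =>
    lintegral_eq_lintegral_meas_lt μ (Eventually.of_forall h0) hmeas.aemeasurable
  rw [← rpa_diracs a (hmeas.ennreal_ofReal : Measurable fun t => ENNReal.ofReal (g t)),
    hl, hl]
  constructor
  · exact lintegral_mono fun s => (rpa_lower hfin hcnt (hlow s)).1
  · have h1 : ENNReal.ofReal M = ∫⁻ s in Ioi (0 : ℝ), (Iio M).indicator 1 s := by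
      rw [lintegral_indicator_one measurableSet_Iio, Measure.restrict_apply measurableSet_Iio,
        inter_comm, Ioi_inter_Iio, Real.volume_Ioo, sub_zero]
    rw [h1, ← lintegral_add_right _ (measurable_one.indicator measurableSet_Iio)]
    refine lintegral_mono fun s => ?_
    by_cases hs : s < M
    · rw [indicator_of_mem (show s ∈ Iio M from hs)]
      exact (rpa_lower hfin hcnt (hlow s)).2
    · have h2 : {t | s < g t} = ∅ := by
        ext t
        simp only [mem_ofPred_eq, mem_empty_iff_false, iff_false, not_lt]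
        exact (hM t).trans (not_lt.1 hs)
      rw [h2, measure_empty]
      exact zero_le

lemma rpa_real {ν : Measure ℝ} {a : ℕ → ℝ} (hfin : ∀ t, ν (Iic t) < ⊤)
    (hcnt : ∀ t, (diracs a) (Iic t) = ((⌊(ν (Iic t)).toReal⌋₊ : ℕ) : ENNReal)) {g : ℝ → ℝ}
    (hg : Antitone g) (h0 : ∀ t, 0 ≤ g t) {M : ℝ} (hM : ∀ t, g t ≤ M) (hI : Integrable g ν) :
    (Summable fun k => g (a k)) ∧ ∑' k, g (a k) ≤ ∫ t, g t ∂ν ∧
      ∫ t, g t ∂ν ≤ ∑' k, g (a k) + M := by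
  obtain ⟨h1, h2⟩ := rpa_antitone hfin hcnt hg h0 hM
  have hM0 : 0 ≤ M := (h0 0).trans (hM 0)
  have hI' : ∫⁻ t, ENNReal.ofReal (g t) ∂ν = ENNReal.ofReal (∫ t, g t ∂ν) :=
    (ofReal_integral_eq_lintegral_ofReal hI (Eventually.of_forall h0)).symm
  have hi0 : 0 ≤ ∫ t, g t ∂ν := integral_nonneg h0
  rw [hI'] at h1 h2
  have hne : ∑' k, ENNReal.ofReal (g (a k)) ≠ ⊤ := (h1.trans_lt ENNReal.ofReal_lt_top).ne
  have hs : Summable fun k => g (a k) := by
    have h3 := ENNReal.summable_toReal hne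
    refine h3.congr fun k => ?_
    exact ENNReal.toReal_ofReal (h0 _)
  have ht : ∑' k, ENNReal.ofReal (g (a k)) = ENNReal.ofReal (∑' k, g (a k)) :=
    (ENNReal.ofReal_tsum_of_nonneg (fun k => h0 _) hs).symm
  have hs0 : 0 ≤ ∑' k, g (a k) := tsum_nonneg fun k => h0 _
  rw [ht] at h1 h2
  refine ⟨hs, (ENNReal.ofReal_le_ofReal_iff hi0).1 h1, ?_⟩
  rw [← ENNReal.ofReal_add hs0 hM0] at h2
  exact (ENNReal.ofReal_le_ofReal_iff (add_nonneg hs0 hM0)).1 h2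

end Helper25.Ind
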