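import Pool.Agent.Helper25.Ind2.RDens
import Pool.Agent.Helper25.Ind2.KDer
import Pool.Agent.Helper25.Ind2.RPiLb

/-!
# IND2 R4d: modulus of continuity of the potential at the angle `π`

`kk (s + h) - kk s = (e^(-ρ h) - 1) kk s + e^(-ρ (s+h)) (KK (s+h) - KK s)`; near `0` the logarithm is
controlled by `|log a - log b| ≤ 2 √|a-b| (1/√a + 1/√b)`, far from `0` by the derivative.
-/

open Filter Topology MeasureTheory Set

namespace Helper25.Ind

/-- Hölder bound of the logarithm -/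
lemma rpd_log {a b : ℝ} (ha : 0 < a) (hb : 0 < b) : |Real.log a - Real.log b| ≤
    2 * Real.sqrt |a - b| * ((Real.sqrt a)⁻¹ + (Real.sqrt b)⁻¹) := by
  have key : ∀ a b : ℝ, 0 < b → b ≤ a → |Real.log a - Real.log b| ≤
      2 * Real.sqrt |a - b| * (Real.sqrt b)⁻¹ := by
    intro a b hb hab
    have ha : 0 < a := hb.trans_le hab
    rw [abs_of_nonneg (sub_nonneg.2 (Real.log_le_log hb hab)), abs_of_nonneg (sub_nonneg.2 hab)]
    have hsb : 0 < Real.sqrt b := Real.sqrt_pos.2 hb
    have hsa : 0 < Real.sqrt a := Real.sqrt_pos.2 ha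
    have h1 : Real.log a - Real.log b = 2 * Real.log (Real.sqrt a / Real.sqrt b) := by
      rw [Real.log_div hsa.ne' hsb.ne', Real.log_sqrt ha.le, Real.log_sqrt hb.le]
      ring
    have h2 := Real.log_le_sub_one_of_pos (div_pos hsa hsb)
    have h3 : Real.sqrt a ≤ Real.sqrt (a - b) + Real.sqrt b := by
      rw [Real.sqrt_le_left (by positivity)]
      have e1 := Real.sq_sqrt (sub_nonneg.2 hab)
      have e2 := Real.sq_sqrt hb.le
      have e3 : 0 ≤ Real.sqrt (a - b) * Real.sqrt b := by positivity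
      nlinarith
    have h4 : Real.sqrt a / Real.sqrt b - 1 ≤ Real.sqrt (a - b) * (Real.sqrt b)⁻¹ := by
      rw [div_sub_one hsb.ne', div_eq_mul_inv]
      exact mul_le_mul_of_nonneg_right (by linarith) (inv_nonneg.2 hsb.le)
    rw [h1]
    linarith
  rcases le_total b a with h | h
  · refine (key a b hb h).trans (mul_le_mul_of_nonneg_left ?_ (by positivity))
    have : 0 ≤ (Real.sqrt a)⁻¹ := by positivity
    linarith
  · rw [abs_sub_comm, abs_sub_comm a b]
    refine (key b a ha h).trans (mul_le_mul_of_nonneg_left ?_ (by positivity))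
    have : 0 ≤ (Real.sqrt b)⁻¹ := by positivity
    linarith

/-- `|1 - e^s| ≥ e^(-3) |s|` for `|s| ≤ 3` -/
lemma rpd_exp_ge {s : ℝ} (hs : |s| ≤ 3) : Real.exp (-3) * |s| ≤ |1 - Real.exp s| := by
  have h3 : Real.exp (-3) ≤ 1 := Real.exp_le_one_iff.2 (by norm_num)
  rcases le_total 0 s with h | h
  · rw [abs_of_nonneg h]
    have h1 := Real.add_one_le_exp s
    rw [abs_sub_comm, abs_of_nonneg (by linarith)]
    nlinarith
  · rw [abs_of_nonpos h] at hs ⊢
    have h1 := Real.add_one_le_exp (-s)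
    have h2 : Real.exp s ≤ 1 := Real.exp_le_one_iff.2 h
    rw [abs_of_nonneg (by linarith)]
    have h4 : Real.exp (-3) ≤ Real.exp s := Real.exp_le_exp.2 (by linarith)
    have h5 : Real.exp s * Real.exp (-s) = 1 := by rw [← Real.exp_add]; simp
    have h6 : Real.exp s * (-s) ≤ 1 - Real.exp s := by nlinarith [Real.exp_pos s]
    have h7 : Real.exp (-3) * (-s) ≤ Real.exp s * (-s) :=
      mul_le_mul_of_nonneg_right h4 (by linarith)
    linarith

lemma rpd_KK (ρ : ℝ) {s : ℝ} (hs : s ≠ 0) : KK ρ Real.pi s = lgk ⌊ρ⌋₊ (Real.exp s) := by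
  unfold KK
  have h1 : (Real.exp s : ℂ) * Complex.exp (Real.pi * Complex.I) = -((Real.exp s : ℝ) : ℂ) := by
    rw [Complex.exp_pi_mul_I]
    ring
  rw [h1, rpb_ker _ (by
    intro h
    exact hs (Real.exp_eq_one_iff s |>.1 h)) one_ne_zero, div_one]

/-- difference of exponentials -/
lemma rpd_exp_sub {a b : ℝ} (_hab : a ≤ b) : Real.exp b - Real.exp a ≤ Real.exp b * (b - a) := by
  have h1 := Real.add_one_le_exp (a - b)
  have h2 : Real.exp b * Real.exp (a - b) = Real.exp a := by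
    rw [← Real.exp_add]
    congr 1
    ring
  nlinarith [Real.exp_pos b]

lemma rpd_near (ρ : ℝ) (hρ : 0 < ρ) : ∃ C, 0 ≤ C ∧ ∀ s h : ℝ, |s| ≤ 2 → 0 ≤ h → h ≤ 1 → s ≠ 0 →
    s + h ≠ 0 → |kk ρ Real.pi (s + h) - kk ρ Real.pi s| ≤
      C * Real.sqrt h * (1 + (Real.sqrt |s|)⁻¹ + (Real.sqrt |s + h|)⁻¹) := by
  set p := ⌊ρ⌋₊ with hp
  set E : ℝ := Real.exp 3 with hE
  have hE0 : 0 < E := Real.exp_pos 3
  have hE1 : 1 ≤ E := Real.one_le_exp (by norm_num)
  set R : ℝ := Real.exp (2 * ρ) with hR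
  have hR0 : 0 < R := Real.exp_pos _
  -- constants
  refine ⟨ρ * R * (E + p * E ^ p + 2 * E) + R * (2 * E * E + p * E ^ p), by positivity, ?_⟩
  intro s h hs h0 h1 hs0 hsh0
  have hs' := abs_le.1 hs
  have hsh : |s + h| ≤ 3 := abs_le.2 ⟨by linarith [hs'.1], by linarith [hs'.2]⟩
  have hs3 : |s| ≤ 3 := hs.trans (by norm_num)
  set A : ℝ := (Real.sqrt |s|)⁻¹ with hA
  set B : ℝ := (Real.sqrt |s + h|)⁻¹ with hB
  have hA0 : 0 ≤ A := by positivity
  have hB0 : 0 ≤ B := by positivity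
  have hh : h ≤ Real.sqrt h := by
    rw [Real.le_sqrt h0]
    · rw [sq]
      exact mul_le_of_le_one_left h0 h1
    · exact h0
  have hsq0 : 0 ≤ Real.sqrt h := Real.sqrt_nonneg h
  -- sizes of `w = |1 - e^s|`
  have hw : ∀ v : ℝ, |v| ≤ 3 → v ≠ 0 → 0 < |1 - Real.exp v| ∧ |1 - Real.exp v| ≤ E ∧
      (Real.sqrt |1 - Real.exp v|)⁻¹ ≤ E * (Real.sqrt |v|)⁻¹ := by
    intro v hv hv0
    have h2 := rpd_exp_ge hv
    have h3 : 0 < |v| := abs_pos.2 hv0
    have h4 : 0 < Real.exp (-3) * |v| := mul_pos (Real.exp_pos _) h3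
    refine ⟨h4.trans_le h2, ?_, ?_⟩
    · have h5 : Real.exp v ≤ E := Real.exp_le_exp.2 (le_trans (le_abs_self v) hv)
      have h6 := Real.exp_pos v
      rw [abs_le]
      constructor <;> linarith
    · have h5 : Real.sqrt (Real.exp (-3) * |v|) ≤ Real.sqrt |1 - Real.exp v| :=
        Real.sqrt_le_sqrt h2
      have h6 : 0 < Real.sqrt (Real.exp (-3) * |v|) := Real.sqrt_pos.2 h4
      have h7 : (Real.sqrt |1 - Real.exp v|)⁻¹ ≤ (Real.sqrt (Real.exp (-3) * |v|))⁻¹ :=
        inv_anti₀ h6 h5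
      refine h7.trans ?_
      rw [Real.sqrt_mul (Real.exp_pos _).le, mul_inv]
      refine mul_le_mul_of_nonneg_right ?_ (by positivity)
      have h8 : Real.exp (-3) ≤ Real.sqrt (Real.exp (-3)) := by
        rw [Real.le_sqrt (Real.exp_pos _).le (Real.exp_pos _).le]
        have h9 : Real.exp (-3) ≤ 1 := Real.exp_le_one_iff.2 (by norm_num)
        rw [sq]
        exact mul_le_of_le_one_left (Real.exp_pos _).le h9
      have h9 : (Real.sqrt (Real.exp (-3)))⁻¹ ≤ (Real.exp (-3))⁻¹ :=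
        inv_anti₀ (Real.exp_pos _) h8
      rw [Real.exp_neg, inv_inv] at h9
      rwa [Real.exp_neg]
  obtain ⟨w1, w2, w3⟩ := hw s hs3 hs0
  obtain ⟨v1, v2, v3⟩ := hw (s + h) hsh hsh0
  -- polynomial part
  set Q : ℝ → ℝ := fun s => ∑ j ∈ Finset.range p, Real.exp s ^ (j + 1) / ((j : ℝ) + 1) with hQ
  have hKs : KK ρ Real.pi s = Real.log |1 - Real.exp s| + Q s := by
    rw [rpd_KK ρ hs0, Real.log_abs]
    rfl
  have hKsh : KK ρ Real.pi (s + h) = Real.log |1 - Real.exp (s + h)| + Q (s + h) := by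
    rw [rpd_KK ρ hsh0, Real.log_abs]
    rfl
  have hsE : Real.exp s ≤ E := Real.exp_le_exp.2 ((le_abs_self s).trans hs3)
  have hshE : Real.exp (s + h) ≤ E := Real.exp_le_exp.2 ((le_abs_self _).trans hsh)
  have hpow : ∀ v : ℝ, Real.exp v ≤ E → ∀ j ∈ Finset.range p, Real.exp v ^ (j + 1) ≤ E ^ p := by
    intro v hv j hj
    have hj' : j + 1 ≤ p := Finset.mem_range.1 hj
    exact (pow_le_pow_left₀ (Real.exp_pos v).le hv _).trans (pow_le_pow_right₀ hE1 hj')
  have hQs : |Q s| ≤ p * E ^ p := by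
    have h2 : 0 ≤ Q s := Finset.sum_nonneg fun j _ => by positivity
    rw [abs_of_nonneg h2]
    refine (Finset.sum_le_sum fun j hj => ?_ : Q s ≤ ∑ _j ∈ Finset.range p, E ^ p).trans
      (le_of_eq (by simp))
    refine (div_le_self (by positivity) ?_).trans (hpow s hsE j hj)
    have : (0 : ℝ) ≤ j := Nat.cast_nonneg j
    linarith
  have hQd : |Q (s + h) - Q s| ≤ p * E ^ p * h := by
    have h2 : Q (s + h) - Q s = ∑ j ∈ Finset.range p,
        (Real.exp (s + h) ^ (j + 1) / ((j : ℝ) + 1) - Real.exp s ^ (j + 1) / ((j : ℝ) + 1)) := by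
      rw [Finset.sum_sub_distrib]
    have h3 : ∀ j ∈ Finset.range p,
        (Real.exp (s + h) ^ (j + 1) / ((j : ℝ) + 1) - Real.exp s ^ (j + 1) / ((j : ℝ) + 1)) ≤
          E ^ p * h := by
      intro j hj
      have hj0 : (0 : ℝ) < (j : ℝ) + 1 := by positivity
      rw [← sub_div, div_le_iff₀ hj0, ← Real.exp_nat_mul, ← Real.exp_nat_mul]
      have h4 := rpd_exp_sub (show ((j + 1 : ℕ) : ℝ) * s ≤ ((j + 1 : ℕ) : ℝ) * (s + h) by
        refine mul_le_mul_of_nonneg_left (by linarith) (Nat.cast_nonneg _))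
      have h5 := hpow (s + h) hshE j hj
      rw [← Real.exp_nat_mul] at h5
      refine h4.trans ?_
      have h6 : ((j + 1 : ℕ) : ℝ) * (s + h) - ((j + 1 : ℕ) : ℝ) * s = h * ((j : ℝ) + 1) := by
        push_cast
        ring
      rw [h6, mul_assoc]
      exact mul_le_mul_of_nonneg_right h5 (by positivity)
    have h4 : ∀ j ∈ Finset.range p,
        0 ≤ (Real.exp (s + h) ^ (j + 1) / ((j : ℝ) + 1) - Real.exp s ^ (j + 1) / ((j : ℝ) + 1)) := by
      intro j _
      rw [← sub_div]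
      refine div_nonneg (sub_nonneg.2 ?_) (by positivity)
      exact pow_le_pow_left₀ (Real.exp_pos _).le (Real.exp_le_exp.2 (by linarith)) _
    rw [h2, abs_of_nonneg (Finset.sum_nonneg h4)]
    refine (Finset.sum_le_sum h3).trans (le_of_eq ?_)
    rw [Finset.sum_const, Finset.card_range, nsmul_eq_mul]
    ring
  -- size of `log |1 - e^s|`
  have hlogs : |(Real.log |1 - Real.exp s|)| ≤ E + 2 * E * A := by
    have h2 : Real.log |1 - Real.exp s| ≤ E := by
      have := Real.log_le_sub_one_of_pos w1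
      linarith
    have h3 : -Real.log |1 - Real.exp s| ≤ 2 * E * A := by
      have h4 : 0 < Real.sqrt |1 - Real.exp s| := Real.sqrt_pos.2 w1
      have h5 : -Real.log |1 - Real.exp s| = 2 * Real.log (Real.sqrt |1 - Real.exp s|)⁻¹ := by
        rw [Real.log_inv, Real.log_sqrt w1.le]
        ring
      have h6 := Real.log_le_sub_one_of_pos (inv_pos.2 h4)
      rw [h5]
      linarith
    rw [abs_le]
    have : 0 ≤ 2 * E * A := by positivity
    constructor <;> linarith
  -- difference of logs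
  have hlogd : |(Real.log |1 - Real.exp (s + h)| - Real.log |1 - Real.exp s|)| ≤
      2 * E * E * Real.sqrt h * (A + B) := by
    refine (rpd_log v1 w1).trans ?_
    have h2 : |(|1 - Real.exp (s + h)| - |1 - Real.exp s|)| ≤ E * h := by
      refine (abs_abs_sub_abs_le_abs_sub _ _).trans ?_
      have h3 := rpd_exp_sub (show s ≤ s + h by linarith)
      have h4 : Real.exp s ≤ Real.exp (s + h) := Real.exp_le_exp.2 (by linarith)
      have h5 : (1 - Real.exp (s + h)) - (1 - Real.exp s) = -(Real.exp (s + h) - Real.exp s) := by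
        ring
      rw [h5, abs_neg, abs_of_nonneg (by linarith)]
      refine h3.trans ?_
      have h6 : s + h - s = h := by ring
      rw [h6]
      exact mul_le_mul_of_nonneg_right hshE h0
    have h3 : Real.sqrt |(|1 - Real.exp (s + h)| - |1 - Real.exp s|)| ≤ E * Real.sqrt h := by
      refine (Real.sqrt_le_sqrt h2).trans ?_
      rw [Real.sqrt_mul hE0.le]
      refine mul_le_mul_of_nonneg_right ?_ hsq0
      rw [Real.sqrt_le_left hE0.le, sq]
      exact le_mul_of_one_le_left hE0.le hE1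
    calc 2 * Real.sqrt |(|1 - Real.exp (s + h)| - |1 - Real.exp s|)| *
          ((Real.sqrt |1 - Real.exp (s + h)|)⁻¹ + (Real.sqrt |1 - Real.exp s|)⁻¹)
        ≤ 2 * (E * Real.sqrt h) * (E * B + E * A) := by
          refine mul_le_mul (mul_le_mul_of_nonneg_left h3 (by norm_num)) (add_le_add v3 w3)
            (by positivity) (by positivity)
      _ = 2 * E * E * Real.sqrt h * (A + B) := by ring
  -- exponential weights
  have g1 : -(ρ * s) ≤ 2 * ρ := by
    have e1 : ρ * (-2) ≤ ρ * s := mul_le_mul_of_nonneg_left hs'.1 hρ.le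
    linarith only [e1]
  have g2 : -(ρ * (s + h)) ≤ -(ρ * s) := by
    have e1 : ρ * s ≤ ρ * (s + h) := mul_le_mul_of_nonneg_left (by linarith only [h0]) hρ.le
    linarith only [e1]
  have hexp1 : Real.exp (-(ρ * (s + h))) ≤ R := by
    rw [hR]
    exact Real.exp_le_exp.2 (g2.trans g1)
  have hexp2 : |Real.exp (-(ρ * (s + h))) - Real.exp (-(ρ * s))| ≤ R * ρ * h := by
    have h2 := rpd_exp_sub g2
    have h3 : Real.exp (-(ρ * (s + h))) ≤ Real.exp (-(ρ * s)) := Real.exp_le_exp.2 g2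
    rw [abs_sub_comm, abs_of_nonneg (sub_nonneg.2 h3)]
    refine h2.trans ?_
    have h4 : -(ρ * s) - -(ρ * (s + h)) = ρ * h := by ring
    rw [h4, mul_assoc]
    refine mul_le_mul_of_nonneg_right ?_ (by positivity)
    rw [hR]
    exact Real.exp_le_exp.2 g1
  have hsplit : kk ρ Real.pi (s + h) - kk ρ Real.pi s =
      (Real.exp (-(ρ * (s + h))) - Real.exp (-(ρ * s))) * KK ρ Real.pi s +
        Real.exp (-(ρ * (s + h))) * (KK ρ Real.pi (s + h) - KK ρ Real.pi s) := by
    rw [kk_eq_KK, kk_eq_KK]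
    ring
  have hKKs : |KK ρ Real.pi s| ≤ E + 2 * E * A + p * E ^ p := by
    rw [hKs]
    exact (abs_add_le _ _).trans (add_le_add hlogs hQs)
  have hKKd : |KK ρ Real.pi (s + h) - KK ρ Real.pi s| ≤
      2 * E * E * Real.sqrt h * (A + B) + p * E ^ p * h := by
    have h2 : KK ρ Real.pi (s + h) - KK ρ Real.pi s =
        (Real.log |1 - Real.exp (s + h)| - Real.log |1 - Real.exp s|) + (Q (s + h) - Q s) := by
      rw [hKs, hKsh]
      ring
    rw [h2]
    exact (abs_add_le _ _).trans (add_le_add hlogd hQd)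
  rw [hsplit]
  refine (abs_add_le _ _).trans ?_
  rw [abs_mul, abs_mul, abs_of_pos (Real.exp_pos (-(ρ * (s + h))))]
  have t1 : |Real.exp (-(ρ * (s + h))) - Real.exp (-(ρ * s))| * |KK ρ Real.pi s| ≤
      (R * ρ * Real.sqrt h) * (E + 2 * E * A + p * E ^ p) := by
    refine mul_le_mul (hexp2.trans ?_) hKKs (abs_nonneg _) (by positivity)
    exact mul_le_mul_of_nonneg_left hh (by positivity)
  have t2 : Real.exp (-(ρ * (s + h))) * |KK ρ Real.pi (s + h) - KK ρ Real.pi s| ≤
      R * (2 * E * E * Real.sqrt h * (A + B) + p * E ^ p * Real.sqrt h) := by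
    refine mul_le_mul hexp1 (hKKd.trans ?_) (abs_nonneg _) hR0.le
    exact add_le_add le_rfl (mul_le_mul_of_nonneg_left hh (by positivity))
  refine (add_le_add t1 t2).trans ?_
  have e1 : (R * ρ * Real.sqrt h) * (E + 2 * E * A + p * E ^ p) ≤
      ρ * R * (E + p * E ^ p + 2 * E) * Real.sqrt h * (1 + A + B) := by
    have : (E + 2 * E * A + p * E ^ p) ≤ (E + p * E ^ p + 2 * E) * (1 + A + B) := by
      have h2 : (E + p * E ^ p + 2 * E) * (1 + A + B) - (E + 2 * E * A + p * E ^ p) =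
          2 * E + (E + p * E ^ p) * A + (3 * E + p * E ^ p) * B := by ring
      have h3 : 0 ≤ 2 * E + (E + p * E ^ p) * A + (3 * E + p * E ^ p) * B := by positivity
      rw [← h2] at h3
      exact sub_nonneg.1 h3
    calc (R * ρ * Real.sqrt h) * (E + 2 * E * A + p * E ^ p)
        ≤ (R * ρ * Real.sqrt h) * ((E + p * E ^ p + 2 * E) * (1 + A + B)) :=
          mul_le_mul_of_nonneg_left this (by positivity)
      _ = _ := by ring
  have e2 : R * (2 * E * E * Real.sqrt h * (A + B) + p * E ^ p * Real.sqrt h) ≤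
      R * (2 * E * E + p * E ^ p) * Real.sqrt h * (1 + A + B) := by
    have : 2 * E * E * (A + B) + p * E ^ p ≤ (2 * E * E + p * E ^ p) * (1 + A + B) := by
      have h2 : (2 * E * E + p * E ^ p) * (1 + A + B) - (2 * E * E * (A + B) + p * E ^ p) =
          2 * E * E + p * E ^ p * (A + B) := by ring
      have h3 : 0 ≤ 2 * E * E + p * E ^ p * (A + B) := by positivity
      rw [← h2] at h3
      exact sub_nonneg.1 h3
    calc R * (2 * E * E * Real.sqrt h * (A + B) + p * E ^ p * Real.sqrt h)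
        = (R * Real.sqrt h) * (2 * E * E * (A + B) + p * E ^ p) := by ring
      _ ≤ (R * Real.sqrt h) * ((2 * E * E + p * E ^ p) * (1 + A + B)) :=
          mul_le_mul_of_nonneg_left this (by positivity)
      _ = _ := by ring
  refine (add_le_add e1 e2).trans (le_of_eq ?_)
  ring

end Helper25.Ind
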