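import Pool.Agent.Helper25.Ind2.RCore
import Pool.Agent.Helper25.Ind2.KDer

/-!
# IND2 R3: the angle `π`, upper bound

Notation: `ν = dens ρ N` (no atoms), `p = ⌊ρ⌋₊`, `r > 0` with `r ≠ a k` for all `k`, `φ(t) = ker p (-r) t = log|E(r/t,p)| = KK ρ π (log(r/t))`.
SHAPE of `φ` (from `hasDerivAt_KK` with `θ = π`, `aa = -1`, `bb = 1`: `KK ρ π` is decreasing on `(-∞,0)` and increasing on `(0,∞)`): `φ` is decreasing on `(0,r)` and increasing on `(r,∞)` (with limit `0` at `∞`), so `φ ≤ 0` on `(r,∞)`.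
COUPLING. `F(t) = ν(Iic t)` is continuous; `diracs a (Iic t) = ⌊F t⌋`. We may assume `a` sorted? It is not assumed monotone: use the push-forward formulation instead. Layer cake / Stieltjes: let `D(t) = F(t) - ⌊F(t)⌋ ∈ [0,1)`, let `r` be given, `m = ⌊F r⌋` (number of zeros `≤ r`, all of them `< r`).
  Let `u = sup{t ≤ r : F t ≤ m}` (so `F u = m`), `v = inf{t ≥ r: F t ≥ m+1}` (`F v = m+1`); `ν((u,v]) = 1`.
  Left part: `∑_{a_k < r} φ(a_k) ≤ ∫_{(0,u]} φ dν`: for a DECREASING function `φ` on `(0,r)` write `φ(t) = φ(u) + ∫_t^u (-φ')` for `t ≤ u` and `φ(t) ≤ φ(u)` for `u ≤ t < r` (there are no zeros in `(u, r)` anyway, they satisfy `a_k ≤ u`, since `#{a_k ≤ u} = ⌊F u⌋ = m`):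
  `∑_{a_k ≤ u} φ(a_k) = m φ(u) + ∫_0^u #{a_k ≤ s}(-φ'(s)) ds ≤ m φ(u) + ∫_0^u F(s) (-φ'(s)) ds = ∫_{(0,u]} φ dν` (layer cake, `#{a_k ≤ s} = ⌊F s⌋ ≤ F s`).
  Right part: zeros `a_k > r` are `≥ v`-ish: `#{r < a_k ≤ s} = ⌊F s⌋ - m`. `φ` increasing to `0` on `(r,∞)`: `φ(t) = -∫_t^∞ φ'`: `∑_{a_k > r} φ(a_k) = -∫_r^∞ (⌊F s⌋ - m) φ'(s) ds ≤ -∫_v^∞ (F s - (m+1)) φ'(s) ds = ∫_{(v,∞)} φ dν` because for `s ≥ v`, `⌊F s⌋ - m ≥ F s - (m+1)` and for `s<v` the integrand is `≥ 0`.
  Total (`sum_le_pi`): `∑' φ(a_k) ≤ ∫ φ dν - ∫_{(u,v]} φ dν`.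
ERROR. `-∫_{(u,v]} φ dν ≤ C + ∫_{(u,v] ∩ [r/2,2r]} log^+(r/|t-r|) dν`, since `φ(t) ≥ -C - log^+(r/|t-r|)` for all `t` (`φ(t) = KK(s)`, `s = log(r/t)`; `KK ≥ -C` for `|s| ≥ log 2`, `KK(s) ≥ log|1-e^s| - C` for `|s| ≤ log 2`). On `[r/2,2r]` the density of `ν` is `≤ S := 2^{|ρ-1|} exp(C_ε r^ε 2^ε) r^{ρ-1}` (`sup`).
  For a set `I` with `ν(I) ≤ 1` and density `≤ S`: `∫_I log^+(r/|t-r|) dν ≤ log(1/λ) + ∫_{|t-r| ≤ λ r} log(r/|t-r|) S dt ≤ log(1/λ) + 4 S r λ (1 + log(1/λ))` for `0<λ<1`; take `λ = 1/(2 + S r)^2`: total `≤ C(1 + log^+(S r)) ≤ C'(1 + log r + r^ε)`.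
CONCLUSION `canon_pi_le`. For `r` with `f(-r) ≠ 0`: `log‖f(-r)‖ r^{-ρ} ≤ U ρ π N (log r) + C'(1 + log r + r^ε) r^{-ρ}` with `ε < ρ` (`dens_ker` at `θ = π`: `e^{iπ} = -1`). Zeros: ratio is `⊥`. Take limsup.
-/

open Complex Filter Topology MeasureTheory Set

namespace Helper25.Ind

/-! ### the kernel at the angle `π` -/

private lemma rp_ker (ρ : ℝ) {r t : ℝ} (hr : 0 < r) (ht : 0 < t) :
    ker ⌊ρ⌋₊ (-(r : ℂ)) t = KK ρ Real.pi (Real.log (r / t)) := by
  unfold KK ker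
  rw [Real.exp_log (div_pos hr ht), Complex.exp_pi_mul_I]
  congr 3
  push_cast
  ring

private lemma rp_aa (ρ : ℝ) : aa ρ Real.pi = -1 := by
  unfold aa
  have h1 : Real.cos (((⌊ρ⌋₊ : ℝ) + 1) * Real.pi) = (-1) ^ (⌊ρ⌋₊ + 1) := by
    have := Real.cos_nat_mul_pi (⌊ρ⌋₊ + 1)
    rw [← this]
    push_cast
    rfl
  rw [h1, pow_succ, ← mul_assoc, ← mul_pow]
  norm_num

private lemma rp_bb (ρ : ℝ) : bb ρ Real.pi = 1 := by
  unfold bb
  rw [Real.cos_nat_mul_pi, ← mul_pow]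
  norm_num

private lemma rp_deriv (ρ : ℝ) {s : ℝ} (hs : s ≠ 0) : ∃ c : ℝ, 0 < c ∧
    HasDerivAt (KK ρ Real.pi) (c * (Real.exp s - 1)) s := by
  have h := hasDerivAt_KK ρ (θ := Real.pi) (s := s) ⟨Real.pi_pos.le, le_rfl⟩ (Or.inr hs)
  rw [rp_aa, rp_bb] at h
  have h1 : (1 : ℂ) + Real.exp s * Complex.exp (Real.pi * Complex.I) ≠ 0 := by
    rw [Complex.exp_pi_mul_I]
    intro h2
    have h3 : Real.exp s = 1 := by
      have h4 : ((Real.exp s : ℝ) : ℂ) = 1 := by linear_combination -h2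
      exact Complex.ofReal_injective (by rw [h4, Complex.ofReal_one])
    exact hs (Real.exp_eq_one_iff s |>.mp h3)
  have h2 : 0 < ‖(1 : ℂ) + Real.exp s * Complex.exp (Real.pi * Complex.I)‖ ^ 2 :=
    pow_pos (norm_pos_iff.2 h1) 2
  refine ⟨Real.exp (((⌊ρ⌋₊ : ℝ) + 1) * s) /
    ‖(1 : ℂ) + Real.exp s * Complex.exp (Real.pi * Complex.I)‖ ^ 2, by positivity, ?_⟩
  refine h.congr_deriv ?_
  ring

private lemma rp_anti (ρ : ℝ) : AntitoneOn (KK ρ Real.pi) (Iio 0) := by
  refine antitoneOn_of_deriv_nonpos (convex_Iio 0) ?_ ?_ ?_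
  · intro s hs
    obtain ⟨c, -, h⟩ := rp_deriv ρ (ne_of_lt hs)
    exact h.continuousAt.continuousWithinAt
  · intro s hs
    rw [interior_Iio] at hs
    obtain ⟨c, -, h⟩ := rp_deriv ρ (ne_of_lt hs)
    exact h.differentiableAt.differentiableWithinAt
  · intro s hs
    rw [interior_Iio] at hs
    obtain ⟨c, hc, h⟩ := rp_deriv ρ (ne_of_lt hs)
    rw [h.deriv]
    have h1 : Real.exp s ≤ 1 := Real.exp_le_one_iff.2 (le_of_lt hs)
    exact mul_nonpos_of_nonneg_of_nonpos hc.le (by linarith)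

private lemma rp_mono (ρ : ℝ) : MonotoneOn (KK ρ Real.pi) (Ioi 0) := by
  refine monotoneOn_of_deriv_nonneg (convex_Ioi 0) ?_ ?_ ?_
  · intro s hs
    obtain ⟨c, -, h⟩ := rp_deriv ρ (ne_of_gt hs)
    exact h.continuousAt.continuousWithinAt
  · intro s hs
    rw [interior_Ioi] at hs
    obtain ⟨c, -, h⟩ := rp_deriv ρ (ne_of_gt hs)
    exact h.differentiableAt.differentiableWithinAt
  · intro s hs
    rw [interior_Ioi] at hs
    obtain ⟨c, hc, h⟩ := rp_deriv ρ (ne_of_gt hs)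
    rw [h.deriv]
    have h1 : 1 ≤ Real.exp s := Real.one_le_exp (le_of_lt hs)
    exact mul_nonneg hc.le (by linarith)

private lemma rp_nonpos (ρ : ℝ) {s : ℝ} (hs : s < 0) : KK ρ Real.pi s ≤ 0 := by
  refine ge_of_tendsto (KK_tendsto_bot ρ Real.pi ⟨Real.pi_pos.le, le_rfl⟩) ?_
  filter_upwards [eventually_le_atBot s] with t ht
  exact rp_anti ρ (show t ∈ Iio (0 : ℝ) from lt_of_le_of_lt ht hs) hs ht

private lemma rp_phi_anti (ρ : ℝ) {r : ℝ} (hr : 0 < r) {x y : ℝ} (hx : 0 < x) (hxy : x ≤ y)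
    (hy : y < r) : ker ⌊ρ⌋₊ (-(r : ℂ)) y ≤ ker ⌊ρ⌋₊ (-(r : ℂ)) x := by
  have hy0 : 0 < y := lt_of_lt_of_le hx hxy
  rw [rp_ker ρ hr hy0, rp_ker ρ hr hx]
  have h1 : 0 < Real.log (r / y) := Real.log_pos (by rw [one_lt_div hy0]; exact hy)
  have h2 : Real.log (r / y) ≤ Real.log (r / x) := by
    apply Real.log_le_log (div_pos hr hy0)
    exact div_le_div_of_nonneg_left hr.le hx hxy
  exact rp_mono ρ h1 (lt_of_lt_of_le h1 h2) h2

private lemma rp_phi_mono (ρ : ℝ) {r : ℝ} (hr : 0 < r) {x y : ℝ} (hx : r < x) (hxy : x ≤ y) :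
    ker ⌊ρ⌋₊ (-(r : ℂ)) x ≤ ker ⌊ρ⌋₊ (-(r : ℂ)) y := by
  have hx0 : 0 < x := hr.trans hx
  have hy0 : 0 < y := lt_of_lt_of_le hx0 hxy
  rw [rp_ker ρ hr hy0, rp_ker ρ hr hx0]
  have h1 : Real.log (r / x) < 0 := Real.log_neg (div_pos hr hx0) (by rw [div_lt_one hx0]; exact hx)
  have h2 : Real.log (r / y) ≤ Real.log (r / x) := by
    apply Real.log_le_log (div_pos hr hy0)
    exact div_le_div_of_nonneg_left hr.le hx0 hxy
  exact rp_anti ρ (lt_of_le_of_lt h2 h1) h1 h2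

private lemma rp_phi_nonpos (ρ : ℝ) {r : ℝ} (hr : 0 < r) {x : ℝ} (hx : r < x) :
    ker ⌊ρ⌋₊ (-(r : ℂ)) x ≤ 0 := by
  have hx0 : 0 < x := hr.trans hx
  rw [rp_ker ρ hr hx0]
  exact rp_nonpos ρ (Real.log_neg (div_pos hr hx0) (by rw [div_lt_one hx0]; exact hx))

private lemma rp_low (p : ℕ) {r t : ℝ} (hr : 0 < r) (ht : 0 < t) (htr : t ≠ r) :
    Real.log (|t - r| / t) ≤ ker p (-(r : ℂ)) t := by
  unfold ker primary
  have e1 : -(-(r : ℂ)) / (t : ℂ) = ((r / t : ℝ) : ℂ) := by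
    push_cast
    ring
  rw [e1]
  have e2 : ∑ j ∈ Finset.range p, ((r / t : ℝ) : ℂ) ^ (j + 1) / ((j : ℂ) + 1) =
      ((∑ j ∈ Finset.range p, (r / t) ^ (j + 1) / ((j : ℝ) + 1) : ℝ) : ℂ) := by
    push_cast
    rfl
  rw [e2, norm_mul, Complex.norm_exp, Complex.ofReal_re]
  have e3 : ‖(1 : ℂ) - ((r / t : ℝ) : ℂ)‖ = |t - r| / t := by
    rw [← Complex.ofReal_one, ← Complex.ofReal_sub, Complex.norm_real, Real.norm_eq_abs]
    rw [show (1 : ℝ) - r / t = (t - r) / t by field_simp, abs_div, abs_of_pos ht]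
  rw [e3]
  have h1 : 0 < |t - r| / t := div_pos (abs_pos.2 (sub_ne_zero.2 htr)) ht
  apply Real.log_le_log h1
  have h2 : 0 ≤ ∑ j ∈ Finset.range p, (r / t) ^ (j + 1) / ((j : ℝ) + 1) := by
    apply Finset.sum_nonneg
    intro j _
    positivity
  have h3 := Real.one_le_exp h2
  nlinarith

private lemma rp_meas (p : ℕ) (z : ℂ) : Measurable (ker p z) := by
  have h1 : Continuous (primary p) := by
    unfold primary
    fun_prop
  have h2 : Measurable fun t : ℝ => -z / (t : ℂ) :=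
    Measurable.div measurable_const Complex.measurable_ofReal
  exact Real.measurable_log.comp (h1.measurable.comp h2).norm

/-! ### initial segments -/

private lemma seg_sup {μ : Measure ℝ} {c : ℝ} {T : Set ℝ} (hT : ∀ x ∈ T, c < x)
    (hT' : ∀ x ∈ T, ∀ y, c < y → y ≤ x → y ∈ T) : μ T ≤ ⨆ x ∈ T, μ (Ioc c x) := by
  by_cases hmax : ∃ x ∈ T, ∀ y ∈ T, y ≤ x
  · obtain ⟨x, hx, hx'⟩ := hmax
    refine le_trans (measure_mono fun y hy => ?_) (le_iSup₂ (f := fun x _ => μ (Ioc c x)) x hx)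
    exact ⟨hT y hy, hx' y hy⟩
  · push Not at hmax
    have h1 : T = ⋃ q ∈ {q : ℚ | (q : ℝ) ∈ T}, Ioc c (q : ℝ) := by
      ext x
      simp only [mem_iUnion, mem_ofPred_eq, mem_Ioc, exists_prop]
      constructor
      · intro hx
        obtain ⟨y, hy, hxy⟩ := hmax x hx
        obtain ⟨q, hq1, hq2⟩ := exists_rat_btwn hxy
        exact ⟨q, hT' y hy q ((hT x hx).trans hq1) hq2.le, hT x hx, hq1.le⟩
      · rintro ⟨q, hq, h2, h3⟩
        exact hT' q hq x h2 h3
    have h2 : μ T = ⨆ q ∈ {q : ℚ | (q : ℝ) ∈ T}, μ (Ioc c (q : ℝ)) := by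
      conv_lhs => rw [h1]
      apply measure_biUnion_eq_iSup (to_countable _)
      intro q hq q' hq'
      rcases le_total q q' with h | h
      · exact ⟨q', hq', Ioc_subset_Ioc_right (by exact_mod_cast h), subset_rfl⟩
      · exact ⟨q, hq, subset_rfl, Ioc_subset_Ioc_right (by exact_mod_cast h)⟩
    rw [h2]
    refine iSup₂_le fun q hq => ?_
    exact le_iSup₂ (f := fun x _ => μ (Ioc c x)) (q : ℝ) hq

private lemma rp_Ioc {μ : Measure ℝ} {x y α β : ℝ} (hα : 0 ≤ α) (hx : μ (Iic x) = ENNReal.ofReal α)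
    (hy : μ (Iic y) = ENNReal.ofReal β) (hxy : x ≤ y) : μ (Ioc x y) = ENNReal.ofReal (β - α) := by
  have e : Ioc x y = Iic y \ Iic x := by
    ext z
    simp only [mem_Ioc, Set.mem_sdiff, mem_Iic, not_le]
    tauto
  rw [e, measure_sdiff (Iic_subset_Iic.2 hxy) measurableSet_Iic.nullMeasurableSet
    (by rw [hx]; exact ENNReal.ofReal_ne_top), hx, hy, ENNReal.ofReal_sub _ hα]

/-! ### the distribution function -/

private lemma rp_loc (ρ : ℝ) {N : ℝ → ℝ} (hN : DensOK N) (a b : ℝ) :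
    IntervalIntegrable (fun x => N x * Real.exp (ρ * x)) volume a b := by
  obtain ⟨C, hC⟩ := hN.sup 1 one_pos
  rw [intervalIntegrable_iff]
  refine Measure.integrableOn_of_bounded (M := Real.exp (|C| * Real.exp (|a| + |b|)) *
    Real.exp (|ρ| * (|a| + |b|))) ?_ ?_ ?_
  · rw [uIoc, Real.volume_Ioc]
    exact ENNReal.ofReal_ne_top
  · exact (hN.meas.mul (by fun_prop)).aestronglyMeasurable
  · refine (ae_restrict_mem measurableSet_uIoc).mono fun x hx => ?_
    rw [Real.norm_eq_abs, abs_of_nonneg (mul_nonneg (hN.nonneg x) (Real.exp_pos _).le)]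
    have hxb : x ≤ |a| + |b| := by
      have h1 := hx.2
      rcases max_cases a b with h | h
      · rw [h.1] at h1
        linarith [le_abs_self a, abs_nonneg b]
      · rw [h.1] at h1
        linarith [le_abs_self b, abs_nonneg a]
    rcases le_or_gt x 0 with h0 | h0
    · rw [hN.zero x h0, zero_mul]
      positivity
    · have h1 : N x ≤ Real.exp (|C| * Real.exp (|a| + |b|)) := by
        refine (hC x h0.le).trans (Real.exp_le_exp.2 ?_)
        rw [one_mul]
        have h2 : Real.exp x ≤ Real.exp (|a| + |b|) := Real.exp_le_exp.2 hxb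
        calc C * Real.exp x ≤ |C| * Real.exp x :=
              mul_le_mul_of_nonneg_right (le_abs_self C) (Real.exp_pos _).le
          _ ≤ |C| * Real.exp (|a| + |b|) := mul_le_mul_of_nonneg_left h2 (abs_nonneg C)
      have h3 : Real.exp (ρ * x) ≤ Real.exp (|ρ| * (|a| + |b|)) := by
        refine Real.exp_le_exp.2 ?_
        calc ρ * x ≤ |ρ| * x := mul_le_mul_of_nonneg_right (le_abs_self ρ) h0.le
          _ ≤ |ρ| * (|a| + |b|) := mul_le_mul_of_nonneg_left hxb (abs_nonneg ρ)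
      exact mul_le_mul h1 h3 (Real.exp_pos _).le (Real.exp_pos _).le

private noncomputable def rpQ (ρ : ℝ) (N : ℝ → ℝ) (y : ℝ) : ℝ :=
  ∫ x in (0 : ℝ)..y, N x * Real.exp (ρ * x)

private lemma rpQ_cont (ρ : ℝ) {N : ℝ → ℝ} (hN : DensOK N) : Continuous (rpQ ρ N) :=
  intervalIntegral.continuous_primitive (fun a b => rp_loc ρ hN a b) 0

private lemma rpQ_mono (ρ : ℝ) {N : ℝ → ℝ} (hN : DensOK N) : Monotone (rpQ ρ N) := by
  intro a b hab
  have h1 : rpQ ρ N b - rpQ ρ N a = ∫ x in a..b, N x * Real.exp (ρ * x) := by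
    unfold rpQ
    exact intervalIntegral.integral_interval_sub_left (rp_loc ρ hN _ _) (rp_loc ρ hN _ _)
  have h2 : 0 ≤ ∫ x in a..b, N x * Real.exp (ρ * x) :=
    intervalIntegral.integral_nonneg hab fun x _ => mul_nonneg (hN.nonneg x) (Real.exp_pos _).le
  linarith

private lemma rpQ_zero (ρ : ℝ) {N : ℝ → ℝ} (hN : DensOK N) {y : ℝ} (hy : y ≤ 0) :
    rpQ ρ N y = 0 := by
  unfold rpQ
  rw [intervalIntegral.integral_symm]
  have : ∫ x in y..0, N x * Real.exp (ρ * x) = ∫ x in y..0, (0 : ℝ) := by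
    apply intervalIntegral.integral_congr
    intro x hx
    rw [uIcc_of_le hy] at hx
    simp only
    rw [hN.zero x hx.2, zero_mul]
  rw [this]
  simp

private lemma rpQ_nonneg (ρ : ℝ) {N : ℝ → ℝ} (hN : DensOK N) (y : ℝ) : 0 ≤ rpQ ρ N y := by
  rcases le_total y 0 with h | h
  · rw [rpQ_zero ρ hN h]
  · have := rpQ_mono ρ hN h
    rwa [rpQ_zero ρ hN le_rfl] at this

private lemma dens_Iic' (ρ : ℝ) {N : ℝ → ℝ} (hN : DensOK N) {t : ℝ} (ht : 0 < t) :
    dens ρ N (Iic t) = ENNReal.ofReal (rpQ ρ N (Real.log t)) := by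
  rcases le_or_gt t 1 with h | h
  · rw [measure_mono_null (Iic_subset_Iic.2 h) (dens_Iic_one ρ N),
      rpQ_zero ρ hN (Real.log_nonpos ht.le h), ENNReal.ofReal_zero]
  · have hl : 0 < Real.log t := Real.log_pos h
    have h1 := dens_lintegral ρ hN (g := (Iic t).indicator 1)
      (measurable_one.indicator measurableSet_Iic)
    rw [lintegral_indicator_one measurableSet_Iic] at h1
    rw [h1]
    have h2 : ∀ y ∈ Ioi (0 : ℝ), (Iic t).indicator (1 : ℝ → ENNReal) (Real.exp y) *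
        ENNReal.ofReal (N y * Real.exp (ρ * y)) =
        (Iic (Real.log t)).indicator (fun y => ENNReal.ofReal (N y * Real.exp (ρ * y))) y := by
      intro y _
      by_cases hy : y ≤ Real.log t
      · rw [indicator_of_mem (show Real.exp y ∈ Iic t from
          (Real.le_log_iff_exp_le (by linarith)).1 hy), indicator_of_mem (show y ∈ Iic _ from hy)]
        simp
      · rw [indicator_of_notMem (show Real.exp y ∉ Iic t from fun hc => hy
          ((Real.le_log_iff_exp_le (by linarith)).2 hc)), indicator_of_notMem (show y ∉ Iic _ from hy)]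
        simp
    rw [setLIntegral_congr_fun measurableSet_Ioi h2, lintegral_indicator measurableSet_Iic,
      Measure.restrict_restrict measurableSet_Iic]
    have h3 : Iic (Real.log t) ∩ Ioi 0 = Ioc 0 (Real.log t) := by
      ext y
      simp only [mem_inter_iff, mem_Iic, mem_Ioi, mem_Ioc]
      tauto
    rw [h3]
    unfold rpQ
    rw [intervalIntegral.integral_of_le hl.le, ofReal_integral_eq_lintegral_ofReal]
    · exact (intervalIntegrable_iff_integrableOn_Ioc_of_le hl.le).1 (rp_loc ρ hN _ _)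
    · exact Eventually.of_forall fun y => mul_nonneg (hN.nonneg y) (Real.exp_pos _).le

private lemma rpQ_top {ρ : ℝ} (hρ : 0 < ρ) {N : ℝ → ℝ} (hN : DensOK N) (B : ℝ) :
    ∃ y, B ≤ rpQ ρ N y := by
  by_contra hcon
  push Not at hcon
  have h1 := dens_univ hρ hN
  have h2 : dens ρ N univ ≤ ENNReal.ofReal B := by
    have e : (univ : Set ℝ) = ⋃ n : ℕ, Iic ((n : ℝ) + 1) := by
      ext x
      simp only [mem_univ, mem_iUnion, mem_Iic, true_iff]
      obtain ⟨n, hn⟩ := exists_nat_ge x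
      exact ⟨n, by linarith⟩
    have hd : Monotone fun n : ℕ => Iic ((n : ℝ) + 1) := by
      intro m n hmn
      apply Iic_subset_Iic.2
      have : (m : ℝ) ≤ n := by exact_mod_cast hmn
      linarith
    rw [e, hd.measure_iUnion]
    refine iSup_le fun n => ?_
    rw [dens_Iic' ρ hN (by positivity)]
    exact ENNReal.ofReal_le_ofReal (hcon _).le
  rw [h1] at h2
  exact absurd h2 (not_le.2 ENNReal.ofReal_lt_top)

/-! ### comparison of the measures -/

/-- left part: an antitone function on `(0, u]` -/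
private lemma rp_left {μ ν : Measure ℝ} {φ : ℝ → ℝ} (hφ : Measurable φ) {u : ℝ}
    (hanti : ∀ x y, 0 < x → x ≤ y → y ≤ u → φ y ≤ φ x)
    (hle : ∀ x, 0 < x → x ≤ u → μ (Ioc 0 x) ≤ ν (Ioc 0 x)) :
    ∫⁻ t in Ioc 0 u, ENNReal.ofReal (φ t - φ u) ∂μ ≤
      ∫⁻ t in Ioc 0 u, ENNReal.ofReal (φ t - φ u) ∂ν := by
  have hm : Measurable fun t => φ t - φ u := hφ.sub_const _
  have hnn : ∀ κ : Measure ℝ, 0 ≤ᵐ[κ.restrict (Ioc 0 u)] fun t => φ t - φ u := by
    intro κ
    refine (ae_restrict_mem measurableSet_Ioc).mono fun t ht => ?_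
    exact sub_nonneg.2 (hanti t u ht.1 ht.2 le_rfl)
  rw [lintegral_eq_lintegral_meas_lt _ (hnn μ) hm.aemeasurable,
    lintegral_eq_lintegral_meas_lt _ (hnn ν) hm.aemeasurable]
  refine lintegral_mono fun lam => ?_
  have hms : MeasurableSet {t | lam < φ t - φ u} := measurableSet_lt measurable_const hm
  rw [Measure.restrict_apply hms, Measure.restrict_apply hms]
  refine (seg_sup (c := 0) (fun x hx => hx.2.1) ?_).trans ?_
  · rintro x ⟨hx1, hx2⟩ y hy hyx
    have hx1' : lam < φ x - φ u := hx1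
    refine ⟨?_, hy, hyx.trans hx2.2⟩
    show lam < φ y - φ u
    have := hanti y x hy hyx hx2.2
    linarith
  · refine iSup₂_le fun x hx => (hle x hx.2.1 hx.2.2).trans (measure_mono fun y hy => ?_)
    have hx1' : lam < φ x - φ u := hx.1
    refine ⟨?_, hy.1, hy.2.trans hx.2.2⟩
    show lam < φ y - φ u
    have := hanti y x hy.1 hy.2 hx.2.2
    linarith

/-- right part: `ψ` antitone and nonnegative on `(r, ∞)` -/
private lemma rp_right {μ ν : Measure ℝ} {ψ : ℝ → ℝ} (hψ : Measurable ψ) {r v : ℝ} (hrv : r ≤ v)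
    (hnn : ∀ x, r < x → 0 ≤ ψ x) (hanti : ∀ x y, r < x → x ≤ y → ψ y ≤ ψ x)
    (hle : ∀ x, v < x → ν (Ioc v x) ≤ μ (Ioc r x)) :
    ∫⁻ t in Ioi v, ENNReal.ofReal (ψ t) ∂ν ≤ ∫⁻ t in Ioi r, ENNReal.ofReal (ψ t) ∂μ := by
  have h1 : ∀ (κ : Measure ℝ) (c : ℝ), r ≤ c → 0 ≤ᵐ[κ.restrict (Ioi c)] ψ := by
    intro κ c hc
    refine (ae_restrict_mem measurableSet_Ioi).mono fun t ht => ?_
    exact hnn t (lt_of_le_of_lt hc ht)
  rw [lintegral_eq_lintegral_meas_lt _ (h1 ν v hrv) hψ.aemeasurable,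
    lintegral_eq_lintegral_meas_lt _ (h1 μ r le_rfl) hψ.aemeasurable]
  refine lintegral_mono fun lam => ?_
  have hms : MeasurableSet {t | lam < ψ t} := measurableSet_lt measurable_const hψ
  rw [Measure.restrict_apply hms, Measure.restrict_apply hms]
  refine (seg_sup (c := v) (fun x hx => hx.2) ?_).trans ?_
  · rintro x ⟨hx1, hx2⟩ y hy hyx
    exact ⟨lt_of_lt_of_le hx1 (hanti y x (lt_of_le_of_lt hrv hy) hyx), hy⟩
  · refine iSup₂_le fun x hx => (hle x hx.2).trans (measure_mono fun y hy => ?_)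
    exact ⟨lt_of_lt_of_le hx.1 (hanti y x hy.1 hy.2), hy.1⟩

private lemma rp_conv_left {κ : Measure ℝ} {φ : ℝ → ℝ} (hi : Integrable φ κ) {u : ℝ} {m : ℝ}
    (hm : 0 ≤ m) (hκ : κ (Ioc 0 u) = ENNReal.ofReal m)
    (hanti : ∀ x y, 0 < x → x ≤ y → y ≤ u → φ y ≤ φ x) :
    ∫⁻ t in Ioc 0 u, ENNReal.ofReal (φ t - φ u) ∂κ < ⊤ ∧
    ∫ t in Ioc 0 u, φ t ∂κ =
      (∫⁻ t in Ioc 0 u, ENNReal.ofReal (φ t - φ u) ∂κ).toReal + m * φ u := by
  have hfin : κ (Ioc 0 u) ≠ ⊤ := by rw [hκ]; exact ENNReal.ofReal_ne_top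
  have hnn : 0 ≤ᵐ[κ.restrict (Ioc 0 u)] fun t => φ t - φ u := by
    refine (ae_restrict_mem measurableSet_Ioc).mono fun t ht => ?_
    exact sub_nonneg.2 (hanti t u ht.1 ht.2 le_rfl)
  have hc : Integrable (fun _ : ℝ => φ u) (κ.restrict (Ioc 0 u)) :=
    (integrableOn_const (μ := κ) (C := φ u) hfin : IntegrableOn _ (Ioc 0 u) κ)
  have hi2 : Integrable (fun t => φ t - φ u) (κ.restrict (Ioc 0 u)) := hi.restrict.sub hc
  have h1 : ∫ t in Ioc 0 u, (φ t - φ u) ∂κ =
      (∫⁻ t in Ioc 0 u, ENNReal.ofReal (φ t - φ u) ∂κ).toReal :=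
    integral_eq_lintegral_of_nonneg_ae hnn hi2.aestronglyMeasurable
  have h2 : ∫ t in Ioc 0 u, (φ t - φ u) ∂κ = (∫ t in Ioc 0 u, φ t ∂κ) - m * φ u := by
    rw [integral_sub hi.restrict hc, setIntegral_const, measureReal_def, hκ,
      ENNReal.toReal_ofReal hm, smul_eq_mul]
  refine ⟨?_, by rw [← h1, h2]; ring⟩
  have h3 := (hasFiniteIntegral_iff_ofReal hnn).1 hi2.hasFiniteIntegral
  exact h3

private lemma rp_conv_right {κ : Measure ℝ} {φ : ℝ → ℝ} (hi : Integrable φ κ) {c : ℝ}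
    (hnp : ∀ x, c < x → φ x ≤ 0) :
    ∫⁻ t in Ioi c, ENNReal.ofReal (-φ t) ∂κ < ⊤ ∧
    ∫ t in Ioi c, φ t ∂κ = -(∫⁻ t in Ioi c, ENNReal.ofReal (-φ t) ∂κ).toReal := by
  have hnn : 0 ≤ᵐ[κ.restrict (Ioi c)] fun t => -φ t := by
    refine (ae_restrict_mem measurableSet_Ioi).mono fun t ht => ?_
    exact neg_nonneg.2 (hnp t ht)
  have hi2 : Integrable (fun t => -φ t) (κ.restrict (Ioi c)) := hi.restrict.neg
  have h1 : ∫ t in Ioi c, (-φ t) ∂κ = (∫⁻ t in Ioi c, ENNReal.ofReal (-φ t) ∂κ).toReal :=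
    integral_eq_lintegral_of_nonneg_ae hnn hi2.aestronglyMeasurable
  refine ⟨(hasFiniteIntegral_iff_ofReal hnn).1 hi2.hasFiniteIntegral, ?_⟩
  rw [← h1, integral_neg, neg_neg]

lemma sum_le_pi {ρ : ℝ} (hρ : 0 < ρ) (hint : ¬ ∃ n : ℕ, ρ = n) {N : ℝ → ℝ} (hN : DensOK N)
    {a : ℕ → ℝ} {f : ℂ → ℂ} (hf : CanonP ρ N a f) {r : ℝ} (hr : 0 < r) (hr' : ∀ k, a k ≠ r) :
    ∃ u v : ℝ, u ≤ r ∧ r ≤ v ∧ dens ρ N (Ioc u v) ≤ 1 ∧
      (∑' k, ker ⌊ρ⌋₊ (-(r : ℂ)) (a k)) ≤ (∫ t, ker ⌊ρ⌋₊ (-(r : ℂ)) t ∂(dens ρ N)) -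
        ∫ t in Ioc u v, ker ⌊ρ⌋₊ (-(r : ℂ)) t ∂(dens ρ N) := by
  classical
  set φ : ℝ → ℝ := fun t => ker ⌊ρ⌋₊ (-(r : ℂ)) t with hφ
  have hφm : Measurable φ := rp_meas _ _
  set ν := dens ρ N with hν
  set D := diracs a with hD
  set F : ℝ → ℝ := fun t => rpQ ρ N (Real.log t) with hF
  have hνF : ∀ t, 0 < t → ν (Iic t) = ENNReal.ofReal (F t) := fun t ht => dens_Iic' ρ hN ht
  have hF0 : ∀ t, 0 ≤ F t := fun t => rpQ_nonneg ρ hN _
  have hFmono : ∀ x y, 0 < x → x ≤ y → F x ≤ F y := fun x y hx hxy =>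
    rpQ_mono ρ hN (Real.log_le_log hx hxy)
  have hDF : ∀ t, 0 < t → D (Iic t) = ENNReal.ofReal ((⌊F t⌋₊ : ℕ) : ℝ) := by
    intro t ht
    have h1 := hf.cnt t
    rw [← hν, hνF t ht, ENNReal.toReal_ofReal (hF0 t)] at h1
    rw [hD, h1, ENNReal.ofReal_natCast]
  have hν0 : ν (Iic 0) = 0 :=
    measure_mono_null (Iic_subset_Iic.2 zero_le_one) (dens_Iic_one ρ N)
  have hD0 : D (Iic 0) = 0 := by
    have h1 := hf.cnt 0
    rw [← hν, hν0] at h1
    rw [hD, h1]
    simp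
  have hDr : D {r} = 0 := by
    rw [hD]
    unfold diracs
    rw [Measure.sum_apply _ (measurableSet_singleton r)]
    simp [hr']
  set m : ℕ := ⌊F r⌋₊ with hm
  have hmF : (m : ℝ) ≤ F r := Nat.floor_le (hF0 r)
  have hFm : F r < m + 1 := Nat.lt_floor_add_one _
  have hFc : ContinuousOn F (Ioi 0) := by
    intro x hx
    exact ((rpQ_cont ρ hN).continuousAt.comp
      (Real.continuousAt_log (ne_of_gt hx))).continuousWithinAt
  -- the point `u`
  obtain ⟨u, hu0, hur, huF⟩ : ∃ u, 0 < u ∧ u < r ∧ F u = m := by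
    rcases eq_or_lt_of_le hmF with h | h
    · rcases Nat.eq_zero_or_pos m with h0 | h0
      · refine ⟨r / 2, by linarith, by linarith, ?_⟩
        have h1 := hFmono (r / 2) r (by linarith) (by linarith)
        rw [← h, h0, Nat.cast_zero] at h1
        rw [h0, Nat.cast_zero]
        exact le_antisymm h1 (hF0 _)
      · by_contra hcon
        push Not at hcon
        have hlt : ∀ x, 0 < x → x < r → ⌊F x⌋₊ ≤ m - 1 := by
          intro x hx hxr
          have h1 := hFmono x r hx hxr.le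
          rw [← h] at h1
          have h2 : F x < m := lt_of_le_of_ne h1 (hcon x hx hxr)
          have h3 : ⌊F x⌋₊ < m := (Nat.floor_lt (hF0 x)).2 h2
          omega
        have h1 : D (Ioo 0 r) ≤ ENNReal.ofReal ((m - 1 : ℕ) : ℝ) := by
          refine (seg_sup (μ := D) (T := Ioo 0 r) (c := 0) (fun x hx => hx.1)
            (fun x hx y hy hyx => ⟨hy, lt_of_le_of_lt hyx hx.2⟩)).trans ?_
          refine iSup₂_le fun x hx => ?_
          refine (measure_mono Ioc_subset_Iic_self).trans ?_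
          rw [hDF x hx.1]
          apply ENNReal.ofReal_le_ofReal
          exact_mod_cast hlt x hx.1 hx.2
        have h2 : D (Iic r) ≤ D (Iic 0) + D (Ioo 0 r) + D {r} := by
          refine (measure_mono (t := (Iic 0 ∪ Ioo 0 r) ∪ {r}) fun y hy => ?_).trans
            ((measure_union_le _ _).trans (add_le_add (measure_union_le _ _) le_rfl))
          rcases le_or_gt y 0 with h3 | h3
          · exact Or.inl (Or.inl h3)
          · rcases eq_or_lt_of_le (show y ≤ r from hy) with h4 | h4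
            · exact Or.inr h4
            · exact Or.inl (Or.inr ⟨h3, h4⟩)
        rw [hDF r hr, hD0, hDr, zero_add, add_zero] at h2
        have h3 := h2.trans h1
        rw [ENNReal.ofReal_le_ofReal_iff (by positivity)] at h3
        have h4 : ⌊F r⌋₊ ≤ m - 1 := by exact_mod_cast h3
        omega
    · have hx0 : 0 < min (r / 2) 1 := lt_min (by linarith) one_pos
      have hx1 : min (r / 2) 1 ≤ r := (min_le_left _ _).trans (by linarith)
      have h1 : F (min (r / 2) 1) = 0 := by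
        apply rpQ_zero ρ hN
        exact Real.log_nonpos hx0.le (min_le_right _ _)
      have h2 := intermediate_value_Icc hx1
        (hFc.mono fun x hx => lt_of_lt_of_le hx0 hx.1)
      have h3 : (m : ℝ) ∈ Icc (F (min (r / 2) 1)) (F r) := ⟨by rw [h1]; positivity, hmF⟩
      obtain ⟨u, hu, huF⟩ := h2 h3
      refine ⟨u, lt_of_lt_of_le hx0 hu.1, lt_of_le_of_ne hu.2 fun h4 => ?_, huF⟩
      rw [h4] at huF
      linarith
  -- the point `v`
  obtain ⟨v, hrv, hvF⟩ : ∃ v, r ≤ v ∧ F v = m + 1 := by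
    obtain ⟨y, hy⟩ := rpQ_top hρ hN ((m : ℝ) + 1)
    have hb : r ≤ Real.exp (max y (Real.log r)) := by
      rw [← Real.log_le_iff_le_exp hr]
      exact le_max_right _ _
    have h1 : (m : ℝ) + 1 ≤ F (Real.exp (max y (Real.log r))) := by
      show _ ≤ rpQ ρ N (Real.log (Real.exp _))
      rw [Real.log_exp]
      exact hy.trans (rpQ_mono ρ hN (le_max_left _ _))
    have h2 := intermediate_value_Icc hb (hFc.mono fun x hx => lt_of_lt_of_le hr hx.1)
    obtain ⟨v, hv, hvF⟩ := h2 (show (m : ℝ) + 1 ∈ Icc _ _ from ⟨hFm.le, h1⟩)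
    exact ⟨v, hv.1, hvF⟩
  have hv0 : 0 < v := lt_of_lt_of_le hr hrv
  have huv : u ≤ v := hur.le.trans hrv
  have hm0 : (0 : ℝ) ≤ m := Nat.cast_nonneg _
  -- the integrals
  have hiν : Integrable φ ν := by
    have h1 := (dens_ker hρ hint (θ := Real.pi) ⟨Real.pi_pos.le, le_rfl⟩ hN (Real.log r)).1
    rw [Real.exp_log hr, Complex.exp_pi_mul_I] at h1
    have h2 : (r : ℂ) * -1 = -(r : ℂ) := by ring
    rw [h2] at h1
    exact h1
  have hne : f (-(r : ℂ)) ≠ 0 := by
    intro h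
    obtain ⟨k, hk⟩ := (hf.zero_iff _).1 h
    apply hr' k
    have h1 : (r : ℂ) = (a k : ℂ) := neg_injective hk
    exact_mod_cast h1.symm
  have hsum : Summable fun k => φ (a k) := (hf.log _ hne).1
  have hiD : Integrable φ D := by
    refine ⟨hφm.aestronglyMeasurable, ?_⟩
    rw [hasFiniteIntegral_iff_enorm, hD, suff_lintegral_diracs a hφm.enorm]
    have h1 := hsum.abs.tsum_ofReal_lt_top
    refine lt_of_eq_of_lt ?_ h1
    refine tsum_congr fun k => ?_
    rw [Real.enorm_eq_ofReal_abs]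
  have hDsum : ∫ t, φ t ∂D = ∑' k, φ (a k) := suff_integral_diracs a hiD
  have hantiL : ∀ x y, 0 < x → x ≤ y → y ≤ u → φ y ≤ φ x := fun x y hx hxy hy =>
    rp_phi_anti ρ hr hx hxy (lt_of_le_of_lt hy hur)
  have hflu : ⌊F u⌋₊ = m := by rw [huF, Nat.floor_natCast]
  have hD0' : D (Iic 0) = ENNReal.ofReal 0 := by rw [hD0, ENNReal.ofReal_zero]
  have hν0' : ν (Iic 0) = ENNReal.ofReal 0 := by rw [hν0, ENNReal.ofReal_zero]
  have hDu : D (Ioc 0 u) = ENNReal.ofReal m := by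
    rw [rp_Ioc le_rfl hD0' (hDF u hu0) hu0.le, hflu, sub_zero]
  have hνu : ν (Ioc 0 u) = ENNReal.ofReal m := by
    rw [rp_Ioc le_rfl hν0' (hνF u hu0) hu0.le, huF, sub_zero]
  have hDur : D (Ioc u r) = 0 := by
    rw [rp_Ioc (Nat.cast_nonneg _) (hDF u hu0) (hDF r hr) hur.le, hflu, sub_self,
      ENNReal.ofReal_zero]
  obtain ⟨fD, eD⟩ := rp_conv_left hiD hm0 hDu hantiL
  obtain ⟨fν, eν⟩ := rp_conv_left hiν hm0 hνu hantiL
  have hL : ∫ t in Ioc 0 u, φ t ∂D ≤ ∫ t in Ioc 0 u, φ t ∂ν := by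
    rw [eD, eν]
    have h1 := rp_left (μ := D) (ν := ν) hφm hantiL (fun x hx hxu => by
      refine (measure_mono Ioc_subset_Iic_self).trans ?_
      rw [hDF x hx, rp_Ioc le_rfl hν0' (hνF x hx) hx.le, sub_zero]
      exact ENNReal.ofReal_le_ofReal (Nat.floor_le (hF0 x)))
    have h2 := ENNReal.toReal_mono fν.ne h1
    linarith
  obtain ⟨gD, kD⟩ := rp_conv_right hiD (c := r) fun x hx => rp_phi_nonpos ρ hr hx
  obtain ⟨gν, kν⟩ := rp_conv_right hiν (c := v) fun x hx =>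
    rp_phi_nonpos ρ hr (lt_of_le_of_lt hrv hx)
  have hνv : ν (Iic v) = ENNReal.ofReal ((m : ℝ) + 1) := by rw [hνF v hv0, hvF]
  have hR : ∫ t in Ioi r, φ t ∂D ≤ ∫ t in Ioi v, φ t ∂ν := by
    rw [kD, kν]
    have h1 := rp_right (μ := D) (ν := ν) (ψ := fun t => -φ t) hφm.neg hrv
      (fun x hx => neg_nonneg.2 (rp_phi_nonpos ρ hr hx))
      (fun x y hx hxy => neg_le_neg (rp_phi_mono ρ hr hx hxy))
      (fun x hx => by
        rw [rp_Ioc (by positivity) hνv (hνF x (hv0.trans hx)) hx.le,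
          rp_Ioc (Nat.cast_nonneg _) (hDF r hr) (hDF x (hv0.trans hx)) (hrv.trans hx.le)]
        apply ENNReal.ofReal_le_ofReal
        have := Nat.lt_floor_add_one (F x)
        linarith)
    have h2 := ENNReal.toReal_mono gD.ne h1
    linarith
  have hsplit : ∀ (κ : Measure ℝ) (c : ℝ), u ≤ c → κ (Iic 0) = 0 → Integrable φ κ →
      ∫ t, φ t ∂κ = ∫ t in Ioc 0 u, φ t ∂κ + ∫ t in Ioc u c, φ t ∂κ + ∫ t in Ioi c, φ t ∂κ := by
    intro κ c huc hκ hi
    rw [← integral_add_compl (measurableSet_Iic (a := u)) hi, compl_Iic]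
    have e1 : Iic u = Iic 0 ∪ Ioc 0 u := (Iic_union_Ioc_eq_Iic hu0.le).symm
    have e2 : Ioi u = Ioc u c ∪ Ioi c := (Ioc_union_Ioi_eq_Ioi huc).symm
    have h1 : ∫ t in Iic u, φ t ∂κ = ∫ t in Ioc 0 u, φ t ∂κ := by
      rw [e1, setIntegral_union (by
        rw [Set.disjoint_left]
        intro x hx hx'
        exact absurd hx'.1 (not_lt.2 hx)) measurableSet_Ioc hi.integrableOn hi.integrableOn,
        setIntegral_measure_zero _ hκ, zero_add]
    have h2 : ∫ t in Ioi u, φ t ∂κ = ∫ t in Ioc u c, φ t ∂κ + ∫ t in Ioi c, φ t ∂κ := by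
      rw [e2, setIntegral_union (by
        rw [Set.disjoint_left]
        intro x hx hx'
        exact absurd hx.2 (not_le.2 hx')) measurableSet_Ioi hi.integrableOn hi.integrableOn]
    rw [h1, h2]
    ring
  refine ⟨u, v, hur.le, hrv, ?_, ?_⟩
  · rw [rp_Ioc (hF0 u) (hνF u hu0) (hνF v hv0) huv, huF, hvF]
    have : (m : ℝ) + 1 - m = 1 := by ring
    rw [this, ENNReal.ofReal_one]
  · have h1 := hsplit D r hur.le hD0 hiD
    have h2 := hsplit ν v huv hν0 hiν
    rw [setIntegral_measure_zero _ hDur] at h1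
    have h3 : (∑' k, φ (a k)) ≤ (∫ t, φ t ∂ν) - ∫ t in Ioc u v, φ t ∂ν := by
      rw [← hDsum, h1, h2]
      linarith
    exact h3

/-! ### the error -/

private lemma rp_logint {r a : ℝ} (ha : 0 < a) :
    ∫⁻ t in Ioc (r - a) (r + a), ENNReal.ofReal (Real.log a - Real.log (t - r)) =
      ENNReal.ofReal (2 * a) := by
  have hi0 : IntervalIntegrable (fun x => Real.log a - Real.log x) volume (-a) a :=
    intervalIntegrable_const.sub intervalIntegral.intervalIntegrable_log'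
  have hi : IntervalIntegrable (fun t => Real.log a - Real.log (t - r)) volume (r - a) (r + a) := by
    have h := hi0.comp_sub_right r
    rw [show -a + r = r - a by ring, show a + r = r + a by ring] at h
    exact h
  have hle : r - a ≤ r + a := by linarith
  have hne : ∀ᵐ t ∂(volume.restrict (Ioc (r - a) (r + a))), t ≠ r := by
    apply ae_restrict_of_ae
    rw [ae_iff]
    simp
  have hnn : 0 ≤ᵐ[volume.restrict (Ioc (r - a) (r + a))]
      fun t => Real.log a - Real.log (t - r) := by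
    filter_upwards [ae_restrict_mem measurableSet_Ioc, hne] with t ht htr
    have h1 : 0 < |t - r| := abs_pos.2 (sub_ne_zero.2 htr)
    have h2 : |t - r| ≤ a := abs_le.2 ⟨by linarith [ht.1], by linarith [ht.2]⟩
    have h3 := Real.log_le_log h1 h2
    rw [Real.log_abs] at h3
    exact sub_nonneg.2 h3
  rw [← ofReal_integral_eq_lintegral_ofReal
    ((intervalIntegrable_iff_integrableOn_Ioc_of_le hle).1 hi) hnn,
    ← intervalIntegral.integral_of_le hle,
    intervalIntegral.integral_comp_sub_right (fun x => Real.log a - Real.log x) r]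
  have e : ∫ x in (r - a - r)..(r + a - r), (Real.log a - Real.log x) = 2 * a := by
    rw [show r - a - r = -a by ring, show r + a - r = a by ring,
      intervalIntegral.integral_sub intervalIntegrable_const
        intervalIntegral.intervalIntegrable_log', integral_log, intervalIntegral.integral_const,
      Real.log_neg_eq_log, smul_eq_mul]
    ring
  rw [e]

lemma err_pi {ρ : ℝ} (hρ : 0 < ρ) (hint : ¬ ∃ n : ℕ, ρ = n) {N : ℝ → ℝ} (hN : DensOK N)
    {ε : ℝ} (hε : 0 < ε) : ∃ C, ∀ r : ℝ, 1 ≤ r → ∀ s : Set ℝ, MeasurableSet s →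
      dens ρ N s ≤ 1 → -∫ t in s, ker ⌊ρ⌋₊ (-(r : ℂ)) t ∂(dens ρ N) ≤ C * r ^ ε := by
  obtain ⟨C1, hC1⟩ := hN.sup ε hε
  refine ⟨Real.log 2 + 2 + Real.log 3 + 2 ^ ε * ((1 + ρ) / ε + |C1|), fun r hr s hs hνs => ?_⟩
  have hr0 : 0 < r := by linarith
  set ν := dens ρ N with hν
  set φ : ℝ → ℝ := fun t => ker ⌊ρ⌋₊ (-(r : ℂ)) t with hφ
  have hφm : Measurable φ := rp_meas _ _
  have hiν : Integrable φ ν := by
    have h1 := (dens_ker hρ hint (θ := Real.pi) ⟨Real.pi_pos.le, le_rfl⟩ hN (Real.log r)).1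
    rw [Real.exp_log hr0, Complex.exp_pi_mul_I] at h1
    have h2 : (r : ℂ) * -1 = -(r : ℂ) := by ring
    rw [h2] at h1
    exact h1
  -- the bound of the density
  set S : ℝ := Real.exp (|C1| * (2 * r) ^ ε) * (2 * r) ^ ρ with hS
  have h2r : 1 ≤ 2 * r := by linarith
  have hS1 : 1 ≤ S := by
    have h1 : 1 ≤ Real.exp (|C1| * (2 * r) ^ ε) := Real.one_le_exp (by positivity)
    have h2 : 1 ≤ (2 * r) ^ ρ := Real.one_le_rpow h2r hρ.le
    nlinarith
  set g : ℝ → ENNReal := fun t => ENNReal.ofReal (N (Real.log t) * t ^ (ρ - 1)) with hg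
  have hgm : Measurable g := by
    refine ENNReal.measurable_ofReal.comp ?_
    exact (hN.meas.comp Real.measurable_log).mul (by fun_prop)
  have hgS : ∀ t, 1 < t → t ≤ 2 * r → g t ≤ ENNReal.ofReal S := by
    intro t ht ht2
    have ht0 : 0 < t := by linarith
    apply ENNReal.ofReal_le_ofReal
    have h1 := hC1 (Real.log t) (Real.log_nonneg ht.le)
    have h2 : Real.exp (ε * Real.log t) = t ^ ε := by
      rw [Real.rpow_def_of_pos ht0, mul_comm]
    rw [h2] at h1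
    have h3 : t ^ ε ≤ (2 * r) ^ ε := Real.rpow_le_rpow ht0.le ht2 hε.le
    have h4 : N (Real.log t) ≤ Real.exp (|C1| * (2 * r) ^ ε) := by
      refine h1.trans (Real.exp_le_exp.2 ?_)
      calc C1 * t ^ ε ≤ |C1| * t ^ ε := mul_le_mul_of_nonneg_right (le_abs_self _) (by positivity)
        _ ≤ |C1| * (2 * r) ^ ε := mul_le_mul_of_nonneg_left h3 (abs_nonneg _)
    have h5 : t ^ (ρ - 1) ≤ (2 * r) ^ ρ := by
      calc t ^ (ρ - 1) ≤ t ^ ρ := Real.rpow_le_rpow_of_exponent_le ht.le (by linarith)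
        _ ≤ (2 * r) ^ ρ := Real.rpow_le_rpow ht0.le ht2 hρ.le
    exact mul_le_mul h4 h5 (by positivity) (Real.exp_pos _).le
  -- the radius
  set lam : ℝ := 1 / (2 + S * r) with hlam
  have hSr : 1 ≤ S * r := by nlinarith
  have hlam0 : 0 < lam := by positivity
  have hlam1 : lam ≤ 1 / 3 := by
    rw [hlam]
    apply one_div_le_one_div_of_le (by norm_num)
    linarith
  set a : ℝ := lam * r with ha
  have ha0 : 0 < a := by positivity
  have har : a ≤ r := by rw [ha]; nlinarith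
  have hllam : Real.log (1 / lam) = Real.log (2 + S * r) := by
    rw [hlam, one_div_one_div]
  have hll0 : 0 ≤ Real.log (2 + S * r) := Real.log_nonneg (by linarith)
  have hlog2 : 0 < Real.log 2 := Real.log_pos (by norm_num)
  set k : ℝ → ENNReal := (Ioc (r - a) (r + a)).indicator
    (fun t => ENNReal.ofReal (Real.log a - Real.log (t - r))) with hk
  have hkm : Measurable k := by
    refine Measurable.indicator ?_ measurableSet_Ioc
    exact ENNReal.measurable_ofReal.comp (measurable_const.sub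
      (Real.measurable_log.comp (measurable_id.sub_const r)))
  -- pointwise bound
  have hpt : ∀ t, 0 < t → t ≠ r →
      ENNReal.ofReal (-φ t) ≤ ENNReal.ofReal (Real.log 2 + Real.log (2 + S * r)) + k t := by
    intro t ht htr
    have h1 := rp_low ⌊ρ⌋₊ hr0 ht htr
    have h2 : 0 < |t - r| := abs_pos.2 (sub_ne_zero.2 htr)
    have h3 : -φ t ≤ Real.log t - Real.log |t - r| := by
      rw [Real.log_div h2.ne' ht.ne'] at h1
      show -ker ⌊ρ⌋₊ (-(r : ℂ)) t ≤ _
      linarith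
    by_cases hin : t ∈ Ioc (r - a) (r + a)
    · have h4 : k t = ENNReal.ofReal (Real.log a - Real.log (t - r)) := indicator_of_mem hin _
      rw [h4]
      have h5 : |t - r| ≤ a := abs_le.2 ⟨by linarith [hin.1], by linarith [hin.2]⟩
      have h6 := Real.log_le_log h2 h5
      rw [← ENNReal.ofReal_add (by linarith) (by rw [Real.log_abs] at h6; linarith)]
      apply ENNReal.ofReal_le_ofReal
      have h7 : Real.log t ≤ Real.log 2 + Real.log r := by
        rw [← Real.log_mul (by norm_num) hr0.ne']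
        apply Real.log_le_log ht
        linarith [hin.2]
      have h8 : Real.log a = Real.log r - Real.log (2 + S * r) := by
        rw [ha, Real.log_mul hlam0.ne' hr0.ne', hlam, one_div, Real.log_inv]
        ring
      rw [Real.log_abs] at h3
      linarith
    · have h4 : k t = 0 := indicator_of_notMem hin _
      rw [h4, add_zero]
      apply ENNReal.ofReal_le_ofReal
      have h5 : a ≤ |t - r| := by
        by_contra hcon
        push Not at hcon
        rw [abs_lt] at hcon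
        exact hin ⟨by linarith [hcon.1], by linarith [hcon.2]⟩
      have h8 : Real.log a = Real.log r - Real.log (2 + S * r) := by
        rw [ha, Real.log_mul hlam0.ne' hr0.ne', hlam, one_div, Real.log_inv]
        ring
      have h6 := Real.log_le_log ha0 h5
      rcases le_or_gt t (2 * r) with h9 | h9
      · have h7 : Real.log t ≤ Real.log 2 + Real.log r := by
          rw [← Real.log_mul (by norm_num) hr0.ne']
          exact Real.log_le_log ht h9
        linarith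
      · have h7 : Real.log t ≤ Real.log 2 + Real.log |t - r| := by
          rw [← Real.log_mul (by norm_num) h2.ne']
          apply Real.log_le_log ht
          rw [abs_of_pos (by linarith)]
          linarith
        linarith
  -- the set of exceptional points
  have hae : ∀ᵐ t ∂(ν.restrict s), 0 < t ∧ t ≠ r := by
    apply ae_restrict_of_ae
    refine (withDensity_absolutelyContinuous (volume.restrict (Ioi (1 : ℝ))) g).ae_le ?_
    have h1 : ∀ᵐ t ∂(volume.restrict (Ioi (1 : ℝ))), t ≠ r := by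
      apply ae_restrict_of_ae
      rw [ae_iff]
      simp
    filter_upwards [ae_restrict_mem measurableSet_Ioi, h1] with t ht htr
    exact ⟨zero_lt_one.trans ht, htr⟩
  have hup : ∫⁻ t in s, ENNReal.ofReal (-φ t) ∂ν ≤
      ENNReal.ofReal (Real.log 2 + Real.log (2 + S * r) + 2) := by
    have h1 : ∫⁻ t in s, ENNReal.ofReal (-φ t) ∂ν ≤
        ∫⁻ t in s, (ENNReal.ofReal (Real.log 2 + Real.log (2 + S * r)) + k t) ∂ν :=
      lintegral_mono_ae (hae.mono fun t ht => hpt t ht.1 ht.2)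
    have h2 : ∫⁻ t, k t ∂ν ≤ ENNReal.ofReal 2 := by
      rw [hν]
      unfold dens
      rw [lintegral_withDensity_eq_lintegral_mul _ hgm hkm]
      have h3 : ∫⁻ t in Ioi (1 : ℝ), (g * k) t ≤
          ∫⁻ t in Ioi (1 : ℝ), ENNReal.ofReal S * k t := by
        refine setLIntegral_mono (hkm.const_mul _) fun t ht => ?_
        show g t * k t ≤ _
        by_cases hin : t ∈ Ioc (r - a) (r + a)
        · have h4 := hgS t ht (by linarith [hin.2])
          gcongr
        · have h4 : k t = 0 := indicator_of_notMem hin _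
          rw [h4, mul_zero, mul_zero]
      refine h3.trans ?_
      refine (setLIntegral_le_lintegral _ _).trans ?_
      rw [lintegral_const_mul _ hkm, hk, lintegral_indicator measurableSet_Ioc, rp_logint ha0,
        ← ENNReal.ofReal_mul (by linarith)]
      apply ENNReal.ofReal_le_ofReal
      have h5 : S * a ≤ 1 := by
        rw [ha, hlam, show S * (1 / (2 + S * r) * r) = (S * r) / (2 + S * r) by ring,
          div_le_one (by positivity)]
        linarith
      linarith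
    refine h1.trans ?_
    rw [lintegral_add_left measurable_const, setLIntegral_const]
    have h3 : ENNReal.ofReal (Real.log 2 + Real.log (2 + S * r)) * ν s ≤
        ENNReal.ofReal (Real.log 2 + Real.log (2 + S * r)) * 1 := by gcongr
    have h4 : ∫⁻ t in s, k t ∂ν ≤ ENNReal.ofReal 2 := (setLIntegral_le_lintegral _ _).trans h2
    rw [mul_one] at h3
    refine (add_le_add h3 h4).trans (le_of_eq ?_)
    rw [← ENNReal.ofReal_add (by linarith) (by norm_num)]
  have h1 : -∫ t in s, φ t ∂ν ≤ Real.log 2 + Real.log (2 + S * r) + 2 := by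
    rw [← integral_neg]
    have h2 := integral_eq_lintegral_pos_part_sub_lintegral_neg_part
      (μ := ν.restrict s) (f := fun t => -φ t) hiν.restrict.neg
    rw [h2]
    have h3 : (∫⁻ t in s, ENNReal.ofReal (-φ t) ∂ν).toReal ≤
        Real.log 2 + Real.log (2 + S * r) + 2 :=
      ENNReal.toReal_le_of_le_ofReal (by linarith) hup
    have h4 : 0 ≤ (∫⁻ t in s, ENNReal.ofReal (- -φ t) ∂ν).toReal := ENNReal.toReal_nonneg
    linarith
  refine le_trans h1 ?_
  -- the last estimate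
  have hrε : 1 ≤ r ^ ε := Real.one_le_rpow hr hε.le
  have e1 : (2 * r) ^ ε = 2 ^ ε * r ^ ε := Real.mul_rpow (by norm_num) hr0.le
  have e2 : Real.log (2 * r) ≤ (2 * r) ^ ε / ε := Real.log_le_rpow_div (by linarith) hε
  have e3 : Real.log (2 + S * r) ≤ Real.log 3 + (|C1| * (2 * r) ^ ε + ρ * Real.log (2 * r)) +
      Real.log (2 * r) := by
    have h2 : Real.log (2 + S * r) ≤ Real.log (3 * (S * (2 * r))) := by
      apply Real.log_le_log (by positivity)
      nlinarith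
    refine h2.trans (le_of_eq ?_)
    rw [Real.log_mul (by norm_num) (by positivity), Real.log_mul (by positivity) (by positivity),
      hS, Real.log_mul (Real.exp_pos _).ne' (by positivity), Real.log_exp,
      Real.log_rpow (by linarith)]
    ring
  have e4 : ρ * Real.log (2 * r) ≤ ρ * ((2 * r) ^ ε / ε) := mul_le_mul_of_nonneg_left e2 hρ.le
  have hlog3 : 0 < Real.log 3 := Real.log_pos (by norm_num)
  have e5 : Real.log 2 + Real.log (2 + S * r) + 2 ≤ (Real.log 2 + 2 + Real.log 3) +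
      (2 ^ ε * ((1 + ρ) / ε + |C1|)) * r ^ ε := by
    have e6 : (2 ^ ε * ((1 + ρ) / ε + |C1|)) * r ^ ε =
        (2 * r) ^ ε / ε + ρ * ((2 * r) ^ ε / ε) + |C1| * (2 * r) ^ ε := by
      rw [e1]
      field_simp
    rw [e6]
    linarith
  refine e5.trans ?_
  have e7 : Real.log 2 + 2 + Real.log 3 ≤ (Real.log 2 + 2 + Real.log 3) * r ^ ε := by
    nlinarith
  calc _ ≤ (Real.log 2 + 2 + Real.log 3) * r ^ ε + (2 ^ ε * ((1 + ρ) / ε + |C1|)) * r ^ ε := by
        linarith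
    _ = _ := by ring

theorem canon_pi_le {ρ : ℝ} (hρ : 0 < ρ) (hint : ¬ ∃ n : ℕ, ρ = n) {N : ℝ → ℝ} (hN : DensOK N)
    {a : ℕ → ℝ} {f : ℂ → ℂ} (hf : CanonP ρ N a f) :
    indicatorOf ρ f Real.pi ≤ limsup (fun x : ℝ => ((U ρ Real.pi N x : ℝ) : EReal)) atTop := by
  by_contra hcon
  rw [not_le] at hcon
  obtain ⟨q, hq1, hq2⟩ := EReal.lt_iff_exists_real_btwn.1 hcon
  apply absurd hq2 (not_lt.2 ?_)
  obtain ⟨C, hC⟩ := err_pi hρ hint hN (ε := ρ / 2) (by linarith)
  apply indicatorOf_le_of_eventually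
  intro ε hε
  have h1 := (Real.tendsto_log_atTop).eventually (eventually_lt_of_limsup_lt hq1)
  have h2 : ∀ᶠ r : ℝ in atTop, C * r ^ (ρ / 2) ≤ ε * r ^ ρ := by
    have h3 : Tendsto (fun r : ℝ => C * r ^ (-(ρ / 2))) atTop (𝓝 (C * 0)) :=
      (tendsto_rpow_neg_atTop (by linarith)).const_mul C
    rw [mul_zero] at h3
    filter_upwards [h3.eventually_lt_const hε, eventually_gt_atTop (0 : ℝ)] with r h4 h5
    have h6 : r ^ (ρ / 2) = r ^ (-(ρ / 2)) * r ^ ρ := by
      rw [← Real.rpow_add h5]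
      congr 1
      ring
    rw [h6, ← mul_assoc]
    exact mul_le_mul_of_nonneg_right h4.le (by positivity)
  filter_upwards [h1, h2, eventually_ge_atTop (1 : ℝ)] with r h3 h4 h5
  have hr0 : 0 < r := by linarith
  have e0 : (r : ℂ) * Complex.exp ((Real.pi : ℝ) * Complex.I) = -(r : ℂ) := by
    rw [Complex.exp_pi_mul_I]
    ring
  rw [e0]
  by_cases hz : f (-(r : ℂ)) = 0
  · rw [hz, norm_zero]
    exact (Real.exp_pos _).le
  · rw [← Real.log_le_iff_le_exp (norm_pos_iff.2 hz)]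
    have hr' : ∀ k, a k ≠ r := by
      intro k hk
      apply hz
      rw [hf.zero_iff]
      exact ⟨k, by rw [hk]⟩
    obtain ⟨u, v, -, -, h6, h7⟩ := sum_le_pi hρ hint hN hf hr0 hr'
    have h8 := hC r h5 (Ioc u v) measurableSet_Ioc h6
    have h9 := (dens_ker hρ hint (θ := Real.pi) ⟨Real.pi_pos.le, le_rfl⟩ hN (Real.log r)).2
    rw [Real.exp_log hr0, e0] at h9
    rw [(hf.log _ hz).2]
    have h10 : Real.exp (ρ * Real.log r) = r ^ ρ := by
      rw [Real.rpow_def_of_pos hr0, mul_comm]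
    rw [h10] at h9
    have h11 : U ρ Real.pi N (Real.log r) < q := by exact_mod_cast h3
    have h12 : r ^ ρ * U ρ Real.pi N (Real.log r) ≤ r ^ ρ * q :=
      mul_le_mul_of_nonneg_left h11.le (by positivity)
    calc _ ≤ _ := h7
      _ ≤ r ^ ρ * q + C * r ^ (ρ / 2) := by rw [h9]; linarith
      _ ≤ (q + ε) * r ^ ρ := by linarith

end Helper25.Ind
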