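import Pool.Agent.Helper25.Ind2.PatchA
import Pool.Agent.Helper25.Ind2.ConcA
import Pool.Agent.Helper25.Ind2.Finish

/-!
# IND2 A2: sufficiency, class A

PROOF of `suff_a`. `D` is countable and nonempty (`π ∈ D`): `D = range e`, `e : ℕ → ℝ`. For `v : EReal` put `up v i = -i` if `v = ⊥`, else `v.toReal + 1/(i+1)`; `dn v i = i` if `v = ⊤`, else `v.toReal - 1/(i+1)`. If `v ≠ ⊤`, `v < up v i`; if `v ≠ ⊥`, `dn v i < v`.
Let `d₀ ∈ D` with `h d₀ = ⊤` (`exists_sg_pos`, `dense`, `off`). Stage `i`: `J i = {e 0,…,e i}` filtered by `h ≠ ⊤`, `γ i θ = up (h θ) i`, `τ i = e (Nat.unpair i).1` and `t i = dn (h (τ i)) i` if `h (τ i) ≠ ⊥`, otherwise `τ i = d₀`, `t i = 0`. `patch_a` gives `A₀ i`; `A i = max 1 (A₀ i)`, and `m i`. `conc_a` gives `N`, `X`.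
`limsup_eq_of` for `θ = e k ∈ D`, `v = h θ`. `hup`: let `v < c` real (so `v ≠ ⊤`); choose `ε > 0`, `i₁ ≥ k` with `up v i + ε ≤ c` for all `i ≥ i₁` (if `v = ⊥`: `-i + ε ≤ c`; otherwise `v.toReal + 1/(i+1) + ε ≤ c`), and `ε ≤ 1/i₁`-ish so that `1/ε ≤ i` implies `i ≥ i₁`. For `x ≥ x₀(ε)`: case 1: `U N x ≤ U(A i + m i) x' + ε < γ i θ + ε ≤ c` (`θ ∈ J i`
as `k ≤ i`). Case 2: `cc * ((1-s) A i + s A (i+1)) = (1-s) cc A i + s cc A (i+1) ≤ max (γ i θ) (γ (i+1) θ)`, then add `ε`. `hlow`: `c < v`, so `v ≠ ⊥`; for infinitely many `i`, `(Nat.unpair i).1 = k` (`i = Nat.pair k n`, `n` arbitrary, `i ≥ n`), `t i = dn v i > c + ε` for `i` large and a suitable `ε > 0`, and `U N (X i) ≥ U (A i + m i) 0 - ε > t i - ε ≥ c`; `X i → ∞`.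
-/

open Filter Topology MeasureTheory Set

namespace Helper25.Ind

open Classical in
private noncomputable def up (v : EReal) (i : ℕ) : ℝ :=
  if v = ⊥ then -(i : ℝ) else v.toReal + 1 / ((i : ℝ) + 1)

open Classical in
private noncomputable def dn (v : EReal) (i : ℕ) : ℝ :=
  if v = ⊤ then (i : ℝ) else v.toReal - 1 / ((i : ℝ) + 1)

private lemma lt_up {v : EReal} (hv : v ≠ ⊤) (i : ℕ) : v < ((up v i : ℝ) : EReal) := by
  unfold up
  split_ifs with h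
  · rw [h]; exact EReal.bot_lt_coe _
  · have e : ((v.toReal : ℝ) : EReal) = v := EReal.coe_toReal hv h
    conv_lhs => rw [← e]
    rw [EReal.coe_lt_coe_iff]
    have : (0 : ℝ) < 1 / ((i : ℝ) + 1) := by positivity
    linarith

private lemma dn_lt {v : EReal} (hv : v ≠ ⊥) (i : ℕ) : ((dn v i : ℝ) : EReal) < v := by
  unfold dn
  split_ifs with h
  · rw [h]; exact EReal.coe_lt_top _
  · have e : ((v.toReal : ℝ) : EReal) = v := EReal.coe_toReal h hv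
    conv_rhs => rw [← e]
    rw [EReal.coe_lt_coe_iff]
    have : (0 : ℝ) < 1 / ((i : ℝ) + 1) := by positivity
    linarith

private lemma inv_le_of {δ : ℝ} (hδ : 0 < δ) {i : ℕ} (hi : ⌈1 / δ⌉₊ ≤ i) :
    1 / ((i : ℝ) + 1) ≤ δ := by
  have h1 : 1 / δ ≤ (i : ℝ) := (Nat.le_ceil _).trans (by exact_mod_cast hi)
  rw [div_le_iff₀ (by positivity)]
  rw [div_le_iff₀ hδ] at h1
  nlinarith

private lemma up_ev {v : EReal} {c : ℝ} (hc : v < (c : EReal)) :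
    ∃ δ : ℝ, 0 < δ ∧ ∃ i₁ : ℕ, ∀ i, i₁ ≤ i → up v i + δ ≤ c := by
  unfold up
  split_ifs with h
  · refine ⟨1, one_pos, ⌈1 - c⌉₊, fun i hi => ?_⟩
    have h1 : 1 - c ≤ (i : ℝ) := (Nat.le_ceil _).trans (by exact_mod_cast hi)
    linarith
  · have hv : v ≠ ⊤ := fun e => by rw [e] at hc; exact absurd hc (not_lt.2 le_top)
    have e : ((v.toReal : ℝ) : EReal) = v := EReal.coe_toReal hv h
    rw [← e, EReal.coe_lt_coe_iff] at hc
    refine ⟨(c - v.toReal) / 2, by linarith, ⌈1 / ((c - v.toReal) / 2)⌉₊, fun i hi => ?_⟩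
    have := inv_le_of (by linarith : 0 < (c - v.toReal) / 2) hi
    linarith

private lemma dn_ev {v : EReal} {c : ℝ} (hc : (c : EReal) < v) :
    ∃ δ : ℝ, 0 < δ ∧ ∃ i₁ : ℕ, ∀ i, i₁ ≤ i → c + δ ≤ dn v i := by
  unfold dn
  split_ifs with h
  · refine ⟨1, one_pos, ⌈c + 1⌉₊, fun i hi => ?_⟩
    exact (Nat.le_ceil _).trans (by exact_mod_cast hi)
  · have hv : v ≠ ⊥ := fun e => by rw [e] at hc; exact absurd hc (not_lt.2 bot_le)
    have e : ((v.toReal : ℝ) : EReal) = v := EReal.coe_toReal h hv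
    rw [← e, EReal.coe_lt_coe_iff] at hc
    refine ⟨(v.toReal - c) / 2, by linarith, ⌈1 / ((v.toReal - c) / 2)⌉₊, fun i hi => ?_⟩
    have := inv_le_of (by linarith : 0 < (v.toReal - c) / 2) hi
    linarith

theorem suff_a {ρ : ℝ} (hρ : 0 < ρ) (hint : ¬ ∃ n : ℕ, ρ = n) {h : ℝ → EReal}
    (hh : InfCond ρ h) (hcl : ∀ l, LE ρ l → 0 ≤ h l) {D : Set ℝ} (hD : DSet ρ h D) :
    ∃ N, DensOK N ∧ ∀ θ ∈ D, limsup (fun x : ℝ => ((U ρ θ N x : ℝ) : EReal)) atTop = h θ := by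
  classical
  obtain ⟨e, he⟩ := hD.cnt.exists_eq_range ⟨Real.pi, hD.pi⟩
  have heD : ∀ k, e k ∈ D := fun k => by rw [he]; exact mem_range_self k
  obtain ⟨d₀, hd₀, hd₀t⟩ : ∃ d₀ ∈ D, h d₀ = ⊤ := by
    obtain ⟨a, b, h0, h1, h2, h3⟩ := exists_sg_pos hρ
    obtain ⟨d, hd, h4, h5⟩ := hD.dense a b h0 h1 h2
    exact ⟨d, hd, hh.off d (hD.sub hd) (h3 d h4 h5)⟩
  set J : ℕ → Finset ℝ := fun i => ((Finset.range (i + 1)).image e).filter (fun θ => h θ ≠ ⊤)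
    with hJ
  have hJmem : ∀ i θ, θ ∈ J i → θ ∈ Icc (0 : ℝ) Real.pi ∧ h θ < ((up (h θ) i : ℝ) : EReal) := by
    intro i θ hθ
    rw [hJ] at hθ
    obtain ⟨h1, h2⟩ := Finset.mem_filter.1 hθ
    obtain ⟨k, _, rfl⟩ := Finset.mem_image.1 h1
    exact ⟨hD.sub (heD k), lt_up h2 i⟩
  have hst : ∀ i : ℕ, ∃ (A : ℝ) (m : ℝ → ℝ), 1 ≤ A ∧ (∀ θ ∈ J i, cc ρ 0 θ * A < up (h θ) i) ∧
      Continuous m ∧ HasCompactSupport m ∧ (∀ y, 0 ≤ A + m y) ∧
      (∀ θ ∈ J i, ∀ x, U ρ θ (fun y => A + m y) x < up (h θ) i) ∧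
      (h (e (Nat.unpair i).1) ≠ ⊥ → dn (h (e (Nat.unpair i).1)) i <
        U ρ (e (Nat.unpair i).1) (fun y => A + m y) 0) := by
    intro i
    by_cases hb : h (e (Nat.unpair i).1) ≠ ⊥
    · obtain ⟨A₀, hA₀⟩ := patch_a hρ hint hh hcl (J i) (fun θ => up (h θ) i) (hJmem i)
        (hD.sub (heD (Nat.unpair i).1)) (dn_lt hb i)
      obtain ⟨h1, m, h2, h3, h4, h5, h6⟩ := hA₀ (max 1 A₀) (le_max_right _ _)
      exact ⟨max 1 A₀, m, le_max_left _ _, h1, h2, h3, h4, h5, fun _ => h6⟩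
    · obtain ⟨A₀, hA₀⟩ := patch_a hρ hint hh hcl (J i) (fun θ => up (h θ) i) (hJmem i)
        (hD.sub hd₀) (t := 0) (by rw [hd₀t]; exact EReal.coe_lt_top _)
      obtain ⟨h1, m, h2, h3, h4, h5, _⟩ := hA₀ (max 1 A₀) (le_max_right _ _)
      exact ⟨max 1 A₀, m, le_max_left _ _, h1, h2, h3, h4, h5, fun h' => absurd h' hb⟩
  choose A m hA1 hAc hmc hms hpos hUJ hUt using hst
  obtain ⟨N, X, hN, hX, h1, h2⟩ := conc_a hρ hint A m hA1 hmc hms hpos
  refine ⟨N, hN, fun θ hθ => ?_⟩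
  obtain ⟨k, rfl⟩ : ∃ k, e k = θ := by rw [he] at hθ; exact hθ
  have hθI := hD.sub hθ
  refine limsup_eq_of _ _ ?_ ?_
  · intro c hc
    obtain ⟨δ, hδ, i₁, hi₁⟩ := up_ev hc
    have htop : h (e k) ≠ ⊤ := fun e' => by
      rw [e'] at hc; exact absurd hc (not_lt.2 le_top)
    set n := max i₁ k + 1 with hn
    have hn0 : (0 : ℝ) < n := by rw [hn]; positivity
    set ε := min δ (1 / (n : ℝ)) with hε
    have hε0 : 0 < ε := lt_min hδ (by positivity)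
    obtain ⟨x₀, hx₀⟩ := h1 ε hε0
    refine eventually_atTop.2 ⟨x₀, fun x hx => ?_⟩
    obtain ⟨i, hi, hcase⟩ := hx₀ x hx
    have hni : n ≤ i := by
      have h3 : (n : ℝ) ≤ 1 / ε := by
        rw [le_div_iff₀ hε0]
        calc (n : ℝ) * ε ≤ n * (1 / n) := by
              gcongr
              exact min_le_right _ _
          _ = 1 := by field_simp
      exact_mod_cast h3.trans hi
    have hii : i₁ ≤ i := by omega
    have hki : k ≤ i := by omega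
    have hmem : ∀ j, i ≤ j → e k ∈ J j := by
      intro j hj
      rw [hJ]
      refine Finset.mem_filter.2 ⟨Finset.mem_image.2 ⟨k, ?_, rfl⟩, htop⟩
      rw [Finset.mem_range]; omega
    have hεδ : ε ≤ δ := min_le_left _ _
    rcases hcase with ⟨x', hx'⟩ | ⟨s, hs, hs'⟩
    · have h3 := hx' (e k) hθI
      have h4 := hUJ i (e k) (hmem i le_rfl) x'
      have h5 := hi₁ i hii
      have h6 := (abs_le.1 h3).2
      linarith
    · have h3 := (abs_le.1 (hs' (e k) hθI)).2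
      have h4 := hAc i (e k) (hmem i le_rfl)
      have h5 := hAc (i + 1) (e k) (hmem (i + 1) (by omega))
      have h6 := hi₁ i hii
      have h7 := hi₁ (i + 1) (by omega)
      have h8 : cc ρ 0 (e k) * A i ≤ c - δ := by linarith
      have h9 : cc ρ 0 (e k) * A (i + 1) ≤ c - δ := by linarith
      have h10 : cc ρ 0 (e k) * ((1 - s) * A i + s * A (i + 1)) ≤ c - δ := by
        calc cc ρ 0 (e k) * ((1 - s) * A i + s * A (i + 1)) =
              (1 - s) * (cc ρ 0 (e k) * A i) + s * (cc ρ 0 (e k) * A (i + 1)) := by ring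
          _ ≤ (1 - s) * (c - δ) + s * (c - δ) :=
              add_le_add (mul_le_mul_of_nonneg_left h8 (by linarith [hs.2]))
                (mul_le_mul_of_nonneg_left h9 hs.1)
          _ = c - δ := by ring
      linarith
  · intro c hc
    obtain ⟨δ, hδ, i₁, hi₁⟩ := dn_ev hc
    have hbot : h (e k) ≠ ⊥ := fun e' => by
      rw [e'] at hc; exact absurd hc (not_lt.2 bot_le)
    obtain ⟨i₀, hi₀⟩ := h2 δ hδ
    refine frequently_atTop.2 fun a => ?_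
    obtain ⟨i₂, hi₂⟩ := eventually_atTop.1 (hX.eventually_ge_atTop a)
    set n := max i₀ (max i₁ i₂) with hn
    set i := Nat.pair k n with hi
    have hni : n ≤ i := Nat.right_le_pair _ _
    have hun : (Nat.unpair i).1 = k := by rw [hi, Nat.unpair_pair]
    refine ⟨X i, hi₂ i (by omega), ?_⟩
    have h3 := hUt i
    rw [hun] at h3
    have h4 := h3 hbot
    have h5 := hi₁ i (by omega)
    have h6 := (abs_le.1 (hi₀ i (by omega) (e k) hθI)).1
    linarith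

theorem class_a {ρ : ℝ} (hρ : 0 < ρ) (hint : ¬ ∃ n : ℕ, ρ = n) {h : ℝ → EReal}
    (hh : InfCond ρ h) (hcl : ∀ l, LE ρ l → 0 ≤ h l) :
    ∃ f, IsN ρ f ∧ ∀ θ, indicatorOf ρ f θ = h θ := by
  obtain ⟨D, hD⟩ := exists_dset hρ hint hh.wk
  obtain ⟨N, hN, hlim⟩ := suff_a hρ hint hh hcl hD
  exact finish hρ hint hh.wk hD hN hlim

end Helper25.Ind
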