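import Pool.Agent.Helper25.Ind2.MM

/-!
# IND2 N0: tame measures on the log scale (`N = ∑ a_i^{-ρ} δ_{log a_i}` for `f ∈ N_ρ`)

PROOFS. `ph(s) ≤ C_ε e^{ε s}` for all real `s` and `0 < ε ≤ kp ρ`: for `s ≤ 0` `ph s ≤ e^{kp s} ≤ e^{ε s}` (`ph_le_exp`), for `s ≥ 0` `ph` is bounded (`ph_le_pos` with `κ = 0 < km ρ`).
* `sigmaFinite`, `finite_restrict`: `N (Iic Z) ≤ e^{Z} ∫⁻ e^{-y} dN < ⊤` (`κ = 1`).
* `integrable_ph_sub`: `ph(x-y) ≤ C e^{ε x} e^{-ε y}`.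
* `hat_add`, `hat_sub`: integrate `ph_add_le`, `ph_sub_le`. `hat_le`: `hat x ≤ C e^{ε x} ∫ e^{-ε y} dN` for `ε ≤ kp`; for larger `ε` and `x ≥ 0` use the small one; for `x ≤ 0` `e^{ε|x|} ≥ 1` and `hat x ≤ C ∫ e^{-ε y}`. `hat_left`: for `x ≤ x₀`
  `hat x ≤ C e^{kp x₀} ∫ e^{-kp y} dN`.
* `tail_right`: for `x ≤ Z - 1`: `∫_{y>Z} ph(x-y) dN ≤ C e^{-kp (Z-x)} hat Z` : `x - y = (Z-y) + (x-Z)`, both `≤ 0`: `ph_mul`, `ph_le_exp`.
* `tail_left`: for `x ≥ Z`: `∫_{y≤Z} ph(x-y) dN ≤ C ph(x-Z) hat Z` : `x-y = (x-Z)+(Z-y)`, both `≥ 0`, `ph_mul`.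
* `mass_le_hat`: `N [x-1,x+1] ≤ C hat x` because `ph ≥ c > 0` on `[-1,1]`.
* `integrable_kk_tame`: `θ < π`: `|kk| ≤ C ph` (`abs_kk_le_lt`). `integrable_kk_tame_ae` (all `θ ∈ [0,π]`): for `R > 0`, `∫_{|x|≤R} ∫ |kk(x-y)| dN dx < ∞`: for `|x-y| ≥ 1` use `abs_kk_le_far`; for `|x - y| ≤ 1` the mass of `[-R-1,R+1]` is finite and `∫_{|s|≤1}|kk| < ∞`.
  (Tonelli, `lintegral`.)
* `Um_le`: `kk ≤ C ph` (`kk_le_ph`) -- if the integrand is not integrable then `Um = 0 ≤ C hat`. `abs_Um_le`: `θ ≤ θ₁ < π`.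
* `measurable_Um`: `StronglyMeasurable.integral_prod_right` style (`SigmaFinite N`).
* `tame_fubini`: `T` measurable, `|T x| ≤ B e^{-κ|x|}`, `0 < κ < min(kp,km)`: `∫ |kk(x-y)||T x| dx ≤ B e^{-κ|y|} ∫ |kk(s)| e^{κ|s|} ds` and `∫ e^{-κ|y|} dN < ∞` (`N` vanishes left of `y₀`). `integral_integral_swap`.
-/

open Complex Filter Topology MeasureTheory Set

namespace Helper25.Ind

/-- tame measures on the log scale -/
structure Tame (N : Measure ℝ) : Prop where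
  left : ∃ y₀ : ℝ, N (Iio y₀) = 0
  fin : ∀ κ : ℝ, 0 < κ → ∫⁻ y, ENNReal.ofReal (Real.exp (-(κ * y))) ∂N < ⊤

/-- the envelope of a measure -/
noncomputable def hat (ρ : ℝ) (N : Measure ℝ) (x : ℝ) : ℝ := ∫ y, ph ρ (x - y) ∂N

/-- `Um ≤ A` eventually, almost everywhere -/
def EvLe (ρ : ℝ) (N : Measure ℝ) (θ A : ℝ) : Prop :=
  ∃ x₀ : ℝ, ∀ᵐ x : ℝ, x₀ ≤ x → Um ρ θ N x ≤ A

/-- `Um ≥ B` on sets of positive measure arbitrarily far out -/
def FrGe (ρ : ℝ) (N : Measure ℝ) (θ B : ℝ) : Prop :=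
  ∀ x₀ : ℝ, ¬ ∀ᵐ x : ℝ, x₀ ≤ x → Um ρ θ N x < B

private lemma tm_fin {N : Measure ℝ} (hN : Tame N) (Z : ℝ) : N (Iic Z) < ⊤ := by
  have h := hN.fin 1 one_pos
  have hm : Measurable (fun y : ℝ => ENNReal.ofReal (Real.exp (-(1 * y)))) := by fun_prop
  have h1 := mul_meas_ge_le_lintegral (μ := N) hm (ENNReal.ofReal (Real.exp (-(1 * Z))))
  have hs : Iic Z ⊆ {y : ℝ | ENNReal.ofReal (Real.exp (-(1 * Z))) ≤
      ENNReal.ofReal (Real.exp (-(1 * y)))} := by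
    intro y hy
    apply ENNReal.ofReal_le_ofReal
    apply Real.exp_le_exp.2
    have : y ≤ Z := hy
    linarith
  have h2 := (mul_le_mul_right (measure_mono (μ := N) hs)
    (ENNReal.ofReal (Real.exp (-(1 * Z))))).trans h1
  have h3 := h2.trans_lt h
  have h4 : ENNReal.ofReal (Real.exp (-(1 * Z))) ≠ 0 := by
    have := Real.exp_pos (-(1 * Z))
    simpa using this
  rcases ENNReal.mul_lt_top_iff.1 h3 with h5 | h5 | h5
  · exact h5.2
  · exact absurd h5 h4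
  · rw [h5]; exact ENNReal.zero_lt_top

lemma Tame.sigmaFinite {N : Measure ℝ} (hN : Tame N) : SigmaFinite N := by
  refine ⟨⟨⟨fun n : ℕ => Iic (n : ℝ), fun _ => trivial, fun n => tm_fin hN _, ?_⟩⟩⟩
  refine eq_univ_of_forall fun x => ?_
  obtain ⟨n, hn⟩ := exists_nat_ge x
  exact mem_iUnion.2 ⟨n, hn⟩

lemma Tame.restrict_lt_top {N : Measure ℝ} (hN : Tame N) (Z : ℝ) : N (Iic Z) < ⊤ := tm_fin hN Z

private lemma tm_int {N : Measure ℝ} (hN : Tame N) {κ : ℝ} (hκ : 0 < κ) :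
    Integrable (fun y : ℝ => Real.exp (-(κ * y))) N := by
  refine ⟨(by fun_prop : Measurable (fun y : ℝ => Real.exp (-(κ * y)))).aestronglyMeasurable, ?_⟩
  rw [hasFiniteIntegral_iff_ofReal (Eventually.of_forall fun y => (Real.exp_pos _).le)]
  exact hN.fin κ hκ

private lemma tm_ph {ρ : ℝ} (hρ : 0 < ρ) (hint : ¬ ∃ n : ℕ, ρ = n) {ε : ℝ} (hε : 0 < ε)
    (h : ε ≤ kp ρ) : ∃ C > 0, ∀ s : ℝ, ph ρ s ≤ C * Real.exp (ε * s) := by
  obtain ⟨C, hC, hb⟩ := ph_le_pos ρ (κ := 0) (km_pos hρ hint)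
  refine ⟨C + 1, by positivity, fun s => ?_⟩
  have he := Real.exp_pos (ε * s)
  rcases le_total s 0 with hs | hs
  · have h1 := ph_le_exp ρ s
    have hp : (0 : ℝ) ≤ (⌊ρ⌋₊ : ℝ) := Nat.cast_nonneg _
    have h2 : Real.exp (kp ρ * s) / ((⌊ρ⌋₊ : ℝ) + 1) ≤ Real.exp (kp ρ * s) :=
      div_le_self (Real.exp_pos _).le (by linarith)
    have h3 : Real.exp (kp ρ * s) ≤ Real.exp (ε * s) :=
      Real.exp_le_exp.2 (mul_le_mul_of_nonpos_right h hs)
    nlinarith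
  · have h1 := hb s hs
    have h2 : Real.exp (-(0 * s)) ≤ Real.exp (ε * s) := by
      apply Real.exp_le_exp.2
      have := mul_nonneg hε.le hs
      linarith
    have h3 := mul_le_mul_of_nonneg_left h2 hC.le
    linarith

private lemma tm_mph (ρ x : ℝ) (N : Measure ℝ) :
    AEStronglyMeasurable (fun y : ℝ => ph ρ (x - y)) N :=
  ((continuous_ph ρ).comp (continuous_const.sub continuous_id)).aestronglyMeasurable

private lemma tm_mkk (ρ θ x : ℝ) (N : Measure ℝ) :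
    AEStronglyMeasurable (fun y : ℝ => kk ρ θ (x - y)) N :=
  ((measurable_kk ρ θ).comp (measurable_const.sub measurable_id)).aestronglyMeasurable

private lemma tm_hat {ρ : ℝ} {N : Measure ℝ}
    (hN : Tame N) {ε C : ℝ} (hε : 0 < ε) (hC : 0 < C)
    (hb : ∀ s : ℝ, ph ρ s ≤ C * Real.exp (ε * s)) (x : ℝ) :
    hat ρ N x ≤ C * Real.exp (ε * x) * ∫ y, Real.exp (-(ε * y)) ∂N := by
  unfold hat
  rw [← integral_const_mul]
  refine integral_mono_of_nonneg (Eventually.of_forall fun y => (ph_pos ρ _).le)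
    ((tm_int hN hε).const_mul _) (Eventually.of_forall fun y => ?_)
  have h1 := hb (x - y)
  have h2 : Real.exp (ε * (x - y)) = Real.exp (ε * x) * Real.exp (-(ε * y)) := by
    rw [← Real.exp_add]; congr 1; ring
  rw [h2] at h1
  simp only
  rw [mul_assoc]
  exact h1

lemma integrable_ph_sub {ρ : ℝ} (hρ : 0 < ρ) (hint : ¬ ∃ n : ℕ, ρ = n) {N : Measure ℝ}
    (hN : Tame N) (x : ℝ) : Integrable (fun y => ph ρ (x - y)) N := by
  obtain ⟨C, hC, hb⟩ := tm_ph hρ hint (kp_pos hρ.le) le_rfl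
  refine Integrable.mono' (((tm_int hN (kp_pos hρ.le)).const_mul (C * Real.exp (kp ρ * x))))
    (tm_mph ρ x N) (Eventually.of_forall fun y => ?_)
  rw [Real.norm_eq_abs, abs_of_pos (ph_pos ρ _)]
  have h1 := hb (x - y)
  have h2 : Real.exp (kp ρ * (x - y)) = Real.exp (kp ρ * x) * Real.exp (-(kp ρ * y)) := by
    rw [← Real.exp_add]; congr 1; ring
  rw [h2] at h1
  rw [mul_assoc]
  exact h1

lemma hat_nonneg (ρ : ℝ) (N : Measure ℝ) (x : ℝ) : 0 ≤ hat ρ N x :=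
  integral_nonneg fun y => (ph_pos ρ _).le

lemma hat_add {ρ : ℝ} (hρ : 0 < ρ) (hint : ¬ ∃ n : ℕ, ρ = n) {N : Measure ℝ} (hN : Tame N)
    (x : ℝ) {u : ℝ} (hu : 0 ≤ u) : hat ρ N (x + u) ≤ Real.exp (kp ρ * u) * hat ρ N x := by
  unfold hat
  rw [← integral_const_mul]
  refine integral_mono (integrable_ph_sub hρ hint hN _)
    ((integrable_ph_sub hρ hint hN x).const_mul _) (fun y => ?_)
  have := ph_add_le ρ hu (x - y)
  have e : x - y + u = x + u - y := by ring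
  rw [e] at this
  exact this

lemma hat_sub {ρ : ℝ} (hρ : 0 < ρ) (hint : ¬ ∃ n : ℕ, ρ = n) {N : Measure ℝ} (hN : Tame N)
    (x : ℝ) {u : ℝ} (hu : 0 ≤ u) : hat ρ N (x - u) ≤ Real.exp (km ρ * u) * hat ρ N x := by
  unfold hat
  rw [← integral_const_mul]
  refine integral_mono (integrable_ph_sub hρ hint hN _)
    ((integrable_ph_sub hρ hint hN x).const_mul _) (fun y => ?_)
  have := ph_sub_le ρ hu (x - y)
  have e : x - y - u = x - u - y := by ring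
  rw [e] at this
  exact this

lemma hat_le {ρ : ℝ} (hρ : 0 < ρ) (hint : ¬ ∃ n : ℕ, ρ = n) {N : Measure ℝ} (hN : Tame N)
    {ε : ℝ} (hε : 0 < ε) : ∃ C > 0, ∀ x, hat ρ N x ≤ C * Real.exp (ε * |x|) := by
  obtain ⟨δ, hδ⟩ : ∃ δ, δ = min ε (kp ρ) := ⟨_, rfl⟩
  have hδ0 : 0 < δ := by rw [hδ]; exact lt_min hε (kp_pos hρ.le)
  have hδ1 : δ ≤ ε := by rw [hδ]; exact min_le_left _ _
  have hδ2 : δ ≤ kp ρ := by rw [hδ]; exact min_le_right _ _
  obtain ⟨C, hC, hb⟩ := tm_ph hρ hint hδ0 hδ2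
  have hI : 0 ≤ ∫ y, Real.exp (-(δ * y)) ∂N := integral_nonneg fun y => (Real.exp_pos _).le
  refine ⟨C * (∫ y, Real.exp (-(δ * y)) ∂N) + 1, by positivity, fun x => ?_⟩
  have h1 := tm_hat hN hδ0 hC hb x
  have h2 : Real.exp (δ * x) ≤ Real.exp (ε * |x|) := by
    apply Real.exp_le_exp.2
    calc δ * x ≤ δ * |x| := mul_le_mul_of_nonneg_left (le_abs_self x) hδ0.le
      _ ≤ ε * |x| := mul_le_mul_of_nonneg_right hδ1 (abs_nonneg x)
  have h3 : C * Real.exp (δ * x) * ∫ y, Real.exp (-(δ * y)) ∂N ≤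
      C * (∫ y, Real.exp (-(δ * y)) ∂N) * Real.exp (ε * |x|) := by
    have h4 := mul_le_mul_of_nonneg_left h2 (mul_nonneg hC.le hI)
    calc C * Real.exp (δ * x) * ∫ y, Real.exp (-(δ * y)) ∂N
        = C * (∫ y, Real.exp (-(δ * y)) ∂N) * Real.exp (δ * x) := by ring
      _ ≤ _ := h4
  have h5 := Real.exp_pos (ε * |x|)
  nlinarith

lemma hat_left {ρ : ℝ} (hρ : 0 < ρ) (hint : ¬ ∃ n : ℕ, ρ = n) {N : Measure ℝ} (hN : Tame N)
    (x₀ : ℝ) : ∃ C, ∀ x ≤ x₀, hat ρ N x ≤ C := by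
  obtain ⟨C, hC, hb⟩ := tm_ph hρ hint (kp_pos hρ.le) le_rfl
  have hI : 0 ≤ ∫ y, Real.exp (-(kp ρ * y)) ∂N := integral_nonneg fun y => (Real.exp_pos _).le
  refine ⟨C * Real.exp (kp ρ * x₀) * ∫ y, Real.exp (-(kp ρ * y)) ∂N, fun x hx => ?_⟩
  refine (tm_hat hN (kp_pos hρ.le) hC hb x).trans ?_
  refine mul_le_mul_of_nonneg_right (mul_le_mul_of_nonneg_left ?_ hC.le) hI
  exact Real.exp_le_exp.2 (mul_le_mul_of_nonneg_left hx (kp_pos hρ.le).le)

lemma tail_right {ρ : ℝ} (hρ : 0 < ρ) (hint : ¬ ∃ n : ℕ, ρ = n) : ∃ C > 0, ∀ N : Measure ℝ,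
    Tame N → ∀ x Z : ℝ, x ≤ Z →
    ∫ y in Ioi Z, ph ρ (x - y) ∂N ≤ C * Real.exp (-(kp ρ * (Z - x))) * hat ρ N Z := by
  obtain ⟨C, hC, hb⟩ := ph_mul ρ
  refine ⟨C, hC, fun N hN x Z hxZ => ?_⟩
  have hi := integrable_ph_sub hρ hint hN Z
  have h0 : ∫ y in Ioi Z, ph ρ (x - y) ∂N ≤
      ∫ y in Ioi Z, C * Real.exp (-(kp ρ * (Z - x))) * ph ρ (Z - y) ∂N := by
    refine setIntegral_mono_on (integrable_ph_sub hρ hint hN x).integrableOn
      (hi.const_mul _).integrableOn measurableSet_Ioi (fun y hy => ?_)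
    have hy' : Z < y := hy
    have h1 := hb (x - Z) (Z - y) (Or.inr ⟨by linarith, by linarith⟩)
    have e : x - Z + (Z - y) = x - y := by ring
    rw [e] at h1
    have h2 := ph_le_exp ρ (x - Z)
    have hp : (0 : ℝ) ≤ (⌊ρ⌋₊ : ℝ) := Nat.cast_nonneg _
    have h3 : Real.exp (kp ρ * (x - Z)) / ((⌊ρ⌋₊ : ℝ) + 1) ≤ Real.exp (-(kp ρ * (Z - x))) := by
      refine (div_le_self (Real.exp_pos _).le (by linarith)).trans (le_of_eq ?_)
      congr 1; ring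
    have h4 : ph ρ (x - Z) * ph ρ (Z - y) ≤ Real.exp (-(kp ρ * (Z - x))) * ph ρ (Z - y) :=
      mul_le_mul_of_nonneg_right (h2.trans h3) (ph_pos ρ _).le
    calc ph ρ (x - y) ≤ C * (ph ρ (x - Z) * ph ρ (Z - y)) := h1
      _ ≤ C * (Real.exp (-(kp ρ * (Z - x))) * ph ρ (Z - y)) :=
        mul_le_mul_of_nonneg_left h4 hC.le
      _ = _ := by ring
  refine h0.trans ?_
  rw [integral_const_mul]
  refine mul_le_mul_of_nonneg_left ?_ (by positivity)
  exact setIntegral_le_integral hi (Eventually.of_forall fun y => (ph_pos ρ _).le)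

lemma tail_left {ρ : ℝ} (hρ : 0 < ρ) (hint : ¬ ∃ n : ℕ, ρ = n) : ∃ C > 0, ∀ N : Measure ℝ,
    Tame N → ∀ x Z : ℝ, Z ≤ x →
    ∫ y in Iic Z, ph ρ (x - y) ∂N ≤ C * ph ρ (x - Z) * hat ρ N Z := by
  obtain ⟨C, hC, hb⟩ := ph_mul ρ
  refine ⟨C, hC, fun N hN x Z hxZ => ?_⟩
  have hi := integrable_ph_sub hρ hint hN Z
  have h0 : ∫ y in Iic Z, ph ρ (x - y) ∂N ≤
      ∫ y in Iic Z, C * ph ρ (x - Z) * ph ρ (Z - y) ∂N := by
    refine setIntegral_mono_on (integrable_ph_sub hρ hint hN x).integrableOn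
      (hi.const_mul _).integrableOn measurableSet_Iic (fun y hy => ?_)
    have hy' : y ≤ Z := hy
    have h1 := hb (x - Z) (Z - y) (Or.inl ⟨by linarith, by linarith⟩)
    have e : x - Z + (Z - y) = x - y := by ring
    rw [e] at h1
    rw [mul_assoc]
    exact h1
  refine h0.trans ?_
  rw [integral_const_mul]
  refine mul_le_mul_of_nonneg_left ?_ (mul_nonneg hC.le (ph_pos ρ _).le)
  exact setIntegral_le_integral hi (Eventually.of_forall fun y => (ph_pos ρ _).le)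

lemma mass_le_hat (ρ : ℝ) (hρ : 0 < ρ) (hint : ¬ ∃ n : ℕ, ρ = n) : ∃ C > 0, ∀ N : Measure ℝ,
    Tame N → ∀ x : ℝ, (N (Icc (x - 1) (x + 1))).toReal ≤ C * hat ρ N x := by
  obtain ⟨s1, hs1, hmin⟩ := (isCompact_Icc (a := (-1 : ℝ)) (b := 1)).exists_isMinOn
    ⟨0, by norm_num, by norm_num⟩ (continuous_ph ρ).continuousOn
  have hmin' : ∀ s ∈ Icc (-1 : ℝ) 1, ph ρ s1 ≤ ph ρ s := fun s hs => hmin hs
  have hc := ph_pos ρ s1
  refine ⟨(ph ρ s1)⁻¹, by positivity, fun N hN x => ?_⟩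
  have hi := integrable_ph_sub hρ hint hN x
  have hfin : N (Icc (x - 1) (x + 1)) < ⊤ :=
    (measure_mono (fun y hy => hy.2)).trans_lt (tm_fin hN (x + 1))
  have h1 : ∫ _ in Icc (x - 1) (x + 1), ph ρ s1 ∂N ≤
      ∫ y in Icc (x - 1) (x + 1), ph ρ (x - y) ∂N := by
    refine setIntegral_mono_on (integrableOn_const hfin.ne) hi.integrableOn
      measurableSet_Icc (fun y hy => ?_)
    exact hmin' _ ⟨by linarith [hy.2], by linarith [hy.1]⟩
  have h2 : ∫ y in Icc (x - 1) (x + 1), ph ρ (x - y) ∂N ≤ hat ρ N x :=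
    setIntegral_le_integral hi (Eventually.of_forall fun y => (ph_pos ρ _).le)
  rw [setIntegral_const, smul_eq_mul] at h1
  have h3 := h1.trans h2
  have h4 : (N (Icc (x - 1) (x + 1))).toReal * ph ρ s1 ≤ hat ρ N x := h3
  rw [inv_mul_eq_div, le_div_iff₀ hc]
  exact h4

lemma integrable_kk_tame {ρ θ : ℝ} (hρ : 0 < ρ) (hint : ¬ ∃ n : ℕ, ρ = n) {N : Measure ℝ}
    (hN : Tame N) (h0 : 0 ≤ θ) (h1 : θ < Real.pi) (x : ℝ) :
    Integrable (fun y => kk ρ θ (x - y)) N := by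
  obtain ⟨C, hC, hb⟩ := abs_kk_le_lt ρ h1
  refine Integrable.mono' ((integrable_ph_sub hρ hint hN x).const_mul C) (tm_mkk ρ θ x N)
    (Eventually.of_forall fun y => ?_)
  rw [Real.norm_eq_abs]
  exact hb θ ⟨h0, le_rfl⟩ (x - y)

private lemma tm_prod {ρ θ κ B : ℝ} {N : Measure ℝ}
    (hN : Tame N) (hθ : θ ∈ Icc (0 : ℝ) Real.pi) (hκ : 0 < κ) (h1 : κ < km ρ) (h2 : κ < kp ρ)
    {T : ℝ → ℝ} (hT : Measurable T) (hB : ∀ x, |T x| ≤ B * Real.exp (-(κ * |x|))) :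
    Integrable (fun q : ℝ × ℝ => kk ρ θ (q.1 - q.2) * T q.1) (volume.prod N) := by
  have := hN.sigmaFinite
  have hB0 : 0 ≤ B := by
    have := hB 0
    rw [abs_zero, mul_zero, neg_zero, Real.exp_zero, mul_one] at this
    exact (abs_nonneg _).trans this
  have hK := integrable_kk_abs (θ := θ) h1 h2 hθ
  have hmeas : Measurable (fun q : ℝ × ℝ => kk ρ θ (q.1 - q.2) * T q.1) :=
    ((measurable_kk ρ θ).comp (measurable_fst.sub measurable_snd)).mul (hT.comp measurable_fst)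
  have hb : ∀ x y : ℝ, ‖kk ρ θ (x - y) * T x‖ ≤
      B * Real.exp (-(κ * |y|)) * (Real.exp (κ * |x - y|) * |kk ρ θ (x - y)|) := by
    intro x y
    rw [Real.norm_eq_abs, abs_mul]
    have h3 : Real.exp (-(κ * |x|)) ≤ Real.exp (-(κ * |y|)) * Real.exp (κ * |x - y|) := by
      rw [← Real.exp_add]
      apply Real.exp_le_exp.2
      have h4 : |y| ≤ |x| + |x - y| := by
        have := abs_sub_abs_le_abs_sub y x
        rw [abs_sub_comm y x] at this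
        linarith
      nlinarith
    have h5 : |T x| ≤ B * (Real.exp (-(κ * |y|)) * Real.exp (κ * |x - y|)) :=
      (hB x).trans (mul_le_mul_of_nonneg_left h3 hB0)
    have h6 := mul_le_mul_of_nonneg_left h5 (abs_nonneg (kk ρ θ (x - y)))
    refine h6.trans (le_of_eq ?_)
    ring
  rw [integrable_prod_iff' hmeas.aestronglyMeasurable]
  constructor
  · refine Eventually.of_forall fun y => ?_
    refine Integrable.mono' ((hK.comp_sub_right y).const_mul (B * Real.exp (-(κ * |y|)))) ?_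
      (Eventually.of_forall fun x => hb x y)
    exact (((measurable_kk ρ θ).comp (measurable_id.sub measurable_const)).mul
      hT).aestronglyMeasurable
  · have hms : StronglyMeasurable (fun y : ℝ => ∫ x, ‖kk ρ θ (x - y) * T x‖) := by
      have h7 : StronglyMeasurable (fun q : ℝ × ℝ => ‖kk ρ θ (q.2 - q.1) * T q.2‖) := by
        refine Measurable.stronglyMeasurable ?_
        exact (((measurable_kk ρ θ).comp (measurable_snd.sub measurable_fst)).mul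
          (hT.comp measurable_snd)).norm
      exact h7.integral_prod_right
    refine Integrable.mono' ((tm_int hN hκ).const_mul
      (B * ∫ s : ℝ, Real.exp (κ * |s|) * |kk ρ θ s|)) hms.aestronglyMeasurable
      (Eventually.of_forall fun y => ?_)
    have hI : 0 ≤ ∫ s : ℝ, Real.exp (κ * |s|) * |kk ρ θ s| :=
      integral_nonneg fun s => mul_nonneg (Real.exp_pos _).le (abs_nonneg _)
    simp only
    rw [Real.norm_eq_abs, abs_of_nonneg (integral_nonneg fun x => norm_nonneg _)]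
    have h8 : ∫ x, ‖kk ρ θ (x - y) * T x‖ ≤
        ∫ x, B * Real.exp (-(κ * |y|)) * (Real.exp (κ * |x - y|) * |kk ρ θ (x - y)|) :=
      integral_mono_of_nonneg (Eventually.of_forall fun x => norm_nonneg _)
        ((hK.comp_sub_right y).const_mul _) (Eventually.of_forall fun x => hb x y)
    rw [integral_const_mul, integral_sub_right_eq_self
      (fun s : ℝ => Real.exp (κ * |s|) * |kk ρ θ s|) y] at h8
    refine h8.trans ?_
    have h9 : Real.exp (-(κ * |y|)) ≤ Real.exp (-(κ * y)) := by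
      apply Real.exp_le_exp.2
      have := mul_le_mul_of_nonneg_left (le_abs_self y) hκ.le
      linarith
    have h10 := mul_le_mul_of_nonneg_left h9 (mul_nonneg hB0 hI)
    calc B * Real.exp (-(κ * |y|)) * ∫ s : ℝ, Real.exp (κ * |s|) * |kk ρ θ s|
        = B * (∫ s : ℝ, Real.exp (κ * |s|) * |kk ρ θ s|) * Real.exp (-(κ * |y|)) := by ring
      _ ≤ _ := h10

lemma integrable_kk_tame_ae {ρ θ : ℝ} (hρ : 0 < ρ) (hint : ¬ ∃ n : ℕ, ρ = n) {N : Measure ℝ}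
    (hN : Tame N) (hθ : θ ∈ Icc (0 : ℝ) Real.pi) :
    ∀ᵐ x : ℝ, Integrable (fun y => kk ρ θ (x - y)) N := by
  have := hN.sigmaFinite
  have hm := km_pos hρ hint
  have hp := kp_pos hρ.le
  obtain ⟨κ, hκ⟩ : ∃ κ, κ = min (km ρ) (kp ρ) / 2 := ⟨_, rfl⟩
  have hκ0 : 0 < κ := by rw [hκ]; exact half_pos (lt_min hm hp)
  have hκm : κ < km ρ := by
    rw [hκ]; have := min_le_left (km ρ) (kp ρ); linarith
  have hκp : κ < kp ρ := by
    rw [hκ]; have := min_le_right (km ρ) (kp ρ); linarith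
  have hT : Measurable (fun x : ℝ => Real.exp (-(κ * |x|))) := by fun_prop
  have h := tm_prod (B := 1) hN hθ hκ0 hκm hκp hT (fun x => by
    rw [abs_of_pos (Real.exp_pos _), one_mul])
  have h2 := h.prod_right_ae
  filter_upwards [h2] with x hx
  have h3 := hx.mul_const (Real.exp (κ * |x|))
  refine h3.congr (Eventually.of_forall fun y => ?_)
  simp only
  rw [mul_assoc, ← Real.exp_add]
  simp

lemma Um_le {ρ : ℝ} (hρ : 0 < ρ) (hint : ¬ ∃ n : ℕ, ρ = n) : ∃ C > 0, ∀ N : Measure ℝ, Tame N →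
    ∀ θ x : ℝ, Um ρ θ N x ≤ C * hat ρ N x := by
  obtain ⟨C, hC, hb⟩ := kk_le_ph ρ
  refine ⟨C, hC, fun N hN θ x => ?_⟩
  by_cases h : Integrable (fun y => kk ρ θ (x - y)) N
  · unfold Um hat
    rw [← integral_const_mul]
    exact integral_mono h ((integrable_ph_sub hρ hint hN x).const_mul _) (fun y => hb θ (x - y))
  · unfold Um
    rw [integral_undef h]
    exact mul_nonneg hC.le (hat_nonneg ρ N x)

lemma abs_Um_le {ρ θ₁ : ℝ} (hρ : 0 < ρ) (hint : ¬ ∃ n : ℕ, ρ = n) (h : θ₁ < Real.pi) :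
    ∃ C > 0, ∀ N : Measure ℝ, Tame N → ∀ θ ∈ Icc (0 : ℝ) θ₁, ∀ x : ℝ,
      |Um ρ θ N x| ≤ C * hat ρ N x := by
  obtain ⟨C, hC, hb⟩ := abs_kk_le_lt ρ h
  refine ⟨C, hC, fun N hN θ hθ x => ?_⟩
  unfold Um hat
  rw [← integral_const_mul, ← Real.norm_eq_abs]
  refine norm_integral_le_of_norm_le ((integrable_ph_sub hρ hint hN x).const_mul _)
    (Eventually.of_forall fun y => ?_)
  rw [Real.norm_eq_abs]
  exact hb θ hθ (x - y)

lemma measurable_Um {ρ : ℝ} (θ : ℝ) {N : Measure ℝ} (hN : Tame N) : Measurable (Um ρ θ N) := by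
  have := hN.sigmaFinite
  have h7 : StronglyMeasurable (fun q : ℝ × ℝ => kk ρ θ (q.1 - q.2)) :=
    ((measurable_kk ρ θ).comp (measurable_fst.sub measurable_snd)).stronglyMeasurable
  exact (h7.integral_prod_right (ν := N)).measurable

lemma tame_fubini {ρ θ κ B : ℝ} (hρ : 0 < ρ) (hint : ¬ ∃ n : ℕ, ρ = n) {N : Measure ℝ}
    (hN : Tame N) (hθ : θ ∈ Icc (0 : ℝ) Real.pi) (hκ : 0 < κ) (h1 : κ < km ρ) (h2 : κ < kp ρ)
    {T : ℝ → ℝ} (hT : Measurable T) (hB : ∀ x, |T x| ≤ B * Real.exp (-(κ * |x|))) :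
    Integrable (fun x => Um ρ θ N x * T x) ∧ Integrable (fun y => ∫ x, kk ρ θ (x - y) * T x) N ∧
      ∫ x, Um ρ θ N x * T x = ∫ y, (∫ x, kk ρ θ (x - y) * T x) ∂N := by
  have := hN.sigmaFinite
  have h := tm_prod hN hθ hκ h1 h2 hT hB
  have e1 : ∀ x, ∫ y, kk ρ θ (x - y) * T x ∂N = Um ρ θ N x * T x := fun x =>
    integral_mul_const _ _
  refine ⟨?_, h.integral_prod_right, ?_⟩
  · have h3 := h.integral_prod_left
    simp only [e1] at h3
    exact h3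
  · have h4 := integral_integral_swap (f := fun x y => kk ρ θ (x - y) * T x) (μ := volume)
      (ν := N) h
    simp only [e1] at h4
    exact h4

end Helper25.Ind
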